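import Mathlib

/-!
Piecewise linear germs with infinitely many breakpoints `θ / 2 ^ m`.
-/

set_option autoImplicit false

namespace Pool.Agent.Lib.MP_02e8f2_lc

open Set Filter Topology

theorem geo_summable {θ B : ℝ} (h0 : 0 < θ) (h1 : θ ≤ 1 / 2) {v : ℕ → ℝ} (hv : ∀ m, |v m| ≤ B) :
    Summable fun m => θ ^ (m + 1) * v m := by
  have hs : Summable fun m : ℕ => θ ^ m * (θ * B) :=
    (summable_geometric_of_lt_one h0.le (by linarith)).mul_right _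
  refine Summable.of_norm_bounded hs fun m => ?_
  rw [Real.norm_eq_abs, abs_mul, abs_of_pos (pow_pos h0 _), pow_succ, mul_assoc]
  have := hv m
  gcongr

theorem geo_bound {θ B : ℝ} (h0 : 0 < θ) (h1 : θ ≤ 1 / 2) {v : ℕ → ℝ} (hv : ∀ m, |v m| ≤ B) :
    |∑' m, θ ^ (m + 1) * v m| ≤ 2 * θ * B := by
  have hB : 0 ≤ B := (abs_nonneg _).trans (hv 0)
  have hs : HasSum (fun m : ℕ => θ ^ m * (θ * B)) ((1 - θ)⁻¹ * (θ * B)) :=
    (hasSum_geometric_of_lt_one h0.le (by linarith)).mul_right _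
  have h2 : ‖∑' m, θ ^ (m + 1) * v m‖ ≤ (1 - θ)⁻¹ * (θ * B) := by
    refine tsum_of_norm_bounded hs fun m => ?_
    rw [Real.norm_eq_abs, abs_mul, abs_of_pos (pow_pos h0 _), pow_succ, mul_assoc]
    have := hv m
    gcongr
  have h3 : (1 - θ)⁻¹ ≤ 2 := by
    rw [inv_le_comm₀ (by linarith) (by norm_num)]; linarith
  calc _ ≤ (1 - θ)⁻¹ * (θ * B) := h2
    _ ≤ 2 * (θ * B) := by gcongr
    _ = _ := by ring

/-- A sum of hinge functions. -/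
noncomputable def bump (θ : ℝ) (u : ℕ → ℝ) (t : ℝ) : ℝ :=
  ∑' m, θ ^ (m + 1) * (u m * max (t - θ / 2 ^ (m + 1)) 0)

section

variable {θ Γ : ℝ} {u u' : ℕ → ℝ}

theorem hinge_le (h0 : 0 < θ) (hu : ∀ m, |u m| ≤ Γ) (t : ℝ) (m : ℕ) :
    |u m * max (t - θ / 2 ^ (m + 1)) 0| ≤ Γ * max t 0 := by
  have h2 : 0 < θ / 2 ^ (m + 1) := by positivity
  rw [abs_mul, abs_of_nonneg (le_max_right (t - θ / 2 ^ (m + 1)) 0)]
  exact mul_le_mul (hu m) (max_le_max (by linarith) le_rfl) (le_max_right _ _)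
    ((abs_nonneg _).trans (hu m))

theorem bump_summable (h0 : 0 < θ) (h1 : θ ≤ 1 / 2) (hu : ∀ m, |u m| ≤ Γ) (t : ℝ) :
    Summable fun m => θ ^ (m + 1) * (u m * max (t - θ / 2 ^ (m + 1)) 0) :=
  geo_summable h0 h1 (hinge_le h0 hu t)

theorem bump_abs (h0 : 0 < θ) (h1 : θ ≤ 1 / 2) (hu : ∀ m, |u m| ≤ Γ) (t : ℝ) :
    |bump θ u t| ≤ 2 * θ * (Γ * max t 0) := geo_bound h0 h1 (hinge_le h0 hu t)

theorem bump_zero (h0 : 0 < θ) {t : ℝ} (ht : t ≤ 0) : bump θ u t = 0 := by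
  have : ∀ m : ℕ, max (t - θ / 2 ^ (m + 1)) 0 = 0 := fun m => by
    have h2 : 0 < θ / 2 ^ (m + 1) := by positivity
    exact max_eq_right (by linarith)
  simp [bump, this]

theorem bump_sub (h0 : 0 < θ) (h1 : θ ≤ 1 / 2) (hu : ∀ m, |u m| ≤ Γ) (hu' : ∀ m, |u' m| ≤ Γ)
    (t : ℝ) : bump θ u' t - bump θ u t = bump θ (fun m => u' m - u m) t := by
  rw [bump, bump, bump, ← (bump_summable h0 h1 hu' t).tsum_sub (bump_summable h0 h1 hu t)]
  exact tsum_congr fun m => by ring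

theorem bump_mul (c t : ℝ) : bump θ (fun m => c * u m) t = c * bump θ u t := by
  rw [bump, bump, ← tsum_mul_left]
  exact tsum_congr fun m => by ring

theorem bump_nonneg (h0 : 0 < θ) (hp : ∀ m, 0 ≤ u m) (t : ℝ) : 0 ≤ bump θ u t :=
  tsum_nonneg fun m => by
    have := hp m
    have := le_max_right (t - θ / 2 ^ (m + 1)) 0
    positivity

theorem lev_tendsto (θ : ℝ) : Tendsto (fun n : ℕ => θ / 2 ^ n) atTop (𝓝 0) :=
  tendsto_const_nhds.div_atTop (tendsto_pow_atTop_atTop_of_one_lt one_lt_two)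

theorem bump_pos (h0 : 0 < θ) (h1 : θ ≤ 1 / 2) (hu : ∀ m, |u m| ≤ Γ) (hp : ∀ m, 0 ≤ u m)
    (hf : ∀ N, ∃ m ≥ N, 0 < u m) {t : ℝ} (ht : 0 < t) : 0 < bump θ u t := by
  obtain ⟨N, hN⟩ := eventually_atTop.1 ((lev_tendsto θ).eventually_lt_const ht)
  obtain ⟨m, hm, hm'⟩ := hf N
  refine (bump_summable h0 h1 hu t).tsum_pos (fun m => ?_) m ?_
  · have := hp m
    have := le_max_right (t - θ / 2 ^ (m + 1)) 0
    positivity
  · have := hN (m + 1) (by omega)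
    have : 0 < max (t - θ / 2 ^ (m + 1)) 0 := lt_max_of_lt_left (by linarith)
    positivity

theorem bump_concave (h0 : 0 < θ) (h1 : θ ≤ 1 / 2) (hu : ∀ m, |u m| ≤ Γ) (hp : ∀ m, u m ≤ 0) :
    ConcaveOn ℝ univ (bump θ u) := by
  refine ⟨convex_univ, fun x _ y _ a b ha hb hab => ?_⟩
  simp only [smul_eq_mul, bump]
  rw [← tsum_mul_left, ← tsum_mul_left, ← ((bump_summable h0 h1 hu x).mul_left a).tsum_add
    ((bump_summable h0 h1 hu y).mul_left b)]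
  refine Summable.tsum_le_tsum (fun m => ?_) (((bump_summable h0 h1 hu x).mul_left a).add
    ((bump_summable h0 h1 hu y).mul_left b)) (bump_summable h0 h1 hu _)
  set s := θ / 2 ^ (m + 1)
  have h2 : max (a * x + b * y - s) 0 ≤ a * max (x - s) 0 + b * max (y - s) 0 := by
    have e : a * x + b * y - s = a * (x - s) + b * (y - s) := by linear_combination s * hab
    refine max_le ?_ (by positivity)
    rw [e]
    gcongr <;> exact le_max_left _ _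
  have h3 := mul_le_mul_of_nonpos_left h2 (hp m)
  have h4 := mul_le_mul_of_nonneg_left h3 (pow_pos h0 (m + 1)).le
  linarith

theorem bump_lip (h0 : 0 < θ) (h1 : θ ≤ 1 / 2) (hu : ∀ m, |u m| ≤ Γ) (t t' : ℝ) :
    |bump θ u t - bump θ u t'| ≤ 2 * θ * (Γ * |t - t'|) := by
  rw [bump, bump, ← (bump_summable h0 h1 hu t).tsum_sub (bump_summable h0 h1 hu t')]
  simp only [← mul_sub]
  refine geo_bound h0 h1 fun m => ?_
  rw [abs_mul]
  refine mul_le_mul (hu m) ?_ (abs_nonneg _) ((abs_nonneg _).trans (hu m))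
  refine (abs_max_sub_max_le_abs _ _ _).trans (le_of_eq ?_)
  congr 1; ring

theorem bump_cont (h0 : 0 < θ) (h1 : θ ≤ 1 / 2) (hu : ∀ m, |u m| ≤ Γ) : Continuous (bump θ u) := by
  have hΓ : 0 ≤ Γ := (abs_nonneg _).trans (hu 0)
  refine (LipschitzWith.of_dist_le_mul (K := ⟨2 * θ * Γ, by positivity⟩) fun t t' => ?_).continuous
  have := bump_lip h0 h1 hu t t'
  rw [Real.dist_eq, Real.dist_eq]
  change _ ≤ 2 * θ * Γ * |t - t'|
  linarith

theorem bump_affine (h0 : 0 < θ) (h1 : θ ≤ 1 / 2) (hu : ∀ m, |u m| ≤ Γ) (n : ℕ) :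
    ∃ κ β : ℝ, |κ| ≤ 2 * θ * Γ ∧ ∀ t, θ / 2 ^ (n + 1) ≤ t → (n = 0 ∨ t ≤ θ / 2 ^ n) →
      bump θ u t = κ * t + β := by
  have hΓ : 0 ≤ Γ := (abs_nonneg _).trans (hu 0)
  have hv : ∀ m, |if n ≤ m then u m else 0| ≤ Γ := fun m => by
    split_ifs
    · exact hu m
    · simpa using hΓ
  have hw : ∀ m : ℕ, |(if n ≤ m then u m else 0) * -(θ / 2 ^ (m + 1))| ≤ Γ * θ := fun m => by
    rw [abs_mul, abs_neg, abs_of_pos (by positivity : 0 < θ / 2 ^ (m + 1))]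
    refine mul_le_mul (hv m) (div_le_self h0.le (one_le_pow₀ one_le_two)) (by positivity) hΓ
  refine ⟨_, ∑' m, θ ^ (m + 1) * ((if n ≤ m then u m else 0) * -(θ / 2 ^ (m + 1))),
    geo_bound h0 h1 hv, fun t ht ht' => ?_⟩
  rw [← tsum_mul_right, ← ((geo_summable h0 h1 hv).mul_right t).tsum_add (geo_summable h0 h1 hw)]
  refine tsum_congr fun m => ?_
  split_ifs with h
  · have : θ / 2 ^ (m + 1) ≤ θ / 2 ^ (n + 1) := by gcongr; norm_num
    rw [max_eq_left (by linarith)]; ring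
  · have h2 : t ≤ θ / 2 ^ n := ht'.resolve_left (by omega)
    have : θ / 2 ^ n ≤ θ / 2 ^ (m + 1) := by gcongr; norm_num; omega
    rw [max_eq_right (by linarith)]; ring

theorem bump_dom (h0 : 0 < θ) (h1 : θ ≤ 1 / 2) (hu : ∀ m, |u m| ≤ Γ) (n : ℕ)
    (h : 4 * θ * Γ < u n) : 0 < bump θ u (θ / 2 ^ n) := by
  rw [bump, ← (bump_summable h0 h1 hu _).sum_add_tsum_nat_add (n + 1), Finset.sum_range_succ]
  have e1 : ∑ m ∈ Finset.range n, θ ^ (m + 1) * (u m * max (θ / 2 ^ n - θ / 2 ^ (m + 1)) 0) = 0 := by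
    refine Finset.sum_eq_zero fun m hm => ?_
    have : θ / 2 ^ n ≤ θ / 2 ^ (m + 1) := by
      have := Finset.mem_range.1 hm
      gcongr; norm_num; omega
    rw [max_eq_right (by linarith)]; ring
  have hs : 0 < θ / 2 ^ n := by positivity
  have e2 : θ / 2 ^ n - θ / 2 ^ (n + 1) = θ / 2 ^ n / 2 := by rw [pow_succ]; field_simp; ring
  have e3 : ∑' m, θ ^ (m + (n + 1) + 1) * (u (m + (n + 1)) *
      max (θ / 2 ^ n - θ / 2 ^ (m + (n + 1) + 1)) 0) = θ ^ (n + 1) * ∑' m, θ ^ (m + 1) *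
      (u (m + (n + 1)) * max (θ / 2 ^ n - θ / 2 ^ (m + (n + 1) + 1)) 0) := by
    rw [← tsum_mul_left]
    exact tsum_congr fun m => by ring
  have e4 := geo_bound h0 h1 fun m => hinge_le h0 hu (θ / 2 ^ n) (m + (n + 1))
  rw [max_eq_left hs.le] at e4
  rw [e1, e2, e3, max_eq_left (by positivity), zero_add, ← mul_add]
  refine mul_pos (pow_pos h0 _) ?_
  have := (abs_le.1 e4).1
  nlinarith

end

/-- The germ with value `φ`, slope `s` and second-order data `u`. -/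
noncomputable def thin (θ φ s : ℝ) (u : ℕ → ℝ) (t : ℝ) : ℝ := φ + s * t + bump θ u t

/-- Small positive parameters. -/
abbrev Sm : Filter ℝ := 𝓝[>] 0

theorem sm_basic : ∀ᶠ θ in Sm, 0 < θ ∧ θ ≤ 1 / 2 :=
  (Ioc_mem_nhdsGT (by norm_num : (0 : ℝ) < 1 / 2))

theorem sm_lt {c : ℝ} (hc : 0 < c) (B : ℝ) : ∀ᶠ θ in Sm, θ * B < c := by
  have : Tendsto (fun θ : ℝ => θ * B) Sm (𝓝 (0 * B)) :=
    (Continuous.tendsto (by fun_prop) 0).mono_left nhdsWithin_le_nhds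
  exact this.eventually_lt_const (by simpa using hc)

section

variable {θ Γ φ s : ℝ} {u : ℕ → ℝ}

theorem thin_near (h0 : 0 < θ) (h1 : θ ≤ 1 / 2) (hu : ∀ m, |u m| ≤ Γ) {t : ℝ} (ht : 0 ≤ t) :
    |thin θ φ s u t - φ| ≤ (|s| + Γ) * t := by
  have h2 := bump_abs h0 h1 hu t
  have hΓ : 0 ≤ Γ := (abs_nonneg _).trans (hu 0)
  rw [max_eq_left ht] at h2
  have h3 : 2 * θ * (Γ * t) ≤ Γ * t := by nlinarith [mul_nonneg hΓ ht]
  have h4 := abs_add_le (s * t) (bump θ u t)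
  rw [abs_mul, abs_of_nonneg ht] at h4
  rw [thin, show φ + s * t + bump θ u t - φ = s * t + bump θ u t by ring]
  linarith

theorem thin_pos1 (hu : ∀ m, |u m| ≤ Γ) (h : 0 < φ ∨ (φ = 0 ∧ 0 < s)) :
    ∀ᶠ θ in Sm, ∀ t, 0 < t → t ≤ θ → 0 < thin θ φ s u t := by
  have hΓ : 0 ≤ Γ := (abs_nonneg _).trans (hu 0)
  rcases h with h | ⟨h, h'⟩
  · filter_upwards [sm_basic, sm_lt h (|s| + Γ)] with θ h1 h2 t ht ht'
    have h3 := (abs_le.1 (thin_near (φ := φ) (s := s) h1.1 h1.2 hu ht.le)).1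
    have : (|s| + Γ) * t ≤ (|s| + Γ) * θ := by gcongr
    linarith
  · filter_upwards [sm_basic, sm_lt h' (2 * Γ)] with θ h1 h2 t ht _
    have h3 := (abs_le.1 (bump_abs h1.1 h1.2 hu t)).1
    rw [max_eq_left ht.le] at h3
    rw [thin, h]
    nlinarith

theorem thin_nonneg (hu : ∀ m, |u m| ≤ Γ)
    (h : 0 < φ ∨ (φ = 0 ∧ (0 < s ∨ (s = 0 ∧ ∀ m, 0 ≤ u m)))) :
    ∀ᶠ θ in Sm, ∀ t, 0 ≤ t → t ≤ θ → 0 ≤ thin θ φ s u t := by
  have h0 : 0 ≤ φ := by rcases h with h | h; exacts [h.le, h.1.ge]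
  by_cases h1 : 0 < φ ∨ (φ = 0 ∧ 0 < s)
  · filter_upwards [sm_basic, thin_pos1 hu h1] with θ h2 h3 t ht ht'
    rcases ht.eq_or_lt with rfl | ht
    · simpa [thin, bump_zero h2.1 le_rfl] using h0
    · exact (h3 t ht ht').le
  · have h2 : φ = 0 ∧ s = 0 ∧ ∀ m, 0 ≤ u m := by tauto
    filter_upwards [sm_basic] with θ h3 t _ _
    simpa [thin, h2.1, h2.2.1] using bump_nonneg h3.1 h2.2.2 t

theorem thin_pos2 (hu : ∀ m, |u m| ≤ Γ)
    (h : 0 < φ ∨ (φ = 0 ∧ (0 < s ∨ (s = 0 ∧ (∀ m, 0 ≤ u m) ∧ ∀ N, ∃ m ≥ N, 0 < u m)))) :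
    ∀ᶠ θ in Sm, ∀ t, 0 < t → t ≤ θ → 0 < thin θ φ s u t := by
  by_cases h1 : 0 < φ ∨ (φ = 0 ∧ 0 < s)
  · exact thin_pos1 hu h1
  · have h2 : φ = 0 ∧ s = 0 ∧ (∀ m, 0 ≤ u m) ∧ ∀ N, ∃ m ≥ N, 0 < u m := by tauto
    filter_upwards [sm_basic] with θ h3 t ht _
    simpa [thin, h2.1, h2.2.1] using bump_pos h3.1 h3.2 hu h2.2.2.1 h2.2.2.2 ht

theorem thin_pos3 (hu : ∀ m, |u m| ≤ Γ) {γ : ℝ}
    (h : 0 < φ ∨ (φ = 0 ∧ (0 < s ∨ (s = 0 ∧ 0 < γ)))) :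
    ∀ᶠ θ in Sm, ∀ n, u n = γ → 0 < thin θ φ s u (θ / 2 ^ n) := by
  by_cases h1 : 0 < φ ∨ (φ = 0 ∧ 0 < s)
  · filter_upwards [sm_basic, thin_pos1 hu h1] with θ h2 h3 n _
    exact h3 _ (by have := h2.1; positivity) (div_le_self h2.1.le (one_le_pow₀ one_le_two))
  · have h2 : φ = 0 ∧ s = 0 ∧ 0 < γ := by tauto
    filter_upwards [sm_basic, sm_lt h2.2.2 (4 * Γ)] with θ h3 h4 n hn
    simpa [thin, h2.1, h2.2.1] using bump_dom h3.1 h3.2 hu n (by rw [hn]; linarith)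

end

end Pool.Agent.Lib.MP_02e8f2_lc
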