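import Pool.Agent.Lib.MP_02e8f2_lc.Cert
import Pool.Agent.Lib.MP_02e8f2_lc.Thin

/-!
Boundary functions on a cell, built from the data on its two lines.
-/

set_option autoImplicit false

namespace Pool.Agent.Lib.MP_02e8f2_lc

open Set Filter Topology

theorem sg_true : sg true = 1 := rfl
theorem sg_false : sg false = -1 := rfl
theorem sg_mul_self (b : Bool) : sg b * sg b = 1 := by cases b <;> simp [sg]
theorem abs_sg (b : Bool) : |sg b| = 1 := by cases b <;> simp [sg]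

/-- The affine function through `(α₀ + θ, y₀)` and `(α₁ - θ, y₁)`. -/
noncomputable def lin (α₀ α₁ θ y₀ y₁ x : ℝ) : ℝ :=
  y₀ + (y₁ - y₀) / (α₁ - α₀ - 2 * θ) * (x - α₀ - θ)

/-- Two germs joined by an affine function. -/
noncomputable def glue (α₀ α₁ θ : ℝ) (f₀ f₁ : ℝ → ℝ) (x : ℝ) : ℝ :=
  if x ≤ α₀ + θ then f₀ (x - α₀) else if α₁ - θ ≤ x then f₁ (α₁ - x) else
    lin α₀ α₁ θ (f₀ θ) (f₁ θ) x

section

variable {α₀ α₁ θ : ℝ} {f₀ f₁ : ℝ → ℝ}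

theorem lin_left (y₀ y₁ : ℝ) : lin α₀ α₁ θ y₀ y₁ (α₀ + θ) = y₀ := by simp [lin]

theorem lin_right (h : 2 * θ < α₁ - α₀) (y₀ y₁ : ℝ) : lin α₀ α₁ θ y₀ y₁ (α₁ - θ) = y₁ := by
  have : α₁ - α₀ - 2 * θ ≠ 0 := by linarith
  rw [lin, show α₁ - θ - α₀ - θ = α₁ - α₀ - 2 * θ by ring, div_mul_cancel₀ _ this]; ring

theorem glue_left {x : ℝ} (h : x ≤ α₀ + θ) : glue α₀ α₁ θ f₀ f₁ x = f₀ (x - α₀) := if_pos h

theorem glue_right (hw : 2 * θ < α₁ - α₀) {x : ℝ} (h : α₁ - θ ≤ x) :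
    glue α₀ α₁ θ f₀ f₁ x = f₁ (α₁ - x) := by
  rw [glue, if_neg (by linarith), if_pos h]

theorem glue_mid (hw : 2 * θ < α₁ - α₀) {x : ℝ} (h : α₀ + θ ≤ x) (h' : x ≤ α₁ - θ) :
    glue α₀ α₁ θ f₀ f₁ x = lin α₀ α₁ θ (f₀ θ) (f₁ θ) x := by
  rcases h.eq_or_lt with rfl | h
  · rw [glue_left le_rfl, lin_left]; simp
  rcases h'.eq_or_lt with rfl | h'
  · rw [glue_right hw le_rfl, lin_right hw]; simp
  rw [glue, if_neg h.not_ge, if_neg h'.not_ge]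

theorem glue_mul (c x : ℝ) : c * glue α₀ α₁ θ f₀ f₁ x =
    glue α₀ α₁ θ (fun t => c * f₀ t) (fun t => c * f₁ t) x := by
  unfold glue lin
  split_ifs <;> ring

theorem germ_le {f : ℝ → ℝ} (hf : ConcaveOn ℝ univ f) {κ : ℝ}
    (h : ∀ t, θ ≤ t → f θ + κ * (t - θ) ≤ f t) {t : ℝ} (ht : t ≤ θ) : f t ≤ f θ + κ * (t - θ) := by
  have h1 : ConvexOn ℝ univ fun t : ℝ => κ * t := by
    refine ⟨convex_univ, fun x _ y _ a b _ _ _ => le_of_eq ?_⟩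
    simp only [smul_eq_mul]; ring
  have h2 := (hf.sub h1).left_le_of_le_right'' (mem_univ t) (mem_univ (θ + 1)) ht
    (lt_add_one θ) (by have := h (θ + 1) (by linarith); simp only [Pi.sub_apply]; linarith)
  simp only [Pi.sub_apply] at h2
  linarith

theorem glue_eq_min (hw : 2 * θ < α₁ - α₀) (h₀ : ConcaveOn ℝ univ f₀) (h₁ : ConcaveOn ℝ univ f₁)
    (j₀ : ∀ t, θ ≤ t → f₀ θ + (f₁ θ - f₀ θ) / (α₁ - α₀ - 2 * θ) * (t - θ) ≤ f₀ t)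
    (j₁ : ∀ t, θ ≤ t → f₁ θ + (f₀ θ - f₁ θ) / (α₁ - α₀ - 2 * θ) * (t - θ) ≤ f₁ t) (x : ℝ) :
    glue α₀ α₁ θ f₀ f₁ x =
      min (min (f₀ (x - α₀)) (f₁ (α₁ - x))) (lin α₀ α₁ θ (f₀ θ) (f₁ θ) x) := by
  have hne : α₁ - α₀ - 2 * θ ≠ 0 := by linarith
  have e₀ : lin α₀ α₁ θ (f₀ θ) (f₁ θ) x =
      f₀ θ + (f₁ θ - f₀ θ) / (α₁ - α₀ - 2 * θ) * (x - α₀ - θ) := rfl
  have e₁ : lin α₀ α₁ θ (f₀ θ) (f₁ θ) x =
      f₁ θ + (f₀ θ - f₁ θ) / (α₁ - α₀ - 2 * θ) * (α₁ - x - θ) := by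
    rw [e₀]; field_simp; ring
  rcases le_total x (α₀ + θ) with h | h
  · have k1 := germ_le h₀ j₀ (t := x - α₀) (by linarith)
    have k2 := j₁ (α₁ - x) (by linarith)
    rw [glue_left h, min_eq_left (b := f₁ _) (by linarith), min_eq_left (by linarith)]
  rcases le_total x (α₁ - θ) with h' | h'
  · have k1 := j₀ (x - α₀) (by linarith)
    have k2 := j₁ (α₁ - x) (by linarith)
    rw [glue_mid hw h h', min_eq_right (le_min (by linarith) (by linarith))]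
  · have k1 := germ_le h₁ j₁ (t := α₁ - x) (by linarith)
    have k2 := j₀ (x - α₀) (by linarith)
    rw [glue_right hw h', min_eq_right (a := f₀ _) (by linarith), min_eq_left (by linarith)]

theorem concave_comp {f : ℝ → ℝ} (hf : ConcaveOn ℝ univ f) (p q : ℝ) :
    ConcaveOn ℝ univ fun x => f (p * x + q) := by
  refine ⟨convex_univ, fun x _ y _ a b ha hb hab => ?_⟩
  have := hf.2 (mem_univ (p * x + q)) (mem_univ (p * y + q)) ha hb hab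
  simp only [smul_eq_mul] at this ⊢
  rwa [show a * (p * x + q) + b * (p * y + q) = p * (a * x + b * y) + q by
    linear_combination q * hab] at this

theorem glue_concave (hw : 2 * θ < α₁ - α₀) (h₀ : ConcaveOn ℝ univ f₀) (h₁ : ConcaveOn ℝ univ f₁)
    (c₀ : Continuous f₀) (c₁ : Continuous f₁)
    (j₀ : ∀ t, θ ≤ t → f₀ θ + (f₁ θ - f₀ θ) / (α₁ - α₀ - 2 * θ) * (t - θ) ≤ f₀ t)
    (j₁ : ∀ t, θ ≤ t → f₁ θ + (f₀ θ - f₁ θ) / (α₁ - α₀ - 2 * θ) * (t - θ) ≤ f₁ t) :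
    ConcaveOn ℝ univ (glue α₀ α₁ θ f₀ f₁) ∧ Continuous (glue α₀ α₁ θ f₀ f₁) ∧
      ∀ x, glue α₀ α₁ θ f₀ f₁ x ≤ f₀ (x - α₀) ∧ glue α₀ α₁ θ f₀ f₁ x ≤ f₁ (α₁ - x) := by
  have e := glue_eq_min hw h₀ h₁ j₀ j₁
  refine ⟨?_, ?_, fun x => ?_⟩
  · rw [funext e]
    have k₀ := concave_comp h₀ 1 (-α₀)
    have k₁ := concave_comp h₁ (-1) α₁
    have k₂ : ConcaveOn ℝ univ (lin α₀ α₁ θ (f₀ θ) (f₁ θ)) := by
      refine ⟨convex_univ, fun x _ y _ a b _ _ hab => le_of_eq ?_⟩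
      simp only [smul_eq_mul, lin]
      obtain rfl : b = 1 - a := by linarith
      ring
    refine ((k₀.inf k₁).inf k₂).congr fun x _ => ?_
    simp only [Pi.inf_apply, one_mul, neg_mul, sub_eq_add_neg, add_comm]
  · rw [funext e]
    unfold lin
    fun_prop
  · rw [e]
    exact ⟨(min_le_left _ _).trans (min_le_left _ _), (min_le_left _ _).trans (min_le_right _ _)⟩

end

theorem thin_mul (c θ φ s : ℝ) (u : ℕ → ℝ) (t : ℝ) :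
    c * thin θ φ s u t = thin θ (c * φ) (c * s) (fun m => c * u m) t := by
  rw [thin, thin, bump_mul]; ring

theorem thin_sub {θ Γ φ s φ' s' : ℝ} {u u' : ℕ → ℝ} (h0 : 0 < θ) (h1 : θ ≤ 1 / 2)
    (hu : ∀ m, |u m| ≤ Γ) (hu' : ∀ m, |u' m| ≤ Γ) (t : ℝ) :
    thin θ φ' s' u' t - thin θ φ s u t = thin θ (φ' - φ) (s' - s) (fun m => u' m - u m) t := by
  rw [thin, thin, thin, ← bump_sub h0 h1 hu hu']; ring

theorem thin_concave {θ Γ : ℝ} (φ s : ℝ) {u : ℕ → ℝ} (h0 : 0 < θ) (h1 : θ ≤ 1 / 2)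
    (hu : ∀ m, |u m| ≤ Γ) (hp : ∀ m, u m ≤ 0) : ConcaveOn ℝ univ (thin θ φ s u) := by
  have k : ConcaveOn ℝ univ fun t : ℝ => φ + s * t := by
    refine ⟨convex_univ, fun x _ y _ a b _ _ hab => le_of_eq ?_⟩
    simp only [smul_eq_mul]
    obtain rfl : b = 1 - a := by linarith
    ring
  exact k.add (bump_concave h0 h1 hu hp)

theorem thin_cont {θ Γ : ℝ} (φ s : ℝ) {u : ℕ → ℝ} (h0 : 0 < θ) (h1 : θ ≤ 1 / 2)
    (hu : ∀ m, |u m| ≤ Γ) : Continuous (thin θ φ s u) := by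
  have := bump_cont h0 h1 hu
  unfold thin
  fun_prop

/-- The junction inequality for small parameters. -/
theorem junction {Γ φ₀ s₀ φ₁ s₁ w : ℝ} {u₀ u₁ : ℕ → ℝ} (hw : 0 < w) (hu₀ : ∀ m, |u₀ m| ≤ Γ)
    (hu₁ : ∀ m, |u₁ m| ≤ Γ) (h : φ₁ - φ₀ < s₀ * w ∨
      (φ₁ - φ₀ = s₀ * w ∧ φ₀ - φ₁ = s₁ * w ∧ (∀ m, u₀ m = 0) ∧ ∀ m, u₁ m = 0)) :
    ∀ᶠ θ in Sm, ∀ t, θ ≤ t → thin θ φ₀ s₀ u₀ θ +
      (thin θ φ₁ s₁ u₁ θ - thin θ φ₀ s₀ u₀ θ) / (w - 2 * θ) * (t - θ) ≤ thin θ φ₀ s₀ u₀ t := by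
  have hΓ : 0 ≤ Γ := (abs_nonneg _).trans (hu₀ 0)
  rcases h with h | ⟨h1, h2, h3, h4⟩
  · filter_upwards [sm_basic, sm_lt hw 2, sm_lt (sub_pos.2 h)
      (|s₀| + Γ + (|s₁| + Γ) + 2 * |s₀| + 2 * Γ * w)] with θ k1 k2 k3 t ht
    obtain ⟨κ, β, hκ, e⟩ := bump_affine k1.1 k1.2 hu₀ 0
    have a0 := abs_le.1 (thin_near (φ := φ₀) (s := s₀) k1.1 k1.2 hu₀ k1.1.le)
    have a1 := abs_le.1 (thin_near (φ := φ₁) (s := s₁) k1.1 k1.2 hu₁ k1.1.le)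
    have a2 := abs_le.1 hκ
    have k4 : (thin θ φ₁ s₁ u₁ θ - thin θ φ₀ s₀ u₀ θ) / (w - 2 * θ) ≤ s₀ + κ := by
      rw [div_le_iff₀ (by linarith)]
      have b1 : -(2 * θ * Γ) * (w - 2 * θ) ≤ κ * (w - 2 * θ) := by
        gcongr
        · linarith
        · exact a2.1
      have b2 : s₀ * θ ≤ |s₀| * θ := by gcongr; exacts [k1.1.le, le_abs_self _]
      nlinarith [mul_nonneg (mul_nonneg k1.1.le hΓ) k1.1.le]
    have e1 := e θ (by norm_num; linarith) (Or.inl rfl)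
    have e2 := e t (by norm_num; linarith) (Or.inl rfl)
    have k5 := mul_le_mul_of_nonneg_right k4 (sub_nonneg.2 ht)
    have : thin θ φ₀ s₀ u₀ t = thin θ φ₀ s₀ u₀ θ + (s₀ + κ) * (t - θ) := by
      simp only [thin, e1, e2]; ring
    linarith
  · filter_upwards [sm_lt hw 2] with θ k2 t _
    have hne : w - 2 * θ ≠ 0 := by linarith
    have h5 : s₁ = -s₀ := by
      have : (s₁ + s₀) * w = 0 := by linarith
      rcases mul_eq_zero.1 this with h | h <;> linarith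
    have : (φ₁ + s₁ * θ - (φ₀ + s₀ * θ)) / (w - 2 * θ) = s₀ := by
      rw [div_eq_iff hne, h5]; linarith
    simp only [thin, bump, h3, h4, zero_mul, mul_zero, tsum_zero, add_zero, this]
    linarith

end Pool.Agent.Lib.MP_02e8f2_lc
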