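import Mathlib

/-!
The combinatorial layer: drawings of strings across vertical lines, and word certificates.

Lines are numbered `0, …, K - 1`; cell `c` lies between lines `c - 1` and `c`.  Every line is cut
into slots `0, …, S - 1` from bottom to top; odd slots are single points (events), even slots are
open gaps.  A side is a slot seen from one of the two adjacent cells.
-/

set_option autoImplicit false

namespace Pool.Agent.Lib.MP_02e8f2_lc

/-- Line, slot, direction (`true` = the cell to the right of the line). -/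
abbrev Side : Type := ℕ × ℕ × Bool

/-- The cell next to line `k` in direction `d`. -/
def clk (k : ℕ) (d : Bool) : ℕ := cond d (k + 1) k

/-- The cell of a side. -/
def cl (s : Side) : ℕ := clk s.1 s.2.2

/-- A point on a line (line, slot, height inside the slot) together with a direction. -/
structure Dart (Y : Type) where
  k : ℕ
  q : ℕ
  h : Y
  d : Bool

variable {Y ι : Type}

/-- The same point seen from the other cell. -/
def Dart.fl (a : Dart Y) : Dart Y := ⟨a.k, a.q, a.h, !a.d⟩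

/-- The side of a dart. -/
def Dart.side (a : Dart Y) : Side := (a.k, a.q, a.d)

/-- `a` lies below `z` on the same line, seen from the same cell. -/
def Bl [LT Y] (a z : Dart Y) : Prop :=
  a.k = z.k ∧ a.d = z.d ∧ (a.q < z.q ∨ (a.q = z.q ∧ a.h < z.h))

/-- The chords `ab` and `zw` do not cross. -/
def NC [LT Y] (a b z w : Dart Y) : Prop := (Bl a z ↔ Bl b z) ↔ (Bl a w ↔ Bl b w)

/-- `Bl` for sides. -/
def Bs (s t : Side) : Prop := s.1 = t.1 ∧ s.2.2 = t.2.2 ∧ s.2.1 < t.2.1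

/-- `NC` for sides. -/
def NCs (s s' t t' : Side) : Prop := (Bs s t ↔ Bs s' t) ↔ (Bs s t' ↔ Bs s' t')

/-- The data of a string problem. -/
structure Par (ι : Type) where
  SS : List ι
  K : ℕ
  S : ℕ
  act : ι → Prop
  dc : ι → ι → Prop
  st : ι → Side
  en : ι → Side
  al : ι → Side → Side → Prop

/-- A side of a bounded cell. -/
def Par.Real (P : Par ι) (s : Side) : Prop := 1 ≤ cl s ∧ cl s < P.K ∧ s.2.1 < P.S

/-- The axioms of a string problem. -/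
structure Par.OK (P : Par ι) : Prop where
  mem : ∀ e, P.act e → e ∈ P.SS
  dc_symm : ∀ e f, P.dc e f → P.dc f e
  dc_act : ∀ e f, P.dc e f → P.act e
  dc_irr : ∀ e, ¬ P.dc e e
  st_odd : ∀ e, P.act e → (P.st e).2.1 % 2 = 1
  en_odd : ∀ e, P.act e → (P.en e).2.1 % 2 = 1
  st_real : ∀ e, P.act e → P.Real (P.st e)
  en_real : ∀ e, P.act e → P.Real (P.en e)
  st_en : ∀ e, P.act e → ¬ ((P.st e).1 = (P.en e).1 ∧ (P.st e).2.1 = (P.en e).2.1)
  ends : ∀ e f, P.dc e f → ∀ s t : Side, (s = P.st e ∨ s = P.en e) → (t = P.st f ∨ t = P.en f) →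
    ¬ (s.1 = t.1 ∧ s.2.1 = t.2.1)
  al_cl : ∀ e s t, P.al e s t → cl s = cl t ∧ P.Real s
  al_symm : ∀ e s t, P.al e s t → P.al e t s
  al_trans : ∀ e s t u, P.al e s t → P.al e t u → P.al e s u
  al_cross : ∀ e s s' t t', P.al e s s' → P.al e t t' → s ≠ t → s ≠ t' → s' ≠ t → s' ≠ t' →
    ¬ NCs s s' t t' → P.al e s t

/-- A drawing: string `e` has the vertices `o e 0, …, o e (N e)`, each given as the dart that
leaves it, and the chords from `o e m` to `(o e (m + 1)).fl`. -/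
structure IsDraw [LT Y] (P : Par ι) (N : ι → ℕ) (o : ι → ℕ → Dart Y) : Prop where
  pos : ∀ e, P.act e → 0 < N e
  st : ∀ e, P.act e → (o e 0).side = P.st e
  en : ∀ e, P.act e → (o e (N e)).fl.side = P.en e
  gap : ∀ e, P.act e → ∀ m, 0 < m → m < N e → (o e m).q % 2 = 0
  al : ∀ e, P.act e → ∀ m < N e, P.al e (o e m).side (o e (m + 1)).fl.side
  nc : ∀ e f, P.dc e f → ∀ m < N e, ∀ m' < N f,
    NC (o e m) (o e (m + 1)).fl (o f m') (o f (m' + 1)).fl
  ne : ∀ e f, P.dc e f → ∀ m ≤ N e, ∀ m' ≤ N f,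
    ¬ ((o e m).k = (o f m').k ∧ (o e m).q = (o f m').q ∧ (o e m).h = (o f m').h)

/-- All vertices have different heights. -/
def Inj (P : Par ι) (N : ι → ℕ) (o : ι → ℕ → Dart Y) : Prop :=
  ∀ e f, P.act e → P.act f → ∀ m ≤ N e, ∀ m' ≤ N f, (o e m).h = (o f m').h → e = f ∧ m = m'

/-- The extra properties of a minimal drawing. -/
structure Tight (P : Par ι) (N : ι → ℕ) (o : ι → ℕ → Dart ℕ) : Prop where
  norm : ∀ e, P.act e → ∀ m < N e, (o e m).side ≠ (o e (m + 1)).fl.side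
  simple : ∀ e, P.act e → ∀ m < N e, ∀ m' < N e, m ≠ m' →
    NC (o e m) (o e (m + 1)).fl (o e m') (o e (m' + 1)).fl
  bound : ∀ (k q : ℕ) (T : Finset (ι × ℕ)),
    (∀ x ∈ T, P.act x.1 ∧ 0 < x.2 ∧ x.2 < N x.1 ∧ (o x.1 x.2).k = k ∧ (o x.1 x.2).q = q) →
      T.card < 2 ^ P.SS.length

/-- The numbers attached to a binary word: `2 ^ length`, value, value of the reverse, number of
letters `true`, number of letters `false`. -/
@[ext] structure Tu where
  m : ℝ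
  v : ℝ
  r : ℝ
  a : ℝ
  b : ℝ

def Tu.eps : Tu := ⟨1, 0, 0, 0, 0⟩
def Tu.la : Tu := ⟨2, 1, 1, 1, 0⟩
def Tu.lb : Tu := ⟨2, 0, 0, 0, 1⟩
def Tu.cat (x y : Tu) : Tu := ⟨x.m * y.m, x.v * y.m + y.v, y.r * x.m + x.r, x.a + y.a, x.b + y.b⟩
def Tu.rev (x : Tu) : Tu := ⟨x.m, x.r, x.v, x.a, x.b⟩

/-- Binary value, most significant letter first. -/
def wval (w : List Bool) : ℕ := w.foldl (fun n b => 2 * n + b.toNat) 0

/-- The numbers of a word. -/
def tu (w : List Bool) : Tu :=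
  ⟨2 ^ w.length, wval w, wval w.reverse, w.count true, w.count false⟩

/-- Node `t` of a straight-line program with reversal and left quotient. -/
def Rule (nd : ℕ → Tu) (t : ℕ) : Prop :=
  nd t = .eps ∨ nd t = .la ∨ nd t = .lb ∨ ∃ t₁ < t, nd t = (nd t₁).rev ∨ ∃ t₂ < t,
    nd t = (nd t₁).cat (nd t₂) ∨
      (nd t₁ = (nd t₂).cat (nd t) ∧ 1 ≤ (nd t).m ∧ 0 ≤ (nd t).v ∧ (nd t).v < (nd t).m)

/-- Side number `i < 2 * S` of cell `c + 1`: the left line upwards, then the right line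
downwards. -/
def sideOf (S c i : ℕ) : Side := if i < S then (c, i, true) else (c + 1, 2 * S - 1 - i, false)

/-- The sides of a cell, listed backwards around the cell starting next to side `i`. -/
def pt (M i t : ℕ) : ℕ := if t < i then i - 1 - t else i + M - 1 - t

/-- Data of a word certificate. -/
structure WD (ι : Type) where
  n : ι → ℕ → ℕ → ℕ → ℝ
  nd : ι → ι → ℕ → Tu
  x : ι → ι → ℕ → ℕ → ℕ → Tu
  cw : ι → ι → ℕ → ℕ → ℕ → Tu

/-- The pairs of strings that carry words. -/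
def Par.G (P : Par ι) (e f : ι) : Prop := P.act e ∧ (f = e ∨ P.dc e f)

/-- A word certificate with `T` program nodes per pair. -/
structure Wrd (P : Par ι) (T : ℕ) (D : WD ι) : Prop where
  rule : ∀ e ∈ P.SS, ∀ f ∈ P.SS, P.G e f → ∀ t < T, Rule (D.nd e f) t
  node : ∀ e ∈ P.SS, ∀ f ∈ P.SS, P.G e f → ∀ c < P.K, ∀ i < 2 * P.S, ∀ i' < 2 * P.S,
    ∃ t < T, D.x e f c i i' = D.nd e f t
  cnt : ∀ e ∈ P.SS, ∀ f ∈ P.SS, P.G e f → ∀ c < P.K, ∀ i < 2 * P.S, ∀ i' < 2 * P.S,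
    (D.x e f c i i').a = D.n e c i i' ∧ (P.dc e f → (D.x e f c i i').b = D.n f c i i')
  rev : ∀ e ∈ P.SS, ∀ f ∈ P.SS, P.G e f → ∀ c < P.K, ∀ i < 2 * P.S, ∀ i' < 2 * P.S,
    D.x e f c i' i = (D.x e f c i i').rev
  cw0 : ∀ e ∈ P.SS, ∀ f ∈ P.SS, P.G e f → ∀ c < P.K, ∀ i < 2 * P.S, D.cw e f c i 0 = .eps
  cws : ∀ e ∈ P.SS, ∀ f ∈ P.SS, P.G e f → ∀ c < P.K, ∀ i < 2 * P.S, ∀ t < 2 * P.S,
    D.cw e f c i (t + 1) = (D.cw e f c i t).cat (D.x e f c i (pt (2 * P.S) i t))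
  glue : ∀ e ∈ P.SS, ∀ f ∈ P.SS, P.G e f → ∀ c < P.K, ∀ q < P.S, q % 2 = 0 → c + 1 < P.K →
    D.cw e f (c + 1) q (2 * P.S) = (D.cw e f c (2 * P.S - 1 - q) (2 * P.S)).rev
  glue0 : ∀ e ∈ P.SS, ∀ f ∈ P.SS, P.G e f → ∀ q < P.S, q % 2 = 0 →
    D.cw e f 0 q (2 * P.S) = .eps
  ev : ∀ e ∈ P.SS, P.act e → ∀ c < P.K, ∀ i < 2 * P.S, (sideOf P.S c i).2.1 % 2 = 1 →
    ((sideOf P.S c i = P.st e ∨ sideOf P.S c i = P.en e) ∧ (D.cw e e c i (2 * P.S)).a = 1) ∨
    (¬ (sideOf P.S c i = P.st e ∨ sideOf P.S c i = P.en e) ∧ (D.cw e e c i (2 * P.S)).a = 0)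
  diag : ∀ e ∈ P.SS, P.act e → ∀ c < P.K, ∀ i < 2 * P.S, D.n e c i i = 0
  al : ∀ e ∈ P.SS, P.act e → ∀ c < P.K, ∀ i < 2 * P.S, ∀ i' < 2 * P.S,
    D.n e c i i' = 0 ∨ P.al e (sideOf P.S c i) (sideOf P.S c i')
  cross : ∀ e ∈ P.SS, ∀ f ∈ P.SS, P.dc e f → ∀ c < P.K, ∀ i < 2 * P.S, ∀ j < 2 * P.S,
    ∀ i' < 2 * P.S, ∀ j' < 2 * P.S, i < j → j < i' → i' < j' → D.n e c i i' = 0 ∨ D.n f c j j' = 0

/-- The number of program nodes. -/
def TT (K M L : ℕ) : ℕ := (2 * (K * M * (M + 1) * 2) * L + K * M * M) * (3 * L + 1)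

end Pool.Agent.Lib.MP_02e8f2_lc
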