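import Pool.Agent.Lib.MP_02e8f2_lc.Defs
import Pool.Agent.Lib.MP_02e8f2_lc.Comb

/-!
The geometric layer of the certificate.
-/

set_option autoImplicit false

namespace Pool.Agent.Lib.MP_02e8f2_lc

/-- Owner, first event (line, number), second event (line, number). -/
abbrev Str : Type := ℕ × ℕ × ℕ × ℕ × ℕ

/-- Static data: number of nodes, lines and events per line; convex and connected nodes. -/
structure Ctx where
  n : ℕ
  K : ℕ
  R : ℕ
  cvx : ℕ → Bool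
  con : ℕ → Bool

/-- All strings. -/
def strs (n K R : ℕ) : List Str :=
  (List.range n).flatMap fun A => (List.range K).flatMap fun k => (List.range R).flatMap fun r =>
    (List.range K).flatMap fun k' => (List.range R).map fun r' => (A, k, r, k', r')

def Ctx.SS (X : Ctx) : List Str := strs X.n X.K X.R

theorem Ctx.mem_SS (X : Ctx) (e : Str) : e ∈ X.SS ↔
    e.1 < X.n ∧ e.2.1 < X.K ∧ e.2.2.1 < X.R ∧ e.2.2.2.1 < X.K ∧ e.2.2.2.2 < X.R := by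
  obtain ⟨A, k, r, k', r'⟩ := e
  simp [Ctx.SS, strs]

/-- The line of the end `τ` of a string. -/
def locK (e : Str) (τ : Bool) : ℕ := cond τ e.2.2.2.1 e.2.1

/-- The event number of the end `τ` of a string. -/
def locR (e : Str) (τ : Bool) : ℕ := cond τ e.2.2.2.2 e.2.2.1

/-- Sign of a Boolean. -/
def sg (b : Bool) : ℝ := cond b 1 (-1)

/-- Guessed data.  A boundary function is a pair (node, `true` = upper / `false` = lower). -/
structure GD where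
  sub : ℕ → ℕ → Prop
  nt : ℕ → ℕ → Prop
  dc : ℕ → ℕ → Prop
  io : ℕ → ℕ → Prop
  mt : ℕ → ℕ → Prop
  mem : ℕ → ℕ → ℕ → Prop
  sp : ℕ → ℕ → Prop
  a : ℕ → ℝ
  H : ℕ → ℕ → ℝ
  φ : ℕ → Bool → ℕ → ℝ
  s : ℕ → Bool → ℕ → Bool → ℝ
  u : ℕ → Bool → ℕ → Bool → Str → Bool → ℝ
  act : Str → Prop
  dir : Str → Bool → Bool
  abv : Str → Side → ℕ → Prop
  rk : ℕ → ℕ → ℕ → ℝ

/-- Closure rules of the relation tables. -/
structure Tab (n : ℕ) (G : GD) : Prop where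
  sub_refl : ∀ i < n, G.sub i i
  sub_trans : ∀ i < n, ∀ j < n, ∀ l < n, G.sub i j → G.sub j l → G.sub i l
  nt_sub : ∀ i < n, ∀ j < n, G.nt i j → G.sub i j ∧ ¬ G.sub j i
  sub_nt : ∀ i < n, ∀ j < n, ∀ l < n, G.sub i j → G.nt j l → G.nt i l
  nt_sub_nt : ∀ i < n, ∀ j < n, ∀ l < n, G.nt i j → G.sub j l → G.nt i l
  dc_symm : ∀ i < n, ∀ j < n, G.dc i j → G.dc j i
  io_symm : ∀ i < n, ∀ j < n, G.io i j → G.io j i
  dc_io : ∀ i < n, ∀ j < n, G.dc i j → G.io i j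
  sub_dc : ∀ i < n, ∀ j < n, ∀ l < n, G.sub i j → G.dc j l → G.dc i l
  sub_io : ∀ i < n, ∀ j < n, ∀ l < n, G.sub i j → G.io j l → G.io i l
  nt_io : ∀ i < n, ∀ j < n, ∀ l < n, G.nt i j → G.io j l → G.dc i l
  io_irr : ∀ i < n, ¬ G.io i i

variable (X : Ctx) (G : GD)

/-- Next to line `k`, in direction `d`, the function `(C, up)` stays below `(D, up')`. -/
def LE' (C : ℕ) (up : Bool) (D : ℕ) (up' : Bool) (k : ℕ) (d : Bool) : Prop :=
  G.φ C up k < G.φ D up' k ∨ (G.φ C up k = G.φ D up' k ∧ (G.s C up k d < G.s D up' k d ∨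
    (G.s C up k d = G.s D up' k d ∧
      ∀ e ∈ X.SS, ∀ τ, G.u C up k d e τ ≤ G.u D up' k d e τ)))

/-- Strictly below at the sample `(e, τ)`. -/
def LT' (C : ℕ) (up : Bool) (D : ℕ) (up' : Bool) (k : ℕ) (d : Bool) (e : Str) (τ : Bool) : Prop :=
  G.φ C up k < G.φ D up' k ∨ (G.φ C up k = G.φ D up' k ∧ (G.s C up k d < G.s D up' k d ∨
    (G.s C up k d = G.s D up' k d ∧ G.u C up k d e τ < G.u D up' k d e τ)))

/-- The functions that bound a piece of the node `A` with pattern `π` in cell `c` from below. -/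
def Low (A : ℕ) (π : ℕ → Prop) (c C : ℕ) (up : Bool) : Prop :=
  X.cvx C = true ∧ cond up (G.io A C ∧ G.sp C c ∧ π C) (G.sub A C)

/-- The functions that bound it from above. -/
def Upp (A : ℕ) (π : ℕ → Prop) (c C : ℕ) (up : Bool) : Prop :=
  X.cvx C = true ∧ cond up (G.sub A C) (G.io A C ∧ G.sp C c ∧ ¬ π C)

/-- String `e` may use the side `s`. -/
def Ok (e : Str) (s : Side) : Prop :=
  1 ≤ s.2.1 ∧ s.2.1 < 2 * X.R ∧ 1 ≤ cl s ∧ cl s < X.K ∧ ∀ C < X.n,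
    (X.cvx C = true → G.sub e.1 C → G.sp C (cl s)) ∧ ∀ up,
      (Low X G e.1 (G.abv e s) (cl s) C up → G.φ C up s.1 ≤ G.H s.1 ((s.2.1 - 1) / 2)) ∧
      (Upp X G e.1 (G.abv e s) (cl s) C up → G.H s.1 (s.2.1 / 2) ≤ G.φ C up s.1)

/-- String `e` may have a chord from side `s` to side `t`. -/
def Al (e : Str) (s t : Side) : Prop :=
  Ok X G e s ∧ Ok X G e t ∧ cl s = cl t ∧
    ∀ D < X.n, X.cvx D = true → G.io e.1 D → G.sp D (cl s) → (G.abv e s D ↔ G.abv e t D)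

/-- The side of the end `τ` of `e`. -/
def endS (e : Str) (τ : Bool) : Side := (locK e τ, 2 * locR e τ + 1, G.dir e τ)

/-- Concavity (`up`) or convexity data on cell `c + 1`. -/
def CellOK (C : ℕ) (up : Bool) (c : ℕ) : Prop :=
  (sg up * (G.φ C up (c + 1) - G.φ C up c) < sg up * (G.s C up c true * (G.a (c + 1) - G.a c)) ∧
    sg up * (G.φ C up c - G.φ C up (c + 1)) <
      sg up * (G.s C up (c + 1) false * (G.a (c + 1) - G.a c)) ∧
    ∀ e ∈ X.SS, ∀ τ, sg up * G.u C up c true e τ ≤ 0 ∧ sg up * G.u C up (c + 1) false e τ ≤ 0) ∨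
  (G.φ C up (c + 1) - G.φ C up c = G.s C up c true * (G.a (c + 1) - G.a c) ∧
    G.φ C up c - G.φ C up (c + 1) = G.s C up (c + 1) false * (G.a (c + 1) - G.a c) ∧
    ∀ e ∈ X.SS, ∀ τ, G.u C up c true e τ = 0 ∧ G.u C up (c + 1) false e τ = 0)

/-- The conditions at an end of a string or at a stub. -/
def EndOK (e : Str) (τ : Bool) (s : Side) : Prop :=
  Ok X G e s ∧
  (∀ C < X.n, ∀ D < X.n, ∀ up up', Low X G e.1 (G.abv e s) (cl s) C up →
    Upp X G e.1 (G.abv e s) (cl s) D up' → LT' G C up D up' s.1 s.2.2 e τ) ∧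
  ∀ B < X.n, X.con B = true → G.sub e.1 B → ∀ C < X.n, ∀ D < X.n, ∀ up up',
    Low X G B (G.abv e s) (cl s) C up → Upp X G B (G.abv e s) (cl s) D up' →
      LE' X G C up D up' s.1 s.2.2

/-- The geometric conditions. -/
structure Geo : Prop where
  a_lt : ∀ k < X.K, k + 1 < X.K → G.a k < G.a (k + 1)
  H_lt : ∀ k < X.K, ∀ r < X.R, r + 1 < X.R → G.H k r < G.H k (r + 1)
  sp_real : ∀ C < X.n, X.cvx C = true → ¬ G.sp C 0 ∧ ¬ G.sp C X.K
  sp_ex : ∀ C < X.n, X.cvx C = true → ∃ c < X.K, G.sp C c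
  sp_int : ∀ C < X.n, X.cvx C = true → ∀ c₁ < X.K, ∀ c₂ < X.K, ∀ c₃ < X.K, c₁ < c₂ → c₂ < c₃ →
    G.sp C c₁ → G.sp C c₃ → G.sp C c₂
  conc : ∀ C < X.n, X.cvx C = true → ∀ c < X.K, G.sp C (c + 1) → ∀ up, CellOK X G C up c
  kink : ∀ C < X.n, X.cvx C = true → ∀ k < X.K, G.sp C k → G.sp C (k + 1) → ∀ up,
    sg up * (G.s C up k false + G.s C up k true) ≤ 0
  fat : ∀ C < X.n, X.cvx C = true → ∀ k < X.K, ∀ d, G.sp C (clk k d) →
    LE' X G C false C true k d ∧ ∃ e ∈ X.SS, ∃ τ, LT' G C false C true k d e τ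
  vsub : ∀ C < X.n, ∀ D < X.n, X.cvx C = true → X.cvx D = true → G.sub C D → ∀ k < X.K, ∀ d,
    G.sp C (clk k d) →
      G.sp D (clk k d) ∧ LE' X G D false C false k d ∧ LE' X G C true D true k d
  vnt : ∀ C < X.n, ∀ D < X.n, X.cvx C = true → X.cvx D = true → G.nt C D → ∀ k < X.K, ∀ d,
    G.sp C (clk k d) → G.sp D k ∧ G.sp D (k + 1) ∧ G.φ D false k < G.φ C false k ∧
      G.φ C true k < G.φ D true k
  vio : ∀ C < X.n, ∀ D < X.n, X.cvx C = true → X.cvx D = true → G.io C D → ∀ c < X.K,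
    G.sp C (c + 1) → G.sp D (c + 1) →
      (LE' X G C true D false c true ∧ LE' X G C true D false (c + 1) false) ∨
      (LE' X G D true C false c true ∧ LE' X G D true C false (c + 1) false)
  vdc : ∀ C < X.n, ∀ D < X.n, X.cvx C = true → X.cvx D = true → G.dc C D → ∀ k < X.K, ∀ d d',
    G.sp C (clk k d) → G.sp D (clk k d') →
      G.φ C true k < G.φ D false k ∨ G.φ D true k < G.φ C false k
  mcvx : ∀ C < X.n, X.cvx C = true → ∀ k < X.K, ∀ r < X.R, G.mem C k r →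
    (G.sp C k ∨ G.sp C (k + 1)) ∧ G.φ C false k ≤ G.H k r ∧ G.H k r ≤ G.φ C true k
  msub : ∀ A < X.n, ∀ B < X.n, G.sub A B → ∀ k < X.K, ∀ r < X.R, G.mem A k r → G.mem B k r
  mdc : ∀ A < X.n, ∀ B < X.n, G.dc A B → ∀ k < X.K, ∀ r < X.R, G.mem A k r → ¬ G.mem B k r
  mdc' : ∀ A < X.n, ∀ D < X.n, X.cvx D = true → G.dc A D → ∀ k < X.K, ∀ r < X.R, G.mem A k r →
    G.sp D k ∨ G.sp D (k + 1) → G.H k r < G.φ D false k ∨ G.φ D true k < G.H k r
  mnt : ∀ A < X.n, ∀ C < X.n, X.cvx C = true → G.nt A C → ∀ k < X.K, ∀ r < X.R, G.mem A k r →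
    G.sp C k ∧ G.sp C (k + 1) ∧ G.φ C false k < G.H k r ∧ G.H k r < G.φ C true k
  mex : ∀ A < X.n, ∃ k < X.K, ∃ r < X.R, G.mem A k r
  mmt : ∀ A < X.n, ∀ B < X.n, G.mt A B → ∃ k < X.K, ∃ r < X.R, G.mem A k r ∧ G.mem B k r
  act_ok : ∀ e ∈ X.SS, G.act e → X.cvx e.1 = false ∧ (∀ τ, G.mem e.1 (locK e τ) (locR e τ)) ∧
    ((e.2.1 = e.2.2.2.1 ∧ e.2.2.1 = e.2.2.2.2) ∨ X.con e.1 = true)
  stub : ∀ A < X.n, X.cvx A = false → ∀ k < X.K, ∀ r < X.R, G.mem A k r → G.act (A, k, r, k, r)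
  ends : ∀ e ∈ X.SS, G.act e → ∀ τ, EndOK X G e τ (endS G e τ)
  conn : ∀ A < X.n, X.con A = true → ∀ k < X.K, ∀ r < X.R, ∀ k' < X.K, ∀ r' < X.R,
    G.mem A k r → G.mem A k' r' → ¬ (k = k' ∧ r = r') → G.rk A k' r' ≤ G.rk A k r →
      ∃ k₀ < X.K, ∃ r₀ < X.R, G.act (A, k₀, r₀, k, r) ∧ G.rk A k₀ r₀ < G.rk A k r

/-- Strings with two different ends. -/
def Act (e : Str) : Prop := e ∈ X.SS ∧ G.act e ∧ ¬ (e.2.1 = e.2.2.2.1 ∧ e.2.2.1 = e.2.2.2.2)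

/-- The string problem of a certificate. -/
def parOf : Par Str where
  SS := X.SS
  K := X.K
  S := 2 * X.R
  act := Act X G
  dc := fun e f => Act X G e ∧ Act X G f ∧ G.dc e.1 f.1
  st := fun e => endS G e false
  en := fun e => endS G e true
  al := Al X G

/-- The sets `R i` realize the tables. -/
structure Model (R : ℕ → Set (ℝ × ℝ)) : Prop where
  reg : ∀ i < X.n, IsRegion (R i)
  sub : ∀ i < X.n, ∀ j < X.n, G.sub i j → R i ⊆ R j
  nt : ∀ i < X.n, ∀ j < X.n, G.nt i j → R i ⊆ interior (R j)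
  dc : ∀ i < X.n, ∀ j < X.n, G.dc i j → R i ∩ R j = ∅
  io : ∀ i < X.n, ∀ j < X.n, G.io i j → interior (R i) ∩ interior (R j) = ∅
  mt : ∀ i < X.n, ∀ j < X.n, G.mt i j → (R i ∩ R j).Nonempty
  cvx : ∀ i < X.n, X.cvx i = true → Convex ℝ (R i)
  con : ∀ i < X.n, X.con i = true → IsConnected (R i)

/-- The tables are those of the sets `R i`. -/
structure Exact (R : ℕ → Set (ℝ × ℝ)) : Prop where
  sub : ∀ i j, G.sub i j ↔ R i ⊆ R j
  nt : ∀ i j, G.nt i j ↔ R i ⊆ interior (R j) ∧ ¬ R j ⊆ R i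
  dc : ∀ i j, G.dc i j ↔ R i ∩ R j = ∅
  io : ∀ i j, G.io i j ↔ interior (R i) ∩ interior (R j) = ∅
  mt : ∀ i j, G.mt i j ↔ (R i ∩ R j).Nonempty

/-- Atom number `a` of a coded network. -/
def atm (L : List (ℕ × ℕ × ℕ)) (a : ℕ) : ℕ × ℕ × ℕ := L.getD a (0, 0, 0)

/-- One Boolean per node: node `5 * a` is the first variable of atom `a`. -/
def flags (L : List (ℕ × ℕ × ℕ)) (κ : ℕ) : List Bool :=
  L.flatMap fun x => [decide (x.1 = κ), false, false, false, false]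

/-- The static data of a coded network. -/
def ctxOf (L : List (ℕ × ℕ × ℕ)) : Ctx where
  n := 5 * L.length
  K := 5 * L.length * (5 * L.length) + 4 * (5 * L.length) + 2
  R := 5 * L.length * (5 * L.length) + 4 * (5 * L.length) + 2
  cvx := fun u => (flags L 8).getD u false
  con := fun u => (flags L 9).getD u false

/-- A proper part, seen through the auxiliary node `z`. -/
def Prop' (x y z : ℕ) : Prop := G.sub z y ∧ G.dc z x

/-- What an atom of kind `κ` with nodes `x, y` and auxiliary nodes `b + 2, b + 3, b + 4` asks. -/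
def ReqA (κ j b : ℕ) : Prop :=
  (κ = 0 ∧ G.dc b (b + 1)) ∨
  (κ = 1 ∧ G.mt b (b + 1) ∧ G.io b (b + 1)) ∨
  (κ = 2 ∧ G.sub (b + 2) b ∧ G.sub (b + 2) (b + 1) ∧ Prop' G (b + 1) b (b + 3) ∧
    Prop' G b (b + 1) (b + 4)) ∨
  (κ = 3 ∧ G.sub b (b + 1) ∧ G.sub (b + 1) b) ∨
  (κ = 4 ∧ G.sub b (b + 1) ∧ Prop' G b (b + 1) (b + 2) ∧ G.io (b + 3) (b + 1) ∧ G.mt (b + 3) b) ∨
  (κ = 5 ∧ G.nt b (b + 1) ∧ Prop' G b (b + 1) (b + 2)) ∨
  (κ = 6 ∧ G.sub (b + 1) b ∧ Prop' G (b + 1) b (b + 2) ∧ G.io (b + 3) b ∧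
    G.mt (b + 3) (b + 1)) ∨
  (κ = 7 ∧ G.nt (b + 1) b ∧ Prop' G (b + 1) b (b + 2)) ∨
  (κ = 8 ∧ j = 0) ∨ (κ = 9 ∧ j = 0)

/-- The name of occurrence `b` of atom `a`. -/
def nm (L : List (ℕ × ℕ × ℕ)) (a : ℕ) (b : Bool) : ℕ := cond b (atm L a).2.2 (atm L a).2.1

/-- The tables contain what the network asks. -/
structure Req (L : List (ℕ × ℕ × ℕ)) : Prop where
  atom : ∀ a < L.length, ReqA G (atm L a).1 (atm L a).2.2 (5 * a)
  same : ∀ a < L.length, ∀ a' < L.length, ∀ b b', nm L a b = nm L a' b' →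
    G.sub (5 * a + b.toNat) (5 * a' + b'.toNat)

end Pool.Agent.Lib.MP_02e8f2_lc
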