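import Pool.Agent.Lib.MP_02e8f2_lc.Cert

/-!
Chains in connected sets and a parity lemma.
-/

set_option autoImplicit false

namespace Pool.Agent.Lib.MP_02e8f2_lc

open Set Filter Topology

namespace Ch

open Classical in
/-- Indicator of a proposition in `ZMod 2`. -/
noncomputable def ind (P : Prop) : ZMod 2 := if P then 1 else 0

theorem ind_pos {P : Prop} (h : P) : ind P = 1 := by simp [ind, h]

theorem ind_neg {P : Prop} (h : ¬ P) : ind P = 0 := by simp [ind, h]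

theorem ind_congr {P Q : Prop} (h : P ↔ Q) : ind P = ind Q := by
  by_cases hP : P
  · rw [ind_pos hP, ind_pos (h.1 hP)]
  · rw [ind_neg hP, ind_neg (fun hQ => hP (h.2 hQ))]

theorem ind_le (a b : ℝ) : ind (a ≤ b) = ind (b < a) + 1 := by
  by_cases h : a ≤ b
  · rw [ind_pos h, ind_neg (not_lt.2 h)]; decide
  · rw [ind_neg h, ind_pos (not_le.1 h)]; decide

theorem mul_ind (f : ZMod 2) (P : Prop) (h : f ≠ 0 → P) : f * ind P = f := by
  by_cases hf : f = 0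
  · simp [hf]
  · rw [ind_pos (h hf), mul_one]

theorem ind_four {A B C D : Prop} (h : ind A + ind B + ind C + ind D = 0) :
    ((A ↔ B) ↔ (C ↔ D)) := by
  by_cases hA : A <;> by_cases hB : B <;> by_cases hC : C <;> by_cases hD : D <;>
    simp only [ind, hA, hB, hC, hD, if_true, if_false] at h ⊢ <;>
    first | decide | exact absurd h (by decide)

/-- Crossing of the segment `pq` with the downward ray from `ζ`. -/
noncomputable def dn (ζ p q : ℝ × ℝ) : ZMod 2 :=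
  (ind (p.1 ≤ ζ.1) + ind (q.1 ≤ ζ.1)) * ind (∃ y, y < ζ.2 ∧ (ζ.1, y) ∈ segment ℝ p q)

/-- Crossing of the segment `pq` with the upward ray from `ζ`. -/
noncomputable def up (ζ p q : ℝ × ℝ) : ZMod 2 :=
  (ind (p.1 < ζ.1) + ind (q.1 < ζ.1)) * ind (∃ y, ζ.2 < y ∧ (ζ.1, y) ∈ segment ℝ p q)

theorem dn_symm (ζ p q : ℝ × ℝ) : dn ζ p q = dn ζ q p := by
  unfold dn; rw [segment_symm ℝ p q, add_comm]

theorem up_symm (ζ p q : ℝ × ℝ) : up ζ p q = up ζ q p := by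
  unfold up; rw [segment_symm ℝ p q, add_comm]

theorem seg_over {p q : ℝ × ℝ} {c : ℝ} (h : c ∈ uIcc p.1 q.1) :
    ∃ y, (c, y) ∈ segment ℝ p q := by
  rw [← segment_eq_uIcc] at h
  obtain ⟨s, t, hs, ht, hst, h⟩ := h
  refine ⟨s * p.2 + t * q.2, s, t, hs, ht, hst, Prod.ext ?_ ?_⟩
  · simpa using h
  · simp

theorem over_le {p q : ℝ × ℝ} {c : ℝ} (h : ind (p.1 ≤ c) + ind (q.1 ≤ c) ≠ 0) :
    ∃ y, (c, y) ∈ segment ℝ p q := by
  apply seg_over
  rw [mem_uIcc]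
  by_cases h1 : p.1 ≤ c <;> by_cases h2 : q.1 ≤ c
  · rw [ind_pos h1, ind_pos h2] at h; exact absurd (by decide) h
  · exact Or.inl ⟨h1, (not_le.1 h2).le⟩
  · exact Or.inr ⟨h2, (not_le.1 h1).le⟩
  · rw [ind_neg h1, ind_neg h2] at h; exact absurd (by decide) h

theorem over_lt {p q : ℝ × ℝ} {c : ℝ} (h : ind (p.1 < c) + ind (q.1 < c) ≠ 0) :
    ∃ y, (c, y) ∈ segment ℝ p q := by
  apply seg_over
  rw [mem_uIcc]
  by_cases h1 : p.1 < c <;> by_cases h2 : q.1 < c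
  · rw [ind_pos h1, ind_pos h2] at h; exact absurd (by decide) h
  · exact Or.inl ⟨h1.le, not_lt.1 h2⟩
  · exact Or.inr ⟨h2.le, not_lt.1 h1⟩
  · rw [ind_neg h1, ind_neg h2] at h; exact absurd (by decide) h

/-- The vertical order of two disjoint convex sets is the same over all common abscissas. -/
theorem order_const {S T : Set (ℝ × ℝ)} (hS : Convex ℝ S) (hT : Convex ℝ T) (hd : Disjoint S T)
    {s t s' t' : ℝ × ℝ} (hs : s ∈ S) (ht : t ∈ T) (hs' : s' ∈ S) (ht' : t' ∈ T)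
    (e : s.1 = t.1) (e' : s'.1 = t'.1) (h : s.2 < t.2) : s'.2 < t'.2 := by
  by_contra hn
  have hn' : t'.2 ≤ s'.2 := not_lt.1 hn
  have hD : 0 < (t.2 - s.2) + (s'.2 - t'.2) := by linarith
  have ha : 0 ≤ (s'.2 - t'.2) / ((t.2 - s.2) + (s'.2 - t'.2)) :=
    div_nonneg (by linarith) hD.le
  have hb : 0 ≤ (t.2 - s.2) / ((t.2 - s.2) + (s'.2 - t'.2)) :=
    div_nonneg (by linarith) hD.le
  have hab : (s'.2 - t'.2) / ((t.2 - s.2) + (s'.2 - t'.2)) +
      (t.2 - s.2) / ((t.2 - s.2) + (s'.2 - t'.2)) = 1 := by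
    field_simp
    ring
  have h1 := hS hs hs' ha hb hab
  have h2 := hT ht ht' ha hb hab
  have he : ((s'.2 - t'.2) / ((t.2 - s.2) + (s'.2 - t'.2))) • s +
      ((t.2 - s.2) / ((t.2 - s.2) + (s'.2 - t'.2))) • s' =
      ((s'.2 - t'.2) / ((t.2 - s.2) + (s'.2 - t'.2))) • t +
      ((t.2 - s.2) / ((t.2 - s.2) + (s'.2 - t'.2))) • t' := by
    refine Prod.ext ?_ ?_
    · simp [e, e']
    · simp only [Prod.snd_add, Prod.smul_snd, smul_eq_mul]
      field_simp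
      ring
  rw [he] at h1
  exact Set.disjoint_left.1 hd h1 h2

theorem dn_up {p q ζ ξ : ℝ × ℝ} (hd : Disjoint (segment ℝ p q) (segment ℝ ζ ξ)) :
    dn ζ p q + dn ξ p q = up p ζ ξ + up q ζ ξ := by
  by_cases hb : ∃ s ∈ segment ℝ p q, ∃ t ∈ segment ℝ ζ ξ, s.1 = t.1 ∧ s.2 < t.2
  · obtain ⟨s, hs, t, ht, e, hlt⟩ := hb
    have key : ∀ s' ∈ segment ℝ p q, ∀ t' ∈ segment ℝ ζ ξ, s'.1 = t'.1 → s'.2 < t'.2 :=
      fun s' hs' t' ht' e' =>
        order_const (convex_segment p q) (convex_segment ζ ξ) hd hs ht hs' ht' e e' hlt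
    have hdn : ∀ c ∈ segment ℝ ζ ξ, dn c p q = ind (p.1 ≤ c.1) + ind (q.1 ≤ c.1) := by
      intro c hc
      refine mul_ind _ _ (fun hf => ?_)
      obtain ⟨y, hy⟩ := over_le hf
      exact ⟨y, key _ hy _ hc rfl, hy⟩
    have hup : ∀ c ∈ segment ℝ p q, up c ζ ξ = ind (ζ.1 < c.1) + ind (ξ.1 < c.1) := by
      intro c hc
      refine mul_ind _ _ (fun hf => ?_)
      obtain ⟨y, hy⟩ := over_lt hf
      exact ⟨y, key _ hc _ hy rfl, hy⟩
    rw [hdn _ (left_mem_segment ℝ ζ ξ), hdn _ (right_mem_segment ℝ ζ ξ),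
      hup _ (left_mem_segment ℝ p q), hup _ (right_mem_segment ℝ p q),
      ind_le, ind_le, ind_le, ind_le]
    generalize ind (ζ.1 < p.1) = a
    generalize ind (ζ.1 < q.1) = b
    generalize ind (ξ.1 < p.1) = c
    generalize ind (ξ.1 < q.1) = d
    revert a b c d
    decide
  · have hdn : ∀ c ∈ segment ℝ ζ ξ, dn c p q = 0 := by
      intro c hc
      unfold dn
      rw [ind_neg (P := ∃ y, y < c.2 ∧ (c.1, y) ∈ segment ℝ p q), mul_zero]
      rintro ⟨y, hy, hm⟩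
      exact hb ⟨_, hm, c, hc, rfl, hy⟩
    have hup : ∀ c ∈ segment ℝ p q, up c ζ ξ = 0 := by
      intro c hc
      unfold up
      rw [ind_neg (P := ∃ y, c.2 < y ∧ (c.1, y) ∈ segment ℝ ζ ξ), mul_zero]
      rintro ⟨y, hy, hm⟩
      exact hb ⟨c, hc, _, hm, rfl, hy⟩
    rw [hdn _ (left_mem_segment ℝ ζ ξ), hdn _ (right_mem_segment ℝ ζ ξ),
      hup _ (left_mem_segment ℝ p q), hup _ (right_mem_segment ℝ p q)]

theorem sg_true {u : ℝ} : 0 < sg true * u ↔ 0 < u := by simp [sg]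

theorem sg_false {u : ℝ} : 0 < sg false * u ↔ u < 0 := by simp [sg]

theorem dn_side {c p q : ℝ × ℝ} {d : Bool} (hp : 0 < sg d * (p.1 - c.1))
    (hq : 0 < sg d * (q.1 - c.1)) : dn c p q = 0 := by
  unfold dn
  cases d
  · rw [sg_false] at hp hq
    rw [ind_pos (show p.1 ≤ c.1 by linarith), ind_pos (show q.1 ≤ c.1 by linarith)]
    rw [show (1 + 1 : ZMod 2) = 0 by decide, zero_mul]
  · rw [sg_true] at hp hq
    rw [ind_neg (show ¬ p.1 ≤ c.1 by linarith), ind_neg (show ¬ q.1 ≤ c.1 by linarith)]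
    simp

theorem up_side {c p q : ℝ × ℝ} {d : Bool} (hp : 0 < sg d * (p.1 - c.1))
    (hq : 0 < sg d * (q.1 - c.1)) : up c p q = 0 := by
  unfold up
  cases d
  · rw [sg_false] at hp hq
    rw [ind_pos (show p.1 < c.1 by linarith), ind_pos (show q.1 < c.1 by linarith)]
    rw [show (1 + 1 : ZMod 2) = 0 by decide, zero_mul]
  · rw [sg_true] at hp hq
    rw [ind_neg (show ¬ p.1 < c.1 by linarith), ind_neg (show ¬ q.1 < c.1 by linarith)]
    simp

theorem seg_end {a x : ℝ × ℝ} {y : ℝ} (hne : x.1 ≠ a.1) (h : (a.1, y) ∈ segment ℝ a x) :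
    y = a.2 := by
  obtain ⟨s, t, -, -, hst, h⟩ := h
  have h1 : s * a.1 + t * x.1 = a.1 := by simpa using congrArg Prod.fst h
  have h2 : s * a.2 + t * x.2 = y := by simpa using congrArg Prod.snd h
  have hs : s = 1 - t := by linarith
  have ht : t * (x.1 - a.1) = 0 := by rw [hs] at h1; linarith
  have ht0 : t = 0 := by
    rcases mul_eq_zero.1 ht with h | h
    · exact h
    · exact absurd (by linarith) hne
  rw [← h2, hs, ht0]; ring

theorem bdry {a x z y : ℝ × ℝ} {da dz : Bool} (hxa : 0 < sg da * (x.1 - a.1))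
    (hya : 0 < sg da * (y.1 - a.1)) (hxz : 0 < sg dz * (x.1 - z.1))
    (hyz : 0 < sg dz * (y.1 - z.1)) (haz : da = dz → a.1 = z.1) :
    dn z a x + up a z y = ind (da = dz ∧ a.2 < z.2) := by
  cases da <;> cases dz
  · have e := haz rfl
    rw [sg_false] at hxa hya hxz hyz
    unfold dn up
    rw [ind_pos (show a.1 ≤ z.1 by linarith), ind_pos (show x.1 ≤ z.1 by linarith),
      ind_neg (show ¬ z.1 < a.1 by linarith), ind_pos (show y.1 < a.1 by linarith),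
      show (1 + 1 : ZMod 2) = 0 by decide, zero_mul, zero_add, zero_add, one_mul]
    refine ind_congr ⟨?_, ?_⟩
    · rintro ⟨v, hv, hm⟩
      rw [e] at hm
      have := seg_end (by linarith) hm
      exact ⟨rfl, by linarith⟩
    · rintro ⟨-, h⟩
      refine ⟨z.2, h, ?_⟩
      rw [e]
      exact left_mem_segment ℝ z y
  · rw [sg_false] at hxa hya
    rw [sg_true] at hxz hyz
    rw [dn_side (d := true) (sg_true.2 (by linarith)) (sg_true.2 (by linarith)),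
      up_side (d := false) (sg_false.2 (by linarith)) (sg_false.2 (by linarith)),
      ind_neg (by simp), add_zero]
  · rw [sg_true] at hxa hya
    rw [sg_false] at hxz hyz
    rw [dn_side (d := false) (sg_false.2 (by linarith)) (sg_false.2 (by linarith)),
      up_side (d := true) (sg_true.2 (by linarith)) (sg_true.2 (by linarith)),
      ind_neg (by simp), add_zero]
  · have e := haz rfl
    rw [sg_true] at hxa hya hxz hyz
    unfold dn up
    rw [ind_pos (show a.1 ≤ z.1 by linarith), ind_neg (show ¬ x.1 ≤ z.1 by linarith),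
      ind_neg (show ¬ z.1 < a.1 by linarith), ind_neg (show ¬ y.1 < a.1 by linarith),
      add_zero, add_zero, zero_mul, add_zero, one_mul]
    refine ind_congr ⟨?_, ?_⟩
    · rintro ⟨v, hv, hm⟩
      rw [← e] at hm
      have := seg_end (by linarith) hm
      exact ⟨rfl, by linarith⟩
    · rintro ⟨-, h⟩
      refine ⟨a.2, h, ?_⟩
      rw [← e]
      exact left_mem_segment ℝ a x

theorem chain_weight {U V In : Set (ℝ × ℝ)} (hUV : Disjoint U V) {y y' : ℝ × ℝ}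
    (k2 : Relation.ReflTransGen (fun p q => p ∈ In ∧ q ∈ In ∧ segment ℝ p q ⊆ V) y y') :
    ∃ W : ℝ × ℝ → ZMod 2, (∀ p q, segment ℝ p q ⊆ U → dn y p q + dn y' p q = W p + W q) ∧
      ∀ (c : ℝ × ℝ) (d : Bool), (∀ p ∈ In, 0 < sg d * (p.1 - c.1)) → W c = 0 := by
  induction k2 with
  | refl =>
    refine ⟨fun _ => 0, fun p q _ => ?_, fun _ _ _ => rfl⟩
    show dn y p q + dn y p q = 0 + 0
    generalize dn y p q = a
    revert a
    decide
  | @tail u v _ huv ih =>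
    obtain ⟨W, hW, hW0⟩ := ih
    refine ⟨fun p => W p + up p u v, fun p q hpq => ?_, fun c d hc => ?_⟩
    · have h1 := hW p q hpq
      have h2 := dn_up (hUV.mono hpq huv.2.2)
      have h3 : dn u p q + dn u p q = 0 := by
        generalize dn u p q = a
        revert a
        decide
      show dn y p q + dn v p q = W p + up p u v + (W q + up q u v)
      linear_combination h1 + h2 - h3
    · show W c + up c u v = 0
      rw [hW0 c d hc, up_side (hc _ huv.1) (hc _ huv.2.1), add_zero]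

end Ch

open Ch

/-- Task rc10 (whole file).  Two polygonal chains through a vertical slab `In`, inside disjoint
sets, have ends that are not interleaved.  For a point `ζ` and a segment `pq` put
`dn ζ p q := ([p.1 ≤ ζ.1] + [q.1 ≤ ζ.1]) * [∃ y < ζ.2, (ζ.1, y) ∈ segment p q]` and
`up ζ p q := ([p.1 < ζ.1] + [q.1 < ζ.1]) * [∃ y > ζ.2, (ζ.1, y) ∈ segment p q]` in `ZMod 2`.  For
disjoint segments `pq`, `ζξ`: `dn ζ p q + dn ξ p q = up p ζ ξ + up q ζ ξ` (the vertical order of two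
disjoint convex sets is the same over all common abscissas).  Induct along the second chain to get
`W` with `dn z p q + dn w p q = W p + W q` for all segments `pq ⊆ U`, evaluate `W` at `a`, `b`,
then induct along the first chain. -/
theorem parity {U V In : Set (ℝ × ℝ)} (hUV : Disjoint U V) {a b z w x x' y y' : ℝ × ℝ}
    {da db dz dw : Bool} (ha : ∀ p ∈ In, 0 < sg da * (p.1 - a.1))
    (hb : ∀ p ∈ In, 0 < sg db * (p.1 - b.1)) (hz : ∀ p ∈ In, 0 < sg dz * (p.1 - z.1))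
    (hw : ∀ p ∈ In, 0 < sg dw * (p.1 - w.1)) (haz : da = dz → a.1 = z.1)
    (haw : da = dw → a.1 = w.1) (hbz : db = dz → b.1 = z.1) (hbw : db = dw → b.1 = w.1)
    (hx : x ∈ In) (hx' : x' ∈ In) (hy : y ∈ In) (hy' : y' ∈ In)
    (h1 : segment ℝ a x ⊆ U)
    (h2 : Relation.ReflTransGen (fun p q => p ∈ In ∧ q ∈ In ∧ segment ℝ p q ⊆ U) x x')
    (h3 : segment ℝ x' b ⊆ U) (k1 : segment ℝ z y ⊆ V)
    (k2 : Relation.ReflTransGen (fun p q => p ∈ In ∧ q ∈ In ∧ segment ℝ p q ⊆ V) y y')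
    (k3 : segment ℝ y' w ⊆ V) :
    ((da = dz ∧ a.2 < z.2) ↔ (db = dz ∧ b.2 < z.2)) ↔
      ((da = dw ∧ a.2 < w.2) ↔ (db = dw ∧ b.2 < w.2)) := by
  obtain ⟨W, hW, hW0⟩ := chain_weight hUV k2
  have h2z : ∀ c : ZMod 2, c + c = 0 := by decide
  have hW' : ∀ p q, segment ℝ p q ⊆ U → dn z p q + dn w p q =
      (up p z y + W p + up p w y') + (up q z y + W q + up q w y') := by
    intro p q hpq
    have e1 := hW p q hpq
    have e2 := dn_up (hUV.mono hpq k1)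
    have e3 := dn_up (hUV.mono hpq k3)
    rw [up_symm p y' w, up_symm q y' w] at e3
    linear_combination e1 + e2 + e3 - h2z (dn y p q) - h2z (dn y' p q)
  have hin : ∀ u, Relation.ReflTransGen (fun p q => p ∈ In ∧ q ∈ In ∧ segment ℝ p q ⊆ U) x u →
      up x z y + W x + up x w y' = up u z y + W u + up u w y' := by
    intro u hu
    induction hu with
    | refl => rfl
    | @tail u v _ huv ih =>
      have e1 := hW' u v huv.2.2
      rw [dn_side (hz _ huv.1) (hz _ huv.2.1), dn_side (hw _ huv.1) (hw _ huv.2.1)] at e1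
      linear_combination ih - e1 - h2z (up v z y + W v + up v w y') +
        h2z (up u z y + W u + up u w y') - h2z (up u z y + W u + up u w y')
  have f1 := hW' a x h1
  have f2 := hW' x' b h3
  rw [dn_symm z x' b, dn_symm w x' b] at f2
  have f3 := hin x' h2
  have g1 := bdry (ha _ hx) (ha _ hy) (hz _ hx) (hz _ hy) haz
  have g2 := bdry (hb _ hx') (hb _ hy) (hz _ hx') (hz _ hy) hbz
  have g3 := bdry (ha _ hx) (ha _ hy') (hw _ hx) (hw _ hy') haw
  have g4 := bdry (hb _ hx') (hb _ hy') (hw _ hx') (hw _ hy') hbw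
  have w1 := hW0 a da ha
  have w2 := hW0 b db hb
  apply ind_four
  rw [← g1, ← g2, ← g3, ← g4]
  linear_combination f1 + f2 + f3 + w1 + w2 + h2z (up a z y + up a w y') +
    h2z (up b z y + up b w y') + h2z (up x' z y + W x' + up x' w y')

theorem Ch.precon_const {A : Set (ℝ × ℝ)} (hA : IsPreconnected A) (Q : ℝ × ℝ → Prop)
    (h : ∀ z ∈ A, ∀ᶠ x in 𝓝 z, x ∈ A → (Q x ↔ Q z)) {a b : ℝ × ℝ} (ha : a ∈ A) (hb : b ∈ A) :
    Q a ↔ Q b := by
  refine hA.induction₂' (fun x y => Q x ↔ Q y) (fun x hx => ?_)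
    (fun _ _ _ _ _ _ h1 h2 => h1.trans h2) ha hb
  filter_upwards [mem_nhdsWithin_of_mem_nhds (h x hx), self_mem_nhdsWithin] with y hy hyA
  exact ⟨(hy hyA).symm, hy hyA⟩

/-- Either every small offset is met, or offsets that are not met accumulate at `0`; between two
of them the points with `P` form a clopen part of `A` that misses `p`. -/
theorem channel {A : Set (ℝ × ℝ)} (hA : IsPreconnected A) {p : ℝ × ℝ} (hp : p ∈ A) (d : Bool)
    {δ₀ : ℝ} (h0 : 0 < δ₀) (P : ℝ × ℝ → Prop)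
    (hP : ∀ z ∈ A, 0 < sg d * (z.1 - p.1) → sg d * (z.1 - p.1) < δ₀ →
      ∀ᶠ x in 𝓝 z, x ∈ A → (P x ↔ P z)) :
    ∀ᶠ δ in 𝓝[>] (0 : ℝ), (∃ x ∈ A, 0 < sg d * (x.1 - p.1) ∧ sg d * (x.1 - p.1) < δ ∧ P x) →
      ∀ t, 0 < t → t < δ → ∃ x ∈ A, x.1 = p.1 + sg d * t ∧ P x := by
  have hsq : sg d * sg d = 1 := by cases d <;> simp [sg]
  have hc : Continuous (fun x : ℝ × ℝ => sg d * (x.1 - p.1)) := by fun_prop
  by_cases hall : ∃ ε, 0 < ε ∧ ∀ t, 0 < t → t < ε → ∃ x ∈ A, x.1 = p.1 + sg d * t ∧ P x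
  · obtain ⟨ε, hε, h⟩ := hall
    filter_upwards [mem_nhdsWithin_of_mem_nhds (Iio_mem_nhds hε)] with δ hδ _ t ht htδ
    exact h t ht (htδ.trans hδ)
  · have hun : ∀ ε, 0 < ε → ∃ t, 0 < t ∧ t < ε ∧ ∀ x ∈ A, sg d * (x.1 - p.1) = t → ¬ P x := by
      intro ε hε
      by_contra hn
      refine hall ⟨ε, hε, fun t ht htε => ?_⟩
      by_contra hn2
      refine hn ⟨t, ht, htε, fun x hx hxt hPx => hn2 ⟨x, hx, ?_, hPx⟩⟩
      rw [← hxt, ← mul_assoc, hsq]; ring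
    obtain ⟨t1, ht1, ht1δ, hun1⟩ := hun δ₀ h0
    filter_upwards [mem_nhdsWithin_of_mem_nhds (Iio_mem_nhds ht1)] with δ hδ hex
    exfalso
    obtain ⟨x, hxA, hx0, hxδ, hPx⟩ := hex
    obtain ⟨t2, ht2, ht2x, hun2⟩ := hun _ hx0
    have hδ' : δ < t1 := hδ
    have key := precon_const hA
      (fun z => t2 < sg d * (z.1 - p.1) ∧ sg d * (z.1 - p.1) < t1 ∧ P z) ?_ hxA hp
    · have := (key.1 ⟨ht2x, hxδ.trans hδ', hPx⟩).1
      rw [sub_self, mul_zero] at this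
      linarith
    · intro z hzA
      rcases lt_or_ge (sg d * (z.1 - p.1)) t2 with hlo | hlo
      · filter_upwards [hc.continuousAt.eventually_lt continuousAt_const hlo] with v hv _
        exact ⟨fun h => absurd h.1 (not_lt.2 hv.le), fun h => absurd h.1 (not_lt.2 hlo.le)⟩
      rcases lt_or_ge t1 (sg d * (z.1 - p.1)) with hhi | hhi
      · filter_upwards [continuousAt_const.eventually_lt hc.continuousAt hhi] with v hv _
        exact ⟨fun h => absurd h.2.1 (not_lt.2 hv.le), fun h => absurd h.2.1 (not_lt.2 hhi.le)⟩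
      have hloc := hP z hzA (by linarith) (by linarith)
      by_cases hPz : P z
      · have h2 : t2 < sg d * (z.1 - p.1) :=
          lt_of_le_of_ne hlo (fun e => hun2 z hzA e.symm hPz)
        have h1 : sg d * (z.1 - p.1) < t1 :=
          lt_of_le_of_ne hhi (fun e => hun1 z hzA e hPz)
        filter_upwards [hloc, continuousAt_const.eventually_lt hc.continuousAt h2,
          hc.continuousAt.eventually_lt continuousAt_const h1] with v hv hv2 hv1 hvA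
        exact ⟨fun _ => ⟨h2, h1, hPz⟩, fun _ => ⟨hv2, hv1, (hv hvA).2 hPz⟩⟩
      · filter_upwards [hloc] with v hv hvA
        exact ⟨fun h => absurd ((hv hvA).1 h.2.2) hPz, fun h => absurd h.2.2 hPz⟩

/-- `x` is an interior point of `A` off the lines, close to `z`, on the side `d` of `z`. -/
def Att (A : Set (ℝ × ℝ)) (Λ : Finset ℝ) (r : ℝ × ℝ → ℝ) (z : ℝ × ℝ) (d : Bool) (x : ℝ × ℝ) :
    Prop :=
  x ∈ interior A ∧ x.1 ∉ Λ ∧ x ∈ Metric.ball z (r z) ∧ 0 < sg d * (x.1 - z.1)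

/-- A string from `z 0` to `z N` inside `A`. -/
structure IsStr (A : Set (ℝ × ℝ)) (Λ : Finset ℝ) (Ev : Set (ℝ × ℝ)) (r : ℝ × ℝ → ℝ)
    (St : ℝ × ℝ → ℝ × ℝ → Prop) (N : ℕ) (z : ℕ → ℝ × ℝ) (d : ℕ → Bool) (x x' : ℕ → ℝ × ℝ) :
    Prop where
  pos : 0 < N
  chord : ∀ m < N, Att A Λ r (z m) (d m) (x m) ∧ Att A Λ r (z (m + 1)) (!d (m + 1)) (x' m) ∧
    Relation.ReflTransGen St (x m) (x' m)
  inner : ∀ m, 0 < m → m < N → z m ∈ A ∧ (z m).1 ∈ Λ ∧ z m ∉ Ev

namespace Ch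

theorem dense_off {A : Set (ℝ × ℝ)} (hr : A = closure (interior A)) (Λ : Finset ℝ)
    {z : ℝ × ℝ} (hz : z ∈ A) {O : Set (ℝ × ℝ)} (hO : IsOpen O) (hzO : z ∈ O) :
    ∃ x, x ∈ interior A ∧ x.1 ∉ Λ ∧ x ∈ O := by
  have h1 : Dense ((Λ : Set ℝ)ᶜ) := Λ.countable_toSet.dense_compl ℝ
  have h2 : Dense (Prod.fst ⁻¹' ((Λ : Set ℝ)ᶜ) : Set (ℝ × ℝ)) := h1.preimage isOpenMap_fst
  rw [hr] at hz
  have h3 : (O ∩ interior A).Nonempty := mem_closure_iff.1 hz O hO hzO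
  obtain ⟨x, hx1, hx2⟩ := h2.inter_open_nonempty _ (hO.inter isOpen_interior) h3
  exact ⟨x, hx1.2, hx2, hx1.1⟩

theorem exists_side {u : ℝ} (h : u ≠ 0) : ∃ d, 0 < sg d * u := by
  rcases lt_or_gt_of_ne h with h | h
  · exact ⟨false, sg_false.2 h⟩
  · exact ⟨true, sg_true.2 h⟩

/-- An unfinished string from `e` to the interior point `v`. -/
def Unf (A : Set (ℝ × ℝ)) (Λ : Finset ℝ) (Ev : Set (ℝ × ℝ)) (r : ℝ × ℝ → ℝ)
    (St : ℝ × ℝ → ℝ × ℝ → Prop) (e v : ℝ × ℝ) : Prop :=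
  ∃ (N : ℕ) (z : ℕ → ℝ × ℝ) (d : ℕ → Bool) (x x' : ℕ → ℝ × ℝ), z 0 = e ∧
    (∀ m < N, Att A Λ r (z m) (d m) (x m) ∧ Att A Λ r (z (m + 1)) (!d (m + 1)) (x' m) ∧
      Relation.ReflTransGen St (x m) (x' m)) ∧
    (∀ m, 0 < m → m ≤ N → z m ∈ A ∧ (z m).1 ∈ Λ ∧ z m ∉ Ev) ∧
    Att A Λ r (z N) (d N) (x N) ∧ Relation.ReflTransGen St (x N) v

section

variable {A : Set (ℝ × ℝ)} {Λ : Finset ℝ} {Ev : Set (ℝ × ℝ)} {r : ℝ × ℝ → ℝ}
  {St : ℝ × ℝ → ℝ × ℝ → Prop}

theorem Unf.start {e v : ℝ × ℝ} {d : Bool} (h : Att A Λ r e d v) : Unf A Λ Ev r St e v :=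
  ⟨0, fun _ => e, fun _ => d, fun _ => v, fun _ => v, rfl, fun m hm => absurd hm (by omega),
    fun m h1 h2 => absurd h1 (by omega), h, Relation.ReflTransGen.refl⟩

theorem Unf.extend {e v v' : ℝ × ℝ} (h : Unf A Λ Ev r St e v) (hs : St v v') :
    Unf A Λ Ev r St e v' := by
  obtain ⟨N, z, d, x, x', h0, h1, h2, h3, h4⟩ := h
  exact ⟨N, z, d, x, x', h0, h1, h2, h3, h4.tail hs⟩

theorem Unf.step {e v : ℝ × ℝ} (h : Unf A Λ Ev r St e v) {c : ℝ × ℝ} {dc : Bool}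
    (hc : Att A Λ r c (!dc) v) (v' : ℝ × ℝ) :
    ∃ (N : ℕ) (z : ℕ → ℝ × ℝ) (d : ℕ → Bool) (x x' : ℕ → ℝ × ℝ), z 0 = e ∧ z (N + 1) = c ∧
      d (N + 1) = dc ∧ x (N + 1) = v' ∧
      (∀ m < N + 1, Att A Λ r (z m) (d m) (x m) ∧ Att A Λ r (z (m + 1)) (!d (m + 1)) (x' m) ∧
        Relation.ReflTransGen St (x m) (x' m)) ∧
      (∀ m, 0 < m → m ≤ N → z m ∈ A ∧ (z m).1 ∈ Λ ∧ z m ∉ Ev) := by
  obtain ⟨N, z, d, x, x', h0, h1, h2, h3, h4⟩ := h
  refine ⟨N, fun m => if m ≤ N then z m else c, fun m => if m ≤ N then d m else dc,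
    fun m => if m ≤ N then x m else v', fun m => if m < N then x' m else v, ?_, ?_, ?_, ?_, ?_, ?_⟩
  · simp [h0]
  · simp
  · simp
  · simp
  · intro m hm
    have hmN : m ≤ N := by omega
    by_cases hlt : m < N
    · have hm1 : m + 1 ≤ N := hlt
      simp only [hmN, hm1, hlt, if_true]
      exact h1 m hlt
    · have e1 : m = N := by omega
      subst e1
      have hm1 : ¬ m + 1 ≤ m := by omega
      simp only [hm1, le_refl, lt_irrefl, if_true, if_false]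
      exact ⟨h3, hc, h4⟩
  · intro m hm hmN
    simp only [hmN, if_true]
    exact h2 m hm hmN

theorem Unf.vertex {e v v' : ℝ × ℝ} (h : Unf A Λ Ev r St e v) {c : ℝ × ℝ} {dc : Bool}
    (hc : Att A Λ r c (!dc) v) (hc' : Att A Λ r c dc v') (hcA : c ∈ A) (hcΛ : c.1 ∈ Λ)
    (hcE : c ∉ Ev) : Unf A Λ Ev r St e v' := by
  obtain ⟨N, z, d, x, x', h0, hz, hd, hx, h1, h2⟩ := h.step hc v'
  refine ⟨N + 1, z, d, x, x', h0, h1, fun m hm hmN => ?_, ?_, ?_⟩
  · by_cases hle : m ≤ N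
    · exact h2 m hm hle
    · have e1 : m = N + 1 := by omega
      rw [e1, hz]
      exact ⟨hcA, hcΛ, hcE⟩
  · rw [hz, hd, hx]; exact hc'
  · rw [hx]

theorem Unf.close {e v : ℝ × ℝ} (h : Unf A Λ Ev r St e v) {c : ℝ × ℝ} {dc : Bool}
    (hc : Att A Λ r c dc v) :
    ∃ N z d x x', z 0 = e ∧ z N = c ∧ IsStr A Λ Ev r St N z d x x' := by
  have hc' : Att A Λ r c (!(!dc)) v := by rw [Bool.not_not]; exact hc
  obtain ⟨N, z, d, x, x', h0, hz, -, -, h1, h2⟩ := h.step hc' v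
  exact ⟨N + 1, z, d, x, x', h0, hz, by omega, h1, fun m hm hmN => h2 m hm (by omega)⟩

end

theorem ball_fst {x z : ℝ × ℝ} {ρ : ℝ} (h : x ∈ Metric.ball z ρ) : |x.1 - z.1| < ρ := by
  rw [Metric.mem_ball, Prod.dist_eq, max_lt_iff, Real.dist_eq] at h
  exact h.1

end Ch

/-- Let `E₀` be the events reached from `p`.  Call an interior point `x` off the lines good if some
unfinished string leads from a point of `E₀` to `x`.  In each ball `ball z (r z)`, `z ∈ A`, all such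
points are good or none is (extend the chain; add the vertex `z`; or close the string at the event
`z` and start again).  Such points are dense in `A`, so the union of the good balls and the union of
the bad balls are open sets that cover `A` and do not meet in `A`. -/
theorem chain {A : Set (ℝ × ℝ)} (hA : IsPreconnected A) (hr : A = closure (interior A))
    (Λ : Finset ℝ) (Ev : Set (ℝ × ℝ)) (hEv : ∀ p ∈ Ev, p.1 ∈ Λ) (r : ℝ × ℝ → ℝ)
    (hpos : ∀ z ∈ A, 0 < r z) (hfar : ∀ z ∈ A, ∀ l ∈ Λ, l ≠ z.1 → r z ≤ |l - z.1|)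
    (St : ℝ × ℝ → ℝ × ℝ → Prop)
    (hSt : ∀ z ∈ A, z ∉ Ev → ∀ x x', x ∈ interior A → x.1 ∉ Λ → x ∈ Metric.ball z (r z) →
      x' ∈ interior A → x'.1 ∉ Λ → x' ∈ Metric.ball z (r z) →
      (∀ l ∈ Λ, x.1 < l ↔ x'.1 < l) → St x x')
    {p q : ℝ × ℝ} (hp : p ∈ A ∧ p ∈ Ev) (hq : q ∈ A ∧ q ∈ Ev) :
    Relation.ReflTransGen (fun p q => p ≠ q ∧ (p ∈ A ∧ p ∈ Ev) ∧ (q ∈ A ∧ q ∈ Ev) ∧
      ∃ N z d x x', z 0 = p ∧ z N = q ∧ IsStr A Λ Ev r St N z d x x') p q := by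
  set R : ℝ × ℝ → ℝ × ℝ → Prop := fun p q => p ≠ q ∧ (p ∈ A ∧ p ∈ Ev) ∧ (q ∈ A ∧ q ∈ Ev) ∧
      ∃ N z d x x', z 0 = p ∧ z N = q ∧ IsStr A Λ Ev r St N z d x x' with hR
  let good : ℝ × ℝ → Prop := fun v =>
    ∃ e, Relation.ReflTransGen R p e ∧ (e ∈ A ∧ e ∈ Ev) ∧ Unf A Λ Ev r St e v
  have hatt : ∀ z, z.1 ∈ Λ → ∀ v, v ∈ interior A → v.1 ∉ Λ → v ∈ Metric.ball z (r z) →
      ∃ d, Att A Λ r z d v := by
    intro z hz v h1 h2 h3
    obtain ⟨d, hd⟩ := exists_side (u := v.1 - z.1) (fun e => h2 (by rwa [sub_eq_zero.1 e]))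
    exact ⟨d, h1, h2, h3, hd⟩
  have hclose : ∀ z, z ∈ A ∧ z ∈ Ev → ∀ v, v ∈ interior A → v.1 ∉ Λ →
      v ∈ Metric.ball z (r z) → good v → Relation.ReflTransGen R p z := by
    rintro z hz v h1 h2 h3 ⟨e, he, heA, hu⟩
    obtain ⟨d, hd⟩ := hatt z (hEv z hz.2) v h1 h2 h3
    by_cases hez : e = z
    · rwa [← hez]
    · exact he.tail ⟨hez, heA, hz, hu.close hd⟩
  have hball : ∀ z ∈ A, ∀ v v', v ∈ interior A → v.1 ∉ Λ → v ∈ Metric.ball z (r z) →
      v' ∈ interior A → v'.1 ∉ Λ → v' ∈ Metric.ball z (r z) → good v → good v' := by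
    intro z hz v v' h1 h2 h3 h1' h2' h3' hg
    by_cases hzE : z ∈ Ev
    · obtain ⟨d, hd⟩ := hatt z (hEv z hzE) v' h1' h2' h3'
      exact ⟨z, hclose z ⟨hz, hzE⟩ v h1 h2 h3 hg, ⟨hz, hzE⟩, Unf.start hd⟩
    obtain ⟨e, he, heA, hu⟩ := hg
    by_cases hsame : ∀ l ∈ Λ, v.1 < l ↔ v'.1 < l
    · exact ⟨e, he, heA, hu.extend (hSt z hz hzE v v' h1 h2 h3 h1' h2' h3' hsame)⟩
    obtain ⟨l, hl, hne⟩ : ∃ l ∈ Λ, ¬ (v.1 < l ↔ v'.1 < l) := by
      by_contra hn
      exact hsame (fun l hl => by_contra (fun h => hn ⟨l, hl, h⟩))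
    have n1 : v.1 ≠ l := fun e => h2 (e ▸ hl)
    have n2 : v'.1 ≠ l := fun e => h2' (e ▸ hl)
    have b1 := abs_lt.1 (ball_fst h3)
    have b2 := abs_lt.1 (ball_fst h3')
    have hsep : (v.1 < l ∧ l < v'.1) ∨ (v'.1 < l ∧ l < v.1) := by
      by_cases c1 : v.1 < l
      · have c2 : ¬ v'.1 < l := fun c2 => hne ⟨fun _ => c2, fun _ => c1⟩
        exact Or.inl ⟨c1, lt_of_le_of_ne (not_lt.1 c2) n2.symm⟩
      · have c2 : v'.1 < l := by_contra (fun c2 => hne ⟨fun h => absurd h c1, fun h => absurd h c2⟩)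
        exact Or.inr ⟨c2, lt_of_le_of_ne (not_lt.1 c1) n1.symm⟩
    have hlz : l = z.1 := by
      by_contra hlz
      have h5 := hfar z hz l hl hlz
      have h6 : |l - z.1| < r z := by
        rw [abs_lt]
        rcases hsep with h | h <;> constructor <;> linarith [h.1, h.2]
      linarith
    subst hlz
    rcases hsep with h | h
    · exact ⟨e, he, heA, hu.vertex (dc := true) ⟨h1, h2, h3, sg_false.2 (by linarith [h.1])⟩
        ⟨h1', h2', h3', sg_true.2 (by linarith [h.2])⟩ hz hl hzE⟩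
    · exact ⟨e, he, heA, hu.vertex (dc := false) ⟨h1, h2, h3, sg_true.2 (by linarith [h.2])⟩
        ⟨h1', h2', h3', sg_false.2 (by linarith [h.1])⟩ hz hl hzE⟩
  have key := precon_const hA
    (fun z => ∃ v, v ∈ interior A ∧ v.1 ∉ Λ ∧ v ∈ Metric.ball z (r z) ∧ good v) ?_ hp.1 hq.1
  · obtain ⟨v, h1, h2, h3⟩ := dense_off hr Λ hp.1 Metric.isOpen_ball
      (Metric.mem_ball_self (hpos p hp.1))
    obtain ⟨d, hd⟩ := hatt p (hEv p hp.2) v h1 h2 h3
    obtain ⟨v', g1, g2, g3, g4⟩ :=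
      key.1 ⟨v, h1, h2, h3, p, Relation.ReflTransGen.refl, hp, Unf.start hd⟩
    exact hclose q hq v' g1 g2 g3 g4
  · intro z hz
    filter_upwards [Metric.ball_mem_nhds z (hpos z hz)] with z' hz' hz'A
    obtain ⟨v0, h1, h2, h3, h4⟩ := dense_off hr Λ hz'A
      (Metric.isOpen_ball.inter Metric.isOpen_ball)
      (⟨hz', Metric.mem_ball_self (hpos z' hz'A)⟩ :
        z' ∈ Metric.ball z (r z) ∩ Metric.ball z' (r z'))
    constructor
    · rintro ⟨v, g1, g2, g3, g4⟩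
      exact ⟨v0, h1, h2, h3, hball z' hz'A v v0 g1 g2 g3 h1 h2 h4 g4⟩
    · rintro ⟨v, g1, g2, g3, g4⟩
      exact ⟨v0, h1, h2, h4, hball z hz v v0 g1 g2 g3 h1 h2 h3 g4⟩

/-- Interior points off finitely many lines are dense. -/
theorem exists_att {A : Set (ℝ × ℝ)} (hr : A = closure (interior A)) (Λ : Finset ℝ)
    (r : ℝ × ℝ → ℝ) {z : ℝ × ℝ} (hz : z ∈ A) (hl : z.1 ∈ Λ) (hpos : 0 < r z) :
    ∃ d x, Att A Λ r z d x := by
  obtain ⟨v, h1, h2, h3⟩ := dense_off hr Λ hz Metric.isOpen_ball (Metric.mem_ball_self hpos)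
  obtain ⟨d, hd⟩ := exists_side (u := v.1 - z.1) (fun e => h2 (by rwa [sub_eq_zero.1 e]))
  exact ⟨d, v, h1, h2, h3, hd⟩

end Pool.Agent.Lib.MP_02e8f2_lc
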