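import Pool.Agent.Lib.MP_02e8f2_lc.CompB
import Pool.Agent.Lib.MP_02e8f2_lc.Chain

/-!
Lines, events and strings of a family of regions, in terms of points.
-/

set_option autoImplicit false

namespace Pool.Agent.Lib.MP_02e8f2_lc

open Set Filter Topology

/-- The hypotheses on the regions. -/
structure Reg (X : Ctx) (R : ℕ → Set (ℝ × ℝ)) : Prop where
  hcc : ∀ i, X.con i = true → X.cvx i = false
  reg : ∀ i < X.n, IsRegion (R i)
  cvx : ∀ i < X.n, X.cvx i = true → Convex ℝ (R i)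
  con : ∀ i < X.n, X.con i = true → IsConnected (R i)
  cl : ∀ i < X.n, X.cvx i = true → IsClosed (Prod.fst '' R i)

/-- Disjoint interiors. -/
def IO (R : ℕ → Set (ℝ × ℝ)) (i j : ℕ) : Prop := interior (R i) ∩ interior (R j) = ∅

theorem IsRegion.closed {A : Set (ℝ × ℝ)} (h : IsRegion A) : IsClosed A :=
  h.2 ▸ isClosed_closure

theorem io_notMem {A D : Set (ℝ × ℝ)} (h : IsRegion D) (hd : interior A ∩ interior D = ∅)
    {x : ℝ × ℝ} (hx : x ∈ interior A) : x ∉ D := fun hx' => by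
  have := isOpen_interior.inter_closure (mem_inter hx (h.2 ▸ hx' : x ∈ closure (interior D)))
  rw [hd, closure_empty] at this
  exact this

/-- Lines, events, neighbourhoods, radii and strings. -/
structure PD where
  Λ : Finset ℝ
  E : ℝ → Finset ℝ
  U : ℕ → Set (ℝ × ℝ)
  δ : ℝ
  r : ℕ → ℝ × ℝ → ℝ
  N : ℕ × (ℝ × ℝ) × ℝ × ℝ → ℕ
  z : ℕ × (ℝ × ℝ) × ℝ × ℝ → ℕ → ℝ × ℝ
  d : ℕ × (ℝ × ℝ) × ℝ × ℝ → ℕ → Bool
  x : ℕ × (ℝ × ℝ) × ℝ × ℝ → ℕ → ℝ × ℝ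
  x' : ℕ × (ℝ × ℝ) × ℝ × ℝ → ℕ → ℝ × ℝ
  sd : ℕ × (ℝ × ℝ) × ℝ × ℝ → Bool → Bool
  sx : ℕ × (ℝ × ℝ) × ℝ × ℝ → Bool → ℝ × ℝ
  rk : ℕ → ℝ × ℝ → ℕ
  ac : ℕ × (ℝ × ℝ) × ℝ × ℝ → Prop

variable (X : Ctx) (R : ℕ → Set (ℝ × ℝ))

/-- The first lines and events. -/
structure S1 (Λ : Finset ℝ) (E : ℝ → Finset ℝ) : Prop where
  ends : ∀ C < X.n, sInf (Prod.fst '' R C) ∈ Λ ∧ sSup (Prod.fst '' R C) ∈ Λ
  bd : ∀ C < X.n, ∀ up ξ, bd (R C) up ξ ∈ E ξ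
  wit : ∀ i < X.n, ∀ j < X.n, (R i ∩ R j).Nonempty → ∃ p ∈ R i ∩ R j, p.1 ∈ Λ ∧ p.2 ∈ E p.1
  cΛ : Λ.card ≤ X.n * X.n + 2 * X.n
  cE : ∀ ξ, (E ξ).card ≤ X.n * X.n + 2 * X.n

/-- The events. -/
def Ev (Λ : Finset ℝ) (E : ℝ → Finset ℝ) : Set (ℝ × ℝ) := {p | p.1 ∈ Λ ∧ p.2 ∈ E p.1}

/-- A good radius at the point `z` of the node `i`. -/
structure Rad (Λ : Finset ℝ) (U : Set (ℝ × ℝ)) (δ : ℝ) (i : ℕ) (z : ℝ × ℝ) (ρ : ℝ) : Prop where
  pos : 0 < ρ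
  le : ρ ≤ δ
  far : ∀ l ∈ Λ, l ≠ z.1 → ρ ≤ |l - z.1|
  sub : Metric.ball z ρ ⊆ U
  seg : ∀ x ∈ Metric.ball z ρ, ∀ D < X.n, X.cvx D = true → ∀ d,
    (∃ w ∈ R D, 0 < sg d * (w.1 - z.1)) → 0 ≤ sg d * (x.1 - z.1) →
      (Abv (R D) z → Abv (R D) x) ∧ (Blw (R D) z → Blw (R D) x)
  prj : ∀ x ∈ Metric.ball z ρ, ∀ D < X.n, X.cvx D = true → x.1 ∈ Prod.fst '' R D →
    z.1 ∈ Prod.fst '' R D
  pat : ∀ x ∈ Metric.ball z ρ, ∀ d, x ∈ interior (R i) → 0 < sg d * (x.1 - z.1) →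
    z ∈ closure {x' | (x' ∈ interior (R i) ∧ 0 < sg d * (x'.1 - z.1)) ∧
      ∀ D < X.n, (Abv (R D) x' ↔ Abv (R D) x)}

/-- `x'` lies on the same side as `x` of the convex sets that `A` avoids. -/
def Pat (A : ℕ) (x x' : ℝ × ℝ) : Prop :=
  ∀ D < X.n, X.cvx D = true → IO R A D → x.1 ∈ Prod.fst '' R D → (Abv (R D) x ↔ Abv (R D) x')

/-- Channels next to events. -/
def Chan (Λ : Finset ℝ) (E : ℝ → Finset ℝ) (δ : ℝ) : Prop :=
  ∀ B < X.n, X.con B = true → ∀ p ∈ R B, p ∈ Ev Λ E → ∀ d, ∀ x₀ ∈ R B,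
    0 < sg d * (x₀.1 - p.1) → sg d * (x₀.1 - p.1) < δ → ∀ t, 0 < t → t < δ →
      ∃ x ∈ R B, x.1 = p.1 + sg d * t ∧ Pat X R B x x₀

/-- A step of a chain. -/
def St (Λ : Finset ℝ) (U : Set (ℝ × ℝ)) (A : ℕ) (x x' : ℝ × ℝ) : Prop :=
  (∀ l ∈ Λ, x.1 < l ↔ x'.1 < l) ∧ x'.1 ∉ Λ ∧ segment ℝ x x' ⊆ U ∧ Pat X R A x x'

/-- The properties of the data. -/
structure PD.OK (Q : PD) : Prop where
  s1 : S1 X R Q.Λ Q.E
  dis : ∀ i < X.n, ∀ j < X.n, R i ∩ R j = ∅ → Disjoint (Q.U i) (Q.U j)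
  δ0 : 0 < Q.δ
  rad : ∀ i < X.n, ∀ z ∈ R i, Rad X R Q.Λ (Q.U i) Q.δ i z (Q.r i z)
  chan : Chan X R Q.Λ Q.E Q.δ
  ac : ∀ g, Q.ac g → g.1 < X.n ∧ X.cvx g.1 = false ∧
    (∀ τ, cond τ g.2.2 g.2.1 ∈ R g.1 ∩ Ev Q.Λ Q.E) ∧ (g.2.1 = g.2.2 ∨ X.con g.1 = true)
  stub : ∀ A < X.n, X.cvx A = false → ∀ p ∈ R A ∩ Ev Q.Λ Q.E, Q.ac (A, p, p)
  att : ∀ g, Q.ac g → ∀ τ, Att (R g.1) Q.Λ (Q.r g.1) (cond τ g.2.2 g.2.1) (Q.sd g τ) (Q.sx g τ)
  same : ∀ g, Q.ac g → g.2.1 = g.2.2 → Q.sx g true = Q.sx g false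
  str : ∀ g, Q.ac g → g.2.1 ≠ g.2.2 → Q.z g 0 = g.2.1 ∧ Q.z g (Q.N g) = g.2.2 ∧
    IsStr (R g.1) Q.Λ (Ev Q.Λ Q.E) (Q.r g.1) (St X R Q.Λ (Q.U g.1) g.1) (Q.N g) (Q.z g) (Q.d g)
      (Q.x g) (Q.x' g) ∧ Q.sd g false = Q.d g 0 ∧ Q.sd g true = (!Q.d g (Q.N g)) ∧
    Q.sx g false = Q.x g 0 ∧ Q.sx g true = Q.x' g (Q.N g - 1)
  conn : ∀ A < X.n, X.con A = true → ∀ p ∈ R A ∩ Ev Q.Λ Q.E, ∀ q ∈ R A ∩ Ev Q.Λ Q.E, p ≠ q →
    Q.rk A q ≤ Q.rk A p → ∃ p₀, Q.ac (A, p₀, p) ∧ Q.rk A p₀ < Q.rk A p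

variable {X R}

theorem Ev_finite (Λ : Finset ℝ) (E : ℝ → Finset ℝ) : (Ev Λ E).Finite := by
  refine (Λ.finite_toSet.biUnion fun l _ => (E l).finite_toSet.image fun y => (l, y)).subset ?_
  rintro ⟨l, y⟩ ⟨a, b⟩
  exact mem_biUnion a ⟨y, b, rfl⟩

theorem exists_S1 : ∃ Λ E, S1 X R Λ E := by
  classical
  have : ∀ g : ℕ × ℕ, ∃ p, (R g.1 ∩ R g.2).Nonempty → p ∈ R g.1 ∩ R g.2 := fun g => by
    by_cases h : (R g.1 ∩ R g.2).Nonempty
    · exact ⟨h.some, fun _ => h.some_mem⟩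
    · exact ⟨0, fun k => absurd k h⟩
  choose w hw using this
  set T := Finset.range X.n ×ˢ Finset.range X.n
  set T' := Finset.range X.n ×ˢ (Finset.univ : Finset Bool)
  have c : ∀ (f : ℕ × ℕ → ℝ) (g : ℕ × Bool → ℝ),
      (T.image f ∪ T'.image g).card ≤ X.n * X.n + 2 * X.n := fun f g =>
    (Finset.card_union_le _ _).trans (add_le_add (Finset.card_image_le.trans (by simp [T]))
      (Finset.card_image_le.trans (by simp [T', mul_comm])))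
  have m : ∀ (f : ℕ × ℕ → ℝ) (g : ℕ × Bool → ℝ), ∀ C < X.n, ∀ up,
      g (C, up) ∈ T.image f ∪ T'.image g := fun f g C hC up =>
    Finset.mem_union_right _ (Finset.mem_image_of_mem _ (by simp [T', hC]))
  have m' : ∀ (f : ℕ × ℕ → ℝ) (g : ℕ × Bool → ℝ), ∀ i < X.n, ∀ j < X.n,
      f (i, j) ∈ T.image f ∪ T'.image g := fun f g i hi j hj =>
    Finset.mem_union_left _ (Finset.mem_image_of_mem _ (by simp [T, hi, hj]))
  exact ⟨T.image (fun g => (w g).1) ∪ T'.image fun g =>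
      cond g.2 (sSup (Prod.fst '' R g.1)) (sInf (Prod.fst '' R g.1)),
    fun ξ => T.image (fun g => (w g).2) ∪ T'.image fun g => bd (R g.1) g.2 ξ,
    fun C hC => ⟨m _ _ C hC false, m _ _ C hC true⟩,
    fun C hC up ξ => m _ (fun g => bd (R g.1) g.2 ξ) C hC up,
    fun i hi j hj h => ⟨w (i, j), hw (i, j) h, m' (fun g => (w g).1) _ i hi j hj,
      m' (fun g => (w g).2) _ i hi j hj⟩, c _ _, fun _ => c _ _⟩

theorem abs_sg_mul (d : Bool) (t : ℝ) : |sg d * t| = |t| := by cases d <;> simp [sg]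

theorem side_of_int {D : Set (ℝ × ℝ)} {ξ : ℝ} (h : ξ ∈ interior (Prod.fst '' D)) (d : Bool) :
    ∃ w ∈ D, 0 < sg d * (w.1 - ξ) := by
  have h1 : ∀ᶠ t in 𝓝[>] (0 : ℝ), ξ + sg d * t ∈ Prod.fst '' D := by
    have : Tendsto (fun t : ℝ => ξ + sg d * t) (𝓝 0) (𝓝 ξ) :=
      Continuous.tendsto' (by fun_prop) _ _ (by simp)
    exact (this.eventually (mem_interior_iff_mem_nhds.1 h)).filter_mono nhdsWithin_le_nhds
  obtain ⟨t, ⟨w, a, b⟩, c⟩ := (h1.and self_mem_nhdsWithin).exists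
  refine ⟨w, a, ?_⟩
  rw [b]
  cases d <;> simpa [sg] using c

section

variable (h : Reg X R) {Λ : Finset ℝ} {E : ℝ → Finset ℝ} (s : S1 X R Λ E)
include h s

theorem int_of_off {D : ℕ} (hD : D < X.n) (hv : X.cvx D = true) {ξ : ℝ}
    (hξ : ξ ∈ Prod.fst '' R D) (hl : ξ ∉ Λ) : ξ ∈ interior (Prod.fst '' R D) := by
  by_contra k
  rcases sep_of_not_int ((h.cvx D hD hv).linear_image (LinearMap.fst ℝ ℝ ℝ)) hξ k with a | a
  · exact hl (a.1.antisymm a.2 ▸ (s.ends D hD).2)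
  · exact hl (a.1.antisymm a.2 ▸ (s.ends D hD).1)

theorem abv_or_blw {D : ℕ} (hD : D < X.n) (hv : X.cvx D = true) {z : ℝ × ℝ}
    (hξ : z.1 ∈ Prod.fst '' R D) (hz : z ∉ Ev Λ E) : Abv (R D) z ∨ Blw (R D) z := by
  by_contra k
  have key : ∀ y, (z.1, y) ∈ R D → y = z.2 := fun y hy => by
    rcases lt_trichotomy y z.2 with l | l | l
    · exact absurd (Or.inl ⟨y, l, hy⟩) k
    · exact l
    · exact absurd (Or.inr ⟨y, l, hy⟩) k
  by_cases hl : z.1 ∈ Λ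
  · obtain ⟨w, a, b⟩ := hξ
    have e : {y | (z.1, y) ∈ R D} = {z.2} := eq_singleton_iff_unique_mem.2
      ⟨by have : (z.1, w.2) ∈ R D := b ▸ a
          exact key _ this ▸ this, key⟩
    have := s.bd D hD true z.1
    rw [bd, e] at this
    exact hz ⟨hl, by simpa using this⟩
  · obtain ⟨y, y', a, b, c⟩ := fat_section (h.cvx D hD hv) (h.reg D hD).2
      (int_of_off h s hD hv hξ hl)
    rw [key y b, key y' c] at a
    exact lt_irrefl _ a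

theorem not_both {B D : ℕ} (hB : B < X.n) (hD : D < X.n) (hv : X.cvx D = true) (hi : IO R B D)
    {x : ℝ × ℝ} (hx : x ∈ R B) (hξ : x.1 ∈ interior (Prod.fst '' R D)) (a : Abv (R D) x)
    (b : Blw (R D) x) : False :=
  io_notMem (h.reg B hB) (inter_comm _ _ ▸ hi) (int_of_abv_blw (h.cvx D hD hv) a b hξ) hx

theorem exists_chan : ∃ δ, 0 < δ ∧ Chan X R Λ E δ := by
  classical
  have : ∀ᶠ δ in 𝓝[>] (0 : ℝ), ∀ B < X.n, X.con B = true → ∀ p ∈ Ev Λ E, p ∈ R B → ∀ d,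
      ∀ T : Fin X.n → Prop, (∃ x ∈ R B, 0 < sg d * (x.1 - p.1) ∧ sg d * (x.1 - p.1) < δ ∧
        ∀ D : Fin X.n, X.cvx D = true → IO R B D → x.1 ∈ Prod.fst '' R D →
          (Abv (R D) x ↔ T D)) → ∀ t, 0 < t → t < δ → ∃ x ∈ R B, x.1 = p.1 + sg d * t ∧
        ∀ D : Fin X.n, X.cvx D = true → IO R B D → x.1 ∈ Prod.fst '' R D →
          (Abv (R D) x ↔ T D) := by
    refine ev_lt fun B hB => ev_imp fun hc => (eventually_all_finite (Ev_finite Λ E)).2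
      fun p _ => ev_imp fun hp => ev_bool fun d => eventually_all.2 fun T => ?_
    have e0 : ∀ᶠ δ in 𝓝[>] (0 : ℝ), ∀ l ∈ Λ, l ≠ p.1 → δ ≤ |l - p.1| :=
      (Finset.eventually_all Λ).2 fun l _ => ev_imp fun hl => Filter.mem_of_superset
        (Ioc_mem_nhdsGT (abs_pos.2 (sub_ne_zero.2 hl))) fun δ hδ => hδ.2
    obtain ⟨δ₀, a0, b0⟩ := (e0.and self_mem_nhdsWithin).exists
    refine channel (h.con B hB hc).isPreconnected hp d b0 _ fun z hz z0 z1 => ?_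
    have off : z.1 ∉ Λ := fun l => by
      have := a0 _ l (fun e => by simp [e] at z0)
      rw [← abs_sg_mul d, abs_of_pos z0] at this
      linarith
    have : ∀ᶠ x in 𝓝 z, ∀ D : Fin X.n, X.cvx D = true → IO R B D → x ∈ R B →
        (x.1 ∈ Prod.fst '' R D ↔ z.1 ∈ Prod.fst '' R D) ∧
          (z.1 ∈ Prod.fst '' R D → (Abv (R D) x ↔ Abv (R D) z)) := by
      refine eventually_all.2 fun D => ev_imp fun hv => ev_imp fun hi => ?_
      by_cases hm : z.1 ∈ Prod.fst '' R D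
      · have i := int_of_off h s D.2 hv hm off
        have e1 : ∀ᶠ x in 𝓝 z, x.1 ∈ interior (Prod.fst '' R D) :=
          continuous_fst.continuousAt.eventually (isOpen_interior.mem_nhds i)
        have sd : ∀ x : ℝ × ℝ, ∃ d, 0 ≤ sg d * (x.1 - z.1) := fun x =>
          (le_total 0 (x.1 - z.1)).elim (fun l => ⟨true, by simpa [sg] using l⟩)
            fun l => ⟨false, by simpa [sg] using l⟩
        by_cases ha : Abv (R D) z
        · filter_upwards [e1, ev_bool fun d => seg_abv (h.cvx D D.2 hv) ha d (side_of_int i d)]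
            with x a b _
          obtain ⟨d, hd⟩ := sd x
          exact ⟨iff_of_true (interior_subset a) hm, fun _ => iff_of_true (b d hd) ha⟩
        · have hb := (abv_or_blw h s D.2 hv hm fun l => off l.1).resolve_left ha
          filter_upwards [e1, ev_bool fun d => seg_blw (h.cvx D D.2 hv) hb d (side_of_int i d)]
            with x a b hx
          obtain ⟨d, hd⟩ := sd x
          exact ⟨iff_of_true (interior_subset a) hm, fun _ => iff_of_false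
            (fun k => not_both h s hB D.2 hv hi hx a k (b d hd)) ha⟩
      · filter_upwards [continuous_fst.continuousAt.eventually
          ((h.cl D D.2 hv).isOpen_compl.mem_nhds hm)] with x a _
        exact ⟨iff_of_false a hm, fun k => absurd k hm⟩
    filter_upwards [this] with x hx hB
    refine forall_congr' fun D => forall_congr' fun hv => forall_congr' fun hi => ?_
    obtain ⟨a, b⟩ := hx D hv hi hB
    rw [a]
    exact forall_congr' fun k => by rw [b k]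
  obtain ⟨δ, a, b⟩ := (this.and self_mem_nhdsWithin).exists
  refine ⟨δ, b, fun B hB hc p hp hp' d x₀ a1 a2 a3 t t0 t1 => ?_⟩
  obtain ⟨x, c1, c2, c3⟩ := a B hB hc p hp' hp d (fun D => Abv (R D) x₀)
    ⟨x₀, a1, a2, a3, fun _ _ _ _ => Iff.rfl⟩ t t0 t1
  exact ⟨x, c1, c2, fun D hD => c3 ⟨D, hD⟩⟩

omit s in
theorem exists_rad {U : Set (ℝ × ℝ)} (hU : IsOpen U) {δ : ℝ} (hδ : 0 < δ) (i : ℕ) {z : ℝ × ℝ}
    (hz : z ∈ U) : ∃ ρ, Rad X R Λ U δ i z ρ := by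
  have e1 : ∀ᶠ x in 𝓝 z, ∀ D < X.n, X.cvx D = true → ∀ d,
      (∃ w ∈ R D, 0 < sg d * (w.1 - z.1)) → (Abv (R D) z → 0 ≤ sg d * (x.1 - z.1) → Abv (R D) x) ∧
        (Blw (R D) z → 0 ≤ sg d * (x.1 - z.1) → Blw (R D) x) :=
    ev_lt fun D hD => ev_imp fun hv => ev_bool fun d => ev_imp fun hw =>
      (ev_imp fun a => seg_abv (h.cvx D hD hv) a d hw).and
        (ev_imp fun a => seg_blw (h.cvx D hD hv) a d hw)
  have e2 : ∀ᶠ x in 𝓝 z, ∀ D < X.n, X.cvx D = true → z.1 ∉ Prod.fst '' R D →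
      x.1 ∉ Prod.fst '' R D :=
    ev_lt fun D hD => ev_imp fun hv => ev_imp fun hm => continuous_fst.continuousAt.eventually
      ((h.cl D hD hv).isOpen_compl.mem_nhds hm)
  have e3 := ev_bool fun d => ev_pattern {x | x ∈ interior (R i) ∧ 0 < sg d * (x.1 - z.1)}
    (fun x (D : Fin X.n) => Abv (R D) x) z
  obtain ⟨ε, ε0, hε⟩ := Metric.eventually_nhds_iff_ball.1
    ((e1.and (e2.and e3)).and (hU.mem_nhds hz))
  have e0 : ∀ᶠ ρ in 𝓝[>] (0 : ℝ), ∀ l ∈ Λ, l ≠ z.1 → ρ ≤ |l - z.1| :=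
    (Finset.eventually_all Λ).2 fun l _ => ev_imp fun hl => Filter.mem_of_superset
      (Ioc_mem_nhdsGT (abs_pos.2 (sub_ne_zero.2 hl))) fun δ hδ => hδ.2
  obtain ⟨ρ, a, b, c⟩ := (e0.and (Ioc_mem_nhdsGT (lt_min ε0 hδ))).exists
  have k := fun x (hx : x ∈ Metric.ball z ρ) =>
    hε x (Metric.ball_subset_ball (c.trans (min_le_left _ _)) hx)
  refine ⟨ρ, b, c.trans (min_le_right _ _), a, fun x hx => (k x hx).2, fun x hx D hD hv d w l =>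
    ⟨fun m => ((k x hx).1.1 D hD hv d w).1 m l, fun m => ((k x hx).1.1 D hD hv d w).2 m l⟩,
    fun x hx D hD hv l => by_contra fun m => (k x hx).1.2.1 D hD hv m l, fun x hx d l l' =>
    closure_mono ?_ ((k x hx).1.2.2 d ⟨l, l'⟩)⟩
  exact fun y hy => ⟨hy.1, fun D hD => iff_of_eq (congrFun hy.2 ⟨D, hD⟩)⟩

theorem st_of_ball {U : Set (ℝ × ℝ)} {δ ρ : ℝ} {A : ℕ} {z : ℝ × ℝ}
    (hr : Rad X R Λ U δ A z ρ) (hz : z ∉ Ev Λ E) {x x' : ℝ × ℝ} (a1 : x ∈ interior (R A))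
    (a2 : x.1 ∉ Λ) (a3 : x ∈ Metric.ball z ρ) (b1 : x' ∈ interior (R A)) (b2 : x'.1 ∉ Λ)
    (b3 : x' ∈ Metric.ball z ρ) (c : ∀ l ∈ Λ, x.1 < l ↔ x'.1 < l) : St X R Λ U A x x' := by
  refine ⟨c, b2, ((convex_ball z ρ).segment_subset a3 b3).trans hr.sub, fun D hD hv hi hm => ?_⟩
  have key : ∀ y ∈ Metric.ball z ρ, (y = x ∨ y = x') →
      (Abv (R D) z → Abv (R D) y) ∧ (Blw (R D) z → Blw (R D) y) := fun y hy hy' => by
    by_cases l : z.1 ∈ Λ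
    · obtain ⟨w, w1, w2⟩ := hm
      have n1 : x.1 ≠ z.1 := fun e => a2 (e ▸ l)
      have n2 : x'.1 ≠ z.1 := fun e => b2 (e ▸ l)
      rcases n1.lt_or_gt with m | m
      · have := (c _ l).1 m
        refine hr.seg y hy D hD hv false ⟨w, w1, by simpa [sg, w2] using m⟩ ?_
        rcases hy' with rfl | rfl <;> simp only [sg_false] <;> linarith
      · have := not_lt.1 (mt (c _ l).2 m.not_gt)
        refine hr.seg y hy D hD hv true ⟨w, w1, by simpa [sg, w2] using m⟩ ?_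
        rcases hy' with rfl | rfl <;> simp only [sg_true] <;> linarith
    · have i := int_of_off h s hD hv (hr.prj x a3 D hD hv hm) l
      rcases le_total 0 (y.1 - z.1) with m | m
      · exact hr.seg y hy D hD hv true (side_of_int i _) (by simpa [sg] using m)
      · exact hr.seg y hy D hD hv false (side_of_int i _) (by simpa [sg] using m)
  rcases abv_or_blw h s hD hv (hr.prj x a3 D hD hv hm) hz with k | k
  · exact iff_of_true ((key x a3 (Or.inl rfl)).1 k) ((key x' b3 (Or.inr rfl)).1 k)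
  · exact iff_of_false
      (fun m => io_notMem (h.reg D hD) hi a1
        (mem_of_abv_blw (h.cvx D hD hv) m ((key x a3 (Or.inl rfl)).2 k)))
      fun m => io_notMem (h.reg D hD) hi b1
        (mem_of_abv_blw (h.cvx D hD hv) m ((key x' b3 (Or.inr rfl)).2 k))

end

theorem exists_PD (h : Reg X R) : ∃ Q : PD, Q.OK X R := by
  classical
  obtain ⟨Λ, E, s⟩ := exists_S1 (X := X) (R := R)
  obtain ⟨U, hU, hU'⟩ := exists_nbhds X.n R (fun i hi => (h.reg i hi).closed)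
    fun i hi => (h.reg i hi).1
  obtain ⟨δ, δ0, hδ⟩ := exists_chan h s
  have : ∀ i z, ∃ ρ, i < X.n → z ∈ R i → Rad X R Λ (U i) δ i z ρ := fun i z => by
    by_cases k : i < X.n ∧ z ∈ R i
    · obtain ⟨ρ, hρ⟩ := exists_rad (Λ := Λ) h (hU i k.1).1 δ0 i ((hU i k.1).2 k.2)
      exact ⟨ρ, fun _ _ => hρ⟩
    · exact ⟨0, fun a b => absurd ⟨a, b⟩ k⟩
  choose r hr using this
  set Rel : ℕ → ℝ × ℝ → ℝ × ℝ → Prop := fun A p q => p ≠ q ∧ (p ∈ R A ∧ p ∈ Ev Λ E) ∧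
    (q ∈ R A ∧ q ∈ Ev Λ E) ∧ ∃ N z d x x', z 0 = p ∧ z N = q ∧
      IsStr (R A) Λ (Ev Λ E) (r A) (St X R Λ (U A) A) N z d x x' with hRel
  set ac : ℕ × (ℝ × ℝ) × ℝ × ℝ → Prop := fun g => g.1 < X.n ∧ X.cvx g.1 = false ∧
    (∀ τ, cond τ g.2.2 g.2.1 ∈ R g.1 ∩ Ev Λ E) ∧
      (g.2.1 = g.2.2 ∨ (X.con g.1 = true ∧ Rel g.1 g.2.1 g.2.2)) with hac
  have : ∀ g, ∃ (N : ℕ) (z : ℕ → ℝ × ℝ) (d : ℕ → Bool) (x x' : ℕ → ℝ × ℝ) (sd : Bool → Bool)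
      (sx : Bool → ℝ × ℝ), ac g →
      (∀ τ, Att (R g.1) Λ (r g.1) (cond τ g.2.2 g.2.1) (sd τ) (sx τ)) ∧
      (g.2.1 = g.2.2 → sx true = sx false) ∧ (g.2.1 ≠ g.2.2 → z 0 = g.2.1 ∧ z N = g.2.2 ∧
        IsStr (R g.1) Λ (Ev Λ E) (r g.1) (St X R Λ (U g.1) g.1) N z d x x' ∧ sd false = d 0 ∧
        sd true = (!d N) ∧ sx false = x 0 ∧ sx true = x' (N - 1)) := by
    rintro ⟨A, p, q⟩
    by_cases k : ac (A, p, q)
    swap
    · exact ⟨0, 0, default, 0, 0, default, 0, fun l => absurd l k⟩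
    simp only [hac] at k
    obtain ⟨a1, -, a3, rfl | ⟨-, a4, -, -, N, z, d, x, x', rfl, rfl, a5⟩⟩ := k
    · obtain ⟨d, x, hx⟩ := exists_att (h.reg A a1).2 Λ (r A) (a3 true).1 (a3 true).2.1
        (hr A _ a1 (a3 true).1).pos
      exact ⟨0, 0, default, 0, 0, fun _ => d, fun _ => x, fun _ => ⟨fun τ => by
        simpa using hx, fun _ => rfl, fun l => absurd rfl l⟩⟩
    · refine ⟨N, z, d, x, x', fun τ => cond τ (!d N) (d 0), fun τ => cond τ (x' (N - 1)) (x 0),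
        fun _ => ⟨fun τ => ?_, fun l => absurd l a4, fun _ => ⟨rfl, rfl, a5, rfl, rfl, rfl, rfl⟩⟩⟩
      cases τ
      · exact (a5.chord 0 a5.pos).1
      · have := (a5.chord (N - 1) (Nat.sub_one_lt a5.pos.ne')).2.1
        rwa [Nat.sub_add_cancel a5.pos] at this
  choose N z d x x' sd sx hs using this
  have : ∀ A, ∃ rk : ℝ × ℝ → ℕ, A < X.n → X.con A = true → ∀ p ∈ R A ∩ Ev Λ E,
      ∀ q ∈ R A ∩ Ev Λ E, p ≠ q → rk q ≤ rk p → ∃ p₀, ac (A, p₀, p) ∧ rk p₀ < rk p := fun A => by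
    by_cases k : (R A ∩ Ev Λ E).Nonempty
    swap
    · exact ⟨0, fun _ _ p hp => absurd ⟨p, hp⟩ k⟩
    obtain ⟨p₁, hp₁⟩ := k
    obtain ⟨rk, r0, r1⟩ := exists_rank (Rel A) p₁
    refine ⟨rk, fun hA hc => ?_⟩
    have ch : ∀ q ∈ R A ∩ Ev Λ E, q ≠ p₁ → ∃ q', Rel A q' q ∧ rk q' < rk q := fun q hq =>
      r1 q (chain (h.con A hA hc).isPreconnected (h.reg A hA).2 Λ (Ev Λ E) (fun p hp => hp.1)
        (r A) (fun z hz => (hr A z hA hz).pos) (fun z hz => (hr A z hA hz).far) _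
        (fun z hz hz' x x' a1 a2 a3 b1 b2 b3 c =>
          st_of_ball h s (hr A z hA hz) hz' a1 a2 a3 b1 b2 b3 c) hp₁ hq)
    intro p hp q hq hpq hle
    by_cases e : p = p₁
    · obtain ⟨q', -, l⟩ := ch q hq (e ▸ hpq.symm)
      rw [e, r0] at hle
      omega
    · obtain ⟨q', l, l'⟩ := ch p hp e
      exact ⟨q', ⟨hA, h.hcc A hc, fun τ => by cases τ; exacts [l.2.1, hp], Or.inr ⟨hc, l⟩⟩, l'⟩
  choose rk hrk using this
  exact ⟨⟨Λ, E, U, δ, r, N, z, d, x, x', sd, sx, rk, ac⟩, s, hU', δ0,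
    fun i hi z hz => hr i z hi hz, hδ,
    fun g hg => ⟨hg.1, hg.2.1, hg.2.2.1, hg.2.2.2.imp_right And.left⟩,
    fun A hA hv p hp => ⟨hA, hv, fun τ => by simpa using hp, Or.inl rfl⟩,
    fun g hg => (hs g hg).1, fun g hg => (hs g hg).2.1, fun g hg => (hs g hg).2.2, hrk⟩

end Pool.Agent.Lib.MP_02e8f2_lc
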