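import Pool.Agent.Lib.MP_02e8f2_lc.Cert

/-!
Vertical sections of plane convex sets.
-/

set_option autoImplicit false

namespace Pool.Agent.Lib.MP_02e8f2_lc

open Set Filter Topology

/-- Some point of `D` lies strictly below `x` on the vertical through `x`. -/
def Abv (D : Set (ℝ × ℝ)) (x : ℝ × ℝ) : Prop := ∃ y, y < x.2 ∧ (x.1, y) ∈ D

/-- Some point of `D` lies strictly above `x` on the vertical through `x`. -/
def Blw (D : Set (ℝ × ℝ)) (x : ℝ × ℝ) : Prop := ∃ y, x.2 < y ∧ (x.1, y) ∈ D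

/-- Upper (`up = true`) or lower end of the vertical section. -/
noncomputable def bd (D : Set (ℝ × ℝ)) (up : Bool) (ξ : ℝ) : ℝ :=
  cond up (sSup {y | (ξ, y) ∈ D}) (sInf {y | (ξ, y) ∈ D})

variable {D : Set (ℝ × ℝ)}

theorem sg_sq (d : Bool) : sg d * sg d = 1 := by cases d <;> simp [sg]

theorem seg_aux (hD : Convex ℝ D) {z : ℝ × ℝ} {y : ℝ} (hy : (z.1, y) ∈ D) (d : Bool)
    (hw : ∃ w ∈ D, 0 < sg d * (w.1 - z.1)) : ∃ φ : ℝ × ℝ → ℝ, Continuous φ ∧ φ z = y ∧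
      ∀ᶠ x in 𝓝 z, 0 ≤ sg d * (x.1 - z.1) → (x.1, φ x) ∈ D := by
  obtain ⟨w, hw, h0⟩ := hw
  have hne : w.1 - z.1 ≠ 0 := fun h => by rw [h, mul_zero] at h0; exact lt_irrefl _ h0
  have hs : sg d ≠ 0 := fun h => by rw [h, zero_mul] at h0; exact lt_irrefl _ h0
  refine ⟨fun x => y + (x.1 - z.1) / (w.1 - z.1) * (w.2 - y), by fun_prop, by simp, ?_⟩
  have hc : Continuous fun x : ℝ × ℝ => (x.1 - z.1) / (w.1 - z.1) := by fun_prop
  filter_upwards [hc.continuousAt.eventually_lt continuousAt_const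
    (show (z.1 - z.1) / (w.1 - z.1) < 1 by simp)] with x h1 h2
  have h3 : 0 ≤ (x.1 - z.1) / (w.1 - z.1) := by
    rw [← mul_div_mul_left _ _ hs]; exact div_nonneg h2 h0.le
  have := hD hy hw (sub_nonneg.2 h1.le) h3 (by ring)
  have e : (1 - (x.1 - z.1) / (w.1 - z.1)) • (z.1, y) + ((x.1 - z.1) / (w.1 - z.1)) • w
      = (x.1, y + (x.1 - z.1) / (w.1 - z.1) * (w.2 - y)) := by
    ext
    · simp only [Prod.fst_add, Prod.smul_fst, smul_eq_mul]; field_simp; ring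
    · simp only [Prod.snd_add, Prod.smul_snd, smul_eq_mul]; ring
  rwa [e] at this

theorem sec_convex (hD : Convex ℝ D) (ξ : ℝ) : Convex ℝ {y | (ξ, y) ∈ D} := by
  intro y hy y' hy' a b ha hb hab
  have := hD hy hy' ha hb hab
  have e : a • (ξ, y) + b • (ξ, y') = (ξ, a • y + b • y') := by
    ext
    · simp only [Prod.fst_add, Prod.smul_fst, smul_eq_mul]; linear_combination ξ * hab
    · simp
  rwa [e] at this

theorem ex_side {ξ : ℝ} (h : ξ ∈ interior (Prod.fst '' D)) (d : Bool) :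
    ∃ w ∈ D, 0 < sg d * (w.1 - ξ) := by
  obtain ⟨ε, hε, hb⟩ := Metric.mem_nhds_iff.1 (mem_interior_iff_mem_nhds.1 h)
  obtain ⟨w, hw, e⟩ := hb (show ξ + sg d * (ε / 2) ∈ Metric.ball ξ ε by
    rw [Metric.mem_ball, Real.dist_eq, abs_lt]
    cases d <;> simp only [sg, cond_true, cond_false] <;> constructor <;> linarith)
  refine ⟨w, hw, ?_⟩
  rw [e, add_sub_cancel_left, ← mul_assoc, sg_sq]
  linarith

theorem sg_cases (a : ℝ) : 0 ≤ sg true * a ∨ 0 ≤ sg false * a := by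
  simp only [sg, cond_true, cond_false]
  rcases le_total 0 a with h | h
  · left; linarith
  · right; linarith

theorem sec_compact (hc : IsCompact D) (ξ : ℝ) : IsCompact {y | (ξ, y) ∈ D} :=
  (hc.image continuous_snd).of_isClosed_subset (hc.isClosed.preimage (by fun_prop))
    fun y hy => ⟨(ξ, y), hy, rfl⟩

/-- Task rc8 (whole file).  Follow the segment from the point below `z` towards `w`. -/
theorem seg_abv (hD : Convex ℝ D) {z : ℝ × ℝ} (h : Abv D z) (d : Bool)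
    (hw : ∃ w ∈ D, 0 < sg d * (w.1 - z.1)) :
    ∀ᶠ x in 𝓝 z, 0 ≤ sg d * (x.1 - z.1) → Abv D x := by
  obtain ⟨y, h1, h2⟩ := h
  obtain ⟨φ, c1, c2, c3⟩ := seg_aux hD h2 d hw
  filter_upwards [c3, c1.continuousAt.eventually_lt continuousAt_snd (c2 ▸ h1)] with x k1 k2 k3
  exact ⟨φ x, k2, k1 k3⟩

theorem seg_blw (hD : Convex ℝ D) {z : ℝ × ℝ} (h : Blw D z) (d : Bool)
    (hw : ∃ w ∈ D, 0 < sg d * (w.1 - z.1)) :
    ∀ᶠ x in 𝓝 z, 0 ≤ sg d * (x.1 - z.1) → Blw D x := by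
  obtain ⟨y, h1, h2⟩ := h
  obtain ⟨φ, c1, c2, c3⟩ := seg_aux hD h2 d hw
  filter_upwards [c3, continuousAt_snd.eventually_lt c1.continuousAt (c2 ▸ h1)] with x k1 k2 k3
  exact ⟨φ x, k2, k1 k3⟩

theorem mem_of_abv_blw (hD : Convex ℝ D) {x : ℝ × ℝ} (h : Abv D x) (h' : Blw D x) : x ∈ D := by
  obtain ⟨y, h1, h2⟩ := h
  obtain ⟨y', h3, h4⟩ := h'
  exact (sec_convex hD x.1).ordConnected.out h2 h4 ⟨h1.le, h3.le⟩

/-- From `seg_abv`, `seg_blw` (both directions) and `mem_of_abv_blw`. -/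
theorem int_of_abv_blw (hD : Convex ℝ D) {x : ℝ × ℝ} (h : Abv D x) (h' : Blw D x)
    (hx : x.1 ∈ interior (Prod.fst '' D)) : x ∈ interior D := by
  rw [mem_interior_iff_mem_nhds]
  filter_upwards [seg_abv hD h true (ex_side hx true), seg_abv hD h false (ex_side hx false),
    seg_blw hD h' true (ex_side hx true), seg_blw hD h' false (ex_side hx false)]
    with w k1 k2 k3 k4
  rcases sg_cases (w.1 - x.1) with k | k
  · exact mem_of_abv_blw hD (k1 k) (k3 k)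
  · exact mem_of_abv_blw hD (k2 k) (k4 k)

/-- Approximate points of `D` left and right of `ξ` by interior points; the segment between them
lies in the interior. -/
theorem fat_section (hD : Convex ℝ D) (hr : D = closure (interior D)) {ξ : ℝ}
    (h : ξ ∈ interior (Prod.fst '' D)) : ∃ y y', y < y' ∧ (ξ, y) ∈ D ∧ (ξ, y') ∈ D := by
  have key : ∀ d, ∃ w ∈ interior D, 0 < sg d * (w.1 - ξ) := fun d => by
    obtain ⟨w, hw, h0⟩ := ex_side h d
    rw [hr] at hw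
    obtain ⟨v, h1, h2⟩ := mem_closure_iff.1 hw {v | 0 < sg d * (v.1 - ξ)}
      (isOpen_lt continuous_const (by fun_prop)) h0
    exact ⟨v, h2, h1⟩
  obtain ⟨a, ha, a0⟩ := key false
  obtain ⟨b, hb, b0⟩ := key true
  simp only [sg, cond_true, cond_false] at a0 b0
  obtain ⟨q, hq, e⟩ := (hD.interior.linear_image (LinearMap.fst ℝ ℝ ℝ)).ordConnected.out
    (mem_image_of_mem _ ha) (mem_image_of_mem _ hb)
    (show ξ ∈ Icc a.1 b.1 from ⟨by linarith, by linarith⟩)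
  have e' : q.1 = ξ := e
  obtain ⟨ε, hε, hb⟩ := Metric.mem_nhds_iff.1 (mem_interior_iff_mem_nhds.1 hq)
  refine ⟨q.2, q.2 + ε / 2, by linarith, e' ▸ interior_subset hq, hb ?_⟩
  rw [Metric.mem_ball, Prod.dist_eq, ← e']
  simp only [dist_self, Real.dist_eq, add_sub_cancel_left]
  rw [abs_of_pos (by linarith)]
  exact max_lt hε (by linarith)

theorem sep_of_not_int {I : Set ℝ} (hI : Convex ℝ I) {ξ ξ' : ℝ} (h : ξ ∈ I)
    (h' : ξ' ∉ interior I) : (ξ ≤ sSup I ∧ sSup I ≤ ξ') ∨ (ξ' ≤ sInf I ∧ sInf I ≤ ξ) := by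
  by_cases h1 : ∀ b ∈ I, b ≤ ξ'
  · exact Or.inl ⟨le_csSup ⟨ξ', h1⟩ h, csSup_le ⟨ξ, h⟩ h1⟩
  by_cases h2 : ∀ b ∈ I, ξ' ≤ b
  · exact Or.inr ⟨le_csInf ⟨ξ, h⟩ h2, csInf_le ⟨ξ', h2⟩ h⟩
  push Not at h1 h2
  obtain ⟨b, hb, h1⟩ := h1
  obtain ⟨a, ha, h2⟩ := h2
  exact absurd (interior_maximal (Ioo_subset_Icc_self.trans (hI.ordConnected.out ha hb))
    isOpen_Ioo ⟨h2, h1⟩) h'

theorem order_const {N N' : Set (ℝ × ℝ)} (hN : Convex ℝ N) (hN' : Convex ℝ N')
    (hd : Disjoint N N') {t t' y y' η η' : ℝ} (h1 : (t, y) ∈ N) (h2 : (t, y') ∈ N')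
    (h3 : (t', η) ∈ N) (h4 : (t', η') ∈ N') (h : y < y') : η < η' := by
  by_contra hc
  push Not at hc
  have hp : 0 < y' - y + (η - η') := by linarith
  obtain ⟨s, hs⟩ : ∃ s, s = (y' - y) / (y' - y + (η - η')) := ⟨_, rfl⟩
  have s0 : 0 ≤ s := hs ▸ div_nonneg (by linarith) hp.le
  have s1 : 0 ≤ 1 - s := by
    rw [hs, sub_nonneg, div_le_one hp]; linarith
  have k1 := hN h1 h3 s1 s0 (by ring)
  have k2 := hN' h2 h4 s1 s0 (by ring)
  have e : (1 - s) • (t, y) + s • (t', η) = (1 - s) • (t, y') + s • (t', η') := by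
    ext
    · simp
    · simp only [Prod.snd_add, Prod.smul_snd, smul_eq_mul]
      rw [hs]; field_simp; ring
  rw [e] at k1
  exact disjoint_left.1 hd k1 k2

theorem bd_mem (hc : IsCompact D) {ξ : ℝ} (h : ξ ∈ Prod.fst '' D) (up : Bool) :
    (ξ, bd D up ξ) ∈ D := by
  obtain ⟨w, hw, rfl⟩ := h
  cases up
  · exact (sec_compact hc w.1).sInf_mem ⟨w.2, hw⟩
  · exact (sec_compact hc w.1).sSup_mem ⟨w.2, hw⟩

theorem bd_le (hc : IsCompact D) {ξ y : ℝ} (h : (ξ, y) ∈ D) :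
    bd D false ξ ≤ y ∧ y ≤ bd D true ξ := by
  exact ⟨csInf_le (sec_compact hc ξ).bddBelow h, le_csSup (sec_compact hc ξ).bddAbove h⟩

theorem bd_concave (hc : IsCompact D) (hD : Convex ℝ D) (up : Bool) :
    ConcaveOn ℝ (Prod.fst '' D) fun ξ => sg up * bd D up ξ := by
  refine ⟨hD.linear_image (LinearMap.fst ℝ ℝ ℝ), fun x hx y hy a b ha hb hab => ?_⟩
  have h1 : (a • x + b • y, a • bd D up x + b • bd D up y) ∈ D :=
    hD (bd_mem hc hx up) (bd_mem hc hy up) ha hb hab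
  have h2 := bd_le hc h1
  simp only [smul_eq_mul] at h2 ⊢
  cases up <;> simp only [sg, cond_true, cond_false] <;> linarith [h2.1, h2.2]

theorem near_aux (hD : Convex ℝ D) {z : ℝ × ℝ} {y : ℝ} (hy : (z.1, y) ∈ D) (d : Bool) :
    ∃ φ : ℝ × ℝ → ℝ, Continuous φ ∧ φ z = y ∧
      ∀ᶠ x in 𝓝 z, x.1 ∈ Prod.fst '' D → 0 ≤ sg d * (x.1 - z.1) → (x.1, φ x) ∈ D := by
  by_cases hw : ∃ w ∈ D, 0 < sg d * (w.1 - z.1)
  · obtain ⟨φ, c1, c2, c3⟩ := seg_aux hD hy d hw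
    exact ⟨φ, c1, c2, c3.mono fun x h _ => h⟩
  · refine ⟨fun _ => y, continuous_const, rfl, Eventually.of_forall ?_⟩
    rintro x ⟨w, h1, h2⟩ h3
    push Not at hw
    have h4 := hw w h1
    rw [h2] at h4
    have h5 : x.1 = z.1 := by
      have : sg d * (sg d * (x.1 - z.1)) = 0 := by rw [le_antisymm h4 h3, mul_zero]
      rw [← mul_assoc, sg_sq] at this
      linarith
    rwa [h5]

theorem near_mem (hD : Convex ℝ D) {ξ y : ℝ} (hy : (ξ, y) ∈ D) {U : Set ℝ} (hU : U ∈ 𝓝 y) :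
    ∀ᶠ x in 𝓝[Prod.fst '' D] ξ, ∃ y' ∈ U, (x, y') ∈ D := by
  have ht : Tendsto (fun x : ℝ => (x, y)) (𝓝[Prod.fst '' D] ξ) (𝓝 (ξ, y)) :=
    (Continuous.tendsto (by fun_prop) ξ).mono_left nhdsWithin_le_nhds
  obtain ⟨φ, c1, c2, c3⟩ := near_aux hD (z := (ξ, y)) hy true
  obtain ⟨ψ, d1, d2, d3⟩ := near_aux hD (z := (ξ, y)) hy false
  filter_upwards [ht.eventually c3, ht.eventually d3, self_mem_nhdsWithin,
    ht.eventually (c1.continuousAt.eventually (c2 ▸ hU)),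
    ht.eventually (d1.continuousAt.eventually (d2 ▸ hU))] with x k1 k2 k3 k4 k5
  rcases sg_cases (x - ξ) with k | k
  · exact ⟨_, k4, k1 k3 k⟩
  · exact ⟨_, k5, k2 k3 k⟩

theorem near_notMem (hc : IsCompact D) {ξ : ℝ} {C : Set ℝ} (hC : IsClosed C)
    (h : ∀ y ∈ C, (ξ, y) ∉ D) : ∀ᶠ x in 𝓝[Prod.fst '' D] ξ, ∀ y ∈ C, (x, y) ∉ D := by
  have h1 : IsClosed (Prod.fst '' (D ∩ Prod.snd ⁻¹' C)) :=
    ((hc.inter_right (hC.preimage continuous_snd)).image continuous_fst).isClosed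
  have h2 : ξ ∉ Prod.fst '' (D ∩ Prod.snd ⁻¹' C) := by
    rintro ⟨w, ⟨k1, k2⟩, rfl⟩
    exact h w.2 k2 k1
  filter_upwards [mem_nhdsWithin_of_mem_nhds (h1.isOpen_compl.mem_nhds h2)] with x hx y hy hm
  exact hx ⟨(x, y), ⟨hm, hy⟩, rfl⟩

/-- Upper semicontinuity from closedness, lower semicontinuity from segments. -/
theorem bd_cont (hc : IsCompact D) (hD : Convex ℝ D) (up : Bool) :
    ContinuousOn (bd D up) (Prod.fst '' D) := by
  intro ξ hξ
  refine tendsto_order.2 ⟨fun c h => ?_, fun c h => ?_⟩ <;> cases up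
  · filter_upwards [near_notMem hc (isClosed_Iic (a := c))
      (fun y hy hm => absurd ((bd_le hc hm).1.trans hy) (not_le.2 h)), self_mem_nhdsWithin]
      with x k1 k2
    exact not_le.1 fun k => k1 _ k (bd_mem hc k2 false)
  · filter_upwards [near_mem hD (bd_mem hc hξ true) (Ioi_mem_nhds h)] with x ⟨y, k1, k2⟩
    exact lt_of_lt_of_le k1 (bd_le hc k2).2
  · filter_upwards [near_mem hD (bd_mem hc hξ false) (Iio_mem_nhds h)] with x ⟨y, k1, k2⟩
    exact lt_of_le_of_lt (bd_le hc k2).1 k1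
  · filter_upwards [near_notMem hc (isClosed_Ici (a := c))
      (fun y hy hm => absurd (le_trans hy (bd_le hc hm).2) (not_le.2 h)), self_mem_nhdsWithin]
      with x k1 k2
    exact not_le.1 fun k => k1 _ k (bd_mem hc k2 true)

theorem bad_shear {R : Set (ℝ × ℝ)} (hc : IsClosed R) (hR : Convex ℝ R) {l : ℝ}
    (h : ¬ IsClosed ((fun z : ℝ × ℝ => z.1 + l * z.2) '' R)) : ∃ s : Bool × Bool,
      (∃ c, ∀ z ∈ R, sg s.1 * (z.1 + l * z.2) ≤ c) ∧
      ∃ z : ℝ × ℝ, ∀ t, 0 ≤ t → (z.1 - l * (sg s.2 * t), z.2 + sg s.2 * t) ∈ R := by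
  obtain ⟨c, h1, h2⟩ : ∃ c, c ∈ closure ((fun z : ℝ × ℝ => z.1 + l * z.2) '' R) ∧
      c ∉ (fun z : ℝ × ℝ => z.1 + l * z.2) '' R := by
    by_contra k
    push Not at k
    exact h (closure_subset_iff_isClosed.1 k)
  have hJ : Convex ℝ ((fun z : ℝ × ℝ => z.1 + l * z.2) '' R) :=
    hR.linear_image (LinearMap.fst ℝ ℝ ℝ + l • LinearMap.snd ℝ ℝ ℝ)
  obtain ⟨δ, hδ⟩ : ∃ δ : Bool, ∃ c, ∀ z ∈ R, sg δ * (z.1 + l * z.2) ≤ c := by
    by_cases k1 : ∀ z ∈ R, z.1 + l * z.2 ≤ c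
    · exact ⟨true, c, fun z hz => by simpa [sg] using k1 z hz⟩
    · push Not at k1
      obtain ⟨b, hb, k1⟩ := k1
      refine ⟨false, -c, fun z hz => ?_⟩
      by_contra k2
      simp only [sg, cond_false] at k2
      exact h2 (hJ.ordConnected.out (mem_image_of_mem _ hz) (mem_image_of_mem _ hb)
        ⟨by linarith, k1.le⟩)
  obtain ⟨ε, hε⟩ : ∃ ε : Bool, ∀ m : ℝ, ∃ z ∈ R, |z.1 + l * z.2 - c| ≤ 1 ∧ m < sg ε * z.2 := by
    by_contra k
    push Not at k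
    obtain ⟨m1, k1⟩ := k true
    obtain ⟨m2, k2⟩ := k false
    simp only [sg, cond_true, cond_false] at k1 k2
    have hK : IsCompact (R ∩ {z | |z.1 + l * z.2 - c| ≤ 1}) := by
      refine (((isCompact_Icc (a := c - 1) (b := c + 1)).prod
        (isCompact_Icc (a := -m2) (b := m1))).image
        (f := fun w : ℝ × ℝ => (w.1 - l * w.2, w.2)) (by fun_prop)).of_isClosed_subset
        (hc.inter (isClosed_le (by fun_prop) continuous_const)) ?_
      rintro z ⟨z1, z2⟩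
      have z3 := abs_le.1 (show |z.1 + l * z.2 - c| ≤ 1 from z2)
      refine ⟨(z.1 + l * z.2, z.2), ⟨⟨by linarith [z3.1], by linarith [z3.2]⟩,
        ⟨by linarith [k2 z z1 z2], by linarith [k1 z z1 z2]⟩⟩, ?_⟩
      simp
    have hcl := (hK.image (f := fun z : ℝ × ℝ => z.1 + l * z.2) (by fun_prop)).isClosed
    refine h2 (image_mono inter_subset_left (hcl.closure_subset ?_))
    refine Metric.mem_closure_iff.2 fun η hη => ?_
    obtain ⟨_, ⟨z, hz, rfl⟩, k3⟩ := Metric.mem_closure_iff.1 h1 (min η 1) (lt_min hη one_pos)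
    refine ⟨_, ⟨z, ⟨hz, ?_⟩, rfl⟩, k3.trans_le (min_le_left _ _)⟩
    rw [dist_comm, Real.dist_eq] at k3
    exact k3.le.trans (min_le_right _ _)
  obtain ⟨z₀, hz₀, -⟩ := hε 0
  refine ⟨(δ, ε), hδ, z₀, fun t ht => hc.closure_subset (Metric.mem_closure_iff.2 fun η hη => ?_)⟩
  obtain ⟨B, hB⟩ : ∃ B, B = 1 + |z₀.1 + l * z₀.2 - c| := ⟨_, rfl⟩
  have B0 : 0 < B := by rw [hB]; positivity
  obtain ⟨z, hz, k1, k2⟩ := hε (sg ε * z₀.2 + t + t * B / η)
  obtain ⟨L, hL⟩ : ∃ L, L = sg ε * (z.2 - z₀.2) := ⟨_, rfl⟩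
  have k3 : t + t * B / η < L := by rw [hL]; linarith
  have k4 : 0 ≤ t * B / η := by positivity
  have L0 : 0 < L := by linarith
  have s0 : 0 ≤ t / L := by positivity
  have s1 : 0 ≤ 1 - t / L := by rw [sub_nonneg, div_le_one L0]; linarith
  refine ⟨_, hR hz₀ hz s1 s0 (by ring), ?_⟩
  have e0 : t / L * (z.2 - z₀.2) = sg ε * t := by
    have : z.2 - z₀.2 = sg ε * L := by rw [hL, ← mul_assoc, sg_sq, one_mul]
    rw [this]; field_simp
  have e2 : dist (z₀.2 + sg ε * t) ((1 - t / L) • z₀ + (t / L) • z).2 = 0 := by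
    rw [dist_eq_zero]
    simp only [Prod.snd_add, Prod.smul_snd, smul_eq_mul]
    linear_combination -e0
  have e1 : z₀.1 - l * (sg ε * t) - ((1 - t / L) • z₀ + (t / L) • z).1
      = t / L * ((z₀.1 + l * z₀.2 - c) - (z.1 + l * z.2 - c)) := by
    simp only [Prod.fst_add, Prod.smul_fst, smul_eq_mul]
    linear_combination l * e0
  rw [Prod.dist_eq, e2, Real.dist_eq, e1, abs_mul, abs_of_nonneg s0]
  refine max_lt ?_ hη
  have k5 : |(z₀.1 + l * z₀.2 - c) - (z.1 + l * z.2 - c)| ≤ B := by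
    rw [hB]; linarith [abs_sub (z₀.1 + l * z₀.2 - c) (z.1 + l * z.2 - c)]
  have k6 : t * B < η * L := by
    have : t * B / η < L := by linarith
    rw [div_lt_iff₀ hη] at this; linarith
  calc t / L * |(z₀.1 + l * z₀.2 - c) - (z.1 + l * z.2 - c)| ≤ t / L * B := by gcongr
    _ = t * B / L := by ring
    _ < η := by rw [div_lt_iff₀ L0]; exact k6

theorem bad_finite {R : Set (ℝ × ℝ)} (hc : IsClosed R) (hR : Convex ℝ R) :
    {l : ℝ | ¬ IsClosed ((fun z : ℝ × ℝ => z.1 + l * z.2) '' R)}.Finite := by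
  choose! s h1 h2 using fun l h => bad_shear hc hR (l := l) h
  have key : ∀ l l', ¬ IsClosed ((fun z : ℝ × ℝ => z.1 + l * z.2) '' R) →
      ¬ IsClosed ((fun z : ℝ × ℝ => z.1 + l' * z.2) '' R) →
      sg (s l).1 * sg (s l').2 * (l - l') ≤ 0 := fun l l' hl hl' => by
    obtain ⟨c, k1⟩ := h1 l hl
    obtain ⟨z, k2⟩ := h2 l' hl'
    by_contra k
    push Not at k
    obtain ⟨a, ha⟩ : ∃ a, a = sg (s l).1 * sg (s l').2 * (l - l') := ⟨_, rfl⟩
    obtain ⟨b, hb⟩ : ∃ b, b = sg (s l).1 * (z.1 + l * z.2) := ⟨_, rfl⟩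
    rw [← ha] at k
    have k3 := k1 _ (k2 ((|c - b| + 1) / a) (by positivity))
    have e : sg (s l).1 * (z.1 - l' * (sg (s l').2 * ((|c - b| + 1) / a)) +
        l * (z.2 + sg (s l').2 * ((|c - b| + 1) / a))) = b + a * ((|c - b| + 1) / a) := by
      rw [hb]; nth_rewrite 3 [ha]; ring
    simp only at k3
    rw [e, mul_div_cancel₀ _ k.ne'] at k3
    linarith [le_abs_self (c - b)]
  refine Finite.of_finite_image (f := s) (toFinite _) fun l hl l' hl' e => ?_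
  have k1 := key l l' hl hl'
  have k2 := key l' l hl' hl
  rw [← e] at k1 k2
  have k3 : sg (s l).1 * sg (s l).2 * (l - l') = 0 := by linarith
  have k4 : sg (s l).1 * sg (s l).2 ≠ 0 := by
    cases (s l).1 <;> cases (s l).2 <;> simp [sg]
  exact sub_eq_zero.1 ((mul_eq_zero.1 k3).resolve_left k4)

/-- For one closed convex set at most two `l` are bad.  If `f l z = z.1 + l * z.2` has a non-closed
image, then `f l` is bounded on one side on the set by a value that is not attained, and one of the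
two directions `± (-l, 1)` is a recession direction (`z + t • v` stays in the set for `t ≥ 0`).
With signs `δ i`, `ε i`, three bad values `l 1 < l 2 < l 3` give
`0 ≤ δ i * ε j * (l i - l j)` for all `i, j`, which is contradictory. -/
theorem exists_shear (n : ℕ) (R : ℕ → Set (ℝ × ℝ)) (p : ℕ → Prop)
    (h : ∀ i < n, p i → IsClosed (R i) ∧ Convex ℝ (R i)) :
    ∃ l : ℝ, ∀ i < n, p i → IsClosed ((fun z : ℝ × ℝ => z.1 + l * z.2) '' R i) := by
  have hf : (⋃ i ∈ {i | i < n ∧ p i},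
      {l : ℝ | ¬ IsClosed ((fun z : ℝ × ℝ => z.1 + l * z.2) '' R i)}).Finite :=
    ((finite_lt_nat n).subset fun _ k => k.1).biUnion fun i hi =>
      bad_finite (h i hi.1 hi.2).1 (h i hi.1 hi.2).2
  obtain ⟨l, hl⟩ := hf.exists_notMem
  refine ⟨l, fun i h1 h2 => ?_⟩
  by_contra k
  exact hl (mem_iUnion₂.2 ⟨i, ⟨h1, h2⟩, k⟩)

end Pool.Agent.Lib.MP_02e8f2_lc
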