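import Pool.Agent.Lib.MP_02e8f2_lc.Cert

/-!
Truncated one-sided slopes of concave and convex functions; small tools.
-/

set_option autoImplicit false

namespace Pool.Agent.Lib.MP_02e8f2_lc

open Set Filter Topology

/-- The one-sided slope of `f` at `a` in direction `d`, with difference quotients cut to
`[-S, S]`. -/
noncomputable def slp (S : ℝ) (f : ℝ → ℝ) (a : ℝ) (d : Bool) : ℝ :=
  limUnder (𝓝[>] (0 : ℝ)) fun t => max (-S) (min S ((f (a + sg d * t) - f a) / t))

/-- The cut function is monotone. -/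
theorem slp_cut_mono (S : ℝ) {x y : ℝ} (h : x ≤ y) : max (-S) (min S x) ≤ max (-S) (min S y) :=
  max_le_max le_rfl (min_le_min le_rfl h)

/-- The cut function is odd. -/
theorem slp_cut_neg {S : ℝ} (hS : 0 ≤ S) (x : ℝ) :
    max (-S) (min S (-x)) = - max (-S) (min S x) := by
  rcases le_total S x with h | h
  · rw [min_eq_left h, min_eq_right (by linarith : -x ≤ S), max_eq_left (by linarith : -x ≤ -S),
      max_eq_right (by linarith : -S ≤ S)]
  · rw [min_eq_right h]
    rcases le_total (-S) x with h' | h'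
    · rw [max_eq_right h', min_eq_right (by linarith : -x ≤ S),
        max_eq_right (by linarith : -S ≤ -x)]
    · rw [max_eq_left h', min_eq_left (by linarith : S ≤ -x),
        max_eq_right (by linarith : -S ≤ S), neg_neg]

/-- The cut function fixes small numbers. -/
theorem slp_cut_eq {S x : ℝ} (h : |x| < S) : max (-S) (min S x) = x := by
  obtain ⟨h1, h2⟩ := abs_lt.1 h
  rw [min_eq_right h2.le, max_eq_right h1.le]

theorem slp_sg_sq (b : Bool) : sg b * sg b = 1 := by
  cases b <;> simp [sg]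

theorem slp_mem {a w t : ℝ} {d : Bool} (ht : 0 ≤ t) (htw : t ≤ w) :
    a + sg d * t ∈ uIcc a (a + sg d * w) := by
  cases d
  · simp only [sg, cond_false]
    rw [mem_uIcc]
    right
    constructor <;> linarith
  · simp only [sg, cond_true]
    rw [mem_uIcc]
    left
    constructor <;> linarith

/-- Difference quotients of a concave function decrease. -/
theorem slp_quot_anti {w a s t : ℝ} {f : ℝ → ℝ} {d up : Bool}
    (hf : ConcaveOn ℝ (uIcc a (a + sg d * w)) fun x => sg up * f x) (hs : 0 < s) (hst : s ≤ t)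
    (htw : t ≤ w) :
    sg up * ((f (a + sg d * t) - f a) / t) ≤ sg up * ((f (a + sg d * s) - f a) / s) := by
  have ht : 0 < t := lt_of_lt_of_le hs hst
  have h1 : 0 ≤ 1 - s / t := by
    rw [sub_nonneg, div_le_one ht]
    exact hst
  have h := hf.2 (left_mem_uIcc) (slp_mem (a := a) (d := d) ht.le htw) h1
    (div_nonneg hs.le ht.le) (by ring)
  simp only [smul_eq_mul] at h
  have e : (1 - s / t) * a + s / t * (a + sg d * t) = a + sg d * s := by
    field_simp
    ring
  rw [e] at h
  rw [← mul_div_assoc, ← mul_div_assoc, div_le_div_iff₀ ht hs]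
  have e2 : ((1 - s / t) * (sg up * f a) + s / t * (sg up * f (a + sg d * t))) * t =
      (t - s) * (sg up * f a) + s * (sg up * f (a + sg d * t)) := by
    field_simp
  have h2 := mul_le_mul_of_nonneg_right h ht.le
  rw [e2] at h2
  nlinarith

/-- The limit defining the slope exists and dominates the cut quotients. -/
theorem slp_main {w a : ℝ} (S : ℝ) {f : ℝ → ℝ} {d up : Bool} (hw : 0 < w)
    (hf : ConcaveOn ℝ (uIcc a (a + sg d * w)) fun x => sg up * f x) :
    Tendsto (fun t => max (-S) (min S ((f (a + sg d * t) - f a) / t))) (𝓝[>] (0 : ℝ))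
      (𝓝 (slp S f a d)) ∧ ∀ t, 0 < t → t ≤ w →
      sg up * max (-S) (min S ((f (a + sg d * t) - f a) / t)) ≤ sg up * slp S f a d := by
  let k : ℝ → ℝ := fun t => sg up * max (-S) (min S ((f (a + sg d * t) - f a) / t))
  have hk : ∀ s t, 0 < s → s ≤ t → t ≤ w → k t ≤ k s := by
    intro s t hs hst htw
    have h := slp_quot_anti hf hs hst htw
    cases up
    · simp only [k, sg, cond_false] at h ⊢
      have h2 := slp_cut_mono S (x := (f (a + cond d 1 (-1) * s) - f a) / s)
        (y := (f (a + cond d 1 (-1) * t) - f a) / t) (by linarith)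
      linarith
    · simp only [k, sg, cond_true] at h ⊢
      have h2 := slp_cut_mono S (x := (f (a + cond d 1 (-1) * t) - f a) / t)
        (y := (f (a + cond d 1 (-1) * s) - f a) / s) (by linarith)
      linarith
  have hanti : AntitoneOn k (Ioo 0 w) := fun s hs t ht hst => hk s t hs.1 hst ht.2.le
  have hbdd : BddAbove (k '' Ioo 0 w) := by
    refine ⟨|S|, ?_⟩
    rintro _ ⟨t, _, rfl⟩
    have h1 := le_abs_self S
    have h2 := neg_abs_le S
    have h3 : max (-S) (min S ((f (a + sg d * t) - f a) / t)) ≤ |S| :=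
      max_le (by linarith) (le_trans (min_le_left _ _) h1)
    have h4 : -S ≤ max (-S) (min S ((f (a + sg d * t) - f a) / t)) := le_max_left _ _
    cases up
    · simp only [k, sg, cond_false] at h3 h4 ⊢
      linarith
    · simp only [k, sg, cond_true] at h3 h4 ⊢
      linarith
  have hlim := AntitoneOn.tendsto_nhdsWithin_Ioo_right (nonempty_Ioo.2 hw) hanti hbdd
  have hlim2 : Tendsto (fun t => max (-S) (min S ((f (a + sg d * t) - f a) / t))) (𝓝[>] (0 : ℝ))
      (𝓝 (sg up * sSup (k '' Ioo 0 w))) := by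
    refine (hlim.const_mul (sg up)).congr (fun t => ?_)
    simp only [k]
    rw [← mul_assoc, slp_sg_sq, one_mul]
  have he : slp S f a d = sg up * sSup (k '' Ioo 0 w) := hlim2.limUnder_eq
  rw [he]
  refine ⟨hlim2, fun t ht htw => ?_⟩
  rw [← mul_assoc, slp_sg_sq, one_mul]
  refine ge_of_tendsto hlim ?_
  filter_upwards [Ioo_mem_nhdsGT ht] with s hs
  exact hk s t hs.1 hs.2.le htw

/-- Deviation from the tangent.  The cut difference quotient is monotone in `t` on `(0, w]` and bounded,
so the limit exists. -/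
theorem slp_dev {S w a t : ℝ} {f : ℝ → ℝ} {d up : Bool}
    (hf : ConcaveOn ℝ (uIcc a (a + sg d * w)) fun x => sg up * f x) (ht : 0 < t) (htw : t ≤ w)
    (hS : |(f (a + sg d * t) - f a) / t| < S) :
    sg up * (f (a + sg d * t) - f a - slp S f a d * t) ≤ 0 := by
  have h := (slp_main S (lt_of_lt_of_le ht htw) hf).2 t ht htw
  rw [slp_cut_eq hS, ← mul_div_assoc, div_le_iff₀ ht] at h
  nlinarith

theorem slp_le {S w w' a : ℝ} {f g : ℝ → ℝ} {d up up' : Bool} (hw : 0 < w) (hw' : 0 < w')
    (hf : ConcaveOn ℝ (uIcc a (a + sg d * w)) fun x => sg up * f x)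
    (hg : ConcaveOn ℝ (uIcc a (a + sg d * w')) fun x => sg up' * g x) (h0 : f a = g a)
    (h : ∃ᶠ t in 𝓝[>] (0 : ℝ), f (a + sg d * t) ≤ g (a + sg d * t)) :
    slp S f a d ≤ slp S g a d := by
  refine le_of_tendsto_of_tendsto_of_frequently (slp_main S hw hf).1 (slp_main S hw' hg).1 ?_
  refine (h.and_eventually (self_mem_nhdsWithin (a := (0 : ℝ)) (s := Ioi 0))).mono ?_
  rintro t ⟨h1, h2⟩
  refine slp_cut_mono S (div_le_div_of_nonneg_right ?_ (le_of_lt h2))
  linarith

theorem slp_cell {S α β : ℝ} {f : ℝ → ℝ} {up : Bool} (h : α < β)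
    (hf : ConcaveOn ℝ (Icc α β) fun x => sg up * f x) (hS : |(f β - f α) / (β - α)| < S) :
    (sg up * (f β - f α) < sg up * (slp S f α true * (β - α)) ∧
      sg up * (f α - f β) < sg up * (slp S f β false * (β - α))) ∨
    (f β - f α = slp S f α true * (β - α) ∧ f α - f β = slp S f β false * (β - α) ∧
      ∀ t, 0 < t → t ≤ β - α → f (α + sg true * t) - f α - slp S f α true * t = 0 ∧
        f (β + sg false * t) - f β - slp S f β false * t = 0) := by
  have hw : 0 < β - α := sub_pos.2 h
  have e1 : α + sg true * (β - α) = β := by simp [sg]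
  have e2 : β + sg false * (β - α) = α := by simp [sg]
  have hf1 : ConcaveOn ℝ (uIcc α (α + sg true * (β - α))) fun x => sg up * f x := by
    rw [e1, uIcc_of_le h.le]
    exact hf
  have hf2 : ConcaveOn ℝ (uIcc β (β + sg false * (β - α))) fun x => sg up * f x := by
    rw [e2, uIcc_of_ge h.le]
    exact hf
  obtain ⟨hl1, hd1⟩ := slp_main S hw hf1
  obtain ⟨hl2, hd2⟩ := slp_main S hw hf2
  obtain ⟨m, hm⟩ : ∃ m, m = (f β - f α) / (β - α) := ⟨_, rfl⟩
  rw [← hm] at hS
  have hm' : f β - f α = m * (β - α) := by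
    rw [hm]
    field_simp
  obtain ⟨hS1, hS2⟩ := abs_lt.1 hS
  have hcut : ∀ y z : ℝ, |z| < S → sg up * z < sg up * y →
      sg up * z < sg up * max (-S) (min S y) := by
    intro y z hz hy
    obtain ⟨hz1, hz2⟩ := abs_lt.1 hz
    cases up
    · simp only [sg, cond_false] at hy ⊢
      have h1 : max (-S) (min S y) < z :=
        max_lt hz1 (lt_of_le_of_lt (min_le_right _ _) (by linarith))
      linarith
    · simp only [sg, cond_true] at hy ⊢
      have h1 : z < max (-S) (min S y) :=
        lt_of_lt_of_le (lt_min hz2 (by linarith)) (le_max_right _ _)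
      linarith
  by_cases hlin : ∀ x, α ≤ x → x ≤ β → f x - f α = m * (x - α)
  · right
    have hq1 : ∀ t, 0 < t → t ≤ β - α → f (α + sg true * t) - f α = m * t := by
      intro t ht htw
      have h1 := hlin (α + sg true * t) (by simp only [sg, cond_true]; linarith)
        (by simp only [sg, cond_true]; linarith)
      rw [h1]
      simp [sg]
    have hq2 : ∀ t, 0 < t → t ≤ β - α → f (β + sg false * t) - f β = -m * t := by
      intro t ht htw
      have h1 := hlin (β + sg false * t) (by simp only [sg, cond_false]; linarith)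
        (by simp only [sg, cond_false]; linarith)
      have h2 : f (β + sg false * t) - f β =
          (f (β + sg false * t) - f α) - (f β - f α) := by ring
      rw [h2, h1, hm']
      simp only [sg, cond_false]
      ring
    have hs1 : slp S f α true = m := by
      refine tendsto_nhds_unique hl1 (tendsto_const_nhds.congr' ?_)
      filter_upwards [Ioo_mem_nhdsGT hw] with t ht
      rw [hq1 t ht.1 ht.2.le, mul_div_assoc, div_self ht.1.ne', mul_one, slp_cut_eq hS]
    have hs2 : slp S f β false = -m := by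
      refine tendsto_nhds_unique hl2 (tendsto_const_nhds.congr' ?_)
      filter_upwards [Ioo_mem_nhdsGT hw] with t ht
      rw [hq2 t ht.1 ht.2.le, mul_div_assoc, div_self ht.1.ne', mul_one,
        slp_cut_eq (by rw [abs_neg]; exact hS)]
    rw [hs1, hs2]
    refine ⟨hm', by linarith, fun t ht htw => ?_⟩
    rw [hq1 t ht htw, hq2 t ht htw]
    exact ⟨sub_self _, sub_self _⟩
  · left
    obtain ⟨x, hx1, hx2, hx3⟩ : ∃ x, α ≤ x ∧ x ≤ β ∧ f x - f α ≠ m * (x - α) := by
      by_contra hcon
      apply hlin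
      intro x h1 h2
      by_contra h3
      exact hcon ⟨x, h1, h2, h3⟩
    have hxa : α < x := by
      refine lt_of_le_of_ne hx1 (fun h1 => hx3 ?_)
      rw [← h1]
      ring
    have hxb : x < β := by
      refine lt_of_le_of_ne hx2 (fun h1 => hx3 ?_)
      rw [h1]
      exact hm'
    have ht1 : 0 < x - α := sub_pos.2 hxa
    have ht2 : 0 < β - x := sub_pos.2 hxb
    have e3 : α + sg true * (x - α) = x := by simp [sg]
    have e4 : β + sg false * (β - x) = x := by simp [sg]
    have hge := slp_quot_anti hf1 ht1 (by linarith : x - α ≤ β - α) le_rfl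
    rw [e1, e3, ← hm] at hge
    have hsg : sg up ≠ 0 := by
      intro h0
      have h1 := slp_sg_sq up
      rw [h0, mul_zero] at h1
      exact zero_ne_one h1
    have hgt : sg up * m < sg up * ((f x - f α) / (x - α)) := by
      refine lt_of_le_of_ne hge (fun h1 => hx3 ?_)
      rw [mul_left_cancel₀ hsg h1]
      field_simp
    have hgt2 : sg up * (-m) < sg up * ((f x - f β) / (β - x)) := by
      rw [← mul_div_assoc, lt_div_iff₀ ht1] at hgt
      rw [← mul_div_assoc, lt_div_iff₀ ht2]
      have h1 : f x - f β = (f x - f α) - m * (β - α) := by linarith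
      rw [h1]
      nlinarith
    have h1 := hd1 (x - α) ht1 (by linarith)
    have h2 := hd2 (β - x) ht2 (by linarith)
    rw [e3] at h1
    rw [e4] at h2
    have h3 := lt_of_lt_of_le (hcut _ _ hS hgt) h1
    have h4 := lt_of_lt_of_le (hcut _ _ (by rw [abs_neg]; exact hS) hgt2) h2
    have h5 := mul_lt_mul_of_pos_right h3 hw
    have h6 := mul_lt_mul_of_pos_right h4 hw
    have h7 : f α - f β = -m * (β - α) := by linarith
    rw [hm', h7]
    constructor
    · linarith
    · linarith

theorem slp_kink {S α a β : ℝ} {f : ℝ → ℝ} {up : Bool} (hS : 0 ≤ S) (h : α < a) (h' : a < β)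
    (hf : ConcaveOn ℝ (Icc α β) fun x => sg up * f x) :
    sg up * (slp S f a false + slp S f a true) ≤ 0 := by
  have hw1 : 0 < a - α := sub_pos.2 h
  have hw2 : 0 < β - a := sub_pos.2 h'
  have hf1 : ConcaveOn ℝ (uIcc a (a + sg false * (a - α))) fun x => sg up * f x := by
    have e : a + sg false * (a - α) = α := by simp [sg]
    rw [e, uIcc_of_ge h.le]
    exact hf.subset (Icc_subset_Icc le_rfl h'.le) (convex_Icc _ _)
  have hf2 : ConcaveOn ℝ (uIcc a (a + sg true * (β - a))) fun x => sg up * f x := by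
    have e : a + sg true * (β - a) = β := by simp [sg]
    rw [e, uIcc_of_le h'.le]
    exact hf.subset (Icc_subset_Icc h.le le_rfl) (convex_Icc _ _)
  have hl := (((slp_main S hw1 hf1).1).add ((slp_main S hw2 hf2).1)).const_mul (sg up)
  refine le_of_tendsto hl ?_
  filter_upwards [Ioo_mem_nhdsGT hw1, Ioo_mem_nhdsGT hw2] with t ht1 ht2
  have ht := ht1.1
  have m1 : a + sg false * t ∈ Icc α β := by
    simp only [sg, cond_false]
    constructor <;> linarith [ht1.2, ht2.2]
  have m2 : a + sg true * t ∈ Icc α β := by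
    simp only [sg, cond_true]
    constructor <;> linarith [ht1.2, ht2.2]
  have hc := hf.2 m1 m2 (by norm_num : (0 : ℝ) ≤ 1 / 2) (by norm_num : (0 : ℝ) ≤ 1 / 2)
    (by norm_num)
  simp only [smul_eq_mul] at hc
  have e : 1 / 2 * (a + sg false * t) + 1 / 2 * (a + sg true * t) = a := by
    simp only [sg, cond_false, cond_true]
    ring
  rw [e] at hc
  obtain ⟨p, hp⟩ : ∃ p, p = f (a + sg false * t) := ⟨_, rfl⟩
  obtain ⟨q, hq⟩ : ∃ q, q = f (a + sg true * t) := ⟨_, rfl⟩
  rw [← hp, ← hq] at hc ⊢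
  have hn := slp_cut_neg hS ((q - f a) / t)
  cases up
  · simp only [sg, cond_false] at hc ⊢
    have h1 : -((q - f a) / t) ≤ (p - f a) / t := by
      rw [← neg_div]
      exact div_le_div_of_nonneg_right (by linarith) ht.le
    have h2 := slp_cut_mono S h1
    linarith
  · simp only [sg, cond_true] at hc ⊢
    have h1 : (p - f a) / t ≤ -((q - f a) / t) := by
      rw [← neg_div]
      exact div_le_div_of_nonneg_right (by linarith) ht.le
    have h2 := slp_cut_mono S h1
    linarith

/-- A finite set of reals is listed increasingly, padded with numbers above `B`. -/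
theorem exists_pad (T : Finset ℝ) (K : ℕ) (hK : T.card ≤ K) (B : ℝ) : ∃ a : ℕ → ℝ,
    (∀ i j, i < j → j < K → a i < a j) ∧ (∀ x ∈ T, ∃ k < K, a k = x) ∧
      ∀ k < K, a k ∈ T ∨ B < a k := by
  classical
  have hinf : (Ioi B \ (T : Set ℝ)).Infinite := (Set.Ioi_infinite B).sdiff T.finite_toSet
  obtain ⟨U, hU, hUc⟩ := hinf.exists_subset_card_eq (K - T.card)
  have hdis : Disjoint T U := by
    rw [Finset.disjoint_left]
    intro x hx hxU
    exact (hU (Finset.mem_coe.2 hxU)).2 (Finset.mem_coe.2 hx)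
  have hcard : (T ∪ U).card = K := by
    rw [Finset.card_union_of_disjoint hdis, hUc]
    omega
  refine ⟨fun k => if h : k < K then (T ∪ U).orderEmbOfFin hcard ⟨k, h⟩ else 0, ?_, ?_, ?_⟩
  · intro i j hij hj
    have hi : i < K := lt_trans hij hj
    simp only [dif_pos hi, dif_pos hj]
    exact ((T ∪ U).orderEmbOfFin hcard).strictMono (Fin.mk_lt_mk.2 hij)
  · intro x hx
    have h1 : x ∈ Set.range ((T ∪ U).orderEmbOfFin hcard) := by
      rw [Finset.range_orderEmbOfFin]
      exact Finset.mem_coe.2 (Finset.mem_union_left _ hx)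
    obtain ⟨k, hk⟩ := h1
    refine ⟨k, k.2, ?_⟩
    simp only [dif_pos k.2]
    exact hk
  · intro k hk
    simp only [dif_pos hk]
    rcases Finset.mem_union.1 (Finset.orderEmbOfFin_mem (T ∪ U) hcard ⟨k, hk⟩) with h | h
    · exact Or.inl h
    · exact Or.inr (hU (Finset.mem_coe.2 h)).1

/-- Distance from a root. -/
theorem exists_rank {α : Type} (r : α → α → Prop) (p₀ : α) : ∃ rk : α → ℕ, rk p₀ = 0 ∧
    ∀ q, Relation.ReflTransGen r p₀ q → q ≠ p₀ → ∃ q', r q' q ∧ rk q' < rk q := by
  let R : ℕ → α → Prop := fun n =>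
    Nat.rec (motive := fun _ => α → Prop) (fun q => q = p₀) (fun _ P q => ∃ q', P q' ∧ r q' q) n
  have hR0 : ∀ q, R 0 q ↔ q = p₀ := fun q => Iff.rfl
  have hRs : ∀ n q, R (n + 1) q ↔ ∃ q', R n q' ∧ r q' q := fun n q => Iff.rfl
  refine ⟨fun q => sInf {n | R n q}, ?_, fun q hq hne => ?_⟩
  · exact Nat.le_zero.1 (Nat.sInf_le ((hR0 p₀).2 rfl))
  · have hex : ({n | R n q} : Set ℕ).Nonempty := by
      clear hne
      induction hq with
      | refl => exact ⟨0, (hR0 p₀).2 rfl⟩
      | tail _ hr ih =>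
        obtain ⟨n, hn⟩ := ih
        exact ⟨n + 1, (hRs n _).2 ⟨_, hn, hr⟩⟩
    have hmem : R (sInf {n | R n q}) q := Nat.sInf_mem hex
    obtain ⟨m, hm⟩ : ∃ m, sInf {n | R n q} = m + 1 := by
      refine Nat.exists_eq_succ_of_ne_zero (fun h0 => hne ?_)
      rw [h0] at hmem
      exact (hR0 q).1 hmem
    rw [hm] at hmem
    obtain ⟨q', h1, h2⟩ := (hRs m q).1 hmem
    refine ⟨q', h2, ?_⟩
    have h3 : sInf {n | R n q'} ≤ m := Nat.sInf_le h1
    show sInf {n | R n q'} < sInf {n | R n q}
    omega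

/-- Near `z` only patterns occur that occur arbitrarily close to `z`. -/
theorem ev_pattern {β : Type} [Finite β] (F : Set (ℝ × ℝ)) (pat : ℝ × ℝ → β) (z : ℝ × ℝ) :
    ∀ᶠ x in 𝓝 z, x ∈ F → z ∈ closure {x' | x' ∈ F ∧ pat x' = pat x} := by
  have h : ∀ b : β, ∀ᶠ x in 𝓝 z, x ∈ {x' | x' ∈ F ∧ pat x' = b} →
      z ∈ closure {x' | x' ∈ F ∧ pat x' = b} := by
    intro b
    by_cases hz : z ∈ closure {x' | x' ∈ F ∧ pat x' = b}
    · exact Eventually.of_forall (fun _ _ => hz)
    · filter_upwards [isClosed_closure.isOpen_compl.mem_nhds hz] with x hx hx'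
      exact (hx (subset_closure (s := {x' | x' ∈ F ∧ pat x' = b}) hx')).elim
  filter_upwards [eventually_all.2 h] with x hx hxF
  exact hx (pat x) ⟨hxF, rfl⟩

/-- Open sets around closed sets that keep disjoint pairs disjoint. -/
theorem exists_nbhds (n : ℕ) (R : ℕ → Set (ℝ × ℝ)) (hc : ∀ i < n, IsClosed (R i))
    (hne : ∀ i < n, (R i).Nonempty) : ∃ U : ℕ → Set (ℝ × ℝ), (∀ i < n, IsOpen (U i) ∧ R i ⊆ U i) ∧
      ∀ i < n, ∀ j < n, R i ∩ R j = ∅ → Disjoint (U i) (U j) := by
  refine ⟨fun i => ⋂ j ∈ {j | j < n ∧ R i ∩ R j = ∅},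
    {x | Metric.infDist x (R i) < Metric.infDist x (R j)}, fun i hi => ⟨?_, ?_⟩, ?_⟩
  · refine Set.Finite.isOpen_biInter ((Set.finite_lt_nat n).subset (fun j hj => hj.1)) ?_
    intro j _
    exact isOpen_lt (Metric.continuous_infDist_pt _) (Metric.continuous_infDist_pt _)
  · intro x hx
    refine mem_iInter₂.2 (fun j hj => ?_)
    have hxj : x ∉ R j := by
      intro h
      have h1 : x ∈ R i ∩ R j := ⟨hx, h⟩
      rw [hj.2] at h1
      exact h1
    show Metric.infDist x (R i) < Metric.infDist x (R j)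
    rw [Metric.infDist_zero_of_mem hx]
    exact ((hc j hj.1).notMem_iff_infDist_pos (hne j hj.1)).1 hxj
  · intro i hi j hj hij
    rw [Set.disjoint_left]
    intro x hx1 hx2
    have h1 : Metric.infDist x (R i) < Metric.infDist x (R j) :=
      mem_iInter₂.1 hx1 j ⟨hj, hij⟩
    have h2 : Metric.infDist x (R j) < Metric.infDist x (R i) :=
      mem_iInter₂.1 hx2 i ⟨hi, by rw [Set.inter_comm]; exact hij⟩
    exact lt_asymm h1 h2

end Pool.Agent.Lib.MP_02e8f2_lc
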