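import Pool.Agent.Lib.MP_02e8f2_lc.Pieces
import Pool.Agent.Lib.MP_02e8f2_lc.Sect
import Pool.Agent.Lib.MP_02e8f2_lc.Slope

/-!
The data of compact convex sets satisfy the conditions on boundary functions.
-/

set_option autoImplicit false

namespace Pool.Agent.Lib.MP_02e8f2_lc

open Set Filter Topology

section

variable {D : Set (ℝ × ℝ)}

theorem sec_mem (hc : IsCompact D) (hD : Convex ℝ D) {ξ y : ℝ} (h : ξ ∈ Prod.fst '' D)
    (h1 : bd D false ξ ≤ y) (h2 : y ≤ bd D true ξ) : (ξ, y) ∈ D := by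
  rcases h1.eq_or_lt with rfl | h1
  · exact bd_mem hc h false
  rcases h2.eq_or_lt with rfl | h2
  · exact bd_mem hc h true
  exact mem_of_abv_blw hD ⟨_, h1, bd_mem hc h false⟩ ⟨_, h2, bd_mem hc h true⟩

theorem sec_int (hc : IsCompact D) (hD : Convex ℝ D) {ξ y : ℝ}
    (h : ξ ∈ interior (Prod.fst '' D)) (h1 : bd D false ξ < y) (h2 : y < bd D true ξ) :
    (ξ, y) ∈ interior D :=
  int_of_abv_blw hD ⟨_, h1, bd_mem hc (interior_subset h) false⟩
    ⟨_, h2, bd_mem hc (interior_subset h) true⟩ h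

theorem sec_fat (hc : IsCompact D) (hD : Convex ℝ D) (hi : (interior D).Nonempty) {ξ : ℝ}
    (h : ξ ∈ interior (Prod.fst '' D)) : bd D false ξ < bd D true ξ := by
  obtain ⟨y, y', a, b, c⟩ := fat_section hD (by
    rw [hD.closure_interior_eq_closure_of_nonempty_interior hi, hc.isClosed.closure_eq]) h
  exact (bd_le hc b).1.trans_lt (a.trans_le (bd_le hc c).2)

theorem int_prj {z : ℝ × ℝ} (h : z ∈ interior D) : z.1 ∈ interior (Prod.fst '' D) :=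
  interior_maximal (image_mono interior_subset) (isOpenMap_fst _ isOpen_interior) ⟨z, h, rfl⟩

theorem int_abv {z : ℝ × ℝ} (h : z ∈ interior D) : Abv D z ∧ Blw D z := by
  have h1 : ∀ᶠ y in 𝓝 z.2, (z.1, y) ∈ D :=
    (Continuous.prodMk_right z.1).continuousAt.eventually (mem_interior_iff_mem_nhds.1 h)
  obtain ⟨y, a, b⟩ := ((h1.filter_mono (nhdsWithin_le_nhds (s := Iio z.2))).and
    self_mem_nhdsWithin).exists
  obtain ⟨y', a', b'⟩ := ((h1.filter_mono (nhdsWithin_le_nhds (s := Ioi z.2))).and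
    self_mem_nhdsWithin).exists
  exact ⟨⟨y, b, a⟩, ⟨y', b', a'⟩⟩

theorem int_sec (hc : IsCompact D) {z : ℝ × ℝ} (h : z ∈ interior D) :
    bd D false z.1 < z.2 ∧ z.2 < bd D true z.1 :=
  let ⟨⟨_, a, b⟩, ⟨_, a', b'⟩⟩ := int_abv h
  ⟨(bd_le hc b).1.trans_lt a, a'.trans_le (bd_le hc b').2⟩

end

/-- The boundary data of `G` are those of the compact convex sets `Ct C`. -/
structure CG (X : Ctx) (G : GD) (Ct : ℕ → Set (ℝ × ℝ)) (S : ℝ) (ts : Str → Bool → ℝ) : Prop where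
  ha : ∀ k < X.K, k + 1 < X.K → G.a k < G.a (k + 1)
  cpt : ∀ C < X.n, X.cvx C = true → IsCompact (Ct C)
  cvx : ∀ C < X.n, X.cvx C = true → Convex ℝ (Ct C)
  fat : ∀ C < X.n, X.cvx C = true → (interior (Ct C)).Nonempty
  prj : ∀ C < X.n, X.cvx C = true → ∃ i j, i < j ∧ j < X.K ∧
    Prod.fst '' Ct C = Icc (G.a i) (G.a j)
  sp : ∀ C c, G.sp C c ↔ 1 ≤ c ∧ c < X.K ∧ G.a (c - 1) ∈ Prod.fst '' Ct C ∧
    G.a c ∈ Prod.fst '' Ct C
  φ : ∀ C up k, G.φ C up k = bd (Ct C) up (G.a k)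
  s : ∀ C up k d, G.s C up k d = slp S (bd (Ct C) up) (G.a k) d
  u : ∀ C up k d e τ, G.u C up k d e τ =
    bd (Ct C) up (xp G k d (ts e τ)) - G.φ C up k - G.s C up k d * ts e τ
  ts0 : ∀ e τ, 0 < ts e τ
  ts1 : ∀ e τ c, c + 1 < X.K → ts e τ < G.a (c + 1) - G.a c
  S0 : 0 ≤ S
  S1 : ∀ C < X.n, ∀ up, ∀ k < X.K, ∀ d, ∀ e ∈ X.SS, ∀ τ,
    |(bd (Ct C) up (xp G k d (ts e τ)) - bd (Ct C) up (G.a k)) / ts e τ| < S
  S2 : ∀ C < X.n, ∀ up, ∀ c < X.K,
    |(bd (Ct C) up (G.a (c + 1)) - bd (Ct C) up (G.a c)) / (G.a (c + 1) - G.a c)| < S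

namespace CG

variable {X : Ctx} {G : GD} {Ct : ℕ → Set (ℝ × ℝ)} {S : ℝ} {ts : Str → Bool → ℝ}
  (h : CG X G Ct S ts)
include h

theorem ts_lt {k : ℕ} {d : Bool} (r1 : 1 ≤ clk k d) (r2 : clk k d < X.K) (e : Str) (τ : Bool) :
    ts e τ < 2 * hw G k d := by
  obtain ⟨c, e1, -⟩ := clk_cases r1
  have := h.ts1 e τ c (e1 ▸ r2)
  simp only [hw, e1, Nat.add_sub_cancel]
  linarith

omit h in
theorem xp_cell {k : ℕ} {d : Bool} (r1 : 1 ≤ clk k d) (t : ℝ) :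
    (0 ≤ t → t ≤ 2 * hw G k d → xp G k d t ∈ Icc (G.a (clk k d - 1)) (G.a (clk k d))) ∧
    (0 < t ∧ t < 2 * hw G k d ↔ xp G k d t ∈ Ioo (G.a (clk k d - 1)) (G.a (clk k d))) := by
  obtain ⟨c, e1, ⟨rfl, rfl⟩ | ⟨rfl, rfl⟩⟩ := clk_cases r1 <;>
    simp only [hw, e1, Nat.add_sub_cancel, xp, sg_true, sg_false, mem_Icc, mem_Ioo] <;>
    exact ⟨fun a b => ⟨by linarith, by linarith⟩, fun a => ⟨by linarith [a.1, a.2],
      by linarith [a.1, a.2]⟩, fun a => ⟨by linarith [a.1, a.2], by linarith [a.1, a.2]⟩⟩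

section

variable {C : ℕ} (hC : C < X.n) (hv : X.cvx C = true)
include hC hv

theorem cell_sub {c : ℕ} (hs : G.sp C c) : Icc (G.a (c - 1)) (G.a c) ⊆ Prod.fst '' Ct C :=
  ((h.cvx C hC hv).linear_image (LinearMap.fst ℝ ℝ ℝ)).ordConnected.out ((h.sp C c).1 hs).2.2.1
    ((h.sp C c).1 hs).2.2.2

theorem cell_int {c : ℕ} (hs : G.sp C c) :
    Ioo (G.a (c - 1)) (G.a c) ⊆ interior (Prod.fst '' Ct C) :=
  interior_maximal (Ioo_subset_Icc_self.trans (h.cell_sub hC hv hs)) isOpen_Ioo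

theorem sp_iff : ∃ i j, i < j ∧ j < X.K ∧ Prod.fst '' Ct C = Icc (G.a i) (G.a j) ∧
    ∀ c, G.sp C c ↔ i < c ∧ c ≤ j := by
  obtain ⟨i, j, a, b, e⟩ := h.prj C hC hv
  refine ⟨i, j, a, b, e, fun c => ?_⟩
  rw [h.sp, e]
  constructor
  · rintro ⟨a1, a2, a3, a4⟩
    constructor
    · by_contra l
      exact (lt_of_succ h.ha (by omega : c - 1 < i) (by omega)).not_ge a3.1
    · by_contra l
      exact (lt_of_succ h.ha (by omega : j < c) a2).not_ge a4.2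
  · rintro ⟨a1, a2⟩
    exact ⟨by omega, by omega, ⟨le_of_succ h.ha (by omega) (by omega),
      le_of_succ h.ha (by omega) b⟩, le_of_succ h.ha (by omega) (by omega), le_of_succ h.ha a2 b⟩

theorem sp_line {k : ℕ} (hk : k < X.K) (hm : G.a k ∈ Prod.fst '' Ct C) :
    G.sp C k ∨ G.sp C (k + 1) := by
  obtain ⟨i, j, a, b, e, f⟩ := h.sp_iff hC hv
  rw [e] at hm
  have a1 : ¬ k < i := fun l => (lt_of_succ h.ha l (by omega)).not_ge hm.1
  have a2 : ¬ j < k := fun l => (lt_of_succ h.ha l hk).not_ge hm.2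
  rw [f, f]
  omega

theorem sp_int_line {k : ℕ} (hk : k < X.K) (hm : G.a k ∈ interior (Prod.fst '' Ct C)) :
    G.sp C k ∧ G.sp C (k + 1) := by
  obtain ⟨i, j, a, b, e, f⟩ := h.sp_iff hC hv
  rw [e, interior_Icc] at hm
  have a1 := lt_of_val h.ha (by omega) hm.1
  have a2 := lt_of_val h.ha hk hm.2
  rw [f, f]
  omega

theorem sp_cell {c : ℕ} (h1 : 1 ≤ c) (h2 : c < X.K) {ξ : ℝ} (hm : ξ ∈ Prod.fst '' Ct C)
    (hx : ξ ∈ Ioo (G.a (c - 1)) (G.a c)) : G.sp C c := by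
  obtain ⟨i, j, a, b, e, f⟩ := h.sp_iff hC hv
  rw [e] at hm
  have a1 := lt_of_val h.ha (by omega) (hm.1.trans_lt hx.2)
  have a2 := lt_of_val h.ha (by omega) (hx.1.trans_le hm.2)
  rw [f]
  omega

theorem line_mem {k : ℕ} {d : Bool} (hs : G.sp C (clk k d)) : G.a k ∈ Prod.fst '' Ct C := by
  have := (h.sp _ _).1 hs
  cases d
  · exact this.2.2.2
  · exact this.2.2.1

theorem side_conc {k : ℕ} {d : Bool} (hs : G.sp C (clk k d)) (up : Bool) :
    0 < 2 * hw G k d ∧ ConcaveOn ℝ (uIcc (G.a k) (G.a k + sg d * (2 * hw G k d)))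
      fun x => sg up * bd (Ct C) up x := by
  obtain ⟨r1, r2, -⟩ := (h.sp _ _).1 hs
  have w := (h.ts0 (0, 0, 0, 0, 0) true).trans (h.ts_lt r1 r2 _ _)
  refine ⟨w, (bd_concave (h.cpt C hC hv) (h.cvx C hC hv) up).subset ?_ (convex_uIcc _ _)⟩
  refine (uIcc_subset_Icc ?_ ((xp_cell r1 _).1 w.le le_rfl)).trans (h.cell_sub hC hv hs)
  simpa [xp] using (xp_cell (G := G) r1 0).1 le_rfl w.le

theorem conc {c : ℕ} (hc : c < X.K) (hs : G.sp C (c + 1)) (up : Bool) : CellOK X G C up c := by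
  have r2 := ((h.sp _ _).1 hs).2.1
  have cc := (bd_concave (h.cpt C hC hv) (h.cvx C hC hv) up).subset (h.cell_sub hC hv hs)
    (convex_Icc _ _)
  rcases slp_cell (h.ha c hc r2) cc (h.S2 C hC up c hc) with ⟨a, b⟩ | ⟨a, b, f⟩
  · refine Or.inl ⟨by rwa [h.φ, h.φ, h.s], by rwa [h.φ, h.φ, h.s], fun e he τ => ⟨?_, ?_⟩⟩
    · rw [h.u, h.φ, h.s]
      exact slp_dev (h.side_conc hC hv (d := true) hs up).2 (h.ts0 e τ)
        (h.ts_lt (d := true) (Nat.le_add_left _ _) r2 e τ).le (h.S1 C hC up c hc true e he τ)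
    · rw [h.u, h.φ, h.s]
      exact slp_dev (h.side_conc hC hv (d := false) hs up).2 (h.ts0 e τ)
        (h.ts_lt (d := false) (Nat.le_add_left _ _) r2 e τ).le (h.S1 C hC up _ r2 false e he τ)
  · refine Or.inr ⟨by rwa [h.φ, h.φ, h.s], by rwa [h.φ, h.φ, h.s], fun e _ τ => ?_⟩
    rw [h.u, h.φ, h.s, h.u, h.φ, h.s]
    exact f _ (h.ts0 e τ) (h.ts1 e τ c r2).le

theorem kink {k : ℕ} (hs : G.sp C k) (hs' : G.sp C (k + 1)) (up : Bool) :
    sg up * (G.s C up k false + G.s C up k true) ≤ 0 := by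
  obtain ⟨a1, a2, a3, -⟩ := (h.sp _ _).1 hs
  obtain ⟨-, b2, -, b4⟩ := (h.sp _ _).1 hs'
  rw [h.s, h.s]
  exact slp_kink h.S0 (lt_of_succ h.ha (by omega : k - 1 < k) a2) (h.ha k a2 b2)
    ((bd_concave (h.cpt C hC hv) (h.cvx C hC hv) up).subset
      (((h.cvx C hC hv).linear_image (LinearMap.fst ℝ ℝ ℝ)).ordConnected.out a3 b4)
      (convex_Icc _ _))

variable {D : ℕ} (hD : D < X.n) (hv' : X.cvx D = true)
include hD hv'

theorem le_of {k : ℕ} {d up up' : Bool} (hs : G.sp C (clk k d)) (hs' : G.sp D (clk k d))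
    (h0 : G.φ C up k ≤ G.φ D up' k)
    (hf : ∃ᶠ t in 𝓝[>] (0 : ℝ), bd (Ct C) up (xp G k d t) ≤ bd (Ct D) up' (xp G k d t)) :
    ((∀ e ∈ X.SS, ∀ τ, bd (Ct C) up (xp G k d (ts e τ)) ≤ bd (Ct D) up' (xp G k d (ts e τ))) →
      LE' X G C up D up' k d) ∧
    ∀ e τ, bd (Ct C) up (xp G k d (ts e τ)) < bd (Ct D) up' (xp G k d (ts e τ)) →
      LT' G C up D up' k d e τ := by
  rcases h0.eq_or_lt with h0 | h0
  swap
  · exact ⟨fun _ => Or.inl h0, fun _ _ _ => Or.inl h0⟩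
  obtain ⟨w, c1⟩ := h.side_conc hC hv hs up
  have h1 : G.s C up k d ≤ G.s D up' k d := by
    rw [h.s, h.s]
    exact slp_le w w c1 (h.side_conc hD hv' hs' up').2 (by rwa [h.φ, h.φ] at h0) hf
  rcases h1.eq_or_lt with h1 | h1
  · refine ⟨fun a => Or.inr ⟨h0, Or.inr ⟨h1, fun e he τ => ?_⟩⟩,
      fun e τ a => Or.inr ⟨h0, Or.inr ⟨h1, ?_⟩⟩⟩
    · rw [h.u, h.u, h0, h1]; linarith [a e he τ]
    · rw [h.u, h.u, h0, h1]; linarith
  · exact ⟨fun _ => Or.inr ⟨h0, Or.inl h1⟩, fun _ _ _ => Or.inr ⟨h0, Or.inl h1⟩⟩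

theorem le_all {k : ℕ} {d up up' : Bool} (hs : G.sp C (clk k d)) (hs' : G.sp D (clk k d))
    (ha : ∀ ξ ∈ Ioo (G.a (clk k d - 1)) (G.a (clk k d)), bd (Ct C) up ξ ≤ bd (Ct D) up' ξ) :
    LE' X G C up D up' k d ∧
    ∀ e τ, bd (Ct C) up (xp G k d (ts e τ)) < bd (Ct D) up' (xp G k d (ts e τ)) →
      LT' G C up D up' k d e τ := by
  obtain ⟨r1, r2, -⟩ := (h.sp _ _).1 hs
  have w := (h.side_conc hC hv hs up).1
  have h0 : G.φ C up k ≤ G.φ D up' k := by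
    rw [h.φ, h.φ]
    have lt : G.a (clk k d - 1) < G.a (clk k d) := lt_of_succ h.ha (by omega) r2
    have m : G.a k ∈ closure (Ioo (G.a (clk k d - 1)) (G.a (clk k d))) := by
      rw [closure_Ioo lt.ne]
      simpa [xp] using (xp_cell (G := G) r1 0).1 le_rfl w.le
    exact ContinuousWithinAt.closure_le m
      ((bd_cont (h.cpt C hC hv) (h.cvx C hC hv) up _ (h.line_mem hC hv hs)).mono
        (Ioo_subset_Icc_self.trans (h.cell_sub hC hv hs)))
      ((bd_cont (h.cpt D hD hv') (h.cvx D hD hv') up' _ (h.line_mem hD hv' hs')).mono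
        (Ioo_subset_Icc_self.trans (h.cell_sub hD hv' hs'))) ha
  have := h.le_of hC hv hD hv' hs hs' h0 (Eventually.frequently
    (Filter.mem_of_superset (Ioo_mem_nhdsGT w) fun t ht => ha _ ((xp_cell r1 t).2.1 ht)))
  exact ⟨this.1 fun e _ τ => ha _ ((xp_cell r1 _).2.1 ⟨h.ts0 e τ, h.ts_lt r1 r2 e τ⟩), this.2⟩

theorem vsub (hs : Ct C ⊆ Ct D) {k : ℕ} {d : Bool} (hp : G.sp C (clk k d)) :
    G.sp D (clk k d) ∧ LE' X G D false C false k d ∧ LE' X G C true D true k d := by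
  obtain ⟨a1, a2, a3, a4⟩ := (h.sp _ _).1 hp
  have hp' := (h.sp D _).2 ⟨a1, a2, image_mono hs a3, image_mono hs a4⟩
  have m := fun ξ hξ up => bd_le (h.cpt D hD hv') (hs (bd_mem (ξ := ξ) (h.cpt C hC hv)
    (h.cell_sub hC hv hp (Ioo_subset_Icc_self hξ)) up))
  exact ⟨hp', (h.le_all hD hv' hC hv hp' hp fun ξ hξ => (m ξ hξ false).1).1,
    (h.le_all hC hv hD hv' hp hp' fun ξ hξ => (m ξ hξ true).2).1⟩

theorem vnt (hs : Ct C ⊆ interior (Ct D)) {k : ℕ} {d : Bool} (hp : G.sp C (clk k d)) :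
    G.sp D k ∧ G.sp D (k + 1) ∧ G.φ D false k < G.φ C false k ∧ G.φ C true k < G.φ D true k := by
  have m := fun up => hs (bd_mem (h.cpt C hC hv) (h.line_mem hC hv hp) up)
  obtain ⟨a, b⟩ := h.sp_int_line hD hv' (k_lt ((h.sp _ _).1 hp).2.1) (int_prj (m true))
  simp only [h.φ]
  exact ⟨a, b, (int_sec (h.cpt D hD hv') (m false)).1, (int_sec (h.cpt D hD hv') (m true)).2⟩

theorem vdc (hs : Disjoint (Ct C) (Ct D)) {k : ℕ} {d d' : Bool} (hp : G.sp C (clk k d))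
    (hp' : G.sp D (clk k d')) : G.φ C true k < G.φ D false k ∨ G.φ D true k < G.φ C false k := by
  have m := h.line_mem hC hv hp
  have m' := h.line_mem hD hv' hp'
  simp only [h.φ]
  by_contra l
  push Not at l
  have a := (bd_le (h.cpt C hC hv) (bd_mem (h.cpt C hC hv) m true)).1
  have a' := (bd_le (h.cpt D hD hv') (bd_mem (h.cpt D hD hv') m' true)).1
  exact disjoint_left.1 hs
    (sec_mem (h.cpt C hC hv) (h.cvx C hC hv) m (le_max_left _ _) (max_le a l.1))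
    (sec_mem (h.cpt D hD hv') (h.cvx D hD hv') m' (le_max_right _ _) (max_le l.2 a'))

theorem vio_aux (hs : Disjoint (interior (Ct C)) (interior (Ct D))) {c : ℕ} (hp : G.sp C (c + 1))
    (hp' : G.sp D (c + 1)) {ξ y y' : ℝ} (a : (ξ, y) ∈ interior (Ct C))
    (a' : (ξ, y') ∈ interior (Ct D)) (l : y < y') :
    LE' X G C true D false c true ∧ LE' X G C true D false (c + 1) false := by
  have key : ∀ ξ ∈ Ioo (G.a (c + 1 - 1)) (G.a (c + 1)), bd (Ct C) true ξ ≤ bd (Ct D) false ξ := by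
    intro η hη
    have i := h.cell_int hC hv hp hη
    have i' := h.cell_int hD hv' hp' hη
    have f := sec_fat (h.cpt C hC hv) (h.cvx C hC hv) (h.fat C hC hv) i
    have f' := sec_fat (h.cpt D hD hv') (h.cvx D hD hv') (h.fat D hD hv') i'
    by_contra m
    obtain ⟨w', b1, b2⟩ := exists_between (lt_min f' (not_le.1 m))
    obtain ⟨w, b3, b4⟩ := exists_between (max_lt f (lt_min_iff.1 b2).2)
    exact (order_const (h.cvx C hC hv).interior (h.cvx D hD hv').interior hs a a'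
      (sec_int (h.cpt C hC hv) (h.cvx C hC hv) i (max_lt_iff.1 b3).1 b4)
      (sec_int (h.cpt D hD hv') (h.cvx D hD hv') i' b1 (lt_min_iff.1 b2).1) l).not_gt
      (max_lt_iff.1 b3).2
  exact ⟨(h.le_all hC hv hD hv' (d := true) hp hp' key).1,
    (h.le_all hC hv hD hv' (d := false) hp hp' key).1⟩

theorem vio (hs : Disjoint (interior (Ct C)) (interior (Ct D))) {c : ℕ} (hp : G.sp C (c + 1))
    (hp' : G.sp D (c + 1)) :
    (LE' X G C true D false c true ∧ LE' X G C true D false (c + 1) false) ∨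
      (LE' X G D true C false c true ∧ LE' X G D true C false (c + 1) false) := by
  have r2 := ((h.sp _ _).1 hp).2.1
  obtain ⟨η, hη⟩ := nonempty_Ioo.2 (h.ha c (by omega) r2)
  have i := h.cell_int hC hv hp hη
  have i' := h.cell_int hD hv' hp' hη
  obtain ⟨y, b1, b2⟩ := exists_between (sec_fat (h.cpt C hC hv) (h.cvx C hC hv) (h.fat C hC hv) i)
  obtain ⟨y', b3, b4⟩ :=
    exists_between (sec_fat (h.cpt D hD hv') (h.cvx D hD hv') (h.fat D hD hv') i')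
  have a := sec_int (h.cpt C hC hv) (h.cvx C hC hv) i b1 b2
  have a' := sec_int (h.cpt D hD hv') (h.cvx D hD hv') i' b3 b4
  rcases lt_trichotomy y y' with l | rfl | l
  · exact Or.inl (h.vio_aux hC hv hD hv' hs hp hp' a a' l)
  · exact absurd a' (disjoint_left.1 hs a)
  · exact Or.inr (h.vio_aux hD hv' hC hv hs.symm hp' hp a' a l)

end

theorem vfat {C : ℕ} (hC : C < X.n) (hv : X.cvx C = true) (hR : 0 < X.R) {k : ℕ} {d : Bool}
    (hp : G.sp C (clk k d)) :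
    LE' X G C false C true k d ∧ ∃ e ∈ X.SS, ∃ τ, LT' G C false C true k d e τ := by
  obtain ⟨r1, r2, -⟩ := (h.sp _ _).1 hp
  have f := fun ξ hξ => sec_fat (ξ := ξ) (h.cpt C hC hv) (h.cvx C hC hv) (h.fat C hC hv)
    (h.cell_int hC hv hp hξ)
  have := h.le_all hC hv hC hv hp hp fun ξ hξ => (f ξ hξ).le
  exact ⟨this.1, (C, 0, 0, 0, 0), (X.mem_SS _).2 ⟨hC, r2.trans_le' (Nat.zero_le _), hR,
    r2.trans_le' (Nat.zero_le _), hR⟩, true,
    this.2 _ _ (f _ ((xp_cell r1 _).2.1 ⟨h.ts0 _ _, h.ts_lt r1 r2 _ _⟩))⟩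

end CG

end Pool.Agent.Lib.MP_02e8f2_lc
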