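import Pool.Agent.Lib.MP_02e8f2_lc.CompA

/-!
Numbered lines and events, truncated convex sets, samples.
-/

set_option autoImplicit false

namespace Pool.Agent.Lib.MP_02e8f2_lc

open Set Filter Topology

/-- A box around the origin. -/
def box (β Υ : ℝ) : Set (ℝ × ℝ) := Icc (-β) β ×ˢ Icc (-Υ) Υ

theorem mem_box {β Υ : ℝ} {p : ℝ × ℝ} : p ∈ box β Υ ↔ |p.1| ≤ β ∧ |p.2| ≤ Υ := by
  simp only [box, abs_le, mem_prod, mem_Icc]

theorem int_box {β Υ : ℝ} {p : ℝ × ℝ} (h : |p.1| < β) (h' : |p.2| < Υ) :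
    p ∈ interior (box β Υ) := by
  rw [box, interior_prod_eq, interior_Icc, interior_Icc]
  exact ⟨abs_lt.1 h, abs_lt.1 h'⟩

theorem bd_trunc {D : Set (ℝ × ℝ)} (hc : IsClosed D) (hD : Convex ℝ D) {β Υ ξ : ℝ}
    (hξ : ξ ∈ Prod.fst '' (D ∩ box β Υ)) (up : Bool) (h : |bd (D ∩ box β Υ) up ξ| < Υ) :
    bd (D ∩ box β Υ) up ξ = bd D up ξ := by
  have cp : IsCompact (D ∩ box β Υ) := (isCompact_Icc.prod isCompact_Icc).inter_left hc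
  obtain ⟨m1, m2⟩ := bd_mem cp hξ up
  have m3 := (mem_box.1 m2).1
  have h' := abs_lt.1 h
  cases up
  · refine (IsLeast.csInf_eq (s := {y | (ξ, y) ∈ D}) ⟨m1, fun y hy => ?_⟩).symm
    by_contra l
    obtain ⟨w, a, b⟩ := exists_between (max_lt (not_le.1 l) h'.1)
    exact (bd_le cp ⟨mem_of_abv_blw hD ⟨y, (max_lt_iff.1 a).1, hy⟩ ⟨_, b, m1⟩,
      mem_box.2 ⟨m3, abs_le.2 ⟨(max_lt_iff.1 a).2.le, (b.trans h'.2).le⟩⟩⟩).1.not_gt b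
  · refine (IsGreatest.csSup_eq (s := {y | (ξ, y) ∈ D}) ⟨m1, fun y hy => ?_⟩).symm
    by_contra l
    obtain ⟨w, a, b⟩ := exists_between (lt_min (not_le.1 l) h'.2)
    exact (bd_le cp ⟨mem_of_abv_blw hD ⟨_, a, m1⟩ ⟨y, (lt_min_iff.1 b).1, hy⟩,
      mem_box.2 ⟨m3, abs_le.2 ⟨(h'.1.trans a).le, (lt_min_iff.1 b).2.le⟩⟩⟩).2.not_gt a

theorem ends_line {I : Set ℝ} (hc : IsClosed I) (hI : I.OrdConnected) {ξ β : ℝ} (hξ : ξ ∈ I)
    (h : |ξ| ≤ β) : ∃ α γ, I ∩ Icc (-β) β = Icc α γ ∧ α ≤ γ ∧ (α = -β ∨ α = sInf I) ∧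
      (γ = β ∨ γ = sSup I) := by
  have h' := abs_le.1 h
  obtain ⟨γ, a, b⟩ : ∃ γ, IsGreatest (I ∩ Icc (-β) β) γ ∧ (γ = β ∨ γ = sSup I) := by
    by_cases k : β ∈ I
    · exact ⟨β, ⟨⟨k, by linarith, le_rfl⟩, fun y hy => hy.2.2⟩, Or.inl rfl⟩
    · have u : β ∈ upperBounds I := fun y hy => by_contra fun l =>
        k (hI.out hξ hy ⟨h'.2, (not_le.1 l).le⟩)
      exact ⟨_, ⟨⟨hc.csSup_mem ⟨ξ, hξ⟩ ⟨β, u⟩, h'.1.trans (le_csSup ⟨β, u⟩ hξ),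
        csSup_le ⟨ξ, hξ⟩ u⟩, fun y hy => le_csSup ⟨β, u⟩ hy.1⟩, Or.inr rfl⟩
  obtain ⟨α, a', b'⟩ : ∃ α, IsLeast (I ∩ Icc (-β) β) α ∧ (α = -β ∨ α = sInf I) := by
    by_cases k : -β ∈ I
    · exact ⟨-β, ⟨⟨k, le_rfl, by linarith⟩, fun y hy => hy.2.1⟩, Or.inl rfl⟩
    · have u : -β ∈ lowerBounds I := fun y hy => by_contra fun l =>
        k (hI.out hy hξ ⟨(not_le.1 l).le, h'.1⟩)
      exact ⟨_, ⟨⟨hc.csInf_mem ⟨ξ, hξ⟩ ⟨_, u⟩, le_csInf ⟨ξ, hξ⟩ u,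
        (csInf_le ⟨_, u⟩ hξ).trans h'.2⟩, fun y hy => csInf_le ⟨_, u⟩ hy.1⟩, Or.inr rfl⟩
  exact ⟨α, γ, Subset.antisymm (fun y hy => ⟨a'.2 hy, a.2 hy⟩)
    ((hI.inter ordConnected_Icc).out a'.1 a.1), a'.2 a.1, b', b⟩

theorem ev_chain {r : ℝ × ℝ → ℝ × ℝ → Prop} {x y : ℝ × ℝ} (h : Relation.ReflTransGen r x y) :
    ∀ᶠ b : ℝ in atTop, Relation.ReflTransGen (fun p q => r p q ∧ |q.1| < b) x y := by
  induction h with
  | refl => exact Eventually.of_forall fun _ => .refl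
  | tail _ k ih => exact (ih.and (eventually_gt_atTop _)).mono fun b hb => hb.1.tail ⟨k, hb.2⟩

/-- All data. -/
structure FD extends PD where
  b : ℝ
  Y : ℝ
  S : ℝ
  a : ℕ → ℝ
  H : ℕ → ℕ → ℝ
  ts : ℕ × (ℝ × ℝ) × ℝ × ℝ → Bool → ℝ
  Ct : ℕ → Set (ℝ × ℝ)

/-- The string of points that belongs to a numbered string. -/
def gof (a : ℕ → ℝ) (H : ℕ → ℕ → ℝ) (e : Str) : ℕ × (ℝ × ℝ) × ℝ × ℝ :=
  (e.1, (a e.2.1, H e.2.1 e.2.2.1), (a e.2.2.2.1, H e.2.2.2.1 e.2.2.2.2))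

/-- The properties of the data. -/
structure FD.OK (X : Ctx) (R : ℕ → Set (ℝ × ℝ)) (F : FD) : Prop where
  p : F.toPD.OK X R
  a_lt : ∀ k < X.K, k + 1 < X.K → F.a k < F.a (k + 1)
  a_Λ : ∀ l ∈ F.Λ, |l| < F.b ∧ ∃ k < X.K, F.a k = l
  a_out : ∀ k < X.K, F.a k ∈ F.Λ ∨ F.b ≤ |F.a k|
  a_end : (∃ k < X.K, F.a k = -F.b) ∧ ∃ k < X.K, F.a k = F.b
  H_lt : ∀ k < X.K, ∀ r < X.R, r + 1 < X.R → F.H k r < F.H k (r + 1)
  H_E : ∀ k < X.K, ∀ y ∈ F.E (F.a k), ∃ r < X.R, F.H k r = y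
  E_Y : ∀ p ∈ Ev F.Λ F.E, |p.2| < F.Y
  H_out : ∀ k < X.K, ∀ r < X.R, |F.H k r| < F.Y → F.H k r ∈ F.E (F.a k)
  H_end : ∀ k < X.K, (∃ r < X.R, F.H k r = -F.Y) ∧ ∃ r < X.R, F.H k r = F.Y
  H_bd : ∀ C < X.n, X.cvx C = true → ∀ k < X.K, F.a k ∈ Prod.fst '' F.Ct C → ∀ up,
    ∃ r < X.R, F.H k r = bd (F.Ct C) up (F.a k)
  C_sub : ∀ C, F.Ct C ⊆ R C
  cpt : ∀ C < X.n, X.cvx C = true → IsCompact (F.Ct C)
  cvx : ∀ C < X.n, X.cvx C = true → Convex ℝ (F.Ct C)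
  fat : ∀ C < X.n, X.cvx C = true → (interior (F.Ct C)).Nonempty
  prj : ∀ C < X.n, X.cvx C = true → ∃ i j, i < j ∧ j < X.K ∧
    Prod.fst '' F.Ct C = Icc (F.a i) (F.a j)
  C_in : ∀ C, ∀ p ∈ R C, |p.1| ≤ F.b → |p.2| ≤ F.Y → p ∈ F.Ct C
  C_int : ∀ C < X.n, ∀ p ∈ interior (R C), |p.1| ≤ F.b → |p.2| ≤ F.Y → p ∈ interior (F.Ct C)
  C_prj : ∀ C < X.n, X.cvx C = true → ∀ ξ ∈ Prod.fst '' R C, |ξ| ≤ F.b → ξ ∈ Prod.fst '' F.Ct C
  C_mono : ∀ C D, R C ⊆ R D → F.Ct C ⊆ F.Ct D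
  C_nt : ∀ C, ∀ D < X.n, R C ⊆ interior (R D) → ¬ R D ⊆ R C → F.Ct C ⊆ interior (F.Ct D)
  B_sx : ∀ g, F.ac g → ∀ τ, |(F.sx g τ).1| < F.b
  B_ch : ∀ g, F.ac g → g.2.1 ≠ g.2.2 → ∀ m < F.N g, |(F.x g m).1| < F.b ∧ |(F.x' g m).1| < F.b ∧
    Relation.ReflTransGen (fun p q => St X R F.Λ (F.U g.1) g.1 p q ∧ |q.1| < F.b)
      (F.x g m) (F.x' g m)
  B_z : ∀ g, F.ac g → ∀ m ≤ F.N g, |(F.z g m).2| < F.Y
  ts0 : ∀ g τ, 0 < F.ts g τ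
  ts1 : ∀ g τ c, c + 1 < X.K → F.ts g τ < F.a (c + 1) - F.a c
  T2 : ∀ g, F.ac g → ∀ τ, ∃ x ∈ interior (R g.1),
    x.1 = (cond τ g.2.2 g.2.1).1 + sg (F.sd g τ) * F.ts g τ ∧ |x.2| ≤ F.Y ∧
      ∀ D < X.n, (Abv (R D) x ↔ Abv (R D) (F.sx g τ))
  T3 : ∀ g, F.ac g → ∀ τ, ∀ B < X.n, X.con B = true → R g.1 ⊆ R B → ∀ g' τ', ∃ x ∈ R B,
    x.1 = (cond τ g.2.2 g.2.1).1 + sg (F.sd g τ) * F.ts g' τ' ∧ |x.2| ≤ F.Y ∧
      Pat X R B x (F.sx g τ)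
  S0 : 0 ≤ F.S
  S1 : ∀ C < X.n, ∀ up, ∀ k < X.K, ∀ d, ∀ e ∈ X.SS, ∀ τ,
    |(bd (F.Ct C) up (F.a k + sg d * F.ts (gof F.a F.H e) τ) - bd (F.Ct C) up (F.a k)) /
      F.ts (gof F.a F.H e) τ| < F.S
  S2 : ∀ C < X.n, ∀ up, ∀ c < X.K,
    |(bd (F.Ct C) up (F.a (c + 1)) - bd (F.Ct C) up (F.a c)) / (F.a (c + 1) - F.a c)| < F.S

variable {X : Ctx} {R : ℕ → Set (ℝ × ℝ)}

theorem PD.OK.ac_finite {Q : PD} (q : Q.OK X R) : {g | Q.ac g}.Finite :=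
  ((finite_Iio X.n).prod ((Ev_finite Q.Λ Q.E).prod (Ev_finite Q.Λ Q.E))).subset fun g hg =>
    ⟨(q.ac g hg).1, ((q.ac g hg).2.2.1 false).2, ((q.ac g hg).2.2.1 true).2⟩

theorem off_lt {x z : ℝ × ℝ} {ρ : ℝ} (h : x ∈ Metric.ball z ρ) (d : Bool) :
    sg d * (x.1 - z.1) < ρ :=
  (le_abs_self _).trans_lt ((abs_sg_mul d _).trans_lt (Ch.ball_fst h))

theorem exists_ts {Q : PD} (q : Q.OK X R) {t₀ : ℝ} (h0 : 0 < t₀) :
    ∃ ts : ℕ × (ℝ × ℝ) × ℝ × ℝ → Bool → ℝ, {t | ∃ g τ, t = ts g τ}.Finite ∧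
      (∀ g τ, 0 < ts g τ ∧ ts g τ < t₀) ∧ ∀ g, Q.ac g → ∀ τ, ∃ x ∈ interior (R g.1),
        x.1 = (cond τ g.2.2 g.2.1).1 + sg (Q.sd g τ) * ts g τ ∧
          ∀ D < X.n, (Abv (R D) x ↔ Abv (R D) (Q.sx g τ)) := by
  have : ∀ g τ, ∃ t, (¬ Q.ac g → t = t₀ / 2) ∧ (0 < t ∧ t < t₀) ∧ (Q.ac g →
      ∃ x ∈ interior (R g.1), x.1 = (cond τ g.2.2 g.2.1).1 + sg (Q.sd g τ) * t ∧
        ∀ D < X.n, (Abv (R D) x ↔ Abv (R D) (Q.sx g τ))) := fun g τ => by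
    by_cases k : Q.ac g
    swap
    · exact ⟨_, fun _ => rfl, ⟨by linarith, by linarith⟩, fun l => absurd l k⟩
    obtain ⟨a1, a2, a3, a4⟩ := q.att g k τ
    obtain ⟨x, ⟨⟨b1, b2⟩, b3⟩, b4⟩ := Metric.mem_closure_iff.1 ((q.rad _ (q.ac g k).1 _
      ((q.ac g k).2.2.1 τ).1).pat _ a3 _ a1 a4) t₀ h0
    refine ⟨_, fun l => absurd k l, ⟨b2, off_lt (Metric.mem_ball'.2 b4) _⟩,
      fun _ => ⟨x, b1, ?_, b3⟩⟩
    cases Q.sd g τ <;> simp [sg]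
  choose ts h1 h2 h3 using this
  refine ⟨ts, (((q.ac_finite.prod (finite_univ (α := Bool))).image fun x => ts x.1 x.2).insert
    (t₀ / 2)).subset ?_, h2, fun g hg τ => h3 g τ hg⟩
  rintro _ ⟨g, τ, rfl⟩
  by_cases k : Q.ac g
  · exact Or.inr ⟨(g, τ), ⟨k, mem_univ _⟩, rfl⟩
  · exact Or.inl (h1 g τ k)

theorem exists_FD (h : Reg X R) (hK : X.n * X.n + 4 * X.n + 2 ≤ X.K)
    (hR : X.n * X.n + 4 * X.n + 2 ≤ X.R) : ∃ F : FD, F.OK X R := by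
  classical
  obtain ⟨Q, q⟩ := exists_PD h
  -- the bound for the abscissas
  have e1 : ∀ᶠ b : ℝ in atTop, (∀ l ∈ Q.Λ, |l| < b) ∧ ∀ g ∈ {g | Q.ac g},
      (∀ τ, |(Q.sx g τ).1| < b) ∧ (g.2.1 ≠ g.2.2 → ∀ m < Q.N g, |(Q.x g m).1| < b ∧
        |(Q.x' g m).1| < b ∧ Relation.ReflTransGen
          (fun p p' => St X R Q.Λ (Q.U g.1) g.1 p p' ∧ |p'.1| < b) (Q.x g m) (Q.x' g m)) :=
    ((Finset.eventually_all _).2 fun _ _ => eventually_gt_atTop _).and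
      ((eventually_all_finite q.ac_finite).2 fun g hg => (ev_bool fun _ =>
        eventually_gt_atTop _).and (ev_imp fun l => ev_lt fun m hm => (eventually_gt_atTop _).and
          ((eventually_gt_atTop _).and (ev_chain ((q.str g hg l).2.2.1.chord m hm).2.2))))
  obtain ⟨b, ⟨b1, b2⟩, b0⟩ := (e1.and (eventually_ge_atTop 0)).exists
  -- the lines
  obtain ⟨a, a1, a2, a3⟩ := exists_pad (Q.Λ ∪ (Finset.range (X.n + 1) ×ˢ Finset.univ).image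
    fun x : ℕ × Bool => sg x.2 * (b + x.1)) X.K ((Finset.card_union_le _ _).trans
      ((add_le_add q.s1.cΛ Finset.card_image_le).trans (by simp; omega))) b
  have a4 : ∀ i ≤ X.n, ∀ d, ∃ k < X.K, a k = sg d * (b + i) := fun i hi d =>
    a2 _ (Finset.mem_union_right _ (Finset.mem_image.2 ⟨(i, d), by simp; omega, rfl⟩))
  have a5 : ∀ l ∈ Q.Λ, ∃ k < X.K, a k = l := fun l hl => a2 _ (Finset.mem_union_left _ hl)
  have a_lt : ∀ k < X.K, k + 1 < X.K → a k < a (k + 1) := fun k _ l => a1 _ _ (by omega) l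
  -- the samples
  have e2 : ∀ᶠ t in 𝓝[>] (0 : ℝ), ∀ c < X.K, c + 1 < X.K → t ≤ a (c + 1) - a c :=
    ev_lt fun c hc => ev_imp fun l => Filter.mem_of_superset
      (Ioc_mem_nhdsGT (sub_pos.2 (a_lt c hc l))) fun t ht => ht.2
  obtain ⟨t₀, t1, t2, t3⟩ := (e2.and (Ioc_mem_nhdsGT q.δ0)).exists
  obtain ⟨ts, s1, s2, s3⟩ := exists_ts q t2
  -- the bound for the heights
  have ex : ∀ {p : ℝ × ℝ → Prop} {p' : ℝ × ℝ → Prop} {T : Set (ℝ × ℝ)}, (∃ x ∈ T, p x ∧ p' x) →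
      ∀ᶠ Y : ℝ in atTop, ∃ x ∈ T, p x ∧ |x.2| ≤ Y ∧ p' x := fun ⟨x, a, b, c⟩ =>
    (eventually_ge_atTop _).mono fun Y hY => ⟨x, a, b, hY, c⟩
  have e3 : ∀ᶠ Y : ℝ in atTop, (∀ p ∈ Ev Q.Λ Q.E, |p.2| < Y) ∧ (∀ C < X.n, ∀ k < X.K,
      a k ∈ Prod.fst '' R C → ∃ x ∈ R C, x.1 = a k ∧ |x.2| ≤ Y ∧ True) ∧ ∀ g ∈ {g | Q.ac g},
      (∀ m < Q.N g + 1, |(Q.z g m).2| < Y) ∧ ∀ τ, (∃ x ∈ interior (R g.1),
        x.1 = (cond τ g.2.2 g.2.1).1 + sg (Q.sd g τ) * ts g τ ∧ |x.2| ≤ Y ∧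
          ∀ D < X.n, (Abv (R D) x ↔ Abv (R D) (Q.sx g τ))) ∧
        ∀ B < X.n, X.con B = true → R g.1 ⊆ R B → ∀ t ∈ {t | ∃ g τ, t = ts g τ}, ∃ x ∈ R B,
          x.1 = (cond τ g.2.2 g.2.1).1 + sg (Q.sd g τ) * t ∧ |x.2| ≤ Y ∧
            Pat X R B x (Q.sx g τ) := by
    refine ((eventually_all_finite (Ev_finite _ _)).2 fun _ _ => eventually_gt_atTop _).and
      ((ev_lt fun C _ => ev_lt fun k _ => ev_imp fun ⟨x, a, b⟩ => ex ⟨x, a, b, trivial⟩).and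
      ((eventually_all_finite q.ac_finite).2 fun g hg => (ev_lt fun _ _ =>
        eventually_gt_atTop _).and (ev_bool fun τ => (ex (s3 g hg τ)).and
          (ev_lt fun B hB => ev_imp fun hc => ev_imp fun hs =>
            (eventually_all_finite s1).2 ?_))))
    rintro _ ⟨g', τ', rfl⟩
    obtain ⟨c1, c2, c3, c4⟩ := q.att g hg τ
    have m := (q.ac g hg).2.2.1 τ
    exact ex (q.chan B hB hc _ (hs m.1) m.2 _ _ (hs (interior_subset c1)) c4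
      ((off_lt c3 _).trans_le (q.rad _ (q.ac g hg).1 _ m.1).le) _ (s2 g' τ').1
      ((s2 g' τ').2.trans_le t3))
  obtain ⟨Y, y1, y2, y3⟩ := e3.exists
  -- the truncated sets
  set lev : ℕ → ℕ := fun C => ((Finset.range X.n).filter fun Z => R Z ⊆ R C).card
  set Ct : ℕ → Set (ℝ × ℝ) := fun C => R C ∩ box (b + lev C) (Y + lev C) with hCt
  have l0 : ∀ C, (0 : ℝ) ≤ lev C := fun C => Nat.cast_nonneg _
  have l1 : ∀ C < X.n, (0 : ℝ) < lev C := fun C hC => Nat.cast_pos.2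
    (Finset.card_pos.2 ⟨C, by simp [hC]⟩)
  have l2 : ∀ C, lev C ≤ X.n := fun C => (Finset.card_filter_le _ _).trans (by simp)
  have l3 : ∀ C D, R C ⊆ R D → (Finset.range X.n).filter (fun Z => R Z ⊆ R C) ⊆
      (Finset.range X.n).filter fun Z => R Z ⊆ R D := fun C D hs Z hZ =>
    Finset.mem_filter.2 ⟨(Finset.mem_filter.1 hZ).1, (Finset.mem_filter.1 hZ).2.trans hs⟩
  have cvx : ∀ C < X.n, X.cvx C = true → Convex ℝ (Ct C) := fun C hC hv =>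
    (h.cvx C hC hv).inter ((convex_Icc _ _).prod (convex_Icc _ _))
  have cint : ∀ C < X.n, ∀ p ∈ interior (R C), |p.1| ≤ b → |p.2| ≤ Y → p ∈ interior (Ct C) :=
    fun C hC p hp k k' => interior_inter (s := R C) ▸
      ⟨hp, int_box (by linarith [l1 C hC]) (by linarith [l1 C hC])⟩
  have fat : ∀ C < X.n, (interior (Ct C)).Nonempty := fun C hC => by
    obtain ⟨p, ⟨c1, -⟩, c2⟩ := q.s1.wit C hC C hC (by simpa using (h.reg C hC).1)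
    obtain ⟨w, d1, d2⟩ := (mem_closure_iff.1 ((h.reg C hC).2 ▸ c1 :
      p ∈ closure (interior (R C)))) _ isOpen_interior (int_box (b1 _ c2.1) (y1 p c2))
    exact ⟨w, cint C hC w d2 (mem_box.1 (interior_subset d1)).1 (mem_box.1 (interior_subset d1)).2⟩
  have prj : ∀ C < X.n, X.cvx C = true → (∃ i j, i < j ∧ j < X.K ∧
      Prod.fst '' Ct C = Icc (a i) (a j)) ∧
        Prod.fst '' R C ∩ Icc (-(b + lev C)) (b + lev C) ⊆ Prod.fst '' Ct C := fun C hC hv => by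
    obtain ⟨w, hw⟩ := fat C hC
    have hw' := interior_subset hw
    obtain ⟨α, γ, c1, c2, c3, c4⟩ := ends_line (h.cl C hC hv) ((h.cvx C hC hv).linear_image
      (LinearMap.fst ℝ ℝ ℝ)).ordConnected ⟨w, hw'.1, rfl⟩ (mem_box.1 hw'.2).1
    obtain ⟨i, hi, rfl⟩ : ∃ i < X.K, a i = α := c3.elim
      (fun e => by simpa [e, sg] using a4 _ (l2 C) false) fun e => e ▸ a5 _ (q.s1.ends C hC).1
    obtain ⟨j, hj, rfl⟩ : ∃ j < X.K, a j = γ := c4.elim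
      (fun e => by simpa [e, sg] using a4 _ (l2 C) true) fun e => e ▸ a5 _ (q.s1.ends C hC).2
    have m : ∀ k < X.K, a k ∈ Icc (a i) (a j) → a k ∈ Prod.fst '' Ct C := fun k hk l => by
      rw [← c1] at l
      obtain ⟨x, d1, d2, d3, -⟩ := y2 C hC k hk l.1
      exact ⟨x, ⟨d1, mem_box.2 ⟨d2 ▸ abs_le.2 l.2, by linarith [l0 C]⟩⟩, d2⟩
    have e : Prod.fst '' Ct C = Icc (a i) (a j) := Subset.antisymm (by
      rw [← c1]
      rintro _ ⟨x, hx, rfl⟩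
      exact ⟨⟨x, hx.1, rfl⟩, abs_le.1 (mem_box.1 hx.2).1⟩) (((cvx C hC hv).linear_image
        (LinearMap.fst ℝ ℝ ℝ)).ordConnected.out (m i hi ⟨le_rfl, c2⟩) (m j hj ⟨c2, le_rfl⟩))
    have := int_prj hw
    rw [e, interior_Icc] at this
    exact ⟨⟨i, j, lt_of_val a_lt hi (this.1.trans this.2), hj, e⟩, by rw [c1, e]⟩
  -- the events
  have : ∀ k, ∃ H : ℕ → ℝ, (∀ i j, i < j → j < X.R → H i < H j) ∧ (∀ y, (y ∈ Q.E (a k) ∨
      (∃ C < X.n, X.cvx C = true ∧ a k ∈ Prod.fst '' Ct C ∧ ∃ up, bd (Ct C) up (a k) = y) ∨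
        y = -Y ∨ y = Y) → ∃ r < X.R, H r = y) ∧ ∀ r < X.R, |H r| < Y → H r ∈ Q.E (a k) := by
    intro k
    obtain ⟨H, c1, c2, c3⟩ := exists_pad (Q.E (a k) ∪ (((Finset.range X.n ×ˢ Finset.univ).filter
      fun x : ℕ × Bool => X.cvx x.1 = true ∧ a k ∈ Prod.fst '' Ct x.1).image
        (fun x => bd (Ct x.1) x.2 (a k)) ∪ {-Y, Y})) X.R ((Finset.card_union_le _ _).trans
      ((add_le_add (q.s1.cE _) ((Finset.card_union_le _ _).trans (add_le_add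
        (Finset.card_image_le.trans (Finset.card_filter_le _ _)) Finset.card_le_two))).trans
          (by simp; omega))) Y
    refine ⟨H, c1, fun y hy => c2 y ?_, fun r hr l => ?_⟩
    · simp only [Finset.mem_union, Finset.mem_image, Finset.mem_filter, Finset.mem_insert,
        Finset.mem_singleton]
      refine hy.imp_right (Or.imp_left ?_)
      rintro ⟨C, hC, d1, d2, up, d3⟩
      exact ⟨(C, up), ⟨by simp [hC], d1, d2⟩, d3⟩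
    · have l' := abs_lt.1 l
      have := c3 r hr
      simp only [Finset.mem_union, Finset.mem_image, Finset.mem_filter, Finset.mem_insert,
        Finset.mem_singleton, Finset.mem_product, Finset.mem_range] at this
      rcases this with (d | ⟨⟨C, up⟩, ⟨⟨hC, -⟩, d1, d2⟩, d3⟩ | d | d) | d
      · exact d
      · rw [← d3] at l ⊢
        rw [bd_trunc (h.reg C hC).closed (h.cvx C hC d1) d2 up (by linarith [l0 C])]
        exact q.s1.bd C hC up _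
      all_goals linarith
  choose H H1 H2 H3 using this
  -- the slopes
  have e4 : ∀ᶠ S : ℝ in atTop, ∀ C < X.n, ∀ up, ∀ k < X.K, (∀ d, ∀ e ∈ X.SS, ∀ τ,
      |(bd (Ct C) up (a k + sg d * ts (gof a H e) τ) - bd (Ct C) up (a k)) /
        ts (gof a H e) τ| < S) ∧
      |(bd (Ct C) up (a (k + 1)) - bd (Ct C) up (a k)) / (a (k + 1) - a k)| < S :=
    ev_lt fun _ _ => ev_bool fun _ => ev_lt fun _ _ => (ev_bool fun _ => ev_mem fun _ _ =>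
      ev_bool fun _ => eventually_gt_atTop _).and (eventually_gt_atTop _)
  obtain ⟨S, S1, S0⟩ := (e4.and (eventually_ge_atTop 0)).exists
  refine ⟨⟨Q, b, Y, S, a, H, ts, Ct⟩, q, a_lt, fun l hl => ⟨b1 l hl, a5 l hl⟩, fun k hk => ?_,
    ⟨by simpa [sg] using a4 0 (Nat.zero_le _) false, by simpa [sg] using a4 0 (Nat.zero_le _) true⟩,
    fun k _ r _ l => H1 k _ _ (by omega) l, fun k _ y hy => H2 k y (Or.inl hy), y1,
    fun k _ => H3 k, fun k _ => ⟨H2 k _ (by simp), H2 k _ (by simp)⟩,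
    fun C hC hv k _ l up => H2 k _ (Or.inr (Or.inl ⟨C, hC, hv, l, up, rfl⟩)),
    fun C => inter_subset_left,
    fun C hC _ => (isCompact_Icc.prod isCompact_Icc).inter_left (h.reg C hC).closed, cvx,
    fun C hC _ => fat C hC, fun C hC hv => (prj C hC hv).1,
    fun C p hp k k' => ⟨hp, mem_box.2 ⟨by linarith [l0 C], by linarith [l0 C]⟩⟩, cint,
    fun C hC hv ξ k k' => (prj C hC hv).2 ⟨k, abs_le.1 (by linarith [l0 C])⟩,
    fun C D hs p hp => ?_, fun C D hD hs hn p hp => ?_, fun g hg => (b2 g hg).1,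
    fun g hg => (b2 g hg).2, fun g hg m hm => (y3 g hg).1 m (Nat.lt_succ_of_le hm), fun g τ => (s2 g τ).1,
    fun g τ c l => (s2 g τ).2.trans_le (t1 c (by omega) l), fun g hg τ => ((y3 g hg).2 τ).1,
    fun g hg τ B hB hc hs g' τ' => ((y3 g hg).2 τ).2 B hB hc hs _ ⟨g', τ', rfl⟩, S0,
    fun C hC up k hk => (S1 C hC up k hk).1, fun C hC up k hk => (S1 C hC up k hk).2⟩
  · rcases a3 k hk with l | l
    · rcases Finset.mem_union.1 l with l | l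
      · exact Or.inl l
      · obtain ⟨x, -, e⟩ := Finset.mem_image.1 l
        refine Or.inr ?_
        simp only
        rw [← e, abs_sg_mul]
        exact (le_add_of_nonneg_right (Nat.cast_nonneg _)).trans (le_abs_self _)
    · exact Or.inr (l.le.trans (le_abs_self _))
  · have : (lev C : ℝ) ≤ lev D := Nat.cast_le.2 (Finset.card_le_card (l3 C D hs))
    have k := mem_box.1 hp.2
    exact ⟨hs hp.1, mem_box.2 ⟨by linarith [k.1], by linarith [k.2]⟩⟩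
  · have : (lev C : ℝ) < lev D := Nat.cast_lt.2 (Finset.card_lt_card
      ((Finset.ssubset_iff_of_subset (l3 C D (hs.trans interior_subset))).2
        ⟨D, by simp [hD], fun l => hn (Finset.mem_filter.1 l).2⟩))
    have k := mem_box.1 hp.2
    exact interior_inter (s := R D) ▸
      ⟨hs hp.1, int_box (by linarith [k.1]) (by linarith [k.2])⟩

end Pool.Agent.Lib.MP_02e8f2_lc
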