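import Pool.Agent.Lib.MP_02e8f2_lc.Pieces

/-!
Heights of the vertices of the skeleton.
-/

set_option autoImplicit false

namespace Pool.Agent.Lib.MP_02e8f2_lc

open Set Filter Topology

/-- All data of the construction. -/
structure Dat where
  X : Ctx
  G : GD
  N : Str → ℕ
  o : Str → ℕ → Dart ℕ
  J : ℕ → Str × Bool
  θ : ℝ
  ρ : ℝ
  B : ℝ
  yv : ℕ → Str × Bool × Option ℕ → ℝ

/-- Vertices of tails and stubs at level `n`. -/
def Vid (X : Ctx) (G : GD) (J : ℕ → Str × Bool) (n : ℕ) (i : Str × Bool × Option ℕ) : Prop :=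
  i.1 ∈ X.SS ∧ G.act i.1 ∧ (i.2.2 = none → J n = (i.1, i.2.1)) ∧
    ∀ A, i.2.2 = some A → A < X.n ∧ X.con A = true ∧ G.sub i.1.1 A

theorem lev_pos {θ : ℝ} (h : 0 < θ) (n : ℕ) : 0 < θ / 2 ^ n := by positivity

theorem lev_le {θ : ℝ} (h : 0 < θ) (n : ℕ) : θ / 2 ^ n ≤ θ :=
  div_le_self h.le (one_le_pow₀ one_le_two)

theorem lev_succ (θ : ℝ) (n : ℕ) : θ / 2 ^ (n + 1) + θ / 2 ^ (n + 1) = θ / 2 ^ n := by
  rw [pow_succ]; field_simp; norm_num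

theorem lev_lt {θ : ℝ} (h : 0 < θ) {m n : ℕ} (hmn : m < n) : θ / 2 ^ n < θ / 2 ^ m := by
  gcongr; norm_num

theorem Low.mono {X : Ctx} {G : GD} (hT : Tab X.n G) {A A' : ℕ} (hA : A < X.n) (hA' : A' < X.n)
    (h : G.sub A A') {π : ℕ → Prop} {c C : ℕ} (hC : C < X.n) {up : Bool}
    (hl : Low X G A' π c C up) : Low X G A π c C up := by
  cases up
  · exact ⟨hl.1, hT.sub_trans _ hA _ hA' _ hC h hl.2⟩
  · exact ⟨hl.1, hT.sub_io _ hA _ hA' _ hC h hl.2.1, hl.2.2⟩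

theorem Upp.mono {X : Ctx} {G : GD} (hT : Tab X.n G) {A A' : ℕ} (hA : A < X.n) (hA' : A' < X.n)
    (h : G.sub A A') {π : ℕ → Prop} {c C : ℕ} (hC : C < X.n) {up : Bool}
    (hl : Upp X G A' π c C up) : Upp X G A π c C up := by
  cases up
  · exact ⟨hl.1, hT.sub_io _ hA _ hA' _ hC h hl.2.1, hl.2.2⟩
  · exact ⟨hl.1, hT.sub_trans _ hA _ hA' _ hC h hl.2⟩

theorem Ch.mono {X : Ctx} {G : GD} (hT : Tab X.n G) {A A' : ℕ} (hA : A < X.n) (hA' : A' < X.n)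
    (h : G.sub A A') {π : ℕ → Prop} {c : ℕ} {f : ℕ → Bool → ℝ} {y : ℝ} (hl : Ch X G A π c f y) :
    Ch X G A' π c f y := fun C hC up =>
  ⟨fun k => (hl C hC up).1 (k.mono hT hA hA' h hC), fun k => (hl C hC up).2 (k.mono hT hA hA' h hC)⟩

theorem exists_sel {X : Ctx} {G : GD} {J : ℕ → Str × Bool} {θ ρ B : ℝ} (hT : Tab X.n G)
    (hG : Geo X G) (hS : Small X G J θ ρ B) : ∃ yv : ℕ → Str × Bool × Option ℕ → ℝ, ∀ n,
    InjOn (yv n) {i | Vid X G J n i} ∧ ∀ i, Vid X G J n i →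
      |yv n i - G.H (locK i.1 i.2.1) (locR i.1 i.2.1)| < (B + 1) * (θ / 2 ^ n) ∧
      Ch X G (i.2.2.getD i.1.1) (G.abv i.1 (endS G i.1 i.2.1)) (cl (endS G i.1 i.2.1))
        (fun C up => th G J θ C up (locK i.1 i.2.1) (G.dir i.1 i.2.1) (θ / 2 ^ n)) (yv n i) := by
  refine Classical.axiomOfChoice (r := fun n (f : Str × Bool × Option ℕ → ℝ) =>
    InjOn f {i | Vid X G J n i} ∧ ∀ i, Vid X G J n i →
      |f i - G.H (locK i.1 i.2.1) (locR i.1 i.2.1)| < (B + 1) * (θ / 2 ^ n) ∧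
      Ch X G (i.2.2.getD i.1.1) (G.abv i.1 (endS G i.1 i.2.1)) (cl (endS G i.1 i.2.1))
        (fun C up => th G J θ C up (locK i.1 i.2.1) (G.dir i.1 i.2.1) (θ / 2 ^ n)) (f i))
    fun n => ?_
  have hfin : {i | Vid X G J n i}.Finite := by
    refine (X.SS.finite_toSet.prod ((finite_univ (α := Bool)).prod
      (((finite_Iio X.n).image some).insert none))).subset fun i hi => ⟨hi.1, mem_univ _, ?_⟩
    rcases h : i.2.2 with _ | A
    · exact mem_insert _ _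
    · exact mem_insert_of_mem _ ⟨A, (hi.2.2.2 A h).1, rfl⟩
  refine inj_choice hfin (fun i => {y |
      |y - G.H (locK i.1 i.2.1) (locR i.1 i.2.1)| < (B + 1) * (θ / 2 ^ n) ∧
      Ch X G (i.2.2.getD i.1.1) (G.abv i.1 (endS G i.1 i.2.1)) (cl (endS G i.1 i.2.1))
        (fun C up => th G J θ C up (locK i.1 i.2.1) (G.dir i.1 i.2.1) (θ / 2 ^ n)) y}) ?_
  rintro ⟨e, τ, ob⟩ hi
  simp only
  set s := endS G e τ with hs
  set A := ob.getD e.1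
  set f := fun C up => th G J θ C up (locK e τ) (G.dir e τ) (θ / 2 ^ n)
  set η := G.H (locK e τ) (locR e τ)
  set t := θ / 2 ^ n
  have ht : 0 < t := lev_pos hS.pos n
  obtain ⟨ok, e3, e4⟩ := hG.ends e hi.1 hi.2.1 τ
  have he := ((X.mem_SS e).1 hi.1).1
  have hA : A < X.n ∧ G.sub e.1 A := by
    rcases ob with _ | A
    · exact ⟨he, hT.sub_refl _ he⟩
    · exact ⟨(hi.2.2.2 A rfl).1, (hi.2.2.2 A rfl).2.2⟩
  have hk : locK e τ < X.K := k_lt ok.2.2.2.1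
  have fin : ∀ p : ℕ → Bool → Prop, {y | ∃ C < X.n, ∃ up, p C up ∧ y = f C up}.Finite := fun p =>
    (((finite_Iio X.n).prod (finite_univ (α := Bool))).image fun x => f x.1 x.2).subset
      fun _ ⟨C, hC, up, _, h⟩ => ⟨(C, up), ⟨hC, mem_univ _⟩, h.symm⟩
  have near : ∀ C < X.n, ∀ up, |f C up - G.φ C up (locK e τ)| ≤ B * t := fun C hC up =>
    hS.near C hC up _ hk _ _ ht.le
  have q1 : (2 * locR e τ + 1 - 1) / 2 = locR e τ := by omega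
  have q2 : (2 * locR e τ + 1) / 2 = locR e τ := by omega
  refine (between_infinite ((fin (Low X G A (G.abv e s) (cl s))).insert (η - (B + 1) * t))
    ((fin (Upp X G A (G.abv e s) (cl s))).insert (η + (B + 1) * t)) (insert_nonempty _ _)
    (insert_nonempty _ _) ?_).mono fun y hy => ⟨?_, fun C hC up => ⟨fun h => hy.1 _
      (Or.inr ⟨C, hC, up, h, rfl⟩), fun h => hy.2 _ (Or.inr ⟨C, hC, up, h, rfl⟩)⟩⟩
  · have hB := hS.Bpos
    rintro _ (rfl | ⟨C, hC, up, h, rfl⟩) _ (rfl | ⟨D, hD, up', h', rfl⟩)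
    · nlinarith
    · have k1 := ((ok.2.2.2.2 D hD).2 up').2 (h'.mono hT he hA.1 hA.2 hD)
      have k2 := (abs_le.1 (near D hD up')).1
      simp only [endS, q2] at k1
      linarith
    · have k1 := ((ok.2.2.2.2 C hC).2 up).1 (h.mono hT he hA.1 hA.2 hC)
      have k2 := (abs_le.1 (near C hC up)).2
      simp only [endS, q1] at k1
      linarith
    · have k1 := e3 C hC D hD up up' (h.mono hT he hA.1 hA.2 hC) (h'.mono hT he hA.1 hA.2 hD)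
      rcases ob with _ | A'
      · exact hS.lts C hC up D hD up' _ hk _ e hi.1 τ k1 n (hi.2.2.1 rfl)
      · have k2 := hi.2.2.2 A' rfl
        exact hS.lt C hC up D hD up' _ hk _ (e4 A' k2.1 k2.2.1 k2.2.2 C hC D hD up up' h h')
          ⟨e, hi.1, τ, k1⟩ _ ht (lev_le hS.pos n)
  · have k1 := hy.1 _ (Or.inl rfl)
    have k2 := hy.2 _ (Or.inl rfl)
    exact abs_lt.2 ⟨by linarith, by linarith⟩

namespace Dat

variable (E : Dat)

/-- The real height of a vertex in a gap. -/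
noncomputable def Yv (k q h : ℕ) : ℝ :=
  E.G.H k ((q - 1) / 2) + (E.G.H k (q / 2) - E.G.H k ((q - 1) / 2)) * (2 / 3 - 1 / (3 * (h + 1)))

/-- The hypotheses on the data. -/
structure Good : Prop where
  hcc : ∀ i, E.X.con i = true → E.X.cvx i = false
  hT : Tab E.X.n E.G
  hG : Geo E.X E.G
  hD : IsDraw (parOf E.X E.G) E.N E.o
  hI : Inj (parOf E.X E.G) E.N E.o
  hS : Small E.X E.G E.J E.θ E.ρ E.B
  hJ : ∀ e ∈ E.X.SS, ∀ τ N, ∃ m ≥ N, E.J m = (e, τ)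
  gap : ∀ k < E.X.K, ∀ r < E.X.R, r + 1 < E.X.R → 3 * E.ρ < E.G.H k (r + 1) - E.G.H k r
  sel : ∀ n, InjOn (E.yv n) {i | Vid E.X E.G E.J n i} ∧ ∀ i, Vid E.X E.G E.J n i →
    |E.yv n i - E.G.H (locK i.1 i.2.1) (locR i.1 i.2.1)| < (E.B + 1) * (E.θ / 2 ^ n) ∧
    Ch E.X E.G (i.2.2.getD i.1.1) (E.G.abv i.1 (endS E.G i.1 i.2.1)) (cl (endS E.G i.1 i.2.1))
      (fun C up => th E.G E.J E.θ C up (locK i.1 i.2.1) (E.G.dir i.1 i.2.1) (E.θ / 2 ^ n))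
      (E.yv n i)

/-- The height `y` belongs to the node `Z` in slot `q` of line `k`. -/
def Tag (Z k q : ℕ) (y : ℝ) : Prop :=
  1 ≤ q ∧ q < 2 * E.X.R ∧ k < E.X.K ∧
    ((q % 2 = 1 ∧ E.G.mem Z k (q / 2) ∧ |y - E.G.H k (q / 2)| < E.ρ) ∨
      (q % 2 = 0 ∧ ∃ e m, Act E.X E.G e ∧ e.1 = Z ∧ m ≤ E.N e ∧ y = E.Yv k q (E.o e m).h))

/-- A height of a vertex of `Z` at level `n`. -/
def VH (Z k n : ℕ) (y : ℝ) : Prop :=
  ∃ q, E.Tag Z k q y ∧ (q % 2 = 1 → ∃ i, Vid E.X E.G E.J n i ∧ E.G.sub i.1.1 Z ∧ y = E.yv n i)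

variable {E}

theorem Good.rho_pos (h : E.Good) : 0 < E.ρ :=
  (mul_pos h.hS.pos (by linarith [h.hS.Bpos])).trans h.hS.zone

theorem Good.Yv_bd (h : E.Good) {k q : ℕ} (hk : k < E.X.K) (h1 : 1 ≤ q) (h2 : q < 2 * E.X.R)
    (h3 : q % 2 = 0) (a : ℕ) :
    E.G.H k ((q - 1) / 2) + E.ρ < E.Yv k q a ∧ E.Yv k q a + E.ρ < E.G.H k (q / 2) := by
  have g := h.gap k hk ((q - 1) / 2) (by omega) (by omega)
  rw [show (q - 1) / 2 + 1 = q / 2 by omega] at g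
  have r := h.rho_pos
  have a0 : (0 : ℝ) ≤ a := Nat.cast_nonneg a
  have a1 : 1 / (3 * ((a : ℝ) + 1)) ≤ 1 / 3 := by gcongr; linarith
  have a2 : 0 < 1 / (3 * ((a : ℝ) + 1)) := by positivity
  unfold Yv
  constructor <;> nlinarith

theorem Good.Yv_lt (h : E.Good) {k q : ℕ} (hk : k < E.X.K) (h1 : 1 ≤ q) (h2 : q < 2 * E.X.R)
    (h3 : q % 2 = 0) {a b : ℕ} (hab : a < b) : E.Yv k q a < E.Yv k q b := by
  have g := h.gap k hk ((q - 1) / 2) (by omega) (by omega)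
  rw [show (q - 1) / 2 + 1 = q / 2 by omega] at g
  have r := h.rho_pos
  have a1 : 1 / (3 * ((b : ℝ) + 1)) < 1 / (3 * ((a : ℝ) + 1)) := by gcongr
  unfold Yv
  nlinarith

theorem Good.tag_lt (h : E.Good) {Z Y k q q' : ℕ} {y y' : ℝ} (h1 : E.Tag Z k q y)
    (h2 : E.Tag Y k q' y') (hq : q < q') : y < y' := by
  obtain ⟨a1, a2, a3, a4⟩ := h1
  obtain ⟨b1, b2, -, b4⟩ := h2
  have mono : ∀ r r', r ≤ r' → r' < E.X.R → E.G.H k r ≤ E.G.H k r' := fun r r' =>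
    le_of_succ (h.hG.H_lt k a3)
  have r := h.rho_pos
  rcases a4 with ⟨c1, -, c2⟩ | ⟨c1, e, m, -, -, -, rfl⟩ <;>
    rcases b4 with ⟨d1, -, d2⟩ | ⟨d1, e', m', -, -, -, rfl⟩
  · have := h.gap k a3 (q / 2) (by omega) (by omega)
    have := mono (q / 2 + 1) (q' / 2) (by omega) (by omega)
    linarith [(abs_lt.1 c2).2, (abs_lt.1 d2).1]
  · have := mono (q / 2) ((q' - 1) / 2) (by omega) (by omega)
    linarith [(abs_lt.1 c2).2, (h.Yv_bd a3 b1 b2 d1 (E.o e' m').h).1]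
  · have := mono (q / 2) (q' / 2) (by omega) (by omega)
    linarith [(abs_lt.1 d2).1, (h.Yv_bd a3 a1 a2 c1 (E.o e m).h).2]
  · have := mono (q / 2) ((q' - 1) / 2) (by omega) (by omega)
    linarith [(h.Yv_bd a3 b1 b2 d1 (E.o e' m').h).1, (h.Yv_bd a3 a1 a2 c1 (E.o e m).h).2]

theorem Good.tag_even (h : E.Good) {Z Y k q : ℕ} {y : ℝ} (h1 : E.Tag Z k q y)
    (h2 : E.Tag Y k q y) (hq : q % 2 = 0) : Z = Y := by
  obtain ⟨a1, a2, a3, ⟨c, -⟩ | ⟨-, e, m, c1, rfl, c3, c4⟩⟩ := h1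
  · omega
  obtain ⟨-, -, -, ⟨c, -⟩ | ⟨-, e', m', d1, rfl, d3, d4⟩⟩ := h2
  · omega
  have : (E.o e m).h = (E.o e' m').h := by
    rcases lt_trichotomy (E.o e m).h (E.o e' m').h with l | l | l
    · exact absurd (c4.symm.trans d4) (h.Yv_lt a3 a1 a2 hq l).ne
    · exact l
    · exact absurd (d4.symm.trans c4) (h.Yv_lt a3 a1 a2 hq l).ne
  rw [(h.hI e e' c1 d1 m c3 m' d3 this).1]

theorem Good.tag_slot (h : E.Good) {Z Y k q q' : ℕ} {y : ℝ} (h1 : E.Tag Z k q y)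
    (h2 : E.Tag Y k q' y) : q = q' := by
  rcases lt_trichotomy q q' with l | l | l
  · exact absurd (h.tag_lt h1 h2 l) (lt_irrefl _)
  · exact l
  · exact absurd (h.tag_lt h2 h1 l) (lt_irrefl _)

theorem Good.tag_dc (h : E.Good) {Z Y k q q' : ℕ} {y : ℝ} (hZ : Z < E.X.n) (hY : Y < E.X.n)
    (hd : E.G.dc Z Y) (h1 : E.Tag Z k q y) (h2 : E.Tag Y k q' y) : False := by
  obtain rfl := h.tag_slot h1 h2
  rcases Nat.mod_two_eq_zero_or_one q with hq | hq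
  · obtain rfl := h.tag_even h1 h2 hq
    exact h.hT.io_irr _ hZ (h.hT.dc_io _ hZ _ hZ hd)
  · obtain ⟨-, a2, a3, ⟨-, c, -⟩ | ⟨c, -⟩⟩ := h1
    · obtain ⟨-, -, -, ⟨-, c', -⟩ | ⟨c', -⟩⟩ := h2
      · exact h.hG.mdc Z hZ Y hY hd k a3 _ (by omega) c c'
      · omega
    · omega

theorem Good.vh_io (h : E.Good) {Z Y k n : ℕ} {y : ℝ} (hZ : Z < E.X.n) (hY : Y < E.X.n)
    (hd : E.G.io Z Y) (h1 : E.VH Z k n y) (h2 : E.VH Y k n y) : False := by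
  obtain ⟨q, a1, a2⟩ := h1
  obtain ⟨q', b1, b2⟩ := h2
  obtain rfl := h.tag_slot a1 b1
  rcases Nat.mod_two_eq_zero_or_one q with hq | hq
  · obtain rfl := h.tag_even a1 b1 hq
    exact h.hT.io_irr _ hZ hd
  · obtain ⟨i, c1, c2, c3⟩ := a2 hq
    obtain ⟨i', d1, d2, d3⟩ := b2 hq
    obtain rfl : i = i' := (h.sel n).1 c1 d1 (c3.symm.trans d3)
    have he := ((E.X.mem_SS _).1 c1.1).1
    exact h.hT.io_irr _ he (h.hT.sub_io _ he _ hY _ he d2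
      (h.hT.io_symm _ he _ hY (h.hT.sub_io _ he _ hZ _ hY c2 hd)))

end Dat

end Pool.Agent.Lib.MP_02e8f2_lc
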