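import Pool.Agent.Lib.MP_02e8f2_lc.CompC
import Pool.Agent.Lib.MP_02e8f2_lc.Sel

/-!
The certificate of a family of regions; darts and ends.
-/

set_option autoImplicit false

namespace Pool.Agent.Lib.MP_02e8f2_lc

open Set Filter Topology

/-- `q` is the slot of the height `y`. -/
def Slot (H : ℕ → ℝ) (R : ℕ) (y : ℝ) (q : ℕ) : Prop :=
  (∃ r < R, y = H r ∧ q = 2 * r + 1) ∨ ∃ j, j + 1 < R ∧ H j < y ∧ y < H (j + 1) ∧ q = 2 * j + 2

section

variable {H : ℕ → ℝ} {R : ℕ} (hH : ∀ r < R, r + 1 < R → H r < H (r + 1)) {y y' : ℝ} {q q' : ℕ}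
include hH

theorem exists_slot (h : ∃ r < R, H r ≤ y) (h' : ∃ r < R, y ≤ H r) : ∃ q, Slot H R y q := by
  obtain ⟨r, a, b⟩ := h
  obtain ⟨r', a', b'⟩ := h'
  rcases b.eq_or_lt with b | b
  · exact ⟨_, Or.inl ⟨r, a, b.symm, rfl⟩⟩
  have l := lt_of_val hH a (b.trans_le b')
  obtain ⟨c, c1, c2, c3, c4⟩ := find_cell (f := H) (by omega : r ≤ r' - 1) b.le
    (by rwa [Nat.sub_add_cancel (by omega)])
  rcases c3.eq_or_lt with c3 | c3
  · exact ⟨_, Or.inl ⟨c, by omega, c3.symm, rfl⟩⟩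
  rcases c4.eq_or_lt with c4 | c4
  · exact ⟨_, Or.inl ⟨c + 1, by omega, c4, rfl⟩⟩
  · exact ⟨_, Or.inr ⟨c, by omega, c3, c4, rfl⟩⟩

omit hH in
theorem Slot.bd (s : Slot H R y q) : 1 ≤ q ∧ q < 2 * R := by
  rcases s with ⟨r, a, -, rfl⟩ | ⟨j, a, -, -, rfl⟩ <;> omega

theorem Slot.lo (s : Slot H R y q) {r : ℕ} (hr : r < R) (h : H r ≤ y) : H r ≤ H ((q - 1) / 2) := by
  rcases s with ⟨r', a, rfl, rfl⟩ | ⟨j, a, b, c, rfl⟩
  · rwa [show (2 * r' + 1 - 1) / 2 = r' by omega]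
  · have := lt_of_val hH hr (h.trans_lt c)
    exact le_of_succ hH (by omega) (by omega)

theorem Slot.hi (s : Slot H R y q) {r : ℕ} (hr : r < R) (h : y ≤ H r) : H (q / 2) ≤ H r := by
  rcases s with ⟨r', a, rfl, rfl⟩ | ⟨j, a, b, c, rfl⟩
  · rwa [show (2 * r' + 1) / 2 = r' by omega]
  · have := lt_of_val hH (by omega) (b.trans_le h)
    exact le_of_succ hH (by omega) hr

theorem Slot.lt (s : Slot H R y q) (s' : Slot H R y' q') (h : q < q') : y < y' := by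
  rcases s with ⟨r, a, rfl, rfl⟩ | ⟨j, a, b, c, rfl⟩ <;>
    rcases s' with ⟨r', a', rfl, rfl⟩ | ⟨j', a', b', c', rfl⟩
  · exact lt_of_succ hH (by omega) a'
  · exact (le_of_succ hH (by omega) (by omega)).trans_lt b'
  · exact c.trans_le (le_of_succ hH (by omega) a')
  · exact c.trans ((le_of_succ hH (by omega) (by omega)).trans_lt b')

theorem Slot.ord (s : Slot H R y q) (s' : Slot H R y' q') :
    q < q' ∨ (q = q' ∧ y < y') ↔ y < y' :=
  ⟨fun h => h.elim (s.lt hH s') And.right, fun h => by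
    rcases lt_trichotomy q q' with l | l | l
    · exact Or.inl l
    · exact Or.inr ⟨l, h⟩
    · exact absurd (s'.lt hH s l) h.not_gt⟩

theorem Slot.uniq (s : Slot H R y q) (s' : Slot H R y q') : q = q' := by
  rcases lt_trichotomy q q' with l | l | l
  · exact absurd (s.lt hH s' l) (lt_irrefl _)
  · exact l
  · exact absurd (s'.lt hH s l) (lt_irrefl _)

end

namespace FD

variable (X : Ctx) (R : ℕ → Set (ℝ × ℝ)) (F : FD)

/-- The string of points of `e`. -/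
abbrev g (e : Str) : ℕ × (ℝ × ℝ) × ℝ × ℝ := gof F.a F.H e

open Classical in
/-- The certificate. -/
noncomputable def G : GD where
  sub i j := R i ⊆ R j
  nt i j := R i ⊆ interior (R j) ∧ ¬ R j ⊆ R i
  dc i j := R i ∩ R j = ∅
  io := IO R
  mt i j := (R i ∩ R j).Nonempty
  mem Z k r := (F.a k, F.H k r) ∈ R Z ∩ Ev F.Λ F.E
  sp C c := 1 ≤ c ∧ c < X.K ∧ F.a (c - 1) ∈ Prod.fst '' F.Ct C ∧ F.a c ∈ Prod.fst '' F.Ct C
  a := F.a
  H := F.H
  φ C up k := bd (F.Ct C) up (F.a k)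
  s C up k d := slp F.S (bd (F.Ct C) up) (F.a k) d
  u C up k d e τ := bd (F.Ct C) up (F.a k + sg d * F.ts (F.g e) τ) - bd (F.Ct C) up (F.a k) -
    slp F.S (bd (F.Ct C) up) (F.a k) d * F.ts (F.g e) τ
  act e := F.ac (F.g e)
  dir e := F.sd (F.g e)
  abv e s D := if s = (locK e false, 2 * locR e false + 1, F.sd (F.g e) false) then
      Abv (R D) (F.sx (F.g e) false)
    else if s = (locK e true, 2 * locR e true + 1, F.sd (F.g e) true) then
      Abv (R D) (F.sx (F.g e) true)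
    else bd (F.Ct D) true (F.a s.1) ≤ F.H s.1 ((s.2.1 - 1) / 2)
  rk A k r := F.rk A (F.a k, F.H k r)

/-- A vertex `z` on line `k` in slot `q`, attached to the point `x` in direction `d`. -/
structure VF (A : ℕ) (z : ℝ × ℝ) (k q : ℕ) (d : Bool) (x : ℝ × ℝ) : Prop where
  hA : A < X.n
  mem : z ∈ R A
  k_lt : k < X.K
  z1 : z.1 = F.a k
  Λ : z.1 ∈ F.Λ
  Y : |z.2| < F.Y
  slot : Slot (F.H k) X.R z.2 q
  att : Att (R A) F.Λ (F.r A) z d x
  xb : |x.1| < F.b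

/-- The pattern `π` is that of the point `x` in cell `c`. -/
def Pt (A : ℕ) (π : ℕ → Prop) (c : ℕ) (x : ℝ × ℝ) : Prop :=
  ∀ D < X.n, X.cvx D = true → IO R A D → (F.G X R).sp D c → (π D ↔ Abv (R D) x)

variable {X R F}

theorem OK.cg (f : F.OK X R) : CG X (F.G X R) F.Ct F.S fun e τ => F.ts (F.g e) τ :=
  ⟨f.a_lt, f.cpt, f.cvx, f.fat, f.prj, fun _ _ => Iff.rfl, fun _ _ _ => rfl, fun _ _ _ _ => rfl,
    fun _ _ _ _ _ _ => rfl, fun _ _ => f.ts0 _ _, fun _ _ => f.ts1 _ _, f.S0, f.S1, f.S2⟩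

theorem g_end (e : Str) (τ : Bool) :
    cond τ (F.g e).2.2 (F.g e).2.1 = (F.a (locK e τ), F.H (locK e τ) (locR e τ)) := by
  cases τ <;> rfl

variable (h : Reg X R) (f : F.OK X R) {A : ℕ} {z x : ℝ × ℝ} {k q : ℕ} {d : Bool}

include f in
theorem VF.cell (v : F.VF X R A z k q d x) : 1 ≤ clk k d ∧ clk k d < X.K ∧
    -F.b ≤ F.a (clk k d - 1) ∧ F.a (clk k d) ≤ F.b ∧
      x.1 ∈ Ioo (F.a (clk k d - 1)) (F.a (clk k d)) := by
  obtain ⟨⟨k₀, a0, b0⟩, k₁, a1, b1⟩ := f.a_end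
  have c := abs_lt.1 (f.a_Λ _ v.Λ).1
  rw [v.z1, ← b0] at c
  have c0 := lt_of_val f.a_lt a0 c.1
  have c1 := lt_of_val f.a_lt v.k_lt (b1 ▸ c.2)
  have rd := f.p.rad _ v.hA _ v.mem
  have o1 := v.att.2.2.2
  have o2 := off_lt v.att.2.2.1 d
  have xb := abs_lt.1 v.xb
  rw [v.z1] at o1 o2
  cases d
  · have l := lt_of_succ f.a_lt (by omega : k - 1 < k) v.k_lt
    have l' := le_of_succ f.a_lt (by omega : k₀ ≤ k - 1) (by omega)
    simp only [sg_false] at o1 o2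
    refine ⟨c0.nat_succ_le.trans' (by omega), v.k_lt, b0 ▸ l', c.2.le, ?_,
      show x.1 < F.a k by linarith⟩
    show F.a (k - 1) < x.1
    rcases f.a_out (k - 1) (by omega) with m | m
    · have := rd.far _ m (v.z1 ▸ l.ne)
      rw [v.z1, abs_of_neg (sub_neg.2 l)] at this
      linarith
    · rcases le_abs.1 m with m | m <;> linarith
  · have l := f.a_lt k v.k_lt (by omega)
    have l' := le_of_succ f.a_lt (by omega : k + 1 ≤ k₁) a1
    simp only [sg_true] at o1 o2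
    refine ⟨Nat.le_add_left _ _, show k + 1 < X.K by omega, b0 ▸ c.1.le, b1 ▸ l',
      show F.a k < x.1 by linarith, ?_⟩
    show x.1 < F.a (k + 1)
    rcases f.a_out (k + 1) (by omega) with m | m
    · have := rd.far _ m (v.z1 ▸ l.ne')
      rw [v.z1, abs_of_pos (sub_pos.2 l)] at this
      linarith
    · rcases le_abs.1 m with m | m <;> linarith

include f in
theorem VF.seg (v : F.VF X R A z k q d x) {D : ℕ} (hD : D < X.n) (hv : X.cvx D = true)
    (hs : (F.G X R).sp D (clk k d)) :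
    (Abv (R D) z → Abv (R D) x) ∧ (Blw (R D) z → Blw (R D) x) := by
  obtain ⟨w, a, b⟩ := f.cg.cell_sub hD hv hs (Ioo_subset_Icc_self (v.cell f).2.2.2.2)
  exact (f.p.rad _ v.hA _ v.mem).seg x v.att.2.2.1 D hD hv d
    ⟨w, f.C_sub D a, b ▸ v.att.2.2.2⟩ v.att.2.2.2.le

include f in
theorem VF.sp (v : F.VF X R A z k q d x) {C : ℕ} (hC : C < X.n) (hv : X.cvx C = true)
    (hs : R A ⊆ R C) : (F.G X R).sp C (clk k d) :=
  f.cg.sp_cell hC hv (v.cell f).1 (v.cell f).2.1 (f.C_prj C hC hv _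
    ⟨x, hs (interior_subset v.att.1), rfl⟩ v.xb.le) (v.cell f).2.2.2.2

include f in
theorem VF.bd_mem (v : F.VF X R A z k q d x) {C : ℕ} (hC : C < X.n) (hv : X.cvx C = true)
    (hs : (F.G X R).sp C (clk k d)) (up : Bool) : (z.1, (F.G X R).φ C up k) ∈ R C :=
  v.z1 ▸ f.C_sub C (MP_02e8f2_lc.bd_mem (f.cpt C hC hv) (f.cg.line_mem hC hv hs) up)

include h f in
theorem VF.val (v : F.VF X R A z k q d x) {π : ℕ → Prop} (hπ : F.Pt X R A π (clk k d) x) {C : ℕ}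
    (hC : C < X.n) (up : Bool) :
    (Low X (F.G X R) A π (clk k d) C up → (F.G X R).sp C (clk k d) ∧ (F.G X R).φ C up k ≤ z.2) ∧
    (Upp X (F.G X R) A π (clk k d) C up → (F.G X R).sp C (clk k d) ∧ z.2 ≤ (F.G X R).φ C up k) := by
  have m : X.cvx C = true → R A ⊆ R C → (F.G X R).φ C false k ≤ z.2 ∧ z.2 ≤ (F.G X R).φ C true k :=
    fun hv hs => bd_le (f.cpt C hC hv) (show (F.a k, z.2) ∈ F.Ct C from v.z1 ▸ f.C_in C z
      (hs v.mem) (f.a_Λ _ v.Λ).1.le v.Y.le)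
  cases up
  · refine ⟨fun l => ⟨v.sp f hC l.1 l.2, (m l.1 l.2).1⟩, fun ⟨hv, a, b, c⟩ => ⟨b, ?_⟩⟩
    by_contra l
    exact c ((hπ C hC hv a b).2 ((v.seg f hC hv b).1 ⟨_, not_le.1 l, v.bd_mem f hC hv b false⟩))
  · refine ⟨fun ⟨hv, a, b, c⟩ => ⟨b, ?_⟩, fun l => ⟨v.sp f hC l.1 l.2, (m l.1 l.2).2⟩⟩
    by_contra l
    exact io_notMem (h.reg C hC) a v.att.1 (mem_of_abv_blw (h.cvx C hC hv) ((hπ C hC hv a b).1 c)
      ((v.seg f hC hv b).2 ⟨_, not_le.1 l, v.bd_mem f hC hv b true⟩))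

include h f in
theorem VF.ok {e : Str} (v : F.VF X R e.1 z k q d x)
    (hπ : F.Pt X R e.1 ((F.G X R).abv e (k, q, d)) (clk k d) x) : Ok X (F.G X R) e (k, q, d) := by
  refine ⟨v.slot.bd.1, v.slot.bd.2, (v.cell f).1, (v.cell f).2.1, fun C hC =>
    ⟨fun hv hs => v.sp f hC hv hs, fun up => ⟨fun l => ?_, fun l => ?_⟩⟩⟩
  · obtain ⟨a, b⟩ := (v.val h f hπ hC up).1 l
    obtain ⟨r, c, e⟩ := f.H_bd C hC l.1 k v.k_lt (f.cg.line_mem hC l.1 a) up
    exact e.ge.trans (v.slot.lo (f.H_lt k v.k_lt) c (e.le.trans b))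
  · obtain ⟨a, b⟩ := (v.val h f hπ hC up).2 l
    obtain ⟨r, c, e⟩ := f.H_bd C hC l.1 k v.k_lt (f.cg.line_mem hC l.1 a) up
    exact (v.slot.hi (f.H_lt k v.k_lt) c (b.trans e.ge)).trans e.le

include h f in
theorem VF.gap {e : Str} (v : F.VF X R e.1 z k q d x) (hz : z ∉ Ev F.Λ F.E) :
    q % 2 = 0 ∧ F.Pt X R e.1 ((F.G X R).abv e (k, q, d)) (clk k d) x := by
  rcases v.slot with ⟨r, a, b, -⟩ | ⟨j, a, b, c, rfl⟩
  · exact absurd ⟨v.Λ, by rw [v.z1, b]; exact f.H_out k v.k_lt r a (b ▸ v.Y)⟩ hz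
  refine ⟨by omega, fun D hD hv hi hs => ?_⟩
  have e1 : (F.G X R).abv e (k, 2 * j + 2, d) D ↔
      (F.G X R).φ D true k ≤ F.H k ((2 * j + 2 - 1) / 2) := by
    simp only [G]
    rw [if_neg (by simp; omega), if_neg (by simp; omega)]
  rw [e1]
  constructor
  · intro l
    rw [show (2 * j + 2 - 1) / 2 = j by omega] at l
    exact (v.seg f hD hv hs).1 ⟨_, l.trans_lt b, v.bd_mem f hD hv hs true⟩
  · intro l
    obtain ⟨r, c, e⟩ := f.H_bd D hD hv k v.k_lt (f.cg.line_mem hD hv hs) true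
    refine e.ge.trans (v.slot.lo (f.H_lt k v.k_lt) c (e.le.trans ?_))
    by_contra m
    exact io_notMem (h.reg D hD) hi v.att.1 (mem_of_abv_blw (h.cvx D hD hv) l
      ((v.seg f hD hv hs).2 ⟨_, not_le.1 m, v.bd_mem f hD hv hs true⟩))

include f in
theorem OK.end_vf {e : Str} (he : e ∈ X.SS) (ha : F.ac (F.g e)) (τ : Bool) :
    F.VF X R e.1 (F.a (locK e τ), F.H (locK e τ) (locR e τ)) (locK e τ) (2 * locR e τ + 1)
      (F.sd (F.g e) τ) (F.sx (F.g e) τ) ∧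
    ∀ D, (F.G X R).abv e (endS (F.G X R) e τ) D ↔ Abv (R D) (F.sx (F.g e) τ) := by
  obtain ⟨a1, a2, a3, a4, a5⟩ := (X.mem_SS e).1 he
  have m := (f.p.ac _ ha).2.2.1 τ
  have t := f.p.att _ ha τ
  rw [g_end] at m t
  refine ⟨⟨a1, m.1, by cases τ <;> assumption, rfl, m.2.1, f.E_Y _ m.2,
    Or.inl ⟨_, by cases τ <;> assumption, rfl, rfl⟩, t, f.B_sx _ ha τ⟩, fun D => ?_⟩
  cases τ
  · simp [G, endS]
  · simp only [G, endS]
    split_ifs with l
    · simp only [Prod.mk.injEq] at l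
      rw [f.p.same _ ha]
      have := g_end (F := F) e true
      have := g_end (F := F) e false
      simp only [cond_true, cond_false] at *
      rw [‹(F.g e).2.1 = _›, ‹(F.g e).2.2 = _›, l.1, show locR e true = locR e false by omega]
    · rfl

include h f in
theorem chan_lt {c : ℕ} (hx : x ∈ interior (R A))
    (hc : x.1 ∈ Ioo (F.a (c - 1)) (F.a c)) (hb : |x.1| ≤ F.b) (hY : |x.2| ≤ F.Y) {π : ℕ → Prop}
    (hπ : F.Pt X R A π c x) {C : ℕ} (hC : C < X.n) (up : Bool) :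
    (Low X (F.G X R) A π c C up → bd (F.Ct C) up x.1 < x.2) ∧
    (Upp X (F.G X R) A π c C up → x.2 < bd (F.Ct C) up x.1) := by
  have m : X.cvx C = true → R A ⊆ R C → _ := fun hv hs =>
    int_sec (f.cpt C hC hv) (f.C_int C hC x (interior_mono hs hx) hb hY)
  have m' : X.cvx C = true → (F.G X R).sp C c → ∀ up, (x.1, bd (F.Ct C) up x.1) ∈ R C :=
    fun hv hs up => f.C_sub C (bd_mem (f.cpt C hC hv)
      (f.cg.cell_sub hC hv hs (Ioo_subset_Icc_self hc)) up)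
  cases up
  · refine ⟨fun l => (m l.1 l.2).1, fun ⟨hv, a, b, c⟩ => ?_⟩
    rcases lt_trichotomy x.2 (bd (F.Ct C) false x.1) with l | l | l
    · exact l
    · exact absurd (show (x.1, x.2) ∈ _ from l ▸ m' hv b false) (io_notMem (h.reg C hC) a hx)
    · exact absurd ((hπ C hC hv a b).2 ⟨_, l, m' hv b false⟩) c
  · refine ⟨fun ⟨hv, a, b, c⟩ => ?_, fun l => (m l.1 l.2).2⟩
    rcases lt_trichotomy x.2 (bd (F.Ct C) true x.1) with l | l | l
    · exact absurd (mem_of_abv_blw (h.cvx C hC hv) ((hπ C hC hv a b).1 c) ⟨_, l, m' hv b true⟩)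
        (io_notMem (h.reg C hC) a hx)
    · exact absurd (show (x.1, x.2) ∈ _ from l ▸ m' hv b true) (io_notMem (h.reg C hC) a hx)
    · exact l

include h f in
theorem chan_le (hA : A < X.n) {c : ℕ} (hx : x ∈ R A)
    (hc : x.1 ∈ Ioo (F.a (c - 1)) (F.a c)) (hb : |x.1| ≤ F.b) (hY : |x.2| ≤ F.Y) {π : ℕ → Prop}
    (hπ : F.Pt X R A π c x) {C : ℕ} (hC : C < X.n) (up : Bool) :
    (Low X (F.G X R) A π c C up → bd (F.Ct C) up x.1 ≤ x.2) ∧
    (Upp X (F.G X R) A π c C up → x.2 ≤ bd (F.Ct C) up x.1) := by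
  have m : X.cvx C = true → R A ⊆ R C → _ := fun hv hs =>
    bd_le (f.cpt C hC hv) (show (x.1, x.2) ∈ _ from f.C_in C x (hs hx) hb hY)
  have m' : X.cvx C = true → (F.G X R).sp C c → ∀ up, (x.1, bd (F.Ct C) up x.1) ∈ R C :=
    fun hv hs up => f.C_sub C (bd_mem (f.cpt C hC hv)
      (f.cg.cell_sub hC hv hs (Ioo_subset_Icc_self hc)) up)
  cases up
  · refine ⟨fun l => (m l.1 l.2).1, fun ⟨hv, a, b, c⟩ => not_lt.1 fun l => ?_⟩
    exact c ((hπ C hC hv a b).2 ⟨_, l, m' hv b false⟩)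
  · refine ⟨fun ⟨hv, a, b, c⟩ => not_lt.1 fun l => ?_, fun l => (m l.1 l.2).2⟩
    exact not_both h f.p.s1 hA hC hv a hx (interior_mono (image_mono (f.C_sub C))
      (f.cg.cell_int hC hv b hc)) ((hπ C hC hv a b).1 c) ⟨_, l, m' hv b true⟩

include h in
theorem tab : Tab X.n (F.G X R) where
  sub_refl _ _ := Subset.rfl
  sub_trans _ _ _ _ _ _ a b := Subset.trans a b
  nt_sub _ _ _ _ a := ⟨a.1.trans interior_subset, a.2⟩
  sub_nt _ _ _ _ _ _ a b := ⟨Subset.trans a b.1, fun c => b.2 (c.trans a)⟩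
  nt_sub_nt _ _ _ _ _ _ a b := ⟨a.1.trans (interior_mono b), fun c => a.2 (Subset.trans b c)⟩
  dc_symm _ _ _ _ a := (inter_comm _ _).trans a
  io_symm _ _ _ _ a := (inter_comm _ _).trans a
  dc_io _ _ _ _ a := subset_eq_empty (inter_subset_inter interior_subset interior_subset) a
  sub_dc _ _ _ _ _ _ a b := subset_eq_empty (inter_subset_inter_left _ a) b
  sub_io _ _ _ _ _ _ a b := subset_eq_empty (inter_subset_inter_left _ (interior_mono a)) b
  nt_io _ _ _ _ l hl a b := eq_empty_of_forall_notMem fun _ hz =>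
    io_notMem (h.reg l hl) b (a.1 hz.1) hz.2
  io_irr i hi a := by
    have := (h.reg i hi).1
    rw [(h.reg i hi).2, show interior (R i) = ∅ from (inter_self _).symm.trans a,
      closure_empty] at this
    exact not_nonempty_empty this

include h f in
theorem OK.ends {e : Str} (he : e ∈ X.SS) (ha : F.ac (F.g e)) (τ : Bool) :
    EndOK X (F.G X R) e τ (endS (F.G X R) e τ) := by
  obtain ⟨v, hπ⟩ := f.end_vf he ha τ
  set k := locK e τ
  set d := F.sd (F.g e) τ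
  set π := (F.G X R).abv e (endS (F.G X R) e τ)
  set p : ℝ × ℝ := (F.a k, F.H k (locR e τ))
  obtain ⟨r1, r2, r3, r4, -⟩ := v.cell f
  have hπ' : F.Pt X R e.1 π (clk k d) (F.sx (F.g e) τ) := fun D _ _ _ _ => hπ D
  have cel : ∀ t, 0 < t → t < 2 * hw (F.G X R) k d → ∀ x : ℝ × ℝ, x.1 = xp (F.G X R) k d t →
      x.1 ∈ Ioo (F.a (clk k d - 1)) (F.a (clk k d)) ∧ |x.1| ≤ F.b := fun t t0 t1 x hx => by
    have := (CG.xp_cell r1 t).2.1 ⟨t0, t1⟩
    rw [← hx] at this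
    exact ⟨this, abs_le.2 ⟨r3.trans this.1.le, this.2.le.trans r4⟩⟩
  have key : ∀ C < X.n, ∀ D < X.n, ∀ up up', Low X (F.G X R) e.1 π (clk k d) C up →
      Upp X (F.G X R) e.1 π (clk k d) D up' → _ := fun C hC D hD up up' l u => by
    refine f.cg.le_of hC l.1 hD u.1 ((v.val h f hπ' hC up).1 l).1 ((v.val h f hπ' hD up').2 u).1
      (((v.val h f hπ' hC up).1 l).2.trans ((v.val h f hπ' hD up').2 u).2) ?_
    have cl := (f.p.rad _ v.hA _ v.mem).pat _ v.att.2.2.1 d v.att.1 v.att.2.2.2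
    set T := {x' : ℝ × ℝ | (x' ∈ interior (R e.1) ∧ 0 < sg d * (x'.1 - p.1)) ∧
      ∀ D < X.n, (Abv (R D) x' ↔ Abv (R D) (F.sx (F.g e) τ))}
    have := mem_closure_iff_nhdsWithin_neBot.1 cl
    have c0 : Tendsto (fun x : ℝ × ℝ => sg d * (x.1 - p.1)) (𝓝 p) (𝓝 0) :=
      Continuous.tendsto' (by fun_prop) _ _ (by simp)
    refine (tendsto_nhdsWithin_iff.2 ⟨c0.mono_left (nhdsWithin_le_nhds (s := T)),
      Filter.mem_of_superset self_mem_nhdsWithin fun x hx => hx.1.2⟩).frequently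
      (Eventually.frequently ?_)
    have w := (f.ts0 (F.g e) τ).trans (f.cg.ts_lt r1 r2 e τ)
    filter_upwards [self_mem_nhdsWithin, nhdsWithin_le_nhds (c0.eventually_lt_const w),
      nhdsWithin_le_nhds ((continuous_snd.abs.tendsto p).eventually_lt_const v.Y)] with x a b c
    have e1 : x.1 = xp (F.G X R) k d (sg d * (x.1 - p.1)) := by
      simp only [xp, G, p]
      generalize d = d'
      cases d' <;> simp [sg]
    obtain ⟨i1, i2⟩ := cel _ a.1.2 b x e1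
    have pt : F.Pt X R e.1 π (clk k d) x := fun D hD _ _ _ => (hπ D).trans (a.2 D hD).symm
    rw [← e1]
    exact (((chan_lt h f a.1.1 i1 i2 c.le pt hC up).1 l).trans
      ((chan_lt h f a.1.1 i1 i2 c.le pt hD up').2 u)).le
  refine ⟨v.ok h f hπ', fun C hC D hD up up' l u => (key C hC D hD up up' l u).2 e τ ?_,
    fun B hB hc hs C hC D hD up up' l u => (key C hC D hD up up' (l.mono (tab h) v.hA hB hs hC)
      (u.mono (tab h) v.hA hB hs hD)).1 fun e' _ τ' => ?_⟩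
  · obtain ⟨x, a, b, c, c'⟩ := f.T2 _ ha τ
    rw [g_end] at b
    obtain ⟨i1, i2⟩ := cel _ (f.ts0 _ _) (f.cg.ts_lt r1 r2 e τ) x b
    have pt : F.Pt X R e.1 π (clk k d) x := fun D hD _ _ _ => (hπ D).trans (c' D hD).symm
    rw [show xp (F.G X R) k d (F.ts (F.g e) τ) = x.1 from b.symm]
    exact ((chan_lt h f a i1 i2 c pt hC up).1 l).trans
      ((chan_lt h f a i1 i2 c pt hD up').2 u)
  · obtain ⟨x, a, b, c, c'⟩ := f.T3 _ ha τ B hB hc hs (F.g e') τ'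
    rw [g_end] at b
    obtain ⟨i1, i2⟩ := cel _ (f.ts0 _ _) (f.cg.ts_lt r1 r2 e' τ') x b
    have pt : F.Pt X R B π (clk k d) x := fun D hD hv hi sp => (hπ D).trans (c' D hD hv hi
      (image_mono (f.C_sub D) (f.cg.cell_sub hD hv sp (Ioo_subset_Icc_self i1)))).symm
    rw [show xp (F.G X R) k d (F.ts (F.g e') τ') = x.1 from b.symm]
    exact ((chan_le h f hB a i1 i2 c pt hC up).1 l).trans ((chan_le h f hB a i1 i2 c pt hD up').2 u)

end FD

end Pool.Agent.Lib.MP_02e8f2_lc
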