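import Pool.Agent.Lib.MP_02e8f2_lc.CompD

/-!
From regions to a certificate with a drawing.
-/

set_option autoImplicit false

namespace Pool.Agent.Lib.MP_02e8f2_lc

open Set Filter Topology

namespace FD

variable (X : Ctx) (F : FD)

/-- The number of a line. -/
noncomputable def ix (ξ : ℝ) : ℕ := Classical.epsilon fun k => k < X.K ∧ F.a k = ξ

/-- The slot of a point. -/
noncomputable def sl (z : ℝ × ℝ) : ℕ := Classical.epsilon (Slot (F.H (F.ix X z.1)) X.R z.2)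

/-- The vertices of the strings. -/
noncomputable def o (e : Str) (m : ℕ) : Dart ℝ :=
  ⟨F.ix X (F.z (F.g e) m).1, F.sl X (F.z (F.g e) m), (F.z (F.g e) m).2, F.d (F.g e) m⟩

variable {X F} {R : ℕ → Set (ℝ × ℝ)} (h : Reg X R) (f : F.OK X R)
include f

theorem OK.a_inj {k k' : ℕ} (hk : k < X.K) (hk' : k' < X.K) (e : F.a k = F.a k') : k = k' := by
  rcases lt_trichotomy k k' with l | l | l
  · exact absurd e (lt_of_succ f.a_lt l hk').ne
  · exact l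
  · exact absurd e (lt_of_succ f.a_lt l hk).ne'

theorem OK.pt_inj {k k' r r' : ℕ} (hk : k < X.K) (hk' : k' < X.K) (hr : r < X.R) (hr' : r' < X.R)
    (e : (F.a k, F.H k r) = (F.a k', F.H k' r')) : k = k' ∧ r = r' := by
  obtain rfl := f.a_inj hk hk' (congrArg Prod.fst e)
  have e' : F.H k r = F.H k r' := congrArg Prod.snd e
  refine ⟨rfl, ?_⟩
  rcases lt_trichotomy r r' with l | l | l
  · exact absurd e' (lt_of_succ (f.H_lt k hk) l hr').ne
  · exact l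
  · exact absurd e' (lt_of_succ (f.H_lt k hk) l hr).ne'

theorem OK.ev_pt {p : ℝ × ℝ} (hp : p ∈ Ev F.Λ F.E) :
    ∃ k < X.K, ∃ r < X.R, (F.a k, F.H k r) = p := by
  obtain ⟨k, a, b⟩ := (f.a_Λ _ hp.1).2
  obtain ⟨r, c, d⟩ := f.H_E k a p.2 (b ▸ hp.2)
  exact ⟨k, a, r, c, Prod.ext b d⟩

theorem OK.vf {A : ℕ} (hA : A < X.n) {z x : ℝ × ℝ} {d : Bool} (hz : z ∈ R A) (hl : z.1 ∈ F.Λ)
    (hY : |z.2| < F.Y) (ha : Att (R A) F.Λ (F.r A) z d x) (hb : |x.1| < F.b) :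
    F.VF X R A z (F.ix X z.1) (F.sl X z) d x := by
  have k : F.ix X z.1 < X.K ∧ F.a (F.ix X z.1) = z.1 :=
    Classical.epsilon_spec (p := fun k => k < X.K ∧ F.a k = z.1) (f.a_Λ _ hl).2
  obtain ⟨⟨r, a, b⟩, r', a', b'⟩ := f.H_end _ k.1
  exact ⟨hA, hz, k.1, k.2.symm, hl, hY, Classical.epsilon_spec (exists_slot (f.H_lt _ k.1)
    ⟨r, a, b ▸ (abs_lt.1 hY).1.le⟩ ⟨r', a', b' ▸ (abs_lt.1 hY).2.le⟩), ha, hb⟩

theorem VF.uniq {A k q k' q' : ℕ} {z x x' : ℝ × ℝ} {d d' : Bool} (v : F.VF X R A z k q d x)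
    (v' : F.VF X R A z k' q' d' x') : k = k' ∧ q = q' := by
  obtain rfl := f.a_inj v.k_lt v'.k_lt (v.z1.symm.trans v'.z1)
  exact ⟨rfl, v.slot.uniq (f.H_lt _ v.k_lt) v'.slot⟩

theorem OK.act_ne {e : Str} (he : Act X (F.G X R) e) : (F.g e).2.1 ≠ (F.g e).2.2 := fun l =>
  let ⟨_, a, b, c, d⟩ := (X.mem_SS e).1 he.1
  he.2.2 (f.pt_inj a c b d l)

theorem OK.vtx {e : Str} (he : Act X (F.G X R) e) {m : ℕ} (hm : m ≤ F.N (F.g e)) :
    F.z (F.g e) m ∈ R e.1 ∧ (F.z (F.g e) m).1 ∈ F.Λ := by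
  obtain ⟨a1, a2, a3, -⟩ := f.p.str _ he.2.1 (f.act_ne he)
  have w := (f.p.ac _ he.2.1).2.2.1
  rcases Nat.eq_zero_or_pos m with rfl | l
  · exact a1 ▸ ⟨(w false).1, (w false).2.1⟩
  rcases hm.eq_or_lt with rfl | l'
  · exact a2 ▸ ⟨(w true).1, (w true).2.1⟩
  · exact ⟨(a3.inner _ l l').1, (a3.inner _ l l').2.1⟩

include h

theorem OK.out {e : Str} (he : Act X (F.G X R) e) {m : ℕ} (hm : m < F.N (F.g e)) :
    F.VF X R e.1 (F.z (F.g e) m) (F.o X e m).k (F.o X e m).q (F.o X e m).d (F.x (F.g e) m) ∧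
    F.Pt X R e.1 ((F.G X R).abv e (F.o X e m).side) (cl (F.o X e m).side) (F.x (F.g e) m) ∧
    (m = 0 → (F.o X e m).side = endS (F.G X R) e false) ∧ (0 < m → (F.o X e m).q % 2 = 0) := by
  obtain ⟨a1, -, a3, a4, -, a6, -⟩ := f.p.str _ he.2.1 (f.act_ne he)
  have v := f.vf (f.p.ac _ he.2.1).1 (f.vtx he hm.le).1 (f.vtx he hm.le).2
    (f.B_z _ he.2.1 m hm.le) (a3.chord m hm).1 (f.B_ch _ he.2.1 (f.act_ne he) m hm).1
  rcases Nat.eq_zero_or_pos m with rfl | l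
  · obtain ⟨w, hw⟩ := f.end_vf he.1 he.2.1 false
    have u := v.uniq f (by rw [a1]; exact w)
    have e1 : (F.o X e 0).side = endS (F.G X R) e false :=
      Prod.ext u.1 (Prod.ext u.2 a4.symm)
    exact ⟨v, fun D _ _ _ _ => by rw [e1, hw, a6], fun _ => e1, fun l => absurd l (lt_irrefl _)⟩
  · have := v.gap h f (a3.inner _ l hm).2.2
    exact ⟨v, this.2, fun l' => by omega, fun _ => this.1⟩

theorem OK.inn {e : Str} (he : Act X (F.G X R) e) {m : ℕ} (hm : m < F.N (F.g e)) :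
    F.VF X R e.1 (F.z (F.g e) (m + 1)) (F.o X e (m + 1)).fl.k (F.o X e (m + 1)).fl.q
      (F.o X e (m + 1)).fl.d (F.x' (F.g e) m) ∧
    F.Pt X R e.1 ((F.G X R).abv e (F.o X e (m + 1)).fl.side) (cl (F.o X e (m + 1)).fl.side)
      (F.x' (F.g e) m) ∧
    (m + 1 = F.N (F.g e) → (F.o X e (m + 1)).fl.side = endS (F.G X R) e true) := by
  obtain ⟨-, a2, a3, -, a5, -, a7⟩ := f.p.str _ he.2.1 (f.act_ne he)
  have v := f.vf (f.p.ac _ he.2.1).1 (f.vtx he hm).1 (f.vtx he hm).2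
    (f.B_z _ he.2.1 _ hm) (a3.chord m hm).2.1 (f.B_ch _ he.2.1 (f.act_ne he) m hm).2.1
  rcases (Nat.succ_le_of_lt hm).eq_or_lt with l | l
  · obtain ⟨w, hw⟩ := f.end_vf he.1 he.2.1 true
    rw [← l] at a2 a5 a7
    have u := v.uniq f (by rw [a2]; exact w)
    have e1 : (F.o X e (m + 1)).fl.side = endS (F.G X R) e true :=
      Prod.ext u.1 (Prod.ext u.2 a5.symm)
    exact ⟨v, fun D _ _ _ _ => by rw [e1, hw, a7]; rfl, fun _ => e1⟩
  · exact ⟨v, (v.gap h f (a3.inner _ (Nat.succ_pos m) l).2.2).2, fun l' => by omega⟩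

omit h in
theorem OK.chain_in {A c : ℕ} (c1 : 1 ≤ c) (c2 : c < X.K) (c3 : -F.b ≤ F.a (c - 1))
    (c4 : F.a c ≤ F.b) {x x' : ℝ × ℝ} (hx : x.1 ∈ Ioo (F.a (c - 1)) (F.a c))
    (k : Relation.ReflTransGen (fun p q => St X R F.Λ (F.U A) A p q ∧ |q.1| < F.b) x x') :
    x'.1 ∈ Ioo (F.a (c - 1)) (F.a c) ∧ Relation.ReflTransGen (fun p q =>
      p ∈ {p : ℝ × ℝ | p.1 ∈ Ioo (F.a (c - 1)) (F.a c)} ∧
      q ∈ {p : ℝ × ℝ | p.1 ∈ Ioo (F.a (c - 1)) (F.a c)} ∧ segment ℝ p q ⊆ F.U A) x x' ∧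
    ∀ D < X.n, X.cvx D = true → IO R A D → (F.G X R).sp D c → (Abv (R D) x ↔ Abv (R D) x') := by
  induction k with
  | refl => exact ⟨hx, .refl, fun _ _ _ _ _ => Iff.rfl⟩
  | @tail p q _ k ih =>
    obtain ⟨⟨k1, k2, k3, k4⟩, k5⟩ := k
    obtain ⟨i1, i2, i3⟩ := ih
    have k6 := abs_lt.1 k5
    have l := i1.1.trans i1.2
    have m : q.1 ∈ Ioo (F.a (c - 1)) (F.a c) := by
      constructor
      · rcases f.a_out (c - 1) (by omega) with m | m
        · exact (not_lt.1 (mt (k1 _ m).2 i1.1.not_gt)).lt_of_ne fun e => k2 (e ▸ m)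
        · rcases le_abs.1 m with m | m <;> linarith
      · rcases f.a_out c c2 with m | m
        · exact (k1 _ m).1 i1.2
        · rcases le_abs.1 m with m | m <;> linarith
    exact ⟨m, i2.tail ⟨i1, m, k3⟩, fun D hD hv hi hs => (i3 D hD hv hi hs).trans (k4 D hD hv hi
      (image_mono (f.C_sub D) (f.cg.cell_sub hD hv hs (Ioo_subset_Icc_self i1))))⟩

omit h in
theorem OK.cell_eq {c c' : ℕ} (c2 : c < X.K) (c2' : c' < X.K) {ξ : ℝ}
    (hx : ξ ∈ Ioo (F.a (c - 1)) (F.a c)) (hx' : ξ ∈ Ioo (F.a (c' - 1)) (F.a c')) : c = c' := by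
  have a := lt_of_val f.a_lt (by omega) (hx.1.trans hx'.2)
  have b := lt_of_val f.a_lt (by omega) (hx'.1.trans hx.2)
  omega

omit h in
theorem VF.seg_sub {A k q : ℕ} {z x : ℝ × ℝ} {d : Bool} (v : F.VF X R A z k q d x) :
    segment ℝ z x ⊆ F.U A :=
  have rd := f.p.rad _ v.hA _ v.mem
  ((convex_ball _ _).segment_subset (Metric.mem_ball_self rd.pos) v.att.2.2.1).trans rd.sub

omit h in
theorem VF.side {A k q : ℕ} {z x : ℝ × ℝ} {d : Bool} (v : F.VF X R A z k q d x) {c : ℕ}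
    (hc : clk k d = c) : ∀ p ∈ {p : ℝ × ℝ | p.1 ∈ Ioo (F.a (c - 1)) (F.a c)},
      0 < sg d * (p.1 - z.1) := fun p hp => by
  subst hc
  rw [v.z1]
  cases d
  · have : p.1 < F.a k := hp.2
    simp only [sg_false]; linarith
  · have : F.a k < p.1 := hp.1
    simp only [sg_true]; linarith

omit h in
theorem VF.bl {A B : ℕ} {a b : Dart ℝ} {z x w y : ℝ × ℝ} (v : F.VF X R A z a.k a.q a.d x)
    (v' : F.VF X R B w b.k b.q b.d y) (e : a.h = z.2) (e' : b.h = w.2)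
    (hc : clk a.k a.d = clk b.k b.d) :
    (a.d = b.d → z.1 = w.1) ∧ (Bl a b ↔ a.d = b.d ∧ z.2 < w.2) := by
  have k : a.d = b.d → a.k = b.k := fun l => by
    rw [l] at hc
    revert hc
    cases b.d <;> simp [clk]
  refine ⟨fun l => by rw [v.z1, v'.z1, k l], ?_⟩
  rw [Bl, e, e']
  exact ⟨fun l => ⟨l.2.1, (v.slot.ord (f.H_lt _ v.k_lt) (l.1 ▸ v'.slot)).1 l.2.2⟩,
    fun l => ⟨k l.1, l.1, (v.slot.ord (f.H_lt _ v.k_lt) (k l.1 ▸ v'.slot)).2 l.2⟩⟩

theorem OK.draw : IsDraw (parOf X (F.G X R)) (fun e => F.N (F.g e)) (F.o X) := by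
  have pos : ∀ e, Act X (F.G X R) e → 0 < F.N (F.g e) := fun e he =>
    (f.p.str _ he.2.1 (f.act_ne he)).2.2.1.pos
  have ch := fun e (he : Act X (F.G X R) e) m (hm : m < F.N (F.g e)) =>
    have c := (f.out h he hm).1.cell f
    f.chain_in c.1 c.2.1 c.2.2.1 c.2.2.2.1 c.2.2.2.2 (f.B_ch _ he.2.1 (f.act_ne he) m hm).2.2
  have ce : ∀ e, Act X (F.G X R) e → ∀ m < F.N (F.g e), clk (F.o X e m).k (F.o X e m).d =
      clk (F.o X e (m + 1)).fl.k (F.o X e (m + 1)).fl.d := fun e he m hm =>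
    f.cell_eq ((f.out h he hm).1.cell f).2.1 ((f.inn h he hm).1.cell f).2.1 (ch e he m hm).1
      ((f.inn h he hm).1.cell f).2.2.2.2
  refine ⟨pos, fun e he => (f.out h he (pos e he)).2.2.1 rfl, fun e he => ?_,
    fun e he m h0 hm => (f.out h he hm).2.2.2 h0, fun e he m hm => ?_,
    fun e e' hd m hm m' hm' => ?_, fun e e' hd m hm m' hm' l => ?_⟩
  · have := (f.inn h he (m := F.N (F.g e) - 1) (Nat.sub_one_lt (pos e he).ne')).2.2
    rw [Nat.sub_add_cancel (pos e he)] at this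
    exact this rfl
  · obtain ⟨a1, a2, -⟩ := f.out h he hm
    obtain ⟨b1, b2, -⟩ := f.inn h he hm
    exact ⟨a1.ok h f a2, b1.ok h f b2, ce e he m hm, fun D hD hv hi hs =>
      (a2 D hD hv hi hs).trans (((ch e he m hm).2.2 D hD hv hi hs).trans
        (b2 D hD hv hi (by rw [cl, ← show _ = clk (F.o X e (m + 1)).fl.side.1
          (F.o X e (m + 1)).fl.side.2.2 from ce e he m hm]; exact hs)).symm)⟩
  · obtain ⟨he, he', hd⟩ := hd
    have a := (f.out h he hm).1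
    have b := (f.inn h he hm).1
    have a' := (f.out h he' hm').1
    have b' := (f.inn h he' hm').1
    have c := ce e he m hm
    have c' := ce e' he' m' hm'
    by_cases l : clk (F.o X e m).k (F.o X e m).d = clk (F.o X e' m').k (F.o X e' m').d
    · have k1 := a.bl f a' rfl rfl l
      have k2 := b.bl f a' rfl rfl (c.symm.trans l)
      have k3 := a.bl f b' rfl rfl (l.trans c')
      have k4 := b.bl f b' rfl rfl (c.symm.trans (l.trans c'))
      rw [NC, k1.2, k2.2, k3.2, k4.2]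
      have i := ch e' he' m' hm'
      have i' := (a'.cell f).2.2.2.2
      rw [← l] at i i'
      exact parity (f.p.dis _ a.hA _ a'.hA hd) (a.side f rfl) (b.side f c.symm) (a'.side f l.symm)
        (b'.side f (l.trans c').symm) k1.1 k3.1 k2.1 k4.1 (a.cell f).2.2.2.2 (ch e he m hm).1 i'
        i.1 (a.seg_sub f) (ch e he m hm).2.1 ((segment_symm ℝ _ _).le.trans (b.seg_sub f))
        (a'.seg_sub f)
        i.2.1 ((segment_symm ℝ _ _).le.trans (b'.seg_sub f))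
    · have n : ∀ u w : Dart ℝ, clk u.k u.d ≠ clk w.k w.d → ¬ Bl u w := fun u w k m =>
        k (by rw [m.1, m.2.1])
      rw [NC, iff_false_intro (n _ _ l), iff_false_intro (n _ _ (c ▸ l)),
        iff_false_intro (n _ _ (c' ▸ l)), iff_false_intro (n _ _ (c ▸ c' ▸ l))]
  · obtain ⟨he, he', hd⟩ := hd
    have a := f.vtx he hm
    have a' := f.vtx he' hm'
    have k := fun ξ (hl : ξ ∈ F.Λ) =>
      (Classical.epsilon_spec (p := fun k => k < X.K ∧ F.a k = ξ) (f.a_Λ _ hl).2).2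
    have e1 : F.z (F.g e) m = F.z (F.g e') m' := Prod.ext
      ((k _ a.2).symm.trans ((congrArg F.a l.1).trans (k _ a'.2))) l.2.2
    exact (eq_empty_iff_forall_notMem.1 hd) _ ⟨a.1, e1 ▸ a'.1⟩

theorem OK.geo (hR : 0 < X.R) : Geo X (F.G X R) := by
  have c := f.cg
  have inb : ∀ {k r : ℕ}, (F.a k, F.H k r) ∈ Ev F.Λ F.E → |F.a k| ≤ F.b ∧ |F.H k r| ≤ F.Y :=
    fun m => ⟨(f.a_Λ _ m.1).1.le, (f.E_Y _ m).le⟩
  have wit : ∀ A < X.n, ∀ B < X.n, (R A ∩ R B).Nonempty → ∃ k < X.K, ∃ r < X.R,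
      (F.G X R).mem A k r ∧ (F.G X R).mem B k r := fun A hA B hB l => by
    obtain ⟨p, a, b⟩ := f.p.s1.wit A hA B hB l
    obtain ⟨k, hk, r, hr, rfl⟩ := f.ev_pt b
    exact ⟨k, hk, r, hr, ⟨a.1, b⟩, a.2, b⟩
  refine ⟨f.a_lt, f.H_lt, fun C _ _ => ⟨fun l => absurd l.1 (by omega), fun l => lt_irrefl _ l.2.1⟩,
    fun C hC hv => ?_, fun C hC hv c₁ _ c₂ _ c₃ _ l l' s s' => ?_,
    fun C hC hv k hk s => c.conc hC hv hk s, fun C hC hv k _ s s' => c.kink hC hv s s',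
    fun C hC hv k _ d s => c.vfat hC hv hR s,
    fun C hC D hD hv hv' l k _ d s => c.vsub hC hv hD hv' (f.C_mono C D l) s,
    fun C hC D hD hv hv' l k _ d s => c.vnt hC hv hD hv' (f.C_nt C D hD l.1 l.2) s,
    fun C hC D hD hv hv' l k _ s s' => c.vio hC hv hD hv' ((disjoint_iff_inter_eq_empty.2 l).mono
      (interior_mono (f.C_sub C)) (interior_mono (f.C_sub D))) s s',
    fun C hC D hD hv hv' l k _ d d' s s' => c.vdc hC hv hD hv'
      ((disjoint_iff_inter_eq_empty.2 l).mono (f.C_sub C) (f.C_sub D)) s s',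
    fun C hC hv k hk r _ m => ?_, fun A _ B _ l k _ r _ m => ⟨l m.1, m.2⟩,
    fun A _ B _ l k _ r _ m m' => (eq_empty_iff_forall_notMem.1 l) _ ⟨m.1, m'.1⟩,
    fun A _ D hD hv l k hk r _ m s => ?_, fun A _ C hC hv l k hk r _ m => ?_,
    fun A hA => ?_, wit, fun e he ha => ?_, fun A hA hv k _ r _ m => f.p.stub A hA hv _ m,
    fun e he ha τ => f.ends h he ha τ, fun A hA hc k hk r hr k' hk' r' hr' m m' ne le => ?_⟩
  · obtain ⟨i, j, a, b, -, e⟩ := c.sp_iff hC hv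
    exact ⟨j, b, (e j).2 ⟨a, le_rfl⟩⟩
  · obtain ⟨i, j, a, b, -, e⟩ := c.sp_iff hC hv
    rw [e] at s s' ⊢
    omega
  · have := f.C_in C _ m.1 (inb m.2).1 (inb m.2).2
    exact ⟨c.sp_line hC hv hk ⟨_, this, rfl⟩, bd_le (f.cpt C hC hv) this⟩
  · by_contra n
    push Not at n
    exact (eq_empty_iff_forall_notMem.1 l) _ ⟨m.1, f.C_sub D (sec_mem (f.cpt D hD hv)
      (f.cvx D hD hv) (s.elim (c.line_mem hD hv (d := false)) (c.line_mem hD hv (d := true)))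
      n.1 n.2)⟩
  · have := f.C_int C hC _ (l.1 m.1) (inb m.2).1 (inb m.2).2
    obtain ⟨a, b⟩ := c.sp_int_line hC hv hk (int_prj this)
    exact ⟨a, b, int_sec (f.cpt C hC hv) this⟩
  · obtain ⟨k, a, r, b, m, -⟩ := wit A hA A hA (by simpa using (h.reg A hA).1)
    exact ⟨k, a, r, b, m⟩
  · obtain ⟨-, a2, a3, a4⟩ := f.p.ac _ ha
    obtain ⟨-, b1, b2, b3, b4⟩ := (X.mem_SS e).1 he
    exact ⟨a2, fun τ => (g_end e τ ▸ a3 τ :), a4.imp_left (f.pt_inj b1 b3 b2 b4)⟩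
  · obtain ⟨p, a, b⟩ := f.p.conn A hA hc _ m _ m' (fun l => ne (f.pt_inj hk hk' hr hr' l))
      (Nat.cast_le.1 (show (F.rk A _ : ℝ) ≤ F.rk A _ from le))
    obtain ⟨k₀, c1, r₀, c2, rfl⟩ := f.ev_pt ((f.p.ac _ a).2.2.1 false).2
    exact ⟨k₀, c1, r₀, c2, a, show (F.rk A _ : ℝ) < F.rk A _ from Nat.cast_lt.2 b⟩

end FD

/-- A shear of the plane. -/
def shear (l : ℝ) : ℝ × ℝ ≃ₜ ℝ × ℝ where
  toFun z := (z.1 + l * z.2, z.2)
  invFun z := (z.1 - l * z.2, z.2)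
  left_inv z := by simp
  right_inv z := by simp
  continuous_toFun := by fun_prop
  continuous_invFun := by fun_prop

theorem complete (X : Ctx) (hcc : ∀ i, X.con i = true → X.cvx i = false)
    (hK : X.n * X.n + 4 * X.n + 2 ≤ X.K) (hR : X.n * X.n + 4 * X.n + 2 ≤ X.R)
    (R : ℕ → Set (ℝ × ℝ)) (hreg : ∀ i < X.n, IsRegion (R i))
    (hcvx : ∀ i < X.n, X.cvx i = true → Convex ℝ (R i))
    (hcon : ∀ i < X.n, X.con i = true → IsConnected (R i)) :
    ∃ (G : GD) (N : Str → ℕ) (o : Str → ℕ → Dart ℝ),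
      Tab X.n G ∧ Geo X G ∧ Exact G R ∧ IsDraw (parOf X G) N o := by
  obtain ⟨l, hl⟩ := exists_shear X.n R (fun i => X.cvx i = true)
    fun i hi hv => ⟨(hreg i hi).closed, hcvx i hi hv⟩
  have h : Reg X fun i => shear l '' R i :=
    ⟨hcc, fun i hi => ⟨(hreg i hi).1.image _, by
        rw [← Homeomorph.image_interior, ← Homeomorph.image_closure, ← (hreg i hi).2]⟩,
      fun i hi hv => (hcvx i hi hv).is_linear_image ⟨fun x y => by simp [shear]; ring,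
        fun c x => by simp [shear]; ring⟩,
      fun i hi hc => (hcon i hi hc).image _ (shear l).continuous.continuousOn,
      fun i hi hv => by rw [image_image]; exact hl i hi hv⟩
  obtain ⟨F, f⟩ := exists_FD h hK hR
  have inj := (shear l).injective
  refine ⟨_, _, _, FD.tab h, f.geo h (by omega), ⟨fun i j => ?_, fun i j => ?_, fun i j => ?_,
    fun i j => ?_, fun i j => ?_⟩, f.draw h⟩ <;>
  simp only [FD.G, IO, ← Homeomorph.image_interior, image_subset_image_iff inj, ← image_inter inj,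
    image_eq_empty, image_nonempty]

end Pool.Agent.Lib.MP_02e8f2_lc
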