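import Pool.Agent.Lib.MP_02e8f2_lc.Sel

/-!
Curves that run from a line to the distance `θ`.
-/

set_option autoImplicit false

namespace Pool.Agent.Lib.MP_02e8f2_lc

open Set Filter Topology

/-- Side, pattern, heights at the levels, limit height. -/
structure Crv where
  k : ℕ
  q : ℕ
  d : Bool
  π : ℕ → Prop
  Y : ℕ → ℝ
  l : ℝ

namespace Dat

variable (E : Dat)

/-- What a point on a line must satisfy. -/
def LO (Z : ℕ) (z : ℝ × ℝ) : Prop :=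
  ∀ C < E.X.n, E.X.cvx C = true → (E.G.nt Z C → z ∈ interior (KC E.X E.G E.J E.θ C)) ∧
    (E.G.dc Z C → z ∉ KC E.X E.G E.J E.θ C)

/-- A curve of the node `Z`. -/
structure COK (Z : ℕ) (c : Crv) : Prop where
  r1 : 1 ≤ clk c.k c.d
  r2 : clk c.k c.d < E.X.K
  sp : ∀ C < E.X.n, E.X.cvx C = true → E.G.sub Z C → E.G.sp C (clk c.k c.d)
  ch : ∀ n : ℕ, Ch E.X E.G Z c.π (clk c.k c.d)
    (fun C up => th E.G E.J E.θ C up c.k c.d (E.θ / 2 ^ n)) (c.Y n)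
  tag : ∀ n (a : ℝ), 0 ≤ a → a ≤ 1 → E.Tag Z c.k c.q ((1 - a) * c.Y (n + 1) + a * c.Y n)
  tagl : E.Tag Z c.k c.q c.l
  vh : ∀ n, E.VH Z c.k n (c.Y n)
  lim : ∀ n : ℕ, |c.Y n - c.l| ≤ (E.B + 1) * (E.θ / 2 ^ n)
  lo : E.LO Z (E.G.a c.k, c.l)

/-- The piece of a curve between the levels `n + 1` and `n`. -/
def lp (c : Crv) (n : ℕ) : Set (ℝ × ℝ) :=
  pc E.G c.k c.d (E.θ / 2 ^ (n + 1)) (c.Y (n + 1))
    ((c.Y n - c.Y (n + 1)) / (E.θ / 2 ^ (n + 1))) (E.θ / 2 ^ (n + 1))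

/-- The points of a curve. -/
def CS (c : Crv) : Set (ℝ × ℝ) := {z | z = (E.G.a c.k, c.l) ∨ ∃ n, z ∈ E.lp c n}

open Classical in
/-- The tail of the node `Z` at the end `τ` of `e`. -/
noncomputable def tailC (Z : ℕ) (e : Str) (τ : Bool) : Crv :=
  ⟨locK e τ, 2 * locR e τ + 1, E.G.dir e τ, E.G.abv e (endS E.G e τ),
    fun n => E.yv n (e, τ, if E.J n = (e, τ) then none else some Z), E.G.H (locK e τ) (locR e τ)⟩

/-- Half of the passage of `e` through a line. -/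
noncomputable def passC (e : Str) (m : ℕ) (d : Bool) : Crv :=
  ⟨(E.o e m).k, (E.o e m).q, d, E.G.abv e ((E.o e m).k, (E.o e m).q, d),
    fun _ => E.Yv (E.o e m).k (E.o e m).q (E.o e m).h, E.Yv (E.o e m).k (E.o e m).q (E.o e m).h⟩

variable {E}

theorem lev_half (θ : ℝ) (n : ℕ) : θ / 2 ^ n = 2 * (θ / 2 ^ (n + 1)) := by
  rw [← lev_succ θ n]; ring

theorem Good.lp_par (h : E.Good) (c : Crv) (n : ℕ) (σ : ℝ) :
    c.Y (n + 1) + (c.Y n - c.Y (n + 1)) / (E.θ / 2 ^ (n + 1)) * σ =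
      (1 - σ / (E.θ / 2 ^ (n + 1))) * c.Y (n + 1) + σ / (E.θ / 2 ^ (n + 1)) * c.Y n := by
  have := (lev_pos h.hS.pos (n + 1)).ne'
  generalize E.θ / 2 ^ (n + 1) = δ at *
  field_simp
  ring

theorem Good.lp_stop (h : E.Good) (c : Crv) (n : ℕ) :
    (xp E.G c.k c.d (E.θ / 2 ^ n), c.Y n) ∈ E.lp c n := by
  have h0 := lev_pos h.hS.pos (n + 1)
  have := pc_stop E.G c.k c.d (E.θ / 2 ^ (n + 1)) (c.Y (n + 1))
    ((c.Y n - c.Y (n + 1)) / (E.θ / 2 ^ (n + 1))) h0.le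
  rwa [lev_succ, div_mul_cancel₀ _ h0.ne', add_sub_cancel] at this

theorem dist_xp (G : GD) (k : ℕ) (d : Bool) {t : ℝ} (ht : 0 ≤ t) (y l : ℝ) :
    dist (xp G k d t, y) (G.a k, l) = max t |y - l| := by
  rw [Prod.dist_eq, Real.dist_eq, Real.dist_eq]
  cases d <;> simp [xp, sg, abs_of_nonneg ht]

theorem Good.eps (h : E.Good) :
    Tendsto (fun n : ℕ => (E.B + 1) * (E.θ / 2 ^ n)) atTop (𝓝 0) := by
  have := (tendsto_pow_atTop_atTop_of_one_lt (one_lt_two (α := ℝ))).const_div_atTop E.θ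
  simpa using this.const_mul (E.B + 1)

theorem Good.lev_le_eps (h : E.Good) (n : ℕ) : E.θ / 2 ^ n ≤ (E.B + 1) * (E.θ / 2 ^ n) := by
  have := lev_pos h.hS.pos n
  have := h.hS.Bpos
  nlinarith

theorem Good.CS_closed (h : E.Good) {Z : ℕ} {c : Crv} (hc : E.COK Z c) : IsClosed (E.CS c) := by
  refine lim_closed (fun n => pc_closed ..) h.eps ?_
  rintro n _ ⟨σ, ⟨h1, h2⟩, rfl⟩
  have h0 := lev_pos h.hS.pos (n + 1)
  simp only
  rw [dist_xp _ _ _ (by linarith), h.lp_par]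
  have a0 : 0 ≤ σ / (E.θ / 2 ^ (n + 1)) := by positivity
  have a1 : σ / (E.θ / 2 ^ (n + 1)) ≤ 1 := (div_le_one h0).2 h2
  generalize σ / (E.θ / 2 ^ (n + 1)) = a at *
  have k1 := abs_le.1 (hc.lim n)
  have k2 := abs_le.1 (hc.lim (n + 1))
  have k3 := h.lev_le_eps n
  have k4 := h.lev_le_eps (n + 1)
  have k5 := lev_half E.θ n
  have k6 : (E.B + 1) * (E.θ / 2 ^ n) = 2 * ((E.B + 1) * (E.θ / 2 ^ (n + 1))) := by
    rw [k5]; ring
  refine max_le (by linarith) (abs_le.2 ⟨?_, ?_⟩) <;> nlinarith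

theorem Good.lim_mem (h : E.Good) {k : ℕ} {d : Bool} {l : ℝ} {S : Set (ℝ × ℝ)}
    (hS : ∀ N, ∃ n ≥ N, ∃ y, (xp E.G k d (E.θ / 2 ^ n), y) ∈ S ∧
      |y - l| ≤ (E.B + 1) * (E.θ / 2 ^ n)) : (E.G.a k, l) ∈ closure S := by
  rw [Metric.mem_closure_iff]
  intro ε hε
  obtain ⟨N, hN⟩ := eventually_atTop.1 (h.eps.eventually_lt_const hε)
  obtain ⟨n, hn, y, h1, h2⟩ := hS N
  refine ⟨_, h1, ?_⟩
  rw [dist_comm, dist_xp _ _ _ (lev_pos h.hS.pos n).le]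
  exact (max_le (h.lev_le_eps n) h2).trans_lt (hN n hn)

theorem Good.CS_conn (h : E.Good) {Z : ℕ} {c : Crv} (hc : E.COK Z c) :
    IsPreconnected (E.CS c) := by
  have h1 : IsPreconnected (⋃ n, E.lp c n) := IsPreconnected.iUnion_of_chain
    (fun n => pc_conn _ _ _ _ _ _ _) fun n => ⟨_, pc_start _ _ _ _ _ _ (lev_pos h.hS.pos _).le,
      h.lp_stop c (n + 1)⟩
  refine h1.subset_closure (fun z hz => Or.inr (mem_iUnion.1 hz)) ?_
  rintro z (rfl | hz)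
  · exact h.lim_mem fun N => ⟨N, le_rfl, _, mem_iUnion.2 ⟨N, h.lp_stop c N⟩, hc.lim N⟩
  · exact subset_closure (mem_iUnion.2 hz)

theorem Good.lp_SG (h : E.Good) {Z : ℕ} {c : Crv} (hc : E.COK Z c) (n : ℕ) :
    ∀ z ∈ E.lp c n, SG E.X E.G E.J E.θ Z z := by
  rintro _ ⟨σ, ⟨h1, h2⟩, rfl⟩
  have h0 := lev_pos h.hS.pos (n + 1)
  have k5 := lev_half E.θ n
  have k6 := lev_le h.hS.pos n
  have k7 := lt_hw h.hS hc.r1 hc.r2
  refine SG_of_Ch (π := c.π) h.hG h.hS hc.r1 hc.r2 hc.sp (by linarith) (by linarith)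
    fun C hC up => ?_
  obtain ⟨κ, β, hκ⟩ := h.hS.aff C hC up c.k (k_lt hc.r2) c.d n
  have a0 : 0 ≤ σ / (E.θ / 2 ^ (n + 1)) := by positivity
  have a1 : σ / (E.θ / 2 ^ (n + 1)) ≤ 1 := (div_le_one h0).2 h2
  have e : FS E.G E.J E.θ C up c.k c.d (E.θ / 2 ^ (n + 1) + σ) =
      (1 - σ / (E.θ / 2 ^ (n + 1))) * th E.G E.J E.θ C up c.k c.d (E.θ / 2 ^ (n + 1)) +
        σ / (E.θ / 2 ^ (n + 1)) * th E.G E.J E.θ C up c.k c.d (E.θ / 2 ^ n) := by
    rw [FS_thin h.hS hc.r1 hc.r2 _ _ (by linarith), hκ _ (by linarith) (by linarith),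
      hκ _ le_rfl (by linarith), hκ _ (by linarith) le_rfl, k5]
    have := h0.ne'
    generalize E.θ / 2 ^ (n + 1) = δ at *
    field_simp
    ring
  simp only
  rw [e, h.lp_par]
  exact ⟨fun l => comb_lt a0 a1 ((hc.ch (n + 1) C hC up).1 l) ((hc.ch n C hC up).1 l),
    fun l => comb_lt a0 a1 ((hc.ch (n + 1) C hC up).2 l) ((hc.ch n C hC up).2 l)⟩

theorem Good.ev_LO (h : E.Good) {Z k r : ℕ} (hZ : Z < E.X.n) (hk : k < E.X.K) (hr : r < E.X.R)
    (hm : E.G.mem Z k r) : E.LO Z (E.G.a k, E.G.H k r) := fun C hC hv =>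
  ⟨fun l => by
    obtain ⟨a1, a2, a3, a4⟩ := h.hG.mnt Z hZ C hC hv l k hk r hr hm
    exact int_line h.hG h.hS hC hv hk a1 a2 a3 a4,
  fun l hz => by
    obtain ⟨a1, a2, a3⟩ := line_of_mem h.hG h.hS hC hv hz hk rfl
    rcases h.hG.mdc' Z hZ C hC hv l k hk r hr hm a1 with a | a
    · exact a.not_ge a2
    · exact a.not_ge a3⟩

theorem Good.eps_lt (h : E.Good) (n : ℕ) : (E.B + 1) * (E.θ / 2 ^ n) < E.ρ := by
  have := lev_le h.hS.pos n
  have := h.hS.Bpos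
  have := h.hS.zone
  nlinarith

theorem Good.loc (h : E.Good) {e : Str} (he : e ∈ E.X.SS) (ha : E.G.act e) (τ : Bool) :
    e.1 < E.X.n ∧ locK e τ < E.X.K ∧ locR e τ < E.X.R ∧ E.G.mem e.1 (locK e τ) (locR e τ) := by
  have ok := (h.hG.ends e he ha τ).1
  have := ok.2.1
  simp only [endS] at this
  exact ⟨((E.X.mem_SS e).1 he).1, k_lt ok.2.2.2.1, by omega, (h.hG.act_ok e he ha).2.1 τ⟩

theorem Good.tag_ev (h : E.Good) {Z k r : ℕ} (hk : k < E.X.K) (hr : r < E.X.R)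
    (hm : E.G.mem Z k r) {y : ℝ} (hy : |y - E.G.H k r| < E.ρ) : E.Tag Z k (2 * r + 1) y := by
  have q2 : (2 * r + 1) / 2 = r := by omega
  exact ⟨by omega, by omega, hk, Or.inl ⟨by omega, by rwa [q2], by rwa [q2]⟩⟩

theorem Good.vid_vh (h : E.Good) {n : ℕ} {i : Str × Bool × Option ℕ} (hi : Vid E.X E.G E.J n i)
    {Z : ℕ} (hZ : Z < E.X.n) (hs : E.G.sub i.1.1 Z) : E.VH Z (locK i.1 i.2.1) n (E.yv n i) := by
  obtain ⟨a1, a2, a3, a4⟩ := h.loc hi.1 hi.2.1 i.2.1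
  exact ⟨_, h.tag_ev a2 a3 (h.hG.msub _ a1 _ hZ hs _ a2 _ a3 a4)
    ((((h.sel n).2 i hi).1).trans (h.eps_lt n)), fun _ => ⟨i, hi, hs, rfl⟩⟩

theorem Good.tail_ok (h : E.Good) {Z : ℕ} (hZ : Z < E.X.n) {e : Str} (he : e ∈ E.X.SS)
    (ha : E.G.act e) (hc : E.X.con Z = true) (hs : E.G.sub e.1 Z) (τ : Bool) :
    E.COK Z (E.tailC Z e τ) := by
  classical
  obtain ⟨a1, a2, a3, a4⟩ := h.loc he ha τ
  have hm := h.hG.msub _ a1 _ hZ hs _ a2 _ a3 a4
  have ok := (h.hG.ends e he ha τ).1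
  have vid : ∀ n, Vid E.X E.G E.J n (e, τ, if E.J n = (e, τ) then none else some Z) := fun n => by
    refine ⟨he, ha, ?_, ?_⟩ <;> split_ifs with l <;> simp [*]
  have near : ∀ n, |(E.tailC Z e τ).Y n - E.G.H (locK e τ) (locR e τ)| <
      (E.B + 1) * (E.θ / 2 ^ n) := fun n => ((h.sel n).2 _ (vid n)).1
  refine ⟨ok.2.2.1, ok.2.2.2.1, fun C hC hv l => (ok.2.2.2.2 C hC).1 hv
    (h.hT.sub_trans _ a1 _ hZ _ hC hs l), fun n => ?_, fun n a a0 a1 => h.tag_ev a2 a3 hm ?_,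
    h.tag_ev a2 a3 hm (by simpa [tailC] using h.rho_pos), fun n => h.vid_vh (vid n) hZ hs,
    fun n => (near n).le, h.ev_LO hZ a2 a3 hm⟩
  · have := ((h.sel n).2 _ (vid n)).2
    by_cases l : E.J n = (e, τ)
    · simp only [tailC, l, if_true, Option.getD_none] at this ⊢
      exact this.mono h.hT a1 hZ hs
    · simp only [tailC, l, if_false, Option.getD_some] at this ⊢
      exact this
  · have k1 := abs_lt.1 ((near n).trans (h.eps_lt n))
    have k2 := abs_lt.1 ((near (n + 1)).trans (h.eps_lt (n + 1)))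
    have k3 := comb_lt a0 a1 k2.1 k1.1
    have k4 := comb_lt a0 a1 k2.2 k1.2
    exact abs_lt.2 ⟨by linarith, by linarith⟩

theorem Good.pass_ok (h : E.Good) {e : Str} (he : Act E.X E.G e) {m : ℕ} (h0 : 0 < m)
    (hm : m < E.N e) (d : Bool) : E.COK e.1 (E.passC e m d) := by
  have ok : ∀ d, Ok E.X E.G e ((E.o e m).k, (E.o e m).q, d) := fun d => by
    by_cases l : d = (E.o e m).d
    · rw [l]; exact (h.hD.al e he m hm).1
    · have := (h.hD.al e he (m - 1) (by omega)).2.1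
      rw [Nat.sub_add_cancel h0] at this
      rw [show d = !(E.o e m).d by revert l; cases d <;> cases (E.o e m).d <;> simp]
      exact this
  have hq := h.hD.gap e he m h0 hm
  obtain ⟨o1, o2, o3, o4, o5⟩ := ok d
  have hk : (E.o e m).k < E.X.K := k_lt o4
  have bd := h.Yv_bd hk o1 o2 hq (E.o e m).h
  have tg : E.Tag e.1 (E.o e m).k (E.o e m).q (E.Yv (E.o e m).k (E.o e m).q (E.o e m).h) :=
    ⟨o1, o2, hk, Or.inr ⟨hq, e, m, he, rfl, hm.le, rfl⟩⟩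
  have hZ := ((E.X.mem_SS e).1 he.1).1
  have r := h.rho_pos
  refine ⟨o3, o4, fun C hC => (o5 C hC).1, fun n C hC up => ?_, fun n a _ _ => ?_, tg,
    fun n => ⟨_, tg, fun l => by omega⟩, fun n => ?_, fun C hC hv => ⟨fun l => ?_, fun l hz => ?_⟩⟩
  · have k1 := abs_le.1 (h.hS.near C hC up _ hk d _ (lev_pos h.hS.pos n).le)
    have k2 := h.eps_lt n
    have k3 := lev_pos h.hS.pos n
    refine ⟨fun l => ?_, fun l => ?_⟩
    · have := ((o5 C hC).2 up).1 l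
      simp only [passC] at this ⊢
      linarith [bd.1, k1.2]
    · have := ((o5 C hC).2 up).2 l
      simp only [passC] at this ⊢
      linarith [bd.2, k1.1]
  · simp only [passC]
    convert tg using 1
    ring
  · simp only [passC, sub_self, abs_zero]
    exact (lev_pos h.hS.pos n).le.trans (h.lev_le_eps n)
  · have l' := (h.hT.nt_sub _ hZ _ hC l).1
    have k1 := ((o5 C hC).2 false).1 ⟨hv, l'⟩
    have k2 := ((o5 C hC).2 true).2 ⟨hv, l'⟩
    simp only at k1 k2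
    exact int_line h.hG h.hS hC hv hk (((ok false).2.2.2.2 C hC).1 hv l')
      (((ok true).2.2.2.2 C hC).1 hv l') (by simp only [passC]; linarith [bd.1])
      (by simp only [passC]; linarith [bd.2])
  · have l' := h.hT.dc_io _ hZ _ hC l
    obtain ⟨a1, a2, a3⟩ := line_of_mem h.hG h.hS hC hv hz hk rfl
    obtain ⟨d', a4⟩ : ∃ d', E.G.sp C (clk (E.o e m).k d') :=
      a1.elim (fun a => ⟨false, a⟩) fun a => ⟨true, a⟩
    simp only [passC] at a2 a3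
    by_cases hp : E.G.abv e ((E.o e m).k, (E.o e m).q, d') C
    · have := (((ok d').2.2.2.2 C hC).2 true).1 ⟨hv, l', a4, hp⟩
      simp only at this
      linarith [bd.1]
    · have := (((ok d').2.2.2.2 C hC).2 false).2 ⟨hv, l', a4, hp⟩
      simp only at this
      linarith [bd.2]

end Dat

end Pool.Agent.Lib.MP_02e8f2_lc
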