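import Pool.Agent.Lib.MP_02e8f2_lc.Small

/-!
The convex sets built from a certificate.
-/

set_option autoImplicit false

namespace Pool.Agent.Lib.MP_02e8f2_lc

open Set Filter Topology

theorem lin_eq {α₀ α₁ θ x : ℝ} (hw : 2 * θ < α₁ - α₀) (h : α₀ + θ ≤ x) (h' : x ≤ α₁ - θ) :
    ∃ l : ℝ, 0 ≤ l ∧ l ≤ 1 ∧ ∀ y₀ y₁, lin α₀ α₁ θ y₀ y₁ x = (1 - l) * y₀ + l * y₁ :=
  ⟨(x - α₀ - θ) / (α₁ - α₀ - 2 * θ), div_nonneg (by linarith) (by linarith),
    (div_le_one (by linarith)).2 (by linarith), fun y₀ y₁ => by rw [lin]; ring⟩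

theorem glue_le {α₀ α₁ θ x : ℝ} {f₀ f₁ g₀ g₁ : ℝ → ℝ} (h0 : 0 < θ) (hw : 2 * θ < α₁ - α₀)
    (k₀ : ∀ t, 0 ≤ t → t ≤ θ → f₀ t ≤ g₀ t) (k₁ : ∀ t, 0 ≤ t → t ≤ θ → f₁ t ≤ g₁ t)
    (h : α₀ ≤ x) (h' : x ≤ α₁) : glue α₀ α₁ θ f₀ f₁ x ≤ glue α₀ α₁ θ g₀ g₁ x := by
  rcases le_total x (α₀ + θ) with h1 | h1
  · rw [glue_left h1, glue_left h1]; exact k₀ _ (by linarith) (by linarith)
  rcases le_total x (α₁ - θ) with h2 | h2
  · obtain ⟨l, l0, l1, e⟩ := lin_eq hw h1 h2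
    rw [glue_mid hw h1 h2, glue_mid hw h1 h2, e, e]
    have := k₀ θ h0.le le_rfl
    have := k₁ θ h0.le le_rfl
    have : 0 ≤ 1 - l := by linarith
    gcongr
  · rw [glue_right hw h2, glue_right hw h2]; exact k₁ _ (by linarith) (by linarith)

theorem comb_lt {l a b a' b' : ℝ} (l0 : 0 ≤ l) (l1 : l ≤ 1) (h : a < a') (h' : b < b') :
    (1 - l) * a + l * b < (1 - l) * a' + l * b' := by
  rcases l0.eq_or_lt with rfl | l0
  · simpa using h
  · nlinarith [mul_le_mul_of_nonneg_left h.le (sub_nonneg.2 l1), mul_lt_mul_of_pos_left h' l0]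

theorem glue_lt {α₀ α₁ θ x : ℝ} {f₀ f₁ g₀ g₁ : ℝ → ℝ} (h0 : 0 < θ) (hw : 2 * θ < α₁ - α₀)
    (k₀ : ∀ t, 0 ≤ t → t ≤ θ → f₀ t < g₀ t) (k₁ : ∀ t, 0 ≤ t → t ≤ θ → f₁ t < g₁ t)
    (h : α₀ ≤ x) (h' : x ≤ α₁) : glue α₀ α₁ θ f₀ f₁ x < glue α₀ α₁ θ g₀ g₁ x := by
  rcases le_total x (α₀ + θ) with h1 | h1
  · rw [glue_left h1, glue_left h1]; exact k₀ _ (by linarith) (by linarith)
  rcases le_total x (α₁ - θ) with h2 | h2
  · obtain ⟨l, l0, l1, e⟩ := lin_eq hw h1 h2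
    rw [glue_mid hw h1 h2, glue_mid hw h1 h2, e, e]
    exact comb_lt l0 l1 (k₀ θ h0.le le_rfl) (k₁ θ h0.le le_rfl)
  · rw [glue_right hw h2, glue_right hw h2]; exact k₁ _ (by linarith) (by linarith)

theorem lt_of_succ {f : ℕ → ℝ} {K : ℕ} (h : ∀ k < K, k + 1 < K → f k < f (k + 1)) {i j : ℕ}
    (hij : i < j) (hj : j < K) : f i < f j := by
  induction j, hij using Nat.le_induction with
  | base => exact h i (by omega) hj
  | succ j _ ih => exact (ih (by omega)).trans (h j (by omega) hj)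

theorem le_of_succ {f : ℕ → ℝ} {K : ℕ} (h : ∀ k < K, k + 1 < K → f k < f (k + 1)) {i j : ℕ}
    (hij : i ≤ j) (hj : j < K) : f i ≤ f j := by
  rcases hij.eq_or_lt with rfl | hij
  · exact le_rfl
  · exact (lt_of_succ h hij hj).le

theorem lt_of_val {f : ℕ → ℝ} {K : ℕ} (h : ∀ k < K, k + 1 < K → f k < f (k + 1)) {i j : ℕ}
    (hi : i < K) (hij : f i < f j) : i < j := by
  by_contra hc
  exact absurd (le_of_succ h (not_lt.1 hc) hi) hij.not_ge

theorem find_cell {f : ℕ → ℝ} {x : ℝ} {i j : ℕ} (hij : i ≤ j) (h : f i ≤ x) (h' : x ≤ f (j + 1)) :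
    ∃ c, i ≤ c ∧ c ≤ j ∧ f c ≤ x ∧ x ≤ f (c + 1) := by
  induction j, hij using Nat.le_induction with
  | base => exact ⟨i, le_rfl, le_rfl, h, h'⟩
  | succ j hj ih =>
    rcases le_total x (f (j + 1)) with h1 | h1
    · obtain ⟨c, h2, h3, h4⟩ := ih h1
      exact ⟨c, h2, by omega, h4⟩
    · exact ⟨j + 1, by omega, le_rfl, h1, h'⟩

/-- The convex set of the node `C`. -/
def KC (X : Ctx) (G : GD) (J : ℕ → Str × Bool) (θ : ℝ) (C : ℕ) : Set (ℝ × ℝ) :=
  {z | (∃ c, c + 1 < X.K ∧ G.sp C (c + 1) ∧ G.a c ≤ z.1) ∧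
    (∃ c, c + 1 < X.K ∧ G.sp C (c + 1) ∧ z.1 ≤ G.a (c + 1)) ∧
    ∀ c, c + 1 < X.K → G.sp C (c + 1) →
      FF G J θ C false c z.1 ≤ z.2 ∧ z.2 ≤ FF G J θ C true c z.1}

variable {X : Ctx} {G : GD} {J : ℕ → Str × Bool} {θ ρ B : ℝ}

theorem FF_left (C : ℕ) (up : Bool) (c : ℕ) {t : ℝ} (ht : t ≤ θ) :
    FF G J θ C up c (G.a c + t) = th G J θ C up c true t := by
  rw [FF, glue_left (by linarith)]; simp

theorem FF_right (hS : Small X G J θ ρ B) (C : ℕ) (up : Bool) {c : ℕ} (hc : c + 1 < X.K) {t : ℝ}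
    (ht : t ≤ θ) : FF G J θ C up c (G.a (c + 1) - t) = th G J θ C up (c + 1) false t := by
  rw [FF, glue_right (hS.wid c (by omega) hc) (by linarith)]; simp

theorem FF_at_left (hS : Small X G J θ ρ B) (C : ℕ) (up : Bool) (c : ℕ) :
    FF G J θ C up c (G.a c) = G.φ C up c := by
  have := FF_left (G := G) (J := J) C up c hS.pos.le (t := 0)
  rw [hS.neg _ _ _ _ _ le_rfl] at this
  simpa using this

theorem FF_at_right (hS : Small X G J θ ρ B) (C : ℕ) (up : Bool) {c : ℕ} (hc : c + 1 < X.K) :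
    FF G J θ C up c (G.a (c + 1)) = G.φ C up (c + 1) := by
  have := FF_right hS C up hc hS.pos.le (t := 0)
  rw [hS.neg _ _ _ _ _ le_rfl] at this
  simpa using this

theorem FF_le (hS : Small X G J θ ρ B) {C D : ℕ} (hC : C < X.n) (hD : D < X.n) {up up' : Bool}
    {c : ℕ} (hc : c + 1 < X.K) (h : LE' X G C up D up' c true)
    (h' : LE' X G C up D up' (c + 1) false) {x : ℝ} (hx : G.a c ≤ x) (hx' : x ≤ G.a (c + 1)) :
    FF G J θ C up c x ≤ FF G J θ D up' c x :=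
  glue_le hS.pos (hS.wid c (by omega) hc) (hS.le C hC up D hD up' c (by omega) true h)
    (hS.le C hC up D hD up' _ hc false h') hx hx'

theorem FF_lt (hS : Small X G J θ ρ B) {C D : ℕ} (hC : C < X.n) (hD : D < X.n) {up up' : Bool}
    {c : ℕ} (hc : c + 1 < X.K) (h : G.φ C up c < G.φ D up' c)
    (h' : G.φ C up (c + 1) < G.φ D up' (c + 1)) {x : ℝ} (hx : G.a c ≤ x)
    (hx' : x ≤ G.a (c + 1)) : FF G J θ C up c x < FF G J θ D up' c x :=
  glue_lt hS.pos (hS.wid c (by omega) hc) (hS.lt0 C hC up D hD up' c (by omega) true h)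
    (hS.lt0 C hC up D hD up' _ hc false h') hx hx'

theorem LE'.le {C D : ℕ} {up up' : Bool} {k : ℕ} {d : Bool} (h : LE' X G C up D up' k d) :
    G.φ C up k ≤ G.φ D up' k := h.elim le_of_lt fun h => h.1.le

section

variable (hG : Geo X G) (hS : Small X G J θ ρ B) {C : ℕ} (hC : C < X.n) (hv : X.cvx C = true)
include hG hS hC hv

theorem FF_chain (up : Bool) {c c' : ℕ} (hc : c ≤ c') (hK : c' + 1 < X.K) (h : G.sp C (c + 1))
    (h' : G.sp C (c' + 1)) (x : ℝ) :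
    (x ≤ G.a (c + 1) → sg up * FF G J θ C up c x ≤ sg up * FF G J θ C up c' x) ∧
    (G.a c' ≤ x → sg up * FF G J θ C up c' x ≤ sg up * FF G J θ C up c x) := by
  induction c', hc using Nat.le_induction with
  | base => exact ⟨fun _ => le_rfl, fun _ => le_rfl⟩
  | succ j hj ih =>
    have hs : G.sp C (j + 1) := by
      rcases hj.eq_or_lt with rfl | hj
      · exact h
      · exact hG.sp_int C hC hv (c + 1) (by omega) (j + 1) (by omega) _ hK (by omega) (by omega) h h'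
    have ih' := ih (by omega) hs
    have kk := hG.kink C hC hv (j + 1) (by omega) hs h' up
    constructor
    · intro hx
      have h1 : x ≤ G.a (j + 1) := hx.trans (le_of_succ hG.a_lt (by omega) (by omega))
      refine (ih'.1 hx).trans ((((hS.conc C hC hv j (by omega) hs up).2.2 x).2).trans ?_)
      have e := FF_left (G := G) (J := J) (θ := θ) C up (j + 1) (t := x - G.a (j + 1))
        (by linarith [hS.pos])
      rw [add_sub_cancel, hS.neg _ _ _ _ _ (by linarith)] at e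
      rw [e]
      nlinarith [mul_nonneg (neg_nonneg.2 kk) (sub_nonneg.2 h1)]
    · intro hx
      have h1 : G.a j ≤ x := (hG.a_lt j (by omega) (by omega)).le.trans hx
      refine le_trans ((((hS.conc C hC hv (j + 1) (by omega) h' up).2.2 x).1).trans ?_) (ih'.2 h1)
      have e := FF_right hS C up (c := j) (by omega) (t := G.a (j + 1) - x) (by linarith [hS.pos])
      rw [sub_sub_cancel, hS.neg _ _ _ _ _ (by linarith)] at e
      rw [e]
      nlinarith [mul_nonneg (neg_nonneg.2 kk) (sub_nonneg.2 hx)]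

theorem mem_KC {c : ℕ} (hc : c + 1 < X.K) (h : G.sp C (c + 1)) {z : ℝ × ℝ} (hz : G.a c ≤ z.1)
    (hz' : z.1 ≤ G.a (c + 1)) :
    z ∈ KC X G J θ C ↔ FF G J θ C false c z.1 ≤ z.2 ∧ z.2 ≤ FF G J θ C true c z.1 := by
  refine ⟨fun k => k.2.2 c hc h, fun k => ⟨⟨c, hc, h, hz⟩, ⟨c, hc, h, hz'⟩, fun c' hc' h' => ?_⟩⟩
  have : ∀ up, sg up * FF G J θ C up c z.1 ≤ sg up * FF G J θ C up c' z.1 := fun up => by
    rcases le_total c c' with h1 | h1
    · exact (FF_chain hG hS hC hv up h1 hc' h h' _).1 hz'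
    · exact (FF_chain hG hS hC hv up h1 hc h' h _).2 hz
  have h1 := this true
  have h2 := this false
  simp only [sg_true, sg_false] at h1 h2
  exact ⟨by linarith [k.1], by linarith [k.2]⟩

omit hS in
theorem cell_of_mem {z : ℝ × ℝ} (hz : z ∈ KC X G J θ C) :
    ∃ c, c + 1 < X.K ∧ G.sp C (c + 1) ∧ G.a c ≤ z.1 ∧ z.1 ≤ G.a (c + 1) := by
  obtain ⟨⟨c₁, h1, h2, h3⟩, ⟨c₂, h4, h5, h6⟩, -⟩ := hz
  rcases le_or_gt c₁ c₂ with h | h
  · obtain ⟨c, k1, k2, k3⟩ := find_cell h h3 h6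
    refine ⟨c, by omega, ?_, k3⟩
    rcases k1.eq_or_lt with rfl | k1
    · exact h2
    rcases k2.eq_or_lt with rfl | k2
    · exact h5
    exact hG.sp_int C hC hv _ h1 _ (by omega) _ h4 (by omega) (by omega) h2 h5
  · exact ⟨c₁, h1, h2, h3, h6.trans (le_of_succ hG.a_lt (by omega) h1)⟩

omit hS in
theorem sp_of_open {z : ℝ × ℝ} (hz : z ∈ KC X G J θ C) {c : ℕ} (hc : c + 1 < X.K)
    (h : G.a c < z.1) (h' : z.1 < G.a (c + 1)) : G.sp C (c + 1) := by
  obtain ⟨c', h1, h2, h3, h4⟩ := cell_of_mem hG hC hv hz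
  have k1 := lt_of_val hG.a_lt (by omega : c < X.K) (h.trans_le h4)
  have k2 := lt_of_val hG.a_lt (by omega : c' < X.K) (h3.trans_lt h')
  obtain rfl : c = c' := by omega
  exact h2

theorem line_of_mem {z : ℝ × ℝ} (hz : z ∈ KC X G J θ C) {k : ℕ} (hk : k < X.K) (h : z.1 = G.a k) :
    (G.sp C k ∨ G.sp C (k + 1)) ∧ G.φ C false k ≤ z.2 ∧ z.2 ≤ G.φ C true k := by
  obtain ⟨c, h1, h2, h3, h4⟩ := cell_of_mem hG hC hv hz
  have kk := hz.2.2 c h1 h2
  have k1 : ¬ k < c := fun hc => by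
    have := lt_of_succ hG.a_lt hc (by omega : c < X.K); linarith
  have k2 : ¬ c + 1 < k := fun hc => by
    have := lt_of_succ hG.a_lt hc hk; linarith
  rcases (by omega : k = c ∨ k = c + 1) with rfl | rfl
  · rw [h, FF_at_left hS, FF_at_left hS] at kk
    exact ⟨Or.inr h2, kk⟩
  · rw [h, FF_at_right hS _ _ h1, FF_at_right hS _ _ h1] at kk
    exact ⟨Or.inl h2, kk⟩

omit hS in
theorem sp_succ {c : ℕ} (hc : c ≤ X.K) (h : G.sp C c) : ∃ c', c = c' + 1 ∧ c' + 1 < X.K := by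
  have := hG.sp_real C hC hv
  rcases c with _ | c
  · exact absurd h this.1
  · exact ⟨c, rfl, lt_of_le_of_ne hc fun e => this.2 (e ▸ h)⟩

theorem mem_line {k : ℕ} (hk : k < X.K) (h : G.sp C k ∨ G.sp C (k + 1)) {y : ℝ}
    (h1 : G.φ C false k ≤ y) (h2 : y ≤ G.φ C true k) : (G.a k, y) ∈ KC X G J θ C := by
  rcases h with h | h
  · obtain ⟨c, rfl, hc⟩ := sp_succ hG hC hv hk.le h
    rw [mem_KC hG hS hC hv hc h (hG.a_lt c (by omega) hc).le le_rfl, FF_at_right hS _ _ hc,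
      FF_at_right hS _ _ hc]
    exact ⟨h1, h2⟩
  · obtain ⟨c, e, hc⟩ := sp_succ hG hC hv hk h
    obtain rfl : k = c := by omega
    rw [mem_KC hG hS hC hv hc h le_rfl (hG.a_lt k hk hc).le, FF_at_left hS, FF_at_left hS]
    exact ⟨h1, h2⟩

theorem open_strict {c : ℕ} (hc : c + 1 < X.K) (h : G.sp C (c + 1)) :
    IsOpen {z : ℝ × ℝ | FF G J θ C false c z.1 < z.2 ∧ z.2 < FF G J θ C true c z.1} := by
  have h1 := (hS.conc C hC hv c (by omega) h false).2.1
  have h2 := (hS.conc C hC hv c (by omega) h true).2.1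
  exact (isOpen_lt (h1.comp continuous_fst) continuous_snd).and
    (isOpen_lt continuous_snd (h2.comp continuous_fst))

theorem int_open {c : ℕ} (hc : c + 1 < X.K) (h : G.sp C (c + 1)) {z : ℝ × ℝ} (hz : G.a c < z.1)
    (hz' : z.1 < G.a (c + 1)) (h1 : FF G J θ C false c z.1 < z.2)
    (h2 : z.2 < FF G J θ C true c z.1) : z ∈ interior (KC X G J θ C) := by
  have ho : IsOpen {z : ℝ × ℝ | G.a c < z.1 ∧ z.1 < G.a (c + 1)} :=
    (isOpen_lt continuous_const continuous_fst).and (isOpen_lt continuous_fst continuous_const)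
  refine mem_interior.2 ⟨_, fun w hw => ?_, ho.inter (open_strict hG hS hC hv hc h),
    ⟨hz, hz'⟩, h1, h2⟩
  exact (mem_KC hG hS hC hv hc h hw.1.1.le hw.1.2.le).2 ⟨hw.2.1.le, hw.2.2.le⟩

theorem int_line {k : ℕ} (hk : k < X.K) (h : G.sp C k) (h' : G.sp C (k + 1)) {y : ℝ}
    (h1 : G.φ C false k < y) (h2 : y < G.φ C true k) :
    (G.a k, y) ∈ interior (KC X G J θ C) := by
  obtain ⟨c, rfl, hc⟩ := sp_succ hG hC hv hk.le h
  obtain ⟨c', e, hc'⟩ := sp_succ hG hC hv hk h'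
  obtain rfl : c' = c + 1 := by omega
  have ho : IsOpen {z : ℝ × ℝ | G.a c < z.1 ∧ z.1 < G.a (c + 1 + 1)} :=
    (isOpen_lt continuous_const continuous_fst).and (isOpen_lt continuous_fst continuous_const)
  refine mem_interior.2 ⟨_, fun w hw => ?_, ho.inter ((open_strict hG hS hC hv hc h).inter
    (open_strict hG hS hC hv hc' h')), ⟨hG.a_lt c (by omega) hc, hG.a_lt _ hc hc'⟩, ?_, ?_⟩
  · rcases le_total w.1 (G.a (c + 1)) with h3 | h3
    · exact (mem_KC hG hS hC hv hc h hw.1.1.le h3).2 ⟨hw.2.1.1.le, hw.2.1.2.le⟩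
    · exact (mem_KC hG hS hC hv hc' h' h3 hw.1.2.le).2 ⟨hw.2.2.1.le, hw.2.2.2.le⟩
  · simp only [mem_ofPred_eq, FF_at_right hS _ _ hc]; exact ⟨h1, h2⟩
  · simp only [mem_ofPred_eq, FF_at_left hS]; exact ⟨h1, h2⟩

omit hG in
theorem KC_closed : IsClosed (KC X G J θ C) := by
  have fin : ∀ p : ℕ → Set (ℝ × ℝ), (∀ c, IsClosed (p c)) →
      IsClosed {z | ∃ c, c + 1 < X.K ∧ G.sp C (c + 1) ∧ z ∈ p c} := fun p hp => by
    have : {z | ∃ c, c + 1 < X.K ∧ G.sp C (c + 1) ∧ z ∈ p c} =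
        ⋃ c ∈ {c | c + 1 < X.K ∧ G.sp C (c + 1)}, p c := by ext; simp [and_assoc]
    rw [this]
    exact ((finite_Iio X.K).subset fun c hc => by have := hc.1; simp; omega).isClosed_biUnion
      fun c _ => hp c
  refine (fin (fun c => {z | G.a c ≤ z.1}) fun c => isClosed_le (by fun_prop) (by fun_prop)).inter
    ((fin (fun c => {z | z.1 ≤ G.a (c + 1)}) fun c => isClosed_le (by fun_prop) (by fun_prop)).inter
      ?_)
  have : IsClosed (⋂ c, ⋂ (_ : c + 1 < X.K), ⋂ (_ : G.sp C (c + 1)), {z : ℝ × ℝ |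
      FF G J θ C false c z.1 ≤ z.2 ∧ z.2 ≤ FF G J θ C true c z.1}) := by
    refine isClosed_iInter fun c => isClosed_iInter fun hc => isClosed_iInter fun h => ?_
    have h1 := (hS.conc C hC hv c (by omega) h false).2.1
    have h2 := (hS.conc C hC hv c (by omega) h true).2.1
    exact (isClosed_le (h1.comp continuous_fst) continuous_snd).and
      (isClosed_le continuous_snd (h2.comp continuous_fst))
  convert this using 1
  ext z
  simp only [mem_iInter, mem_ofPred_eq]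
  rfl

omit hG in
theorem KC_convex : Convex ℝ (KC X G J θ C) := by
  rintro z ⟨⟨c₁, h1, h2, h3⟩, ⟨c₂, h4, h5, h6⟩, h7⟩ w ⟨⟨d₁, k1, k2, k3⟩, ⟨d₂, k4, k5, k6⟩, k7⟩
    a b ha hb hab
  obtain rfl : b = 1 - a := by linarith
  refine ⟨?_, ?_, fun c hc h => ?_⟩
  · rcases le_total (G.a c₁) (G.a d₁) with h | h
    · exact ⟨c₁, h1, h2, by simp; nlinarith⟩
    · exact ⟨d₁, k1, k2, by simp; nlinarith⟩
  · rcases le_total (G.a (c₂ + 1)) (G.a (d₂ + 1)) with h | h
    · exact ⟨d₂, k4, k5, by simp; nlinarith⟩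
    · exact ⟨c₂, h4, h5, by simp; nlinarith⟩
  · have e1 := (hS.conc C hC hv c (by omega) h false).1.2 (mem_univ z.1) (mem_univ w.1) ha hb hab
    have e2 := (hS.conc C hC hv c (by omega) h true).1.2 (mem_univ z.1) (mem_univ w.1) ha hb hab
    have e3 := h7 c hc h
    have e4 := k7 c hc h
    simp only [sg_true, sg_false, smul_eq_mul, Prod.fst_add, Prod.smul_fst, Prod.snd_add,
      Prod.smul_snd] at e1 e2 ⊢
    constructor <;> nlinarith [mul_le_mul_of_nonneg_left e3.1 ha, mul_le_mul_of_nonneg_left e3.2 ha,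
      mul_le_mul_of_nonneg_left e4.1 hb, mul_le_mul_of_nonneg_left e4.2 hb]

theorem KC_fat : (interior (KC X G J θ C)).Nonempty := by
  obtain ⟨c, hc, h⟩ := hG.sp_ex C hC hv
  obtain ⟨c, rfl, hc'⟩ := sp_succ hG hC hv hc.le h
  have h1 := hG.fat C hC hv c (by omega) true h
  have h2 := hS.lt C hC false C hC true c (by omega) true h1.1 h1.2 θ hS.pos le_rfl
  have h3 := hS.wid c (by omega) hc'
  have h4 := hS.pos
  refine ⟨(G.a c + θ, (th G J θ C false c true θ + th G J θ C true c true θ) / 2),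
    int_open hG hS hC hv hc' h (by simp; linarith) (by simp; linarith) ?_ ?_⟩ <;>
  · simp only [FF_left C _ c le_rfl]; linarith

variable {D : ℕ} (hD : D < X.n) (hv' : X.cvx D = true)
include hD hv'

theorem KC_sub (h : G.sub C D) : KC X G J θ C ⊆ KC X G J θ D := by
  intro z hz
  obtain ⟨c, h1, h2, h3, h4⟩ := cell_of_mem hG hC hv hz
  have k0 := hG.vsub C hC D hD hv hv' h c (by omega) true h2
  have k1 := hG.vsub C hC D hD hv hv' h (c + 1) h1 false h2
  have k := hz.2.2 c h1 h2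
  exact (mem_KC hG hS hD hv' h1 k0.1 h3 h4).2
    ⟨(FF_le hS hD hC h1 k0.2.1 k1.2.1 h3 h4).trans k.1,
      k.2.trans (FF_le hS hC hD h1 k0.2.2 k1.2.2 h3 h4)⟩

theorem KC_nt (h : G.nt C D) : KC X G J θ C ⊆ interior (KC X G J θ D) := by
  intro z hz
  obtain ⟨c, h1, h2, h3, h4⟩ := cell_of_mem hG hC hv hz
  have k0 := hG.vnt C hC D hD hv hv' h c (by omega) true h2
  have k1 := hG.vnt C hC D hD hv hv' h (c + 1) h1 false h2
  rcases h3.eq_or_lt with h3 | h3
  · have k := line_of_mem hG hS hC hv hz (by omega) h3.symm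
    have := int_line hG hS hD hv' (by omega) k0.1 k0.2.1 (k0.2.2.1.trans_le k.2.1)
      (k.2.2.trans_lt k0.2.2.2)
    rwa [h3] at this
  rcases h4.eq_or_lt with h4 | h4
  · have k := line_of_mem hG hS hC hv hz h1 h4
    have := int_line hG hS hD hv' h1 k1.1 k1.2.1 (k1.2.2.1.trans_le k.2.1)
      (k.2.2.trans_lt k1.2.2.2)
    rwa [← h4] at this
  have k := hz.2.2 c h1 h2
  exact int_open hG hS hD hv' h1 k0.2.1 h3 h4
    ((FF_lt hS hD hC h1 k0.2.2.1 k1.2.2.1 h3.le h4.le).trans_le k.1)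
    (k.2.trans_lt (FF_lt hS hC hD h1 k0.2.2.2 k1.2.2.2 h3.le h4.le))

theorem KC_io (h : G.io C D) : interior (KC X G J θ C) ∩ interior (KC X G J θ D) = ∅ := by
  by_contra hne
  obtain ⟨z, hz⟩ := nonempty_iff_ne_empty.2 hne
  obtain ⟨ε, hε, hb⟩ := Metric.isOpen_iff.1 (isOpen_interior.inter isOpen_interior) z hz
  obtain ⟨x, hx, hx'⟩ := (Ioo_infinite (by linarith : z.1 - ε < z.1 + ε)).exists_notMem_finset
    ((Finset.range X.K).image G.a)
  have hm : ∀ y, |y - z.2| < ε → (x, y) ∈ KC X G J θ C ∧ (x, y) ∈ KC X G J θ D := fun y hy => by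
    have := hb (show (x, y) ∈ Metric.ball z ε by
      rw [Metric.mem_ball, Prod.dist_eq, Real.dist_eq, Real.dist_eq]
      exact max_lt (abs_lt.2 ⟨by simp; linarith [hx.1], by simp; linarith [hx.2]⟩) hy)
    exact ⟨interior_subset this.1, interior_subset this.2⟩
  have m1 := hm z.2 (by simpa using hε)
  have m2 := hm (z.2 + ε / 2) (by rw [add_sub_cancel_left, abs_of_pos] <;> linarith)
  obtain ⟨c, h1, h2, h3, h4⟩ := cell_of_mem hG hC hv m1.1
  have n1 : G.a c ≠ x := fun e => hx' (Finset.mem_image.2 ⟨c, by simp; omega, e⟩)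
  have n2 : G.a (c + 1) ≠ x := fun e => hx' (Finset.mem_image.2 ⟨c + 1, by simpa using h1, e⟩)
  have h5 := sp_of_open hG hD hv' m1.2 h1 (lt_of_le_of_ne h3 n1) (lt_of_le_of_ne h4 n2.symm)
  rcases hG.vio C hC D hD hv hv' h c (by omega) h2 h5 with k | k
  · have := FF_le hS hC hD h1 k.1 k.2 h3 h4
    have k1 := (m2.1.2.2 c h1 h2).2
    have k2 := (m1.2.2.2 c h1 h5).1
    simp only at this k1 k2
    linarith
  · have := FF_le hS hD hC h1 k.1 k.2 h3 h4
    have k1 := (m2.2.2.2 c h1 h5).2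
    have k2 := (m1.1.2.2 c h1 h2).1
    simp only at this k1 k2
    linarith

theorem KC_dc (h : G.dc C D) (h' : G.io C D) : KC X G J θ C ∩ KC X G J θ D = ∅ := by
  by_contra hne
  obtain ⟨z, hz, hz'⟩ := nonempty_iff_ne_empty.2 hne
  have line : ∀ k < X.K, z.1 ≠ G.a k := fun k hk e => by
    obtain ⟨k1, k2⟩ := line_of_mem hG hS hC hv hz hk e
    obtain ⟨k3, k4⟩ := line_of_mem hG hS hD hv' hz' hk e
    obtain ⟨d, hd⟩ : ∃ d, G.sp C (clk k d) := k1.elim (fun h => ⟨false, h⟩) fun h => ⟨true, h⟩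
    obtain ⟨d', hd'⟩ : ∃ d, G.sp D (clk k d) := k3.elim (fun h => ⟨false, h⟩) fun h => ⟨true, h⟩
    rcases hG.vdc C hC D hD hv hv' h k hk d d' hd hd' with k | k <;> linarith [k2.1, k2.2, k4.1, k4.2]
  obtain ⟨c, h1, h2, h3, h4⟩ := cell_of_mem hG hC hv hz
  have h5 := sp_of_open hG hD hv' hz' h1 (lt_of_le_of_ne h3 (line c (by omega)).symm)
    (lt_of_le_of_ne h4 (line _ h1))
  have a0 := hG.vdc C hC D hD hv hv' h c (by omega) true true h2 h5
  have a1 := hG.vdc C hC D hD hv hv' h (c + 1) h1 false false h2 h5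
  have b0 := (hG.fat C hC hv c (by omega) true h2).1.le
  have b1 := (hG.fat C hC hv (c + 1) h1 false h2).1.le
  have c0 := (hG.fat D hD hv' c (by omega) true h5).1.le
  have c1 := (hG.fat D hD hv' (c + 1) h1 false h5).1.le
  have k1 := hz.2.2 c h1 h2
  have k2 := hz'.2.2 c h1 h5
  rcases hG.vio C hC D hD hv hv' h' c (by omega) h2 h5 with k | k
  · have := FF_lt hS hC hD h1 (a0.resolve_right (by linarith [k.1.le]))
      (a1.resolve_right (by linarith [k.2.le])) h3 h4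
    linarith [k1.2, k2.1]
  · have := FF_lt hS hD hC h1 (a0.resolve_left (by linarith [k.1.le]))
      (a1.resolve_left (by linarith [k.2.le])) h3 h4
    linarith [k1.1, k2.2]

end

end Pool.Agent.Lib.MP_02e8f2_lc
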