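import Pool.Agent.Lib.MP_acf5a6_lc.Defs

/-!
RCC8 networks with the predicates convex and connected, as a language of bit strings.
-/

set_option autoImplicit false

namespace Pool.Agent.Lib.MP_02e8f2_lc

/-- A region is a nonempty regular closed subset of the plane. -/
def IsRegion (A : Set (ℝ × ℝ)) : Prop := A.Nonempty ∧ A = closure (interior A)

/-- Tangential proper part. -/
def TPP (A B : Set (ℝ × ℝ)) : Prop := A ⊂ B ∧ ¬ A ⊆ interior B

/-- Non-tangential proper part. -/
def NTPP (A B : Set (ℝ × ℝ)) : Prop := A ⊆ interior B ∧ A ≠ B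

/-- Atoms over region variables `0, 1, 2, …`. -/
inductive Atom : Type
  | dc : ℕ → ℕ → Atom
  | ec : ℕ → ℕ → Atom
  | po : ℕ → ℕ → Atom
  | eq : ℕ → ℕ → Atom
  | tpp : ℕ → ℕ → Atom
  | ntpp : ℕ → ℕ → Atom
  | tppi : ℕ → ℕ → Atom
  | ntppi : ℕ → ℕ → Atom
  | convex : ℕ → Atom
  | connected : ℕ → Atom

/-- Truth of an atom under an assignment of sets to the variables. -/
def AtomHolds (R : ℕ → Set (ℝ × ℝ)) : Atom → Prop
  | .dc i j => R i ∩ R j = ∅
  | .ec i j => R i ∩ R j ≠ ∅ ∧ interior (R i) ∩ interior (R j) = ∅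
  | .po i j => interior (R i) ∩ interior (R j) ≠ ∅ ∧ ¬ R i ⊆ R j ∧ ¬ R j ⊆ R i
  | .eq i j => R i = R j
  | .tpp i j => TPP (R i) (R j)
  | .ntpp i j => NTPP (R i) (R j)
  | .tppi i j => TPP (R j) (R i)
  | .ntppi i j => NTPP (R j) (R i)
  | .convex i => Convex ℝ (R i)
  | .connected i => IsConnected (R i)

/-- An atom as a triple `(kind, first variable, second variable)`. -/
def atomCode : Atom → ℕ × ℕ × ℕ
  | .dc i j => (0, i, j)
  | .ec i j => (1, i, j)
  | .po i j => (2, i, j)
  | .eq i j => (3, i, j)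
  | .tpp i j => (4, i, j)
  | .ntpp i j => (5, i, j)
  | .tppi i j => (6, i, j)
  | .ntppi i j => (7, i, j)
  | .convex i => (8, i, 0)
  | .connected i => (9, i, 0)

/-- A network (a list of atoms, read as their conjunction) is satisfiable by regions. -/
def Satisfiable (N : List Atom) : Prop :=
  ∃ R : ℕ → Set (ℝ × ℝ), (∀ i, IsRegion (R i)) ∧ ∀ a ∈ N, AtomHolds R a

open Classical in
/-- The extended problem: binary codes of satisfiable networks. -/
noncomputable def RCC : N68a2faeb.DecisionProblem := fun s =>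
  decide (∃ N : List Atom, s = N487b59b3.bitEncode (N.map atomCode) ∧ Satisfiable N)

end Pool.Agent.Lib.MP_02e8f2_lc
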