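import Pool.Agent.Lib.MP_02e8f2_lc.FormB

/-!
The certificate as an existential formula.
-/

set_option autoImplicit false

namespace Pool.Agent.Lib.MP_02e8f2_lc

open Pool.Agent.Lib.MP_acf5a6_lc Pool.Agent.Lib.MP_242159_lc.Mem

/-- Five variables. -/
def tv (w : Ix → ℝ) (t : ℕ) (e f : Str) (a b c : ℕ) : Tu :=
  ⟨w (iy t e f a b c), w (iy (t + 1) e f a b c), w (iy (t + 2) e f a b c),
    w (iy (t + 3) e f a b c), w (iy (t + 4) e f a b c)⟩

/-- The word data read off a valuation. -/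
def wd (w : Ix → ℝ) : WD Str where
  n e c i i' := w (iy 16 e zS c i i')
  nd e f t := tv w 17 e f t 0 0
  x e f c i i' := tv w 22 e f c i i'
  cw e f c i t := tv w 27 e f c i t

/-- `Rule` with bounded quantifiers. -/
def Rule' (T : ℕ) (nd : ℕ → Tu) (t : ℕ) : Prop :=
  nd t = .eps ∨ nd t = .la ∨ nd t = .lb ∨ ∃ t₁ < T, t₁ < t ∧ (nd t = (nd t₁).rev ∨ ∃ t₂ < T,
    t₂ < t ∧ (nd t = (nd t₁).cat (nd t₂) ∨
      (nd t₁ = (nd t₂).cat (nd t) ∧ 1 ≤ (nd t).m ∧ 0 ≤ (nd t).v ∧ (nd t).v < (nd t).m)))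

theorem rule_iff (T : ℕ) (nd : ℕ → Tu) : (∀ t < T, Rule nd t) ↔ ∀ t < T, Rule' T nd t := by
  refine forall₂_congr fun t ht => ?_
  have h : ∀ p : ℕ → Prop, (∃ s < t, p s) ↔ ∃ s < T, s < t ∧ p s := fun p =>
    ⟨fun ⟨s, h1, h2⟩ => ⟨s, h1.trans ht, h1, h2⟩, fun ⟨s, _, h1, h2⟩ => ⟨s, h1, h2⟩⟩
  rw [Rule, Rule', h]
  refine or_congr_right (or_congr_right (or_congr_right (exists_congr fun s => ?_)))
  rw [h]

theorem df_Wrd : Df fun (L : Net) w => Wrd (parOf (ctxOf L) (gd w))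
    (TT (ctxOf L).K (2 * (2 * (ctxOf L).R)) (ctxOf L).SS.length) (wd w) := by
  refine Df.of_iff' (fun L w => ⟨fun h => And.intro h.1 <| And.intro h.2 <| And.intro h.3 <|
    And.intro h.4 <| And.intro h.5 <| And.intro h.6 <| And.intro h.7 <| And.intro h.8 <| And.intro
    h.9 <| And.intro h.10 <| And.intro h.11 <| h.12, fun ⟨h1, h2, h3, h4, h5, h6, h7, h8, h9, h10,
    h11, h12⟩ => ⟨h1, h2, h3, h4, h5, h6, h7, h8, h9, h10, h11, h12⟩⟩) ?_
  simp only [rule_iff, Rule', Par.G, parOf, ctx_K, ctx_R, ctx_SS, gd_dc, wd, tv, Tu.ext_iff,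
    Tu.eps, Tu.la, Tu.lb, Tu.rev, Tu.cat, mod_two]
  apply_rules (transparency := .reducible) (maxDepth := 5000) only
    [Df.and, Df.or, Df.allN, Df.exN, Df.allL, Df.not, Df.imp, Df.eq, Df.lt, Df.le, Df.slt, Df.seq,
      TD.var, TD.zero, TD.one, TD.two, TD.add, TD.mul, df_Act, df_Al, df_endS, rg_four, rg_two,
      rg_TT, rg_un]
  all_goals fun_prop

open Classical in
/-- A valuation that carries given data. -/
noncomputable def valOf (G : GD) (D : WD Str) : Ix → ℝ := fun ⟨t, e, f, a, b, c, x, y, z⟩ =>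
  match t with
  | 0 => if G.sub a b then 1 else 0
  | 1 => if G.nt a b then 1 else 0
  | 2 => if G.dc a b then 1 else 0
  | 3 => if G.io a b then 1 else 0
  | 4 => if G.mt a b then 1 else 0
  | 5 => if G.mem a b c then 1 else 0
  | 6 => if G.sp a b then 1 else 0
  | 7 => G.a a
  | 8 => G.H a b
  | 9 => G.φ a x b
  | 10 => G.s a x b y
  | 11 => G.u a x b y e z
  | 12 => if G.act e then 1 else 0
  | 13 => if G.dir e x = true then 1 else 0
  | 14 => if G.abv e (a, b, x) c then 1 else 0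
  | 15 => G.rk a b c
  | 16 => D.n e a b c
  | 17 => (D.nd e f a).m
  | 18 => (D.nd e f a).v
  | 19 => (D.nd e f a).r
  | 20 => (D.nd e f a).a
  | 21 => (D.nd e f a).b
  | 22 => (D.x e f a b c).m
  | 23 => (D.x e f a b c).v
  | 24 => (D.x e f a b c).r
  | 25 => (D.x e f a b c).a
  | 26 => (D.x e f a b c).b
  | 27 => (D.cw e f a b c).m
  | 28 => (D.cw e f a b c).v
  | 29 => (D.cw e f a b c).r
  | 30 => (D.cw e f a b c).a
  | _ => (D.cw e f a b c).b

theorem wd_valOf (G : GD) (D : WD Str) : wd (valOf G D) = D := rfl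

theorem gd_valOf (G : GD) (D : WD Str) : gd (valOf G D) = G := by
  cases G
  simp [gd, valOf, ix, iy, iz]

/-- Task rc7.  See the blueprint, section Form. -/
theorem exists_formula : ∃ phi : List (ℕ × ℕ × ℕ) → Formula, PT phi ∧ ∀ L,
    (∃ v, Holds v (phi L)) ↔ ∃ G D, Req G L ∧ Tab (ctxOf L).n G ∧ Geo (ctxOf L) G ∧
      Wrd (parOf (ctxOf L) G)
        (TT (ctxOf L).K (2 * (2 * (ctxOf L).R)) (ctxOf L).SS.length) D := by
  obtain ⟨φ, h1, h2⟩ := df_Req.and (df_Tab.and (df_Geo.and df_Wrd))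
  refine ⟨φ, h1, fun L => ⟨fun ⟨v, hv⟩ => ⟨_, _, (h2 L v).1 hv⟩, fun ⟨G, D, h⟩ => ?_⟩⟩
  refine ⟨Function.extend vr (valOf G D) 0, (h2 L _).2 ?_⟩
  simp only [vr_inj.extend_apply]
  rw [gd_valOf, wd_valOf]
  exact h

end Pool.Agent.Lib.MP_02e8f2_lc
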