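import Pool.Agent.Lib.MP_02e8f2_lc.Cert
import Pool.Agent.Lib.MP_242159_lc.MemA

/-!
Predicates and real quantities that are given by formulas computable in polynomial time.
-/

set_option autoImplicit false

namespace Pool.Agent.Lib.MP_02e8f2_lc

open Pool.Agent.Lib.MP_acf5a6_lc Pool.Agent.Lib.MP_242159_lc.Mem

/-- Names of variables. -/
abbrev Ix : Type := ℕ × Str × Str × ℕ × ℕ × ℕ × Bool × Bool × Bool

/-- Code of a string. -/
def cS (e : Str) : ℕ :=
  Nat.pair e.1 (Nat.pair e.2.1 (Nat.pair e.2.2.1 (Nat.pair e.2.2.2.1 e.2.2.2.2)))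

/-- Code of a name. -/
def vr (i : Ix) : ℕ :=
  Nat.pair i.1 (Nat.pair (cS i.2.1) (Nat.pair (cS i.2.2.1) (Nat.pair i.2.2.2.1
    (Nat.pair i.2.2.2.2.1 (Nat.pair i.2.2.2.2.2.1 (Nat.pair i.2.2.2.2.2.2.1.toNat
      (Nat.pair i.2.2.2.2.2.2.2.1.toNat i.2.2.2.2.2.2.2.2.toNat)))))))

theorem toNat_inj {a b : Bool} (h : a.toNat = b.toNat) : a = b := by
  cases a <;> cases b <;> simp_all

theorem vr_inj : Function.Injective vr := by
  rintro ⟨t, ⟨a1, a2, a3, a4, a5⟩, ⟨b1, b2, b3, b4, b5⟩, c1, c2, c3, d1, d2, d3⟩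
    ⟨t', ⟨a1', a2', a3', a4', a5'⟩, ⟨b1', b2', b3', b4', b5'⟩, c1', c2', c3', d1', d2', d3'⟩ h
  simp only [vr, cS, Nat.pair_eq_pair] at h
  obtain ⟨rfl, ⟨rfl, rfl, rfl, rfl, rfl⟩, ⟨rfl, rfl, rfl, rfl, rfl⟩, rfl, rfl, rfl, h1, h2, h3⟩ := h
  rw [toNat_inj h1, toNat_inj h2, toNat_inj h3]

variable {α β : Type} [N487b59b3 α] [N487b59b3 β]

@[fun_prop] theorem toNat_PT {f : α → Bool} (hf : PT f) : PT (fun a => (f a).toNat) :=
  PT.of_eq (f := fun a => cond (f a) 1 0) (by fun_prop) fun a => by cases f a <;> rfl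

theorem vr_PT : PT vr := by unfold vr cS; fun_prop

/-- The quantity is the value of a term. -/
def TD (t : α → (Ix → ℝ) → ℝ) : Prop :=
  ∃ τ : α → Term, PT τ ∧ ∀ a v, termVal v (τ a) = t a fun i => v (vr i)

/-- The predicate is the truth of a formula. -/
def Df (P : α → (Ix → ℝ) → Prop) : Prop :=
  ∃ φ : α → Formula, PT φ ∧ ∀ a v, Holds v (φ a) ↔ P a fun i => v (vr i)

namespace TD

variable {s t : α → (Ix → ℝ) → ℝ}

theorem var {f : α → Ix} (hf : PT f) : TD fun a w => w (f a) :=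
  ⟨fun a => .var (vr (f a)), var_PT (vr_PT.comp hf), fun _ _ => rfl⟩

theorem zero : TD fun (_ : α) _ => 0 :=
  ⟨fun _ => .const 0, PT.const _, fun _ _ => by simp [termVal]⟩

theorem one : TD fun (_ : α) _ => 1 :=
  ⟨fun _ => .const 1, PT.const _, fun _ _ => by simp [termVal]⟩

theorem two : TD fun (_ : α) _ => 2 :=
  ⟨fun _ => .const 2, PT.const _, fun _ _ => by simp [termVal]⟩

theorem sgn {b : α → Bool} (hb : PT b) : TD fun a _ => sg (b a) :=
  ⟨fun a => cond (b a) (.const 1) (.const (-1)), by fun_prop, fun a _ => by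
    cases h : b a <;> simp [termVal, sg, h]⟩

theorem add (hs : TD s) (ht : TD t) : TD fun a w => s a w + t a w := by
  obtain ⟨σ, h1, h2⟩ := hs
  obtain ⟨τ, h3, h4⟩ := ht
  exact ⟨fun a => .add (σ a) (τ a), by fun_prop, fun a v => by simp only [termVal, h2, h4]⟩

theorem mul (hs : TD s) (ht : TD t) : TD fun a w => s a w * t a w := by
  obtain ⟨σ, h1, h2⟩ := hs
  obtain ⟨τ, h3, h4⟩ := ht
  exact ⟨fun a => .mul (σ a) (τ a), by fun_prop, fun a v => by simp only [termVal, h2, h4]⟩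

theorem sub (hs : TD s) (ht : TD t) : TD fun a w => s a w - t a w := by
  obtain ⟨σ, h1, h2⟩ := hs
  obtain ⟨τ, h3, h4⟩ := ht
  exact ⟨fun a => .add (σ a) (.mul (.const (-1)) (τ a)), by fun_prop, fun a v => by
    simp [termVal, h2, h4, sub_eq_add_neg]⟩

end TD

namespace Df

variable {s t : α → (Ix → ℝ) → ℝ} {P Q : α → (Ix → ℝ) → Prop}

theorem of_iff (h : Df P) (e : ∀ a w, P a w ↔ Q a w) : Df Q := by
  obtain ⟨φ, h1, h2⟩ := h
  exact ⟨φ, h1, fun a v => (h2 a v).trans (e _ _)⟩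

theorem eq (hs : TD s) (ht : TD t) : Df fun a w => s a w = t a w := by
  obtain ⟨σ, h1, h2⟩ := hs
  obtain ⟨τ, h3, h4⟩ := ht
  exact ⟨fun a => .eq (σ a) (τ a), by fun_prop, fun a v => by simp only [Holds, h2, h4]⟩

theorem lt (hs : TD s) (ht : TD t) : Df fun a w => s a w < t a w := by
  obtain ⟨σ, h1, h2⟩ := hs
  obtain ⟨τ, h3, h4⟩ := ht
  exact ⟨fun a => .lt (σ a) (τ a), by fun_prop, fun a v => by simp only [Holds, h2, h4]⟩

theorem le (hs : TD s) (ht : TD t) : Df fun a w => s a w ≤ t a w := by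
  obtain ⟨σ, h1, h2⟩ := hs
  obtain ⟨τ, h3, h4⟩ := ht
  exact ⟨fun a => .le (σ a) (τ a), by fun_prop, fun a v => by simp only [Holds, h2, h4]⟩

theorem not (hP : Df P) : Df fun a w => ¬ P a w := by
  obtain ⟨φ, h1, h2⟩ := hP
  exact ⟨fun a => .not (φ a), by fun_prop, fun a v => by simp only [Holds, h2]⟩

theorem and (hP : Df P) (hQ : Df Q) : Df fun a w => P a w ∧ Q a w := by
  obtain ⟨φ, h1, h2⟩ := hP
  obtain ⟨ψ, h3, h4⟩ := hQ
  exact ⟨fun a => .and (φ a) (ψ a), by fun_prop, fun a v => by simp only [Holds, h2, h4]⟩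

theorem or (hP : Df P) (hQ : Df Q) : Df fun a w => P a w ∨ Q a w := by
  obtain ⟨φ, h1, h2⟩ := hP
  obtain ⟨ψ, h3, h4⟩ := hQ
  exact ⟨fun a => .or (φ a) (ψ a), by fun_prop, fun a v => by simp only [Holds, h2, h4]⟩

theorem imp (hP : Df P) (hQ : Df Q) : Df fun a w => P a w → Q a w :=
  (hP.not.or hQ).of_iff fun _ _ => imp_iff_not_or.symm

theorem iff (hP : Df P) (hQ : Df Q) : Df fun a w => P a w ↔ Q a w :=
  ((hP.imp hQ).and (hQ.imp hP)).of_iff fun _ _ => iff_iff_implies_and_implies.symm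

theorem bool {b : α → Bool} (hb : PT b) : Df fun a _ => b a = true :=
  ⟨fun a => cond (b a) tru (.not tru), by fun_prop, fun a v => by
    cases h : b a <;> simp [Holds, holds_tru, h]⟩

theorem seq [DecidableEq β] {f g : α → β} (hf : PT f) (hg : PT g) : Df fun a _ => f a = g a :=
  (bool (PT.decide_eq hf hg)).of_iff fun _ _ => decide_eq_true_iff

theorem slt {f g : α → ℕ} (hf : PT f) (hg : PT g) : Df fun a _ => f a < g a :=
  (bool (PT.decide_lt hf hg)).of_iff fun _ _ => decide_eq_true_iff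

theorem sle {f g : α → ℕ} (hf : PT f) (hg : PT g) : Df fun a _ => f a ≤ g a :=
  (bool (PT.decide_le hf hg)).of_iff fun _ _ => decide_eq_true_iff

theorem cnd {b : α → Bool} (hb : PT b) (hP : Df P) (hQ : Df Q) :
    Df fun a w => cond (b a) (P a w) (Q a w) :=
  (((bool hb).and hP).or ((bool hb).not.and hQ)).of_iff fun a _ => by cases b a <;> simp

theorem dec {b : α → Bool} {i : ∀ a w, Decidable (P a w)} (hP : Df P) (hb : PT b) :
    Df fun a w => @decide (P a w) (i a w) = b a :=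
  (hP.iff (bool hb)).of_iff fun a _ => by cases b a <;> simp

variable {R : α → β → (Ix → ℝ) → Prop}

theorem allL {l : α → List β} (hl : PT l) (h : Df fun (x : α × β) w => R x.1 x.2 w) :
    Df fun a w => ∀ y ∈ l a, R a y w := by
  obtain ⟨φ, h1, h2⟩ := h
  exact ⟨fun a => andL ((l a).map fun y => φ (a, y)), andL_PT (PT.map h1 hl), fun a v => by
    simp only [holds_andL, List.forall_mem_map, h2]⟩

theorem exL {l : α → List β} (hl : PT l) (h : Df fun (x : α × β) w => R x.1 x.2 w) :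
    Df fun a w => ∃ y ∈ l a, R a y w :=
  (allL (R := fun a y w => ¬ R a y w) hl h.not).not.of_iff fun _ _ => by simp

theorem allN {R : α → ℕ → (Ix → ℝ) → Prop} {u : α → ℕ} (hu : PT fun a => List.range (u a))
    (h : Df fun (x : α × ℕ) w => R x.1 x.2 w) : Df fun a w => ∀ y < u a, R a y w :=
  (allL hu h).of_iff fun _ _ => by simp

theorem exN {R : α → ℕ → (Ix → ℝ) → Prop} {u : α → ℕ} (hu : PT fun a => List.range (u a))
    (h : Df fun (x : α × ℕ) w => R x.1 x.2 w) : Df fun a w => ∃ y < u a, R a y w :=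
  (exL hu h).of_iff fun _ _ => by simp

theorem allB {R : α → Bool → (Ix → ℝ) → Prop} (h : Df fun (x : α × Bool) w => R x.1 x.2 w) :
    Df fun a w => ∀ y, R a y w :=
  (allL (l := fun _ => [false, true]) (PT.const _) h).of_iff fun _ _ => by simp

theorem exB {R : α → Bool → (Ix → ℝ) → Prop} (h : Df fun (x : α × Bool) w => R x.1 x.2 w) :
    Df fun a w => ∃ y, R a y w :=
  (exL (l := fun _ => [false, true]) (PT.const _) h).of_iff fun _ _ => by simp

end Df

/-- Coded networks. -/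
abbrev Net : Type := List (ℕ × ℕ × ℕ)

/-- Number of nodes, in unary. -/
def nU (L : Net) : Un := (Un.mk 5).mul (ulen L)

/-- Number of lines, in unary. -/
def kU (L : Net) : Un := (((nU L).mul (nU L)).add ((Un.mk 4).mul (nU L))).add ⟨2⟩

/-- The strings. -/
def ssOf (L : Net) : List Str :=
  (urange (nU L)).flatMap fun A => (urange (kU L)).flatMap fun k => (urange (kU L)).flatMap
    fun r => (urange (kU L)).flatMap fun k' => (urange (kU L)).map fun r' => (A, k, r, k', r')

/-- Number of program nodes, in unary. -/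
def tU (K M L : Un) : Un :=
  ((((Un.mk 2).mul (((K.mul M).mul (M.add ⟨1⟩)).mul ⟨2⟩)).mul L).add ((K.mul M).mul M)).mul
    (((Un.mk 3).mul L).add ⟨1⟩)

theorem ctx_n (L : Net) : (ctxOf L).n = (nU L).n := rfl
theorem ctx_K (L : Net) : (ctxOf L).K = (kU L).n := rfl
theorem ctx_R (L : Net) : (ctxOf L).R = (kU L).n := rfl
theorem ctx_SS (L : Net) : (ctxOf L).SS = ssOf L := rfl
theorem ctx_cvx (L : Net) (u : ℕ) : (ctxOf L).cvx u = (flags L 8).getD u false := rfl
theorem ctx_con (L : Net) (u : ℕ) : (ctxOf L).con u = (flags L 9).getD u false := rfl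

section

variable {L : α → Net}

@[fun_prop] theorem nU_PT (h : PT L) : PT fun a => nU (L a) := by unfold nU; fun_prop

@[fun_prop] theorem kU_PT (h : PT L) : PT fun a => kU (L a) := by unfold kU; fun_prop

@[fun_prop] theorem ssOf_PT (h : PT L) : PT fun a => ssOf (L a) := by unfold ssOf; fun_prop

theorem rg_un {u : α → Un} (h : PT u) : PT fun a => List.range (u a).n := PT.urange' h

theorem rg_two {u : α → Un} (h : PT u) : PT fun a => List.range (2 * (u a).n) :=
  PT.urange' (u := fun a => (Un.mk 2).mul (u a)) (by fun_prop)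

theorem rg_four {u : α → Un} (h : PT u) : PT fun a => List.range (2 * (2 * (u a).n)) :=
  PT.urange' (u := fun a => (Un.mk 2).mul ((Un.mk 2).mul (u a))) (by fun_prop)

theorem rg_len {l : α → List β} (h : PT l) : PT fun a => List.range (l a).length := idx_PT h

theorem rg_TT (h : PT L) : PT fun a =>
    List.range (TT (kU (L a)).n (2 * (2 * (kU (L a)).n)) (ssOf (L a)).length) :=
  PT.urange' (u := fun a => tU (kU (L a)) ((Un.mk 2).mul ((Un.mk 2).mul (kU (L a))))
    (ulen (ssOf (L a)))) (by unfold tU; fun_prop)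

@[fun_prop] theorem flags_PT {κ : α → ℕ} (h : PT L) (hκ : PT κ) :
    PT fun a => flags (L a) (κ a) := by unfold flags; fun_prop

@[fun_prop] theorem atm_PT {i : α → ℕ} (h : PT L) (hi : PT i) : PT fun a => atm (L a) (i a) := by
  unfold atm; fun_prop

@[fun_prop] theorem nm_PT {i : α → ℕ} {b : α → Bool} (h : PT L) (hi : PT i) (hb : PT b) :
    PT fun a => nm (L a) (i a) (b a) := by unfold nm; fun_prop

@[fun_prop] theorem clk_PT {k : α → ℕ} {d : α → Bool} (hk : PT k) (hd : PT d) :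
    PT fun a => clk (k a) (d a) := by unfold clk; fun_prop

@[fun_prop] theorem cl_PT {s : α → Side} (hs : PT s) : PT fun a => cl (s a) := by
  unfold cl; fun_prop

@[fun_prop] theorem locK_PT {e : α → Str} {τ : α → Bool} (he : PT e) (hτ : PT τ) :
    PT fun a => locK (e a) (τ a) := by unfold locK; fun_prop

@[fun_prop] theorem locR_PT {e : α → Str} {τ : α → Bool} (he : PT e) (hτ : PT τ) :
    PT fun a => locR (e a) (τ a) := by unfold locR; fun_prop

@[fun_prop] theorem sideOf_PT {S c i : α → ℕ} (hS : PT S) (hc : PT c) (hi : PT i) :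
    PT fun a => sideOf (S a) (c a) (i a) := by unfold sideOf; fun_prop

@[fun_prop] theorem pt_PT {M i t : α → ℕ} (hM : PT M) (hi : PT i) (ht : PT t) :
    PT fun a => pt (M a) (i a) (t a) := by unfold pt; fun_prop

theorem div_two (n : ℕ) : n / 2 = n.div2 := (Nat.div2_val n).symm

theorem mod_two (n : ℕ) : n % 2 = n.bodd.toNat := by
  rw [Nat.mod_two_of_bodd]

end

end Pool.Agent.Lib.MP_02e8f2_lc
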