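import Pool.Agent.Lib.MP_02e8f2_lc.FormA

/-!
The geometric conditions are given by formulas.
-/

set_option autoImplicit false

namespace Pool.Agent.Lib.MP_02e8f2_lc

open Pool.Agent.Lib.MP_acf5a6_lc Pool.Agent.Lib.MP_242159_lc.Mem

/-- A dummy string. -/
def zS : Str := (0, 0, 0, 0, 0)

/-- A name with three numbers. -/
def ix (t a b c : ℕ) : Ix := (t, zS, zS, a, b, c, false, false, false)

/-- A name with two strings and three numbers. -/
def iy (t : ℕ) (e f : Str) (a b c : ℕ) : Ix := (t, e, f, a, b, c, false, false, false)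

/-- A name with a string, three numbers and three Booleans. -/
def iz (t : ℕ) (e : Str) (a b c : ℕ) (x y z : Bool) : Ix := (t, e, zS, a, b, c, x, y, z)

open Classical in
/-- The geometric data read off a valuation. -/
noncomputable def gd (w : Ix → ℝ) : GD where
  sub i j := w (ix 0 i j 0) = 1
  nt i j := w (ix 1 i j 0) = 1
  dc i j := w (ix 2 i j 0) = 1
  io i j := w (ix 3 i j 0) = 1
  mt i j := w (ix 4 i j 0) = 1
  mem A k r := w (ix 5 A k r) = 1
  sp C c := w (ix 6 C c 0) = 1
  a k := w (ix 7 k 0 0)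
  H k r := w (ix 8 k r 0)
  φ C up k := w (iz 9 zS C k 0 up false false)
  s C up k d := w (iz 10 zS C k 0 up d false)
  u C up k d e τ := w (iz 11 e C k 0 up d τ)
  act e := w (iy 12 e zS 0 0 0) = 1
  dir e τ := decide (w (iz 13 e 0 0 0 τ false false) = 1)
  abv e s D := w (iz 14 e s.1 s.2.1 D s.2.2 false false) = 1
  rk A k r := w (ix 15 A k r)

section

variable (w : Ix → ℝ) (i j k : ℕ) (e : Str) (x y z : Bool) (s : Side)

theorem gd_sub : (gd w).sub i j = (w (ix 0 i j 0) = 1) := rfl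
theorem gd_nt : (gd w).nt i j = (w (ix 1 i j 0) = 1) := rfl
theorem gd_dc : (gd w).dc i j = (w (ix 2 i j 0) = 1) := rfl
theorem gd_io : (gd w).io i j = (w (ix 3 i j 0) = 1) := rfl
theorem gd_mt : (gd w).mt i j = (w (ix 4 i j 0) = 1) := rfl
theorem gd_mem : (gd w).mem i j k = (w (ix 5 i j k) = 1) := rfl
theorem gd_sp : (gd w).sp i j = (w (ix 6 i j 0) = 1) := rfl
theorem gd_a : (gd w).a i = w (ix 7 i 0 0) := rfl
theorem gd_H : (gd w).H i j = w (ix 8 i j 0) := rfl
theorem gd_φ : (gd w).φ i x j = w (iz 9 zS i j 0 x false false) := rfl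
theorem gd_s : (gd w).s i x j y = w (iz 10 zS i j 0 x y false) := rfl
theorem gd_u : (gd w).u i x j y e z = w (iz 11 e i j 0 x y z) := rfl
theorem gd_act : (gd w).act e = (w (iy 12 e zS 0 0 0) = 1) := rfl
theorem gd_dir : ((gd w).dir e x = y) = (w (iz 13 e 0 0 0 x false false) = 1 ↔ y = true) := by
  cases y <;> simp [gd]
theorem gd_abv : (gd w).abv e s i = (w (iz 14 e s.1 s.2.1 i s.2.2 false false) = 1) := rfl
theorem gd_rk : (gd w).rk i j k = w (ix 15 i j k) := rfl

end

variable {α : Type} [N487b59b3 α]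

@[fun_prop] theorem ix_PT {t a b c : α → ℕ} (ht : PT t) (ha : PT a) (hb : PT b) (hc : PT c) :
    PT fun x => ix (t x) (a x) (b x) (c x) := by unfold ix; fun_prop

@[fun_prop] theorem iy_PT {t a b c : α → ℕ} {e f : α → Str} (ht : PT t) (he : PT e) (hf : PT f)
    (ha : PT a) (hb : PT b) (hc : PT c) :
    PT fun x => iy (t x) (e x) (f x) (a x) (b x) (c x) := by unfold iy; fun_prop

@[fun_prop] theorem iz_PT {t a b c : α → ℕ} {e : α → Str} {p q r : α → Bool} (ht : PT t)
    (he : PT e) (ha : PT a) (hb : PT b) (hc : PT c) (hp : PT p) (hq : PT q) (hr : PT r) :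
    PT fun x => iz (t x) (e x) (a x) (b x) (c x) (p x) (q x) (r x) := by unfold iz; fun_prop

variable {L : α → Net} {A C D k c : α → ℕ} {up up' d τ : α → Bool} {e f : α → Str}
  {s t : α → Side}

theorem df_LE (hL : PT L) (hC : PT C) (hu : PT up) (hD : PT D) (hu' : PT up') (hk : PT k)
    (hd : PT d) :
    Df fun a w => LE' (ctxOf (L a)) (gd w) (C a) (up a) (D a) (up' a) (k a) (d a) := by
  simp only [LE', ctx_SS, gd]
  apply_rules (transparency := .reducible) (maxDepth := 5000) only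
    [Df.and, Df.or, Df.allL, Df.allB, Df.eq, Df.lt, Df.le, TD.var]
  all_goals fun_prop

theorem df_LT (hC : PT C) (hu : PT up) (hD : PT D) (hu' : PT up') (hk : PT k)
    (hd : PT d) (he : PT e) (hτ : PT τ) :
    Df fun a w => LT' (gd w) (C a) (up a) (D a) (up' a) (k a) (d a) (e a) (τ a) := by
  simp only [LT', gd]
  apply_rules (transparency := .reducible) (maxDepth := 5000) only
    [Df.and, Df.or, Df.eq, Df.lt, TD.var]
  all_goals fun_prop

theorem df_Low (hL : PT L) (hA : PT A) (he : PT e) (hs : PT s) (hc : PT c) (hC : PT C)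
    (hu : PT up) :
    Df fun a w => Low (ctxOf (L a)) (gd w) (A a) ((gd w).abv (e a) (s a)) (c a) (C a) (up a) := by
  simp only [Low, ctx_cvx, gd]
  apply_rules (transparency := .reducible) (maxDepth := 5000) only
    [Df.and, Df.cnd, Df.eq, Df.bool, TD.var, TD.one]
  all_goals fun_prop

theorem df_Upp (hL : PT L) (hA : PT A) (he : PT e) (hs : PT s) (hc : PT c) (hC : PT C)
    (hu : PT up) :
    Df fun a w => Upp (ctxOf (L a)) (gd w) (A a) ((gd w).abv (e a) (s a)) (c a) (C a) (up a) := by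
  simp only [Upp, ctx_cvx, gd]
  apply_rules (transparency := .reducible) (maxDepth := 5000) only
    [Df.and, Df.cnd, Df.not, Df.eq, Df.bool, TD.var, TD.one]
  all_goals fun_prop

theorem df_Ok (hL : PT L) (he : PT e) (hs : PT s) :
    Df fun a w => Ok (ctxOf (L a)) (gd w) (e a) (s a) := by
  simp only [Ok, ctx_cvx, ctx_n, ctx_K, ctx_R, gd_sub, gd_sp, gd_φ, gd_H, div_two]
  apply_rules (transparency := .reducible) (maxDepth := 5000) only
    [Df.and, Df.allN, Df.allB, Df.imp, Df.eq, Df.le, Df.slt, Df.sle, Df.bool, TD.var, TD.one,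
      df_Low, df_Upp, rg_un]
  all_goals fun_prop

theorem df_Al (hL : PT L) (he : PT e) (hs : PT s) (ht : PT t) :
    Df fun a w => Al (ctxOf (L a)) (gd w) (e a) (s a) (t a) := by
  simp only [Al, ctx_cvx, ctx_n, gd_io, gd_sp, gd_abv]
  apply_rules (transparency := .reducible) (maxDepth := 5000) only
    [Df.and, Df.allN, Df.imp, Df.iff, Df.eq, Df.bool, Df.seq, TD.var, TD.one, df_Ok, rg_un]
  all_goals fun_prop

theorem df_CellOK (hL : PT L) (hC : PT C) (hu : PT up) (hc : PT c) :
    Df fun a w => CellOK (ctxOf (L a)) (gd w) (C a) (up a) (c a) := by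
  simp only [CellOK, ctx_SS, gd_φ, gd_s, gd_a, gd_u]
  apply_rules (transparency := .reducible) (maxDepth := 5000) only
    [Df.and, Df.or, Df.allL, Df.allB, Df.eq, Df.lt, Df.le, TD.var, TD.zero, TD.sgn, TD.mul, TD.sub]
  all_goals fun_prop

theorem df_EndOK (hL : PT L) (he : PT e) (hτ : PT τ) (hs : PT s) :
    Df fun a w => EndOK (ctxOf (L a)) (gd w) (e a) (τ a) (s a) := by
  simp only [EndOK, ctx_con, ctx_n, gd_sub]
  apply_rules (transparency := .reducible) (maxDepth := 5000) only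
    [Df.and, Df.allN, Df.allB, Df.imp, Df.eq, Df.bool, TD.var, TD.one, df_Ok, df_Low, df_Upp,
      df_LE, df_LT, rg_un]
  all_goals fun_prop

theorem df_End (hL : PT L) (he : PT e) (hτ : PT τ) :
    Df fun a w => EndOK (ctxOf (L a)) (gd w) (e a) (τ a) (endS (gd w) (e a) (τ a)) := by
  refine Df.of_iff (P := fun a w => ∀ d, (gd w).dir (e a) (τ a) = d → EndOK (ctxOf (L a)) (gd w)
    (e a) (τ a) (locK (e a) (τ a), 2 * locR (e a) (τ a) + 1, d)) ?_ fun a w => by simp [endS]
  simp only [gd_dir]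
  apply_rules (transparency := .reducible) (maxDepth := 5000) only
    [Df.allB, Df.imp, Df.iff, Df.eq, Df.bool, TD.var, TD.one, df_EndOK]
  all_goals fun_prop

theorem df_endS (he : PT e) (hτ : PT τ) (hs : PT s) :
    Df fun a w => s a = endS (gd w) (e a) (τ a) := by
  refine Df.of_iff (P := fun a w => (s a).1 = locK (e a) (τ a) ∧
    (s a).2.1 = 2 * locR (e a) (τ a) + 1 ∧ (gd w).dir (e a) (τ a) = (s a).2.2) ?_ fun a w => by
      simp only [endS, Prod.ext_iff, eq_comm (a := (s a).2.2)]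
  simp only [gd_dir]
  apply_rules (transparency := .reducible) (maxDepth := 5000) only
    [Df.and, Df.iff, Df.eq, Df.bool, Df.seq, TD.var, TD.one]
  all_goals fun_prop

theorem df_Act (hL : PT L) (he : PT e) : Df fun a w => Act (ctxOf (L a)) (gd w) (e a) := by
  simp only [Act, Ctx.mem_SS, ctx_n, ctx_K, ctx_R, gd_act]
  apply_rules (transparency := .reducible) (maxDepth := 5000) only
    [Df.and, Df.not, Df.eq, Df.slt, Df.seq, TD.var, TD.one]
  all_goals fun_prop

theorem Df.of_iff' {P Q : α → (Ix → ℝ) → Prop} (e : ∀ a w, Q a w ↔ P a w) (h : Df P) : Df Q :=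
  h.of_iff fun a w => (e a w).symm

theorem df_Tab : Df fun (L : Net) w => Tab (ctxOf L).n (gd w) := by
  refine Df.of_iff' (fun L w => ⟨fun h => And.intro h.1 <| And.intro h.2 <| And.intro h.3 <|
    And.intro h.4 <| And.intro h.5 <| And.intro h.6 <| And.intro h.7 <| And.intro h.8 <| And.intro
    h.9 <| And.intro h.10 <| And.intro h.11 <| h.12, fun ⟨h1, h2, h3, h4, h5, h6, h7, h8, h9, h10,
    h11, h12⟩ => ⟨h1, h2, h3, h4, h5, h6, h7, h8, h9, h10, h11, h12⟩⟩) ?_
  simp only [ctx_n, gd_sub, gd_nt, gd_dc, gd_io]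
  apply_rules (transparency := .reducible) (maxDepth := 5000) only
    [Df.and, Df.allN, Df.not, Df.imp, Df.eq, TD.var, TD.one, rg_un]
  all_goals fun_prop

theorem df_Req : Df fun (L : Net) w => Req (gd w) L := by
  refine Df.of_iff' (fun L w => ⟨fun h => And.intro h.1 <| h.2, fun ⟨h1, h2⟩ => ⟨h1, h2⟩⟩) ?_
  simp only [ReqA, Prop', gd_sub, gd_nt, gd_dc, gd_io, gd_mt]
  apply_rules (transparency := .reducible) (maxDepth := 5000) only
    [Df.and, Df.or, Df.allN, Df.allB, Df.imp, Df.eq, Df.seq, TD.var, TD.one, rg_len]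
  all_goals fun_prop

theorem df_Geo : Df fun (L : Net) w => Geo (ctxOf L) (gd w) := by
  refine Df.of_iff' (fun L w => ⟨fun h => And.intro h.1 <| And.intro h.2 <| And.intro h.3 <|
    And.intro h.4 <| And.intro h.5 <| And.intro h.6 <| And.intro h.7 <| And.intro h.8 <| And.intro
    h.9 <| And.intro h.10 <| And.intro h.11 <| And.intro h.12 <| And.intro h.13 <| And.intro h.14
    <| And.intro h.15 <| And.intro h.16 <| And.intro h.17 <| And.intro h.18 <| And.intro h.19 <|
    And.intro h.20 <| And.intro h.21 <| And.intro h.22 <| h.23, fun ⟨h1, h2, h3, h4, h5, h6, h7,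
    h8, h9, h10, h11, h12, h13, h14, h15, h16, h17, h18, h19, h20, h21, h22, h23⟩ => ⟨h1, h2, h3,
    h4, h5, h6, h7, h8, h9, h10, h11, h12, h13, h14, h15, h16, h17, h18, h19, h20, h21, h22,
    h23⟩⟩) ?_
  simp only [ctx_n, ctx_K, ctx_R, ctx_SS, ctx_cvx, ctx_con, gd_sub, gd_nt, gd_dc, gd_io,
    gd_mt, gd_mem, gd_sp, gd_a, gd_H, gd_φ, gd_s, gd_act, gd_rk]
  apply_rules (transparency := .reducible) (maxDepth := 5000) only
    [Df.and, Df.or, Df.allN, Df.exN, Df.allL, Df.exL, Df.allB, Df.exB, Df.not, Df.imp, Df.eq,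
      Df.lt, Df.le, Df.slt, Df.seq, TD.var, TD.one, TD.zero, TD.sgn, TD.add, TD.mul, df_LE, df_LT,
      df_CellOK, df_End, rg_un]
  all_goals fun_prop

end Pool.Agent.Lib.MP_02e8f2_lc
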