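import Pool.Agent.Lib.MP_02e8f2_lc.Thick

/-!
The skeleton of a node that is not convex.
-/

set_option autoImplicit false

namespace Pool.Agent.Lib.MP_02e8f2_lc

open Set Filter Topology

theorem pc_zero (G : GD) (k : ℕ) (d : Bool) (t y μ : ℝ) :
    pc G k d t y μ 0 = {(xp G k d t, y)} := by simp [pc]

theorem xp_zero (G : GD) (k : ℕ) (d : Bool) : xp G k d 0 = G.a k := by simp [xp]

namespace Dat

variable (E : Dat) (M : ℝ)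

/-- The curves of a node. -/
def Cv (Z : ℕ) (c : Crv) : Prop :=
  (∃ e τ, e ∈ E.X.SS ∧ E.G.act e ∧ E.X.con Z = true ∧ E.G.sub e.1 Z ∧ c = E.tailC Z e τ) ∨
    ∃ v, E.Pr Z c v

/-- A point of a stub. -/
noncomputable def Qp (e : Str) (τ : Bool) (n : ℕ) : ℝ × ℝ :=
  (xp E.G (locK e τ) (E.G.dir e τ) (E.θ / 2 ^ n), E.yv n (e, τ, none))

/-- An event point. -/
def EP (k r : ℕ) : ℝ × ℝ := (E.G.a k, E.G.H k r)

/-- The constituents of the skeleton. -/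
def At (Z : ℕ) (S : Set (ℝ × ℝ)) : Prop :=
  (∃ c, E.Cv Z c ∧ (S = {(E.G.a c.k, c.l)} ∨ ∃ n, S = E.lp c n)) ∨
  (∃ e τ, e ∈ E.X.SS ∧ E.G.act e ∧ e.1 = Z ∧ (S = {E.EP (locK e τ) (locR e τ)} ∨
    ∃ n, E.J n = (e, τ) ∧ S = {E.Qp e τ n})) ∨
  ∃ u v, E.Pr Z u v ∧ S = E.hp M u v

/-- The skeleton. -/
def KN (Z : ℕ) : Set (ℝ × ℝ) := {z | ∃ S, E.At M Z S ∧ z ∈ S}

/-- A straight piece that starts at level `n`. -/
structure Pce (Z k : ℕ) (d : Bool) (n : ℕ) (y μ τ : ℝ) : Prop where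
  r1 : 1 ≤ clk k d
  r2 : clk k d < E.X.K
  τ0 : 0 ≤ τ
  top : E.θ / 2 ^ n + τ ≤ hw E.G k d
  vh : E.VH Z k n y
  thin : ∀ n', n = n' + 1 → τ ≤ E.θ / 2 ^ n ∧ (τ = E.θ / 2 ^ n → E.VH Z k n' (y + μ * τ)) ∧
    ∀ σ, 0 ≤ σ → σ ≤ τ → ∃ q, E.Tag Z k q (y + μ * σ)
  sg : ∀ z ∈ pc E.G k d (E.θ / 2 ^ n) y μ τ, SG E.X E.G E.J E.θ Z z

/-- A point on a line. -/
structure Lpt (Z k : ℕ) (d : Bool) (l : ℝ) : Prop where
  r1 : 1 ≤ clk k d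
  r2 : clk k d < E.X.K
  tag : ∃ q, E.Tag Z k q l
  lo : E.LO Z (E.G.a k, l)
  lim : ∀ N, ∃ n ≥ N, ∃ y, (xp E.G k d (E.θ / 2 ^ n), y) ∈ E.KN M Z ∧ E.VH Z k n y ∧
    SG E.X E.G E.J E.θ Z (xp E.G k d (E.θ / 2 ^ n), y) ∧ |y - l| ≤ (E.B + 1) * (E.θ / 2 ^ n)

variable {E M}

theorem Good.cv_ok (h : E.Good) {Z : ℕ} (hZ : Z < E.X.n) {c : Crv} (hc : E.Cv Z c) :
    E.COK Z c := by
  rcases hc with ⟨e, τ, a, b, c, d, rfl⟩ | ⟨v, p⟩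
  · exact h.tail_ok hZ a b c d τ
  · exact (h.pr_ok p).2.1

theorem CS_sub {Z : ℕ} {c : Crv} (hc : E.Cv Z c) : E.CS c ⊆ E.KN M Z := by
  rintro z (rfl | ⟨n, hn⟩)
  · exact ⟨_, Or.inl ⟨c, hc, Or.inl rfl⟩, rfl⟩
  · exact ⟨_, Or.inl ⟨c, hc, Or.inr ⟨n, rfl⟩⟩, hn⟩

theorem Good.stub_pce (h : E.Good) {e : Str} (he : e ∈ E.X.SS) (ha : E.G.act e) {τ : Bool} {n : ℕ}
    (hn : E.J n = (e, τ)) : E.Pce e.1 (locK e τ) (E.G.dir e τ) n (E.yv n (e, τ, none)) 0 0 ∧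
      |E.yv n (e, τ, none) - E.G.H (locK e τ) (locR e τ)| ≤ (E.B + 1) * (E.θ / 2 ^ n) := by
  have ok := (h.hG.ends e he ha τ).1
  have hZ := (h.loc he ha τ).1
  have vid : Vid E.X E.G E.J n (e, τ, none) := ⟨he, ha, fun _ => hn, by simp⟩
  have vh := h.vid_vh vid hZ (h.hT.sub_refl _ hZ)
  have w := lt_hw h.hS ok.2.2.1 ok.2.2.2.1
  have l1 := lev_le h.hS.pos n
  have l0 := lev_pos h.hS.pos n
  refine ⟨⟨ok.2.2.1, ok.2.2.2.1, le_rfl, (add_zero _).le.trans (l1.trans w.le), vh,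
    fun n' _ => ⟨l0.le, fun l => absurd l l0.ne, fun σ _ _ => ?_⟩, ?_⟩, ((h.sel n).2 _ vid).1.le⟩
  · obtain ⟨q, hq, -⟩ := vh
    exact ⟨q, by simpa using hq⟩
  · rw [pc_zero]
    rintro _ rfl
    refine SG_of_Ch (π := E.G.abv e (endS E.G e τ)) h.hG h.hS ok.2.2.1 ok.2.2.2.1
      (fun C hC => (ok.2.2.2.2 C hC).1) l0 (l1.trans w.le) fun C hC up => ?_
    simp only
    rw [FS_thin h.hS ok.2.2.1 ok.2.2.2.1 _ _ l1]
    exact ((h.sel n).2 _ vid).2 C hC up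

theorem Good.at_cases (h : E.Good) (hM : E.Big M) {Z : ℕ} (hZ : Z < E.X.n) {S : Set (ℝ × ℝ)}
    (hS : E.At M Z S) : (∃ k d l, E.Lpt M Z k d l ∧ S = {(E.G.a k, l)}) ∨
      ∃ k d n y μ τ, E.Pce Z k d n y μ τ ∧ S = pc E.G k d (E.θ / 2 ^ n) y μ τ ∧
        (n = 0 → τ = 0 ∨ ∃ u v, E.Pr Z u v ∧ S = E.hp M u v) := by
  rcases hS with ⟨c, hc, rfl | ⟨n, rfl⟩⟩ | ⟨e, τ, he, ha, rfl, rfl | ⟨n, hn, rfl⟩⟩ |
    ⟨u, v, p, rfl⟩
  · have ok := h.cv_ok hZ hc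
    exact Or.inl ⟨c.k, c.d, c.l, ⟨ok.r1, ok.r2, ⟨_, ok.tagl⟩, ok.lo, fun N => ⟨N, le_rfl, c.Y N,
      CS_sub hc (Or.inr ⟨N, h.lp_stop c N⟩), ok.vh N, h.lp_SG ok N _ (h.lp_stop c N),
      ok.lim N⟩⟩, rfl⟩
  · have ok := h.cv_ok hZ hc
    have l0 := lev_pos h.hS.pos (n + 1)
    refine Or.inr ⟨c.k, c.d, n + 1, _, _, _, ⟨ok.r1, ok.r2, l0.le, ?_, ok.vh _, fun n' hn' =>
      ⟨le_rfl, fun _ => ?_, fun σ s1 s2 => ⟨c.q, ?_⟩⟩, h.lp_SG ok n⟩, rfl, fun l => by omega⟩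
    · rw [lev_succ]
      exact (lev_le h.hS.pos n).trans (lt_hw h.hS ok.r1 ok.r2).le
    · rw [div_mul_cancel₀ _ l0.ne', add_sub_cancel, show n' = n by omega]
      exact ok.vh n
    · rw [h.lp_par]
      exact ok.tag n _ (by positivity) ((div_le_one l0).2 s2)
  · have ok := (h.hG.ends e he ha τ).1
    obtain ⟨-, a2, a3, a4⟩ := h.loc he ha τ
    refine Or.inl ⟨locK e τ, E.G.dir e τ, _, ⟨ok.2.2.1, ok.2.2.2.1,
      ⟨_, h.tag_ev a2 a3 a4 (by simpa using h.rho_pos)⟩, h.ev_LO hZ a2 a3 a4, fun N => ?_⟩, rfl⟩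
    obtain ⟨n, hn, hn'⟩ := h.hJ e he τ N
    obtain ⟨p, p'⟩ := h.stub_pce he ha hn'
    exact ⟨n, hn, _, ⟨_, Or.inr (Or.inl ⟨e, τ, he, ha, rfl, Or.inr ⟨n, hn', rfl⟩⟩), rfl⟩, p.vh,
      p.sg _ (pc_start _ _ _ _ _ _ le_rfl), p'⟩
  · exact Or.inr ⟨_, _, n, _, 0, 0, (h.stub_pce he ha hn).1, (pc_zero ..).symm,
      fun _ => Or.inl rfl⟩
  · obtain ⟨μ, τ, a1, a2, a3⟩ := h.hp_start hM p
    have ok := (h.pr_ok p).2.1
    refine Or.inr ⟨u.k, u.d, 0, u.Y 0, μ, τ, ⟨ok.r1, ok.r2, a1, by simpa using a2, ok.vh 0,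
      fun n' l => by omega, ?_⟩, by simpa using a3, fun _ => Or.inr ⟨u, v, p, rfl⟩⟩
    simpa [← a3] using h.hp_SG hM p

theorem cv_finite (Z : ℕ) : {c | E.Cv Z c}.Finite := by
  refine (((E.X.SS.finite_toSet.prod (finite_univ (α := Bool))).image
    fun x => E.tailC Z x.1 x.2).union ((pr_finite (E := E)).image Prod.fst)).subset ?_
  rintro c (⟨e, τ, a, -, -, -, rfl⟩ | ⟨v, p⟩)
  · exact Or.inl ⟨(e, τ), ⟨a, mem_univ _⟩, rfl⟩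
  · exact Or.inr ⟨(c, v), ⟨Z, p⟩, rfl⟩

theorem at_countable (Z : ℕ) : {S | E.At M Z S}.Countable := by
  refine ((((cv_finite (E := E) Z).countable.prod (countable_univ (α := Option ℕ))).image
    fun x => x.2.elim {(E.G.a x.1.k, x.1.l)} (E.lp x.1)).union
    ((countable_range fun x : Str × Bool × Option ℕ =>
      x.2.2.elim {E.EP (locK x.1 x.2.1) (locR x.1 x.2.1)} fun n => {E.Qp x.1 x.2.1 n}).union
      ((pr_finite (E := E)).countable.image fun p => E.hp M p.1 p.2))).mono ?_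
  rintro S (⟨c, hc, rfl | ⟨n, rfl⟩⟩ | ⟨e, τ, -, -, -, rfl | ⟨n, -, rfl⟩⟩ | ⟨u, v, p, rfl⟩)
  · exact Or.inl ⟨(c, none), ⟨hc, mem_univ _⟩, rfl⟩
  · exact Or.inl ⟨(c, some n), ⟨hc, mem_univ _⟩, rfl⟩
  · exact Or.inr (Or.inl ⟨(e, τ, none), rfl⟩)
  · exact Or.inr (Or.inl ⟨(e, τ, some n), rfl⟩)
  · exact Or.inr (Or.inr ⟨(u, v), ⟨Z, p⟩, rfl⟩)

theorem Good.KN_closed (h : E.Good) (hM : E.Big M) {Z : ℕ} (hZ : Z < E.X.n) :
    IsClosed (E.KN M Z) := by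
  have f1 : {x : Str × Bool | x.1 ∈ E.X.SS ∧ E.G.act x.1 ∧ x.1.1 = Z}.Finite :=
    (E.X.SS.finite_toSet.prod (finite_univ (α := Bool))).subset fun x hx => ⟨hx.1, mem_univ _⟩
  have f2 : {p : Crv × Crv | E.Pr Z p.1 p.2}.Finite := pr_finite.subset fun p hp => ⟨Z, hp⟩
  have c1 := (cv_finite (E := E) Z).isClosed_biUnion fun c hc => h.CS_closed (h.cv_ok hZ hc)
  have c2 := f1.isClosed_biUnion (f := fun x => {z | z = E.EP (locK x.1 x.2) (locR x.1 x.2) ∨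
      ∃ n, z ∈ {z | E.J n = x ∧ z = E.Qp x.1 x.2 n}}) fun x hx =>
    lim_closed (fun n => Set.Subsingleton.isClosed fun z a w b => a.2.trans b.2.symm) h.eps (by
      rintro n _ ⟨hn, rfl⟩
      rw [Qp, EP, dist_xp _ _ _ (lev_pos h.hS.pos n).le]
      exact max_le (h.lev_le_eps n) (h.stub_pce hx.1 hx.2.1 hn).2)
  have c3 := f2.isClosed_biUnion (f := fun p => E.hp M p.1 p.2) fun p hp => by
    obtain ⟨μ, τ, -, -, e⟩ := h.hp_start hM hp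
    exact e ▸ pc_closed ..
  convert c1.union (c2.union c3) using 1
  ext z
  simp only [mem_union, mem_iUnion, mem_ofPred_eq, exists_prop]
  constructor
  · rintro ⟨S, ⟨c, hc, rfl | ⟨n, rfl⟩⟩ | ⟨e, τ, a, b, c, rfl | ⟨n, hn, rfl⟩⟩ | ⟨u, v, p, rfl⟩, hz⟩
    · exact Or.inl ⟨c, hc, Or.inl hz⟩
    · exact Or.inl ⟨c, hc, Or.inr ⟨n, hz⟩⟩
    · exact Or.inr (Or.inl ⟨(e, τ), ⟨a, b, c⟩, Or.inl hz⟩)
    · exact Or.inr (Or.inl ⟨(e, τ), ⟨a, b, c⟩, Or.inr ⟨n, hn, hz⟩⟩)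
    · exact Or.inr (Or.inr ⟨(u, v), p, hz⟩)
  · rintro (⟨c, hc, hz⟩ | ⟨⟨e, τ⟩, ⟨a, b, c⟩, hz | ⟨n, hn, hz⟩⟩ | ⟨p, hp, hz⟩)
    · exact CS_sub hc hz
    · exact ⟨_, Or.inr (Or.inl ⟨e, τ, a, b, c, Or.inl rfl⟩), hz⟩
    · exact ⟨_, Or.inr (Or.inl ⟨e, τ, a, b, c, Or.inr ⟨n, hn, rfl⟩⟩), hz⟩
    · exact ⟨_, Or.inr (Or.inr ⟨p.1, p.2, hp, rfl⟩), hz⟩

theorem Good.lpt_pce (h : E.Good) {Z k k' : ℕ} {d d' : Bool} {l t : ℝ} (p : E.Lpt M Z k d l)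
    (r1 : 1 ≤ clk k' d') (r2 : clk k' d' < E.X.K) (t0 : 0 < t) (t1 : t ≤ hw E.G k' d') :
    E.G.a k ≠ xp E.G k' d' t := fun e => by
  have w := (lt_hw h.hS p.r1 p.r2).trans' h.hS.pos
  rcases abscissa h.hG p.r1 p.r2 r1 r2 le_rfl w.le t0.le t1 ((xp_zero ..).trans e) with
    ⟨-, -, a⟩ | ⟨-, -, a⟩ | ⟨-, -, a, -⟩ <;> linarith

theorem Good.pce_far (h : E.Good) {Z k : ℕ} {d : Bool} {n : ℕ} {y μ τ σ : ℝ}
    (p : E.Pce Z k d n y μ τ) (s0 : 0 ≤ σ) (s1 : σ ≤ τ) :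
    (E.θ / 2 ^ n + σ ≤ E.θ ∧ ∃ q, E.Tag Z k q (y + μ * σ)) ∨
      (E.θ < E.θ / 2 ^ n + σ ∧ n = 0 ∧ τ ≠ 0) := by
  rcases n with _ | n
  · rcases s0.eq_or_lt with rfl | l
    · obtain ⟨q, hq, -⟩ := p.vh
      exact Or.inl ⟨by simp, q, by simpa using hq⟩
    · exact Or.inr ⟨by simpa using l, rfl, by linarith⟩
  · obtain ⟨a, -, b⟩ := p.thin n rfl
    exact Or.inl ⟨by linarith [lev_succ E.θ n, lev_le h.hS.pos n], b σ s0 s1⟩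

theorem Good.KN_dc (h : E.Good) (hM : E.Big M) {Z Y : ℕ} (hZ : Z < E.X.n) (hY : Y < E.X.n)
    (hd : E.G.dc Z Y) {z : ℝ × ℝ} (hz : z ∈ E.KN M Z) (hz' : z ∈ E.KN M Y) : False := by
  obtain ⟨S, a1, a2⟩ := hz
  obtain ⟨S', b1, b2⟩ := hz'
  rcases h.at_cases hM hZ a1 with ⟨k, d, l, p, rfl⟩ | ⟨k, d, n, y, μ, τ, p, e, f⟩ <;>
    rcases h.at_cases hM hY b1 with ⟨k', d', l', p', rfl⟩ | ⟨k', d', n', y', μ', τ', p', e', f'⟩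
  · obtain ⟨c1, rfl⟩ := Prod.ext_iff.1 (a2.symm.trans b2)
    obtain rfl : k = k' := by
      rcases lt_trichotomy k k' with m | m | m
      · exact absurd c1 (lt_of_succ h.hG.a_lt m (k_lt p'.r2)).ne
      · exact m
      · exact absurd c1 (lt_of_succ h.hG.a_lt m (k_lt p.r2)).ne'
    obtain ⟨q, hq⟩ := p.tag
    obtain ⟨q', hq'⟩ := p'.tag
    exact h.tag_dc hZ hY hd hq hq'
  · obtain ⟨σ, ⟨s0, s1⟩, c⟩ := e' ▸ b2
    exact h.lpt_pce p p'.r1 p'.r2 (by linarith [lev_pos h.hS.pos n']) (by linarith [p'.top])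
      (congrArg Prod.fst (c.trans a2)).symm
  · obtain ⟨σ, ⟨s0, s1⟩, c⟩ := e ▸ a2
    exact h.lpt_pce p' p.r1 p.r2 (by linarith [lev_pos h.hS.pos n]) (by linarith [p.top])
      (congrArg Prod.fst (c.trans b2)).symm
  · obtain ⟨σ, ⟨s0, s1⟩, c⟩ := e ▸ a2
    obtain ⟨σ', ⟨s0', s1'⟩, c'⟩ := e' ▸ b2
    obtain ⟨c1, c2⟩ := Prod.ext_iff.1 (c.trans c'.symm)
    simp only at c1 c2
    have l0 := lev_pos h.hS.pos n
    have l0' := lev_pos h.hS.pos n'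
    have w := lt_hw h.hS p.r1 p.r2
    have w' := lt_hw h.hS p'.r1 p'.r2
    have ab := abscissa h.hG p.r1 p.r2 p'.r1 p'.r2 (by linarith) (by linarith [p.top])
      (by linarith) (by linarith [p'.top]) c1
    rcases h.pce_far p s0 s1 with ⟨g1, q, g2⟩ | ⟨g1, g2, g3⟩ <;>
      rcases h.pce_far p' s0' s1' with ⟨g1', q', g2'⟩ | ⟨g1', g2', g3'⟩
    · rcases ab with ⟨rfl, -⟩ | ⟨rfl, -⟩ | ⟨-, -, a, -⟩
      · exact h.tag_dc hZ hY hd g2 (c2 ▸ g2')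
      · exact h.tag_dc hZ hY hd g2 (c2 ▸ g2')
      · linarith
    · rcases ab with ⟨-, -, a⟩ | ⟨-, a, -⟩ | ⟨-, -, a, -⟩ <;> linarith
    · rcases ab with ⟨-, -, a⟩ | ⟨-, a, -⟩ | ⟨-, -, -, a⟩ <;> linarith
    · obtain ⟨u, v, r, rfl⟩ := (f g2).resolve_left g3
      obtain ⟨u', v', r', rfl⟩ := (f' g2').resolve_left g3'
      exact h.hp_dc hM r r' hd a2 b2

theorem Good.vtx (h : E.Good) (hM : E.Big M) {Z : ℕ} (hZ : Z < E.X.n) {k : ℕ} {d : Bool}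
    (r1 : 1 ≤ clk k d) (r2 : clk k d < E.X.K) {n : ℕ} {y : ℝ}
    (hz : (xp E.G k d (E.θ / 2 ^ n), y) ∈ E.KN M Z) : E.VH Z k n y := by
  obtain ⟨S, a1, a2⟩ := hz
  have l0 := lev_pos h.hS.pos n
  have l1 := lev_le h.hS.pos n
  have w := lt_hw h.hS r1 r2
  rcases h.at_cases hM hZ a1 with ⟨k', d', l, p, rfl⟩ | ⟨k', d', n', y', μ, τ, p, rfl, -⟩
  · exact (h.lpt_pce p r1 r2 l0 (by linarith) (congrArg Prod.fst a2).symm).elim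
  · obtain ⟨σ, ⟨s0, s1⟩, c⟩ := a2
    obtain ⟨c1, c2⟩ := Prod.ext_iff.1 c
    have l0' := lev_pos h.hS.pos n'
    simp only at c1 c2
    rcases abscissa h.hG p.r1 p.r2 r1 r2 (by linarith) (by linarith [p.top]) l0.le (by linarith)
      c1 with ⟨rfl, -, a⟩ | ⟨-, -, a⟩ | ⟨-, -, -, a⟩
    · rcases lt_trichotomy n n' with m | rfl | m
      · obtain ⟨n'', rfl⟩ : ∃ n'', n' = n'' + 1 := ⟨n' - 1, by omega⟩
        obtain ⟨b1, b2, -⟩ := p.thin n'' rfl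
        have b3 := lev_succ E.θ n''
        rcases (Nat.le_of_lt_succ m).eq_or_lt with rfl | m'
        · obtain rfl : σ = τ := by linarith
          exact c2 ▸ b2 (by linarith)
        · linarith [lev_lt h.hS.pos m']
      · obtain rfl : σ = 0 := by linarith
        simpa [← c2] using p.vh
      · linarith [lev_lt h.hS.pos m]
    · linarith
    · linarith

theorem Good.pce_io (h : E.Good) (hM : E.Big M) {Z Y : ℕ} (hZ : Z < E.X.n) (hY : Y < E.X.n)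
    (hd : E.G.io Z Y) {k : ℕ} {d : Bool} {n : ℕ} {y μ τ : ℝ} (p : E.Pce Z k d n y μ τ) :
    (pc E.G k d (E.θ / 2 ^ n) y μ τ ∩ E.KN M Y).Countable := by
  refine ((at_countable (E := E) (M := M) Y).biUnion
    (t := fun S _ => pc E.G k d (E.θ / 2 ^ n) y μ τ ∩ S) fun S hS => ?_).mono
    fun z ⟨a, S, b, c⟩ => mem_iUnion₂.2 ⟨S, b, mem_inter a c⟩
  rcases h.at_cases hM hY hS with ⟨k', d', l, -, rfl⟩ | ⟨k', d', n', y', μ', τ', p', rfl, -⟩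
  · exact (countable_singleton _).mono inter_subset_right
  refine ((toFinite {0, τ, hw E.G k d - E.θ / 2 ^ n, (y' - y) / (μ - μ')}).countable.image
    fun σ => (xp E.G k d (E.θ / 2 ^ n + σ), y + μ * σ)).mono ?_
  rintro _ ⟨⟨σ, ⟨s0, s1⟩, rfl⟩, σ', ⟨s0', s1'⟩, c⟩
  refine ⟨σ, ?_, rfl⟩
  obtain ⟨c1, c2⟩ := Prod.ext_iff.1 c
  have l0 := lev_pos h.hS.pos n
  have l0' := lev_pos h.hS.pos n'
  simp only [mem_insert_iff, mem_singleton_iff] at c1 c2 ⊢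
  rcases abscissa h.hG p'.r1 p'.r2 p.r1 p.r2 (by linarith) (by linarith [p'.top]) (by linarith)
    (by linarith [p.top]) c1 with ⟨rfl, -, a⟩ | ⟨-, -, a⟩ | ⟨-, -, -, a⟩
  · have step : ∀ {m m' : ℕ}, m < m' + 1 → E.θ / 2 ^ (m' + 1) + E.θ / 2 ^ (m' + 1) ≤
        E.θ / 2 ^ m := fun {m m'} l => by
      rw [lev_succ]
      rcases (Nat.le_of_lt_succ l).eq_or_lt with rfl | l'
      · exact le_rfl
      · exact (lev_lt h.hS.pos l').le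
    rcases lt_trichotomy n n' with m | rfl | m
    · obtain ⟨n'', rfl⟩ : ∃ n'', n' = n'' + 1 := ⟨n' - 1, by omega⟩
      exact Or.inl (by linarith [(p'.thin n'' rfl).1, step m])
    · obtain rfl : σ' = σ := by linarith
      have ne : y ≠ y' := fun l => h.vh_io hZ hY hd p.vh (l ▸ p'.vh)
      have ne' : μ - μ' ≠ 0 := fun l => ne (by rw [sub_eq_zero.1 l] at c2; linarith)
      exact Or.inr (Or.inr (Or.inr (by field_simp; linarith)))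
    · obtain ⟨n'', rfl⟩ : ∃ n'', n = n'' + 1 := ⟨n - 1, by omega⟩
      exact Or.inr (Or.inl (by linarith [(p.thin n'' rfl).1, step m]))
  · linarith
  · exact Or.inr (Or.inr (Or.inl (by linarith)))

end Dat

end Pool.Agent.Lib.MP_02e8f2_lc
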