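import Pool.Agent.Lib.MP_02e8f2_lc.Skel
import Pool.Agent.Lib.MP_02e8f2_lc.SoundA

/-!
From a certificate with a drawing to regions.
-/

set_option autoImplicit false

namespace Pool.Agent.Lib.MP_02e8f2_lc

open Set Filter Topology

/-- Two points lie in a connected part of `U`. -/
def Rl (U : Set (ℝ × ℝ)) (z w : ℝ × ℝ) : Prop := ∃ T ⊆ U, IsPreconnected T ∧ z ∈ T ∧ w ∈ T

theorem Rl.symm {U : Set (ℝ × ℝ)} {z w : ℝ × ℝ} (h : Rl U z w) : Rl U w z :=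
  let ⟨T, a, b, c, d⟩ := h
  ⟨T, a, b, d, c⟩

theorem Rl.trans {U : Set (ℝ × ℝ)} {z w v : ℝ × ℝ} (h : Rl U z w) (h' : Rl U w v) : Rl U z v :=
  let ⟨T, a, b, c, d⟩ := h
  let ⟨T', a', b', c', d'⟩ := h'
  ⟨T ∪ T', union_subset a a', b.union w d c' b', Or.inl c, Or.inr d'⟩

theorem Rl.mono {U V : Set (ℝ × ℝ)} {z w : ℝ × ℝ} (h : Rl U z w) (h' : U ⊆ V) : Rl V z w :=
  let ⟨T, a, b⟩ := h
  ⟨T, a.trans h', b⟩

namespace Dat

variable {E : Dat} {M : ℝ}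

theorem Good.KN_den (h : E.Good) (hM : E.Big M) {Z : ℕ} (hZ : Z < E.X.n) {F : Set (ℝ × ℝ)}
    (hF : ∀ z ∈ F, SG E.X E.G E.J E.θ Z z → ∃ Y < E.X.n, E.G.io Z Y ∧ z ∈ E.KN M Y) :
    E.KN M Z ⊆ closure (E.KN M Z \ F) := by
  have vx : ∀ k d (n : ℕ) y, 1 ≤ clk k d → clk k d < E.X.K → E.VH Z k n y →
      SG E.X E.G E.J E.θ Z (xp E.G k d (E.θ / 2 ^ n), y) →
        (xp E.G k d (E.θ / 2 ^ n), y) ∉ F := fun k d n y r1 r2 a b c => by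
    obtain ⟨Y, hY, e, f⟩ := hF _ c b
    exact h.vh_io hZ hY e a (h.vtx hM hY r1 r2 f)
  rintro z ⟨S, hS, hz⟩
  have sub : S ⊆ E.KN M Z := fun w hw => ⟨S, hS, hw⟩
  rcases h.at_cases hM hZ hS with ⟨k, d, l, p, rfl⟩ | ⟨k, d, n, y, μ, τ, p, rfl, -⟩
  · obtain rfl : z = _ := hz
    refine h.lim_mem (d := d) fun N => ?_
    obtain ⟨n, a, y, b, c, e, f⟩ := p.lim N
    exact ⟨n, a, y, ⟨b, vx k d n y p.r1 p.r2 c e⟩, f⟩
  · rcases p.τ0.eq_or_lt with rfl | l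
    · have sg := p.sg z hz
      rw [pc_zero] at hz sub
      obtain rfl : z = _ := hz
      exact subset_closure ⟨sub rfl, vx k d n y p.r1 p.r2 p.vh sg⟩
    · refine closure_mono (sdiff_subset_sdiff_left sub) (pc_dense l ?_ hz)
      refine (((finite_Iio E.X.n).subset (t := {Y | Y < E.X.n ∧ E.G.io Z Y})
        fun Y hY => hY.1).countable.biUnion fun Y hY => h.pce_io hM hZ hY.1 hY.2 p).mono ?_
      rintro w ⟨a, b⟩
      obtain ⟨Y, hY, e, f⟩ := hF w b (p.sg w a)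
      exact mem_iUnion₂.2 ⟨Y, ⟨hY, e⟩, mem_inter a f⟩

theorem Good.KN_LO (h : E.Good) (hM : E.Big M) {Z : ℕ} (hZ : Z < E.X.n) {z : ℝ × ℝ}
    (hz : z ∈ E.KN M Z) : E.LO Z z := by
  obtain ⟨S, hS, hz⟩ := hz
  rcases h.at_cases hM hZ hS with ⟨k, d, l, p, rfl⟩ | ⟨k, d, n, y, μ, τ, p, rfl, -⟩
  · obtain rfl : z = _ := hz
    exact p.lo
  · exact fun C hC hv => ⟨fun l => (p.sg z hz C hC hv).1 (h.hT.nt_sub _ hZ _ hC l).1,
      fun l => (p.sg z hz C hC hv).2 (h.hT.dc_io _ hZ _ hC l)⟩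

theorem Good.cv_rl (h : E.Good) {Z : ℕ} (hZ : Z < E.X.n) {c : Crv} (hc : E.Cv Z c) {z : ℝ × ℝ}
    (hz : z ∈ E.CS c) : Rl (E.KN M Z) z (E.G.a c.k, c.l) :=
  ⟨_, CS_sub hc, h.CS_conn (h.cv_ok hZ hc), hz, Or.inl rfl⟩

theorem Good.hp_rl (h : E.Good) (hM : E.Big M) {Z : ℕ} {u v : Crv} (p : E.Pr Z u v) {z : ℝ × ℝ}
    (hz : z ∈ E.hp M u v) : Rl (E.KN M Z) z (E.G.a u.k, u.l) := by
  obtain ⟨μ, τ, a, -, e⟩ := h.hp_start hM p
  refine Rl.trans (w := (xp E.G u.k u.d E.θ, u.Y 0)) ⟨E.hp M u v,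
    fun w hw => ⟨_, Or.inr (Or.inr ⟨u, v, p, rfl⟩), hw⟩, e ▸ pc_conn _ _ _ _ _ _ _, hz,
    e ▸ pc_start _ _ _ _ _ _ a⟩ (h.cv_rl (h.pr_ok p).1 (Or.inr ⟨v, p⟩) (Or.inr ⟨0, ?_⟩))
  simpa using h.lp_stop u 0

theorem vc_lim (e : Str) (m : ℕ) (d d' : Bool) :
    (E.G.a (E.vc e m d).k, (E.vc e m d).l) = (E.G.a (E.vc e m d').k, (E.vc e m d').l) := by
  unfold vc
  split_ifs <;> rfl

theorem Good.str_rl (h : E.Good) (hM : E.Big M) {e : Str} (he : Act E.X E.G e) {m : ℕ}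
    (hm : m < E.N e) (d d' : Bool) : Rl (E.KN M e.1) (E.G.a (E.vc e m d).k, (E.vc e m d).l)
      (E.EP (locK e false) (locR e false)) ∧
    Rl (E.KN M e.1) (E.G.a (E.vc e (m + 1) d').k, (E.vc e (m + 1) d').l)
      (E.EP (locK e false) (locR e false)) := by
  have step : ∀ m < E.N e, ∀ d d', Rl (E.KN M e.1)
      (E.G.a (E.vc e (m + 1) d').k, (E.vc e (m + 1) d').l)
      (E.G.a (E.vc e m d).k, (E.vc e m d).l) := fun m hm d d' => by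
    have p : E.Pr e.1 _ _ := ⟨e, m, he, rfl, hm, Or.inl ⟨rfl, rfl⟩⟩
    obtain ⟨z, a, b⟩ := h.hp_meet hM p
    rw [vc_lim e m d, vc_lim e (m + 1) d']
    exact (h.hp_rl hM p.symm b).symm.trans (h.hp_rl hM p a)
  induction m generalizing d d' with
  | zero => exact ⟨(step 0 hm d d).symm.trans (step 0 hm d d), step 0 hm d d'⟩
  | succ m ih => exact ⟨(ih (by omega) d d).2, (step _ hm d d').trans (ih (by omega) d d).2⟩

open Classical in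
/-- The skeleton of any node. -/
noncomputable def KK (E : Dat) (M : ℝ) (Z : ℕ) : Set (ℝ × ℝ) :=
  if E.X.cvx Z = true then KC E.X E.G E.J E.θ Z else E.KN M Z

theorem KK_cvx {Z : ℕ} (h : E.X.cvx Z = true) : E.KK M Z = KC E.X E.G E.J E.θ Z := if_pos h

theorem KK_non {Z : ℕ} (h : E.X.cvx Z = false) : E.KK M Z = E.KN M Z := if_neg (by simp [h])

theorem Good.ep_mem (h : E.Good) {Z k r : ℕ} (hZ : Z < E.X.n) (hk : k < E.X.K) (hr : r < E.X.R)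
    (hm : E.G.mem Z k r) : E.EP k r ∈ E.KK M Z := by
  rcases hv : E.X.cvx Z with _ | _
  · rw [KK_non hv]
    exact ⟨_, Or.inr (Or.inl ⟨(Z, k, r, k, r), false, (E.X.mem_SS _).2 ⟨hZ, hk, hr, hk, hr⟩,
      h.hG.stub Z hZ hv k hk r hr hm, rfl, Or.inl rfl⟩), rfl⟩
  · rw [KK_cvx hv]
    obtain ⟨a, b, c⟩ := h.hG.mcvx Z hZ hv k hk r hr hm
    exact mem_line h.hG h.hS hZ hv hk a b c

theorem Good.ev_rl (h : E.Good) (hM : E.Big M) {A : ℕ} (hA : A < E.X.n) (hc : E.X.con A = true) :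
    ∃ p, ∀ k < E.X.K, ∀ r < E.X.R, E.G.mem A k r → Rl (E.KN M A) (E.EP k r) p := by
  classical
  set T := {x : ℕ × ℕ | x.1 < E.X.K ∧ x.2 < E.X.R ∧ E.G.mem A x.1 x.2}
  have hT : T.Finite := ((finite_Iio E.X.K).prod (finite_Iio E.X.R)).subset fun x hx =>
    ⟨hx.1, hx.2.1⟩
  obtain ⟨k₁, a, r₁, b, c⟩ := h.hG.mex A hA
  obtain ⟨p, hp, hp'⟩ := exists_min_image T (fun x => E.G.rk A x.1 x.2) hT ⟨(k₁, r₁), a, b, c⟩
  refine ⟨E.EP p.1 p.2, ?_⟩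
  by_contra hn
  push Not at hn
  obtain ⟨k₂, a', r₂, b', c', d'⟩ := hn
  obtain ⟨x, ⟨hx, hx1⟩, hx'⟩ := exists_min_image
    {x ∈ T | ¬ Rl (E.KN M A) (E.EP x.1 x.2) (E.EP p.1 p.2)} (fun x => E.G.rk A x.1 x.2)
    (hT.subset fun x hx => hx.1) ⟨(k₂, r₂), ⟨a', b', c'⟩, d'⟩
  by_cases hxp : x.1 = p.1 ∧ x.2 = p.2
  · have := h.ep_mem (M := M) hA hx.1 hx.2.1 hx.2.2
    rw [KK_non (h.hcc A hc)] at this
    exact hx1 ⟨{E.EP x.1 x.2}, singleton_subset_iff.2 this, isPreconnected_singleton, rfl,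
      by rw [hxp.1, hxp.2]; rfl⟩
  obtain ⟨k₀, e1, r₀, e2, e3, e4⟩ := h.hG.conn A hA hc _ hx.1 _ hx.2.1 _ hp.1 _ hp.2.1 hx.2.2
    hp.2.2 hxp (hp' x hx)
  have s := (E.X.mem_SS (A, k₀, r₀, x.1, x.2)).2 ⟨hA, e1, e2, hx.1, hx.2.1⟩
  have he : Act E.X E.G (A, k₀, r₀, x.1, x.2) := ⟨s, e3, fun l => by
    simp only at l; rw [l.1, l.2] at e4; exact lt_irrefl _ e4⟩
  have m0 : (k₀, r₀) ∈ T := ⟨e1, e2, (h.hG.act_ok _ s e3).2.1 false⟩
  have N0 := h.hD.pos _ he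
  have r1 := (h.str_rl hM he (m := E.N (A, k₀, r₀, x.1, x.2) - 1) (by omega) true true).2
  rw [Nat.sub_add_cancel N0, vc, if_neg N0.ne', if_pos rfl] at r1
  refine hx1 (Rl.trans r1 ?_)
  by_contra l
  exact (hx' (k₀, r₀) ⟨m0, l⟩).not_gt e4

theorem Good.KK_con (h : E.Good) (hM : E.Big M) {A : ℕ} (hA : A < E.X.n)
    (hc : E.X.con A = true) : IsPreconnected {z | ∃ j < E.X.n, E.G.sub j A ∧ z ∈ E.KK M j} := by
  obtain ⟨p, hp⟩ := h.ev_rl hM hA hc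
  set U := {z | ∃ j < E.X.n, E.G.sub j A ∧ z ∈ E.KK M j}
  have sub : ∀ j < E.X.n, E.G.sub j A → E.KK M j ⊆ U := fun j hj hs z hz => ⟨j, hj, hs, hz⟩
  have subA : E.KN M A ⊆ U := KK_non (h.hcc A hc) ▸ sub A hA (h.hT.sub_refl A hA)
  have key : ∀ z ∈ U, Rl U z p := by
    rintro z ⟨j, hj, hs, hz⟩
    have ev : ∀ k < E.X.K, ∀ r < E.X.R, E.G.mem j k r → Rl U (E.EP k r) p :=
      fun k hk r hr hm => (hp k hk r hr (h.hG.msub j hj A hA hs k hk r hr hm)).mono subA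
    rcases hv : E.X.cvx j with _ | _
    · have subj : E.KN M j ⊆ U := KK_non hv ▸ sub j hj hs
      have cv : ∀ c, E.Cv j c → Rl U (E.G.a c.k, c.l) p := by
        rintro c (⟨e, τ, a, b, -, d, rfl⟩ | ⟨v, e, m, he, rfl, hm, hu⟩)
        · obtain ⟨a1, a2, a3, a4⟩ := h.loc a b τ
          exact ev _ a2 _ a3 (h.hG.msub _ a1 _ hj d _ a2 _ a3 a4)
        · obtain ⟨-, a2, a3, a4⟩ := h.loc he.1 he.2.1 false
          rcases hu with ⟨rfl, -⟩ | ⟨-, rfl⟩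
          · exact ((h.str_rl hM he hm _ true).1.mono subj).trans (ev _ a2 _ a3 a4)
          · exact ((h.str_rl hM he hm true _).2.mono subj).trans (ev _ a2 _ a3 a4)
      rw [KK_non hv] at hz
      obtain ⟨S, ⟨c, hc, rfl | ⟨n, rfl⟩⟩ | ⟨e, τ, a, b, rfl, rfl | ⟨n, hn, rfl⟩⟩ | ⟨u, v, q, rfl⟩,
        hz⟩ := hz
      · exact hz ▸ cv c hc
      · exact ((h.cv_rl hj hc (Or.inr ⟨n, hz⟩)).mono subj).trans (cv c hc)
      · obtain ⟨-, a2, a3, a4⟩ := h.loc a b τ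
        exact hz ▸ ev _ a2 _ a3 a4
      · obtain ⟨-, a2, a3, a4⟩ := h.loc a b τ
        have t := h.lp_stop (E.tailC A e τ) n
        have : (E.tailC A e τ).Y n = E.yv n (e, τ, none) := by simp [tailC, hn]
        rw [this] at t
        obtain rfl : z = _ := hz
        exact ((h.cv_rl hA (Or.inl ⟨e, τ, a, b, hc, hs, rfl⟩) (Or.inr ⟨n, t⟩)).mono subA).trans
          (ev _ a2 _ a3 a4)
      · exact ((h.hp_rl hM q hz).mono subj).trans (cv u (Or.inr ⟨v, q⟩))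
    · obtain ⟨k, hk, r, hr, hm⟩ := h.hG.mex j hj
      refine Rl.trans ⟨_, sub j hj hs, ?_, hz, h.ep_mem hj hk hr hm⟩ (ev k hk r hr hm)
      rw [KK_cvx hv]
      exact (KC_convex h.hS hj hv).isPreconnected
  refine isPreconnected_of_forall p fun z hz => ?_
  obtain ⟨T, a, b, c, d⟩ := key z hz
  exact ⟨T, a, d, c, b⟩

theorem Good.model (h : E.Good) : ∃ R, Model E.X E.G R := by
  obtain ⟨M, hM⟩ := h.exists_big
  have half : ∀ i < E.X.n, ∀ j < E.X.n, E.G.dc i j → E.X.cvx i = false → ∀ z ∈ E.KK M i,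
      z ∉ E.KK M j := fun i hi j hj hd hv z hz hz' => by
    rw [KK_non hv] at hz
    rcases hv' : E.X.cvx j with _ | _
    · rw [KK_non hv'] at hz'
      exact h.KN_dc hM hi hj hd hz hz'
    · rw [KK_cvx hv'] at hz'
      exact (h.KN_LO hM hi hz j hj hv').2 hd hz'
  refine skeleton E.X E.G h.hT (E.KK M) (fun i hi => ?_) (fun i hi => ?_)
    (fun i hi j hj hd => ?_) (fun i hi C hC hv hn => ?_) (fun i hi hv => ?_)
    (fun i hi C hC hv hv' hs => ?_) (fun i hi j hj hv hv' hs => ?_)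
    (fun i hi hc => h.KK_con hM hi hc) (fun i hi j hj hm => ?_) fun i hi hv => ?_
  · rcases hv : E.X.cvx i with _ | _
    · exact KK_non hv ▸ h.KN_closed hM hi
    · exact KK_cvx hv ▸ KC_closed h.hS hi hv
  · obtain ⟨k, hk, r, hr, hm⟩ := h.hG.mex i hi
    exact ⟨_, h.ep_mem hi hk hr hm⟩
  · rcases hv : E.X.cvx i with _ | _
    · exact eq_empty_of_forall_notMem fun z hz => half i hi j hj hd hv z hz.1 hz.2
    · rcases hv' : E.X.cvx j with _ | _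
      · exact eq_empty_of_forall_notMem fun z hz =>
          half j hj i hi (h.hT.dc_symm i hi j hj hd) hv' z hz.2 hz.1
      · rw [KK_cvx hv, KK_cvx hv']
        exact KC_dc h.hG h.hS hi hv hj hv' hd (h.hT.dc_io i hi j hj hd)
  · rw [KK_cvx hv]
    rcases hv' : E.X.cvx i with _ | _
    · rw [KK_non hv']
      exact fun z hz => (h.KN_LO hM hi hz C hC hv).1 hn
    · rw [KK_cvx hv']
      exact KC_nt h.hG h.hS hi hv' hC hv hn
  · rw [KK_non hv]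
    refine h.KN_den hM hi ?_
    rintro z (⟨j, hj, a, b⟩ | ⟨C, hC, a, b, c⟩) sg
    · rcases hv' : E.X.cvx j with _ | _
      · exact ⟨j, hj, a, KK_non hv' ▸ b⟩
      · exact absurd (KK_cvx hv' ▸ b) ((sg j hj hv').2 a)
    · exact absurd ((sg C hC a).1 b) (KK_cvx a ▸ c)
  · rw [KK_cvx hv, KK_cvx hv']
    exact KC_sub h.hG h.hS hi hv hC hv' hs
  · rw [KK_cvx hv, KK_cvx hv']
    exact KC_io h.hG h.hS hi hv hj hv' hs
  · obtain ⟨k, hk, r, hr, a, b⟩ := h.hG.mmt i hi j hj hm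
    exact ⟨_, h.ep_mem hi hk hr a, h.ep_mem hj hk hr b⟩
  · rw [KK_cvx hv]
    exact ⟨KC_convex h.hS hi hv, KC_fat h.hG h.hS hi hv⟩

end Dat

theorem sound (X : Ctx) (G : GD) (hcc : ∀ i, X.con i = true → X.cvx i = false)
    (hT : Tab X.n G) (hG : Geo X G) (N : Str → ℕ) (o : Str → ℕ → Dart ℕ)
    (hD : IsDraw (parOf X G) N o) (hI : Inj (parOf X G) N o) : ∃ R, Model X G R := by
  rcases Nat.eq_zero_or_pos X.n with h0 | h0
  · refine ⟨fun _ => ∅, ?_, ?_, ?_, ?_, ?_, ?_, ?_, ?_⟩ <;> intro i hi <;> omega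
  obtain ⟨k, hk, r, hr, -⟩ := hG.mex 0 h0
  have hne : ({x | x.1 ∈ X.SS} : Set (Str × Bool)).Nonempty :=
    ⟨((0, k, r, k, r), true), (X.mem_SS _).2 ⟨h0, hk, hr, hk, hr⟩⟩
  obtain ⟨j, hj⟩ := (to_countable _).exists_eq_range hne
  have hJ : ∀ m, (j (Nat.unpair m).1).1 ∈ X.SS := fun m => (hj.ge (mem_range_self _) :)
  have hJ' : ∀ e ∈ X.SS, ∀ τ N, ∃ m ≥ N, j (Nat.unpair m).1 = (e, τ) := fun e he τ N => by
    obtain ⟨i, hi⟩ : (e, τ) ∈ range j := hj ▸ he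
    exact ⟨Nat.pair i N, Nat.right_le_pair _ _, by rw [Nat.unpair_pair, hi]⟩
  have e1 : ∀ᶠ ρ in Sm, ∀ k < X.K, ∀ r < X.R, r + 1 < X.R → 3 * ρ < G.H k (r + 1) - G.H k r :=
    ev_lt fun k hk => ev_lt fun r hr => ev_imp fun h =>
      (sm_lt (sub_pos.2 (hG.H_lt k hk r hr h)) 3).mono fun ρ h => by linarith
  obtain ⟨ρ, h1, h2⟩ := (sm_basic.and e1).exists
  obtain ⟨θ, B, hS⟩ := exists_small hG hJ hJ' h1.1
  obtain ⟨yv, hy⟩ := exists_sel hT hG hS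
  exact Dat.Good.model (E := ⟨X, G, N, o, _, θ, ρ, B, yv⟩) ⟨hcc, hT, hG, hD, hI, hS, hJ', h2, hy⟩

end Pool.Agent.Lib.MP_02e8f2_lc
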