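import Pool.Agent.Lib.MP_02e8f2_lc.TightB

/-!
Heights can be taken to be different natural numbers; minimal drawings.
-/

set_option autoImplicit false

namespace Pool.Agent.Lib.MP_02e8f2_lc

open Finset

variable {ι : Type}

/-- Task rc3.  Replace the height of vertex `(e, m)` by the number of vertices `(f, m')`
(`f ∈ SS`, `m' ≤ N f`) that are smaller in the lexicographic order of
`(height, position of f in SS, m')`. -/
theorem normalize {Y : Type} [LinearOrder Y] (P : Par ι) (hP : P.OK) (N : ι → ℕ)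
    (o : ι → ℕ → Dart Y) (h : IsDraw P N o) :
    ∃ o' : ι → ℕ → Dart ℕ, IsDraw P N o' ∧ Inj P N o' := by
  classical
  let V : Finset (ι × ℕ) := P.SS.toFinset.biUnion fun f => (range (N f + 1)).image fun m => (f, m)
  let key : ι × ℕ → Y ×ₗ ℕ ×ₗ ℕ := fun x => toLex ((o x.1 x.2).h, toLex (P.SS.idxOf x.1, x.2))
  obtain ⟨r, hr⟩ : ∃ r : ι × ℕ → ℕ, ∀ x ∈ V, ∀ y, key x < key y → r x < r y :=
    ⟨fun x => (V.filter fun z => key z < key x).card, fun x hx y hxy => rank_lt V key hx hxy⟩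
  have hV : ∀ e, P.act e → ∀ m ≤ N e, (e, m) ∈ V := by
    intro e he m hm
    simp only [V, mem_biUnion, List.mem_toFinset, mem_image, mem_range]
    exact ⟨e, hP.mem e he, m, by omega, rfl⟩
  have hlt : ∀ e f, P.act e → ∀ m ≤ N e, ∀ m', (o e m).h < (o f m').h → r (e, m) < r (f, m') :=
    fun e f he m hm m' hh => hr _ (hV e he m hm) _ (Prod.Lex.toLex_lt_toLex.2 (Or.inl hh))
  have hinj : ∀ e f, P.act e → P.act f → ∀ m ≤ N e, ∀ m' ≤ N f, r (e, m) = r (f, m') →
      e = f ∧ m = m' := by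
    intro e f he hf m hm m' hm' hh
    rcases lt_trichotomy (key (e, m)) (key (f, m')) with h1 | h1 | h1
    · exact absurd hh (hr _ (hV e he m hm) _ h1).ne
    · simp only [key, toLex_inj, Prod.mk.injEq] at h1
      exact ⟨(List.idxOf_inj (hP.mem e he)).1 h1.2.1, h1.2.2⟩
    · exact absurd hh (hr _ (hV f hf m' hm') _ h1).ne'
  have hB : ∀ e f, P.dc e f → ∀ m ≤ N e, ∀ m' ≤ N f, ∀ d d' : Bool,
      Bl (⟨(o e m).k, (o e m).q, r (e, m), d⟩ : Dart ℕ) ⟨(o f m').k, (o f m').q, r (f, m'), d'⟩ ↔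
      Bl (⟨(o e m).k, (o e m).q, (o e m).h, d⟩ : Dart Y)
        ⟨(o f m').k, (o f m').q, (o f m').h, d'⟩ := by
    intro e f hef m hm m' hm' d d'
    have he := hP.dc_act _ _ hef
    have hf := hP.dc_act _ _ (hP.dc_symm _ _ hef)
    refine and_congr_right fun h1 => and_congr_right fun _ => or_congr_right
      (and_congr_right fun h2 => ⟨fun h3 => ?_, hlt e f he m hm m'⟩)
    rcases lt_trichotomy (o e m).h (o f m').h with h4 | h4 | h4
    · exact h4
    · exact absurd ⟨h1, h2, h4⟩ (h.ne e f hef m hm m' hm')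
    · exact absurd h3 (lt_asymm (hlt f e hf m' hm' m h4))
  refine ⟨fun e m => ⟨(o e m).k, (o e m).q, r (e, m), (o e m).d⟩,
    ⟨h.pos, h.st, h.en, h.gap, h.al, fun e f hef m hm m' hm' => ?_,
      fun e f hef m hm m' hm' hh => ?_⟩, hinj⟩
  · have := h.nc e f hef m hm m' hm'
    unfold NC at this ⊢
    simp only [Dart.fl] at this ⊢
    rwa [hB e f hef m hm.le m' hm'.le, hB e f hef (m + 1) hm m' hm'.le,
      hB e f hef m hm.le (m' + 1) hm', hB e f hef (m + 1) hm (m' + 1) hm']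
  · obtain ⟨rfl, -⟩ := hinj e f (hP.dc_act _ _ hef) (hP.dc_act _ _ (hP.dc_symm _ _ hef)) m hm m'
      hm' hh.2.2
    exact hP.dc_irr _ hef

theorem cl_fl (a : Dart ℕ) : cl a.fl.side ≠ cl a.side := by
  obtain ⟨k, q, h, d⟩ := a
  cases d <;> simp [cl, clk, Dart.side, Dart.fl]

section
variable {P : Par ι} {N : ι → ℕ} {o : ι → ℕ → Dart ℕ}

theorem Inj.ne (hI : Inj P N o) {e : ι} (he : P.act e) {m m' : ℕ} (hm : m ≤ N e) (hm' : m' ≤ N e)
    (hne : m ≠ m') : (o e m).h ≠ (o e m').h := fun hh => hne (hI e e he he m hm m' hm' hh).2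

theorem Inj.dc (hI : Inj P N o) (hP : P.OK) {e f : ι} (hef : P.dc e f) {m m' : ℕ} (hm : m ≤ N e)
    (hm' : m' ≤ N f) : (o e m).h ≠ (o f m').h := fun hh => by
  obtain ⟨rfl, -⟩ := hI e f (hP.dc_act _ _ hef) (hP.dc_act _ _ (hP.dc_symm _ _ hef)) m hm m' hm' hh
  exact hP.dc_irr _ hef

theorem Mini.simple_lt (hP : P.OK) (h : IsDraw P N o) (hI : Inj P N o) (hM : Mini P N o) (e : ι)
    (he : P.act e) (m m' : ℕ) (hlt : m + 1 < m') (hm' : m' < N e) :
    NC (o e m) (o e (m + 1)).fl (o e m') (o e (m' + 1)).fl := by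
  by_contra hn
  have a1 := h.al e he m (by omega)
  have a2 := h.al e he m' hm'
  have c1 := (hP.al_cl _ _ _ a1).1
  have c2 := (hP.al_cl _ _ _ a2).1
  have hal : P.al e (o e m).side (o e (m' + 1)).fl.side := by
    by_cases s1 : (o e m).side = (o e m').side
    · rwa [s1]
    by_cases s2 : (o e m).side = (o e (m' + 1)).fl.side
    · rw [← s2]
      exact hP.al_trans _ _ _ _ a1 (hP.al_symm _ _ _ a1)
    by_cases s3 : (o e (m + 1)).fl.side = (o e m').side
    · exact hP.al_trans _ _ _ _ a1 (s3 ▸ a2)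
    by_cases s4 : (o e (m + 1)).fl.side = (o e (m' + 1)).fl.side
    · rwa [← s4]
    refine hP.al_cross _ _ _ _ _ a1 (hP.al_symm _ _ _ a2) s2 s1 s4 s3 fun hc => hn ?_
    unfold NC
    rw [bl_bs s1, bl_bs s2, bl_bs s3, bl_bs s4]
    exact hc.symm
  have h1 : ∀ f, P.dc e f → ∀ t < N f, NC (o e m) (o e (m' + 1)).fl (o f t) (o f (t + 1)).fl := by
    intro f hef t ht
    have hf := hP.dc_act _ _ (hP.dc_symm _ _ hef)
    exact nc_tri c1 c2 (hP.al_cl _ _ _ (h.al f hf t ht)).1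
      (hI.ne he (by omega) (by omega) (by omega)) (hI.ne he (by omega) (by omega) (by omega))
      (hI.ne he (by omega) (by omega) (by omega)) (hI.ne he (by omega) (by omega) (by omega))
      (hI.dc hP hef (by omega) (by omega)) (hI.dc hP hef (by omega) (by omega))
      (hI.dc hP hef (by omega) (by omega)) (hI.dc hP hef (by omega) (by omega))
      (hI.dc hP hef (by omega) (by omega)) (hI.dc hP hef (by omega) (by omega))
      (hI.dc hP hef (by omega) (by omega)) (hI.dc hP hef (by omega) (by omega))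
      (h.nc e f hef m (by omega) t ht) (h.nc e f hef m' hm' t ht) hn
  refine hM.block hP h e he m m' (by omega) hm' hal h1 fun f hfe t ht => ?_
  have hef := hP.dc_symm _ _ hfe
  exact nc_symm (hP.al_cl _ _ _ hal).1 (hP.al_cl _ _ _ (h.al f (hP.dc_act _ _ hfe) t ht)).1
    (hI.dc hP hef (by omega) (by omega)) (hI.dc hP hef (by omega) (by omega))
    (hI.dc hP hef (by omega) (by omega)) (hI.dc hP hef (by omega) (by omega)) (h1 f hef t ht)

theorem Mini.simple (hP : P.OK) (h : IsDraw P N o) (hI : Inj P N o) (hM : Mini P N o) (e : ι)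
    (he : P.act e) (m : ℕ) (hm : m < N e) (m' : ℕ) (hm' : m' < N e) (hne : m ≠ m') :
    NC (o e m) (o e (m + 1)).fl (o e m') (o e (m' + 1)).fl := by
  have c1 := (hP.al_cl _ _ _ (h.al e he m hm)).1
  have c2 := (hP.al_cl _ _ _ (h.al e he m' hm')).1
  by_cases e1 : m' = m + 1
  · subst e1
    exact nc_of_cl c1 c2 (c1 ▸ cl_fl _)
  by_cases e2 : m = m' + 1
  · subst e2
    exact nc_of_cl c1 c2 (c2 ▸ (cl_fl _).symm)
  rcases lt_or_gt_of_ne hne with h1 | h1
  · exact hM.simple_lt hP h hI e he m m' (by omega) hm'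
  · exact nc_symm c2 c1
      (hI.ne he (by omega) (by omega) (by omega)) (hI.ne he (by omega) (by omega) (by omega))
      (hI.ne he (by omega) (by omega) (by omega)) (hI.ne he (by omega) (by omega) (by omega))
      (hM.simple_lt hP h hI e he m' m (by omega) hm)

theorem inner_chord {x y z w : Dart ℕ} (hxy : x.side = y.side) (hz : z.side = x.side)
    (hb : (x.h < z.h ∧ z.h < y.h) ∨ (y.h < z.h ∧ z.h < x.h)) (wx : x.h ≠ w.h) (wy : y.h ≠ w.h)
    (hn : NC x y z w) : z.side = w.side ∧ Nat.dist z.h w.h < Nat.dist x.h y.h := by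
  obtain ⟨k1, q1, h1, d1⟩ := x
  obtain ⟨k2, q2, h2, d2⟩ := y
  obtain ⟨k3, q3, h3, d3⟩ := z
  obtain ⟨k4, q4, h4, d4⟩ := w
  simp only [Dart.side, Prod.mk.injEq] at hxy hz ⊢
  obtain ⟨rfl, rfl, rfl⟩ := hxy
  obtain ⟨rfl, rfl, rfl⟩ := hz
  simp only [NC, Bl, ne_eq, Nat.dist] at hn hb wx wy ⊢
  by_cases hd : d3 = d4
  · simp only [hd, true_and, and_true] at hn ⊢
    omega
  · simp only [hd, true_and, false_and, and_false, iff_true] at hn ⊢
    omega

theorem bl_near {u v z : Dart ℕ} (huv : u.side = v.side) (zu : u.h ≠ z.h) (zv : v.h ≠ z.h)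
    (hz : ¬ (z.k = u.k ∧ z.q = u.q ∧ ((u.h < z.h ∧ z.h < v.h) ∨ (v.h < z.h ∧ z.h < u.h)))) :
    (Bl u z ↔ Bl v z) ∧ (Bl z u ↔ Bl z v) := by
  obtain ⟨k1, q1, h1, d1⟩ := u
  obtain ⟨k2, q2, h2, d2⟩ := v
  obtain ⟨k3, q3, h3, d3⟩ := z
  simp only [Dart.side, Prod.mk.injEq] at huv
  obtain ⟨rfl, rfl, rfl⟩ := huv
  simp only [Bl, ne_eq] at zu zv hz ⊢
  by_cases hd : d1 = d3
  · simp only [hd, true_and]
    omega
  · simp only [hd, Ne.symm hd, false_and, and_false, and_self]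

theorem Mini.norm (hP : P.OK) (h : IsDraw P N o) (hI : Inj P N o) (hM : Mini P N o) (e : ι)
    (he : P.act e) (m : ℕ) (hm : m < N e) : (o e m).side ≠ (o e (m + 1)).fl.side := by
  induction hn : Nat.dist (o e m).h (o e (m + 1)).h using Nat.strong_induction_on
    generalizing e m with
  | _ n ih =>
  intro hs
  have hodd : ∀ f, P.act f → (o f 0).q % 2 = 1 ∧ (o f (N f)).q % 2 = 1 := by
    intro f hf
    have a1 := hP.st_odd f hf
    have a2 := hP.en_odd f hf
    rw [← h.st f hf] at a1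
    rw [← h.en f hf] at a2
    exact ⟨a1, a2⟩
  have hk : (o e m).k = (o e (m + 1)).k := congrArg (fun s : Side => s.1) hs
  have hq : (o e m).q = (o e (m + 1)).q := congrArg (fun s : Side => s.2.1) hs
  have hd : (o e m).d = !(o e (m + 1)).d := congrArg (fun s : Side => s.2.2) hs
  have heven : (o e m).q % 2 = 0 := by
    rcases Nat.eq_zero_or_pos m with rfl | h0
    · by_cases h1 : 0 + 1 = N e
      · refine absurd ?_ (hP.st_en e he)
        rw [← h.st e he, ← h.en e he, ← h1]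
        exact ⟨hk, hq⟩
      · rw [hq]
        exact h.gap e he _ (by omega) (by omega)
    · exact h.gap e he m h0 hm
  have hm0 : m ≠ 0 := by
    rintro rfl
    have := (hodd e he).1
    omega
  have hm1 : m + 1 ≠ N e := by
    intro h1
    have := (hodd e he).2
    rw [← h1] at this
    omega
  have hno : ∀ f, P.dc e f → ∀ t ≤ N f, ¬ ((o f t).k = (o e m).k ∧ (o f t).q = (o e m).q ∧
      (((o e m).h < (o f t).h ∧ (o f t).h < (o e (m + 1)).h) ∨
        ((o e (m + 1)).h < (o f t).h ∧ (o f t).h < (o e m).h))) := by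
    rintro f hef t ht ⟨b1, b2, b3⟩
    have hf := hP.dc_act _ _ (hP.dc_symm _ _ hef)
    by_cases b4 : (o f t).d = (o e m).d
    · have ht1 : t ≠ N f := by
        rintro rfl
        have := (hodd f hf).2
        omega
      obtain ⟨c1, c2⟩ := inner_chord hs (z := o f t) (by simp [Dart.side, b1, b2, b4]) b3
        (w := (o f (t + 1)).fl) (hI.dc hP hef (by omega) (by omega))
        (hI.dc hP hef (by omega) (by omega)) (h.nc e f hef m hm t (by omega))
      exact ih _ (hn ▸ c2) f hf t (by omega) rfl c1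
    · obtain ⟨t, rfl⟩ : ∃ t', t = t' + 1 := by
        refine ⟨t - 1, ?_⟩
        have ht0 : t ≠ 0 := by
          rintro rfl
          have := (hodd f hf).1
          omega
        omega
      have b5 : (!(o f (t + 1)).d) = (o e m).d := by
        revert b4
        cases (o f (t + 1)).d <;> cases (o e m).d <;> simp
      obtain ⟨c1, c2⟩ := inner_chord hs (z := (o f (t + 1)).fl)
        (by simp only [Dart.side, Dart.fl, b1, b2, b5]) b3
        (w := o f t) (hI.dc hP hef (by omega) (by omega))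
        (hI.dc hP hef (by omega) (by omega)) (h.nc e f hef m hm t (by omega)).symm
      rw [Nat.dist_comm] at c2
      exact ih _ (hn ▸ c2) f hf t (by omega) rfl c1.symm
  obtain ⟨m, rfl⟩ : ∃ m', m = m' + 1 := ⟨m - 1, by omega⟩
  have huv : (o e (m + 1)).fl.side = (o e (m + 1 + 1)).side := by
    simp [Dart.side, Dart.fl, hk, hq, hd]
  have hnear : ∀ f, P.dc e f → ∀ t < N f,
      ((Bl (o e (m + 1)).fl (o f t) ↔ Bl (o e (m + 1 + 1)) (o f t)) ∧
        (Bl (o f t) (o e (m + 1)).fl ↔ Bl (o f t) (o e (m + 1 + 1)))) ∧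
      ((Bl (o e (m + 1)).fl (o f (t + 1)).fl ↔ Bl (o e (m + 1 + 1)) (o f (t + 1)).fl) ∧
        (Bl (o f (t + 1)).fl (o e (m + 1)).fl ↔ Bl (o f (t + 1)).fl (o e (m + 1 + 1)))) :=
    fun f hef t ht =>
      ⟨bl_near huv (hI.dc hP hef (by omega) (by omega)) (hI.dc hP hef (by omega) (by omega))
        (hno f hef t ht.le),
      bl_near huv (hI.dc hP hef (by omega) (by omega)) (hI.dc hP hef (by omega) (by omega))
        (hno f hef (t + 1) ht)⟩
  refine hM.block hP h e he m (m + 1 + 1) (by omega) (by omega) ?_ (fun f hef t ht => ?_)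
    (fun f hfe t ht => ?_)
  · exact hP.al_trans _ _ _ _ (h.al e he m (by omega)) (huv ▸ h.al e he (m + 1 + 1) (by omega))
  · obtain ⟨⟨c1, -⟩, c2, -⟩ := hnear f hef t ht
    have n1 := h.nc e f hef m (by omega) t ht
    have n2 := h.nc e f hef (m + 1 + 1) (by omega) t ht
    unfold NC at n1 n2 ⊢
    rw [c1, c2] at n1
    tauto
  · obtain ⟨⟨-, c1⟩, -, c2⟩ := hnear f (hP.dc_symm _ _ hfe) t ht
    have n1 := h.nc f e hfe t ht m (by omega)
    have n2 := h.nc f e hfe t ht (m + 1 + 1) (by omega)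
    unfold NC at n1 n2 ⊢
    rw [c1, c2] at n1
    exact n1.trans n2

theorem Mini.bound (hP : P.OK) (h : IsDraw P N o) (hI : Inj P N o) (hM : Mini P N o) (k q : ℕ)
    (T : Finset (ι × ℕ))
    (hT : ∀ x ∈ T, P.act x.1 ∧ 0 < x.2 ∧ x.2 < N x.1 ∧ (o x.1 x.2).k = k ∧ (o x.1 x.2).q = q) :
    T.card < 2 ^ P.SS.length := by
  classical
  by_contra hc
  let ht : ι × ℕ → ℕ := fun x => (o x.1 x.2).h
  let H : Finset ℕ := insert (T.sup ht + 1) (T.image ht)
  have hcard : H.card = T.card + 1 := by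
    rw [card_insert_of_notMem, card_image_of_injOn]
    · intro x hx y hy hxy
      obtain ⟨a1, -, a2, -⟩ := hT x hx
      obtain ⟨b1, -, b2, -⟩ := hT y hy
      exact Prod.ext_iff.2 (hI _ _ a1 b1 _ a2.le _ b2.le hxy)
    · intro hx
      obtain ⟨x, hx, hx'⟩ := mem_image.1 hx
      have := le_sup (f := ht) hx
      omega
  let vec : ℕ → Fin P.SS.length → ZMod 2 :=
    fun a i => par (Win k q 0 a) (o P.SS[i]) (N P.SS[i])
  have key : ∀ h1 ∈ H, ∀ h2 ∈ H, h1 < h2 → vec h1 ≠ vec h2 := by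
    intro h1 a1 h2 a2 hlt hv
    obtain ⟨x, hx, rfl⟩ : ∃ x ∈ T, ht x = h1 := by
      rcases mem_insert.1 a1 with a1 | a1
      · rcases mem_insert.1 a2 with a2 | a2
        · omega
        · obtain ⟨y, hy, hy'⟩ := mem_image.1 a2
          have := le_sup (f := ht) hy
          omega
      · exact mem_image.1 a1
    obtain ⟨b1, b2, b3, b4, b5⟩ := hT x hx
    refine hM.window hP h k q (ht x) h2 (b5 ▸ h.gap _ b1 _ b2 b3) (fun e he => ?_) x.1 b1 x.2 b2 b3
      ⟨b4, b5, le_rfl, hlt⟩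
    obtain ⟨i, hi, rfl⟩ := List.getElem_of_mem (hP.mem e he)
    have hv' : par (Win k q 0 (ht x)) (o P.SS[i]) (N P.SS[i]) =
        par (Win k q 0 h2) (o P.SS[i]) (N P.SS[i]) := congrFun hv ⟨i, hi⟩
    rw [← zadd (par (Win k q 0 h2) (o P.SS[i]) (N P.SS[i]))]
    nth_rewrite 1 [← hv']
    unfold par
    rw [← sum_add_distrib]
    refine sum_congr rfl fun t _ => ?_
    generalize o P.SS[i] t = a
    by_cases c1 : a.k = k ∧ a.q = q
    · by_cases c2 : a.h < ht x
      · rw [ind_neg (fun w => absurd w.2.2.1 (by omega)), ind_pos ⟨c1.1, c1.2, by omega, c2⟩,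
          ind_pos ⟨c1.1, c1.2, by omega, by omega⟩, zadd]
      · rw [ind_neg (p := Win k q 0 (ht x) a) (fun w => c2 w.2.2.2), zero_add]
        exact ind_congr ⟨fun w => ⟨w.1, w.2.1, by omega, w.2.2.2⟩,
          fun w => ⟨w.1, w.2.1, by omega, w.2.2.2⟩⟩
    · rw [ind_neg (fun w => c1 ⟨w.1, w.2.1⟩), ind_neg (fun w => c1 ⟨w.1, w.2.1⟩),
        ind_neg (fun w => c1 ⟨w.1, w.2.1⟩), add_zero]
  obtain ⟨h1, a1, h2, a2, hne, hv⟩ := exists_ne_map_eq_of_card_lt_of_maps_to (s := H)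
    (t := univ) (f := vec) (by simp [hcard]; omega) (fun _ _ => mem_coe.2 (mem_univ _))
  rcases lt_or_gt_of_ne hne with h3 | h3
  · exact key h1 a1 h2 a2 h3 hv
  · exact key h2 a2 h1 a1 h3 hv.symm

end

/-- Task rc3.  See the blueprint, section Tight. -/
theorem exists_tight (P : Par ι) (hP : P.OK) (N : ι → ℕ) (o : ι → ℕ → Dart ℕ)
    (h : IsDraw P N o) (hI : Inj P N o) :
    ∃ (N' : ι → ℕ) (o' : ι → ℕ → Dart ℕ), IsDraw P N' o' ∧ Inj P N' o' ∧ Tight P N' o' := by
  obtain ⟨N', o', h', hI', hM⟩ := exists_mini P hP N o h hI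
  exact ⟨N', o', h', hI', hM.norm hP h' hI', hM.simple hP h' hI', hM.bound hP h' hI'⟩

end Pool.Agent.Lib.MP_02e8f2_lc
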