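import Pool.Agent.Lib.MP_02e8f2_lc.W1B

/-!
From a minimal drawing to a word certificate.
-/

set_option autoImplicit false

namespace Pool.Agent.Lib.MP_02e8f2_lc

variable {ι : Type}

section Defs

variable (P : Par ι) (N : ι → ℕ) (o : ι → ℕ → Dart ℕ) (e f : ι)

/-- The tails: what follows, or precedes, a block boundary on a side. -/
noncomputable def tl (x : ℕ × ℕ × ℕ × Bool) : List Bool :=
  cond x.2.2.2 (((Bks P N o e f x.1 x.2.1).drop x.2.2.1).flatten.map Prod.fst)
    (((Bks P N o e f x.1 x.2.1).take x.2.2.1).flatten.map Prod.fst).reverse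

/-- The block boundaries. -/
def anch : Finset (ℕ × ℕ × ℕ × Bool) :=
  Finset.range P.K ×ˢ Finset.range (2 * P.S) ×ˢ Finset.range (2 * P.S + 1) ×ˢ Finset.univ

/-- Words that are cut by a block boundary. -/
def Fac (J : List Bool) : Prop := ∃ c₁ ∈ anch P, ∃ c₂ ∈ anch P, ∃ P₁ P₂,
  P₁ <+: tl P N o e f c₁ ∧ P₂ <+: tl P N o e f c₂ ∧ J = P₁.reverse ++ P₂

open Classical in
/-- The number of ends of chords of `e` on side `i` whose other end is on side `i'`. -/
noncomputable def cntN (c i i' : ℕ) : ℕ :=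
  ((Finset.range (N e) ×ˢ Finset.univ).filter fun x : ℕ × Bool =>
    (dt o e x).side = sideOf P.S c i ∧ (dt o e (x.1, !x.2)).side = sideOf P.S c i').card

/-- The distance to the end of the string in the direction of the chord. -/
def mu (a : Nm) : ℕ := cond a.2.2 (N (cond a.1 e f) - a.2.1) a.2.1

end Defs

variable {P : Par ι} {N : ι → ℕ} {o : ι → ℕ → Dart ℕ} {e f : ι}

theorem mem_anch {c i t : ℕ} {d : Bool} :
    (c, i, t, d) ∈ anch P ↔ c < P.K ∧ i < 2 * P.S ∧ t ≤ 2 * P.S := by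
  simp [anch]

theorem Fac.reverse {J : List Bool} (h : Fac P N o e f J) : Fac P N o e f J.reverse := by
  obtain ⟨c₁, h₁, c₂, h₂, P₁, P₂, h3, h4, rfl⟩ := h
  exact ⟨c₂, h₂, c₁, h₁, P₂, P₁, h4, h3, by simp⟩

theorem length_Bks (c i : ℕ) : (Bks P N o e f c i).length = 2 * P.S := by simp [Bks]

theorem take_Bks {c i t : ℕ} (ht : t < 2 * P.S) : (Bks P N o e f c i).take (t + 1) =
    (Bks P N o e f c i).take t ++ [Bk P N o e f c i (pt (2 * P.S) i t)] := by
  rw [List.take_succ_eq_append_getElem (by rw [length_Bks]; exact ht)]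
  simp [Bks]

theorem drop_Bks {c i t : ℕ} (ht : t < 2 * P.S) : (Bks P N o e f c i).drop t =
    Bk P N o e f c i (pt (2 * P.S) i t) :: (Bks P N o e f c i).drop (t + 1) := by
  rw [List.drop_eq_getElem_cons (by rw [length_Bks]; exact ht)]
  simp [Bks]

theorem Bk_tail {c i i' : ℕ} (hc : c < P.K) (hi : i < 2 * P.S) (hi' : i' < 2 * P.S) :
    ∃ x ∈ anch P, (Bk P N o e f c i i').map Prod.fst <+: tl P N o e f x := by
  obtain ⟨t, ht, rfl⟩ := exists_pt hi hi'
  refine ⟨(c, i, t, true), mem_anch.2 ⟨hc, hi, ht.le⟩, ?_⟩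
  simp only [tl, cond_true]
  rw [drop_Bks ht, List.flatten_cons, List.map_append]
  exact List.prefix_append _ _

theorem count_Bk {c i i' : ℕ} (b : Bool) (hb : b = true ∨ P.dc e f) :
    ((Bk P N o e f c i i').map Prod.fst).count b = cntN P N o (cond b e f) c i i' := by
  classical
  have hn : (Bk P N o e f c i i').Nodup := nodup_srt _ _
  rw [List.count_eq_countP, List.countP_map, List.countP_eq_length_filter,
    ← List.toFinset_card_of_nodup (hn.filter _), cntN]
  refine Finset.card_nbij' (fun a => a.2) (fun x => (b, x)) ?_ ?_ ?_ fun x _ => rfl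
  · rintro ⟨b', x⟩ ha
    simp only [List.coe_toFinset, List.mem_filter, mem_Bk, Function.comp, beq_iff_eq,
      Set.mem_ofPred_eq] at ha
    obtain ⟨⟨h1, h2⟩, rfl⟩ := ha
    simp only [Finset.coe_filter, Finset.mem_product, Finset.mem_range, Finset.mem_univ,
      and_true, Set.mem_ofPred_eq]
    exact ⟨h1.1.2, h1.2, h2.2⟩
  · intro x hx
    simp only [Finset.coe_filter, Finset.mem_product, Finset.mem_range, Finset.mem_univ,
      and_true, Set.mem_ofPred_eq] at hx
    simp only [List.coe_toFinset, List.mem_filter, mem_Bk, Function.comp, beq_iff_eq,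
      Set.mem_ofPred_eq, and_true]
    exact ⟨⟨⟨hb, hx.1⟩, hx.2.1⟩, ⟨hb, hx.1⟩, hx.2.2⟩
  · rintro ⟨b', x⟩ ha
    simp only [List.coe_toFinset, List.mem_filter, Function.comp, beq_iff_eq,
      Set.mem_ofPred_eq] at ha
    exact Prod.ext ha.2.symm rfl

theorem exists_of_cntN {c i i' : ℕ} (h : ¬ (cntN P N o e c i i' : ℝ) = 0) :
    ∃ x : ℕ × Bool, x.1 < N e ∧ (dt o e x).side = sideOf P.S c i ∧
      (dt o e (x.1, !x.2)).side = sideOf P.S c i' := by
  classical
  obtain ⟨x, hx⟩ := Finset.card_pos.1 (Nat.pos_of_ne_zero fun h0 => h (by rw [cntN, h0]; simp))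
  simp only [Finset.mem_filter, Finset.mem_product, Finset.mem_range, Finset.mem_univ,
    and_true] at hx
  exact ⟨x, hx⟩

namespace Hyp

variable (C : Hyp P N o e f)
include C

theorem Bk_factor {c i i' : ℕ} (hi : i < 2 * P.S) (hi' : i' < 2 * P.S) :
    Bk P N o e f c i i' <:+: Lw1 P N o e f c i := by
  obtain ⟨t, ht, rfl⟩ := exists_pt hi hi'
  rw [← C.flatten_Bks hi]
  exact List.infix_of_mem_flatten (List.mem_map.2 ⟨t, List.mem_range.2 ht, rfl⟩)

theorem fac_aux (n : ℕ) : ∀ c < P.K, ∀ i < 2 * P.S, ∀ (a : Nm) (J : List Nm), mu N e f a = n →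
    a :: J <:+: Lw1 P N o e f c i → Fac P N o e f ((a :: J).map Prod.fst) := by
  induction n using Nat.strong_induction_on with
  | _ n ih =>
  intro c hc i hi a J hn hJ
  rw [← C.flatten_Bks hi] at hJ
  rcases factor_flatten _ _ hJ with ⟨t, ht, J₁, J₂, h1, h2, h3⟩ | ⟨l, hl, h1⟩
  · rw [length_Bks] at ht
    refine ⟨(c, i, t, false), mem_anch.2 ⟨hc, hi, ht⟩, (c, i, t, true), mem_anch.2 ⟨hc, hi, ht⟩,
      (J₁.map Prod.fst).reverse, J₂.map Prod.fst, ?_, h3.map _, by simp [h1]⟩
    exact List.reverse_prefix.2 (h2.map _)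
  · obtain ⟨t, ht, rfl⟩ := List.mem_map.1 hl
    have hi' := pt_lt1 hi (List.mem_range.1 ht)
    generalize pt (2 * P.S) i t = i' at h1 hi'
    have h2 : ((a :: J).map io).reverse <:+: Lw1 P N o e f c i' := by
      refine List.IsInfix.trans ?_ (C.Bk_factor hi' hi)
      rw [C.Bk_rev hi hi']
      exact List.reverse_infix.2 (h1.map _)
    have ha := mem_Bk.1 (h1.subset List.mem_cons_self)
    rcases Nat.mod_two_eq_zero_or_one (sideOf P.S c i').2.1 with hq | hq
    · obtain ⟨g1, g2, -⟩ := C.ga_spec ha.2.1 (by rw [← ha.2.2] at hq; exact hq)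
      have g3 := C.interior ha.2.1 (by rw [← ha.2.2] at hq; exact hq)
      obtain ⟨c', hc', i'', hi'', g4⟩ := C.exists_at g1
      have g5 := C.Lw_glue (c' := c') (i' := i'') hq (by rw [← g4.2, g2, side_fl, ha.2.2])
      have g6 : ga (io a) :: (J.map io).map ga <:+: Lw1 P N o e f c' i'' := by
        rw [g5]
        simpa using List.reverse_infix.2 (h2.map ga)
      have g7 : mu N e f (ga (io a)) < n := by
        rw [← hn]
        rcases a with ⟨b, j, _ | _⟩ <;> simp [mu, ga, io, vx] at g3 ⊢ <;> omega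
      have g8 := ih _ g7 c' hc' i'' hi'' _ _ rfl g6
      simpa [ga_fst, io_fst, Function.comp_def] using g8
    · have g1 := (C.Bk_factor hi' hi).length_le.trans (C.length_odd hq)
      rw [C.Bk_rev hi hi', List.length_reverse, List.length_map] at g1
      have g2 : a :: J = Bk P N o e f c i i' :=
        h1.eq_of_length (le_antisymm h1.length_le (g1.trans (by simp)))
      obtain ⟨x, hx, g3⟩ := Bk_tail (N := N) (o := o) (e := e) (f := f) hc hi hi'
      exact ⟨x, hx, x, hx, [], _, List.nil_prefix, g3, by simp [g2]⟩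

theorem fac {x : ℕ × ℕ × ℕ × Bool} (hx : x ∈ anch P) (J : List Bool) (hJ : J <:+: tl P N o e f x) :
    Fac P N o e f J := by
  rcases x with ⟨c, i, t, d⟩
  obtain ⟨hc, hi, -⟩ := mem_anch.1 hx
  have key : ∀ J, J <:+: (Lw1 P N o e f c i).map Prod.fst → Fac P N o e f J := by
    intro J hJ
    obtain ⟨J', h1, rfl⟩ := exists_factor_of_map _ _ _ hJ
    cases J' with
    | nil => exact ⟨_, hx, _, hx, [], [], List.nil_prefix, List.nil_prefix, rfl⟩
    | cons a J' => exact C.fac_aux _ c hc i hi a J' rfl h1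
  rw [← C.flatten_Bks hi, ← List.take_append_drop t (Bks P N o e f c i), List.flatten_append,
    List.map_append] at key
  cases d
  · rw [← List.reverse_reverse J]
    refine (key _ ?_).reverse
    rw [tl, cond_false, ← List.reverse_reverse J, List.reverse_infix] at hJ
    exact hJ.trans (List.prefix_append _ _).isInfix
  · exact key _ (hJ.trans (List.suffix_append _ _).isInfix)

theorem length_tl {x : ℕ × ℕ × ℕ × Bool} (hx : x ∈ anch P) :
    (tl P N o e f x).length ≤ 2 ^ P.SS.length := by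
  rcases x with ⟨c, i, t, d⟩
  obtain ⟨-, hi, -⟩ := mem_anch.1 hx
  have h := C.length_le c i
  rw [← C.flatten_Bks hi, ← List.take_append_drop t (Bks P N o e f c i), List.flatten_append,
    List.length_append] at h
  cases d
  · rw [tl, cond_false, List.length_reverse, List.length_map]
    exact (Nat.le_add_right _ _).trans h
  · rw [tl, cond_true, List.length_map]
    exact (Nat.le_add_left _ _).trans h

theorem exists_nd : ∃ nd : ℕ → Tu, (∀ t < TT P.K (2 * P.S) P.SS.length, Rule nd t) ∧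
    ∀ c < P.K, ∀ i < 2 * P.S, ∀ i' < 2 * P.S, ∃ t < TT P.K (2 * P.S) P.SS.length,
      tu ((Bk P N o e f c i i').map Prod.fst) = nd t := by
  obtain ⟨nd, h1, h2⟩ := compress (anch P) (tl P N o e f) P.SS.length (fun x hx => C.length_tl hx)
    (fun x hx J hJ => C.fac hx J hJ)
    ((Finset.range P.K ×ˢ Finset.range (2 * P.S) ×ˢ Finset.range (2 * P.S)).image
      fun x => (Bk P N o e f x.1 x.2.1 x.2.2).map Prod.fst)
    (fun w hw => by
      obtain ⟨x, hx, rfl⟩ := Finset.mem_image.1 hw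
      simp only [Finset.mem_product, Finset.mem_range] at hx
      exact Bk_tail hx.1 hx.2.1 hx.2.2)
    (TT P.K (2 * P.S) P.SS.length) (by
      refine Nat.mul_le_mul_right _ (Nat.add_le_add (le_of_eq ?_) (Finset.card_image_le.trans ?_))
      · simp [anch, mul_assoc]
      · simp [mul_assoc])
  exact ⟨nd, h1, fun c hc i hi i' hi' => h2 _ (Finset.mem_image.2 ⟨(c, i, i'), by simp [*], rfl⟩)⟩

theorem take_all {c i : ℕ} (hi : i < 2 * P.S) :
    ((Bks P N o e f c i).take (2 * P.S)).flatten = Lw1 P N o e f c i := by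
  rw [List.take_of_length_le (length_Bks c i).le, C.flatten_Bks hi]

end Hyp

theorem Hyp.Lw_odd (C : Hyp P N o e e) {c i : ℕ} (hq : (sideOf P.S c i).2.1 % 2 = 1) :
    ((sideOf P.S c i = P.st e ∨ sideOf P.S c i = P.en e) ∧
      ((Lw1 P N o e e c i).map Prod.fst).count true = 1) ∨
    (¬ (sideOf P.S c i = P.st e ∨ sideOf P.S c i = P.en e) ∧
      ((Lw1 P N o e e c i).map Prod.fst).count true = 0) := by
  have hN := C.dr.pos e C.g.1
  have key : ∀ x : ℕ × Bool, At P N o e e c i (true, x) → Lw1 P N o e e c i = [(true, x)] :=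
    fun x hx => eq_of_sorted _ (C.sorted_Lw c i) (List.pairwise_singleton _ _) fun a => by
      rw [mem_Lw, List.mem_singleton]
      exact ⟨fun h => C.odd_unique hq h hx, fun h => h ▸ hx⟩
  by_cases h : sideOf P.S c i = P.st e ∨ sideOf P.S c i = P.en e
  · refine Or.inl ⟨h, ?_⟩
    rcases h with h | h
    · rw [key (0, true) ⟨⟨Or.inl rfl, hN⟩, (C.dr.st e C.g.1).trans h.symm⟩]
      simp
    · rw [key (N e - 1, false) ⟨⟨Or.inl rfl, Nat.sub_lt hN one_pos⟩, ?_⟩]
      · simp
      · rw [h, ← C.dr.en e C.g.1]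
        have h1 : N e - 1 + 1 = N e := by omega
        simp [dn, dt, h1]
  · refine Or.inr ⟨h, ?_⟩
    have : Lw1 P N o e e c i = [] := by
      refine List.eq_nil_iff_forall_not_mem.2 fun a ha => h ?_
      rw [mem_Lw] at ha
      have h1 := C.odd_end ha.1 (by rw [← ha.2] at hq; exact hq)
      rw [ha.2, Bool.cond_self] at h1
      exact h1.imp And.right And.right
    simp [this]

/-- Task rc5.  See the blueprint, section W1. -/
theorem words_of_tight {ι : Type} (P : Par ι) (hP : P.OK) (N : ι → ℕ) (o : ι → ℕ → Dart ℕ)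
    (h : IsDraw P N o) (hI : Inj P N o) (hT : Tight P N o) :
    ∃ D, Wrd P (TT P.K (2 * P.S) P.SS.length) D := by
  have C : ∀ {e f}, P.G e f → Hyp P N o e f := fun hg => ⟨hP, h, hI, hT, hg⟩
  have hex : ∀ e f, ∃ nd : ℕ → Tu, P.G e f →
      (∀ t < TT P.K (2 * P.S) P.SS.length, Rule nd t) ∧
      ∀ c < P.K, ∀ i < 2 * P.S, ∀ i' < 2 * P.S, ∃ t < TT P.K (2 * P.S) P.SS.length,
        tu ((Bk P N o e f c i i').map Prod.fst) = nd t := fun e f => by
    by_cases hg : P.G e f
    · obtain ⟨nd, hnd⟩ := (C hg).exists_nd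
      exact ⟨nd, fun _ => hnd⟩
    · exact ⟨fun _ => .eps, fun h' => absurd h' hg⟩
  choose nd hnd using hex
  refine ⟨⟨fun e c i i' => cntN P N o e c i i', nd,
    fun e f c i i' => tu ((Bk P N o e f c i i').map Prod.fst),
    fun e f c i t => tu (((Bks P N o e f c i).take t).flatten.map Prod.fst)⟩,
    fun e _ f _ hg => (hnd e f hg).1, fun e _ f _ hg => (hnd e f hg).2, ?_, ?_, ?_, ?_, ?_, ?_,
    ?_, ?_, ?_, ?_⟩
  · intro e _ f _ _ c _ i _ i' _
    exact ⟨congrArg Nat.cast (count_Bk true (Or.inl rfl)),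
      fun hd => congrArg Nat.cast (count_Bk false (Or.inr hd))⟩
  · intro e _ f _ hg c _ i hi i' hi'
    simp only [← tu_reverse]
    rw [(C hg).Bk_rev hi hi']
    simp [io_fst, Function.comp_def]
  · intro e _ f _ _ c _ i _
    exact tu_nil
  · intro e _ f _ _ c _ i _ t ht
    simp only [← tu_append]
    rw [take_Bks ht]
    simp
  · intro e _ f _ hg c _ q hq h2 _
    simp only [← tu_reverse]
    have h3 : ¬ 2 * P.S - 1 - q < P.S := by omega
    have h4 : 2 * P.S - 1 - (2 * P.S - 1 - q) = q := by omega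
    rw [(C hg).take_all (by omega), (C hg).take_all (by omega),
      (C hg).Lw_glue (c := c) (i := 2 * P.S - 1 - q) (by simp [sideOf, h3, h4, h2])
        (by simp [sideOf, h3, h4, hq])]
    simp [ga_fst, Function.comp_def]
  · intro e _ f _ hg q hq h2
    simp only
    rw [(C hg).take_all (by omega), (C hg).Lw_zero hq h2]
    exact tu_nil
  · intro e _ ha c _ i hi hq
    have hg : P.G e e := ⟨ha, Or.inl rfl⟩
    simp only [tu]
    rw [(C hg).take_all hi]
    exact_mod_cast (C hg).Lw_odd hq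
  · intro e _ ha c _ i _
    by_contra h0
    obtain ⟨x, h1, h2, h3⟩ := exists_of_cntN h0
    exact (C (⟨ha, Or.inl rfl⟩ : P.G e e)).norm (a := (true, x)) ⟨Or.inl rfl, h1⟩
      (h2.trans h3.symm)
  · intro e _ ha c _ i _ i' _
    refine or_iff_not_imp_left.2 fun h0 => ?_
    obtain ⟨x, h1, h2, h3⟩ := exists_of_cntN h0
    rw [← h2, ← h3]
    exact (C (⟨ha, Or.inl rfl⟩ : P.G e e)).al (a := (true, x)) ⟨Or.inl rfl, h1⟩
  · intro e _ f _ hd c _ i _ j _ i' _ j' hj' g1 g2 g3
    by_contra h0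
    rw [not_or] at h0
    obtain ⟨x, h1, h2, h3⟩ := exists_of_cntN h0.1
    obtain ⟨y, h4, h5, h6⟩ := exists_of_cntN h0.2
    exact not_nc_of_cross g1 g2 g3 hj' h2 h3 h5 h6
      ((C (⟨hP.dc_act _ _ hd, Or.inr hd⟩ : P.G e f)).nc (a := (true, x)) (a' := (false, y))
        ⟨Or.inl rfl, h1⟩ ⟨Or.inr hd, h4⟩ (by simp) (by simp [io]))

end Pool.Agent.Lib.MP_02e8f2_lc
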