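import Pool.Agent.Lib.MP_02e8f2_lc.W2C

/-!
From a word certificate to a drawing.
-/

set_option autoImplicit false

namespace Pool.Agent.Lib.MP_02e8f2_lc

namespace W2

variable {ι : Type} {P : Par ι} {w : ι → ι → ℕ → ℕ → ℕ → List Bool}
  {nn : ι → ℕ → ℕ → ℕ → ℕ} {e : ι}

/-- The path of one string. -/
structure IsPath (io ga : X P nn e → X P nn e) (N : ℕ) (o : ℕ → Dart (Lex (ℕ → ℕ))) : Prop where
  pos : 0 < N
  st : (o 0).side = P.st e
  en : (o N).fl.side = P.en e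
  gap : ∀ m, 0 < m → m < N → (o m).q % 2 = 0
  chord : ∀ m < N, ∃ a, o m = dartOf io ga a ∧ (o (m + 1)).fl = dartOf io ga (io a) ∧
    Reach io ga a ∧ Reach io ga (ga a) ∧ Reach io ga (io a) ∧ Reach io ga (ga (io a))

theorem fl_fl {Y : Type} (a : Dart Y) : a.fl.fl = a := by
  cases a
  simp [Dart.fl]

theorem WW.path (H : WW P w nn) (hP : P.OK) (he : P.act e) {io ga : X P nn e → X P nn e}
    (hio : ∀ d, IoSpec d (io d)) (hga : ∀ d, GaSpec d (ga d)) : ∃ N o, IsPath io ga N o := by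
  have hii : ∀ d, io (io d) = d := fun d => H.io_io he (hio d) (hio _)
  have hgg : ∀ d, ga (ga d) = d := fun d => H.ga_ga hP he (hga d) (hga _)
  obtain ⟨d0, h0⟩ := H.ex_od he (Or.inl rfl) (hP.st_real e he) (hP.st_odd e he)
  obtain ⟨d1, h1⟩ := H.ex_od he (Or.inr rfl) (hP.en_real e he) (hP.en_odd e he)
  have hO0 : d0.Od := by
    unfold X.Od
    rw [h0]
    exact hP.st_odd e he
  obtain ⟨⟨s, hs, hmin⟩, R1, R2⟩ := orbit io ga hii hgg (fun d => H.io_ne he (hio d)) X.Od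
    (fun d => (hga d).fix) d0 d1 hO0 (fun d hO =>
      (H.od_side he hO).1.imp (fun h => H.od_eq he hO (h.trans h0.symm))
        (fun h => H.od_eq he hO (h.trans h1.symm)))
  have hstep : ∀ k, (ga ∘ io)^[k + 1] d0 = ga (io ((ga ∘ io)^[k] d0)) := fun k => by
    rw [Function.iterate_succ_apply']
    rfl
  refine ⟨s + 1, fun m => Nat.casesOn m (dartOf io ga d0)
    (fun k => (dartOf io ga (io ((ga ∘ io)^[k] d0))).fl), Nat.succ_pos s, ?_, ?_, ?_, ?_⟩
  · exact h0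
  · show (dartOf io ga (io ((ga ∘ io)^[s] d0))).fl.fl.side = _
    rw [fl_fl, hs]
    exact h1
  · intro m hm hm'
    obtain ⟨k, rfl⟩ : ∃ k, m = k + 1 := ⟨m - 1, by omega⟩
    have := hmin k (by omega)
    unfold X.Od at this
    show (io ((ga ∘ io)^[k] d0)).sd.2.1 % 2 = 0
    omega
  · intro m hm
    refine ⟨(ga ∘ io)^[m] d0, ?_, fl_fl _, R1 m, ?_, R2 m, ?_⟩
    · cases m with
      | zero => rfl
      | succ k =>
        rw [hstep, dartOf_ga hga hgg (hmin k (by omega))]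
    · cases m with
      | zero =>
        have : ga ((ga ∘ io)^[0] d0) = (ga ∘ io)^[0] d0 := (hga d0).fix.1 hO0
        rw [this]
        exact R1 0
      | succ k =>
        rw [hstep, hgg]
        exact R2 k
    · rw [← hstep]
      exact R1 (m + 1)

theorem IsPath.vert {io ga : X P nn e → X P nn e} {N : ℕ} {o : ℕ → Dart (Lex (ℕ → ℕ))}
    (h : IsPath io ga N o) (m : ℕ) (hm : m ≤ N) : ∃ a, (o m).k = a.sd.1 ∧ (o m).q = a.sd.2.1 ∧
      (o m).h = hgt io ga a ∧ Reach io ga a ∧ Reach io ga (ga a) := by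
  rcases hm.lt_or_eq with hm | rfl
  · obtain ⟨a, h1, -, r1, r2, -, -⟩ := h.chord m hm
    exact ⟨a, by rw [h1]; rfl, by rw [h1]; rfl, by rw [h1]; rfl, r1, r2⟩
  · obtain ⟨a, -, h2, -, -, r3, r4⟩ := h.chord (m - 1) (by have := h.pos; omega)
    rw [Nat.sub_add_cancel h.pos] at h2
    exact ⟨io a, congrArg Dart.k h2, congrArg Dart.q h2, congrArg Dart.h h2, r3, r4⟩

end W2

open W2 in
/-- Task rc6.  See the blueprint, section W2. -/
theorem draw_of_words {ι : Type} (P : Par ι) (hP : P.OK) (T : ℕ) (D : WD ι) (h : Wrd P T D) :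
    ∃ (N : ι → ℕ) (o : ι → ℕ → Dart (Lex (ℕ → ℕ))), IsDraw P N o := by
  obtain ⟨w, nn, H⟩ := exists_WW P hP T D h
  have hex : ∀ e, ∃ (io ga : X P nn e → X P nn e) (N : ℕ) (o : ℕ → Dart (Lex (ℕ → ℕ))),
      P.act e → (∀ d, IoSpec d (io d)) ∧ (∀ d, GaSpec d (ga d)) ∧ IsPath io ga N o := by
    intro e
    by_cases he : P.act e
    · choose io hio using H.ex_io he
      choose ga hga using H.ex_ga hP he
      obtain ⟨N, o, hp⟩ := H.path hP he hio hga
      exact ⟨io, ga, N, o, fun _ => ⟨hio, hga, hp⟩⟩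
    · exact ⟨id, id, 0, fun _ => ⟨0, 0, toLex fun _ => 0, true⟩, fun h => absurd h he⟩
  choose io ga N o hs using hex
  refine ⟨N, o, fun e he => (hs e he).2.2.pos, fun e he => (hs e he).2.2.st,
    fun e he => (hs e he).2.2.en, fun e he => (hs e he).2.2.gap, ?_, ?_, ?_⟩
  · intro e he m hm
    obtain ⟨hio, -, hp⟩ := hs e he
    obtain ⟨a, h1, h2, -⟩ := hp.chord m hm
    rw [h1, h2]
    have := H.al_dart he a
    rw [← (hio a).1, ← (hio a).2.1] at this
    exact this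
  · intro e f hd m hm m' hm'
    obtain ⟨hio, hga, hp⟩ := hs e (hP.dc_act e f hd)
    obtain ⟨hio', hga', hp'⟩ := hs f (hP.dc_act f e (hP.dc_symm e f hd))
    obtain ⟨a, h1, h2, r1, r2, r3, r4⟩ := hp.chord m hm
    obtain ⟨z, g1, g2, -⟩ := hp'.chord m' hm'
    rw [h1, h2, g1, g2]
    exact H.nc hP hd hio hga hio' hga' r1 r2 r3 r4
  · intro e f hd m hm m' hm'
    obtain ⟨hio, hga, hp⟩ := hs e (hP.dc_act e f hd)
    obtain ⟨hio', hga', hp'⟩ := hs f (hP.dc_act f e (hP.dc_symm e f hd))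
    obtain ⟨a, h1, h2, h3, r1, r2⟩ := hp.vert m hm
    obtain ⟨z, g1, g2, g3, -⟩ := hp'.vert m' hm'
    rw [h1, h2, h3, g1, g2, g3]
    exact H.pt_ne hP hd hio hga hio' hga' r1 r2

end Pool.Agent.Lib.MP_02e8f2_lc
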