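import Pool.Agent.Lib.MP_02e8f2_lc.NF
import Pool.Agent.Lib.MP_02e8f2_lc.Tight
import Pool.Agent.Lib.MP_02e8f2_lc.W1
import Pool.Agent.Lib.MP_02e8f2_lc.W2
import Pool.Agent.Lib.MP_02e8f2_lc.Form
import Pool.Agent.Lib.MP_02e8f2_lc.Sound
import Pool.Agent.Lib.MP_02e8f2_lc.Complete

/-!
The reduction.
-/

set_option autoImplicit false

namespace Pool.Agent.Lib.MP_02e8f2_lc

open Pool.Agent.Lib.MP_acf5a6_lc Pool.Agent.Lib.MP_242159_lc.Mem

theorem cert_iff (L : List (ℕ × ℕ × ℕ)) :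
    (∃ N : List Atom, L = N.map atomCode ∧ Satisfiable N) ↔
      ∃ G D, Req G L ∧ Tab (ctxOf L).n G ∧ Geo (ctxOf L) G ∧ Wrd (parOf (ctxOf L) G)
        (TT (ctxOf L).K (2 * (2 * (ctxOf L).R)) (ctxOf L).SS.length) D := by
  constructor
  · rintro ⟨N, rfl, h⟩
    obtain ⟨R, h1, h2, h3, h4⟩ := nf_complete N h
    obtain ⟨G, M, o, g1, g2, g3, g4⟩ := complete _ (ctx_cc _) le_rfl le_rfl R h1 h2 h3
    have hP := parOK _ G g1 g2
    obtain ⟨o', k1, k2⟩ := normalize _ hP M o g4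
    obtain ⟨M', o'', l1, l2, l3⟩ := exists_tight _ hP M o' k1 k2
    obtain ⟨D, hD⟩ := words_of_tight _ hP M' o'' l1 l2 l3
    exact ⟨G, D, h4 G g3, g1, g2, hD⟩
  · rintro ⟨G, D, h1, h2, h3, h4⟩
    have hP := parOK _ G h2 h3
    obtain ⟨M, o, k⟩ := draw_of_words _ hP _ D h4
    obtain ⟨o', k1, k2⟩ := normalize _ hP M o k
    obtain ⟨R, hR⟩ := sound _ G (ctx_cc _) h2 h3 M o' k1 k2
    exact nf_sound L G R h1 hR

theorem rcc_le_etr : N793a5b8e.ManyOneReducible RCC ETR := by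
  obtain ⟨phi, hphi, h⟩ := exists_formula
  refine manyOne_of_PT (Chk.nat.prod (Chk.nat.prod Chk.nat)).list (formulaCode_PT hphi)
    (formulaCode (.lt (.const 0) (.const 0))) ?_ ?_ ?_
  · rw [Bool.eq_false_iff, Ne, formulaCode_sat]
    simp [Holds]
  · intro s hs
    simp only [RCC, decide_eq_true_eq] at hs
    obtain ⟨A, h, -⟩ := hs
    exact ⟨_, h.symm⟩
  · intro A
    rw [Bool.eq_iff_iff, formulaCode_sat, h, ← cert_iff]
    simp only [RCC, decide_eq_true_eq]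
    constructor
    · rintro ⟨B, h, h'⟩
      exact ⟨B, N487b59b3.bitEncode_injective h, h'⟩
    · rintro ⟨B, rfl, h'⟩
      exact ⟨B, rfl, h'⟩

end Pool.Agent.Lib.MP_02e8f2_lc
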