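import Pool.Agent.Lib.MP_02e8f2_lc.Cert

/-!
RCC8 networks and basic networks.
-/

set_option autoImplicit false

namespace Pool.Agent.Lib.MP_02e8f2_lc

namespace NFAux

theorem flags_getD (L : List (ℕ × ℕ × ℕ)) (κ i : ℕ) :
    (flags L κ).getD i false = true ↔ i % 5 = 0 ∧ i / 5 < L.length ∧ (atm L (i / 5)).1 = κ := by
  induction L generalizing i with
  | nil => simp [flags]
  | cons x L ih =>
    have hf : flags (x :: L) κ = decide (x.1 = κ) :: false :: false :: false :: false ::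
        flags L κ := by
      simp [flags]
    rw [hf]
    match i with
    | 0 => simp [atm]
    | 1 => simp
    | 2 => simp
    | 3 => simp
    | 4 => simp
    | j + 5 =>
      have h1 : (j + 5) % 5 = j % 5 := by omega
      have h2 : (j + 5) / 5 = j / 5 + 1 := by omega
      have h3 : atm (x :: L) (j / 5 + 1) = atm L (j / 5) := by simp [atm]
      have h4 : (decide (x.1 = κ) :: false :: false :: false :: false :: flags L κ).getD (j + 5)
          false = (flags L κ).getD j false := by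
        simp
      rw [h1, h2, h3, h4, ih j]
      simp

theorem reg_univ : IsRegion Set.univ := ⟨Set.univ_nonempty, by simp⟩

theorem reg_closed {A : Set (ℝ × ℝ)} (h : IsRegion A) : IsClosed A := by
  rw [h.2]
  exact isClosed_closure

theorem reg_int {A : Set (ℝ × ℝ)} (h : IsRegion A) : (interior A).Nonempty := by
  by_contra hn
  rw [Set.not_nonempty_iff_eq_empty] at hn
  have h2 := h.2
  rw [hn, closure_empty] at h2
  exact h.1.ne_empty h2

theorem reg_in_open {U : Set (ℝ × ℝ)} (hU : IsOpen U) (hn : U.Nonempty) :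
    ∃ Z, IsRegion Z ∧ Z ⊆ U := by
  obtain ⟨x, hx⟩ := hn
  obtain ⟨r, hr, hb⟩ := Metric.isOpen_iff.1 hU x hx
  have h2 : r / 2 ≠ 0 := by positivity
  refine ⟨Metric.closedBall x (r / 2), ⟨⟨x, Metric.mem_closedBall_self (by positivity)⟩, ?_⟩, ?_⟩
  · rw [interior_closedBall x h2, closure_ball x h2]
  · exact (Metric.closedBall_subset_ball (by linarith)).trans hb

theorem reg_diff {A B : Set (ℝ × ℝ)} (hA : IsRegion A) (hB : IsRegion B) (h : ¬ A ⊆ B) :
    ∃ Z, IsRegion Z ∧ Z ⊆ A ∧ Z ∩ B = ∅ := by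
  have hn : (interior A ∩ Bᶜ).Nonempty := by
    by_contra hn
    apply h
    have h1 : interior A ⊆ B := by
      intro x hx
      by_contra hxB
      exact hn ⟨x, hx, hxB⟩
    have h2 := closure_minimal h1 (reg_closed hB)
    rw [← hA.2] at h2
    exact h2
  obtain ⟨Z, hZ, hs⟩ := reg_in_open (isOpen_interior.inter (reg_closed hB).isOpen_compl) hn
  refine ⟨Z, hZ, fun x hx => interior_subset (hs hx).1, ?_⟩
  ext x
  constructor
  · intro hx
    exact (hs hx.1).2 hx.2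
  · intro hx
    exact hx.elim

theorem reg_tan {A B : Set (ℝ × ℝ)} (hB : IsRegion B) (h : ¬ A ⊆ interior B) :
    ∃ Z, IsRegion Z ∧ interior Z ∩ interior B = ∅ ∧ (Z ∩ A).Nonempty := by
  obtain ⟨p, hpA, hpB⟩ := Set.not_subset.1 h
  have hp : p ∈ closure Bᶜ := by
    rw [closure_compl]
    exact hpB
  refine ⟨closure Bᶜ, ⟨⟨p, hp⟩, ?_⟩, ?_, p, hp, hpA⟩
  · apply Set.Subset.antisymm
    · exact closure_mono (reg_closed hB).isOpen_compl.subset_interior_closure
    · exact closure_minimal interior_subset isClosed_closure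
  · ext x
    constructor
    · intro hx
      have h1 : x ∈ closure Bᶜ := interior_subset hx.1
      rw [closure_compl] at h1
      exact h1 hx.2
    · intro hx
      exact hx.elim

theorem not_sub_of {A B Z : Set (ℝ × ℝ)} (hZ : IsRegion Z) (h1 : Z ⊆ A) (h2 : Z ∩ B = ∅) :
    ¬ A ⊆ B := by
  intro h
  obtain ⟨p, hp⟩ := hZ.1
  have : p ∈ Z ∩ B := ⟨hp, h (h1 hp)⟩
  rw [h2] at this
  exact this

theorem not_int_of {A B Z : Set (ℝ × ℝ)} (hZ : IsRegion Z) (h1 : interior Z ∩ interior B = ∅)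
    (h2 : (Z ∩ A).Nonempty) : ¬ A ⊆ interior B := by
  intro h
  obtain ⟨p, hpZ, hpA⟩ := h2
  have hp : p ∈ closure (interior Z) := by
    rw [← hZ.2]
    exact hpZ
  obtain ⟨y, hy1, hy2⟩ := mem_closure_iff.1 hp (interior B) isOpen_interior (h hpA)
  have : y ∈ interior Z ∩ interior B := ⟨hy2, hy1⟩
  rw [h1] at this
  exact this

theorem list_lift (P : Atom → Prop) (L : List (ℕ × ℕ × ℕ))
    (h : ∀ x ∈ L, ∃ A, atomCode A = x ∧ P A) :
    ∃ N : List Atom, L = N.map atomCode ∧ ∀ A ∈ N, P A := by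
  induction L with
  | nil => exact ⟨[], rfl, by simp⟩
  | cons x L ih =>
    obtain ⟨A, hA, hP⟩ := h x (by simp)
    obtain ⟨N, hN, hPN⟩ := ih fun y hy => h y (List.mem_cons_of_mem _ hy)
    refine ⟨A :: N, by simp [hA, hN], ?_⟩
    intro B hB
    rcases List.mem_cons.1 hB with rfl | hB
    · exact hP
    · exact hPN B hB

/-- The five sets attached to one atom. -/
def five (A B Z₂ Z₃ Z₄ : Set (ℝ × ℝ)) (r : ℕ) : Set (ℝ × ℝ) :=
  match r with
  | 0 => A
  | 1 => B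
  | 2 => Z₂
  | 3 => Z₃
  | _ => Z₄

theorem five_reg {A B Z₂ Z₃ Z₄ : Set (ℝ × ℝ)} (h0 : IsRegion A) (h1 : IsRegion B)
    (h2 : IsRegion Z₂) (h3 : IsRegion Z₃) (h4 : IsRegion Z₄) (r : ℕ) :
    IsRegion (five A B Z₂ Z₃ Z₄ r) := by
  match r with
  | 0 => exact h0
  | 1 => exact h1
  | 2 => exact h2
  | 3 => exact h3
  | _ + 4 => exact h4

theorem atom_aux (S : ℕ → Set (ℝ × ℝ)) (hS : ∀ i, IsRegion (S i)) (A : Atom)
    (hA : AtomHolds S A) : ∃ Z₂ Z₃ Z₄ : Set (ℝ × ℝ), IsRegion Z₂ ∧ IsRegion Z₃ ∧ IsRegion Z₄ ∧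
      ∀ (G : GD) (R : ℕ → Set (ℝ × ℝ)) (b : ℕ), Exact G R → R b = S (atomCode A).2.1 →
        R (b + 1) = S (atomCode A).2.2 → R (b + 2) = Z₂ → R (b + 3) = Z₃ → R (b + 4) = Z₄ →
          ReqA G (atomCode A).1 (atomCode A).2.2 b := by
  cases A with
  | dc i j =>
    refine ⟨_, _, _, reg_univ, reg_univ, reg_univ, fun G R b hE h0 h1 _ _ _ => ?_⟩
    simp only [atomCode] at h0 h1
    refine Or.inl ⟨rfl, (hE.dc _ _).2 ?_⟩
    rw [h0, h1]
    exact hA
  | ec i j =>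
    refine ⟨_, _, _, reg_univ, reg_univ, reg_univ, fun G R b hE h0 h1 _ _ _ => ?_⟩
    simp only [atomCode] at h0 h1
    refine Or.inr (Or.inl ⟨rfl, (hE.mt _ _).2 ?_, (hE.io _ _).2 ?_⟩)
    · rw [h0, h1]
      exact Set.nonempty_iff_ne_empty.2 hA.1
    · rw [h0, h1]
      exact hA.2
  | po i j =>
    obtain ⟨Z₂, r2, s2⟩ := reg_in_open (isOpen_interior.inter isOpen_interior)
      (Set.nonempty_iff_ne_empty.2 hA.1)
    obtain ⟨Z₃, r3, s3, d3⟩ := reg_diff (hS i) (hS j) hA.2.1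
    obtain ⟨Z₄, r4, s4, d4⟩ := reg_diff (hS j) (hS i) hA.2.2
    refine ⟨_, _, _, r2, r3, r4, fun G R b hE h0 h1 h2 h3 h4 => ?_⟩
    simp only [atomCode] at h0 h1
    refine Or.inr (Or.inr (Or.inl ⟨rfl, (hE.sub _ _).2 ?_, (hE.sub _ _).2 ?_,
      ⟨(hE.sub _ _).2 ?_, (hE.dc _ _).2 ?_⟩, (hE.sub _ _).2 ?_, (hE.dc _ _).2 ?_⟩))
    · rw [h2, h0]
      exact fun x hx => interior_subset (s2 hx).1
    · rw [h2, h1]
      exact fun x hx => interior_subset (s2 hx).2
    · rw [h3, h0]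
      exact s3
    · rw [h3, h1]
      exact d3
    · rw [h4, h1]
      exact s4
    · rw [h4, h0]
      exact d4
  | eq i j =>
    refine ⟨_, _, _, reg_univ, reg_univ, reg_univ, fun G R b hE h0 h1 _ _ _ => ?_⟩
    simp only [atomCode] at h0 h1
    have hA' : S i = S j := hA
    refine Or.inr (Or.inr (Or.inr (Or.inl ⟨rfl, (hE.sub _ _).2 ?_, (hE.sub _ _).2 ?_⟩)))
    · rw [h0, h1, hA']
    · rw [h0, h1, hA']
  | tpp i j =>
    obtain ⟨Z₂, r2, s2, d2⟩ := reg_diff (hS j) (hS i) hA.1.2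
    obtain ⟨Z₃, r3, s3, d3⟩ := reg_tan (hS j) hA.2
    refine ⟨_, _, _, r2, r3, reg_univ, fun G R b hE h0 h1 h2 h3 _ => ?_⟩
    simp only [atomCode] at h0 h1
    refine Or.inr (Or.inr (Or.inr (Or.inr (Or.inl ⟨rfl, (hE.sub _ _).2 ?_,
      ⟨(hE.sub _ _).2 ?_, (hE.dc _ _).2 ?_⟩, (hE.io _ _).2 ?_, (hE.mt _ _).2 ?_⟩))))
    · rw [h0, h1]
      exact hA.1.1
    · rw [h2, h1]
      exact s2
    · rw [h2, h0]
      exact d2
    · rw [h3, h1]
      exact s3
    · rw [h3, h0]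
      exact d3
  | ntpp i j =>
    have hn : ¬ S j ⊆ S i := fun h =>
      hA.2 (Set.Subset.antisymm (hA.1.trans interior_subset) h)
    obtain ⟨Z₂, r2, s2, d2⟩ := reg_diff (hS j) (hS i) hn
    refine ⟨_, _, _, r2, reg_univ, reg_univ, fun G R b hE h0 h1 h2 _ _ => ?_⟩
    simp only [atomCode] at h0 h1
    refine Or.inr (Or.inr (Or.inr (Or.inr (Or.inr (Or.inl ⟨rfl, (hE.nt _ _).2 ?_,
      (hE.sub _ _).2 ?_, (hE.dc _ _).2 ?_⟩)))))
    · rw [h0, h1]
      exact ⟨hA.1, hn⟩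
    · rw [h2, h1]
      exact s2
    · rw [h2, h0]
      exact d2
  | tppi i j =>
    obtain ⟨Z₂, r2, s2, d2⟩ := reg_diff (hS i) (hS j) hA.1.2
    obtain ⟨Z₃, r3, s3, d3⟩ := reg_tan (hS i) hA.2
    refine ⟨_, _, _, r2, r3, reg_univ, fun G R b hE h0 h1 h2 h3 _ => ?_⟩
    simp only [atomCode] at h0 h1
    refine Or.inr (Or.inr (Or.inr (Or.inr (Or.inr (Or.inr (Or.inl ⟨rfl, (hE.sub _ _).2 ?_,
      ⟨(hE.sub _ _).2 ?_, (hE.dc _ _).2 ?_⟩, (hE.io _ _).2 ?_, (hE.mt _ _).2 ?_⟩))))))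
    · rw [h0, h1]
      exact hA.1.1
    · rw [h2, h0]
      exact s2
    · rw [h2, h1]
      exact d2
    · rw [h3, h0]
      exact s3
    · rw [h3, h1]
      exact d3
  | ntppi i j =>
    have hn : ¬ S i ⊆ S j := fun h =>
      hA.2 (Set.Subset.antisymm (hA.1.trans interior_subset) h)
    obtain ⟨Z₂, r2, s2, d2⟩ := reg_diff (hS i) (hS j) hn
    refine ⟨_, _, _, r2, reg_univ, reg_univ, fun G R b hE h0 h1 h2 _ _ => ?_⟩
    simp only [atomCode] at h0 h1
    refine Or.inr (Or.inr (Or.inr (Or.inr (Or.inr (Or.inr (Or.inr (Or.inl ⟨rfl, (hE.nt _ _).2 ?_,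
      (hE.sub _ _).2 ?_, (hE.dc _ _).2 ?_⟩)))))))
    · rw [h0, h1]
      exact ⟨hA.1, hn⟩
    · rw [h2, h0]
      exact s2
    · rw [h2, h1]
      exact d2
  | convex i =>
    refine ⟨_, _, _, reg_univ, reg_univ, reg_univ, fun G R b _ _ _ _ _ _ => ?_⟩
    exact Or.inr (Or.inr (Or.inr (Or.inr (Or.inr (Or.inr (Or.inr (Or.inr
      (Or.inl ⟨rfl, rfl⟩))))))))
  | connected i =>
    refine ⟨_, _, _, reg_univ, reg_univ, reg_univ, fun G R b _ _ _ _ _ _ => ?_⟩
    exact Or.inr (Or.inr (Or.inr (Or.inr (Or.inr (Or.inr (Or.inr (Or.inr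
      (Or.inr ⟨rfl, rfl⟩))))))))

theorem H_mono (X : Ctx) (G : GD) (hG : Geo X G) (k : ℕ) (hk : k < X.K) (r r' : ℕ) (h : r < r')
    (hr : r' < X.R) : G.H k r < G.H k r' := by
  induction r' with
  | zero => omega
  | succ m ih =>
    have h1 := hG.H_lt k hk m (by omega) hr
    rcases Nat.lt_succ_iff_lt_or_eq.1 h with h2 | h2
    · exact (ih h2 (by omega)).trans h1
    · rw [h2]
      exact h1

theorem cl_of_Bs {s t : Side} (h1 : s.1 = t.1) (h2 : s.2.2 = t.2.2) : cl s = cl t := by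
  unfold cl
  rw [h1, h2]

theorem line_of_cl {s t : Side} (h : cl s = cl t) (h2 : s.2.2 = t.2.2) : s.1 = t.1 := by
  unfold cl clk at h
  rw [h2] at h
  cases hd : t.2.2 <;> rw [hd] at h <;> simpa using h

/-- A side above `D` and a different side below `D` on the same line and direction. -/
theorem slot_lt (X : Ctx) (G : GD) (hG : Geo X G) (e : Str) (x y : Side) (D : ℕ) (hD : D < X.n)
    (hc : X.cvx D = true) (hio : G.io e.1 D) (hsp : G.sp D (cl x)) (hx : Ok X G e x)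
    (hy : Ok X G e y) (ax : G.abv e x D) (ay : ¬ G.abv e y D) (hne : x ≠ y) (h1 : x.1 = y.1)
    (h2 : x.2.2 = y.2.2) : y.2.1 < x.2.1 := by
  have hcl := cl_of_Bs h1 h2
  obtain ⟨x1, x2, x3, x4, x5⟩ := hx
  obtain ⟨y1, y2, y3, y4, y5⟩ := hy
  have hk : x.1 < X.K := by
    unfold cl clk at x4
    cases hd : x.2.2 <;> rw [hd] at x4 <;> simp at x4 <;> omega
  have a1 : G.φ D true x.1 ≤ G.H x.1 ((x.2.1 - 1) / 2) :=
    ((x5 D hD).2 true).1 ⟨hc, hio, hsp, ax⟩
  have a2 : G.H y.1 (y.2.1 / 2) ≤ G.φ D false y.1 :=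
    ((y5 D hD).2 false).2 ⟨hc, hio, hcl ▸ hsp, ay⟩
  have a3 : G.φ D false x.1 ≤ G.φ D true x.1 := by
    rcases (hG.fat D hD hc x.1 hk x.2.2 hsp).1 with h | h
    · exact h.le
    · exact h.1.le
  rw [← h1] at a2
  have a4 : y.2.1 / 2 ≤ (x.2.1 - 1) / 2 := by
    by_contra hn
    have := H_mono X G hG x.1 hk ((x.2.1 - 1) / 2) (y.2.1 / 2) (by omega) (by omega)
    linarith
  have a5 : x.2.1 ≠ y.2.1 := fun h => hne (Prod.ext h1 (Prod.ext h h2))
  omega

end NFAux

open NFAux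

/-- Task rc2 (three theorems). -/
theorem ctx_cc (L : List (ℕ × ℕ × ℕ)) (i : ℕ) (h : (ctxOf L).con i = true) :
    (ctxOf L).cvx i = false := by
  have h1 := (flags_getD L 9 i).1 h
  by_contra h2
  have h3 := (flags_getD L 8 i).1 (by simpa [ctxOf] using h2)
  omega

/-- Sketch: decode each triple into an atom using `ReqA`; interpret the name `v` by the set of any
occurrence with that name (all such sets are equal by `Req.same`), and by `Set.univ` if there is
none.  Note `(flags L κ).getD (5 * a) false = decide ((atm L a).1 = κ)` for `a < L.length`. -/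
theorem nf_sound (L : List (ℕ × ℕ × ℕ)) (G : GD) (R : ℕ → Set (ℝ × ℝ)) (hq : Req G L)
    (hm : Model (ctxOf L) G R) : ∃ N : List Atom, L = N.map atomCode ∧ Satisfiable N := by
  classical
  have hn : (ctxOf L).n = 5 * L.length := rfl
  have hb : ∀ a < L.length, ∀ b : Bool, 5 * a + b.toNat < (ctxOf L).n := by
    intro a ha b
    have : b.toNat ≤ 1 := Bool.toNat_le b
    omega
  obtain ⟨S, hS, hSR⟩ : ∃ S : ℕ → Set (ℝ × ℝ), (∀ v, IsRegion (S v)) ∧
      ∀ a < L.length, ∀ b : Bool, S (nm L a b) = R (5 * a + b.toNat) := by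
    have key : ∀ v, ∃ T : Set (ℝ × ℝ), IsRegion T ∧
        ∀ a < L.length, ∀ b : Bool, nm L a b = v → T = R (5 * a + b.toNat) := by
      intro v
      by_cases hv : ∃ a < L.length, ∃ b : Bool, nm L a b = v
      · obtain ⟨a, ha, b, hab⟩ := hv
        refine ⟨R (5 * a + b.toNat), hm.reg _ (hb a ha b), fun a' ha' b' h' => ?_⟩
        apply Set.Subset.antisymm
        · exact hm.sub _ (hb a ha b) _ (hb a' ha' b') (hq.same a ha a' ha' b b' (hab.trans h'.symm))
        · exact hm.sub _ (hb a' ha' b') _ (hb a ha b) (hq.same a' ha' a ha b' b (h'.trans hab.symm))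
      · exact ⟨Set.univ, reg_univ, fun a ha b h' => (hv ⟨a, ha, b, h'⟩).elim⟩
    choose S h1 h2 using key
    exact ⟨S, h1, fun a ha b => h2 _ a ha b rfl⟩
  suffices hx : ∀ x ∈ L, ∃ A, atomCode A = x ∧ AtomHolds S A by
    obtain ⟨N, hN, hP⟩ := list_lift (AtomHolds S) L hx
    exact ⟨N, hN, S, hS, hP⟩
  intro x hx
  obtain ⟨a, ha, hax⟩ := List.getElem_of_mem hx
  have hatm : atm L a = x := by
    unfold atm
    rw [List.getD_eq_getElem _ _ ha, hax]
  obtain ⟨κ, i, j⟩ := x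
  have hi : S i = R (5 * a) := by
    have := hSR a ha false
    simpa [nm, hatm] using this
  have hj : S j = R (5 * a + 1) := by
    have := hSR a ha true
    simpa [nm, hatm] using this
  have hr := hq.atom a ha
  rw [hatm] at hr
  have l0 : 5 * a < (ctxOf L).n := by omega
  have l1 : 5 * a + 1 < (ctxOf L).n := by omega
  have l2 : 5 * a + 2 < (ctxOf L).n := by omega
  have l3 : 5 * a + 3 < (ctxOf L).n := by omega
  have l4 : 5 * a + 4 < (ctxOf L).n := by omega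
  rcases hr with ⟨rfl, h⟩ | ⟨rfl, h1, h2⟩ | ⟨rfl, h1, h2, h3, h4⟩ | ⟨rfl, h1, h2⟩ |
    ⟨rfl, h1, h2, h3, h4⟩ | ⟨rfl, h1, h2⟩ | ⟨rfl, h1, h2, h3, h4⟩ | ⟨rfl, h1, h2⟩ | ⟨rfl, rfl⟩ |
    ⟨rfl, rfl⟩
  · refine ⟨.dc i j, rfl, ?_⟩
    show S i ∩ S j = ∅
    rw [hi, hj]
    exact hm.dc _ l0 _ l1 h
  · refine ⟨.ec i j, rfl, ?_⟩
    show S i ∩ S j ≠ ∅ ∧ interior (S i) ∩ interior (S j) = ∅
    rw [hi, hj]
    exact ⟨(hm.mt _ l0 _ l1 h1).ne_empty, hm.io _ l0 _ l1 h2⟩
  · refine ⟨.po i j, rfl, ?_⟩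
    show interior (S i) ∩ interior (S j) ≠ ∅ ∧ ¬ S i ⊆ S j ∧ ¬ S j ⊆ S i
    rw [hi, hj]
    refine ⟨?_, not_sub_of (hm.reg _ l3) (hm.sub _ l3 _ l0 h3.1) (hm.dc _ l3 _ l1 h3.2),
      not_sub_of (hm.reg _ l4) (hm.sub _ l4 _ l1 h4.1) (hm.dc _ l4 _ l0 h4.2)⟩
    obtain ⟨p, hp⟩ := reg_int (hm.reg _ l2)
    exact Set.Nonempty.ne_empty ⟨p, interior_mono (hm.sub _ l2 _ l0 h1) hp,
      interior_mono (hm.sub _ l2 _ l1 h2) hp⟩
  · refine ⟨.eq i j, rfl, ?_⟩
    show S i = S j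
    rw [hi, hj]
    exact Set.Subset.antisymm (hm.sub _ l0 _ l1 h1) (hm.sub _ l1 _ l0 h2)
  · refine ⟨.tpp i j, rfl, ?_⟩
    show TPP (S i) (S j)
    rw [hi, hj]
    exact ⟨⟨hm.sub _ l0 _ l1 h1,
      not_sub_of (hm.reg _ l2) (hm.sub _ l2 _ l1 h2.1) (hm.dc _ l2 _ l0 h2.2)⟩,
      not_int_of (hm.reg _ l3) (hm.io _ l3 _ l1 h3) (hm.mt _ l3 _ l0 h4)⟩
  · refine ⟨.ntpp i j, rfl, ?_⟩
    show NTPP (S i) (S j)
    rw [hi, hj]
    exact ⟨hm.nt _ l0 _ l1 h1, fun h =>
      not_sub_of (hm.reg _ l2) (hm.sub _ l2 _ l1 h2.1) (hm.dc _ l2 _ l0 h2.2) h.symm.subset⟩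
  · refine ⟨.tppi i j, rfl, ?_⟩
    show TPP (S j) (S i)
    rw [hi, hj]
    exact ⟨⟨hm.sub _ l1 _ l0 h1,
      not_sub_of (hm.reg _ l2) (hm.sub _ l2 _ l0 h2.1) (hm.dc _ l2 _ l1 h2.2)⟩,
      not_int_of (hm.reg _ l3) (hm.io _ l3 _ l0 h3) (hm.mt _ l3 _ l1 h4)⟩
  · refine ⟨.ntppi i j, rfl, ?_⟩
    show NTPP (S j) (S i)
    rw [hi, hj]
    exact ⟨hm.nt _ l1 _ l0 h1, fun h =>
      not_sub_of (hm.reg _ l2) (hm.sub _ l2 _ l0 h2.1) (hm.dc _ l2 _ l1 h2.2) h.symm.subset⟩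
  · refine ⟨.convex i, rfl, ?_⟩
    show Convex ℝ (S i)
    rw [hi]
    refine hm.cvx _ l0 ((flags_getD L 8 (5 * a)).2 ⟨by omega, by omega, ?_⟩)
    rw [show 5 * a / 5 = a by omega, hatm]
  · refine ⟨.connected i, rfl, ?_⟩
    show IsConnected (S i)
    rw [hi]
    refine hm.con _ l0 ((flags_getD L 9 (5 * a)).2 ⟨by omega, by omega, ?_⟩)
    rw [show 5 * a / 5 = a by omega, hatm]

/-- Sketch: node `5 a + b` is the region of occurrence `b` for `b < 2`; the auxiliary nodes are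
small closed balls inside `interior A ∩ interior B` or `interior A \ B` (nonempty open when
`¬ A ⊆ B`, as `A = closure (interior A)` and `B` is closed), `closure Bᶜ` for the tangency witness,
and `Set.univ` when unused. -/
theorem nf_complete (N : List Atom) (h : Satisfiable N) : ∃ R : ℕ → Set (ℝ × ℝ),
    (∀ i < (ctxOf (N.map atomCode)).n, IsRegion (R i)) ∧
    (∀ i < (ctxOf (N.map atomCode)).n, (ctxOf (N.map atomCode)).cvx i = true → Convex ℝ (R i)) ∧
    (∀ i < (ctxOf (N.map atomCode)).n, (ctxOf (N.map atomCode)).con i = true →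
      IsConnected (R i)) ∧
    ∀ G, Exact G R → Req G (N.map atomCode) := by
  obtain ⟨S, hS, hN⟩ := h
  have key : ∀ a : ℕ, ∃ T : ℕ → Set (ℝ × ℝ), (∀ r, IsRegion (T r)) ∧
      T 0 = S (atm (N.map atomCode) a).2.1 ∧ T 1 = S (atm (N.map atomCode) a).2.2 ∧
      (a < N.length → ∀ (G : GD) (R : ℕ → Set (ℝ × ℝ)) (b : ℕ), Exact G R →
        (∀ r < 5, R (b + r) = T r) →
          ReqA G (atm (N.map atomCode) a).1 (atm (N.map atomCode) a).2.2 b) := by
    intro a
    by_cases ha : a < N.length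
    · have hatm : atm (N.map atomCode) a = atomCode N[a] := by
        unfold atm
        rw [List.getD_eq_getElem _ _ (by simpa using ha), List.getElem_map]
      obtain ⟨Z₂, Z₃, Z₄, r2, r3, r4, hZ⟩ := atom_aux S hS N[a] (hN _ (List.getElem_mem ha))
      rw [hatm]
      exact ⟨five _ _ Z₂ Z₃ Z₄, five_reg (hS _) (hS _) r2 r3 r4, rfl, rfl, fun _ G R b hE hR =>
        hZ G R b hE (hR 0 (by omega)) (hR 1 (by omega)) (hR 2 (by omega)) (hR 3 (by omega))
          (hR 4 (by omega))⟩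
    · exact ⟨five _ _ Set.univ Set.univ Set.univ,
        five_reg (hS _) (hS _) reg_univ reg_univ reg_univ, rfl, rfl, fun h' => (ha h').elim⟩
  choose T hT h0 h1 hR using key
  have hcode : ∀ a < N.length, ∃ A ∈ N, atm (N.map atomCode) a = atomCode A := by
    intro a ha
    refine ⟨N[a], List.getElem_mem ha, ?_⟩
    unfold atm
    rw [List.getD_eq_getElem _ _ (by simpa using ha), List.getElem_map]
  refine ⟨fun u => T (u / 5) (u % 5), fun i _ => hT _ _, ?_, ?_, ?_⟩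
  · intro i _ hc
    obtain ⟨m0, hl, hk⟩ := (flags_getD _ 8 i).1 hc
    obtain ⟨A, hA, hA'⟩ := hcode (i / 5) (by simpa using hl)
    show Convex ℝ (T (i / 5) (i % 5))
    rw [m0, h0, hA']
    rw [hA'] at hk
    have := hN A hA
    cases A <;> simp [atomCode] at hk
    exact this
  · intro i _ hc
    obtain ⟨m0, hl, hk⟩ := (flags_getD _ 9 i).1 hc
    obtain ⟨A, hA, hA'⟩ := hcode (i / 5) (by simpa using hl)
    show IsConnected (T (i / 5) (i % 5))
    rw [m0, h0, hA']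
    rw [hA'] at hk
    have := hN A hA
    cases A <;> simp [atomCode] at hk
    exact this
  · intro G hE
    have hv : ∀ a r, r < 5 → T ((5 * a + r) / 5) ((5 * a + r) % 5) = T a r := by
      intro a r hr
      rw [show (5 * a + r) / 5 = a by omega, show (5 * a + r) % 5 = r by omega]
    have hnm : ∀ a (b : Bool), T ((5 * a + b.toNat) / 5) ((5 * a + b.toNat) % 5) =
        S (nm (N.map atomCode) a b) := by
      intro a b
      cases b
      · rw [hv a _ (by simp)]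
        exact h0 a
      · rw [hv a _ (by simp)]
        exact h1 a
    refine ⟨fun a ha => hR a (by simpa using ha) G _ (5 * a) hE fun r hr => hv a r hr, ?_⟩
    intro a _ a' _ b b' hb
    refine (hE.sub _ _).2 ?_
    show T ((5 * a + b.toNat) / 5) ((5 * a + b.toNat) % 5) ⊆
      T ((5 * a' + b'.toNat) / 5) ((5 * a' + b'.toNat) % 5)
    rw [hnm, hnm, hb]

/-- The string problem of a certificate satisfies the axioms.  `al_cross`: if the patterns of `s`
and `t` differ at a relevant `D`, say `s, s'` above and `t, t'` below, then on a common line and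
direction `H (q_t / 2) ≤ φ D false ≤ φ D true ≤ H ((q_s - 1) / 2)` (use `Geo.fat`), hence
`q_t < q_s`, and `NCs` holds; all four sides lie in one cell or no `Bs` holds. -/
theorem parOK (X : Ctx) (G : GD) (hT : Tab X.n G) (hG : Geo X G) : (parOf X G).OK := by
  have hloc : ∀ e ∈ X.SS, ∀ τ, locK e τ < X.K ∧ locR e τ < X.R := by
    intro e he τ
    obtain ⟨_, h2, h3, h4, h5⟩ := (X.mem_SS e).1 he
    cases τ
    · exact ⟨h2, h3⟩
    · exact ⟨h4, h5⟩
  have hreal : ∀ e s, Ok X G e s → (parOf X G).Real s := fun e s h => ⟨h.2.2.1, h.2.2.2.1, h.2.1⟩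
  refine ⟨fun e he => he.1, ?_, fun e f h => h.1, ?_, ?_, ?_, ?_, ?_, ?_, ?_, ?_, ?_, ?_, ?_⟩
  · intro e f h
    exact ⟨h.2.1, h.1, hT.dc_symm _ ((X.mem_SS e).1 h.1.1).1 _ ((X.mem_SS f).1 h.2.1.1).1 h.2.2⟩
  · intro e h
    have he := ((X.mem_SS e).1 h.1.1).1
    exact hT.io_irr _ he (hT.dc_io _ he _ he h.2.2)
  · intro e _
    show (2 * locR e false + 1) % 2 = 1
    omega
  · intro e _
    show (2 * locR e true + 1) % 2 = 1
    omega
  · intro e he
    exact hreal e _ (hG.ends e he.1 he.2.1 false).1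
  · intro e he
    exact hreal e _ (hG.ends e he.1 he.2.1 true).1
  · intro e he h
    have h1 : e.2.1 = e.2.2.2.1 := h.1
    have h2 : 2 * e.2.2.1 + 1 = 2 * e.2.2.2.2 + 1 := h.2
    exact he.2.2 ⟨h1, by omega⟩
  · intro e f h s t hs ht hst
    have key : ∀ τ τ', locK e τ = locK f τ' → 2 * locR e τ + 1 = 2 * locR f τ' + 1 → False := by
      intro τ τ' h1 h2
      have h3 : locR e τ = locR f τ' := by omega
      have m1 := (hG.act_ok e h.1.1 h.1.2.1).2.1 τ
      have m2 := (hG.act_ok f h.2.1.1 h.2.1.2.1).2.1 τ'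
      rw [← h1, ← h3] at m2
      exact hG.mdc _ ((X.mem_SS e).1 h.1.1).1 _ ((X.mem_SS f).1 h.2.1.1).1 h.2.2 _
        (hloc e h.1.1 τ).1 _ (hloc e h.1.1 τ).2 m1 m2
    rcases hs with rfl | rfl <;> rcases ht with rfl | rfl
    · exact key false false hst.1 hst.2
    · exact key false true hst.1 hst.2
    · exact key true false hst.1 hst.2
    · exact key true true hst.1 hst.2
  · intro e s t h
    exact ⟨h.2.2.1, hreal e s h.1⟩
  · intro e s t h
    refine ⟨h.2.1, h.1, h.2.2.1.symm, fun D hD hc hio hsp => ?_⟩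
    exact (h.2.2.2 D hD hc hio (h.2.2.1 ▸ hsp)).symm
  · intro e s t u h h'
    refine ⟨h.1, h'.2.1, h.2.2.1.trans h'.2.2.1, fun D hD hc hio hsp => ?_⟩
    exact (h.2.2.2 D hD hc hio hsp).trans (h'.2.2.2 D hD hc hio (h.2.2.1 ▸ hsp))
  · intro e s s' t t' h h' n1 n2 n3 n4 hN
    obtain ⟨os, os', cs, ps⟩ := h
    obtain ⟨ot, ot', ct, pt'⟩ := h'
    have hcl : cl s = cl t := by
      by_contra hc
      apply hN
      have b1 : ¬ Bs s t := fun b => hc (cl_of_Bs b.1 b.2.1)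
      have b2 : ¬ Bs s' t := fun b => hc (cs.trans (cl_of_Bs b.1 b.2.1))
      have b3 : ¬ Bs s t' := fun b => hc ((cl_of_Bs b.1 b.2.1).trans ct.symm)
      have b4 : ¬ Bs s' t' := fun b => hc (cs.trans ((cl_of_Bs b.1 b.2.1).trans ct.symm))
      unfold NCs
      tauto
    refine ⟨os, ot, hcl, fun D hD hc hio hsp => ?_⟩
    have q1 := ps D hD hc hio hsp
    have q2 := pt' D hD hc hio (hcl ▸ hsp)
    have sp' : G.sp D (cl s') := cs ▸ hsp
    have spt : G.sp D (cl t) := hcl ▸ hsp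
    have spt' : G.sp D (cl t') := ct ▸ spt
    by_contra hne
    apply hN
    by_cases ha : G.abv e s D
    · have hb : ¬ G.abv e t D := fun hb => hne ⟨fun _ => hb, fun _ => ha⟩
      have ha' := q1.1 ha
      have hb' : ¬ G.abv e t' D := fun x => hb (q2.2 x)
      have b1 : ¬ Bs s t := fun b => by
        have := slot_lt X G hG e s t D hD hc hio hsp os ot ha hb n1 b.1 b.2.1
        have := b.2.2
        omega
      have b2 : ¬ Bs s' t := fun b => by
        have := slot_lt X G hG e s' t D hD hc hio sp' os' ot ha' hb n3 b.1 b.2.1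
        have := b.2.2
        omega
      have b3 : ¬ Bs s t' := fun b => by
        have := slot_lt X G hG e s t' D hD hc hio hsp os ot' ha hb' n2 b.1 b.2.1
        have := b.2.2
        omega
      have b4 : ¬ Bs s' t' := fun b => by
        have := slot_lt X G hG e s' t' D hD hc hio sp' os' ot' ha' hb' n4 b.1 b.2.1
        have := b.2.2
        omega
      unfold NCs
      tauto
    · have hb : G.abv e t D := by
        by_contra hb
        exact hne ⟨fun x => (ha x).elim, fun x => (hb x).elim⟩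
      have ha' : ¬ G.abv e s' D := fun x => ha (q1.2 x)
      have hb' := q2.1 hb
      have gen : ∀ x y : Side, cl x = cl y → G.sp D (cl y) → Ok X G e x → Ok X G e y →
          ¬ G.abv e x D → G.abv e y D → x ≠ y → (Bs x y ↔ x.2.2 = y.2.2) := by
        intro x y hxy hsy ox oy ax ay nxy
        refine ⟨fun b => b.2.1, fun hd => ⟨line_of_cl hxy hd, hd, ?_⟩⟩
        exact slot_lt X G hG e y x D hD hc hio hsy oy ox ay ax nxy.symm
          (line_of_cl hxy hd).symm hd.symm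
      have b1 := gen s t hcl spt os ot ha hb n1
      have b2 := gen s' t (cs.symm.trans hcl) spt os' ot ha' hb n3
      have b3 := gen s t' (hcl.trans ct) spt' os ot' ha hb' n2
      have b4 := gen s' t' (cs.symm.trans (hcl.trans ct)) spt' os' ot' ha' hb' n4
      unfold NCs
      rw [b1, b2, b3, b4]
      cases s.2.2 <;> cases s'.2.2 <;> cases t.2.2 <;> cases t'.2.2 <;> simp

end Pool.Agent.Lib.MP_02e8f2_lc
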