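import Pool.Agent.Lib.MP_02e8f2_lc.Cvx

/-!
Straight pieces anchored at a line.
-/

set_option autoImplicit false

namespace Pool.Agent.Lib.MP_02e8f2_lc

open Set Filter Topology

/-- The abscissa at distance `t` from line `k` in direction `d`. -/
def xp (G : GD) (k : ℕ) (d : Bool) (t : ℝ) : ℝ := G.a k + sg d * t

/-- Half the width of the cell next to line `k` in direction `d`. -/
noncomputable def hw (G : GD) (k : ℕ) (d : Bool) : ℝ :=
  (G.a (clk k d) - G.a (clk k d - 1)) / 2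

/-- A straight piece. -/
def pc (G : GD) (k : ℕ) (d : Bool) (t₀ y₀ μ τ : ℝ) : Set (ℝ × ℝ) :=
  (fun σ => (xp G k d (t₀ + σ), y₀ + μ * σ)) '' Icc 0 τ

theorem xp_inj {G : GD} {k : ℕ} {d : Bool} {t t' : ℝ} (h : xp G k d t = xp G k d t') : t = t' := by
  cases d <;> simp [xp, sg] at h <;> exact h

theorem pc_cont (G : GD) (k : ℕ) (d : Bool) (t₀ y₀ μ : ℝ) :
    Continuous fun σ => (xp G k d (t₀ + σ), y₀ + μ * σ) := by unfold xp; fun_prop

theorem pc_closed (G : GD) (k : ℕ) (d : Bool) (t₀ y₀ μ τ : ℝ) : IsClosed (pc G k d t₀ y₀ μ τ) :=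
  (isCompact_Icc.image (pc_cont G k d t₀ y₀ μ)).isClosed

theorem pc_conn (G : GD) (k : ℕ) (d : Bool) (t₀ y₀ μ τ : ℝ) :
    IsPreconnected (pc G k d t₀ y₀ μ τ) :=
  isPreconnected_Icc.image _ (pc_cont G k d t₀ y₀ μ).continuousOn

theorem pc_start (G : GD) (k : ℕ) (d : Bool) (t₀ y₀ μ : ℝ) {τ : ℝ} (h : 0 ≤ τ) :
    (xp G k d t₀, y₀) ∈ pc G k d t₀ y₀ μ τ := ⟨0, ⟨le_rfl, h⟩, by simp⟩

theorem pc_stop (G : GD) (k : ℕ) (d : Bool) (t₀ y₀ μ : ℝ) {τ : ℝ} (h : 0 ≤ τ) :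
    (xp G k d (t₀ + τ), y₀ + μ * τ) ∈ pc G k d t₀ y₀ μ τ := ⟨τ, ⟨h, le_rfl⟩, rfl⟩

theorem pc_dense {G : GD} {k : ℕ} {d : Bool} {t₀ y₀ μ τ : ℝ} (h : 0 < τ) {F : Set (ℝ × ℝ)}
    (hF : (pc G k d t₀ y₀ μ τ ∩ F).Countable) :
    pc G k d t₀ y₀ μ τ ⊆ closure (pc G k d t₀ y₀ μ τ \ F) := by
  set c : ℝ → ℝ × ℝ := fun σ => (xp G k d (t₀ + σ), y₀ + μ * σ)
  have hi : Function.Injective c := fun σ σ' e => by
    have := xp_inj (congrArg Prod.fst e); linarith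
  have h1 := (hF.preimage hi).dense_compl ℝ
  have h2 : Icc 0 τ ⊆ closure (Ioo 0 τ ∩ (c ⁻¹' (pc G k d t₀ y₀ μ τ ∩ F))ᶜ) := by
    rw [← closure_Ioo h.ne]
    exact closure_minimal (h1.open_subset_closure_inter isOpen_Ioo) isClosed_closure
  refine (image_mono h2).trans ((image_closure_subset_closure_image (pc_cont ..)).trans
    (closure_mono ?_))
  rintro _ ⟨σ, ⟨h3, h4⟩, rfl⟩
  have h5 : c σ ∈ pc G k d t₀ y₀ μ τ := ⟨σ, Ioo_subset_Icc_self h3, rfl⟩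
  exact ⟨h5, fun h6 => h4 ⟨h5, h6⟩⟩

theorem lim_closed {p : ℝ × ℝ} {S : ℕ → Set (ℝ × ℝ)} (hS : ∀ n, IsClosed (S n)) {ε : ℕ → ℝ}
    (hε : Tendsto ε atTop (𝓝 0)) (h : ∀ n, ∀ z ∈ S n, dist z p ≤ ε n) :
    IsClosed {z | z = p ∨ ∃ n, z ∈ S n} := by
  refine isClosed_of_closure_subset fun z hz => ?_
  by_cases hp : z = p
  · exact Or.inl hp
  have h1 : 0 < dist z p / 2 := half_pos (dist_pos.2 hp)
  obtain ⟨N, hN⟩ := eventually_atTop.1 (hε.eventually_lt_const h1)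
  have h2 : {z | z = p ∨ ∃ n, z ∈ S n} ⊆
      Metric.closedBall p (dist z p / 2) ∪ ⋃ n ∈ Iio N, S n := by
    rintro w (rfl | ⟨n, hn⟩)
    · exact Or.inl (Metric.mem_closedBall_self h1.le)
    · rcases lt_or_ge n N with h3 | h3
      · exact Or.inr (mem_biUnion h3 hn)
      · exact Or.inl ((h n w hn).trans (hN n h3).le)
  have h3 := closure_minimal h2 (Metric.isClosed_closedBall.union
    ((finite_Iio N).isClosed_biUnion fun n _ => hS n)) hz
  rcases h3 with h3 | h3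
  · rw [Metric.mem_closedBall] at h3; linarith
  · obtain ⟨n, -, hn⟩ := mem_iUnion₂.1 h3
    exact Or.inr ⟨n, hn⟩

theorem between_infinite {A B : Set ℝ} (hA : A.Finite) (hB : B.Finite) (hA' : A.Nonempty)
    (hB' : B.Nonempty) (h : ∀ a ∈ A, ∀ b ∈ B, a < b) :
    {y | (∀ a ∈ A, a < y) ∧ ∀ b ∈ B, y < b}.Infinite := by
  obtain ⟨a, ha, ha'⟩ := exists_max_image A id hA hA'
  obtain ⟨b, hb, hb'⟩ := exists_min_image B id hB hB'
  exact (Ioo_infinite (h a ha b hb)).mono fun y hy =>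
    ⟨fun a' h => (ha' a' h).trans_lt hy.1, fun b' h => hy.2.trans_le (hb' b' h)⟩

theorem inj_choice {ι : Type} {T : Set ι} (hT : T.Finite) (W : ι → Set ℝ)
    (hW : ∀ i ∈ T, (W i).Infinite) : ∃ f : ι → ℝ, InjOn f T ∧ ∀ i ∈ T, f i ∈ W i := by
  classical
  induction T, hT using Set.Finite.induction_on with
  | empty => exact ⟨fun _ => 0, by simp, by simp⟩
  | @insert i T hi hT ih =>
    obtain ⟨f, h1, h2⟩ := ih fun j hj => hW j (mem_insert_of_mem _ hj)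
    obtain ⟨y, hy, hy'⟩ := (hW i (mem_insert _ _)).exists_notMem_finite (hT.image f)
    have e : ∀ j ∈ T, Function.update f i y j = f j := fun j hj =>
      Function.update_of_ne (fun e : j = i => hi (e ▸ hj)) _ _
    refine ⟨Function.update f i y, ?_, ?_⟩
    · rw [injOn_insert hi]
      refine ⟨h1.congr fun j hj => (e j hj).symm, ?_⟩
      rintro ⟨j, hj, h⟩
      rw [e j hj, Function.update_self] at h
      exact hy' ⟨j, hj, h⟩
    · rintro j (rfl | hj)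
      · simpa using hy
      · rw [e j hj]; exact h2 j hj

variable {X : Ctx} {G : GD} {J : ℕ → Str × Bool} {θ ρ B : ℝ}

theorem clk_cases {k : ℕ} {d : Bool} (h : 1 ≤ clk k d) :
    ∃ c, clk k d = c + 1 ∧ ((d = true ∧ k = c) ∨ (d = false ∧ k = c + 1)) := by
  cases d
  · exact ⟨k - 1, by simp [clk] at h ⊢; omega, Or.inr ⟨rfl, by simp [clk] at h; omega⟩⟩
  · exact ⟨k, rfl, Or.inl ⟨rfl, rfl⟩⟩

theorem abscissa (hG : Geo X G) {k k' : ℕ} {d d' : Bool} (h1 : 1 ≤ clk k d) (h2 : clk k d < X.K)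
    (h3 : 1 ≤ clk k' d') (h4 : clk k' d' < X.K) {t t' : ℝ} (h5 : 0 ≤ t) (h6 : t ≤ hw G k d)
    (h7 : 0 ≤ t') (h8 : t' ≤ hw G k' d') (h : xp G k d t = xp G k' d' t') :
    (k = k' ∧ d = d' ∧ t = t') ∨ (k = k' ∧ t = 0 ∧ t' = 0) ∨
      (clk k d = clk k' d' ∧ d ≠ d' ∧ t = hw G k d ∧ t' = hw G k' d') := by
  obtain ⟨c, e, hc⟩ := clk_cases h1
  obtain ⟨c', e', hc'⟩ := clk_cases h3
  simp only [hw, e, e', Nat.add_sub_cancel] at h2 h4 h6 h8 ⊢
  have w := hG.a_lt c (by omega) h2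
  have w' := hG.a_lt c' (by omega) h4
  rcases lt_trichotomy c c' with hl | rfl | hl
  · have l1 := le_of_succ hG.a_lt (by omega : c + 1 ≤ c') (by omega)
    rcases hc with ⟨rfl, rfl⟩ | ⟨rfl, rfl⟩ <;> rcases hc' with ⟨rfl, rfl⟩ | ⟨rfl, rfl⟩ <;>
      simp only [xp, sg_true, sg_false] at h
    · linarith
    · linarith
    · have l2 : ¬ c + 1 < k' := fun l => by
        have := lt_of_succ hG.a_lt l (by omega); linarith
      exact Or.inr (Or.inl ⟨by omega, by linarith, by linarith⟩)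
    · linarith
  · rcases hc with ⟨rfl, rfl⟩ | ⟨rfl, rfl⟩ <;> rcases hc' with ⟨rfl, h9⟩ | ⟨rfl, h9⟩ <;>
      simp only [xp, sg_true, sg_false, h9] at h
    · exact Or.inl ⟨h9.symm, rfl, by linarith⟩
    · exact Or.inr (Or.inr ⟨rfl, by simp, by linarith, by linarith⟩)
    · exact Or.inr (Or.inr ⟨rfl, by simp, by linarith, by linarith⟩)
    · exact Or.inl ⟨h9.symm, rfl, by linarith⟩
  · have l1 := le_of_succ hG.a_lt (by omega : c' + 1 ≤ c) (by omega)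
    rcases hc with ⟨rfl, rfl⟩ | ⟨rfl, rfl⟩ <;> rcases hc' with ⟨rfl, rfl⟩ | ⟨rfl, rfl⟩ <;>
      simp only [xp, sg_true, sg_false] at h
    · linarith
    · have l2 : ¬ c' + 1 < k := fun l => by
        have := lt_of_succ hG.a_lt l (by omega); linarith
      exact Or.inr (Or.inl ⟨by omega, by linarith, by linarith⟩)
    · linarith
    · linarith

theorem lt_hw (hS : Small X G J θ ρ B) {k : ℕ} {d : Bool} (h1 : 1 ≤ clk k d)
    (h2 : clk k d < X.K) : θ < hw G k d := by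
  obtain ⟨c, e, -⟩ := clk_cases h1
  simp only [hw, e, Nat.add_sub_cancel] at h2 ⊢
  have := hS.wid c (by omega) h2
  linarith

theorem k_lt {k : ℕ} {d : Bool} {K : ℕ} (h : clk k d < K) : k < K := by
  cases d <;> simp [clk] at h <;> omega

/-- The boundary function seen from a side. -/
noncomputable def FS (G : GD) (J : ℕ → Str × Bool) (θ : ℝ) (C : ℕ) (up : Bool) (k : ℕ) (d : Bool)
    (t : ℝ) : ℝ := FF G J θ C up (clk k d - 1) (xp G k d t)

theorem FS_thin (hS : Small X G J θ ρ B) {k : ℕ} {d : Bool} (h1 : 1 ≤ clk k d)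
    (h2 : clk k d < X.K) (C : ℕ) (up : Bool) {t : ℝ} (ht : t ≤ θ) :
    FS G J θ C up k d t = th G J θ C up k d t := by
  obtain ⟨c, e, ⟨rfl, rfl⟩ | ⟨rfl, rfl⟩⟩ := clk_cases h1 <;> rw [e] at h2 <;>
    simp only [FS, e, Nat.add_sub_cancel, xp, sg_true, sg_false, one_mul, neg_mul,
      ← sub_eq_add_neg]
  · exact FF_left C up k ht
  · exact FF_right hS C up h2 ht

theorem FS_thick (hS : Small X G J θ ρ B) {k k' : ℕ} {d : Bool} (h1 : 1 ≤ clk k d)
    (h2 : clk k d < X.K) (h3 : clk k' (!d) = clk k d) (C : ℕ) (up : Bool) {σ : ℝ} (h4 : 0 ≤ σ)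
    (h5 : σ ≤ hw G k d - θ) : FS G J θ C up k d (θ + σ) = th G J θ C up k d θ +
      (th G J θ C up k' (!d) θ - th G J θ C up k d θ) / (2 * (hw G k d - θ)) * σ := by
  have h6 := lt_hw hS h1 h2
  obtain ⟨c, e, ⟨rfl, rfl⟩ | ⟨rfl, rfl⟩⟩ := clk_cases h1 <;> rw [e] at h2 h3 <;>
    simp only [FS, FF, hw, e, Nat.add_sub_cancel, xp, sg_true, sg_false, one_mul, neg_mul]
      at h5 h6 ⊢
  · obtain rfl : k' = k + 1 := h3
    rw [glue_mid (by linarith) (by linarith) (by linarith), lin, Bool.not_true]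
    congr 2 <;> ring
  · obtain rfl : k' = c := by simpa [clk] using h3
    rw [glue_mid (by linarith) (by linarith) (by linarith), lin]
    have : G.a (k' + 1) - G.a k' - 2 * θ ≠ 0 := by linarith
    have : 2 * ((G.a (k' + 1) - G.a k') / 2 - θ) = G.a (k' + 1) - G.a k' - 2 * θ := by ring
    rw [this]
    simp only [Bool.not_false]
    field_simp
    ring

/-- The point is inside the convex sets around `A` and outside those that `A` must avoid. -/
def SG (X : Ctx) (G : GD) (J : ℕ → Str × Bool) (θ : ℝ) (A : ℕ) (z : ℝ × ℝ) : Prop :=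
  ∀ C < X.n, X.cvx C = true → (G.sub A C → z ∈ interior (KC X G J θ C)) ∧
    (G.io A C → z ∉ KC X G J θ C)

/-- The height `y` lies in the channel of `A` with pattern `π`. -/
def Ch (X : Ctx) (G : GD) (A : ℕ) (π : ℕ → Prop) (c : ℕ) (f : ℕ → Bool → ℝ) (y : ℝ) : Prop :=
  ∀ C < X.n, ∀ up, (Low X G A π c C up → f C up < y) ∧ (Upp X G A π c C up → y < f C up)

theorem SG_of_Ch (hG : Geo X G) (hS : Small X G J θ ρ B) {k : ℕ} {d : Bool} (h1 : 1 ≤ clk k d)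
    (h2 : clk k d < X.K) {A : ℕ} {π : ℕ → Prop}
    (hsp : ∀ C < X.n, X.cvx C = true → G.sub A C → G.sp C (clk k d)) {t y : ℝ} (ht : 0 < t)
    (ht' : t ≤ hw G k d) (h : Ch X G A π (clk k d) (fun C up => FS G J θ C up k d t) y) :
    SG X G J θ A (xp G k d t, y) := by
  have h6 := (lt_hw hS h1 h2).trans' hS.pos
  obtain ⟨c, e, hc⟩ := clk_cases h1
  simp only [FS, hw, e, Nat.add_sub_cancel] at h2 hsp ht' h h6
  have hx : G.a c < xp G k d t ∧ xp G k d t < G.a (c + 1) := by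
    rcases hc with ⟨rfl, rfl⟩ | ⟨rfl, rfl⟩ <;> simp only [xp, sg_true, sg_false] <;>
      constructor <;> linarith
  intro C hC hv
  refine ⟨fun hs => int_open hG hS hC hv h2 (hsp C hC hv hs) hx.1 hx.2
    ((h C hC false).1 ⟨hv, hs⟩) ((h C hC true).2 ⟨hv, hs⟩), fun hi hm => ?_⟩
  have k1 := sp_of_open hG hC hv hm h2 hx.1 hx.2
  have k2 := hm.2.2 c h2 k1
  by_cases hp : π C
  · exact absurd ((h C hC true).1 ⟨hv, hi, k1, hp⟩) k2.2.not_gt
  · exact absurd ((h C hC false).2 ⟨hv, hi, k1, hp⟩) k2.1.not_gt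

end Pool.Agent.Lib.MP_02e8f2_lc
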