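import Pool.Agent.Lib.MP_02e8f2_lc.Comb

/-!
Straight-line programs with reversal and left quotient.
-/

set_option autoImplicit false

namespace Pool.Agent.Lib.MP_02e8f2_lc

lemma wval_foldl (w : List Bool) (n : ℕ) :
    w.foldl (fun n b => 2 * n + b.toNat) n = n * 2 ^ w.length + wval w := by
  induction w generalizing n with
  | nil => simp [wval]
  | cons b w ih =>
    simp only [wval, List.foldl_cons, List.length_cons]
    rw [ih, ih (2 * 0 + b.toNat)]
    ring

lemma wval_append (u w : List Bool) : wval (u ++ w) = wval u * 2 ^ w.length + wval w := by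
  rw [wval, List.foldl_append, wval_foldl]; rfl

lemma wval_cons (b : Bool) (w : List Bool) : wval (b :: w) = b.toNat * 2 ^ w.length + wval w := by
  rw [← List.singleton_append, wval_append]; simp [wval]

lemma wval_lt (w : List Bool) : wval w < 2 ^ w.length := by
  induction w with
  | nil => simp [wval]
  | cons b w ih => rw [wval_cons, List.length_cons, pow_succ]; cases b <;> simp <;> omega

lemma wval_inj {u w : List Bool} (h1 : u.length = w.length) (h2 : wval u = wval w) : u = w := by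
  induction u generalizing w with
  | nil => exact (List.length_eq_zero_iff.1 h1.symm).symm
  | cons a u ih =>
    cases w with
    | nil => simp at h1
    | cons b w =>
      have h3 : u.length = w.length := by simpa using h1
      have h4 := wval_lt u
      have h5 := wval_lt w
      rw [wval_cons, wval_cons, h3] at h2
      rw [h3] at h4
      cases a <;> cases b <;> simp at h2 ⊢ <;> first | exact ih h3 h2 | omega

theorem tu_nil : tu [] = .eps := by
  simp [tu, Tu.eps, wval]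

theorem tu_true : tu [true] = .la := by
  simp [tu, Tu.la, wval]

theorem tu_false : tu [false] = .lb := by
  simp [tu, Tu.lb, wval]

theorem tu_append (u w : List Bool) : tu (u ++ w) = (tu u).cat (tu w) := by
  simp [tu, Tu.cat, wval_append, pow_add]

theorem tu_reverse (w : List Bool) : tu w.reverse = (tu w).rev := by
  simp [tu, Tu.rev]

theorem tu_inj {u w : List Bool} (h : tu u = tu w) : u = w := by
  simp only [tu, Tu.mk.injEq] at h
  exact wval_inj (pow_right_injective₀ (by norm_num) (by norm_num) h.1) (by exact_mod_cast h.2.1)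

lemma quot_sound {w₁ w₂ : List Bool} {x : Tu} (h : tu w₁ = (tu w₂).cat x) (h1 : 1 ≤ x.m)
    (h2 : 0 ≤ x.v) (h3 : x.v < x.m) : ∃ w, x = tu w := by
  have hm : (2 : ℝ) ^ w₁.length = 2 ^ w₂.length * x.m := congrArg Tu.m h
  have hl : w₂.length ≤ w₁.length := by
    refine (pow_le_pow_iff_right₀ (show (1 : ℝ) < 2 by norm_num)).1 ?_
    rw [hm]
    exact le_mul_of_one_le_right (by positivity) h1
  obtain ⟨u, u', rfl, hu⟩ : ∃ u u', w₁ = u ++ u' ∧ u.length = w₂.length :=
    ⟨w₁.take w₂.length, w₁.drop w₂.length, by simp, by simp [hl]⟩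
  rw [List.length_append, pow_add, hu] at hm
  have hm' : x.m = 2 ^ u'.length := (mul_left_cancel₀ (by positivity) hm).symm
  have hv : (wval (u ++ u') : ℝ) = wval w₂ * x.m + x.v := congrArg Tu.v h
  have h4 : (wval u' : ℝ) < 2 ^ u'.length := by exact_mod_cast wval_lt u'
  rw [wval_append, hm'] at hv
  push_cast at hv
  rw [hm'] at h3
  have h5 : (0 : ℝ) < 2 ^ u'.length := by positivity
  have h6 : (0 : ℝ) ≤ wval u' := by positivity
  have h7 : (wval u : ℝ) < wval w₂ + 1 := by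
    by_contra hc
    nlinarith [not_lt.1 hc]
  have h8 : (wval w₂ : ℝ) < wval u + 1 := by
    by_contra hc
    nlinarith [not_lt.1 hc]
  have h9 : wval u = wval w₂ := by
    have : wval u < wval w₂ + 1 := by exact_mod_cast h7
    have : wval w₂ < wval u + 1 := by exact_mod_cast h8
    omega
  obtain rfl := wval_inj hu h9
  refine ⟨u', ?_⟩
  rw [tu_append] at h
  simp only [Tu.cat, Tu.mk.injEq, add_right_inj, add_left_inj] at h
  have h0 : (tu u).m ≠ 0 := by simp [tu]
  refine Tu.ext hm' ?_ (mul_right_cancel₀ h0 h.2.2.1).symm h.2.2.2.1.symm h.2.2.2.2.symm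
  simp only [tu]
  linarith

/-- Quotient rule: if `tu w₁ = (tu w₂).cat x`, `1 ≤ x.m`, `0 ≤ x.v < x.m`, then
`|w₂| ≤ |w₁|`, `x.m = 2 ^ (|w₁| - |w₂|)`; split `w₁ = u ++ u'` with `|u| = |w₂|`; division with
remainder gives `wval u = wval w₂`, so `u = w₂` and `x = tu u'`. -/
theorem rule_sound (nd : ℕ → Tu) (T : ℕ) (h : ∀ t < T, Rule nd t) :
    ∀ t < T, ∃ w, nd t = tu w := by
  intro t
  induction t using Nat.strong_induction_on with
  | _ t ih =>
    intro ht
    rcases h t ht with e | e | e | ⟨t₁, h1, e | ⟨t₂, h2, e | ⟨e, h3, h4, h5⟩⟩⟩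
    · exact ⟨[], e.trans tu_nil.symm⟩
    · exact ⟨[true], e.trans tu_true.symm⟩
    · exact ⟨[false], e.trans tu_false.symm⟩
    · obtain ⟨w, hw⟩ := ih t₁ h1 (h1.trans ht)
      exact ⟨w.reverse, by rw [e, hw, tu_reverse]⟩
    · obtain ⟨w, hw⟩ := ih t₁ h1 (h1.trans ht)
      obtain ⟨w', hw'⟩ := ih t₂ h2 (h2.trans ht)
      exact ⟨w ++ w', by rw [e, hw, hw', tu_append]⟩
    · obtain ⟨w, hw⟩ := ih t₁ h1 (h1.trans ht)
      obtain ⟨w', hw'⟩ := ih t₂ h2 (h2.trans ht)
      rw [hw, hw'] at e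
      exact quot_sound e h3 h4 h5

/-- The word `w` arises from the entries of `l` by one rule. -/
def Der (l : List (List Bool)) (w : List Bool) : Prop :=
  w = [] ∨ w = [true] ∨ w = [false] ∨ ∃ u ∈ l, w = u.reverse ∨ ∃ v ∈ l, w = u ++ v ∨ u = v ++ w

/-- Every entry arises from later entries by one rule. -/
def Good : List (List Bool) → Prop
  | [] => True
  | w :: l => Der l w ∧ Good l

lemma Good.program {l : List (List Bool)} (h : Good l) : ∃ g : ℕ → List Bool,
    (∀ t, Rule (fun t => tu (g t)) t) ∧ (∀ w ∈ l, ∃ t < l.length, g t = w) ∧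
      ∀ t, l.length ≤ t → g t = [] := by
  induction l with
  | nil => exact ⟨fun _ => [], fun t => Or.inl tu_nil, by simp, fun _ _ => rfl⟩
  | cons w l ih =>
    obtain ⟨g, h1, h2, h3⟩ := ih h.2
    have e : ∀ t < l.length, Function.update g l.length w t = g t := fun t ht =>
      Function.update_of_ne ht.ne _ _
    have e' : ∀ t, (w :: l).length ≤ t → Function.update g l.length w t = [] := fun t ht => by
      rw [List.length_cons] at ht
      rw [Function.update_of_ne (by omega), h3 t (by omega)]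
    refine ⟨Function.update g l.length w, fun t => ?_, fun v hv => ?_, e'⟩
    · rcases lt_trichotomy t l.length with ht | rfl | ht
      · unfold Rule
        simp only [e t ht]
        rcases h1 t with a | a | a | ⟨t₁, b, a | ⟨t₂, c, a⟩⟩
        · exact Or.inl a
        · exact Or.inr (Or.inl a)
        · exact Or.inr (Or.inr (Or.inl a))
        · exact Or.inr (Or.inr (Or.inr ⟨t₁, b, Or.inl (by rw [e t₁ (b.trans ht)]; exact a)⟩))
        · exact Or.inr (Or.inr (Or.inr ⟨t₁, b, Or.inr ⟨t₂, c, by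
            rw [e t₁ (b.trans ht), e t₂ (c.trans ht)]; exact a⟩⟩))
      · unfold Rule
        simp only [Function.update_self]
        rcases h.1 with a | a | a | ⟨u, hu, a | ⟨v, hv, a⟩⟩
        · exact Or.inl (a ▸ tu_nil)
        · exact Or.inr (Or.inl (a ▸ tu_true))
        · exact Or.inr (Or.inr (Or.inl (a ▸ tu_false)))
        · obtain ⟨t₁, b, rfl⟩ := h2 u hu
          exact Or.inr (Or.inr (Or.inr ⟨t₁, b, Or.inl (by rw [e t₁ b, a, tu_reverse])⟩))
        · obtain ⟨t₁, b, rfl⟩ := h2 u hu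
          obtain ⟨t₂, c, rfl⟩ := h2 v hv
          refine Or.inr (Or.inr (Or.inr ⟨t₁, b, Or.inr ⟨t₂, c, ?_⟩⟩))
          rw [e t₁ b, e t₂ c]
          rcases a with a | a
          · exact Or.inl (by rw [a, tu_append])
          · refine Or.inr ⟨by rw [a, tu_append], one_le_pow₀ (by norm_num), Nat.cast_nonneg _, ?_⟩
            simp only [tu]
            exact_mod_cast wval_lt w
      · exact Or.inl (by simp only [e' t ht, tu_nil])
    · rcases List.mem_cons.1 hv with rfl | hv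
      · exact ⟨l.length, by simp, Function.update_self _ _ _⟩
      · obtain ⟨t, b, rfl⟩ := h2 v hv
        exact ⟨t, by simp; omega, e t b⟩

section

variable {κ : Type} (A : Finset κ) (tl : κ → List Bool)

/-- Every good list containing `Γ` can be cheaply extended by a short initial word. -/
def Cap (i : ℕ) (Γ : List (List Bool)) : Prop :=
  ∀ Δ, Good Δ → Γ ⊆ Δ → ∀ P, (∃ c ∈ A, P <+: tl c) → P.length ≤ 2 ^ i →
    ∃ Δ', Good Δ' ∧ Δ ⊆ Δ' ∧ Δ'.length ≤ Δ.length + (3 * i + 1) ∧ P ∈ Δ'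

variable {A tl}

lemma Cap.many {i : ℕ} {Γ : List (List Bool)} (h : Cap A tl i Γ) {ι : Type} (S : Finset ι)
    (f : ι → List Bool) (hf : ∀ s ∈ S, (∃ c ∈ A, f s <+: tl c) ∧ (f s).length ≤ 2 ^ i)
    (Δ : List (List Bool)) (h1 : Good Δ) (h2 : Γ ⊆ Δ) :
    ∃ Δ', Good Δ' ∧ Δ ⊆ Δ' ∧ Δ'.length ≤ Δ.length + S.card * (3 * i + 1) ∧ ∀ s ∈ S, f s ∈ Δ' := by
  induction S using Finset.cons_induction with
  | empty => exact ⟨Δ, h1, fun _ h => h, by simp, by simp⟩
  | cons a S ha ih =>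
    obtain ⟨Δ₁, a1, a2, a3, a4⟩ := ih fun s hs => hf s (Finset.mem_cons.2 (Or.inr hs))
    obtain ⟨Δ₂, b1, b2, b3, b4⟩ := h Δ₁ a1 (List.Subset.trans h2 a2) (f a) (hf a (by simp)).1 (hf a (by simp)).2
    refine ⟨Δ₂, b1, List.Subset.trans a2 b2, ?_, fun s hs => ?_⟩
    · rw [Finset.card_cons, add_mul]; omega
    · rcases Finset.mem_cons.1 hs with rfl | hs
      exacts [b4, b2 (a4 s hs)]

lemma exists_cap (L : ℕ) (hfac : ∀ c ∈ A, ∀ J, J <:+: tl c → ∃ c₁ ∈ A, ∃ c₂ ∈ A, ∃ P₁ P₂,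
      P₁ <+: tl c₁ ∧ P₂ <+: tl c₂ ∧ J = P₁.reverse ++ P₂) (i : ℕ) (hi : i ≤ L) :
    ∃ Γ, Good Γ ∧ Γ.length ≤ 2 * A.card * i * (3 * L + 1) ∧ Cap A tl i Γ := by
  induction i with
  | zero =>
    refine ⟨[], trivial, by simp, fun Δ h1 _ P _ h2 => ⟨P :: Δ, ⟨?_, h1⟩, by simp, by simp, by simp⟩⟩
    rcases P with _ | ⟨b, _ | ⟨b', P⟩⟩
    · exact Or.inl rfl
    · cases b
      exacts [Or.inr (Or.inr (Or.inl rfl)), Or.inr (Or.inl rfl)]
    · simp at h2
  | succ i ih =>
    obtain ⟨Γ, g1, g2, g3⟩ := ih (by omega)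
    have hJ : ∀ c, ∃ P₁ P₂ : List Bool, c ∈ A → (∃ c₁ ∈ A, P₁ <+: tl c₁) ∧
        (∃ c₂ ∈ A, P₂ <+: tl c₂) ∧ ((tl c).drop (2 ^ i)).take (2 ^ i) = P₁.reverse ++ P₂ := by
      intro c
      by_cases hc : c ∈ A
      · obtain ⟨c₁, a1, c₂, a2, P₁, P₂, a3, a4, a5⟩ := hfac c hc _
          ((List.take_prefix (2 ^ i) _).isInfix.trans (List.drop_suffix (2 ^ i) (tl c)).isInfix)
        exact ⟨P₁, P₂, fun _ => ⟨⟨c₁, a1, a3⟩, ⟨c₂, a2, a4⟩, a5⟩⟩
      · exact ⟨[], [], fun h => absurd h hc⟩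
    choose P₁ P₂ hP using hJ
    have hl : ∀ c ∈ A, (P₁ c).length + (P₂ c).length ≤ 2 ^ i := fun c hc => by
      have := congrArg List.length (hP c hc).2.2
      simp only [List.length_take, List.length_append, List.length_reverse] at this
      omega
    obtain ⟨Γ₁, a1, a2, a3, a4⟩ := g3.many A (fun c => (tl c).take (2 ^ i))
      (fun c hc => ⟨⟨c, hc, List.take_prefix _ _⟩, by simp⟩) Γ g1 (fun _ h => h)
    obtain ⟨Γ₂, b1, b2, b3, b4⟩ := g3.many A P₁
      (fun c hc => ⟨(hP c hc).1, by have := hl c hc; omega⟩) Γ₁ a1 a2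
    refine ⟨Γ₂, b1, ?_, ?_⟩
    · have : A.card * (3 * i + 1) ≤ A.card * (3 * L + 1) := by gcongr; omega
      nlinarith
    rintro Δ d1 d2 P ⟨c, hc, hp⟩ d3
    have d4 : Γ ⊆ Δ := List.Subset.trans (List.Subset.trans a2 b2) d2
    rcases le_total P.length (2 ^ i) with d5 | d5
    · obtain ⟨Δ', e1, e2, e3, e4⟩ := g3 Δ d1 d4 P ⟨c, hc, hp⟩ d5
      exact ⟨Δ', e1, e2, by omega, e4⟩
    have d6 : P = (tl c).take (2 ^ i) ++ P.drop (2 ^ i) := by
      obtain ⟨R, hR⟩ := hp
      rw [← hR, List.take_append_of_le_length d5, List.take_append_drop]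
    have d7 : P.drop (2 ^ i) <+: (P₁ c).reverse ++ P₂ c := by
      rw [← (hP c hc).2.2, List.prefix_take_iff]
      exact ⟨hp.drop _, by rw [List.length_drop]; omega⟩
    have m0 : (tl c).take (2 ^ i) ∈ Δ := d2 (b2 (a4 c hc))
    have m1 : P₁ c ∈ Δ := d2 (b4 c hc)
    have hl' := hl c hc
    generalize P.drop (2 ^ i) = J at d6 d7
    rcases List.prefix_or_prefix_of_prefix d7 (List.prefix_append _ _) with ⟨R, hR⟩ | ⟨R, hR⟩
    · have hR' : P₁ c = R.reverse ++ J.reverse := by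
        rw [← List.reverse_append, hR, List.reverse_reverse]
      obtain ⟨c₁, f1, f2⟩ := (hP c hc).1
      obtain ⟨Δ', e1, e2, e3, e4⟩ := g3 Δ d1 d4 R.reverse
        ⟨c₁, f1, (show R.reverse <+: P₁ c from ⟨_, hR'.symm⟩).trans f2⟩ (by
          have := congrArg List.length hR'
          rw [List.length_append] at this
          omega)
      refine ⟨P :: J :: J.reverse :: Δ', ⟨?_, ?_, ?_, e1⟩, fun x hx => by simp [e2 hx],
        by simp only [List.length_cons]; omega, by simp⟩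
      · exact Or.inr (Or.inr (Or.inr ⟨_, by simp [e2 m0], Or.inr ⟨J, by simp, Or.inl d6⟩⟩))
      · exact Or.inr (Or.inr (Or.inr ⟨J.reverse, by simp, Or.inl (by simp)⟩))
      · exact Or.inr (Or.inr (Or.inr ⟨_, e2 m1, Or.inr ⟨_, e4, Or.inr hR'⟩⟩))
    · subst hR
      obtain ⟨c₂, f1, f2⟩ := (hP c hc).2.1
      have f3 : R <+: P₂ c := (List.prefix_append_right_inj _).1 d7
      obtain ⟨Δ', e1, e2, e3, e4⟩ := g3 Δ d1 d4 R ⟨c₂, f1, f3.trans f2⟩ (by
        have := f3.length_le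
        omega)
      refine ⟨P :: ((P₁ c).reverse ++ R) :: (P₁ c).reverse :: Δ', ⟨?_, ?_, ?_, e1⟩,
        fun x hx => by simp [e2 hx], by simp only [List.length_cons]; omega, by simp⟩
      · exact Or.inr (Or.inr (Or.inr ⟨_, by simp [e2 m0], Or.inr ⟨_, by simp, Or.inl d6⟩⟩))
      · exact Or.inr (Or.inr (Or.inr ⟨(P₁ c).reverse, by simp, Or.inr ⟨R, by simp [e4],
          Or.inl rfl⟩⟩))
      · exact Or.inr (Or.inr (Or.inr ⟨_, e2 m1, Or.inl rfl⟩))

end

/-- Sketch.  Call a list of words good if each entry arises from later entries by one rule.  By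
induction on `i ≤ L` there is a good list `Γ i` of length at most `2 * A.card * i * (3 * L + 1)`
such that every good list containing `Γ i` can be extended by at most `3 * i + 1` entries so as to
contain any given `P <+: tl c` of length at most `2 ^ i`.  Step: for each `c` add
`P₀ = (tl c).take (2 ^ i)` and the word `P₁` given by `hfac` for
`J = ((tl c).drop (2 ^ i)).take (2 ^ i) = P₁.reverse ++ P₂`.  A longer `P` is `P₀ ++ J'` with
`J' <+: J`; either `J' = P₁.reverse ++ P₂'` with `P₂' <+: P₂`, or `P₁ = P₁' ++ J'.reverse` with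
`P₁' <+: P₁` (left quotient, then reverse).  Pad with empty words. -/
theorem compress {κ : Type} (A : Finset κ) (tl : κ → List Bool) (L : ℕ)
    (hlen : ∀ c ∈ A, (tl c).length ≤ 2 ^ L)
    (hfac : ∀ c ∈ A, ∀ J, J <:+: tl c → ∃ c₁ ∈ A, ∃ c₂ ∈ A, ∃ P₁ P₂,
      P₁ <+: tl c₁ ∧ P₂ <+: tl c₂ ∧ J = P₁.reverse ++ P₂)
    (B : Finset (List Bool)) (hB : ∀ w ∈ B, ∃ c ∈ A, w <+: tl c) (T : ℕ)
    (hT : (2 * A.card * L + B.card) * (3 * L + 1) ≤ T) :
    ∃ nd : ℕ → Tu, (∀ t < T, Rule nd t) ∧ ∀ w ∈ B, ∃ t < T, tu w = nd t := by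
  obtain ⟨Γ, g1, g2, g3⟩ := exists_cap L hfac L le_rfl
  obtain ⟨Δ, a1, -, a3, a4⟩ := g3.many B id (fun w hw => ⟨hB w hw, by
    obtain ⟨c, hc, h⟩ := hB w hw
    exact h.length_le.trans (hlen c hc)⟩) Γ g1 (fun _ h => h)
  obtain ⟨g, h1, h2, -⟩ := a1.program
  refine ⟨fun t => tu (g t), fun t _ => h1 t, fun w hw => ?_⟩
  obtain ⟨t, h3, h4⟩ := h2 w (a4 w hw)
  rw [add_mul] at hT
  exact ⟨t, by omega, congrArg tu h4.symm⟩

end Pool.Agent.Lib.MP_02e8f2_lc
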