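import Pool.Agent.Lib.MP_02e8f2_lc.Cert

/-!
Thickening closed skeletons to regions.
-/

set_option autoImplicit false

namespace Pool.Agent.Lib.MP_02e8f2_lc

namespace SkelAux

open Metric Set

open Classical in
/-- Truncated distance to a set. -/
noncomputable def dl (S : Set (ℝ × ℝ)) (p : ℝ × ℝ) : ℝ :=
  if S.Nonempty then min 1 (infDist p S) else 1

theorem dl_nonneg (S : Set (ℝ × ℝ)) (p : ℝ × ℝ) : 0 ≤ dl S p := by
  unfold dl; split_ifs
  · exact le_min zero_le_one infDist_nonneg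
  · exact zero_le_one

theorem dl_le_one (S : Set (ℝ × ℝ)) (p : ℝ × ℝ) : dl S p ≤ 1 := by
  unfold dl; split_ifs
  · exact min_le_left _ _
  · exact le_rfl

theorem dl_cont (S : Set (ℝ × ℝ)) : Continuous (dl S) := by
  unfold dl; split_ifs
  · exact continuous_const.min (continuous_infDist_pt S)
  · exact continuous_const

theorem dl_lip (S : Set (ℝ × ℝ)) (p q : ℝ × ℝ) : dl S p ≤ dl S q + dist p q := by
  unfold dl; split_ifs
  · have h1 : infDist p S ≤ infDist q S + dist p q := infDist_le_infDist_add_dist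
    have h2 := dist_nonneg (x := p) (y := q)
    rcases le_total 1 (infDist q S) with h | h
    · rw [min_eq_left h]; linarith [min_le_left 1 (infDist p S)]
    · rw [min_eq_right h]; linarith [min_le_right 1 (infDist p S)]
  · linarith [dist_nonneg (x := p) (y := q)]

theorem dl_le_infDist {S T : Set (ℝ × ℝ)} (h : T ⊆ S) (hT : T.Nonempty) (p : ℝ × ℝ) :
    dl S p ≤ infDist p T := by
  unfold dl
  rw [if_pos (hT.mono h)]
  exact (min_le_right _ _).trans (infDist_le_infDist_of_subset h hT)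

theorem dl_anti {S T : Set (ℝ × ℝ)} (h : T ⊆ S) (p : ℝ × ℝ) : dl S p ≤ dl T p := by
  by_cases hT : T.Nonempty
  · conv_rhs => unfold dl
    rw [if_pos hT]
    exact le_min (dl_le_one _ _) (dl_le_infDist h hT p)
  · conv_rhs => unfold dl
    rw [if_neg hT]
    exact dl_le_one _ _

theorem dl_pos {S : Set (ℝ × ℝ)} (hS : IsClosed S) {p : ℝ × ℝ} (hp : p ∉ S) : 0 < dl S p := by
  unfold dl; split_ifs with h
  · exact lt_min one_pos ((hS.notMem_iff_infDist_pos h).1 hp)
  · exact one_pos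

theorem dl_zero {S : Set (ℝ × ℝ)} {p : ℝ × ℝ} (hp : p ∈ S) : dl S p = 0 :=
  le_antisymm ((dl_le_infDist subset_rfl ⟨p, hp⟩ p).trans_eq (infDist_zero_of_mem hp))
    (dl_nonneg _ _)

/-- The open thickening of `A` that avoids `S`. -/
def U (A : Set (ℝ × ℝ)) (e : ℝ) (S : Set (ℝ × ℝ)) : Set (ℝ × ℝ) :=
  {p | infDist p A < e * dl S p}

theorem U_open (A : Set (ℝ × ℝ)) (e : ℝ) (S : Set (ℝ × ℝ)) : IsOpen (U A e S) :=
  isOpen_lt (continuous_infDist_pt A) (continuous_const.mul (dl_cont S))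

theorem U_mono {A S T : Set (ℝ × ℝ)} {e e' : ℝ} (h0 : 0 ≤ e) (he : e ≤ e') (h : T ⊆ S) :
    U A e S ⊆ U A e' T := fun p hp =>
  lt_of_lt_of_le hp (mul_le_mul he (dl_anti h p) (dl_nonneg _ _) (h0.trans he))

theorem closure_U (A : Set (ℝ × ℝ)) (e : ℝ) (S : Set (ℝ × ℝ)) :
    closure (U A e S) ⊆ {p | infDist p A ≤ e * dl S p} :=
  closure_minimal (fun p hp => le_of_lt (show infDist p A < e * dl S p from hp))
    (isClosed_le (continuous_infDist_pt A) (continuous_const.mul (dl_cont S)))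

theorem mem_U {A S : Set (ℝ × ℝ)} {e : ℝ} (he : 0 < e) (hS : IsClosed S) {p : ℝ × ℝ}
    (hA : p ∈ A) (hp : p ∉ S) : p ∈ U A e S := by
  show infDist p A < e * dl S p
  rw [infDist_zero_of_mem hA]
  exact mul_pos he (dl_pos hS hp)

theorem notMem_of_mem_U {A S : Set (ℝ × ℝ)} {e : ℝ} {p : ℝ × ℝ} (hp : p ∈ U A e S) : p ∉ S :=
  fun h => by
    have h1 : infDist p A < e * dl S p := hp
    rw [dl_zero h, mul_zero] at h1
    exact absurd h1 (not_lt.2 infDist_nonneg)

theorem segment_U {A S : Set (ℝ × ℝ)} {e : ℝ} (h0 : 0 ≤ e) (h1 : e ≤ 1) (hA : IsClosed A)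
    (hne : A.Nonempty) {p : ℝ × ℝ} (hp : p ∈ U A e S) :
    ∃ q ∈ A, segment ℝ p q ⊆ U A e S := by
  obtain ⟨q, hq, hd⟩ := hA.exists_infDist_eq_dist hne p
  refine ⟨q, hq, fun y hy => ?_⟩
  have k1 : dist p y + dist y q = dist p q := dist_add_dist_of_mem_segment hy
  have k2 : infDist y A ≤ dist y q := infDist_le_dist_of_mem hq
  have k3 := dl_lip S p y
  have k4 : infDist p A < e * dl S p := hp
  have k5 := dist_nonneg (x := p) (y := y)
  show infDist y A < e * dl S y
  nlinarith

theorem two_sided {A B : Set (ℝ × ℝ)} (hA : IsClosed A) (hB : IsClosed B) (nA : A.Nonempty)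
    (nB : B.Nonempty) {S T : Set (ℝ × ℝ)} (hS : B ⊆ S) (hT : A ⊆ T) {e e' : ℝ} (h0 : 0 ≤ e)
    (h1 : e < 1) (h0' : 0 ≤ e') (h1' : e' < 1) {p : ℝ × ℝ} (hp : infDist p A ≤ e * dl S p)
    (hp' : infDist p B ≤ e' * dl T p) : p ∈ A ∩ B := by
  have k1 := hp.trans (mul_le_mul_of_nonneg_left (dl_le_infDist hS nB p) h0)
  have k2 := hp'.trans (mul_le_mul_of_nonneg_left (dl_le_infDist hT nA p) h0')
  have k3 : 0 ≤ infDist p A := infDist_nonneg
  have k4 : 0 ≤ infDist p B := infDist_nonneg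
  have k5 : infDist p A = 0 := by nlinarith
  have k6 : infDist p B = 0 := by rw [k5, mul_zero] at k2; linarith
  exact ⟨(hA.mem_iff_infDist_zero nA).2 k5, (hB.mem_iff_infDist_zero nB).2 k6⟩

theorem closed_aux (n : ℕ) (K : ℕ → Set (ℝ × ℝ)) (hcl : ∀ i < n, IsClosed (K i))
    (P Q : ℕ → Prop) (c : ℕ → Bool) :
    IsClosed {z | (∃ j < n, P j ∧ z ∈ K j) ∨ ∃ C < n, c C = true ∧ Q C ∧ z ∉ interior (K C)} := by
  have e : {z | (∃ j < n, P j ∧ z ∈ K j) ∨ ∃ C < n, c C = true ∧ Q C ∧ z ∉ interior (K C)}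
      = (⋃ j ∈ {j | j < n ∧ P j}, K j) ∪ ⋃ C ∈ {C | C < n ∧ c C = true ∧ Q C}, (interior (K C))ᶜ := by
    ext z
    simp only [mem_ofPred_eq, mem_union, mem_iUnion, mem_compl_iff, exists_prop, and_assoc]
  rw [e]
  refine IsClosed.union ?_ ?_
  · exact ((finite_lt_nat n).subset fun _ h => h.1).isClosed_biUnion fun j hj => hcl j hj.1
  · exact ((finite_lt_nat n).subset fun _ h => h.1).isClosed_biUnion fun j _ =>
      isOpen_interior.isClosed_compl

theorem exists_eps {n : ℕ} {G : GD} (hT : Tab n G) : ∃ ε : ℕ → ℝ, (∀ x, 0 < ε x) ∧ (∀ x, ε x < 1) ∧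
    (∀ x < n, ∀ y < n, G.sub x y → ε x ≤ ε y) ∧ ∀ x < n, ∀ y < n, G.nt x y → ε x < ε y := by
  classical
  have hn : (0 : ℝ) < n + 2 := by positivity
  have hss : ∀ x < n, ∀ y < n, G.sub x y → (Finset.range n).filter (fun z => G.sub z x) ⊆
      (Finset.range n).filter fun z => G.sub z y := fun x hx y hy h z hz => by
    rw [Finset.mem_filter, Finset.mem_range] at hz ⊢
    exact ⟨hz.1, hT.sub_trans z hz.1 x hx y hy hz.2 h⟩
  refine ⟨fun x => (1 + ((Finset.range n).filter fun z => G.sub z x).card) / (n + 2),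
    fun x => by positivity, fun x => ?_, fun x hx y hy h => ?_, fun x hx y hy h => ?_⟩
  · rw [div_lt_one hn]
    have h1 := Finset.card_filter_le (Finset.range n) fun z => G.sub z x
    rw [Finset.card_range] at h1
    have h2 : (((Finset.range n).filter fun z => G.sub z x).card : ℝ) ≤ n := by exact_mod_cast h1
    linarith
  · apply div_le_div_of_nonneg_right _ hn.le
    have h2 : (((Finset.range n).filter fun z => G.sub z x).card : ℝ)
        ≤ ((Finset.range n).filter fun z => G.sub z y).card := by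
      exact_mod_cast Finset.card_le_card (hss x hx y hy h)
    linarith
  · apply div_lt_div_of_pos_right _ hn
    obtain ⟨h1, h2⟩ := hT.nt_sub x hx y hy h
    have h3 : (((Finset.range n).filter fun z => G.sub z x).card : ℝ)
        < ((Finset.range n).filter fun z => G.sub z y).card := by
      have := Finset.card_lt_card ((Finset.ssubset_iff_of_subset (hss x hx y hy h1)).2
        ⟨y, Finset.mem_filter.2 ⟨Finset.mem_range.2 hy, hT.sub_refl y hy⟩,
          fun h => h2 (Finset.mem_filter.1 h).2⟩)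
      exact_mod_cast this
    linarith

end SkelAux

open SkelAux Metric Set in
/-- Task rc1.  Sketch.  Put `dl F z := if F.Nonempty then min 1 (infDist z F) else 1`
(1-Lipschitz, antitone in `F`, zero on `F`, positive off a closed `F`, at most `infDist z F'` for
nonempty `F' ⊆ F`).  `F i` is the set removed in `hden`; `Gs i` is the same set with `dc`, `nt` in
place of `io`, `sub` (so `Gs i ⊆ F i`, `K i ∩ Gs i = ∅`, both closed).
`ε x := (1 + card {z < n | sub z x}) / (n + 2)` lies in `(0, 1)`, is monotone along `sub`, strictly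
along `nt`.  For `sub z x` let `O z x` be `{p | infDist p (K z) < ε x * dl (Gs z) p}` if `nt z x`,
else `interior (K z)` if `cvx z`, else `{p | infDist p (K z) < ε x * dl (F z) p}`; always
`O z x ⊆ {p | infDist p (K z) < ε x * dl (Gs z) p}`.  Take `R x := closure (⋃ z < n, sub z x, O z x)`.
Then `K z ⊆ R z`; `R x = K x` for convex `x`; closure of an open set is regular closed; disjoint
open sets have closures with disjoint interiors; for `con`: a point of `O z x` is joined to a nearest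
point of `K z` (`IsClosed.exists_infDist_eq_dist`) by a segment inside `O z x ∪ K z`, so
`(⋃ O z x) ∪ ⋃ K z` is preconnected and lies between the open set and its closure. -/
theorem skeleton (X : Ctx) (G : GD) (hT : Tab X.n G) (K : ℕ → Set (ℝ × ℝ))
    (hcl : ∀ i < X.n, IsClosed (K i)) (hne : ∀ i < X.n, (K i).Nonempty)
    (hdc : ∀ i < X.n, ∀ j < X.n, G.dc i j → K i ∩ K j = ∅)
    (hnt : ∀ i < X.n, ∀ C < X.n, X.cvx C = true → G.nt i C → K i ⊆ interior (K C))
    (hden : ∀ i < X.n, X.cvx i = false → K i ⊆ closure (K i \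
      {z | (∃ j < X.n, G.io i j ∧ z ∈ K j) ∨
        ∃ C < X.n, X.cvx C = true ∧ G.sub i C ∧ z ∉ interior (K C)}))
    (hsub : ∀ i < X.n, ∀ C < X.n, X.cvx i = true → X.cvx C = true → G.sub i C → K i ⊆ K C)
    (hio : ∀ i < X.n, ∀ j < X.n, X.cvx i = true → X.cvx j = true → G.io i j →
      interior (K i) ∩ interior (K j) = ∅)
    (hcon : ∀ i < X.n, X.con i = true → IsPreconnected {z | ∃ j < X.n, G.sub j i ∧ z ∈ K j})
    (hmt : ∀ i < X.n, ∀ j < X.n, G.mt i j → (K i ∩ K j).Nonempty)
    (hcvx : ∀ i < X.n, X.cvx i = true → Convex ℝ (K i) ∧ (interior (K i)).Nonempty) :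
    ∃ R, Model X G R := by
  classical
  obtain ⟨ε, e0, e1, emono, estrict⟩ := exists_eps hT
  obtain ⟨F, hF⟩ : ∃ F : ℕ → Set (ℝ × ℝ), F = fun i => {z | (∃ j < X.n, G.io i j ∧ z ∈ K j) ∨
    ∃ C < X.n, X.cvx C = true ∧ G.sub i C ∧ z ∉ interior (K C)} := ⟨_, rfl⟩
  obtain ⟨S, hS⟩ : ∃ S : ℕ → Set (ℝ × ℝ), S = fun i => {z | (∃ j < X.n, G.dc i j ∧ z ∈ K j) ∨
    ∃ C < X.n, X.cvx C = true ∧ G.nt i C ∧ z ∉ interior (K C)} := ⟨_, rfl⟩
  have Fcl : ∀ i, IsClosed (F i) := fun i => hF ▸ closed_aux _ K hcl _ _ _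
  have Scl : ∀ i, IsClosed (S i) := fun i => hS ▸ closed_aux _ K hcl _ _ _
  have SF : ∀ i < X.n, S i ⊆ F i := fun i hi z hz => by
    rw [hS] at hz; rw [hF]
    rcases hz with ⟨j, hj, h1, h2⟩ | ⟨j, hj, h1, h2, h3⟩
    · exact Or.inl ⟨j, hj, hT.dc_io i hi j hj h1, h2⟩
    · exact Or.inr ⟨j, hj, h1, (hT.nt_sub i hi j hj h2).1, h3⟩
  have KS : ∀ i < X.n, ∀ z ∈ K i, z ∉ S i := fun i hi z hz h => by
    rw [hS] at h
    rcases h with ⟨j, hj, h1, h2⟩ | ⟨j, hj, h1, h2, h3⟩
    · have : z ∈ K i ∩ K j := ⟨hz, h2⟩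
      rw [hdc i hi j hj h1] at this
      exact this
    · exact h3 (hnt i hi j hj h1 h2 hz)
  have dcS : ∀ i, ∀ j < X.n, G.dc i j → K j ⊆ S i := fun i j hj h z hz => by
    rw [hS]; exact Or.inl ⟨j, hj, h, hz⟩
  have ioF : ∀ i, ∀ j < X.n, G.io i j → K j ⊆ F i := fun i j hj h z hz => by
    rw [hF]; exact Or.inl ⟨j, hj, h, hz⟩
  obtain ⟨O, hO⟩ : ∃ O : ℕ → ℕ → Set (ℝ × ℝ), O = fun z x => if G.nt z x then U (K z) (ε x) (S z)
    else if X.cvx z = true then interior (K z) else U (K z) (ε x) (F z) := ⟨_, rfl⟩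
  have O1 : ∀ z x, G.nt z x → O z x = U (K z) (ε x) (S z) := fun z x h => by
    simp only [hO, if_pos h]
  have O2 : ∀ z x, ¬ G.nt z x → X.cvx z = true → O z x = interior (K z) := fun z x h h' => by
    simp only [hO, if_neg h, if_pos h']
  have O3 : ∀ z x, ¬ G.nt z x → ¬ X.cvx z = true → O z x = U (K z) (ε x) (F z) :=
    fun z x h h' => by simp only [hO, if_neg h, if_neg h']
  have Oop : ∀ z x, IsOpen (O z x) := fun z x => by
    simp only [hO]; split_ifs
    · exact U_open _ _ _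
    · exact isOpen_interior
    · exact U_open _ _ _
  have OU : ∀ z < X.n, ∀ x, O z x ⊆ U (K z) (ε x) (S z) := fun z hz x => by
    simp only [hO]; split_ifs
    · exact subset_rfl
    · exact fun p hp => mem_U (e0 x) (Scl z) (interior_subset hp) (KS z hz p (interior_subset hp))
    · exact U_mono (e0 x).le le_rfl (SF z hz)
  have KO : ∀ z < X.n, ∀ x, K z ⊆ closure (O z x) := fun z hz x => by
    simp only [hO]; split_ifs with h1 h2
    · exact fun p hp => subset_closure (mem_U (e0 x) (Scl z) hp (KS z hz p hp))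
    · rw [(hcvx z hz h2).1.closure_interior_eq_closure_of_nonempty_interior (hcvx z hz h2).2]
      exact subset_closure
    · refine (hden z hz (by simpa using h2)).trans (closure_mono fun p hp => ?_)
      exact mem_U (e0 x) (Fcl z) hp.1 (by rw [hF]; exact hp.2)
  obtain ⟨W, hW⟩ : ∃ W : ℕ → Set (ℝ × ℝ), W = fun x => ⋃ z ∈ {z | z < X.n ∧ G.sub z x}, O z x :=
    ⟨_, rfl⟩
  have Wop : ∀ x, IsOpen (W x) := fun x => hW ▸ isOpen_biUnion fun z _ => Oop z x
  have OW : ∀ z < X.n, ∀ x, G.sub z x → O z x ⊆ W x := fun z hz x h => by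
    rw [hW]; exact subset_biUnion_of_mem (u := fun z => O z x) (show z ∈ {z | _ ∧ _} from ⟨hz, h⟩)
  have Wmem : ∀ x p, p ∈ W x → ∃ z < X.n, G.sub z x ∧ p ∈ O z x := fun x p hp => by
    rw [hW] at hp
    obtain ⟨z, hz, h⟩ := mem_iUnion₂.1 hp
    exact ⟨z, hz.1, hz.2, h⟩
  have Rmem : ∀ x p, p ∈ closure (W x) →
      ∃ z < X.n, G.sub z x ∧ infDist p (K z) ≤ ε x * dl (S z) p := fun x p hp => by
    simp only [hW] at hp
    rw [((finite_lt_nat X.n).subset fun _ h => h.1).closure_biUnion] at hp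
    obtain ⟨z, hz, h⟩ := mem_iUnion₂.1 hp
    exact ⟨z, hz.1, hz.2, closure_U _ _ _ (closure_mono (OU z hz.1 x) h)⟩
  have KR : ∀ z < X.n, ∀ x, G.sub z x → K z ⊆ closure (W x) := fun z hz x h =>
    (KO z hz x).trans (closure_mono (OW z hz x h))
  have KR' : ∀ x < X.n, K x ⊆ closure (W x) := fun x hx => KR x hx x (hT.sub_refl x hx)
  have Wint : ∀ x, W x ⊆ interior (closure (W x)) := fun x =>
    interior_maximal subset_closure (Wop x)
  have dcK : ∀ z < X.n, ∀ w < X.n, G.dc z w → ∀ x y p, infDist p (K z) ≤ ε x * dl (S z) p →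
      infDist p (K w) ≤ ε y * dl (S w) p → False := fun z hz w hw h x y p h1 h2 => by
    have := two_sided (hcl z hz) (hcl w hw) (hne z hz) (hne w hw) (dcS z w hw h)
      (dcS w z hz (hT.dc_symm z hz w hw h)) (e0 x).le (e1 x) (e0 y).le (e1 y) h1 h2
    rw [hdc z hz w hw h] at this
    exact this
  refine ⟨fun x => closure (W x), fun x hx => ⟨(hne x hx).mono (KR' x hx), ?_⟩,
    fun x hx y hy h => ?_, fun x hx y hy h p hp => ?_, fun x hx y hy h => ?_,
    fun x hx y hy h => ?_, fun x hx y hy h => ?_, fun x hx h => ?_, fun x hx h => ?_⟩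
  · exact subset_antisymm (closure_mono (Wint x))
      (closure_minimal interior_subset isClosed_closure)
  · refine closure_mono fun p hp => ?_
    obtain ⟨z, hz, h1, h2⟩ := Wmem x p hp
    refine OW z hz y (hT.sub_trans z hz x hx y hy h1 h) ?_
    have he := emono x hx y hy h
    by_cases k1 : G.nt z y
    · rw [O1 z y k1]
      exact U_mono (e0 x).le he subset_rfl (OU z hz x h2)
    · have k2 : ¬ G.nt z x := fun k => k1 (hT.nt_sub_nt z hz x hx y hy k h)
      by_cases k3 : X.cvx z = true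
      · rw [O2 z y k1 k3]; rwa [O2 z x k2 k3] at h2
      · rw [O3 z y k1 k3]; rw [O3 z x k2 k3] at h2
        exact U_mono (e0 x).le he subset_rfl h2
  · obtain ⟨z, hz, h1, h2⟩ := Rmem x p hp
    have k1 := hT.sub_nt z hz x hx y hy h1 h
    refine Wint y (OW z hz y (hT.nt_sub z hz y hy k1).1 ?_)
    rw [O1 z y k1]
    have k2 : 0 < dl (S z) p := by
      rcases (dl_nonneg (S z) p).lt_or_eq with k | k
      · exact k
      · rw [← k, mul_zero] at h2
        exact dl_pos (Scl z) (KS z hz p (((hcl z hz).mem_iff_infDist_zero (hne z hz)).2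
          (le_antisymm h2 infDist_nonneg)))
    exact lt_of_le_of_lt h2 (mul_lt_mul_of_pos_right (estrict x hx y hy h) k2)
  · refine eq_empty_of_forall_notMem fun p hp => ?_
    obtain ⟨z, hz, h1, h2⟩ := Rmem x p hp.1
    obtain ⟨w, hw, h3, h4⟩ := Rmem y p hp.2
    exact dcK w hw z hz (hT.sub_dc w hw y hy z hz h3
      (hT.dc_symm z hz y hy (hT.sub_dc z hz x hx y hy h1 h))) y x p h4 h2
  · have hd : Disjoint (W x) (W y) := by
      refine disjoint_left.2 fun p hp hp' => ?_
      obtain ⟨z, hz, h1, h2⟩ := Wmem x p hp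
      obtain ⟨w, hw, h3, h4⟩ := Wmem y p hp'
      have u2 : infDist p (K z) ≤ ε x * dl (S z) p := le_of_lt (OU z hz x h2)
      have u4 : infDist p (K w) ≤ ε y * dl (S w) p := le_of_lt (OU w hw y h4)
      have h' := hT.io_symm x hx y hy h
      have iwz : G.io w z := hT.sub_io w hw y hy z hz h3
        (hT.io_symm z hz y hy (hT.sub_io z hz x hx y hy h1 h))
      have izw := hT.io_symm w hw z hz iwz
      by_cases k1 : G.nt z x
      · exact dcK w hw z hz (hT.sub_dc w hw y hy z hz h3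
          (hT.dc_symm z hz y hy (hT.nt_io z hz x hx y hy k1 h))) y x p u4 u2
      by_cases k2 : G.nt w y
      · exact dcK z hz w hw (hT.sub_dc z hz x hx w hw h1
          (hT.dc_symm w hw x hx (hT.nt_io w hw y hy x hx k2 h'))) x y p u2 u4
      by_cases k3 : X.cvx z = true <;> by_cases k4 : X.cvx w = true
      · rw [O2 z x k1 k3] at h2; rw [O2 w y k2 k4] at h4
        have : p ∈ interior (K z) ∩ interior (K w) := ⟨h2, h4⟩
        rw [hio z hz w hw k3 k4 izw] at this
        exact this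
      · rw [O2 z x k1 k3] at h2; rw [O3 w y k2 k4] at h4
        exact notMem_of_mem_U h4 (ioF w z hz iwz (interior_subset h2))
      · rw [O3 z x k1 k3] at h2; rw [O2 w y k2 k4] at h4
        exact notMem_of_mem_U h2 (ioF z w hw izw (interior_subset h4))
      · rw [O3 z x k1 k3] at h2; rw [O3 w y k2 k4] at h4
        have := two_sided (hcl z hz) (hcl w hw) (hne z hz) (hne w hw) (ioF z w hw izw)
          (ioF w z hz iwz) (e0 x).le (e1 x) (e0 y).le (e1 y) (le_of_lt h2) (le_of_lt h4)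
        exact notMem_of_mem_U h2 (ioF z w hw izw this.2)
    have d1 : Disjoint (closure (W x)) (W y) := hd.closure_left (Wop y)
    have d2 : Disjoint (interior (closure (W x))) (closure (W y)) :=
      (d1.mono_left interior_subset).closure_right isOpen_interior
    exact disjoint_iff_inter_eq_empty.1 (d2.mono_right interior_subset)
  · exact (hmt x hx y hy h).mono (inter_subset_inter (KR' x hx) (KR' y hy))
  · have : closure (W x) = K x := by
      refine subset_antisymm (closure_minimal (fun p hp => ?_) (hcl x hx)) (KR' x hx)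
      obtain ⟨z, hz, h1, h2⟩ := Wmem x p hp
      by_cases k1 : G.nt z x
      · rw [O1 z x k1] at h2
        by_contra k
        refine notMem_of_mem_U h2 ?_
        rw [hS]
        exact Or.inr ⟨x, hx, h, k1, fun k' => k (interior_subset k')⟩
      by_cases k3 : X.cvx z = true
      · rw [O2 z x k1 k3] at h2
        exact hsub z hz x hx k3 h h1 (interior_subset h2)
      · rw [O3 z x k1 k3] at h2
        by_contra k
        refine notMem_of_mem_U h2 ?_
        rw [hF]
        exact Or.inr ⟨x, hx, h, h1, fun k' => k (interior_subset k')⟩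
    show Convex ℝ (closure (W x))
    rw [this]
    exact (hcvx x hx h).1
  · refine ⟨(hne x hx).mono (KR' x hx), ?_⟩
    obtain ⟨A, hA⟩ : ∃ A, A = {z | ∃ j < X.n, G.sub j x ∧ z ∈ K j} := ⟨_, rfl⟩
    have hAc : IsPreconnected A := hA ▸ hcon x hx h
    have KA : ∀ j < X.n, G.sub j x → K j ⊆ A := fun j hj h1 p hp => by
      rw [hA]; exact ⟨j, hj, h1, hp⟩
    obtain ⟨p₀, hp₀⟩ := hne x hx
    have hp₀A := KA x hx (hT.sub_refl x hx) hp₀
    have hc : IsPreconnected (W x ∪ A) := by
      refine isPreconnected_of_forall p₀ fun p hp => ?_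
      by_cases hpA : p ∈ A
      · exact ⟨A, subset_union_right, hp₀A, hpA, hAc⟩
      obtain ⟨z, hz, h1, h2⟩ := Wmem x p (hp.resolve_right hpA)
      have : ∃ q ∈ K z, segment ℝ p q ⊆ O z x := by
        by_cases k1 : G.nt z x
        · rw [O1 z x k1] at h2 ⊢
          exact segment_U (e0 x).le (e1 x).le (hcl z hz) (hne z hz) h2
        by_cases k3 : X.cvx z = true
        · rw [O2 z x k1 k3] at h2
          exact absurd (KA z hz h1 (interior_subset h2)) hpA
        · rw [O3 z x k1 k3] at h2 ⊢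
          exact segment_U (e0 x).le (e1 x).le (hcl z hz) (hne z hz) h2
      obtain ⟨q, hq, hs⟩ := this
      refine ⟨segment ℝ p q ∪ A, union_subset_union_left _ (hs.trans (OW z hz x h1)),
        Or.inr hp₀A, Or.inl (left_mem_segment _ _ _), ?_⟩
      exact IsPreconnected.union q (right_mem_segment _ _ _) (KA z hz h1 hq)
        (convex_segment p q).isPreconnected hAc
    refine hc.subset_closure (union_subset subset_closure fun p hp => ?_)
      (closure_mono subset_union_left)
    rw [hA] at hp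
    obtain ⟨j, hj, h1, h2⟩ := hp
    exact KR j hj x h1 h2

end Pool.Agent.Lib.MP_02e8f2_lc
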