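import Pool.Agent.Lib.MP_02e8f2_lc.Cell

/-!
The boundary functions for a small parameter.
-/

set_option autoImplicit false

namespace Pool.Agent.Lib.MP_02e8f2_lc

open Set Filter Topology

theorem ev_lt {α : Type} {l : Filter α} {n : ℕ} {p : ℕ → α → Prop}
    (h : ∀ i < n, ∀ᶠ x in l, p i x) : ∀ᶠ x in l, ∀ i < n, p i x :=
  (eventually_all_finite (finite_Iio n)).2 h

theorem ev_mem {α β : Type} {l : Filter α} {L : List β} {p : β → α → Prop}
    (h : ∀ i ∈ L, ∀ᶠ x in l, p i x) : ∀ᶠ x in l, ∀ i ∈ L, p i x :=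
  (eventually_all_finite L.finite_toSet).2 h

theorem ev_imp {α : Type} {l : Filter α} {P : Prop} {q : α → Prop} (h : P → ∀ᶠ x in l, q x) :
    ∀ᶠ x in l, P → q x := eventually_imp_distrib_left.2 h

theorem ev_bool {α : Type} {l : Filter α} {p : Bool → α → Prop} (h : ∀ b, ∀ᶠ x in l, p b x) :
    ∀ᶠ x in l, ∀ b, p b x := eventually_all.2 h

variable (X : Ctx) (G : GD) (J : ℕ → Str × Bool)

/-- The second-order data along the enumeration `J` of the samples. -/
def UU (C : ℕ) (up : Bool) (k : ℕ) (d : Bool) (m : ℕ) : ℝ := G.u C up k d (J m).1 (J m).2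

/-- The germ of the boundary function `(C, up)` at line `k` in direction `d`. -/
noncomputable def th (θ : ℝ) (C : ℕ) (up : Bool) (k : ℕ) (d : Bool) : ℝ → ℝ :=
  thin θ (G.φ C up k) (G.s C up k d) (UU G J C up k d)

/-- The boundary function `(C, up)` on cell `c + 1`. -/
noncomputable def FF (θ : ℝ) (C : ℕ) (up : Bool) (c : ℕ) : ℝ → ℝ :=
  glue (G.a c) (G.a (c + 1)) θ (th G J θ C up c true) (th G J θ C up (c + 1) false)

/-- What a small parameter gives. -/
structure Small (θ ρ B : ℝ) : Prop where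
  pos : 0 < θ
  Bpos : 0 ≤ B
  wid : ∀ c < X.K, c + 1 < X.K → 2 * θ < G.a (c + 1) - G.a c
  zone : θ * (B + 1) < ρ
  neg : ∀ C up k d t, t ≤ 0 → th G J θ C up k d t = G.φ C up k + G.s C up k d * t
  near : ∀ C < X.n, ∀ up, ∀ k < X.K, ∀ d t, 0 ≤ t → |th G J θ C up k d t - G.φ C up k| ≤ B * t
  aff : ∀ C < X.n, ∀ up, ∀ k < X.K, ∀ d (n : ℕ), ∃ κ β : ℝ, ∀ t, θ / 2 ^ (n + 1) ≤ t →
    t ≤ θ / 2 ^ n → th G J θ C up k d t = κ * t + β
  le : ∀ C < X.n, ∀ up, ∀ D < X.n, ∀ up', ∀ k < X.K, ∀ d, LE' X G C up D up' k d →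
    ∀ t, 0 ≤ t → t ≤ θ → th G J θ C up k d t ≤ th G J θ D up' k d t
  lt0 : ∀ C < X.n, ∀ up, ∀ D < X.n, ∀ up', ∀ k < X.K, ∀ d, G.φ C up k < G.φ D up' k →
    ∀ t, 0 ≤ t → t ≤ θ → th G J θ C up k d t < th G J θ D up' k d t
  lt : ∀ C < X.n, ∀ up, ∀ D < X.n, ∀ up', ∀ k < X.K, ∀ d, LE' X G C up D up' k d →
    (∃ e ∈ X.SS, ∃ τ, LT' G C up D up' k d e τ) →
      ∀ t, 0 < t → t ≤ θ → th G J θ C up k d t < th G J θ D up' k d t
  lts : ∀ C < X.n, ∀ up, ∀ D < X.n, ∀ up', ∀ k < X.K, ∀ d, ∀ e ∈ X.SS, ∀ τ,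
    LT' G C up D up' k d e τ → ∀ n, J n = (e, τ) →
      th G J θ C up k d (θ / 2 ^ n) < th G J θ D up' k d (θ / 2 ^ n)
  conc : ∀ C < X.n, X.cvx C = true → ∀ c < X.K, G.sp C (c + 1) → ∀ up,
    ConcaveOn ℝ univ (fun x => sg up * FF G J θ C up c x) ∧ Continuous (FF G J θ C up c) ∧
    ∀ x, sg up * FF G J θ C up c x ≤ sg up * (G.φ C up c + G.s C up c true * (x - G.a c)) ∧
      sg up * FF G J θ C up c x ≤
        sg up * (G.φ C up (c + 1) + G.s C up (c + 1) false * (G.a (c + 1) - x))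

variable {X G J}

theorem exists_bound (hJ : ∀ m, (J m).1 ∈ X.SS) : ∃ Γ : ℝ, ∀ C < X.n, ∀ up, ∀ k < X.K, ∀ d,
    |G.s C up k d| ≤ Γ ∧ ∀ m, |UU G J C up k d m| ≤ Γ := by
  have : ∀ᶠ Γ : ℝ in atTop, ∀ C < X.n, ∀ up, ∀ k < X.K, ∀ d,
      |G.s C up k d| ≤ Γ ∧ ∀ e ∈ X.SS, ∀ τ, |G.u C up k d e τ| ≤ Γ :=
    ev_lt fun C _ => ev_bool fun up => ev_lt fun k _ => ev_bool fun d =>
      (eventually_ge_atTop _).and (ev_mem fun e _ => ev_bool fun τ => eventually_ge_atTop _)
  obtain ⟨Γ, h⟩ := this.exists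
  exact ⟨Γ, fun C hC up k hk d => ⟨(h C hC up k hk d).1, fun m => (h C hC up k hk d).2 _ (hJ m) _⟩⟩

theorem exists_small (hG : Geo X G) (hJ : ∀ m, (J m).1 ∈ X.SS)
    (hJ' : ∀ e ∈ X.SS, ∀ τ N, ∃ m ≥ N, J m = (e, τ)) {ρ : ℝ} (hρ : 0 < ρ) :
    ∃ θ B, Small X G J θ ρ B := by
  obtain ⟨Γ₀, hΓ₀⟩ := exists_bound (G := G) hJ
  set Γ := max Γ₀ 0
  have hΓ : ∀ C < X.n, ∀ up, ∀ k < X.K, ∀ d,
      |G.s C up k d| ≤ Γ ∧ ∀ m, |UU G J C up k d m| ≤ Γ := fun C hC up k hk d =>
    ⟨(hΓ₀ C hC up k hk d).1.trans (le_max_left _ _),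
      fun m => ((hΓ₀ C hC up k hk d).2 m).trans (le_max_left _ _)⟩
  have h0 : 0 ≤ Γ := le_max_right _ _
  have hd : ∀ C < X.n, ∀ up, ∀ D < X.n, ∀ up', ∀ k < X.K, ∀ d m,
      |UU G J D up' k d m - UU G J C up k d m| ≤ Γ + Γ := fun C hC up D hD up' k hk d m =>
    (abs_sub _ _).trans (add_le_add ((hΓ D hD up' k hk d).2 m) ((hΓ C hC up k hk d).2 m))
  have hs : ∀ θ : ℝ, 0 < θ ∧ θ ≤ 1 / 2 → ∀ C < X.n, ∀ up, ∀ D < X.n, ∀ up', ∀ k < X.K, ∀ d t,
      th G J θ D up' k d t - th G J θ C up k d t = thin θ (G.φ D up' k - G.φ C up k)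
        (G.s D up' k d - G.s C up k d) (fun m => UU G J D up' k d m - UU G J C up k d m) t :=
    fun θ h C hC up D hD up' k hk d t =>
      thin_sub h.1 h.2 (hΓ C hC up k hk d).2 (hΓ D hD up' k hk d).2 t
  have e1 : ∀ᶠ θ in Sm, ∀ c < X.K, c + 1 < X.K → 2 * θ < G.a (c + 1) - G.a c :=
    ev_lt fun c hc => ev_imp fun hc' =>
      (sm_lt (sub_pos.2 (hG.a_lt c hc hc')) 2).mono fun θ h => by linarith
  have e2 : ∀ᶠ θ in Sm, ∀ C < X.n, ∀ up, ∀ D < X.n, ∀ up', ∀ k < X.K, ∀ d,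
      LE' X G C up D up' k d →
      ∀ t, 0 ≤ t → t ≤ θ → th G J θ C up k d t ≤ th G J θ D up' k d t := by
    refine ev_lt fun C hC => ev_bool fun up => ev_lt fun D hD => ev_bool fun up' =>
      ev_lt fun k hk => ev_bool fun d => ev_imp fun h => ?_
    have := thin_nonneg (φ := G.φ D up' k - G.φ C up k) (s := G.s D up' k d - G.s C up k d)
      (hd C hC up D hD up' k hk d) (by
        simp only [sub_pos, sub_eq_zero, sub_nonneg]
        exact h.imp id (And.imp Eq.symm (Or.imp id (And.imp Eq.symm fun h m => h _ (hJ m) _))))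
    filter_upwards [sm_basic, this] with θ h1 h2 t ht ht'
    have := h2 t ht ht'
    rw [← hs θ h1 C hC up D hD up' k hk d] at this
    linarith
  have e3 : ∀ᶠ θ in Sm, ∀ C < X.n, ∀ up, ∀ D < X.n, ∀ up', ∀ k < X.K, ∀ d,
      G.φ C up k < G.φ D up' k →
      ∀ t, 0 ≤ t → t ≤ θ → th G J θ C up k d t < th G J θ D up' k d t := by
    refine ev_lt fun C hC => ev_bool fun up => ev_lt fun D hD => ev_bool fun up' =>
      ev_lt fun k hk => ev_bool fun d => ev_imp fun h => ?_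
    have := thin_pos1 (φ := G.φ D up' k - G.φ C up k) (s := G.s D up' k d - G.s C up k d)
      (hd C hC up D hD up' k hk d) (Or.inl (sub_pos.2 h))
    filter_upwards [sm_basic, this] with θ h1 h2 t ht ht'
    rcases ht.eq_or_lt with rfl | ht
    · simpa [th, thin, bump_zero h1.1 le_rfl] using h
    have := h2 t ht ht'
    rw [← hs θ h1 C hC up D hD up' k hk d] at this
    linarith
  have e4 : ∀ᶠ θ in Sm, ∀ C < X.n, ∀ up, ∀ D < X.n, ∀ up', ∀ k < X.K, ∀ d,
      LE' X G C up D up' k d → (∃ e ∈ X.SS, ∃ τ, LT' G C up D up' k d e τ) →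
      ∀ t, 0 < t → t ≤ θ → th G J θ C up k d t < th G J θ D up' k d t := by
    refine ev_lt fun C hC => ev_bool fun up => ev_lt fun D hD => ev_bool fun up' =>
      ev_lt fun k hk => ev_bool fun d => ev_imp fun h => ev_imp fun ⟨e, he, τ, h'⟩ => ?_
    have := thin_pos2 (φ := G.φ D up' k - G.φ C up k) (s := G.s D up' k d - G.s C up k d)
      (hd C hC up D hD up' k hk d) (by
        simp only [sub_pos, sub_eq_zero, sub_nonneg]
        rcases h with h | ⟨h1, h | ⟨h2, h⟩⟩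
        · exact Or.inl h
        · exact Or.inr ⟨h1.symm, Or.inl h⟩
        · refine Or.inr ⟨h1.symm, Or.inr ⟨h2.symm, fun m => h _ (hJ m) _, fun N => ?_⟩⟩
          obtain ⟨m, hm, hm'⟩ := hJ' e he τ N
          refine ⟨m, hm, ?_⟩
          rcases h' with h' | ⟨-, h' | ⟨-, h'⟩⟩
          · exact absurd h1 h'.ne
          · exact absurd h2 h'.ne
          · simpa [UU, hm'] using h')
    filter_upwards [sm_basic, this] with θ h1 h2 t ht ht'
    have := h2 t ht ht'
    rw [← hs θ h1 C hC up D hD up' k hk d] at this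
    linarith
  have e5 : ∀ᶠ θ in Sm, ∀ C < X.n, ∀ up, ∀ D < X.n, ∀ up', ∀ k < X.K, ∀ d, ∀ e ∈ X.SS, ∀ τ,
      LT' G C up D up' k d e τ → ∀ n, J n = (e, τ) →
      th G J θ C up k d (θ / 2 ^ n) < th G J θ D up' k d (θ / 2 ^ n) := by
    refine ev_lt fun C hC => ev_bool fun up => ev_lt fun D hD => ev_bool fun up' =>
      ev_lt fun k hk => ev_bool fun d => ev_mem fun e _ => ev_bool fun τ => ev_imp fun h => ?_
    have := thin_pos3 (φ := G.φ D up' k - G.φ C up k) (s := G.s D up' k d - G.s C up k d)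
      (γ := G.u D up' k d e τ - G.u C up k d e τ) (hd C hC up D hD up' k hk d) (by
        simp only [sub_pos, sub_eq_zero]
        exact h.imp id (And.imp Eq.symm (Or.imp id (And.imp Eq.symm id))))
    filter_upwards [sm_basic, this] with θ h1 h2 n hn
    have := h2 n (by simp [UU, hn])
    rw [← hs θ h1 C hC up D hD up' k hk d] at this
    linarith
  have e6 : ∀ᶠ θ in Sm, ∀ C < X.n, X.cvx C = true → ∀ c < X.K, G.sp C (c + 1) → ∀ up,
      ConcaveOn ℝ univ (fun x => sg up * FF G J θ C up c x) ∧ Continuous (FF G J θ C up c) ∧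
      ∀ x, sg up * FF G J θ C up c x ≤ sg up * (G.φ C up c + G.s C up c true * (x - G.a c)) ∧
        sg up * FF G J θ C up c x ≤
          sg up * (G.φ C up (c + 1) + G.s C up (c + 1) false * (G.a (c + 1) - x)) := by
    refine ev_lt fun C hC => ev_imp fun hc => ev_lt fun c hK => ev_imp fun hsp =>
      ev_bool fun up => ?_
    have hK' : c + 1 < X.K := lt_of_le_of_ne hK fun h => (hG.sp_real C hC hc).2 (h ▸ hsp)
    have hw := sub_pos.2 (hG.a_lt c hK hK')
    have b0 : ∀ m, |sg up * UU G J C up c true m| ≤ Γ := fun m => by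
      rw [abs_mul, abs_sg, one_mul]; exact (hΓ C hC up c hK true).2 m
    have b1 : ∀ m, |sg up * UU G J C up (c + 1) false m| ≤ Γ := fun m => by
      rw [abs_mul, abs_sg, one_mul]; exact (hΓ C hC up _ hK' false).2 m
    have hc' := hG.conc C hC hc c hK hsp up
    have p0 : ∀ m, sg up * UU G J C up c true m ≤ 0 ∧ sg up * UU G J C up (c + 1) false m ≤ 0 := by
      intro m
      rcases hc' with h | h
      · exact h.2.2 _ (hJ m) _
      · simp [UU, h.2.2 _ (hJ m)]
    have j0 := junction (φ₀ := sg up * G.φ C up c) (s₀ := sg up * G.s C up c true)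
      (φ₁ := sg up * G.φ C up (c + 1)) (s₁ := sg up * G.s C up (c + 1) false) hw b0 b1 (by
        rcases hc' with h | h
        · left; linarith [h.1]
        · right
          refine ⟨by rw [← mul_sub, h.1, mul_assoc], by rw [← mul_sub, h.2.1, mul_assoc],
            fun m => ?_, fun m => ?_⟩ <;> simp [UU, h.2.2 _ (hJ m)])
    have j1 := junction (φ₁ := sg up * G.φ C up c) (s₁ := sg up * G.s C up c true)
      (φ₀ := sg up * G.φ C up (c + 1)) (s₀ := sg up * G.s C up (c + 1) false) hw b1 b0 (by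
        rcases hc' with h | h
        · left; linarith [h.2.1]
        · right
          refine ⟨by rw [← mul_sub, h.2.1, mul_assoc], by rw [← mul_sub, h.1, mul_assoc],
            fun m => ?_, fun m => ?_⟩ <;> simp [UU, h.2.2 _ (hJ m)])
    filter_upwards [sm_basic, e1, j0, j1] with θ h1 h2 h3 h4
    have key := glue_concave (h2 c hK hK') (thin_concave _ _ h1.1 h1.2 b0 fun m => (p0 m).1)
      (thin_concave _ _ h1.1 h1.2 b1 fun m => (p0 m).2) (thin_cont _ _ h1.1 h1.2 b0)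
      (thin_cont _ _ h1.1 h1.2 b1) h3 h4
    have e : ∀ x, sg up * FF G J θ C up c x = glue (G.a c) (G.a (c + 1)) θ
        (thin θ (sg up * G.φ C up c) (sg up * G.s C up c true) fun m =>
          sg up * UU G J C up c true m)
        (thin θ (sg up * G.φ C up (c + 1)) (sg up * G.s C up (c + 1) false) fun m =>
          sg up * UU G J C up (c + 1) false m) x := fun x => by
      rw [FF, glue_mul]; simp only [th, thin_mul]
    refine ⟨by rw [funext e]; exact key.1, ?_, fun x => ?_⟩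
    · have : FF G J θ C up c = fun x => sg up * (sg up * FF G J θ C up c x) := by
        funext x; rw [← mul_assoc, sg_mul_self, one_mul]
      rw [this]; simp only [e]
      exact continuous_const.mul key.2.1
    · have n0 := bump_nonneg (u := fun m => -1 * (sg up * UU G J C up c true m)) h1.1
        (fun m => by linarith [(p0 m).1]) (x - G.a c)
      have n1 := bump_nonneg (u := fun m => -1 * (sg up * UU G J C up (c + 1) false m)) h1.1
        (fun m => by linarith [(p0 m).2]) (G.a (c + 1) - x)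
      rw [bump_mul] at n0 n1
      have k := key.2.2 x
      simp only [thin] at k
      rw [e]
      exact ⟨by linarith [k.1], by linarith [k.2]⟩
  obtain ⟨θ, h1, h2, h3, h4, h5, h6, h7, h8⟩ := (sm_basic.and (e1.and (e2.and (e3.and (e4.and
    (e5.and (e6.and (sm_lt hρ (Γ + Γ + 1))))))))).exists
  refine ⟨θ, Γ + Γ, h1.1, by linarith, h2, h8, fun C up k d t ht => ?_,
    fun C hC up k hk d t ht => ?_, fun C hC up k hk d n => ?_, h3, h4, h5, h6, h7⟩
  · simp [th, thin, bump_zero h1.1 ht]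
  · refine (thin_near h1.1 h1.2 (hΓ C hC up k hk d).2 ht).trans ?_
    have := (hΓ C hC up k hk d).1
    gcongr
  · obtain ⟨κ, β, -, h⟩ := bump_affine h1.1 h1.2 (hΓ C hC up k hk d).2 n
    exact ⟨G.s C up k d + κ, G.φ C up k + β, fun t ht ht' => by
      rw [th, thin, h t ht (Or.inr ht')]; ring⟩

end Pool.Agent.Lib.MP_02e8f2_lc
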