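import Pool.Agent.Lib.MP_02e8f2_lc.Crv

/-!
The parts of the chords far from the lines.
-/

set_option autoImplicit false

namespace Pool.Agent.Lib.MP_02e8f2_lc

open Set Filter Topology

theorem real_vv {A B A' B' x y : ℝ} (hx : 0 ≤ x) (h1 : 2 * x ≤ |B - A|) (h2 : 2 * x ≤ |B' - A'|)
    (e1 : y = A + if A ≤ B then x else -x) (e2 : y = A' + if A' ≤ B' then x else -x)
    (n1 : A ≠ A') (n2 : A ≠ B') (n3 : B ≠ A') (n4 : B ≠ B')
    (nc : (A < A' ↔ B < A') ↔ (A < B' ↔ B < B')) : False := by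
  rcases n1.lt_or_gt with a | a <;> rcases n2.lt_or_gt with b | b <;>
    rcases n3.lt_or_gt with c | c <;> rcases n4.lt_or_gt with d | d <;>
    simp only [a, b, c, d, a.not_gt, b.not_gt, c.not_gt, d.not_gt, iff_self, iff_true,
      iff_false, not_true] at nc <;>
    split_ifs at e1 e2 with k k' <;> rcases abs_cases (B - A) with ⟨l, l'⟩ | ⟨l, l'⟩ <;>
    rcases abs_cases (B' - A') with ⟨m, m'⟩ | ⟨m, m'⟩ <;> linarith

theorem real_vs {A B A' x y w : ℝ} (h1 : 2 * x ≤ |B - A|) (h2 : |w| ≤ x)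
    (e1 : y = A + if A ≤ B then x else -x) (e2 : y = A' + w) (n1 : A ≠ A') (n3 : B ≠ A')
    (nc : A < A' ↔ B < A') : False := by
  have h3 := abs_le.1 h2
  rcases n1.lt_or_gt with a | a <;> rcases n3.lt_or_gt with c | c <;>
    simp only [a, c, a.not_gt, c.not_gt, iff_self, iff_false, false_iff, not_true] at nc <;>
    split_ifs at e1 with k <;> rcases abs_cases (B - A) with ⟨l, l'⟩ | ⟨l, l'⟩ <;> linarith

theorem clk_inj {k k' : ℕ} {d : Bool} (h : clk k d = clk k' d) : k = k' := by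
  cases d <;> simpa [clk] using h

namespace Dat

variable (E : Dat)

/-- The curve at vertex `m` of `e` in direction `d`. -/
noncomputable def vc (e : Str) (m : ℕ) (d : Bool) : Crv :=
  if m = 0 then E.tailC e.1 e false else if m = E.N e then E.tailC e.1 e true else E.passC e m d

/-- The curve `c` belongs to the dart `a` of `e`. -/
structure DC (e : Str) (a : Dart ℕ) (c : Crv) : Prop where
  ok : E.COK e.1 c
  k : c.k = a.k
  q : c.q = a.q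
  d : c.d = a.d
  π : c.π = E.G.abv e a.side
  Y : a.q % 2 = 0 → c.Y 0 = E.Yv a.k a.q a.h

/-- The two curves of a chord. -/
def Pr (Z : ℕ) (u v : Crv) : Prop :=
  ∃ e m, Act E.X E.G e ∧ e.1 = Z ∧ m < E.N e ∧
    ((u = E.vc e m (E.o e m).d ∧ v = E.vc e (m + 1) (!(E.o e (m + 1)).d)) ∨
      (v = E.vc e m (E.o e m).d ∧ u = E.vc e (m + 1) (!(E.o e (m + 1)).d)))

/-- `Bl` for curves. -/
def Blc (u w : Crv) : Prop := u.k = w.k ∧ u.d = w.d ∧ u.Y 0 < w.Y 0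

/-- Half of the far part of a chord. -/
noncomputable def hp (M : ℝ) (u v : Crv) : Set (ℝ × ℝ) :=
  if u.d = v.d then pc E.G u.k u.d E.θ (u.Y 0) (if u.Y 0 ≤ v.Y 0 then M else -M)
    (|v.Y 0 - u.Y 0| / (2 * M))
  else pc E.G u.k u.d E.θ (u.Y 0) ((v.Y 0 - u.Y 0) / (2 * (hw E.G u.k u.d - E.θ)))
    (hw E.G u.k u.d - E.θ)

/-- A large slope. -/
structure Big (M : ℝ) : Prop where
  pos : 0 < M
  pr : ∀ Z u v, E.Pr Z u v → |v.Y 0 - u.Y 0| / (2 * M) < hw E.G u.k u.d - E.θ ∧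
    |(v.Y 0 - u.Y 0) / (2 * (hw E.G u.k u.d - E.θ))| ≤ M
  fn : ∀ C < E.X.n, ∀ up, ∀ k < E.X.K, ∀ k' < E.X.K, ∀ d,
    |(th E.G E.J E.θ C up k' (!d) E.θ - th E.G E.J E.θ C up k d E.θ) /
      (2 * (hw E.G k d - E.θ))| ≤ M

variable {E}

theorem Good.act_con (h : E.Good) {e : Str} (he : Act E.X E.G e) :
    e.1 < E.X.n ∧ E.X.con e.1 = true ∧ E.G.sub e.1 e.1 :=
  have := ((E.X.mem_SS e).1 he.1).1
  ⟨this, (h.hG.act_ok e he.1 he.2.1).2.2.resolve_left he.2.2, h.hT.sub_refl _ this⟩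

theorem Good.tail_dc (h : E.Good) {e : Str} (he : Act E.X E.G e) (τ : Bool) {a : Dart ℕ}
    (ha : a.side = endS E.G e τ) : E.DC e a (E.tailC e.1 e τ) := by
  obtain ⟨a1, a2, a3⟩ := h.act_con he
  have k1 : a.k = locK e τ := congrArg (·.1) ha
  have k2 : a.q = 2 * locR e τ + 1 := congrArg (·.2.1) ha
  have k3 : a.d = E.G.dir e τ := congrArg (·.2.2) ha
  exact ⟨h.tail_ok a1 he.1 he.2.1 a2 a3 τ, k1.symm, k2.symm, k3.symm, by rw [ha]; rfl,
    fun l => by omega⟩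

theorem Good.u_dc (h : E.Good) {e : Str} (he : Act E.X E.G e) {m : ℕ} (hm : m < E.N e) :
    E.DC e (E.o e m) (E.vc e m (E.o e m).d) := by
  unfold vc
  split_ifs with l l'
  · subst l; exact h.tail_dc he false (h.hD.st e he)
  · omega
  · exact ⟨h.pass_ok he (by omega) hm _, rfl, rfl, rfl, rfl, fun _ => rfl⟩

theorem Good.v_dc (h : E.Good) {e : Str} (he : Act E.X E.G e) {m : ℕ} (hm : m < E.N e) :
    E.DC e (E.o e (m + 1)).fl (E.vc e (m + 1) (!(E.o e (m + 1)).d)) := by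
  rw [vc, if_neg (Nat.succ_ne_zero m)]
  split_ifs with l'
  · rw [l']; exact h.tail_dc he true (h.hD.en e he)
  · exact ⟨h.pass_ok he (by omega) (by omega) _, rfl, rfl, rfl, rfl, fun _ => rfl⟩

theorem Pr.symm {Z : ℕ} {u v : Crv} (p : E.Pr Z u v) : E.Pr Z v u :=
  let ⟨e, m, a, b, c, d⟩ := p
  ⟨e, m, a, b, c, d.symm⟩

theorem COK.tag0 {Z : ℕ} {c : Crv} (hc : E.COK Z c) : E.Tag Z c.k c.q (c.Y 0) := by
  simpa using hc.tag 0 1 zero_le_one le_rfl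

theorem Good.pr_ok (h : E.Good) {Z : ℕ} {u v : Crv} (p : E.Pr Z u v) :
    Z < E.X.n ∧ E.COK Z u ∧ clk u.k u.d = clk v.k v.d ∧
      ∀ f y, Ch E.X E.G Z v.π (clk u.k u.d) f y → Ch E.X E.G Z u.π (clk u.k u.d) f y := by
  have key : ∀ e a b u v, E.DC e a u → E.DC e b v → Al E.X E.G e a.side b.side →
      clk u.k u.d = clk v.k v.d ∧ ∀ f y, Ch E.X E.G e.1 v.π (clk u.k u.d) f y →
        Ch E.X E.G e.1 u.π (clk u.k u.d) f y := fun e a b u v hu hv al => by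
    have e1 : clk u.k u.d = cl a.side := by rw [hu.k, hu.d]; rfl
    refine ⟨by rw [e1, al.2.2.1, hv.k, hv.d]; rfl, fun f y hy C hC up => ?_⟩
    rw [e1, hv.π] at hy
    rw [e1, hu.π]
    have := al.2.2.2 C hC
    cases up
    · exact ⟨(hy C hC false).1, fun l => (hy C hC false).2
        ⟨l.1, l.2.1, l.2.2.1, fun k => l.2.2.2 ((this l.1 l.2.1 l.2.2.1).2 k)⟩⟩
    · exact ⟨fun l => (hy C hC true).1 ⟨l.1, l.2.1, l.2.2.1, (this l.1 l.2.1 l.2.2.1).1 l.2.2.2⟩,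
        (hy C hC true).2⟩
  obtain ⟨e, m, he, rfl, hm, ⟨rfl, rfl⟩ | ⟨rfl, rfl⟩⟩ := p
  · exact ⟨(h.act_con he).1, (h.u_dc he hm).ok,
      key e _ _ _ _ (h.u_dc he hm) (h.v_dc he hm) (h.hD.al e he m hm)⟩
  · have al := h.hD.al e he m hm
    exact ⟨(h.act_con he).1, (h.v_dc he hm).ok, key e _ _ _ _ (h.v_dc he hm) (h.u_dc he hm)
      ⟨al.2.1, al.1, al.2.2.1.symm, fun D a b c d => (al.2.2.2 D a b c (al.2.2.1 ▸ d)).symm⟩⟩

theorem Good.bl_iff (h : E.Good) {e f : Str} (he : Act E.X E.G e) (hf : Act E.X E.G f)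
    (hd : E.G.dc e.1 f.1) {a z : Dart ℕ} {u w : Crv} (hu : E.DC e a u) (hw : E.DC f z w) :
    Bl a z ↔ Blc u w := by
  rw [Bl, Blc, hu.k, hw.k, hu.d, hw.d]
  refine and_congr_right fun k1 => and_congr_right fun _ => ?_
  have t1 := hu.ok.tag0
  have t2 := hw.ok.tag0
  rw [hu.k, hu.q] at t1
  rw [hw.k, hw.q, ← k1] at t2
  rcases lt_trichotomy a.q z.q with l | l | l
  · exact iff_of_true (Or.inl l) (h.tag_lt t1 t2 l)
  · rcases Nat.mod_two_eq_zero_or_one a.q with hq | hq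
    · rw [hu.Y hq, hw.Y (l ▸ hq), ← k1, ← l]
      refine ⟨fun k => h.Yv_lt t1.2.2.1 t1.1 t1.2.1 hq (by omega), fun k => Or.inr ⟨rfl, ?_⟩⟩
      rcases lt_trichotomy a.h z.h with m | m | m
      · exact m
      · rw [m] at k; exact absurd k (lt_irrefl _)
      · exact absurd (h.Yv_lt t1.2.2.1 t1.1 t1.2.1 hq m) k.not_gt
    · obtain ⟨-, a2, a3, ⟨-, c, -⟩ | ⟨c, -⟩⟩ := t1
      · obtain ⟨-, -, -, ⟨-, c', -⟩ | ⟨c', -⟩⟩ := t2
        · exact (h.hG.mdc _ (h.act_con he).1 _ (h.act_con hf).1 hd _ a3 _ (by omega) c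
            (l ▸ c')).elim
        · omega
      · omega
  · exact iff_of_false (by omega) (h.tag_lt t2 t1 l).not_gt

theorem Good.pr_nc (h : E.Good) {Z Y : ℕ} {u v u' v' : Crv} (p : E.Pr Z u v) (p' : E.Pr Y u' v')
    (hd : E.G.dc Z Y) : (Blc u u' ↔ Blc v u') ↔ (Blc u v' ↔ Blc v v') := by
  obtain ⟨e, m, he, rfl, hm, k⟩ := p
  obtain ⟨f, m', hf, rfl, hm', k'⟩ := p'
  have := h.hD.nc e f ⟨he, hf, hd⟩ m hm m' hm'
  rw [NC, h.bl_iff he hf hd (h.u_dc he hm) (h.u_dc hf hm'),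
    h.bl_iff he hf hd (h.v_dc he hm) (h.u_dc hf hm'),
    h.bl_iff he hf hd (h.u_dc he hm) (h.v_dc hf hm'),
    h.bl_iff he hf hd (h.v_dc he hm) (h.v_dc hf hm')] at this
  rcases k with ⟨rfl, rfl⟩ | ⟨rfl, rfl⟩ <;> rcases k' with ⟨rfl, rfl⟩ | ⟨rfl, rfl⟩ <;> tauto

theorem pr_finite : {p : Crv × Crv | ∃ Z, E.Pr Z p.1 p.2}.Finite := by
  have h1 : {x : Str × ℕ | x.1 ∈ E.X.SS ∧ x.2 < E.N x.1}.Finite := by
    refine (E.X.SS.finite_toSet.biUnion fun e _ =>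
      (finite_Iio (E.N e)).image fun m => (e, m)).subset ?_
    rintro ⟨e, m⟩ ⟨a, b⟩
    exact mem_biUnion a ⟨m, b, rfl⟩
  refine ((h1.image fun x => (E.vc x.1 x.2 (E.o x.1 x.2).d,
    E.vc x.1 (x.2 + 1) (!(E.o x.1 (x.2 + 1)).d))).union (h1.image fun x =>
      (E.vc x.1 (x.2 + 1) (!(E.o x.1 (x.2 + 1)).d), E.vc x.1 x.2 (E.o x.1 x.2).d))).subset ?_
  rintro ⟨u, v⟩ ⟨Z, e, m, he, -, hm, ⟨rfl, rfl⟩ | ⟨rfl, rfl⟩⟩
  · exact Or.inl ⟨(e, m), ⟨he.1, hm⟩, rfl⟩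
  · exact Or.inr ⟨(e, m), ⟨he.1, hm⟩, rfl⟩

theorem Good.exists_big (h : E.Good) : ∃ M, E.Big M := by
  have e1 : ∀ᶠ M : ℝ in atTop, ∀ p ∈ {p : Crv × Crv | ∃ Z, E.Pr Z p.1 p.2},
      |p.2.Y 0 - p.1.Y 0| / (2 * M) < hw E.G p.1.k p.1.d - E.θ ∧
      |(p.2.Y 0 - p.1.Y 0) / (2 * (hw E.G p.1.k p.1.d - E.θ))| ≤ M := by
    refine (eventually_all_finite pr_finite).2 fun p ⟨Z, hp⟩ => Eventually.and ?_
      (eventually_ge_atTop _)
    have := (h.pr_ok hp).2.1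
    exact ((tendsto_id.const_mul_atTop two_pos).const_div_atTop _).eventually_lt_const
      (sub_pos.2 (lt_hw h.hS this.r1 this.r2))
  have e2 : ∀ᶠ M : ℝ in atTop, ∀ C < E.X.n, ∀ up, ∀ k < E.X.K, ∀ k' < E.X.K, ∀ d,
      |(th E.G E.J E.θ C up k' (!d) E.θ - th E.G E.J E.θ C up k d E.θ) /
        (2 * (hw E.G k d - E.θ))| ≤ M :=
    ev_lt fun _ _ => ev_bool fun _ => ev_lt fun _ _ => ev_lt fun _ _ => ev_bool fun _ =>
      eventually_ge_atTop _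
  obtain ⟨M, h1, h2, h3⟩ := ((eventually_gt_atTop 0).and (e1.and e2)).exists
  exact ⟨M, h1, fun Z u v p => h2 (u, v) ⟨Z, p⟩, h3⟩

theorem Good.mem_hp (h : E.Good) {M : ℝ} (hM : E.Big M) {Z : ℕ} {u v : Crv} (p : E.Pr Z u v)
    {z : ℝ × ℝ} (hz : z ∈ E.hp M u v) : ∃ σ, 0 ≤ σ ∧ σ ≤ hw E.G u.k u.d - E.θ ∧
      z.1 = xp E.G u.k u.d (E.θ + σ) ∧
      ((u.d = v.d ∧ σ < hw E.G u.k u.d - E.θ ∧ 2 * (M * σ) ≤ |v.Y 0 - u.Y 0| ∧
        z.2 = u.Y 0 + if u.Y 0 ≤ v.Y 0 then M * σ else -(M * σ)) ∨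
      (u.d ≠ v.d ∧ ∃ a, 0 ≤ a ∧ a ≤ 1 ∧ σ = a * (2 * (hw E.G u.k u.d - E.θ)) ∧
        z.2 = (1 - a) * u.Y 0 + a * v.Y 0 ∧ |a * (v.Y 0 - u.Y 0)| ≤ M * σ)) := by
  obtain ⟨b1, b2⟩ := hM.pr Z u v p
  have ok := (h.pr_ok p).2.1
  have w := sub_pos.2 (lt_hw h.hS ok.r1 ok.r2)
  have m := hM.pos
  unfold hp at hz
  split_ifs at hz with l l'
  · obtain ⟨σ, ⟨s1, s2⟩, rfl⟩ := hz
    refine ⟨σ, s1, by linarith, rfl, Or.inl ⟨l, by linarith, ?_, by simp [l']⟩⟩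
    rw [le_div_iff₀ (by positivity)] at s2
    linarith
  · obtain ⟨σ, ⟨s1, s2⟩, rfl⟩ := hz
    refine ⟨σ, s1, by linarith, rfl, Or.inl ⟨l, by linarith, ?_, by simp [l']⟩⟩
    rw [le_div_iff₀ (by positivity)] at s2
    linarith
  · obtain ⟨σ, ⟨s1, s2⟩, rfl⟩ := hz
    generalize hw E.G u.k u.d - E.θ = ω at *
    refine ⟨σ, s1, s2, rfl, Or.inr ⟨l, σ / (2 * ω), by positivity,
      (div_le_one (by positivity)).2 (by linarith), by field_simp, by field_simp; ring, ?_⟩⟩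
    rw [show σ / (2 * ω) * (v.Y 0 - u.Y 0) = (v.Y 0 - u.Y 0) / (2 * ω) * σ by ring, abs_mul,
      abs_of_nonneg s1]
    gcongr

theorem Good.hp_SG (h : E.Good) {M : ℝ} (hM : E.Big M) {Z : ℕ} {u v : Crv} (p : E.Pr Z u v) :
    ∀ z ∈ E.hp M u v, SG E.X E.G E.J E.θ Z z := by
  rintro ⟨x, y⟩ hz
  obtain ⟨σ, s1, s2, rfl, hy⟩ := h.mem_hp hM p hz
  obtain ⟨-, ok, e1, tr⟩ := h.pr_ok p
  have ok' := (h.pr_ok p.symm).2.1
  have w := sub_pos.2 (lt_hw h.hS ok.r1 ok.r2)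
  have c1 := ok.ch 0
  have c2 := tr _ _ (e1 ▸ ok'.ch 0)
  simp only [pow_zero, div_one] at c1 c2
  refine SG_of_Ch (π := u.π) h.hG h.hS ok.r1 ok.r2 ok.sp (by linarith [h.hS.pos]) (by linarith)
    fun C hC up => ?_
  have c3 := c1 C hC up
  have c4 := c2 C hC up
  simp only at c3 c4 hy ⊢
  rcases hy with ⟨l, -, s3, rfl⟩ | ⟨l, a, a0, a1, s3, rfl, -⟩
  · obtain ⟨k', k1, k2⟩ : ∃ k', k' < E.X.K ∧ clk k' (!u.d) = clk u.k u.d := by
      have := ok.r2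
      obtain ⟨c, e, ⟨k3, -⟩ | ⟨k3, -⟩⟩ := clk_cases ok.r1
      · exact ⟨c + 1, e ▸ this, by rw [e, k3]; rfl⟩
      · exact ⟨c, by omega, by rw [e, k3]; rfl⟩
    rw [FS_thick h.hS ok.r1 ok.r2 k2 C up s1 s2]
    have b := abs_le.1 (hM.fn C hC up _ (k_lt ok.r2) _ k1 u.d)
    have k4 : v.k = u.k := clk_inj (by rw [e1, l])
    rw [k4, ← l] at c4
    generalize (th E.G E.J E.θ C up k' (!u.d) E.θ - th E.G E.J E.θ C up u.k u.d E.θ) /
      (2 * (hw E.G u.k u.d - E.θ)) = μ at *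
    have b1 := mul_le_mul_of_nonneg_right b.1 s1
    have b2 := mul_le_mul_of_nonneg_right b.2 s1
    refine ⟨fun k => ?_, fun k => ?_⟩
    · have := c3.1 k
      have := c4.1 k
      split_ifs with k' <;> rcases abs_cases (v.Y 0 - u.Y 0) with ⟨m, m'⟩ | ⟨m, m'⟩ <;> linarith
    · have := c3.2 k
      have := c4.2 k
      split_ifs with k' <;> rcases abs_cases (v.Y 0 - u.Y 0) with ⟨m, m'⟩ | ⟨m, m'⟩ <;> linarith
  · have k3 : v.d = !u.d := by revert l; cases u.d <;> cases v.d <;> simp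
    rw [FS_thick (k' := v.k) h.hS ok.r1 ok.r2 (by rw [e1, k3]) C up s1 s2, s3, div_mul_eq_mul_div,
      ← mul_assoc, mul_div_cancel_right₀ _ (by positivity), ← k3]
    exact ⟨fun k => by linarith [comb_lt a0 a1 (c3.1 k) (c4.1 k)],
      fun k => by linarith [comb_lt a0 a1 (c3.2 k) (c4.2 k)]⟩

theorem Good.hp_dc (h : E.Good) {M : ℝ} (hM : E.Big M) {Z Y : ℕ} {u v u' v' : Crv}
    (p : E.Pr Z u v) (p' : E.Pr Y u' v') (hd : E.G.dc Z Y) {z : ℝ × ℝ} (hz : z ∈ E.hp M u v)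
    (hz' : z ∈ E.hp M u' v') : False := by
  obtain ⟨σ, s1, s2, x1, y1⟩ := h.mem_hp hM p hz
  obtain ⟨σ', s1', s2', x1', y1'⟩ := h.mem_hp hM p' hz'
  obtain ⟨hZ, ou, e1, -⟩ := h.pr_ok p
  obtain ⟨hY, ou', e2, -⟩ := h.pr_ok p'
  have ov := (h.pr_ok p.symm).2.1
  have ov' := (h.pr_ok p'.symm).2.1
  have ne : ∀ {a b : Crv}, E.COK Z a → E.COK Y b → a.k = b.k → a.Y 0 ≠ b.Y 0 :=
    fun ha hb k l => h.tag_dc hZ hY hd ha.tag0 (by rw [k, l]; exact hb.tag0)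
  have nc := h.pr_nc p p' hd
  have t0 := h.hS.pos
  have w := sub_pos.2 (lt_hw h.hS ou.r1 ou.r2)
  have w' := sub_pos.2 (lt_hw h.hS ou'.r1 ou'.r2)
  have mσ := mul_nonneg hM.pos.le s1
  have bn : ∀ a b c : Bool, a ≠ b → a ≠ c → b = c := by decide
  unfold Blc at nc
  rcases abscissa h.hG ou.r1 ou.r2 ou'.r1 ou'.r2 (by linarith) (by linarith) (by linarith)
    (by linarith) (x1.symm.trans x1') with ⟨k1, k2, k3⟩ | ⟨-, k3, -⟩ | ⟨k1, k2, k3, k4⟩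
  · obtain rfl : σ = σ' := by linarith
    rcases y1 with ⟨l, -, a1, a2⟩ | ⟨l, a, a0, a1, a2, a3, a4⟩ <;>
      rcases y1' with ⟨l', -, b1, b2⟩ | ⟨l', b, b0, b1, b2, b3, b4⟩
    · have m1 : u.k = v.k := clk_inj (by rw [e1, l])
      have m2 : u'.k = v'.k := clk_inj (by rw [e2, l'])
      simp only [← m1, ← m2, ← l, ← l', k1, k2, true_and] at nc
      exact real_vv mσ a1 b1 a2 b2 (ne ou ou' k1) (ne ou ov' (by omega)) (ne ov ou' (by omega))
        (ne ov ov' (by omega)) nc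
    · have m1 : u.k = v.k := clk_inj (by rw [e1, l])
      simp only [← m1, ← l, k1, k2, l', true_and, false_and, and_false, iff_self, iff_true] at nc
      exact real_vs a1 b4 a2 (by rw [b3]; ring) (ne ou ou' k1) (ne ov ou' (by omega)) nc
    · have m2 : u'.k = v'.k := clk_inj (by rw [e2, l'])
      simp only [← m2, ← l', ← k1, ← k2, l.symm, true_and, false_and, and_false, iff_false,
        not_lt] at nc
      have n1 := ne ou ou' k1
      have n2 := ne ou ov' (by omega)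
      refine real_vs b1 a4 b2 (by rw [a3]; ring) n1.symm n2.symm ?_
      rw [lt_iff_le_and_ne, lt_iff_le_and_ne, nc]
      simp [n1.symm, n2.symm]
    · have m3 : v.d = v'.d := bn u.d _ _ l (k2 ▸ l')
      have m1 : v.k = v'.k := clk_inj (d := v.d) (by rw [← e1, m3, ← e2, k1, k2])
      have m2 : a = b := by
        rw [← k1, ← k2, a2] at b2
        exact mul_right_cancel₀ (by positivity) b2
      subst m2
      simp only [k1, k2, m1, m3, l', l'.symm, true_and, false_and, and_false, iff_false,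
        false_iff] at nc
      rcases (ne ou ou' k1).lt_or_gt with n | n <;> rcases (ne ov ov' m1).lt_or_gt with n' | n'
      · linarith [comb_lt a0 a1 n n']
      · exact nc.2 n'.not_gt n
      · exact nc.1 n.not_gt n'
      · linarith [comb_lt a0 a1 n n']
  · linarith
  · rcases y1 with ⟨-, a, -⟩ | ⟨l, a, a0, a1, a2, a3, -⟩
    · linarith
    rcases y1' with ⟨-, b, -⟩ | ⟨l', b, b0, b1, b2, b3, -⟩
    · linarith
    have m3 : v.d = u'.d := bn u.d _ _ l k2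
    have m4 : u.d = v'.d := bn u'.d _ _ k2.symm l'
    have m1 : v.k = u'.k := clk_inj (d := v.d) (by rw [← e1, m3, k1])
    have m2 : u.k = v'.k := clk_inj (d := u.d) (by rw [k1, e2, m4])
    obtain rfl : a = 1 / 2 := mul_right_cancel₀ (b := 2 * (hw E.G u.k u.d - E.θ))
      (by positivity) (by linarith)
    obtain rfl : b = 1 / 2 := mul_right_cancel₀ (b := 2 * (hw E.G u'.k u'.d - E.θ))
      (by positivity) (by linarith)
    simp only [m1, m2, m3, m4, l', l'.symm, true_and, false_and, and_false, iff_false,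
      false_iff] at nc
    rcases (ne ou ov' m2).lt_or_gt with n | n <;> rcases (ne ov ou' m1).lt_or_gt with n' | n'
    · linarith
    · exact nc.1 n'.not_gt n
    · exact nc.2 n.not_gt n'
    · linarith

theorem Good.hp_start (h : E.Good) {M : ℝ} (hM : E.Big M) {Z : ℕ} {u v : Crv} (p : E.Pr Z u v) :
    ∃ μ τ, 0 ≤ τ ∧ E.θ + τ ≤ hw E.G u.k u.d ∧ E.hp M u v = pc E.G u.k u.d E.θ (u.Y 0) μ τ := by
  have ok := (h.pr_ok p).2.1
  have w := lt_hw h.hS ok.r1 ok.r2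
  have m := hM.pos
  have := (hM.pr Z u v p).1
  by_cases l : u.d = v.d
  · exact ⟨_, _, by positivity, by linarith, if_pos l⟩
  · exact ⟨_, _, by linarith, by linarith, if_neg l⟩

theorem Good.hp_meet (h : E.Good) {M : ℝ} (hM : E.Big M) {Z : ℕ} {u v : Crv} (p : E.Pr Z u v) :
    (E.hp M u v ∩ E.hp M v u).Nonempty := by
  obtain ⟨-, ok, e1, -⟩ := h.pr_ok p
  have w := sub_pos.2 (lt_hw h.hS ok.r1 ok.r2)
  have m := hM.pos
  unfold hp
  by_cases l : u.d = v.d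
  · have m1 : u.k = v.k := clk_inj (by rw [e1, l])
    rw [if_pos l, if_pos l.symm, abs_sub_comm (u.Y 0), ← m1, ← l]
    refine ⟨_, pc_stop _ _ _ _ _ _ (by positivity), ?_⟩
    convert pc_stop E.G u.k u.d E.θ (v.Y 0) _ (by positivity : 0 ≤ |v.Y 0 - u.Y 0| / (2 * M))
      using 2
    rcases lt_trichotomy (u.Y 0) (v.Y 0) with k | k | k
    · rw [if_pos k.le, if_neg k.not_ge, abs_of_pos (sub_pos.2 k)]; field_simp; ring
    · simp [k]
    · rw [if_neg k.not_ge, if_pos k.le, abs_of_neg (sub_neg.2 k)]; field_simp; ring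
  · have m2 : hw E.G v.k v.d = hw E.G u.k u.d := by rw [hw, hw, e1]
    rw [if_neg l, if_neg (Ne.symm l), m2]
    refine ⟨_, pc_stop _ _ _ _ _ _ w.le, ?_⟩
    convert pc_stop E.G v.k v.d E.θ (v.Y 0) _ w.le using 2
    · obtain ⟨c, e, k⟩ := clk_cases ok.r1
      obtain ⟨c', e', k'⟩ := clk_cases (e1 ▸ ok.r1)
      obtain rfl : c = c' := by omega
      simp only [hw, e, Nat.add_sub_cancel]
      rcases k with ⟨k1, k2⟩ | ⟨k1, k2⟩ <;> rcases k' with ⟨k3, k4⟩ | ⟨k3, k4⟩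
      · exact absurd (k1.trans k3.symm) l
      · simp only [xp, k1, k2, k3, k4, sg_true, sg_false]; ring
      · simp only [xp, k1, k2, k3, k4, sg_true, sg_false]; ring
      · exact absurd (k1.trans k3.symm) l
    · field_simp; ring

end Dat

end Pool.Agent.Lib.MP_02e8f2_lc
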