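import Pool.Agent.Lib.MP_02e8f2_lc.Comb

/-!
Deletion of interior vertices from a drawing; minimal drawings; the round order in a cell.
-/

set_option autoImplicit false

namespace Pool.Agent.Lib.MP_02e8f2_lc

open Finset

variable {ι : Type}

theorem rank_lt {α β : Type} [LinearOrder β] (V : Finset α) (key : α → β) {x y : α}
    (hx : x ∈ V) (hxy : key x < key y) :
    (V.filter (fun z => key z < key x)).card < (V.filter (fun z => key z < key y)).card := by
  apply Finset.card_lt_card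
  refine ⟨fun z hz => ?_, fun hsub => ?_⟩
  · simp only [mem_filter] at hz ⊢
    exact ⟨hz.1, hz.2.trans hxy⟩
  · have := hsub (mem_filter.2 ⟨hx, hxy⟩)
    simp at this

/-- `i < j ≤ n` are consecutive kept indices, `D` being the set of deleted indices. -/
def Adj (D : ℕ → Prop) (n i j : ℕ) : Prop :=
  i < j ∧ j ≤ n ∧ ¬ D i ∧ ¬ D j ∧ ∀ t, i < t → t < j → D t

theorem reindex (D : ℕ → Prop) (n : ℕ) (hD : ∀ m, D m → 0 < m ∧ m < n) :
    ∃ (n' : ℕ) (φ : ℕ → ℕ), StrictMono φ ∧ φ 0 = 0 ∧ φ n' = n ∧ n' ≤ n ∧ (∀ m, D m → n' < n) ∧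
      ∀ j < n', Adj D n (φ j) (φ (j + 1)) := by
  classical
  have hinf : (Set.ofPred fun m => ¬ D m).Infinite := by
    refine Set.infinite_of_forall_exists_gt fun a => ⟨a + n + 1, fun h => ?_, by omega⟩
    have := hD _ h
    omega
  have hn : ¬ D n := fun h => by have := hD _ h; omega
  have h0 : ¬ D 0 := fun h => by have := hD _ h; omega
  have hmono := Nat.nth_strictMono hinf
  have hcnt : Nat.nth (fun m => ¬ D m) (Nat.count (fun m => ¬ D m) n) = n := Nat.nth_count hn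
  refine ⟨Nat.count (fun m => ¬ D m) n, Nat.nth (fun m => ¬ D m), hmono,
    Nat.nth_zero_of_zero h0, hcnt, Nat.count_le _, fun m hm => ?_, fun j hj => ?_⟩
  · rw [Nat.count_eq_card_filter_range]
    conv_rhs => rw [← card_range n]
    apply card_lt_card
    refine ⟨filter_subset _ _, fun hsub => ?_⟩
    have := hsub (mem_range.2 (hD m hm).2)
    simp only [mem_filter] at this
    exact this.2 hm
  · refine ⟨hmono (Nat.lt_succ_self j), ?_, Nat.nth_mem_of_infinite hinf _,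
      Nat.nth_mem_of_infinite hinf _, fun t h1 h2 => ?_⟩
    · calc _ ≤ Nat.nth (fun m => ¬ D m) (Nat.count (fun m => ¬ D m) n) := hmono.monotone hj
        _ = n := hcnt
    · by_contra ht
      exact absurd (Nat.le_nth_of_lt_nth_succ h2 ht) (not_le.2 h1)

theorem delete {P : Par ι} {N : ι → ℕ} {o : ι → ℕ → Dart ℕ} (h : IsDraw P N o) (hI : Inj P N o)
    (D : ι → ℕ → Prop) (hD : ∀ e m, D e m → 0 < m ∧ m < N e)
    (hal : ∀ e, P.act e → ∀ i j, Adj (D e) (N e) i j → P.al e (o e i).side (o e j).fl.side)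
    (hnc : ∀ e f, P.dc e f → ∀ i j i' j', Adj (D e) (N e) i j → Adj (D f) (N f) i' j' →
      NC (o e i) (o e j).fl (o f i') (o f j').fl) :
    ∃ (N' : ι → ℕ) (o' : ι → ℕ → Dart ℕ), IsDraw P N' o' ∧ Inj P N' o' ∧ (∀ e, N' e ≤ N e) ∧
      ∀ e m, D e m → N' e < N e := by
  choose N' φ hmono h0 hN hle hlt hadj using fun e => reindex (D e) (N e) (hD e)
  have hφ : ∀ e m, m ≤ N' e → φ e m ≤ N e := fun e m hm => hN e ▸ (hmono e).monotone hm
  refine ⟨N', fun e m => o e (φ e m), ⟨fun e he => ?_, fun e he => ?_, fun e he => ?_,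
    fun e he m h1 h2 => ?_, fun e he m hm => hal e he _ _ (hadj e m hm),
    fun e f hef m hm m' hm' => hnc e f hef _ _ _ _ (hadj e m hm) (hadj f m' hm'),
    fun e f hef m hm m' hm' => h.ne e f hef _ (hφ e m hm) _ (hφ f m' hm')⟩,
    fun e f he hf m hm m' hm' hh => ?_, hle, hlt⟩
  · rcases Nat.eq_zero_or_pos (N' e) with h1 | h1
    · have h2 := hN e
      rw [h1, h0 e] at h2
      have := h.pos e he
      omega
    · exact h1
  · simp only [h0 e]
    exact h.st e he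
  · simp only [hN e]
    exact h.en e he
  · refine h.gap e he _ ?_ ?_
    · have := hmono e h1
      rwa [h0 e] at this
    · have := hmono e h2
      rwa [hN e] at this
  · obtain ⟨rfl, h2⟩ := hI e f he hf _ (hφ e m hm) _ (hφ f m' hm') hh
    exact ⟨rfl, (hmono e).injective h2⟩

/-- No deletion of interior vertices gives a drawing. -/
def Mini (P : Par ι) (N : ι → ℕ) (o : ι → ℕ → Dart ℕ) : Prop :=
  ∀ D : ι → ℕ → Prop, (∀ e m, D e m → 0 < m ∧ m < N e) →
    (∀ e, P.act e → ∀ i j, Adj (D e) (N e) i j → P.al e (o e i).side (o e j).fl.side) →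
    (∀ e f, P.dc e f → ∀ i j i' j', Adj (D e) (N e) i j → Adj (D f) (N f) i' j' →
      NC (o e i) (o e j).fl (o f i') (o f j').fl) → ∀ e m, P.act e → ¬ D e m

theorem exists_mini (P : Par ι) (hP : P.OK) (N : ι → ℕ) (o : ι → ℕ → Dart ℕ)
    (h : IsDraw P N o) (hI : Inj P N o) :
    ∃ (N' : ι → ℕ) (o' : ι → ℕ → Dart ℕ), IsDraw P N' o' ∧ Inj P N' o' ∧ Mini P N' o' := by
  classical
  induction hn : ∑ e ∈ P.SS.toFinset, N e using Nat.strong_induction_on generalizing N o with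
  | _ n ih =>
  by_cases hM : Mini P N o
  · exact ⟨N, o, h, hI, hM⟩
  · unfold Mini at hM
    push Not at hM
    obtain ⟨D, hD, hal, hnc, e, m, he, hem⟩ := hM
    obtain ⟨N', o', h', hI', hle, hlt⟩ := delete h hI D hD hal hnc
    refine ih _ ?_ N' o' h' hI' rfl
    rw [← hn]
    exact sum_lt_sum (fun f _ => hle f) ⟨e, List.mem_toFinset.2 (hP.mem e he), hlt e m hem⟩

/-- A block of consecutive indices of one string is deleted. -/
theorem adj_block {D : ℕ → Prop} {n a b i j : ℕ} (hD : ∀ t, D t ↔ a < t ∧ t ≤ b)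
    (h : Adj D n i j) : (i = a ∧ j = b + 1) ∨ (j = i + 1 ∧ i < n) := by
  obtain ⟨h1, h2, h3, h4, h5⟩ := h
  by_cases hj : j = i + 1
  · exact Or.inr ⟨hj, by omega⟩
  · have h6 := h5 (i + 1) (by omega) (by omega)
    have h7 := h5 (j - 1) (by omega) (by omega)
    rw [hD] at h3 h4 h6 h7
    left
    omega

theorem adj_none {D : ℕ → Prop} {n i j : ℕ} (hD : ∀ t, ¬ D t) (h : Adj D n i j) :
    j = i + 1 ∧ i < n := by
  obtain ⟨h1, h2, -, -, h5⟩ := h
  by_cases hj : j = i + 1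
  · exact ⟨hj, by omega⟩
  · exact absurd (h5 (i + 1) (by omega) (by omega)) (hD _)

/-- In a minimal drawing no block of a single string can be cut out. -/
theorem Mini.block {P : Par ι} (hP : P.OK) {N : ι → ℕ} {o : ι → ℕ → Dart ℕ} (h : IsDraw P N o)
    (hM : Mini P N o) (e : ι) (he : P.act e) (a b : ℕ) (hab : a < b) (hb : b < N e)
    (hal : P.al e (o e a).side (o e (b + 1)).fl.side)
    (h1 : ∀ f, P.dc e f → ∀ m < N f, NC (o e a) (o e (b + 1)).fl (o f m) (o f (m + 1)).fl)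
    (h2 : ∀ f, P.dc f e → ∀ m < N f, NC (o f m) (o f (m + 1)).fl (o e a) (o e (b + 1)).fl) :
    False := by
  have hcase : ∀ x i j, Adj (fun t => x = e ∧ a < t ∧ t ≤ b) (N x) i j →
      (x = e ∧ i = a ∧ j = b + 1) ∨ (j = i + 1 ∧ i < N x) := by
    intro x i j hA
    by_cases hx : x = e
    · rcases adj_block (a := a) (b := b) (fun t => by simp [hx]) hA with h3 | h3
      · exact Or.inl ⟨hx, h3⟩
      · exact Or.inr h3
    · exact Or.inr (adj_none (fun t => by simp [hx]) hA)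
  refine hM (fun x t => x = e ∧ a < t ∧ t ≤ b) ?_ ?_ ?_ e b he ⟨rfl, hab, le_rfl⟩
  · rintro x t ⟨rfl, h3, h4⟩
    omega
  · intro x hx i j hA
    rcases hcase x i j hA with ⟨rfl, rfl, rfl⟩ | ⟨rfl, h3⟩
    · exact hal
    · exact h.al x hx i h3
  · intro x y hxy i j i' j' hA hA'
    rcases hcase x i j hA with ⟨rfl, rfl, rfl⟩ | ⟨rfl, h3⟩
    · rcases hcase y i' j' hA' with ⟨rfl, -, -⟩ | ⟨rfl, h4⟩
      · exact absurd hxy (hP.dc_irr _)
      · exact h1 y hxy i' h4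
    · rcases hcase y i' j' hA' with ⟨rfl, rfl, rfl⟩ | ⟨rfl, h4⟩
      · exact h2 x hxy i h3
      · exact h.nc x y hxy i h3 i' h4

/-- The position of a dart in the round order of its cell. -/
def pos (x : Dart ℕ) : ℤ ×ₗ ℤ ×ₗ ℤ :=
  toLex (cond x.d 0 1, toLex (cond x.d (x.q : ℤ) (-x.q), cond x.d (x.h : ℤ) (-x.h)))

theorem bl_pos {x y : Dart ℕ} (hc : cl x.side = cl y.side) (hh : x.h ≠ y.h) :
    Bl x y ↔ (pos x < pos y ↔ y.d = true) := by
  obtain ⟨k, q, h, d⟩ := x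
  obtain ⟨k', q', h', d'⟩ := y
  simp only [cl, clk, Dart.side, ne_eq] at hc hh
  cases d <;> cases d' <;> simp [Bl, pos, Prod.Lex.lt_iff] at hc ⊢ <;> omega

theorem pos_ne {x y : Dart ℕ} (hh : x.h ≠ y.h) : pos x ≠ pos y := by
  obtain ⟨k, q, h, d⟩ := x
  obtain ⟨k', q', h', d'⟩ := y
  cases d <;> cases d' <;> simp [pos] at hh ⊢ <;> omega

theorem bl_cl {x y : Dart ℕ} (h : Bl x y) : cl x.side = cl y.side := by
  simp [cl, Dart.side, h.1, h.2.1]

theorem nc_of_cl {a b z w : Dart ℕ} (h1 : cl a.side = cl b.side) (h2 : cl z.side = cl w.side)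
    (h3 : cl a.side ≠ cl z.side) : NC a b z w := by
  have e1 : ¬ Bl a z := fun h => h3 (bl_cl h)
  have e2 : ¬ Bl b z := fun h => h3 (h1.trans (bl_cl h))
  have e3 : ¬ Bl a w := fun h => h3 ((bl_cl h).trans h2.symm)
  have e4 : ¬ Bl b w := fun h => h3 (h1.trans ((bl_cl h).trans h2.symm))
  simp [NC, e1, e2, e3, e4]

theorem nc_pos {a b z w : Dart ℕ} (h1 : cl a.side = cl b.side) (h2 : cl z.side = cl w.side)
    (h3 : cl a.side = cl z.side) (az : a.h ≠ z.h) (aw : a.h ≠ w.h) (bz : b.h ≠ z.h)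
    (bw : b.h ≠ w.h) :
    NC a b z w ↔ ((pos a < pos z ↔ pos b < pos z) ↔ (pos a < pos w ↔ pos b < pos w)) := by
  unfold NC
  rw [bl_pos h3 az, bl_pos (h1.symm.trans h3) bz, bl_pos (h3.trans h2) aw,
    bl_pos (h1.symm.trans (h3.trans h2)) bw]
  tauto

theorem nc_symm {a b z w : Dart ℕ} (h1 : cl a.side = cl b.side) (h2 : cl z.side = cl w.side)
    (az : a.h ≠ z.h) (aw : a.h ≠ w.h) (bz : b.h ≠ z.h) (bw : b.h ≠ w.h) (h : NC a b z w) :
    NC z w a b := by
  by_cases h3 : cl a.side = cl z.side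
  · rw [nc_pos h1 h2 h3 az aw bz bw] at h
    rw [nc_pos h2 h1 h3.symm az.symm bz.symm aw.symm bw.symm]
    have e : ∀ {x y : Dart ℕ}, x.h ≠ y.h → (pos y < pos x ↔ ¬ pos x < pos y) := fun hh =>
      ⟨fun h => lt_asymm h, fun h => lt_of_le_of_ne (not_lt.1 h) (pos_ne hh).symm⟩
    rw [e az, e aw, e bz, e bw]
    tauto
  · exact nc_of_cl h2 h1 (Ne.symm h3)

theorem lin_tri {α : Type} [LinearOrder α] (a b c d z w : α)
    (h1 : (a < z ↔ b < z) ↔ (a < w ↔ b < w)) (h2 : (c < z ↔ d < z) ↔ (c < w ↔ d < w))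
    (h3 : ¬ ((a < c ↔ b < c) ↔ (a < d ↔ b < d))) : (a < z ↔ d < z) ↔ (a < w ↔ d < w) := by
  grind

/-- Two crossing chords lie on the same side of a chord that crosses neither. -/
theorem nc_tri {a b c d z w : Dart ℕ} (h1 : cl a.side = cl b.side) (h2 : cl c.side = cl d.side)
    (h3 : cl z.side = cl w.side) (ac : a.h ≠ c.h) (ad : a.h ≠ d.h) (bc : b.h ≠ c.h)
    (bd : b.h ≠ d.h) (az : a.h ≠ z.h) (aw : a.h ≠ w.h) (bz : b.h ≠ z.h) (bw : b.h ≠ w.h)
    (cz : c.h ≠ z.h) (cw : c.h ≠ w.h) (dz : d.h ≠ z.h) (dw : d.h ≠ w.h)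
    (n1 : NC a b z w) (n2 : NC c d z w) (n3 : ¬ NC a b c d) : NC a d z w := by
  have h4 : cl a.side = cl c.side := by
    by_contra h4
    exact n3 (nc_of_cl h1 h2 h4)
  by_cases h5 : cl a.side = cl z.side
  · rw [nc_pos h1 h3 h5 az aw bz bw] at n1
    rw [nc_pos h2 h3 (h4.symm.trans h5) cz cw dz dw] at n2
    rw [nc_pos h1 h2 h4 ac ad bc bd] at n3
    rw [nc_pos (h4.trans h2) h3 h5 az aw dz dw]
    exact lin_tri _ _ _ _ _ _ n1 n2 n3
  · exact nc_of_cl (h4.trans h2) h3 h5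

theorem bl_bs {x y : Dart ℕ} (h : x.side ≠ y.side) : Bl x y ↔ Bs x.side y.side := by
  obtain ⟨k, q, h, d⟩ := x
  obtain ⟨k', q', h', d'⟩ := y
  simp only [Dart.side, ne_eq, Prod.mk.injEq] at h
  simp only [Bl, Bs, Dart.side]
  tauto

end Pool.Agent.Lib.MP_02e8f2_lc
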