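import Pool.Agent.Lib.MP_02e8f2_lc.TightA

/-!
The window lemma: if every string passes an even number of times through an interval of a gap,
the drawing is not minimal.
-/

set_option autoImplicit false

namespace Pool.Agent.Lib.MP_02e8f2_lc

open Finset

variable {ι : Type}

open Classical in
/-- Indicator modulo two. -/
noncomputable def ind (p : Prop) : ZMod 2 := if p then 1 else 0

theorem ind_pos {p : Prop} (h : p) : ind p = 1 := by simp [ind, h]

theorem ind_neg {p : Prop} (h : ¬ p) : ind p = 0 := by simp [ind, h]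

theorem ind_congr {p q : Prop} (h : p ↔ q) : ind p = ind q := by rw [propext h]

theorem zadd (x : ZMod 2) : x + x = 0 := by revert x; decide

theorem zcases (x : ZMod 2) : x = 0 ∨ x = 1 := by revert x; decide

/-- Indicator of `Bl`. -/
noncomputable def bq (a z : Dart ℕ) : ZMod 2 := ind (Bl a z)

theorem nc_iff (a b z w : Dart ℕ) : NC a b z w ↔ (bq a z + bq a w) + (bq b z + bq b w) = 0 := by
  unfold NC bq
  by_cases h1 : Bl a z <;> by_cases h2 : Bl a w <;> by_cases h3 : Bl b z <;>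
    by_cases h4 : Bl b w <;> simp only [ind, h1, h2, h3, h4, if_true, if_false] <;> decide

/-- Linear functionals on functions of darts. -/
abbrev Fn : Type := (Dart ℕ → ZMod 2) →ₗ[ZMod 2] ZMod 2

theorem ladd (L : Fn) (f g : Dart ℕ → ZMod 2) : L (fun a => f a + g a) = L f + L g :=
  map_add L f g

theorem lmul (L : Fn) (c : ZMod 2) (g : Dart ℕ → ZMod 2) : L (fun a => c * g a) = c * L g :=
  map_smul L c g

theorem lzero (L : Fn) : L (fun _ => 0) = 0 := map_zero L

/-- Weighted sum over the ends of the chords `i, …, j - 1`. -/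
noncomputable def ch (u : ℕ → Dart ℕ) (i j : ℕ) (w : ℕ → ZMod 2) : Fn where
  toFun g := ∑ t ∈ Ico i j, w t * (g (u t) + g (u (t + 1)).fl)
  map_add' g g' := by
    rw [← sum_add_distrib]
    refine sum_congr rfl fun t _ => ?_
    simp only [Pi.add_apply]
    ring
  map_smul' c g := by
    simp only [Pi.smul_apply, smul_eq_mul, RingHom.id_apply, mul_sum]
    refine sum_congr rfl fun t _ => ?_
    ring

theorem ch_apply (u : ℕ → Dart ℕ) (i j : ℕ) (w : ℕ → ZMod 2) (g : Dart ℕ → ZMod 2) :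
    ch u i j w g = ∑ t ∈ Ico i j, w t * (g (u t) + g (u (t + 1)).fl) := rfl

/-- The functional commutes with all functionals. -/
def Fub (L' : Fn) : Prop :=
  ∀ (L : Fn) (B : Dart ℕ → Dart ℕ → ZMod 2),
    L (fun a => L' (B a)) = L' (fun z => L (fun a => B a z))

theorem ch_fub (u : ℕ → Dart ℕ) (i j : ℕ) (w : ℕ → ZMod 2) : Fub (ch u i j w) := by
  intro L B
  have : (fun a => ch u i j w (B a)) =
      ∑ t ∈ Ico i j, fun a => w t * (B a (u t) + B a (u (t + 1)).fl) := by
    funext a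
    simp only [ch_apply, Finset.sum_apply]
  rw [this, map_sum, ch_apply]
  refine sum_congr rfl fun t _ => ?_
  rw [lmul, ladd]

theorem ch_one (u : ℕ → Dart ℕ) (i j : ℕ) (w : ℕ → ZMod 2) : ch u i j w (fun _ => 1) = 0 := by
  simp only [ch_apply, zadd, mul_zero, sum_const_zero]

theorem ch_nc (u u' : ℕ → Dart ℕ) (i j i' j' : ℕ) (w w' : ℕ → ZMod 2)
    (h : ∀ t < j, ∀ t' < j', NC (u t) (u (t + 1)).fl (u' t') (u' (t' + 1)).fl) :
    ch u i j w (fun a => ch u' i' j' w' (bq a)) = 0 := by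
  rw [ch_apply]
  refine sum_eq_zero fun t ht => ?_
  rw [ch_apply, ch_apply, ← sum_add_distrib, sum_eq_zero, mul_zero]
  intro t' ht'
  rw [← mul_add, (nc_iff _ _ _ _).1 (h t (mem_Ico.1 ht).2 t' (mem_Ico.1 ht').2), mul_zero]

/-- The telescoping identity between the outer chords `O`, the inner chords `J` and the new
chord `x y`. -/
def MM (I : Dart ℕ → Prop) (del : Bool) (O J : Fn) (x y : Dart ℕ) : Prop :=
  ∀ g0 g1 g : Dart ℕ → ZMod 2, (∀ a, ¬ I a → g1 a.fl = g1 a) →
    (∀ a, I a → a.d = del → g0 a = g1 a.fl ∧ g a = g1 a) →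
    (∀ a, ¬ (I a ∧ a.d = del) → g a = g0 a) → O g0 + J g1 = g x + g y

/-- The same point with a given direction. -/
def rho (del : Bool) (a : Dart ℕ) : Dart ℕ := ⟨a.k, a.q, a.h, del⟩

theorem fl_fl (a : Dart ℕ) : a.fl.fl = a := by simp [Dart.fl]

theorem rho_eq {del : Bool} {a : Dart ℕ} (h : a.d = del) : rho del a = a := by
  subst h
  rfl

section
variable {I : Dart ℕ → Prop} {del : Bool} {O J : Fn} {x y : Dart ℕ}

theorem MM.split (hI : ∀ a, I a.fl ↔ I a) (h : MM I del O J x y) (g : Dart ℕ → ZMod 2) :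
    g x + g y = O g + J (fun a => ind (I a) * g (rho del a)) := by
  refine (h g _ g (fun a _ => ?_) (fun a ha hd => ?_) (fun _ _ => rfl)).symm
  · rw [ind_congr (hI a)]
    rfl
  · rw [ind_congr (hI a), ind_pos ha, one_mul, one_mul]
    exact ⟨by rw [show rho del a.fl = rho del a from rfl, rho_eq hd], by rw [rho_eq hd]⟩

theorem MM.off (hI : ∀ a, I a.fl ↔ I a) (h : MM I del O J x y) (g : Dart ℕ → ZMod 2)
    (hg : ∀ a, ¬ I a → g a.fl = g a) : J (fun a => ind (¬ I a) * g a) = 0 := by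
  have := h (fun _ => 0) (fun a => ind (¬ I a) * g a) (fun _ => 0) (fun a ha => ?_)
    (fun a ha _ => ?_) (fun _ _ => rfl)
  · rwa [lzero, zero_add, add_zero] at this
  · rw [ind_congr (not_congr (hI a)), hg a ha]
  · rw [ind_congr (not_congr (hI a)), ind_neg (not_not.2 ha), zero_mul, zero_mul]
    exact ⟨rfl, rfl⟩

theorem MM.on (hI : ∀ a, I a.fl ↔ I a) (h : MM I del O J x y) (h1 : J (fun _ => 1) = 0)
    (g : Dart ℕ → ZMod 2) (hg : ∀ a a', I a → I a' → g a = g a') :
    J (fun a => ind (I a) * g a) = 0 := by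
  have h2 := h.off hI (fun _ => 1) (fun _ _ => rfl)
  have h3 : J (fun a => ind (I a)) = 0 := by
    have : (fun a => ind (I a)) = fun a => 1 + ind (¬ I a) * 1 := by
      funext a
      by_cases ha : I a
      · rw [ind_pos ha, ind_neg (not_not.2 ha)]
        decide
      · rw [ind_neg ha, ind_pos ha]
        decide
    rw [this, ladd, h1, h2, add_zero]
  by_cases hex : ∃ a0, I a0
  · obtain ⟨a0, h0⟩ := hex
    have : (fun a => ind (I a) * g a) = fun a => g a0 * ind (I a) := by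
      funext a
      by_cases ha : I a
      · rw [hg a a0 ha h0, mul_comm]
      · rw [ind_neg ha, zero_mul, mul_zero]
    rw [this, lmul, h3, mul_zero]
  · have : (fun a => ind (I a) * g a) = fun _ => 0 := by
      funext a
      rw [ind_neg fun ha => hex ⟨a, ha⟩, zero_mul]
    rw [this, lzero]

theorem MM.swap (hI : ∀ a, I a.fl ↔ I a) (h : MM I del O J x y) (g : Dart ℕ → ZMod 2)
    (hg : ∀ a, ¬ (I a ∧ a.d = del) → g a = 0) :
    O g = J (fun a => ind (I a ∧ a.d ≠ del) * g a.fl) := by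
  have := h g (fun a => ind (I a ∧ a.d ≠ del) * g a.fl) (fun _ => 0) (fun a ha => ?_)
    (fun a ha hd => ⟨?_, ?_⟩) (fun a ha => (hg a ha).symm)
  · rw [add_zero] at this
    rw [← add_zero (O g), ← zadd (J _), ← add_assoc, this, zero_add]
  · rw [ind_neg fun h => ha ((hI a).1 h.1), ind_neg fun h => ha h.1, zero_mul, zero_mul]
  · rw [ind_pos ⟨(hI a).2 ha, by simp [Dart.fl, hd]⟩, one_mul, fl_fl]
  · rw [ind_neg fun h => h.2 hd, zero_mul]

end

/-- The window: an interval of heights in one slot. -/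
def Win (k q h1 h2 : ℕ) (a : Dart ℕ) : Prop := a.k = k ∧ a.q = q ∧ h1 ≤ a.h ∧ a.h < h2

theorem window_alg {k q h1 h2 : ℕ} {del : Bool} {O J O' J' : Fn} {x y x' y' : Dart ℕ}
    (hM : MM (Win k q h1 h2) del O J x y) (hM' : MM (Win k q h1 h2) del O' J' x' y')
    (hO' : Fub O') (hJ' : Fub J') (h1J : J (fun _ => 1) = 0) (h1J' : J' (fun _ => 1) = 0)
    (hOO : O (fun a => O' (bq a)) = 0) (hJJ : J (fun a => J' (bq a)) = 0) : NC x y x' y' := by
  set I := Win k q h1 h2 with hIdef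
  have hI : ∀ a, I a.fl ↔ I a := fun a => Iff.rfl
  -- the mixed terms
  have T2 : O (fun a => J' (fun z => ind (I z) * bq a (rho del z))) =
      J (fun a => J' (fun z => ind (I a ∧ a.d ≠ del) * (ind (I z) * bq a.fl (rho del z)))) := by
    rw [hM.swap hI]
    · simp only [lmul]
    · intro a ha
      refine hM'.on hI h1J' _ fun z z' hz hz' => ind_congr ?_
      simp only [hIdef, Win, Bl, rho] at ha hz hz' ⊢
      by_cases hd : a.d = del
      · simp only [hd, and_true, true_and] at ha ⊢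
        omega
      · simp only [hd, false_and, and_false]
  have T3 : J (fun a => ind (I a) * O' (bq (rho del a))) =
      J (fun a => J' (fun z => ind (I z ∧ z.d ≠ del) * (ind (I a) * bq (rho del a) z.fl))) := by
    simp only [← lmul O']
    rw [hO', hM'.swap hI, hJ']
    · simp only [lmul]
    · intro z hz
      refine hM.on hI h1J _ fun a a' ha ha' => ind_congr ?_
      simp only [hIdef, Win, Bl, rho] at hz ha ha' ⊢
      by_cases hd : z.d = del
      · simp only [hd, and_true, true_and] at hz ⊢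
        omega
      · simp only [Ne.symm hd, false_and, and_false]
  -- the inner chords
  have hbb : ∀ a z : Dart ℕ, bq a.fl z + bq a z =
      ind (a.k = z.k ∧ (a.q < z.q ∨ (a.q = z.q ∧ a.h < z.h))) := by
    intro a z
    simp only [bq, Bl, Dart.fl]
    by_cases e1 : a.k = z.k <;> by_cases e2 : (a.q < z.q ∨ (a.q = z.q ∧ a.h < z.h)) <;>
      cases a.d <;> cases z.d <;> simp [ind, e1, e2]
  have hbb' : ∀ a z : Dart ℕ, bq a z.fl + bq a z =
      ind (a.k = z.k ∧ (a.q < z.q ∨ (a.q = z.q ∧ a.h < z.h))) := by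
    intro a z
    simp only [bq, Bl, Dart.fl]
    by_cases e1 : a.k = z.k <;> by_cases e2 : (a.q < z.q ∨ (a.q = z.q ∧ a.h < z.h)) <;>
      cases a.d <;> cases z.d <;> simp [ind, e1, e2]
  have hsum : ∀ u v : ZMod 2, u + v = 0 → u = v := by decide
  have hone : ∀ (p : Prop) (u : ZMod 2), u = ind p * u + ind (¬ p) * u := by
    intro p u
    by_cases hp : p
    · rw [ind_pos hp, ind_neg (not_not.2 hp), one_mul, zero_mul, add_zero]
    · rw [ind_neg hp, ind_pos hp, one_mul, zero_mul, zero_add]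
  have U1 : J (fun a => ind (¬ I a) * J' (bq a)) = 0 := by
    refine hM.off hI _ fun a ha => hsum _ _ ?_
    rw [← ladd]
    simp only [hbb]
    rw [show (fun z : Dart ℕ => ind (a.k = z.k ∧ (a.q < z.q ∨ (a.q = z.q ∧ a.h < z.h)))) =
      fun z => ind (I z) * ind (a.k = z.k ∧ (a.q < z.q ∨ (a.q = z.q ∧ a.h < z.h))) +
        ind (¬ I z) * ind (a.k = z.k ∧ (a.q < z.q ∨ (a.q = z.q ∧ a.h < z.h))) from
      funext fun z => hone _ _, ladd, hM'.on hI h1J', hM'.off hI, add_zero]
    · intro z _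
      rfl
    · intro z z' hz hz'
      refine ind_congr ?_
      simp only [hIdef, Win] at ha hz hz'
      omega
  have U2 : J (fun a => J' (fun z => ind (¬ I z) * (ind (I a) * bq a z))) = 0 := by
    rw [hJ']
    simp only [lmul]
    refine hM'.off hI _ fun z hz => hsum _ _ ?_
    rw [← ladd]
    simp only [← mul_add, hbb']
    refine hM.on hI h1J _ fun a a' ha ha' => ind_congr ?_
    simp only [hIdef, Win] at hz ha ha'
    omega
  have U3 : J (fun a => J' (fun z => ind (I z) * (ind (I a) * bq a z))) = 0 := by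
    have : (fun a => J' (bq a)) = fun a => (J' (fun z => ind (I z) * (ind (I a) * bq a z)) +
        J' (fun z => ind (¬ I z) * (ind (I a) * bq a z))) + ind (¬ I a) * J' (bq a) := by
      funext a
      rw [← ladd, ← show (fun z => ind (I a) * bq a z) = fun z => ind (I z) * (ind (I a) * bq a z) +
        ind (¬ I z) * (ind (I a) * bq a z) from funext fun z => hone _ _, lmul]
      exact hone _ _
    rw [this, ladd, ladd, U1, U2, add_zero, add_zero] at hJJ
    exact hJJ
  rw [nc_iff, hM.split hI (fun a => bq a x' + bq a y')]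
  simp only [hM'.split hI, mul_add, ladd]
  rw [hOO, T2, T3, zero_add]
  simp only [← lmul J']
  rw [← ladd, ← ladd, ← U3]
  congr 1
  funext a
  rw [← ladd, ← ladd]
  congr 1
  funext z
  by_cases ha : I a
  · by_cases hz : I z
    · have e1 : a.k = z.k := ha.1.trans hz.1.symm
      have e2 : a.q = z.q := ha.2.1.trans hz.2.1.symm
      simp only [ha, hz, true_and, ind_pos, one_mul, bq, Bl, rho, Dart.fl, e1, e2]
      by_cases e3 : a.h < z.h <;> cases a.d <;> cases z.d <;> cases del <;> simp [ind, e3] <;>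
        decide
    · simp [hz, ind]
  · simp [ha, ind]

/-- Parity of the number of passes through the window before index `m`. -/
noncomputable def par (I : Dart ℕ → Prop) (u : ℕ → Dart ℕ) (m : ℕ) : ZMod 2 :=
  ∑ t ∈ range m, ind (I (u t))

theorem par_succ (I : Dart ℕ → Prop) (u : ℕ → Dart ℕ) (m : ℕ) :
    par I u (m + 1) = par I u m + ind (I (u m)) := sum_range_succ _ _

/-- The indices that are deleted. -/
def Del (I : Dart ℕ → Prop) (del : Bool) (u : ℕ → Dart ℕ) (n m : ℕ) : Prop :=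
  0 < m ∧ m < n ∧ ((¬ I (u m) ∧ par I u m = 1) ∨
    (I (u m) ∧ ((par I u m = 0 ∧ (u m).d ≠ del) ∨ (par I u m = 1 ∧ (u m).d = del))))

section
variable {I : Dart ℕ → Prop} {del : Bool} {u : ℕ → Dart ℕ} {n : ℕ}

theorem kept_start (h0 : ¬ I (u 0)) {i : ℕ} (hi : i < n) (hD : ¬ Del I del u n i) :
    (par I u (i + 1) = 0 ∧ ¬ (I (u i) ∧ (u i).d = del)) ∨
      (par I u (i + 1) = 1 ∧ I (u i) ∧ (u i).d = del) := by
  rw [par_succ]
  rcases Nat.eq_zero_or_pos i with rfl | hpos
  · left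
    simp [par, ind, h0]
  · simp only [Del, hpos, hi, true_and] at hD
    by_cases hw : I (u i) <;> rcases zcases (par I u i) with hp | hp <;>
      simp [hw, hp, ind] at hD ⊢ <;> simp [hD, zadd]

theorem kept_end (hI : ∀ a, I a.fl ↔ I a) (hn : ¬ I (u n)) (hp : par I u n = 0) {j : ℕ}
    (h0 : 0 < j) (hj : j ≤ n) (hD : ¬ Del I del u n j) :
    (par I u j = 0 ∧ ¬ (I (u j).fl ∧ (u j).fl.d = del)) ∨
      (par I u j = 1 ∧ I (u j).fl ∧ (u j).fl.d = del) := by
  rw [hI]
  rcases hj.eq_or_lt with rfl | hlt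
  · left
    simp [hp, hn]
  · simp only [Del, h0, hlt, true_and] at hD
    have hb : (u j).fl.d = del ↔ ¬ (u j).d = del := by
      cases del <;> simp [Dart.fl]
    rw [hb]
    by_cases hw : I (u j) <;> rcases zcases (par I u j) with hq | hq <;>
      simp [hw, hq] at hD ⊢ <;> simp [hD]

theorem deleted {m : ℕ} (hD : Del I del u n m) :
    (par I u m = 1 ∧ par I u (m + 1) = 1 ∧ ¬ I (u m)) ∨
      (par I u m = 0 ∧ par I u (m + 1) = 1 ∧ I (u m) ∧ (u m).fl.d = del) ∨
      (par I u m = 1 ∧ par I u (m + 1) = 0 ∧ I (u m) ∧ (u m).d = del) := by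
  rw [par_succ]
  obtain ⟨-, -, ⟨h1, h2⟩ | ⟨h1, ⟨h2, h3⟩ | ⟨h2, h3⟩⟩⟩ := hD
  · simp [h1, h2, ind]
  · cases del <;> simpa [h1, h2, ind, Dart.fl] using h3
  · simp [h1, h2, h3, ind, zadd]

theorem mm_of_adj (hI : ∀ a, I a.fl ↔ I a) (h0 : ¬ I (u 0)) (hn : ¬ I (u n))
    (hp : par I u n = 0) {i j : ℕ} (hA : Adj (Del I del u n) n i j) :
    MM I del (ch u i j fun t => 1 + par I u (t + 1)) (ch u i j fun t => par I u (t + 1))
      (u i) (u j).fl := by
  obtain ⟨hij, hj, hi', hj', hmid⟩ := hA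
  intro g0 g1 g e1 e2 e3
  obtain ⟨F, hF⟩ : ∃ F : ℕ → Dart ℕ → ZMod 2,
      ∀ t a, F t a = (1 + par I u (t + 1)) * g0 a + par I u (t + 1) * g1 a := ⟨_, fun _ _ => rfl⟩
  have F0 : ∀ t a, par I u (t + 1) = 0 → F t a = g0 a := fun t a h => by simp [hF, h]
  have F1 : ∀ t a, par I u (t + 1) = 1 → F t a = g1 a := fun t a h => by simp [hF, h, zadd]
  have hs : ch u i j (fun t => 1 + par I u (t + 1)) g0 + ch u i j (fun t => par I u (t + 1)) g1 =
      ∑ t ∈ Ico i j, (F t (u t) + F t (u (t + 1)).fl) := by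
    rw [ch_apply, ch_apply, ← sum_add_distrib]
    refine sum_congr rfl fun t _ => ?_
    simp only [hF]
    ring
  have key : ∀ t, i ≤ t → t < j →
      ∑ s ∈ Ico i t, (F s (u s) + F s (u (s + 1)).fl) + F t (u t) = g (u i) := by
    intro t ht
    induction t, ht using Nat.le_induction with
    | base =>
      intro _
      rw [Ico_self, sum_empty, zero_add]
      rcases kept_start h0 (by omega) hi' with ⟨a1, a2⟩ | ⟨a1, a2, a3⟩
      · rw [F0 _ _ a1, e3 _ a2]
      · rw [F1 _ _ a1, (e2 _ a2 a3).2]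
    | succ t ht ih =>
      intro h2
      rw [sum_Ico_succ_top ht, ← add_assoc _ (F t (u t)), ih (by omega), add_assoc]
      have : F t (u (t + 1)).fl + F (t + 1) (u (t + 1)) = 0 := by
        rcases deleted (hmid (t + 1) (by omega) h2) with
          ⟨a1, a2, a3⟩ | ⟨a1, a2, a3, a4⟩ | ⟨a1, a2, a3, a4⟩
        · rw [F1 _ _ a1, F1 _ _ a2, e1 _ a3, zadd]
        · rw [F0 _ _ a1, F1 _ _ a2, (e2 _ ((hI _).2 a3) a4).1, fl_fl, zadd]
        · rw [F1 _ _ a1, F0 _ _ a2, (e2 _ a3 a4).1, zadd]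
      rw [this, add_zero]
  obtain ⟨t, rfl⟩ : ∃ t, j = t + 1 := ⟨j - 1, by omega⟩
  rw [hs, sum_Ico_succ_top (by omega), ← add_assoc, key t (by omega) (by omega)]
  congr 1
  rcases kept_end hI hn hp (by omega) hj hj' with ⟨a1, a2⟩ | ⟨a1, a2, a3⟩
  · rw [F0 _ _ a1, e3 _ a2]
  · rw [F1 _ _ a1, (e2 _ a2 a3).2]

theorem al_of_adj (hI : ∀ a, I a.fl ↔ I a) (h0 : ¬ I (u 0)) (hn : ¬ I (u n))
    (hp : par I u n = 0) {i j : ℕ} (hA : Adj (Del I del u n) n i j) (R : Side → Side → Prop)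
    (hs : ∀ s t, R s t → R t s) (ht : ∀ s t v, R s t → R t v → R s v)
    (hR : ∀ m < n, R (u m).side (u (m + 1)).fl.side) (s0 : Side)
    (hs0 : ∀ a, I a → a.d = del → a.side = s0) : R (u i).side (u j).fl.side := by
  obtain ⟨hij, hj, hi', hj', hmid⟩ := hA
  have hne : (0 : ZMod 2) ≠ 1 := by decide
  have key : ∀ t, i ≤ t → t < j → (par I u (t + 1) = 0 → R (u i).side (u t).side) ∧
      (par I u (t + 1) = 1 → R (u i).side s0) := by
    intro t h1
    induction t, h1 using Nat.le_induction with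
    | base =>
      intro _
      have hr : R (u i).side (u i).side := ht _ _ _ (hR i (by omega)) (hs _ _ (hR i (by omega)))
      refine ⟨fun _ => hr, fun h => ?_⟩
      rcases kept_start h0 (by omega) hi' with ⟨a1, -⟩ | ⟨-, a2, a3⟩
      · exact absurd (a1.symm.trans h) hne
      · rwa [← hs0 _ a2 a3]
    | succ t h1 ih =>
      intro h2
      obtain ⟨b0, b1⟩ := ih (by omega)
      rcases deleted (hmid (t + 1) (by omega) h2) with
        ⟨a1, a2, a3⟩ | ⟨a1, a2, a3, a4⟩ | ⟨a1, a2, a3, a4⟩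
      · exact ⟨fun h => absurd (h.symm.trans a2) hne, fun _ => b1 a1⟩
      · refine ⟨fun h => absurd (h.symm.trans a2) hne, fun _ => ?_⟩
        rw [← hs0 _ ((hI _).2 a3) a4]
        exact ht _ _ _ (b0 a1) (hR t (by omega))
      · refine ⟨fun _ => ?_, fun h => absurd (a2.symm.trans h) hne⟩
        rw [hs0 _ a3 a4]
        exact b1 a1
  obtain ⟨t, rfl⟩ : ∃ t, j = t + 1 := ⟨j - 1, by omega⟩
  obtain ⟨b0, b1⟩ := key t (by omega) (by omega)
  rcases kept_end hI hn hp (by omega) hj hj' with ⟨a1, -⟩ | ⟨a1, a2, a3⟩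
  · exact ht _ _ _ (b0 a1) (hR t (by omega))
  · rw [hs0 _ a2 a3]
    exact b1 a1

end

/-- The window lemma. -/
theorem Mini.window {P : Par ι} (hP : P.OK) {N : ι → ℕ} {o : ι → ℕ → Dart ℕ} (h : IsDraw P N o)
    (hM : Mini P N o) (k q h1 h2 : ℕ) (hq : q % 2 = 0)
    (hp : ∀ e, P.act e → par (Win k q h1 h2) (o e) (N e) = 0) (e : ι) (he : P.act e) (m : ℕ)
    (hm0 : 0 < m) (hm : m < N e) (hw : Win k q h1 h2 (o e m)) : False := by
  have hI : ∀ a, Win k q h1 h2 a.fl ↔ Win k q h1 h2 a := fun a => Iff.rfl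
  have h0 : ∀ f, P.act f → ¬ Win k q h1 h2 (o f 0) := by
    intro f hf hw
    have a1 := hP.st_odd f hf
    rw [← h.st f hf] at a1
    have a2 := hw.2.1
    simp only [Dart.side] at a1
    omega
  have hn : ∀ f, P.act f → ¬ Win k q h1 h2 (o f (N f)) := by
    intro f hf hw
    have a1 := hP.en_odd f hf
    rw [← h.en f hf] at a1
    have a2 := hw.2.1
    simp only [Dart.side, Dart.fl] at a1
    omega
  obtain ⟨del, hdel⟩ : ∃ del, Del (Win k q h1 h2) del (o e) (N e) m := by
    rcases zcases (par (Win k q h1 h2) (o e) m) with a | a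
    · exact ⟨!(o e m).d, hm0, hm, Or.inr ⟨hw, Or.inl ⟨a, by simp⟩⟩⟩
    · exact ⟨(o e m).d, hm0, hm, Or.inr ⟨hw, Or.inr ⟨a, rfl⟩⟩⟩
  refine hM (fun f => Del (Win k q h1 h2) del (o f) (N f)) (fun f t ht => ⟨ht.1, ht.2.1⟩)
    (fun f hf i j hA => ?_) (fun f g hfg i j i' j' hA hA' => ?_) e m he hdel
  · refine al_of_adj hI (h0 f hf) (hn f hf) (hp f hf) hA (P.al f) (hP.al_symm f) (hP.al_trans f)
      (h.al f hf) (k, q, del) fun a ha hd => ?_
    simp [Dart.side, ha.1, ha.2.1, hd]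
  · have hf := hP.dc_act _ _ hfg
    have hg := hP.dc_act _ _ (hP.dc_symm _ _ hfg)
    have hnc : ∀ t < j, ∀ t' < j', NC (o f t) (o f (t + 1)).fl (o g t') (o g (t' + 1)).fl :=
      fun t ht t' ht' => h.nc f g hfg t (ht.trans_le hA.2.1) t' (ht'.trans_le hA'.2.1)
    exact window_alg (mm_of_adj hI (h0 f hf) (hn f hf) (hp f hf) hA)
      (mm_of_adj hI (h0 g hg) (hn g hg) (hp g hg) hA') (ch_fub _ _ _ _) (ch_fub _ _ _ _)
      (ch_one _ _ _ _) (ch_one _ _ _ _) (ch_nc _ _ _ _ _ _ _ _ hnc) (ch_nc _ _ _ _ _ _ _ _ hnc)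

end Pool.Agent.Lib.MP_02e8f2_lc
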