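import Pool.Agent.Lib.MP_02e8f2_lc.SLP

/-!
List lemmas and order lemmas for darts used in the passage from drawings to words.
-/

set_option autoImplicit false

namespace Pool.Agent.Lib.MP_02e8f2_lc

section Lists

variable {α : Type}

theorem eq_of_sorted (κ : α → ℤ) {l₁ l₂ : List α} (h₁ : l₁.Pairwise fun a b => κ a < κ b)
    (h₂ : l₂.Pairwise fun a b => κ a < κ b) (hm : ∀ a, a ∈ l₁ ↔ a ∈ l₂) : l₁ = l₂ := by
  have n₁ : l₁.Nodup := h₁.imp fun {a b} h hab => by rw [hab] at h; exact lt_irrefl _ h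
  have n₂ : l₂.Nodup := h₂.imp fun {a b} h hab => by rw [hab] at h; exact lt_irrefl _ h
  exact List.Perm.eq_of_pairwise (fun a b _ _ h h' => absurd h (not_lt.2 h'.le)) h₁ h₂
    ((List.perm_ext_iff_of_nodup n₁ n₂).2 hm)

/-- The members of a finite set, sorted by a key. -/
noncomputable def srt (κ : α → ℤ) (s : Finset α) : List α :=
  s.toList.mergeSort fun a b => decide (κ a ≤ κ b)

theorem mem_srt (κ : α → ℤ) (s : Finset α) (a : α) : a ∈ srt κ s ↔ a ∈ s := by
  simp [srt]

theorem nodup_srt (κ : α → ℤ) (s : Finset α) : (srt κ s).Nodup :=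
  (List.mergeSort_perm _ _).nodup_iff.2 s.nodup_toList

theorem pairwise_srt (κ : α → ℤ) (s : Finset α) (h : ∀ a ∈ s, ∀ b ∈ s, κ a = κ b → a = b) :
    (srt κ s).Pairwise fun a b => κ a < κ b := by
  have h1 : (srt κ s).Pairwise fun a b => decide (κ a ≤ κ b) = true :=
    List.pairwise_mergeSort (le := fun a b => decide (κ a ≤ κ b))
      (fun a b c hab hbc => by simp only [decide_eq_true_eq] at *; omega)
      (fun a b => by simp only [Bool.or_eq_true, decide_eq_true_eq]; omega) _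
  refine List.Pairwise.imp_of_mem (fun {a b} ha hb hab => ?_) (h1.and (nodup_srt κ s))
  exact lt_of_le_of_ne (by simpa using hab.1)
    fun hk => hab.2 (h a ((mem_srt κ s a).1 ha) b ((mem_srt κ s b).1 hb) hk)

theorem factor_flatten (Ls : List (List α)) (J : List α) (h : J <:+: Ls.flatten) :
    (∃ t ≤ Ls.length, ∃ J₁ J₂, J = J₁ ++ J₂ ∧ J₁ <:+ (Ls.take t).flatten ∧
      J₂ <+: (Ls.drop t).flatten) ∨ ∃ l ∈ Ls, J <:+: l := by
  induction Ls with
  | nil => exact Or.inl ⟨0, le_rfl, [], [], by simpa using h, by simp, by simp⟩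
  | cons l Ls ih =>
    rw [List.flatten_cons, List.infix_append_iff] at h
    rcases h with h | h | ⟨J₁, J₂, h1, h2, h3⟩
    · exact Or.inr ⟨l, by simp, h⟩
    · rcases ih h with ⟨t, ht, J₁, J₂, h1, h2, h3⟩ | ⟨l', hl', h1⟩
      · refine Or.inl ⟨t + 1, by simpa using ht, J₁, J₂, h1, ?_, by simpa using h3⟩
        rw [List.take_succ_cons, List.flatten_cons]
        exact h2.trans (List.suffix_append _ _)
      · exact Or.inr ⟨l', by simp [hl'], h1⟩
    · exact Or.inl ⟨1, by simp, J₁, J₂, h1, by simpa using h2, by simpa using h3⟩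

theorem exists_factor_of_map {β : Type} (g : α → β) (l : List α) (J : List β)
    (h : J <:+: l.map g) : ∃ J', J' <:+: l ∧ J = J'.map g := by
  obtain ⟨s, t, h⟩ := h
  obtain ⟨l₁, l₂, h1, h2, -⟩ := List.map_eq_append_iff.1 h.symm
  obtain ⟨l₃, l₄, h3, -, h4⟩ := List.map_eq_append_iff.1 h2
  exact ⟨l₄, ⟨l₃, l₂, by rw [h1, h3]⟩, h4.symm⟩

end Lists

/-- The key of a dart: the order round the cell on its side. -/
def kap (x : Dart ℕ) : ℤ := if x.d then (x.h : ℤ) else -(x.h : ℤ)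

theorem kap_fl (x : Dart ℕ) : kap x.fl = -kap x := by
  rcases x with ⟨k, q, h, _ | _⟩ <;> simp [kap, Dart.fl]

theorem fl_fl1 {Y : Type} (x : Dart Y) : x.fl.fl = x := by
  rcases x with ⟨k, q, h, d⟩
  simp [Dart.fl]

theorem NC.swap_left {a b z w : Dart ℕ} (h : NC a b z w) : NC b a z w := by
  unfold NC at *
  tauto

theorem NC.swap_right {a b z w : Dart ℕ} (h : NC a b z w) : NC a b w z := Iff.symm h

theorem side_eq_iff {S c i : ℕ} (x : Dart ℕ) : x.side = sideOf S c i ↔
    (i < S ∧ x.k = c ∧ x.q = i ∧ x.d = true) ∨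
      (S ≤ i ∧ x.k = c + 1 ∧ x.q = 2 * S - 1 - i ∧ x.d = false) := by
  unfold sideOf Dart.side
  split_ifs with h
  · simp [h, Prod.ext_iff]
  · simp [h, Prod.ext_iff]
    omega

theorem pt_lt1 {M i t : ℕ} (hi : i < M) (ht : t < M) : pt M i t < M := by
  unfold pt
  split_ifs <;> omega

theorem exists_pt {M i i' : ℕ} (hi : i < M) (hi' : i' < M) : ∃ t < M, pt M i t = i' := by
  by_cases h : i' < i
  · exact ⟨i - 1 - i', by omega, by unfold pt; split_ifs <;> omega⟩
  · exact ⟨i + M - 1 - i', by omega, by unfold pt; split_ifs <;> omega⟩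

theorem sideOf_inj1 {S c i i' : ℕ} (hi : i < 2 * S) (hi' : i' < 2 * S)
    (h : sideOf S c i = sideOf S c i') : i = i' := by
  unfold sideOf at h
  split_ifs at h <;> simp [Prod.ext_iff] at h <;> omega

theorem cl_sideOf1 (S c i : ℕ) : cl (sideOf S c i) = c + 1 := by
  unfold sideOf
  split_ifs <;> rfl

theorem exists_sideOf {S : ℕ} {s : Side} (h1 : 1 ≤ cl s) (h2 : s.2.1 < S) :
    ∃ i < 2 * S, s = sideOf S (cl s - 1) i := by
  rcases s with ⟨k, q, _ | _⟩
  · refine ⟨2 * S - 1 - q, by omega, ?_⟩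
    simp only [cl, clk, cond_false] at h1 h2 ⊢
    unfold sideOf
    rw [if_neg (by omega)]
    simp only [Prod.mk.injEq, and_true]
    omega
  · exact ⟨q, by simp only at h2; omega, by simp only at h2; simp [cl, clk, sideOf, h2]⟩

theorem bl_iff {S c i j : ℕ} {x z : Dart ℕ} (hi : i < 2 * S) (hj : j < 2 * S)
    (hx : x.side = sideOf S c i) (hz : z.side = sideOf S c j) : Bl x z ↔
      (i < S ∧ j < S ∧ i < j) ∨ (S ≤ i ∧ S ≤ j ∧ j < i) ∨ (i = j ∧ x.h < z.h) := by
  rw [side_eq_iff] at hx hz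
  unfold Bl
  rcases hx with ⟨_, _, _, hx⟩ | ⟨_, _, _, hx⟩ <;> rcases hz with ⟨_, _, _, hz⟩ | ⟨_, _, _, hz⟩ <;>
    simp only [hx, hz, Bool.false_eq_true, Bool.true_eq_false, true_and, false_and, and_false,
      false_iff] <;> omega

theorem kap_eq {S c i : ℕ} {x : Dart ℕ} (hx : x.side = sideOf S c i) :
    (i < S ∧ kap x = x.h) ∨ (S ≤ i ∧ kap x = -(x.h : ℤ)) := by
  rw [side_eq_iff] at hx
  rcases hx with ⟨_, _, _, hx⟩ | ⟨_, _, _, hx⟩ <;> simp [kap, *]

theorem bl_same {S c i : ℕ} {x z : Dart ℕ} (hi : i < 2 * S)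
    (hx : x.side = sideOf S c i) (hz : z.side = sideOf S c i) : Bl x z ↔ x.h < z.h := by
  rw [bl_iff hi hi hx hz]
  omega

/-- `Bl` for different side numbers. -/
def Rb (S i j : ℕ) : Prop := (i < j ∧ j < S) ∨ (S ≤ j ∧ j < i)

theorem bl_ne {S c i j : ℕ} {x z : Dart ℕ} (hi : i < 2 * S) (hj : j < 2 * S) (hij : i ≠ j)
    (hx : x.side = sideOf S c i) (hz : z.side = sideOf S c j) : Bl x z ↔ Rb S i j := by
  rw [bl_iff hi hj hx hz]
  unfold Rb
  omega

theorem order_blocks {S c i t t' : ℕ} {x y z w : Dart ℕ} (hi : i < 2 * S) (htt : t < t')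
    (ht' : t' < 2 * S) (hx : x.side = sideOf S c i) (hz : z.side = sideOf S c i)
    (hy : y.side = sideOf S c (pt (2 * S) i t)) (hw : w.side = sideOf S c (pt (2 * S) i t'))
    (hwi : pt (2 * S) i t' ≠ i) (hne : kap x ≠ kap z) (h : NC x y z w) : kap x < kap z := by
  have h1 := pt_lt1 hi (htt.trans ht')
  have h2 := pt_lt1 hi ht'
  have h3 : (pt (2 * S) i t' < pt (2 * S) i t ∧ pt (2 * S) i t < i) ∨
      (pt (2 * S) i t < i ∧ i < pt (2 * S) i t') ∨
      (i < pt (2 * S) i t' ∧ pt (2 * S) i t' < pt (2 * S) i t) := by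
    unfold pt at *
    split_ifs at * <;> omega
  generalize pt (2 * S) i t = i₁ at *
  generalize pt (2 * S) i t' = i₂ at *
  unfold NC at h
  rw [bl_same hi hx hz, bl_ne h1 hi (by omega) hy hz, bl_ne hi h2 (by omega) hx hw,
    bl_ne h1 h2 (by omega) hy hw] at h
  have h5 := kap_eq hx
  have h6 := kap_eq hz
  by_cases a : Rb S i₁ i <;> by_cases b : Rb S i i₂ <;> by_cases d : Rb S i₁ i₂ <;>
    simp only [a, b, d, iff_true, iff_false, not_true,
      not_not] at h <;> unfold Rb at a b d <;> omega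

theorem order_block {S c i i' : ℕ} {x y z w : Dart ℕ} (hi : i < 2 * S) (hi' : i' < 2 * S)
    (hii : i ≠ i') (hx : x.side = sideOf S c i) (hz : z.side = sideOf S c i)
    (hy : y.side = sideOf S c i') (hw : w.side = sideOf S c i') (hne : kap w ≠ kap y)
    (hlt : kap x < kap z) (h : NC x y z w) : kap w < kap y := by
  unfold NC at h
  rw [bl_same hi hx hz, bl_ne hi' hi hii.symm hy hz, bl_ne hi hi' hii hx hw,
    bl_same hi' hy hw] at h
  have h5 := kap_eq hx
  have h6 := kap_eq hz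
  have h7 := kap_eq hy
  have h8 := kap_eq hw
  by_cases a : Rb S i' i <;> by_cases b : Rb S i i' <;> by_cases d : x.h < z.h <;>
    simp only [a, b, d, iff_true, iff_false, true_iff, false_iff, not_true,
      not_not] at h <;> unfold Rb at a b <;> omega

theorem not_nc_of_cross {S c i j i' j' : ℕ} {x y z w : Dart ℕ} (h1 : i < j) (h2 : j < i')
    (h3 : i' < j') (h4 : j' < 2 * S) (hx : x.side = sideOf S c i) (hy : y.side = sideOf S c i')
    (hz : z.side = sideOf S c j) (hw : w.side = sideOf S c j') : ¬ NC x y z w := by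
  intro h
  unfold NC at h
  rw [bl_ne (by omega) (by omega) (by omega) hx hz, bl_ne (by omega) (by omega) (by omega) hy hz,
    bl_ne (by omega) h4 (by omega) hx hw, bl_ne (by omega) h4 (by omega) hy hw] at h
  by_cases a : Rb S i j <;> by_cases b : Rb S i' j <;> by_cases d : Rb S i j' <;>
    by_cases g : Rb S i' j' <;>
    simp only [a, b, d, g, iff_true, iff_false, not_true] at h <;>
    unfold Rb at a b d g <;> omega

end Pool.Agent.Lib.MP_02e8f2_lc
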