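import Pool.Agent.Lib.MP_02e8f2_lc.W1A

/-!
Names of darts of a pair of strings and the sorted lists of names.
-/

set_option autoImplicit false

namespace Pool.Agent.Lib.MP_02e8f2_lc

/-- String (`true` = first), chord number, end of the chord (`true` = outgoing dart). -/
abbrev Nm : Type := Bool × ℕ × Bool

/-- The other end of the chord. -/
def io (a : Nm) : Nm := (a.1, a.2.1, !a.2.2)

/-- The other dart at the same vertex. -/
def ga (a : Nm) : Nm := cond a.2.2 (a.1, a.2.1 - 1, false) (a.1, a.2.1 + 1, true)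

/-- The vertex of a name. -/
def vx (a : Nm) : ℕ := cond a.2.2 a.2.1 (a.2.1 + 1)

theorem io_io (a : Nm) : io (io a) = a := by simp [io]

theorem io_fst (a : Nm) : (io a).1 = a.1 := rfl

theorem ga_fst (a : Nm) : (ga a).1 = a.1 := by
  rcases a with ⟨b, j, _ | _⟩ <;> rfl

variable {ι : Type}

/-- An end of chord `j` of the string `e`. -/
def dt (o : ι → ℕ → Dart ℕ) (e : ι) (x : ℕ × Bool) : Dart ℕ :=
  cond x.2 (o e x.1) (o e (x.1 + 1)).fl

section Defs

variable (P : Par ι) (N : ι → ℕ) (o : ι → ℕ → Dart ℕ) (e f : ι)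

/-- The dart of a name. -/
def dn (a : Nm) : Dart ℕ := dt o (cond a.1 e f) a.2

/-- Names in use. -/
def Val (a : Nm) : Prop := (a.1 = true ∨ P.dc e f) ∧ a.2.1 < N (cond a.1 e f)

/-- Names in use on a given side. -/
def At (c i : ℕ) (a : Nm) : Prop := Val P N e f a ∧ (dn o e f a).side = sideOf P.S c i

open Classical in
/-- The sorted list of the names with a property. -/
noncomputable def names (p : Nm → Prop) : List Nm :=
  srt (fun a => kap (dn o e f a))
    ((Finset.univ ×ˢ Finset.range (N e + N f) ×ˢ Finset.univ).filter p)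

/-- The names on a side. -/
noncomputable def Lw1 (c i : ℕ) : List Nm := names N o e f (At P N o e f c i)

/-- The names on side `i` of chords leading to side `i'`. -/
noncomputable def Bk (c i i' : ℕ) : List Nm :=
  names N o e f fun a => At P N o e f c i a ∧ At P N o e f c i' (io a)

/-- The blocks of a side. -/
noncomputable def Bks (c i : ℕ) : List (List Nm) :=
  (List.range (2 * P.S)).map fun t => Bk P N o e f c i (pt (2 * P.S) i t)

/-- The standing assumptions. -/
structure Hyp : Prop where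
  ok : P.OK
  dr : IsDraw P N o
  inj : Inj P N o
  ti : Tight P N o
  g : P.G e f

end Defs

variable {P : Par ι} {N : ι → ℕ} {o : ι → ℕ → Dart ℕ} {e f : ι}

theorem mem_names {p : Nm → Prop} (hp : ∀ a, p a → Val P N e f a) (a : Nm) :
    a ∈ names N o e f p ↔ p a := by
  classical
  rw [names, mem_srt, Finset.mem_filter]
  refine ⟨fun h => h.2, fun h => ⟨?_, h⟩⟩
  have := (hp a h).2
  rcases a with ⟨_ | _, j, d⟩ <;> simp at this ⊢ <;> omega

theorem mem_Lw {c i : ℕ} {a : Nm} : a ∈ Lw1 P N o e f c i ↔ At P N o e f c i a :=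
  mem_names (fun _ h => h.1) a

theorem mem_Bk {c i i' : ℕ} {a : Nm} :
    a ∈ Bk P N o e f c i i' ↔ At P N o e f c i a ∧ At P N o e f c i' (io a) :=
  mem_names (fun _ h => h.1.1) a

theorem dn_eq (a : Nm) : dn o e f a =
    cond a.2.2 (o (cond a.1 e f) (vx a)) (o (cond a.1 e f) (vx a)).fl := by
  rcases a with ⟨b, j, _ | _⟩ <;> rfl

theorem dn_k (a : Nm) : (dn o e f a).k = (o (cond a.1 e f) (vx a)).k := by
  rcases a with ⟨b, j, _ | _⟩ <;> rfl

theorem dn_q (a : Nm) : (dn o e f a).q = (o (cond a.1 e f) (vx a)).q := by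
  rcases a with ⟨b, j, _ | _⟩ <;> rfl

theorem dn_h (a : Nm) : (dn o e f a).h = (o (cond a.1 e f) (vx a)).h := by
  rcases a with ⟨b, j, _ | _⟩ <;> rfl

theorem Val.io {a : Nm} (h : Val P N e f a) : Val P N e f (io a) := h

theorem Val.vx_le {a : Nm} (h : Val P N e f a) : vx a ≤ N (cond a.1 e f) := by
  have := h.2
  rcases a with ⟨b, j, _ | _⟩ <;> simp [vx] at this ⊢ <;> omega

theorem side_fl {Y : Type} (x : Dart Y) : x.fl.side = (x.side.1, x.side.2.1, !x.side.2.2) := rfl

namespace Hyp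

variable (C : Hyp P N o e f)
include C

theorem act {a : Nm} (h : Val P N e f a) : P.act (cond a.1 e f) := by
  rcases a with ⟨_ | _, x⟩
  · exact C.ok.dc_act _ _ (C.ok.dc_symm _ _ (by simpa using h.1))
  · exact C.g.1

theorem eq_of_vx {a a' : Nm} (h : Val P N e f a) (h' : Val P N e f a')
    (hs : cond a.1 e f = cond a'.1 e f) (hv : vx a = vx a')
    (hd : (dn o e f a).d = (dn o e f a').d) : a = a' := by
  have hb : a.1 = a'.1 := by
    rcases a with ⟨_ | _, x⟩ <;> rcases a' with ⟨_ | _, x'⟩ <;> try rfl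
    · have h1 : P.dc e f := by simpa using h.1
      have h2 : f = e := hs
      exact absurd (h2 ▸ h1) (C.ok.dc_irr _)
    · have h1 : P.dc e f := by simpa using h'.1
      have h2 : e = f := hs
      exact absurd (h2 ▸ h1) (C.ok.dc_irr _)
  rw [dn_eq, dn_eq, hs, hv] at hd
  rcases a with ⟨b, j, _ | _⟩ <;> rcases a' with ⟨b', j', _ | _⟩ <;>
    simp [vx, Dart.fl] at hb hv hd ⊢ <;> exact ⟨hb, hv⟩

theorem eq_of_kap {c i : ℕ} {a a' : Nm} (h : At P N o e f c i a) (h' : At P N o e f c i a')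
    (hk : kap (dn o e f a) = kap (dn o e f a')) : a = a' := by
  have hd : (dn o e f a).d = (dn o e f a').d := congrArg (·.2.2) (h.2.trans h'.2.symm)
  have hh : (dn o e f a).h = (dn o e f a').h := by
    unfold kap at hk
    rw [hd] at hk
    split_ifs at hk <;> omega
  rw [dn_h, dn_h] at hh
  obtain ⟨h1, h2⟩ := C.inj _ _ (C.act h.1) (C.act h'.1) _ h.1.vx_le _ h'.1.vx_le hh
  exact C.eq_of_vx h.1 h'.1 h1 h2 hd

theorem sorted_names {p : Nm → Prop} {c i : ℕ} (hp : ∀ a, p a → At P N o e f c i a) :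
    (names N o e f p).Pairwise fun a b => kap (dn o e f a) < kap (dn o e f b) := by
  classical
  refine pairwise_srt _ _ fun a ha b hb => ?_
  exact C.eq_of_kap (hp a (Finset.mem_filter.1 ha).2) (hp b (Finset.mem_filter.1 hb).2)

theorem sorted_Lw (c i : ℕ) :
    (Lw1 P N o e f c i).Pairwise fun a b => kap (dn o e f a) < kap (dn o e f b) :=
  C.sorted_names fun _ h => h

theorem sorted_Bk (c i i' : ℕ) :
    (Bk P N o e f c i i').Pairwise fun a b => kap (dn o e f a) < kap (dn o e f b) :=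
  C.sorted_names fun _ h => h.1

theorem al {a : Nm} (h : Val P N e f a) :
    P.al (cond a.1 e f) (dn o e f a).side (dn o e f (io a)).side := by
  have h1 := C.dr.al _ (C.act h) _ h.2
  rcases a with ⟨b, j, _ | _⟩
  · exact C.ok.al_symm _ _ _ h1
  · exact h1

theorem norm {a : Nm} (h : Val P N e f a) : (dn o e f a).side ≠ (dn o e f (io a)).side := by
  have h1 := C.ti.norm _ (C.act h) _ h.2
  rcases a with ⟨b, j, _ | _⟩
  · exact h1.symm
  · exact h1

theorem nc {a a' : Nm} (h : Val P N e f a) (h' : Val P N e f a') (h1 : a ≠ a') (h2 : a ≠ io a') :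
    NC (dn o e f a) (dn o e f (io a)) (dn o e f a') (dn o e f (io a')) := by
  have key : NC (o (cond a.1 e f) a.2.1) (o (cond a.1 e f) (a.2.1 + 1)).fl
      (o (cond a'.1 e f) a'.2.1) (o (cond a'.1 e f) (a'.2.1 + 1)).fl := by
    have hj : a.1 = a'.1 → a.2.1 ≠ a'.2.1 := by
      rcases a with ⟨b, j, _ | _⟩ <;> rcases a' with ⟨b', j', _ | _⟩ <;>
        simp [io] at h1 h2 ⊢ <;> assumption
    have ha := C.act h
    rcases a with ⟨_ | _, x⟩ <;> rcases a' with ⟨_ | _, x'⟩
    · exact C.ti.simple _ ha _ h.2 _ h'.2 (hj rfl)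
    · exact C.dr.nc _ _ (C.ok.dc_symm _ _ (by simpa using h.1)) _ h.2 _ h'.2
    · exact C.dr.nc _ _ (by simpa using h'.1) _ h.2 _ h'.2
    · exact C.ti.simple _ ha _ h.2 _ h'.2 (hj rfl)
  rcases a with ⟨b, j, _ | _⟩ <;> rcases a' with ⟨b', j', _ | _⟩
  · exact key.swap_left.swap_right
  · exact key.swap_left
  · exact key.swap_right
  · exact key

theorem exists_at {a : Nm} (h : Val P N e f a) : ∃ c < P.K, ∃ i < 2 * P.S, At P N o e f c i a := by
  obtain ⟨h1, h2, h3⟩ := (C.ok.al_cl _ _ _ (C.al h)).2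
  obtain ⟨i, hi, h4⟩ := exists_sideOf h1 h3
  exact ⟨_, by omega, i, hi, h, h4⟩

theorem exists_partner {c i : ℕ} {a : Nm} (h : At P N o e f c i a) :
    ∃ i' < 2 * P.S, At P N o e f c i' (io a) := by
  have h0 := (C.ok.al_cl _ _ _ (C.al h.1)).1
  obtain ⟨h1, h2, h3⟩ := (C.ok.al_cl _ _ _ (C.al h.1.io)).2
  obtain ⟨i', hi, h4⟩ := exists_sideOf h1 h3
  rw [← h0, h.2, cl_sideOf1, Nat.add_sub_cancel] at h4
  exact ⟨i', hi, h.1.io, h4⟩

theorem Bk_self (c i : ℕ) : Bk P N o e f c i i = [] := by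
  refine List.eq_nil_iff_forall_not_mem.2 fun a ha => ?_
  rw [mem_Bk] at ha
  exact C.norm ha.1.1 (ha.1.2.trans ha.2.2.symm)

theorem flatten_Bks {c i : ℕ} (hi : i < 2 * P.S) :
    (Bks P N o e f c i).flatten = Lw1 P N o e f c i := by
  refine eq_of_sorted (fun a => kap (dn o e f a)) ?_ (C.sorted_Lw c i) fun a => ?_
  · rw [List.pairwise_flatten]
    refine ⟨fun l hl => ?_, ?_⟩
    · obtain ⟨t, -, rfl⟩ := List.mem_map.1 hl
      exact C.sorted_Bk _ _ _
    · rw [Bks, List.pairwise_map]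
      refine List.Pairwise.imp_of_mem (fun {t t'} ht ht' htt a ha a' ha' => ?_)
        (List.pairwise_lt_range (n := 2 * P.S))
      rw [List.mem_range] at ht ht'
      rw [mem_Bk] at ha ha'
      have hwi : pt (2 * P.S) i t' ≠ i := fun h =>
        C.norm ha'.1.1 (by rw [ha'.1.2, ha'.2.2, h])
      have hne : a ≠ a' := by
        rintro rfl
        have h1 := sideOf_inj1 (pt_lt1 hi ht) (pt_lt1 hi ht') (ha.2.2.symm.trans ha'.2.2)
        unfold pt at h1
        split_ifs at h1 <;> omega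
      have hne' : a ≠ io a' := by
        rintro rfl
        exact hwi (sideOf_inj1 (pt_lt1 hi ht') hi (ha'.2.2.symm.trans ha.1.2))
      exact order_blocks hi htt ht' ha.1.2 ha'.1.2 ha.2.2 ha'.2.2 hwi
        (fun h => hne (C.eq_of_kap ha.1 ha'.1 h)) (C.nc ha.1.1 ha'.1.1 hne hne')
  · simp only [Bks, List.mem_flatten, List.mem_map, List.mem_range, mem_Lw]
    constructor
    · rintro ⟨l, ⟨t, -, rfl⟩, h⟩
      exact (mem_Bk.1 h).1
    · intro h
      obtain ⟨i', hi', h'⟩ := C.exists_partner h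
      obtain ⟨t, ht, rfl⟩ := exists_pt hi hi'
      exact ⟨_, ⟨t, ht, rfl⟩, mem_Bk.2 ⟨h, h'⟩⟩

theorem Bk_rev {c i i' : ℕ} (hi : i < 2 * P.S) (hi' : i' < 2 * P.S) :
    Bk P N o e f c i' i = ((Bk P N o e f c i i').map io).reverse := by
  refine eq_of_sorted (fun a => kap (dn o e f a)) (C.sorted_Bk _ _ _) ?_ fun a => ?_
  · rw [List.pairwise_reverse, List.pairwise_map]
    refine List.Pairwise.imp_of_mem (fun {a a'} ha ha' hlt => ?_) (C.sorted_Bk c i i')
    rw [mem_Bk] at ha ha'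
    have hii : i ≠ i' := fun h => C.norm ha.1.1 (by rw [ha.1.2, ha.2.2, h])
    have hne : a ≠ a' := by
      rintro rfl
      exact lt_irrefl _ hlt
    have hne' : a ≠ io a' := by
      rintro rfl
      exact hii (sideOf_inj1 hi hi' (ha.1.2.symm.trans ha'.2.2))
    refine order_block hi hi' hii ha.1.2 ha'.1.2 ha.2.2 ha'.2.2 (fun h => hne ?_) hlt
      (C.nc ha.1.1 ha'.1.1 hne hne')
    rw [← io_io a, ← C.eq_of_kap ha'.2 ha.2 h, io_io]
  · simp only [List.mem_reverse, List.mem_map, mem_Bk]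
    constructor
    · intro h
      exact ⟨io a, ⟨h.2, by rw [io_io]; exact h.1⟩, io_io a⟩
    · rintro ⟨b, hb, rfl⟩
      exact ⟨hb.2, by rw [io_io]; exact hb.1⟩

theorem interior {a : Nm} (h : Val P N e f a) (hq : (dn o e f a).q % 2 = 0) :
    0 < vx a ∧ vx a < N (cond a.1 e f) := by
  have ha := C.act h
  rw [dn_q] at hq
  constructor
  · refine Nat.pos_of_ne_zero fun h0 => ?_
    have h1 := C.ok.st_odd _ ha
    rw [← C.dr.st _ ha, ← h0] at h1
    exact absurd (hq.symm.trans h1) (by decide)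
  · refine lt_of_le_of_ne h.vx_le fun h0 => ?_
    have h1 := C.ok.en_odd _ ha
    rw [← C.dr.en _ ha, ← h0] at h1
    exact absurd (hq.symm.trans h1) (by decide)

theorem ga_spec {a : Nm} (h : Val P N e f a) (hq : (dn o e f a).q % 2 = 0) :
    Val P N e f (ga a) ∧ dn o e f (ga a) = (dn o e f a).fl ∧ ga (ga a) = a := by
  obtain ⟨h1, h2⟩ := C.interior h hq
  rcases a with ⟨b, j, _ | _⟩
  · exact ⟨⟨h.1, h2⟩, (fl_fl1 _).symm, by simp [ga]⟩
  · have h3 : j - 1 + 1 = j := by
      simp only [vx, cond_true] at h1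
      omega
    refine ⟨⟨h.1, lt_of_le_of_lt (Nat.sub_le _ _) h2⟩, ?_, by simp [ga, h3]⟩
    simp [ga, dn, dt, h3]

theorem Lw_glue {c i c' i' : ℕ} (hq : (sideOf P.S c i).2.1 % 2 = 0)
    (hs : sideOf P.S c' i' = ((sideOf P.S c i).1, (sideOf P.S c i).2.1, !(sideOf P.S c i).2.2)) :
    Lw1 P N o e f c' i' = ((Lw1 P N o e f c i).map ga).reverse := by
  have hq1 : ∀ a, At P N o e f c i a → (dn o e f a).q % 2 = 0 := fun a ha => by
    rw [← ha.2] at hq
    exact hq
  refine eq_of_sorted (fun a => kap (dn o e f a)) (C.sorted_Lw _ _) ?_ fun a => ?_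
  · rw [List.pairwise_reverse, List.pairwise_map]
    refine List.Pairwise.imp_of_mem (fun {a a'} ha ha' hlt => ?_) (C.sorted_Lw c i)
    rw [mem_Lw] at ha ha'
    rw [(C.ga_spec ha.1 (hq1 a ha)).2.1, (C.ga_spec ha'.1 (hq1 a' ha')).2.1, kap_fl, kap_fl]
    omega
  · simp only [List.mem_reverse, List.mem_map, mem_Lw]
    constructor
    · intro h
      have hq2 : (dn o e f a).q % 2 = 0 := by
        have : (dn o e f a).q = (sideOf P.S c i).2.1 := congrArg (·.2.1) (h.2.trans hs)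
        rw [this, hq]
      obtain ⟨h1, h2, h3⟩ := C.ga_spec h.1 hq2
      refine ⟨ga a, ⟨h1, ?_⟩, h3⟩
      rw [h2, side_fl, h.2, hs]
      simp
    · rintro ⟨b, hb, rfl⟩
      obtain ⟨h1, h2, -⟩ := C.ga_spec hb.1 (hq1 b hb)
      exact ⟨h1, by rw [h2, side_fl, hb.2, hs]⟩

theorem Lw_zero {q : ℕ} (hq : q < P.S) (h2 : q % 2 = 0) : Lw1 P N o e f 0 q = [] := by
  refine List.eq_nil_iff_forall_not_mem.2 fun a ha => ?_
  rw [mem_Lw] at ha
  have h1 : (dn o e f a).side = (0, q, true) := by rw [ha.2, sideOf, if_pos hq]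
  have h3 : (dn o e f a).q = q := congrArg (·.2.1) h1
  obtain ⟨h4, h5, -⟩ := C.ga_spec ha.1 (by rw [h3, h2])
  have h6 := (C.ok.al_cl _ _ _ (C.al h4)).2.1
  rw [h5, side_fl, h1] at h6
  simp [cl, clk] at h6

theorem odd_end {a : Nm} (h : Val P N e f a) (hq : (dn o e f a).q % 2 = 1) :
    (a.2 = (0, true) ∧ (dn o e f a).side = P.st (cond a.1 e f)) ∨
      (a.2 = (N (cond a.1 e f) - 1, false) ∧ (dn o e f a).side = P.en (cond a.1 e f)) := by
  have ha := C.act h
  have h1 : ¬ (0 < vx a ∧ vx a < N (cond a.1 e f)) := fun h1 => by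
    have := C.dr.gap _ ha _ h1.1 h1.2
    rw [dn_q] at hq
    omega
  have h2 := h.2
  rcases a with ⟨b, j, _ | _⟩
  · simp only [vx, cond_false] at h1 h2
    have h3 : j + 1 = N (cond b e f) := by omega
    refine Or.inr ⟨by simp [← h3], ?_⟩
    rw [← C.dr.en _ ha, ← h3]
    rfl
  · simp only [vx, cond_true] at h1 h2
    have h3 : j = 0 := by omega
    subst h3
    exact Or.inl ⟨rfl, C.dr.st _ ha⟩

theorem odd_unique {c i : ℕ} (hq : (sideOf P.S c i).2.1 % 2 = 1) {a a' : Nm}
    (h : At P N o e f c i a) (h' : At P N o e f c i a') : a = a' := by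
  have e1 := C.odd_end h.1 (by rw [← h.2] at hq; exact hq)
  have e2 := C.odd_end h'.1 (by rw [← h'.2] at hq; exact hq)
  rw [h.2] at e1
  rw [h'.2] at e2
  have hb : a.1 = a'.1 := by
    by_contra hb
    have hdc : P.dc (cond a.1 e f) (cond a'.1 e f) := by
      rcases a with ⟨_ | _, x⟩ <;> rcases a' with ⟨_ | _, x'⟩
      · exact absurd rfl hb
      · exact C.ok.dc_symm _ _ (by simpa using h.1.1)
      · simpa using h'.1.1
      · exact absurd rfl hb
    exact C.ok.ends _ _ hdc (sideOf P.S c i) (sideOf P.S c i) (e1.imp And.right And.right)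
      (e2.imp And.right And.right) ⟨rfl, rfl⟩
  have hse := C.ok.st_en _ (C.act h.1)
  rw [← hb] at e2
  rcases e1 with e1 | e1 <;> rcases e2 with e2 | e2
  · exact Prod.ext hb (e1.1.trans e2.1.symm)
  · exact absurd (by rw [← e1.2, ← e2.2]; exact ⟨rfl, rfl⟩) hse
  · exact absurd (by rw [← e1.2, ← e2.2]; exact ⟨rfl, rfl⟩) hse
  · exact Prod.ext hb (e1.1.trans e2.1.symm)

theorem length_odd {c i : ℕ} (hq : (sideOf P.S c i).2.1 % 2 = 1) :
    (Lw1 P N o e f c i).length ≤ 1 := by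
  have hs := C.sorted_Lw c i
  match hl : Lw1 P N o e f c i with
  | [] => simp
  | [_] => simp
  | a :: a' :: l =>
    rw [hl] at hs
    have h1 := C.odd_unique hq (mem_Lw.1 (by rw [hl]; simp : a ∈ _))
      (mem_Lw.1 (by rw [hl]; simp : a' ∈ _))
    have h2 := List.rel_of_pairwise_cons hs (by simp : a' ∈ a' :: l)
    rw [h1] at h2
    exact absurd h2 (lt_irrefl _)

theorem length_le (c i : ℕ) : (Lw1 P N o e f c i).length ≤ 2 ^ P.SS.length := by
  classical
  rcases Nat.mod_two_eq_zero_or_one (sideOf P.S c i).2.1 with hq | hq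
  · have hn : (Lw1 P N o e f c i).Nodup := nodup_srt _ _
    rw [← List.toFinset_card_of_nodup hn, ← Finset.card_image_of_injOn
      (f := fun a : Nm => (cond a.1 e f, vx a))]
    · refine (C.ti.bound (sideOf P.S c i).1 (sideOf P.S c i).2.1 _ fun x hx => ?_).le
      obtain ⟨a, ha, rfl⟩ := Finset.mem_image.1 hx
      have ha' := mem_Lw.1 (List.mem_toFinset.1 ha)
      have h1 := C.interior ha'.1 (by rw [← ha'.2] at hq; exact hq)
      refine ⟨C.act ha'.1, h1.1, h1.2, ?_, ?_⟩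
      · rw [← ha'.2, ← dn_k]
        rfl
      · rw [← ha'.2, ← dn_q]
        rfl
    · intro a ha a' ha' h
      have h1 := mem_Lw.1 (List.mem_toFinset.1 ha)
      have h2 := mem_Lw.1 (List.mem_toFinset.1 ha')
      exact C.eq_of_vx h1.1 h2.1 (congrArg Prod.fst h) (congrArg Prod.snd h)
        (congrArg (·.2.2) (h1.2.trans h2.2.symm))
  · exact (C.length_odd hq).trans Nat.one_le_two_pow

end Hyp

end Pool.Agent.Lib.MP_02e8f2_lc
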