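import Pool.Agent.Lib.MP_02e8f2_lc.Comb

/-!
General lemmas for the passage from a word certificate to a drawing.
-/

set_option autoImplicit false

namespace Pool.Agent.Lib.MP_02e8f2_lc.W2

/-- The number of letters `false` before the letter `true` with number `x`. -/
def cb : List Bool → ℕ → ℕ
  | [], _ => 0
  | false :: w, x => cb w x + 1
  | true :: _, 0 => 0
  | true :: w, x + 1 => cb w x

theorem cb_le : ∀ (w : List Bool) (x : ℕ), cb w x ≤ w.count false
  | [], _ => by simp [cb]
  | false :: w, x => by
      have := cb_le w x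
      simp only [cb, List.count_cons_self]
      omega
  | true :: _, 0 => by simp [cb]
  | true :: w, x + 1 => by
      have := cb_le w x
      simpa [cb] using this

theorem cb_append_left : ∀ (u v : List Bool) (x : ℕ), x < u.count true → cb (u ++ v) x = cb u x
  | [], _, _, h => by simp at h
  | false :: w, v, x, h => by
      have := cb_append_left w v x (by simpa using h)
      simp [cb, this]
  | true :: _, _, 0, _ => by simp [cb]
  | true :: w, v, x + 1, h => by
      have := cb_append_left w v x (by simpa using h)
      simp [cb, this]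

theorem cb_append_right : ∀ (u v : List Bool) (x : ℕ),
    cb (u ++ v) (u.count true + x) = u.count false + cb v x
  | [], _, _ => by simp
  | false :: w, v, x => by
      have := cb_append_right w v x
      simp only [List.cons_append, cb, List.count_cons_self]
      rw [List.count_cons_of_ne (by decide), this]
      omega
  | true :: w, v, x => by
      have := cb_append_right w v x
      rw [List.count_cons_self, List.count_cons_of_ne (by decide)]
      rw [show List.count true w + 1 + x = (List.count true w + x) + 1 by omega]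
      simpa [cb] using this

theorem cb_reverse : ∀ (w : List Bool) (x x' : ℕ), x + x' + 1 = w.count true →
    cb w.reverse x' + cb w x = w.count false
  | [], _, _, h => by simp at h
  | false :: w, x, x', h => by
      have h' : x + x' + 1 = w.count true := by simpa using h
      have := cb_reverse w x x' h'
      rw [List.reverse_cons, cb_append_left _ _ _ (by rw [List.count_reverse]; omega)]
      simp only [cb, List.count_cons_self]
      omega
  | true :: w, 0, x', h => by
      have h' : x' = w.reverse.count true + 0 := by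
        rw [List.count_reverse]
        simpa using h
      rw [List.reverse_cons, h', cb_append_right]
      simp [cb]
  | true :: w, x + 1, x', h => by
      have h' : x + x' + 1 = w.count true := by
        rw [List.count_cons_self] at h
        omega
      have := cb_reverse w x x' h'
      rw [List.reverse_cons, cb_append_left _ _ _ (by rw [List.count_reverse]; omega)]
      simpa [cb] using this

/-- Reversal flips the relative order of two letters. -/
theorem cb_flip (w : List Bool) (x x' y y' : ℕ) (hx : x + x' + 1 = w.count true)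
    (hy : y + y' + 1 = w.count false) : cb w.reverse x' ≤ y' ↔ ¬ cb w x ≤ y := by
  have := cb_reverse w x x' hx
  omega

/-- The concatenation of the first `t` blocks. -/
def cat (b : ℕ → List Bool) : ℕ → List Bool
  | 0 => []
  | t + 1 => cat b t ++ b t

theorem count_cat (b : ℕ → List Bool) (z : Bool) (t : ℕ) :
    (cat b t).count z = ∑ s ∈ Finset.range t, (b s).count z := by
  induction t with
  | zero => simp [cat]
  | succ t ih => rw [cat, List.count_append, ih, Finset.sum_range_succ]

theorem count_cat_mono (b : ℕ → List Bool) (z : Bool) {t t' : ℕ} (h : t ≤ t') :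
    (cat b t).count z ≤ (cat b t').count z := by
  induction h with
  | refl => exact le_rfl
  | step _ ih =>
    rw [cat, List.count_append]
    omega

theorem cb_cat (b : ℕ → List Bool) {t M j : ℕ} (ht : t < M) (hj : j < (b t).count true) :
    cb (cat b M) ((cat b t).count true + j) = (cat b t).count false + cb (b t) j := by
  induction ht with
  | refl => rw [cat, cb_append_right]
  | @step m hm ih =>
    rw [cat, cb_append_left, ih]
    have := count_cat_mono b true (show t + 1 ≤ m from hm)
    rw [cat, List.count_append] at this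
    omega

/-- The order of two letters in a concatenation of blocks. -/
theorem cb_cat_le (b : ℕ → List Bool) {t t' M j j' : ℕ} (ht : t < M)
    (hj : j < (b t).count true) (hj' : j' < (b t').count false) :
    (cb (cat b M) ((cat b t).count true + j) ≤ (cat b t').count false + j') ↔
      (t < t' ∨ (t = t' ∧ cb (b t) j ≤ j')) := by
  rw [cb_cat b ht hj]
  have h1 := cb_le (b t) j
  rcases lt_trichotomy t t' with h | h | h
  · have := count_cat_mono b false (show t + 1 ≤ t' from h)
    rw [cat, List.count_append] at this
    omega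
  · subst h
    omega
  · have := count_cat_mono b false (show t' + 1 ≤ t from h)
    rw [cat, List.count_append] at this
    omega

theorem lex_head {f g : ℕ → ℕ} (h : f 0 < g 0) : toLex f < toLex g :=
  ⟨0, fun j hj => absurd hj (Nat.not_lt_zero j), h⟩

theorem lex_tail {f g : ℕ → ℕ} (h : f 0 = g 0)
    (h' : toLex (fun s => f (s + 1)) < toLex (fun s => g (s + 1))) : toLex f < toLex g := by
  obtain ⟨i, hi, hlt⟩ := h'
  refine ⟨i + 1, fun j hj => ?_, hlt⟩
  cases j with
  | zero => exact h
  | succ j => exact hi j (Nat.lt_of_succ_lt_succ hj)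

/-- Following a path given by two involutions. -/
theorem orbit {X : Type} [Finite X] (io ga : X → X) (hio : ∀ d, io (io d) = d)
    (hga : ∀ d, ga (ga d) = d) (hne : ∀ d, io d ≠ d) (O : X → Prop) (hO : ∀ d, O d ↔ ga d = d)
    (d0 d1 : X) (h0 : O d0) (h01 : ∀ d, O d → d = d0 ∨ d = d1) :
    (∃ s, io ((ga ∘ io)^[s] d0) = d1 ∧ ∀ r < s, ¬ O (io ((ga ∘ io)^[r] d0))) ∧
    (∀ m, ∃ n, O (io ((ga ∘ io)^[n] ((ga ∘ io)^[m] d0)))) ∧
    (∀ m, ∃ n, O (io ((ga ∘ io)^[n] (io ((ga ∘ io)^[m] d0))))) := by
  classical
  have hinj : Function.Injective (ga ∘ io) :=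
    (Function.LeftInverse.injective hga).comp (Function.LeftInverse.injective hio)
  obtain ⟨n, hn, hper⟩ := hinj.mem_periodicPts d0
  have hstep : ∀ k d, (ga ∘ io)^[k + 1] d = ga (io ((ga ∘ io)^[k] d)) := fun k d => by
    rw [Function.iterate_succ_apply']
    rfl
  have hback : ∀ k, (ga ∘ io)^[k + 1] d0 = d0 → io ((ga ∘ io)^[k] d0) = d0 := fun k hk => by
    rw [hstep] at hk
    have := congrArg ga hk
    rw [hga, (hO d0).1 h0] at this
    exact this
  refine ⟨?_, fun m => ?_, fun m => ?_⟩
  · have hex : ∃ s, O (io ((ga ∘ io)^[s] d0)) := by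
      refine ⟨n - 1, ?_⟩
      rw [hback (n - 1) (by rw [Nat.sub_add_cancel hn]; exact hper)]
      exact h0
    refine ⟨Nat.find hex, ?_, fun r hr => Nat.find_min hex hr⟩
    rcases h01 _ (Nat.find_spec hex) with h | h
    · exfalso
      have hmin : ∀ r < Nat.find hex, ¬ O (io ((ga ∘ io)^[r] d0)) := fun r hr => Nat.find_min hex hr
      generalize Nat.find hex = s at h hmin
      have key : ∀ r, r ≤ s → io ((ga ∘ io)^[s - r] d0) = (ga ∘ io)^[r] d0 := by
        intro r
        induction r with
        | zero => intro _; simpa using h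
        | succ r ih =>
          intro hr
          have h1 := ih (by omega)
          rw [show s - r = (s - (r + 1)) + 1 by omega, hstep] at h1
          have h2 := congrArg (fun d => ga (io d)) h1
          simp only [hio, hga] at h2
          rw [h2, hstep]
      rcases Nat.even_or_odd' s with ⟨r, hr | hr⟩
      · have := key r (by omega)
        rw [show s - r = r by omega] at this
        exact hne _ this
      · have h1 := key r (by omega)
        rw [show s - r = r + 1 by omega, hstep] at h1
        have h2 := congrArg io h1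
        rw [hio] at h2
        exact hmin r (by omega) ((hO _).2 h2)
    · exact h
  · refine ⟨n * (m + 1) - 1 - m, ?_⟩
    have hge : m + 1 ≤ n * (m + 1) := Nat.le_mul_of_pos_left _ hn
    rw [← Function.iterate_add_apply, show n * (m + 1) - 1 - m + m = n * (m + 1) - 1 by omega,
      hback (n * (m + 1) - 1) (by
        rw [Nat.sub_add_cancel (by omega)]
        exact hper.mul_const (m + 1))]
    exact h0
  · induction m with
    | zero => exact ⟨0, by simpa [hio] using h0⟩
    | succ m ih =>
      obtain ⟨k, hk⟩ := ih
      refine ⟨k + 1, ?_⟩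
      rw [Function.iterate_succ_apply, hstep]
      simpa [hio, hga] using hk

theorem pt_lt {M i t : ℕ} (hi : i < M) (ht : t < M) : pt M i t < M := by
  unfold pt
  split_ifs <;> omega

theorem pt_pt {M i t : ℕ} (ht : t < M) : pt M i (pt M i t) = t := by
  unfold pt
  split_ifs <;> omega

theorem round_one {M i i' k' : ℕ} (hi : i < M) (hi' : i' < M) (hk' : k' < M) (h1 : i ≠ i')
    (h2 : i ≠ k') (h3 : i' ≠ k') :
    (pt M i i' < pt M i k' ↔ i' < i) ↔ (i < k' ↔ i' < k') := by
  unfold pt
  rcases h1.lt_or_gt with a | a <;> rcases h2.lt_or_gt with b | b <;>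
    rcases h3.lt_or_gt with c | c <;>
    simp only [a, b, c, a.not_gt, b.not_gt, c.not_gt, if_true, if_false, iff_true, iff_false,
      true_iff, false_iff, not_true, not_false_iff, not_not] <;> omega

theorem round_four {i i' k k' : ℕ} (hii : i ≠ i') (hkk : k ≠ k')
    (e1 : i ≠ k) (e2 : i' ≠ k) (e3 : i ≠ k') (e4 : i' ≠ k')
    (c1 : ¬ (i < k ∧ k < i' ∧ i' < k')) (c2 : ¬ (i < k' ∧ k' < i' ∧ i' < k))
    (c3 : ¬ (i' < k ∧ k < i ∧ i < k')) (c4 : ¬ (i' < k' ∧ k' < i ∧ i < k))
    (c5 : ¬ (k < i ∧ i < k' ∧ k' < i')) (c6 : ¬ (k < i' ∧ i' < k' ∧ k' < i))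
    (c7 : ¬ (k' < i ∧ i < k ∧ k < i')) (c8 : ¬ (k' < i' ∧ i' < k ∧ k < i)) :
    (i < k ↔ i' < k) ↔ (i < k' ↔ i' < k') := by
  rcases e1.lt_or_gt with a | a <;> rcases e2.lt_or_gt with b | b <;>
    rcases e3.lt_or_gt with c | c <;> rcases e4.lt_or_gt with d | d <;>
    simp only [a, b, c, d, a.not_gt, b.not_gt, c.not_gt, d.not_gt, iff_true, iff_false,
      true_iff, false_iff, not_true, not_false_iff, not_not, and_self, true_and, and_true,
      false_and, and_false] at *

theorem iff4a {A B C D : Prop} (h : (A ↔ B) ↔ (C ↔ D)) : (B ↔ A) ↔ (D ↔ C) := by tauto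

theorem iff4b {A B C D : Prop} (h : (A ↔ B) ↔ (C ↔ D)) : (C ↔ D) ↔ (A ↔ B) := h.symm

theorem iff4c {A B C D : Prop} (h : (A ↔ B) ↔ (C ↔ D)) : (D ↔ C) ↔ (B ↔ A) := by tauto

/-- Two chords of one cell whose common sides are ordered by the ranks of the partner sides are
not interleaved. -/
theorem round {M i i' k k' : ℕ} {B1 B2 B3 B4 : Prop} (hi : i < M) (hi' : i' < M) (hk : k < M)
    (hk' : k' < M) (hii : i ≠ i') (hkk : k ≠ k')
    (c1 : ¬ (i < k ∧ k < i' ∧ i' < k')) (c2 : ¬ (i < k' ∧ k' < i' ∧ i' < k))
    (c3 : ¬ (i' < k ∧ k < i ∧ i < k')) (c4 : ¬ (i' < k' ∧ k' < i ∧ i < k))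
    (c5 : ¬ (k < i ∧ i < k' ∧ k' < i')) (c6 : ¬ (k < i' ∧ i' < k' ∧ k' < i))
    (c7 : ¬ (k' < i ∧ i < k ∧ k < i')) (c8 : ¬ (k' < i' ∧ i' < k ∧ k < i))
    (h1 : i = k → i' ≠ k' → (B1 ↔ pt M i i' < pt M i k'))
    (h2 : i' = k → i ≠ k' → (B2 ↔ pt M i' i < pt M i' k'))
    (h3 : i = k' → i' ≠ k → (B3 ↔ pt M i i' < pt M i k))
    (h4 : i' = k' → i ≠ k → (B4 ↔ pt M i' i < pt M i' k))
    (h5 : i = k → i' = k' → (B4 ↔ ¬ B1)) (h6 : i' = k → i = k' → (B3 ↔ ¬ B2)) :
    ((i < k ∨ (i = k ∧ B1)) ↔ (i' < k ∨ (i' = k ∧ B2))) ↔
      ((i < k' ∨ (i = k' ∧ B3)) ↔ (i' < k' ∨ (i' = k' ∧ B4))) := by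
  by_cases e1 : i = k
  · by_cases e4 : i' = k'
    · have := h5 e1 e4
      subst e1 e4
      rw [this]
      rcases hii.lt_or_gt with a | a <;> by_cases hB : B1 <;>
        simp [hB, hii, hii.symm, a, a.not_gt]
    · rw [h1 e1 e4]
      subst e1
      have := round_one hi hi' hk' hii hkk e4
      simpa only [lt_irrefl, true_and, false_or, hii.symm, hkk, e4, false_and, or_false]
        using this
  · by_cases e2 : i' = k
    · by_cases e3 : i = k'
      · have := h6 e2 e3
        subst e2 e3
        rw [this]
        rcases hii.lt_or_gt with a | a <;> by_cases hB : B2 <;>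
          simp [hB, hii, hii.symm, a, a.not_gt]
      · rw [h2 e2 e3]
        subst e2
        have := round_one hi' hi hk' hii.symm hkk e3
        simp only [lt_irrefl, true_and, false_or, e1, hkk, e3, false_and, or_false]
        exact iff4a this
    · by_cases e3 : i = k'
      · rw [h3 e3 e2]
        subst e3
        have := round_one hi hi' hk hii e1 e2
        simp only [lt_irrefl, true_and, false_or, hii.symm, e1, e2, false_and, or_false]
        exact iff4b this
      · by_cases e4 : i' = k'
        · rw [h4 e4 e1]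
          subst e4
          have := round_one hi' hi hk hii.symm e2 e1
          simp only [lt_irrefl, true_and, false_or, e1, e2, e3, false_and, or_false]
          exact iff4c this
        · simp only [e1, e2, e3, e4, false_and, or_false]
          exact round_four hii hkk e1 e2 e3 e4 c1 c2 c3 c4 c5 c6 c7 c8

end Pool.Agent.Lib.MP_02e8f2_lc.W2
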