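import Pool.Agent.Lib.MP_02e8f2_lc.SLP
import Pool.Agent.Lib.MP_02e8f2_lc.W2A

/-!
The words behind a word certificate, and the darts they describe.
-/

set_option autoImplicit false

namespace Pool.Agent.Lib.MP_02e8f2_lc.W2

variable {ι : Type}

/-- The first `t` blocks of the word of side `i` of cell `c + 1`. -/
def Lw (P : Par ι) (w : ι → ι → ℕ → ℕ → ℕ → List Bool) (e f : ι) (c i t : ℕ) : List Bool :=
  cat (fun s => w e f c i (pt (2 * P.S) i s)) t

/-- The number of darts in the first `t` blocks. -/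
def off (P : Par ι) (nn : ι → ℕ → ℕ → ℕ → ℕ) (e : ι) (c i t : ℕ) : ℕ :=
  ∑ s ∈ Finset.range t, nn e c i (pt (2 * P.S) i s)

/-- A word certificate, written with words and natural numbers. -/
structure WW (P : Par ι) (w : ι → ι → ℕ → ℕ → ℕ → List Bool) (nn : ι → ℕ → ℕ → ℕ → ℕ) :
    Prop where
  cntT : ∀ e f, P.G e f → ∀ c < P.K, ∀ i < 2 * P.S, ∀ p < 2 * P.S,
    (w e f c i p).count true = nn e c i p
  cntF : ∀ e f, P.dc e f → ∀ c < P.K, ∀ i < 2 * P.S, ∀ p < 2 * P.S,
    (w e f c i p).count false = nn f c i p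
  rev : ∀ e f, P.G e f → ∀ c < P.K, ∀ i < 2 * P.S, ∀ p < 2 * P.S,
    w e f c p i = (w e f c i p).reverse
  glue : ∀ e f, P.G e f → ∀ c q, q < P.S → q % 2 = 0 → c + 1 < P.K →
    Lw P w e f (c + 1) q (2 * P.S) = (Lw P w e f c (2 * P.S - 1 - q) (2 * P.S)).reverse
  glue0 : ∀ e f, P.G e f → 0 < P.K → ∀ q < P.S, q % 2 = 0 → Lw P w e f 0 q (2 * P.S) = []
  ev : ∀ e, P.act e → ∀ c < P.K, ∀ i < 2 * P.S, (sideOf P.S c i).2.1 % 2 = 1 →
    ((sideOf P.S c i = P.st e ∨ sideOf P.S c i = P.en e) ∧ off P nn e c i (2 * P.S) = 1) ∨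
    (¬ (sideOf P.S c i = P.st e ∨ sideOf P.S c i = P.en e) ∧ off P nn e c i (2 * P.S) = 0)
  diag : ∀ e, P.act e → ∀ c < P.K, ∀ i < 2 * P.S, nn e c i i = 0
  al : ∀ e, P.act e → ∀ c < P.K, ∀ i < 2 * P.S, ∀ p < 2 * P.S,
    nn e c i p = 0 ∨ P.al e (sideOf P.S c i) (sideOf P.S c p)
  cross : ∀ e f, P.dc e f → ∀ c < P.K, ∀ i < 2 * P.S, ∀ j < 2 * P.S,
    ∀ i' < 2 * P.S, ∀ j' < 2 * P.S, i < j → j < i' → i' < j' → nn e c i i' = 0 ∨ nn f c j j' = 0

theorem G_self {P : Par ι} {e : ι} (he : P.act e) : P.G e e := ⟨he, Or.inl rfl⟩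

theorem G_dc {P : Par ι} (hP : P.OK) {e f : ι} (h : P.dc e f) : P.G e f :=
  ⟨hP.dc_act e f h, Or.inr h⟩

theorem G_mem {P : Par ι} (hP : P.OK) {e f : ι} (h : P.G e f) : e ∈ P.SS ∧ f ∈ P.SS := by
  refine ⟨hP.mem e h.1, ?_⟩
  rcases h.2 with rfl | h'
  · exact hP.mem _ h.1
  · exact hP.mem f (hP.dc_act f e (hP.dc_symm e f h'))

theorem exists_WW (P : Par ι) (hP : P.OK) (T : ℕ) (D : WD ι) (h : Wrd P T D) :
    ∃ w nn, WW P w nn := by
  have hex : ∀ e f c i p, ∃ u, P.G e f → c < P.K → i < 2 * P.S → p < 2 * P.S →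
      D.x e f c i p = tu u := by
    intro e f c i p
    by_cases hh : P.G e f ∧ c < P.K ∧ i < 2 * P.S ∧ p < 2 * P.S
    · obtain ⟨hG, hc, hi, hp⟩ := hh
      obtain ⟨he, hf⟩ := G_mem hP hG
      obtain ⟨t, ht, hx⟩ := h.node e he f hf hG c hc i hi p hp
      obtain ⟨u, hu⟩ := rule_sound (D.nd e f) T (h.rule e he f hf hG) t ht
      exact ⟨u, fun _ _ _ _ => hx.trans hu⟩
    · exact ⟨[], fun a b c d => absurd ⟨a, b, c, d⟩ hh⟩
  choose w hw using hex
  have hn : ∀ e, P.act e → ∀ c < P.K, ∀ i < 2 * P.S, ∀ p < 2 * P.S,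
      D.n e c i p = (((w e e c i p).count true : ℕ) : ℝ) := by
    intro e he c hc i hi p hp
    have := (h.cnt e (hP.mem e he) e (hP.mem e he) (G_self he) c hc i hi p hp).1
    rw [hw e e c i p (G_self he) hc hi hp] at this
    exact this.symm
  have hcw : ∀ e f, P.G e f → ∀ c < P.K, ∀ i < 2 * P.S, ∀ t ≤ 2 * P.S,
      D.cw e f c i t = tu (Lw P w e f c i t) := by
    intro e f hG c hc i hi t
    obtain ⟨he, hf⟩ := G_mem hP hG
    induction t with
    | zero =>
      intro _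
      rw [h.cw0 e he f hf hG c hc i hi]
      exact tu_nil.symm
    | succ t ih =>
      intro ht
      rw [h.cws e he f hf hG c hc i hi t ht, ih (by omega),
        hw e f c i _ hG hc hi (pt_lt hi ht), ← tu_append]
      rfl
  have hoff : ∀ e, P.act e → ∀ c < P.K, ∀ i < 2 * P.S,
      (D.cw e e c i (2 * P.S)).a =
        ((off P (fun e c i p => (w e e c i p).count true) e c i (2 * P.S) : ℕ) : ℝ) := by
    intro e he c hc i hi
    rw [hcw e e (G_self he) c hc i hi _ le_rfl]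
    show (((Lw P w e e c i (2 * P.S)).count true : ℕ) : ℝ) = _
    rw [Lw, count_cat]
    rfl
  refine ⟨w, fun e c i p => (w e e c i p).count true, ?_, ?_, ?_, ?_, ?_, ?_, ?_, ?_, ?_⟩
  · intro e f hG c hc i hi p hp
    obtain ⟨he, hf⟩ := G_mem hP hG
    have := (h.cnt e he f hf hG c hc i hi p hp).1
    rw [hw e f c i p hG hc hi hp, hn e hG.1 c hc i hi p hp] at this
    exact Nat.cast_injective (R := ℝ) this
  · intro e f hd c hc i hi p hp
    have hG := G_dc hP hd
    obtain ⟨he, hf⟩ := G_mem hP hG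
    have := (h.cnt e he f hf hG c hc i hi p hp).2 hd
    rw [hw e f c i p hG hc hi hp,
      hn f (hP.dc_act f e (hP.dc_symm e f hd)) c hc i hi p hp] at this
    exact Nat.cast_injective (R := ℝ) this
  · intro e f hG c hc i hi p hp
    obtain ⟨he, hf⟩ := G_mem hP hG
    have := h.rev e he f hf hG c hc i hi p hp
    rw [hw e f c i p hG hc hi hp, hw e f c p i hG hc hp hi, ← tu_reverse] at this
    exact tu_inj this
  · intro e f hG c q hq hq2 hc
    obtain ⟨he, hf⟩ := G_mem hP hG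
    have := h.glue e he f hf hG c (by omega) q hq hq2 hc
    rw [hcw e f hG (c + 1) hc q (by omega) _ le_rfl,
      hcw e f hG c (by omega) _ (by omega) _ le_rfl, ← tu_reverse] at this
    exact tu_inj this
  · intro e f hG hK q hq hq2
    obtain ⟨he, hf⟩ := G_mem hP hG
    have := h.glue0 e he f hf hG q hq hq2
    rw [hcw e f hG 0 hK q (by omega) _ le_rfl, ← tu_nil] at this
    exact tu_inj this
  · intro e he c hc i hi hodd
    have := h.ev e (hP.mem e he) he c hc i hi hodd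
    rw [hoff e he c hc i hi] at this
    rcases this with ⟨h1, h2⟩ | ⟨h1, h2⟩
    · exact Or.inl ⟨h1, by exact_mod_cast h2⟩
    · exact Or.inr ⟨h1, by exact_mod_cast h2⟩
  · intro e he c hc i hi
    have := h.diag e (hP.mem e he) he c hc i hi
    rw [hn e he c hc i hi i hi] at this
    exact_mod_cast this
  · intro e he c hc i hi p hp
    have := h.al e (hP.mem e he) he c hc i hi p hp
    rw [hn e he c hc i hi p hp] at this
    exact this.imp_left fun h => by exact_mod_cast h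
  · intro e f hd c hc i hi j hj i' hi' j' hj' h1 h2 h3
    have hG := G_dc hP hd
    obtain ⟨he, hf⟩ := G_mem hP hG
    have := h.cross e he f hf hd c hc i hi j hj i' hi' j' hj' h1 h2 h3
    rw [hn e hG.1 c hc i hi i' hi',
      hn f (hP.dc_act f e (hP.dc_symm e f hd)) c hc j hj j' hj'] at this
    exact this.imp (fun h => by exact_mod_cast h) (fun h => by exact_mod_cast h)

/-- Cell, side, partner side, number inside the block. -/
@[ext] structure D4 where
  c : ℕ
  i : ℕ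
  p : ℕ
  j : ℕ

/-- The darts of the string `e`. -/
def X (P : Par ι) (nn : ι → ℕ → ℕ → ℕ → ℕ) (e : ι) : Type :=
  {d : D4 // d.c < P.K ∧ d.i < 2 * P.S ∧ d.p < 2 * P.S ∧ d.j < nn e d.c d.i d.p}

variable {P : Par ι} {w : ι → ι → ℕ → ℕ → ℕ → List Bool} {nn : ι → ℕ → ℕ → ℕ → ℕ} {e f : ι}

instance : Finite (X P nn e) := by
  let g : X P nn e → (Σ x : Fin P.K × Fin (2 * P.S) × Fin (2 * P.S),
      Fin (nn e x.1 x.2.1 x.2.2)) :=
    fun d => ⟨(⟨d.1.c, d.2.1⟩, ⟨d.1.i, d.2.2.1⟩, ⟨d.1.p, d.2.2.2.1⟩), ⟨d.1.j, d.2.2.2.2⟩⟩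
  let g' : (Σ x : Fin P.K × Fin (2 * P.S) × Fin (2 * P.S), Fin (nn e x.1 x.2.1 x.2.2)) → D4 :=
    fun y => ⟨y.1.1, y.1.2.1, y.1.2.2, y.2⟩
  refine Finite.of_injective g fun a b hab => ?_
  exact Subtype.ext (congrArg g' hab)

/-- The rank of the block of a dart. -/
def X.rk (d : X P nn e) : ℕ := pt (2 * P.S) d.1.i d.1.p

/-- The position of a dart on its side. -/
def X.ps (d : X P nn e) : ℕ := off P nn e d.1.c d.1.i d.rk + d.1.j

/-- The side of a dart. -/
def X.sd (d : X P nn e) : Side := sideOf P.S d.1.c d.1.i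

/-- The dart sits on an event. -/
def X.Od (d : X P nn e) : Prop := d.sd.2.1 % 2 = 1

theorem off_succ (c i t : ℕ) :
    off P nn e c i (t + 1) = off P nn e c i t + nn e c i (pt (2 * P.S) i t) :=
  Finset.sum_range_succ _ _

theorem off_mono (c i : ℕ) {t t' : ℕ} (h : t ≤ t') : off P nn e c i t ≤ off P nn e c i t' := by
  induction h with
  | refl => exact le_rfl
  | step _ ih =>
    rw [off_succ]
    omega

theorem X.rk_lt (d : X P nn e) : d.rk < 2 * P.S := pt_lt d.2.2.1 d.2.2.2.1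

theorem X.pt_rk (d : X P nn e) : pt (2 * P.S) d.1.i d.rk = d.1.p := pt_pt d.2.2.2.1

theorem X.ps_lt_succ (d : X P nn e) : d.ps < off P nn e d.1.c d.1.i (d.rk + 1) := by
  rw [off_succ, d.pt_rk, X.ps]
  have := d.2.2.2.2
  omega

theorem X.ps_lt (d : X P nn e) : d.ps < off P nn e d.1.c d.1.i (2 * P.S) :=
  d.ps_lt_succ.trans_le (off_mono _ _ d.rk_lt)

theorem X.ps_inj {d d' : X P nn e} (hc : d.1.c = d'.1.c) (hi : d.1.i = d'.1.i)
    (h : d.ps = d'.ps) : d = d' := by
  have h1 := d.ps_lt_succ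
  have h2 := d'.ps_lt_succ
  have hrk : d.rk = d'.rk := by
    rcases lt_trichotomy d.rk d'.rk with hh | hh | hh
    · have := off_mono (P := P) (nn := nn) (e := e) d'.1.c d'.1.i (show d.rk + 1 ≤ d'.rk from hh)
      rw [hc, hi, h] at h1
      unfold X.ps at h1
      omega
    · exact hh
    · have := off_mono (P := P) (nn := nn) (e := e) d.1.c d.1.i (show d'.rk + 1 ≤ d.rk from hh)
      rw [← hc, ← hi, ← h] at h2
      unfold X.ps at h2
      omega
  refine Subtype.ext (D4.ext hc hi ?_ ?_)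
  · rw [← d.pt_rk, ← d'.pt_rk, hi, hrk]
  · unfold X.ps at h
    rw [hc, hi, hrk] at h
    omega

theorem ps_surj {c i x : ℕ} (hc : c < P.K) (hi : i < 2 * P.S)
    (hx : x < off P nn e c i (2 * P.S)) : ∃ d : X P nn e, d.1.c = c ∧ d.1.i = i ∧ d.ps = x := by
  have key : ∀ t ≤ 2 * P.S, x < off P nn e c i t →
      ∃ d : X P nn e, d.1.c = c ∧ d.1.i = i ∧ d.ps = x := by
    intro t
    induction t with
    | zero => intro _ h; simp [off] at h
    | succ t ih =>
      intro ht h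
      by_cases h' : x < off P nn e c i t
      · exact ih (by omega) h'
      · rw [off_succ] at h
        refine ⟨⟨⟨c, i, pt (2 * P.S) i t, x - off P nn e c i t⟩, hc, hi, pt_lt hi ht, ?_⟩,
          rfl, rfl, ?_⟩
        · show x - off P nn e c i t < nn e c i (pt (2 * P.S) i t)
          omega
        · show off P nn e c i (pt (2 * P.S) i (pt (2 * P.S) i t)) + (x - off P nn e c i t) = x
          rw [pt_pt ht]
          omega
  exact key _ le_rfl hx

theorem WW.countT (H : WW P w nn) (hG : P.G e f) {c i t : ℕ} (hc : c < P.K) (hi : i < 2 * P.S)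
    (ht : t ≤ 2 * P.S) : (Lw P w e f c i t).count true = off P nn e c i t := by
  rw [Lw, count_cat, off]
  exact Finset.sum_congr rfl fun s hs =>
    H.cntT e f hG c hc i hi _ (pt_lt hi ((Finset.mem_range.1 hs).trans_le ht))

theorem WW.countF (H : WW P w nn) (hd : P.dc e f) {c i t : ℕ} (hc : c < P.K) (hi : i < 2 * P.S)
    (ht : t ≤ 2 * P.S) : (Lw P w e f c i t).count false = off P nn f c i t := by
  rw [Lw, count_cat, off]
  exact Finset.sum_congr rfl fun s hs =>
    H.cntF e f hd c hc i hi _ (pt_lt hi ((Finset.mem_range.1 hs).trans_le ht))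

theorem WW.nn_symm (H : WW P w nn) (he : P.act e) {c i p : ℕ} (hc : c < P.K) (hi : i < 2 * P.S)
    (hp : p < 2 * P.S) : nn e c p i = nn e c i p := by
  rw [← H.cntT e e (G_self he) c hc p hp i hi, ← H.cntT e e (G_self he) c hc i hi p hp,
    H.rev e e (G_self he) c hc i hi p hp, List.count_reverse]

theorem WW.al_dart (H : WW P w nn) (he : P.act e) (d : X P nn e) :
    P.al e d.sd (sideOf P.S d.1.c d.1.p) := by
  rcases H.al e he _ d.2.1 _ d.2.2.1 _ d.2.2.2.1 with h | h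
  · have := d.2.2.2.2
    omega
  · exact h

theorem cl_sideOf (S c i : ℕ) : cl (sideOf S c i) = c + 1 := by
  unfold sideOf
  split_ifs <;> rfl

theorem WW.cell_lt (H : WW P w nn) (hP : P.OK) (he : P.act e) (d : X P nn e) :
    d.1.c + 1 < P.K := by
  have := (hP.al_cl _ _ _ (H.al_dart he d)).2.2.1
  rwa [X.sd, cl_sideOf] at this

theorem WW.ne_p (H : WW P w nn) (he : P.act e) (d : X P nn e) : d.1.i ≠ d.1.p := by
  intro h
  have h1 := d.2.2.2.2
  rw [← h, H.diag e he _ d.2.1 _ d.2.2.1] at h1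
  omega

/-- The other end of the chord. -/
def IoSpec (d d' : X P nn e) : Prop :=
  d'.1.c = d.1.c ∧ d'.1.i = d.1.p ∧ d'.1.p = d.1.i ∧ d.1.j + d'.1.j + 1 = nn e d.1.c d.1.i d.1.p

/-- The sides `(c, i)` and `(c', i')` are the two sides of one slot. -/
def Glued (S c i c' i' : ℕ) : Prop :=
  i + i' + 1 = 2 * S ∧ ((i < S ∧ c = c' + 1) ∨ (S ≤ i ∧ c' = c + 1))

/-- The same point seen from the other cell. -/
def GaSpec (d d' : X P nn e) : Prop :=
  (d.Od ∧ d' = d) ∨ (¬ d.Od ∧ Glued P.S d.1.c d.1.i d'.1.c d'.1.i ∧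
    d.ps + d'.ps + 1 = off P nn e d.1.c d.1.i (2 * P.S))

theorem WW.ex_io (H : WW P w nn) (he : P.act e) (d : X P nn e) : ∃ d', IoSpec d d' := by
  obtain ⟨h1, h2, h3, h4⟩ := d.2
  refine ⟨⟨⟨d.1.c, d.1.p, d.1.i, nn e d.1.c d.1.i d.1.p - 1 - d.1.j⟩, h1, h3, h2, ?_⟩,
    rfl, rfl, rfl, ?_⟩
  · show nn e d.1.c d.1.i d.1.p - 1 - d.1.j < nn e d.1.c d.1.p d.1.i
    rw [H.nn_symm he h1 h2 h3]
    omega
  · show d.1.j + (nn e d.1.c d.1.i d.1.p - 1 - d.1.j) + 1 = _
    omega

theorem slot_sideOf (S c i : ℕ) : (sideOf S c i).2.1 = if i < S then i else 2 * S - 1 - i := by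
  unfold sideOf
  split_ifs <;> rfl

/-- The words of two glued sides. -/
theorem WW.glued (H : WW P w nn) (hG : P.G e f) {c i c' i' : ℕ} (hc : c + 1 < P.K)
    (hg : Glued P.S c i c' i') (hev : ¬ (sideOf P.S c i).2.1 % 2 = 1) :
    Lw P w e f c' i' (2 * P.S) = (Lw P w e f c i (2 * P.S)).reverse := by
  rw [slot_sideOf] at hev
  obtain ⟨h1, ⟨h2, h3⟩ | ⟨h2, h3⟩⟩ := hg
  · rw [if_pos h2] at hev
    subst h3
    rw [H.glue e f hG c' i h2 (by omega) (by omega), List.reverse_reverse,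
      show 2 * P.S - 1 - i = i' by omega]
  · rw [if_neg (by omega)] at hev
    subst h3
    rw [H.glue e f hG c i' (by omega) (by omega) hc, show 2 * P.S - 1 - i' = i by omega]

theorem WW.ex_ga (H : WW P w nn) (hP : P.OK) (he : P.act e) (d : X P nn e) :
    ∃ d', GaSpec d d' := by
  by_cases hO : d.Od
  · exact ⟨d, Or.inl ⟨hO, rfl⟩⟩
  · have hc := H.cell_lt hP he d
    have hi := d.2.2.1
    have hlt := d.ps_lt
    obtain ⟨c', i', hc', hg⟩ : ∃ c' i', c' < P.K ∧ Glued P.S d.1.c d.1.i c' i' := by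
      by_cases hS : d.1.i < P.S
      · have hc0 : d.1.c ≠ 0 := by
          intro h0
          have hev : d.1.i % 2 = 0 := by
            unfold X.Od X.sd at hO
            rw [slot_sideOf, if_pos hS] at hO
            omega
          have h1 := H.glue0 e e (G_self he) (by omega) _ hS hev
          have h2 := H.countT (G_self he) d.2.1 hi le_rfl
          rw [h0, h1] at h2
          rw [h0, ← h2] at hlt
          simp at hlt
        exact ⟨d.1.c - 1, 2 * P.S - 1 - d.1.i, by omega, by omega, Or.inl ⟨hS, by omega⟩⟩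
      · exact ⟨d.1.c + 1, 2 * P.S - 1 - d.1.i, hc, by omega, Or.inr ⟨by omega, rfl⟩⟩
    have hi' : i' < 2 * P.S := by
      have := hg.1
      omega
    have hw := H.glued (G_self he) hc hg hO
    have hcnt : off P nn e c' i' (2 * P.S) = off P nn e d.1.c d.1.i (2 * P.S) := by
      rw [← H.countT (G_self he) hc' hi' le_rfl, hw, List.count_reverse,
        H.countT (G_self he) d.2.1 hi le_rfl]
    obtain ⟨d', h1, h2, h3⟩ := ps_surj (e := e) (nn := nn) hc' hi'
      (x := off P nn e d.1.c d.1.i (2 * P.S) - 1 - d.ps) (by omega)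
    refine ⟨d', Or.inr ⟨hO, by rw [h1, h2]; exact hg, by omega⟩⟩

end Pool.Agent.Lib.MP_02e8f2_lc.W2
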