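import Pool.Agent.Lib.MP_02e8f2_lc.W2B

/-!
The order of the darts on a side, and lexicographic keys.
-/

set_option autoImplicit false

namespace Pool.Agent.Lib.MP_02e8f2_lc.W2

variable {ι : Type} {P : Par ι} {w : ι → ι → ℕ → ℕ → ℕ → List Bool}
  {nn : ι → ℕ → ℕ → ℕ → ℕ} {e f : ι}

theorem WW.io_io (H : WW P w nn) (he : P.act e) {d d' d'' : X P nn e} (h : IoSpec d d')
    (h' : IoSpec d' d'') : d'' = d := by
  obtain ⟨a1, a2, a3, a4⟩ := h
  obtain ⟨b1, b2, b3, b4⟩ := h'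
  rw [a1, a2, a3, H.nn_symm he d.2.1 d.2.2.1 d.2.2.2.1] at b4
  exact Subtype.ext (D4.ext (b1.trans a1) (b2.trans a3) (b3.trans a2) (by omega))

theorem WW.io_ne (H : WW P w nn) (he : P.act e) {d d' : X P nn e} (h : IoSpec d d') : d' ≠ d := by
  rintro rfl
  exact H.ne_p he _ h.2.1

theorem Glued.side {S c i c' i' : ℕ} (h : Glued S c i c' i') :
    sideOf S c' i' = ((sideOf S c i).1, (sideOf S c i).2.1, !(sideOf S c i).2.2) := by
  obtain ⟨h1, ⟨h2, h3⟩ | ⟨h2, h3⟩⟩ := h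
  · unfold sideOf
    rw [if_pos h2, if_neg (by omega), h3, show 2 * S - 1 - i' = i by omega]
    rfl
  · unfold sideOf
    rw [if_pos (by omega), if_neg (by omega), h3, show 2 * S - 1 - i = i' by omega]
    rfl

theorem GaSpec.side {d d' : X P nn e} (h : GaSpec d d') (hO : ¬ d.Od) :
    d'.sd = (d.sd.1, d.sd.2.1, !d.sd.2.2) := by
  rcases h with h | h
  · exact absurd h.1 hO
  · exact h.2.1.side

theorem GaSpec.od {d d' : X P nn e} (h : GaSpec d d') : d'.Od ↔ d.Od := by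
  by_cases hO : d.Od
  · rcases h with h | h
    · rw [h.2]
    · exact absurd hO h.1
  · unfold X.Od
    rw [h.side hO]

theorem GaSpec.fix {d d' : X P nn e} (h : GaSpec d d') : d.Od ↔ d' = d := by
  rcases h with h | h
  · exact iff_of_true h.1 h.2
  · refine iff_of_false h.1 ?_
    rintro rfl
    have := h.2.1.2
    omega

theorem WW.ga_ga (H : WW P w nn) (hP : P.OK) (he : P.act e) {d d' d'' : X P nn e}
    (h : GaSpec d d') (h' : GaSpec d' d'') : d'' = d := by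
  have hod := h.od
  rcases h with h | ⟨hO, hg, hs⟩
  · rw [h'.fix.1 (hod.2 h.1), h.2]
  · rcases h' with h' | ⟨-, hg', hs'⟩
    · exact absurd (hod.1 h'.1) hO
    · have hw := H.glued (G_self he) (H.cell_lt hP he d) hg hO
      have hcnt : off P nn e d'.1.c d'.1.i (2 * P.S) = off P nn e d.1.c d.1.i (2 * P.S) := by
        rw [← H.countT (G_self he) d'.2.1 d'.2.2.1 le_rfl, hw, List.count_reverse,
          H.countT (G_self he) d.2.1 d.2.2.1 le_rfl]
      unfold Glued at hg hg'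
      exact X.ps_inj (by omega) (by omega) (by omega)

theorem sideOf_inj {S c i c' i' : ℕ} (hi : i < 2 * S) (hi' : i' < 2 * S)
    (h : sideOf S c i = sideOf S c' i') : c = c' ∧ i = i' := by
  unfold sideOf at h
  split_ifs at h <;> simp only [Prod.mk.injEq, Bool.true_eq_false, Bool.false_eq_true,
    and_false, and_true] at h <;> omega

theorem sideOf_surj {s : Side} (h : P.Real s) : ∃ c < P.K, ∃ i < 2 * P.S, sideOf P.S c i = s := by
  obtain ⟨k, q, d⟩ := s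
  obtain ⟨h1, h2, h3⟩ := h
  cases d with
  | true =>
    change k + 1 < P.K at h2
    change q < P.S at h3
    exact ⟨k, by omega, q, by omega, if_pos h3⟩
  | false =>
    change 1 ≤ k at h1
    change k < P.K at h2
    change q < P.S at h3
    refine ⟨k - 1, by omega, 2 * P.S - 1 - q, by omega, ?_⟩
    unfold sideOf
    rw [if_neg (by omega), show k - 1 + 1 = k by omega,
      show 2 * P.S - 1 - (2 * P.S - 1 - q) = q by omega]

theorem WW.od_side (H : WW P w nn) (he : P.act e) {d : X P nn e} (hO : d.Od) :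
    (d.sd = P.st e ∨ d.sd = P.en e) ∧ d.ps = 0 := by
  have hlt := d.ps_lt
  rcases H.ev e he _ d.2.1 _ d.2.2.1 hO with ⟨h1, h2⟩ | ⟨-, h2⟩
  · exact ⟨h1, by omega⟩
  · omega

theorem WW.ex_od (H : WW P w nn) (he : P.act e) {s : Side} (hs : s = P.st e ∨ s = P.en e)
    (hr : P.Real s) (ho : s.2.1 % 2 = 1) : ∃ d : X P nn e, d.sd = s := by
  obtain ⟨c, hc, i, hi, rfl⟩ := sideOf_surj hr
  rcases H.ev e he c hc i hi ho with ⟨-, h2⟩ | ⟨h1, -⟩
  · obtain ⟨d, h3, h4, -⟩ := ps_surj (nn := nn) (e := e) (x := 0) hc hi (by omega)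
    exact ⟨d, by rw [X.sd, h3, h4]⟩
  · exact absurd hs h1

theorem WW.od_eq (H : WW P w nn) (he : P.act e) {d d' : X P nn e} (hO : d.Od)
    (h : d.sd = d'.sd) : d = d' := by
  obtain ⟨h1, h2⟩ := sideOf_inj d.2.2.1 d'.2.2.1 h
  have hO' : d'.Od := by
    unfold X.Od at hO ⊢
    rwa [← h]
  exact X.ps_inj h1 h2 (by rw [(H.od_side he hO).2, (H.od_side he hO').2])

theorem WW.ends (H : WW P w nn) (hP : P.OK) (hd : P.dc e f) {d : X P nn e} {d' : X P nn f}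
    (hO : d.Od) (h1 : d.sd.1 = d'.sd.1) (h2 : d.sd.2.1 = d'.sd.2.1) : False := by
  have hO' : d'.Od := by
    unfold X.Od at hO ⊢
    rwa [← h2]
  exact hP.ends e f hd _ _ (H.od_side (hP.dc_act e f hd) hO).1
    (H.od_side (hP.dc_act f e (hP.dc_symm e f hd)) hO').1 ⟨h1, h2⟩

/-- The dart `d` of `e` comes before the dart `d'` of `f` in the word of the side. -/
def Bef (w : ι → ι → ℕ → ℕ → ℕ → List Bool) (d : X P nn e) (d' : X P nn f) : Prop :=
  cb (Lw P w e f d.1.c d.1.i (2 * P.S)) d.ps ≤ d'.ps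

theorem WW.bef_iff (H : WW P w nn) (hP : P.OK) (hd : P.dc e f) {d : X P nn e} {d' : X P nn f}
    (hc : d.1.c = d'.1.c) (hi : d.1.i = d'.1.i) :
    Bef w d d' ↔ d.rk < d'.rk ∨ (d.rk = d'.rk ∧ cb (w e f d.1.c d.1.i d.1.p) d.1.j ≤ d'.1.j) := by
  have hG := G_dc hP hd
  have h1 := H.countT hG d.2.1 d.2.2.1 d.rk_lt.le
  have h2 := H.countF hd d.2.1 d.2.2.1 d'.rk_lt.le
  have h3 : d.1.j < (w e f d.1.c d.1.i (pt (2 * P.S) d.1.i d.rk)).count true := by
    rw [d.pt_rk, H.cntT e f hG _ d.2.1 _ d.2.2.1 _ d.2.2.2.1]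
    exact d.2.2.2.2
  have h4 : d'.1.j < (w e f d.1.c d.1.i (pt (2 * P.S) d.1.i d'.rk)).count false := by
    rw [hc, hi, d'.pt_rk, H.cntF e f hd _ d'.2.1 _ d'.2.2.1 _ d'.2.2.2.1]
    exact d'.2.2.2.2
  have := cb_cat_le (fun s => w e f d.1.c d.1.i (pt (2 * P.S) d.1.i s)) d.rk_lt h3 h4
  simp only [d.pt_rk] at this
  rw [← this]
  unfold Lw at h1 h2
  rw [h1, h2, Bef, X.ps, X.ps, ← hc, ← hi]
  rfl

theorem WW.bef_rk (H : WW P w nn) (hP : P.OK) (hd : P.dc e f) {d : X P nn e} {d' : X P nn f}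
    (hc : d.1.c = d'.1.c) (hi : d.1.i = d'.1.i) (hp : d.1.p ≠ d'.1.p) :
    Bef w d d' ↔ d.rk < d'.rk := by
  rw [H.bef_iff hP hd hc hi]
  refine ⟨fun h => h.resolve_right fun h' => hp ?_, Or.inl⟩
  rw [← d.pt_rk, ← d'.pt_rk, hi, h'.1]

theorem WW.bef_io (H : WW P w nn) (hP : P.OK) (hd : P.dc e f) {d a : X P nn e} {d' a' : X P nn f}
    (hc : d.1.c = d'.1.c) (hi : d.1.i = d'.1.i) (hp : d.1.p = d'.1.p) (h : IoSpec d a)
    (h' : IoSpec d' a') : Bef w a a' ↔ ¬ Bef w d d' := by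
  obtain ⟨a1, a2, a3, a4⟩ := h
  obtain ⟨b1, b2, b3, b4⟩ := h'
  have hG := G_dc hP hd
  rw [H.bef_iff hP hd hc hi, H.bef_iff hP hd (by rw [a1, b1, hc]) (by rw [a2, b2, hp])]
  have r1 : d.rk = d'.rk := by rw [X.rk, X.rk, hi, hp]
  have r2 : a.rk = a'.rk := by rw [X.rk, X.rk, a2, b2, a3, b3, hi, hp]
  simp only [r1, r2, lt_irrefl, false_or, true_and]
  rw [a1, a2, a3, H.rev e f hG _ d.2.1 _ d.2.2.1 _ d.2.2.2.1]
  refine cb_flip _ _ _ _ _ ?_ ?_
  · rw [H.cntT e f hG _ d.2.1 _ d.2.2.1 _ d.2.2.2.1, a4]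
  · rw [H.cntF e f hd _ d.2.1 _ d.2.2.1 _ d.2.2.2.1, b4, hc, hi, hp]

theorem WW.bef_ga (H : WW P w nn) (hP : P.OK) (hd : P.dc e f) {d a : X P nn e} {d' a' : X P nn f}
    (hc : d.1.c = d'.1.c) (hi : d.1.i = d'.1.i) (h : GaSpec d a) (h' : GaSpec d' a') :
    a.1.c = a'.1.c ∧ a.1.i = a'.1.i ∧ (Bef w a a' ↔ ¬ Bef w d d') := by
  have hsd : d.sd = d'.sd := by rw [X.sd, X.sd, hc, hi]
  have hO : ¬ d.Od := fun hO => H.ends hP hd hO (by rw [hsd]) (by rw [hsd])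
  have hO' : ¬ d'.Od := by
    unfold X.Od at hO ⊢
    rwa [← hsd]
  have hG := G_dc hP hd
  rcases h with h | ⟨-, hg, hs⟩
  · exact absurd h.1 hO
  rcases h' with h' | ⟨-, hg', hs'⟩
  · exact absurd h'.1 hO'
  have hw := H.glued hG (H.cell_lt hP hG.1 d) hg hO
  unfold Glued at hg hg'
  refine ⟨by omega, by omega, ?_⟩
  rw [Bef, Bef, hw]
  refine cb_flip _ _ _ _ _ ?_ ?_
  · rw [H.countT hG d.2.1 d.2.2.1 le_rfl, hs]
  · rw [H.countF hd d.2.1 d.2.2.1 le_rfl, hs', hc, hi]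

/-- The ranks of the blocks met when following the string. -/
def key (io ga : X P nn e → X P nn e) (d : X P nn e) : Lex (ℕ → ℕ) :=
  toLex fun s => ((ga ∘ io)^[s] d).rk

/-- Following the string from `d` leads to an event. -/
def Reach (io ga : X P nn e → X P nn e) (d : X P nn e) : Prop :=
  ∃ n, (io ((ga ∘ io)^[n] d)).Od

section

variable {io ga : X P nn e → X P nn e} {io' ga' : X P nn f → X P nn f}

theorem WW.key_lt (H : WW P w nn) (hP : P.OK) (hd : P.dc e f) (hio : ∀ d, IoSpec d (io d))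
    (hga : ∀ d, GaSpec d (ga d)) (hio' : ∀ d, IoSpec d (io' d)) (hga' : ∀ d, GaSpec d (ga' d))
    {d : X P nn e} {d' : X P nn f} (hr : Reach io ga d) (hc : d.1.c = d'.1.c)
    (hi : d.1.i = d'.1.i) :
    (Bef w d d' → key io ga d < key io' ga' d') ∧
      (¬ Bef w d d' → key io' ga' d' < key io ga d) := by
  obtain ⟨n, hn⟩ := hr
  induction n generalizing d d' with
  | zero =>
    have hp : d.1.p ≠ d'.1.p := fun hp => by
      have hs : (io d).sd = (io' d').sd := by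
        rw [X.sd, X.sd, (hio d).1, (hio d).2.1, (hio' d').1, (hio' d').2.1, hc, hp]
      exact H.ends hP hd hn (by rw [← hs]; rfl) (by rw [← hs]; rfl)
    have hrk : d.rk ≠ d'.rk := fun h => hp (by rw [← d.pt_rk, ← d'.pt_rk, hi, h])
    rw [H.bef_rk hP hd hc hi hp]
    exact ⟨fun h => lex_head h, fun h => lex_head (show d'.rk < d.rk by omega)⟩
  | succ n ih =>
    by_cases hp : d.1.p = d'.1.p
    · have h1 := H.bef_io hP hd hc hi hp (hio d) (hio' d')
      obtain ⟨h2, h3, h4⟩ := H.bef_ga hP hd (by rw [(hio d).1, (hio' d').1, hc])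
        (by rw [(hio d).2.1, (hio' d').2.1, hp]) (hga (io d)) (hga' (io' d'))
      have hrk : d.rk = d'.rk := by rw [X.rk, X.rk, hi, hp]
      obtain ⟨i1, i2⟩ := ih (d := ga (io d)) (d' := ga' (io' d')) h2 h3 hn
      rw [h4, h1, not_not] at i1 i2
      exact ⟨fun h => lex_tail hrk (i1 h), fun h => lex_tail hrk.symm (i2 h)⟩
    · have hrk : d.rk ≠ d'.rk := fun h => hp (by rw [← d.pt_rk, ← d'.pt_rk, hi, h])
      rw [H.bef_rk hP hd hc hi hp]
      exact ⟨fun h => lex_head h, fun h => lex_head (show d'.rk < d.rk by omega)⟩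

/-- The height of the point of a dart. -/
def hgt (io ga : X P nn e → X P nn e) (d : X P nn e) : Lex (ℕ → ℕ) :=
  cond d.sd.2.2 (key io ga d) (key io ga (ga d))

/-- The dart of the drawing. -/
def dartOf (io ga : X P nn e → X P nn e) (d : X P nn e) : Dart (Lex (ℕ → ℕ)) :=
  ⟨d.sd.1, d.sd.2.1, hgt io ga d, d.sd.2.2⟩

theorem hgt_ga (hga : ∀ d, GaSpec d (ga d)) (hgg : ∀ d, ga (ga d) = d) {d : X P nn e}
    (hO : ¬ d.Od) : hgt io ga (ga d) = hgt io ga d := by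
  rw [hgt, hgt, (hga d).side hO, hgg]
  cases d.sd.2.2 <;> rfl

theorem dartOf_ga (hga : ∀ d, GaSpec d (ga d)) (hgg : ∀ d, ga (ga d) = d) {d : X P nn e}
    (hO : ¬ d.Od) : dartOf io ga (ga d) = (dartOf io ga d).fl := by
  rw [dartOf, dartOf, hgt_ga hga hgg hO, (hga d).side hO]
  rfl

theorem dir_sideOf (S c i : ℕ) : (sideOf S c i).2.2 = decide (i < S) := by
  unfold sideOf
  split_ifs with h <;> simp [h]

theorem WW.hgt_lt (H : WW P w nn) (hP : P.OK) (hd : P.dc e f) (hio : ∀ d, IoSpec d (io d))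
    (hga : ∀ d, GaSpec d (ga d)) (hio' : ∀ d, IoSpec d (io' d)) (hga' : ∀ d, GaSpec d (ga' d))
    {d : X P nn e} {d' : X P nn f} (hr : Reach io ga d) (hr' : Reach io ga (ga d))
    (hc : d.1.c = d'.1.c) (hi : d.1.i = d'.1.i) :
    (hgt io ga d < hgt io' ga' d' ↔ (Bef w d d' ↔ d.1.i < P.S)) ∧
      hgt io ga d ≠ hgt io' ga' d' := by
  rw [hgt, hgt, X.sd, X.sd, dir_sideOf, dir_sideOf, ← hi]
  by_cases hS : d.1.i < P.S
  · obtain ⟨h1, h2⟩ := H.key_lt hP hd hio hga hio' hga' hr hc hi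
    simp only [hS, decide_true, cond_true, iff_true]
    by_cases hB : Bef w d d'
    · exact ⟨iff_of_true (h1 hB) hB, (h1 hB).ne⟩
    · exact ⟨iff_of_false (h2 hB).not_gt hB, (h2 hB).ne'⟩
  · obtain ⟨g1, g2, g3⟩ := H.bef_ga hP hd hc hi (hga d) (hga' d')
    obtain ⟨h1, h2⟩ := H.key_lt hP hd hio hga hio' hga' hr' g1 g2
    rw [g3] at h1 h2
    simp only [hS, decide_false, cond_false, iff_false]
    by_cases hB : ¬ Bef w d d'
    · exact ⟨iff_of_true (h1 hB) hB, (h1 hB).ne⟩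
    · exact ⟨iff_of_false (h2 hB).not_gt hB, (h2 hB).ne'⟩

theorem bl_cell {a : X P nn e} {z : X P nn f} (h : Bl (dartOf io ga a) (dartOf io' ga' z)) :
    a.1.c = z.1.c := by
  have h1 : a.sd.1 = z.sd.1 := h.1
  have h2 : a.sd.2.2 = z.sd.2.2 := h.2.1
  have h3 : cl a.sd = cl z.sd := by rw [cl, cl, h1, h2]
  rw [X.sd, X.sd, cl_sideOf, cl_sideOf] at h3
  omega

theorem WW.bl_iff (H : WW P w nn) (hP : P.OK) (hd : P.dc e f) (hio : ∀ d, IoSpec d (io d))
    (hga : ∀ d, GaSpec d (ga d)) (hio' : ∀ d, IoSpec d (io' d)) (hga' : ∀ d, GaSpec d (ga' d))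
    {a : X P nn e} {z : X P nn f} (hr : Reach io ga a) (hr' : Reach io ga (ga a))
    (hc : a.1.c = z.1.c) :
    Bl (dartOf io ga a) (dartOf io' ga' z) ↔
      ((a.1.i < z.1.i ∨ (a.1.i = z.1.i ∧ Bef w a z)) ↔ z.1.i < P.S) := by
  have ha := a.2.2.1
  have hz := z.2.2.1
  by_cases hi : a.1.i = z.1.i
  · have h1 := (H.hgt_lt hP hd hio hga hio' hga' hr hr' hc hi).1
    have hs : a.sd = z.sd := by rw [X.sd, X.sd, hc, hi]
    simp only [Bl, dartOf, hs, lt_irrefl, true_and, false_or, h1, hi]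
  · simp only [Bl, dartOf, X.sd, sideOf, hc, hi, false_and, or_false]
    split_ifs with h1 h2 h2
    · simp only [true_and, h2, iff_true, hi, false_and, or_false]
    · simp only [Bool.true_eq_false, false_and, and_false, h2, iff_false, false_iff, not_not]
      omega
    · simp only [Bool.false_eq_true, false_and, and_false, h2, iff_true, false_iff]
      omega
    · have h3 : ¬ 2 * P.S - 1 - a.1.i = 2 * P.S - 1 - z.1.i := by omega
      simp only [true_and, h2, iff_false, h3, false_and, or_false]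
      omega

theorem iff_aux {A B C D E F : Prop} (h : (A ↔ B) ↔ (C ↔ D)) :
    ((A ↔ E) ↔ (B ↔ E)) ↔ ((C ↔ F) ↔ (D ↔ F)) := by tauto

theorem WW.no_cross (H : WW P w nn) (hd : P.dc e f) {c i j i' j' : ℕ} (hc : c < P.K)
    (hj' : j' < 2 * P.S) (h1 : nn e c i i' ≠ 0) (h2 : nn f c j j' ≠ 0) :
    ¬ (i < j ∧ j < i' ∧ i' < j') := fun h =>
  (H.cross e f hd c hc i (by omega) j (by omega) i' (by omega) j' hj' h.1 h.2.1 h.2.2).elim h1 h2

theorem WW.nc (H : WW P w nn) (hP : P.OK) (hd : P.dc e f) (hio : ∀ d, IoSpec d (io d))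
    (hga : ∀ d, GaSpec d (ga d)) (hio' : ∀ d, IoSpec d (io' d)) (hga' : ∀ d, GaSpec d (ga' d))
    {a : X P nn e} {z : X P nn f} (r1 : Reach io ga a) (r2 : Reach io ga (ga a))
    (r3 : Reach io ga (io a)) (r4 : Reach io ga (ga (io a))) :
    NC (dartOf io ga a) (dartOf io ga (io a)) (dartOf io' ga' z) (dartOf io' ga' (io' z)) := by
  have he := hP.dc_act e f hd
  have hd' := hP.dc_symm e f hd
  have hf := hP.dc_act f e hd'
  obtain ⟨a1, a2, a3, a4⟩ := hio a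
  obtain ⟨b1, b2, b3, b4⟩ := hio' z
  by_cases hc : a.1.c = z.1.c
  · unfold NC
    rw [H.bl_iff hP hd hio hga hio' hga' r1 r2 hc,
      H.bl_iff hP hd hio hga hio' hga' r3 r4 (a1.trans hc),
      H.bl_iff hP hd hio hga hio' hga' r1 r2 (hc.trans b1.symm),
      H.bl_iff hP hd hio hga hio' hga' r3 r4 (a1.trans (hc.trans b1.symm))]
    apply iff_aux
    have n1 : nn e z.1.c a.1.i a.1.p ≠ 0 := by rw [← hc]; omega
    have n2 : nn e z.1.c a.1.p a.1.i ≠ 0 := by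
      rwa [H.nn_symm he z.2.1 a.2.2.1 a.2.2.2.1]
    have n3 : nn f z.1.c z.1.i z.1.p ≠ 0 := by omega
    have n4 : nn f z.1.c z.1.p z.1.i ≠ 0 := by
      rwa [H.nn_symm hf z.2.1 z.2.2.1 z.2.2.2.1]
    rw [a2, b2]
    refine round (M := 2 * P.S) a.2.2.1 a.2.2.2.1 z.2.2.1 z.2.2.2.1 (H.ne_p he a) (H.ne_p hf z)
      (H.no_cross hd z.2.1 z.2.2.2.1 n1 n3) (H.no_cross hd z.2.1 z.2.2.1 n1 n4)
      (H.no_cross hd z.2.1 z.2.2.2.1 n2 n3) (H.no_cross hd z.2.1 z.2.2.1 n2 n4)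
      (H.no_cross hd' z.2.1 a.2.2.2.1 n3 n1) (H.no_cross hd' z.2.1 a.2.2.1 n3 n2)
      (H.no_cross hd' z.2.1 a.2.2.2.1 n4 n1) (H.no_cross hd' z.2.1 a.2.2.1 n4 n2)
      ?_ ?_ ?_ ?_ ?_ ?_
    · intro h1 h2
      rw [H.bef_rk hP hd hc h1 h2, X.rk, X.rk, h1]
    · intro h1 h2
      rw [H.bef_rk hP hd (a1.trans hc) (a2.trans h1) (by rwa [a3]), X.rk, X.rk, a2, a3, h1]
    · intro h1 h2
      rw [H.bef_rk hP hd (hc.trans b1.symm) (h1.trans b2.symm) (by rwa [b3]), X.rk, X.rk, b2, b3,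
        h1]
    · intro h1 h2
      rw [H.bef_rk hP hd (a1.trans (hc.trans b1.symm)) (a2.trans (h1.trans b2.symm))
        (by rwa [a3, b3]), X.rk, X.rk, a2, a3, b2, b3, h1]
    · intro h1 h2
      exact H.bef_io hP hd hc h1 h2 (hio a) (hio' z)
    · intro h1 h2
      have := H.bef_io hP hd (a1.trans hc) (a2.trans h1) (a3.trans h2) (hio (io a)) (hio' z)
      rwa [H.io_io he (hio a) (hio (io a))] at this
  · have m1 : ¬ Bl (dartOf io ga a) (dartOf io' ga' z) := fun h => hc (bl_cell h)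
    have m2 : ¬ Bl (dartOf io ga (io a)) (dartOf io' ga' z) := fun h =>
      hc (a1.symm.trans (bl_cell h))
    have m3 : ¬ Bl (dartOf io ga a) (dartOf io' ga' (io' z)) := fun h =>
      hc ((bl_cell h).trans b1)
    have m4 : ¬ Bl (dartOf io ga (io a)) (dartOf io' ga' (io' z)) := fun h =>
      hc (a1.symm.trans ((bl_cell h).trans b1))
    simp only [NC, m1, m2, m3, m4]

theorem WW.pt_ne (H : WW P w nn) (hP : P.OK) (hd : P.dc e f) (hio : ∀ d, IoSpec d (io d))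
    (hga : ∀ d, GaSpec d (ga d)) (hio' : ∀ d, IoSpec d (io' d)) (hga' : ∀ d, GaSpec d (ga' d))
    {a : X P nn e} {z : X P nn f} (r1 : Reach io ga a) (r2 : Reach io ga (ga a)) :
    ¬ (a.sd.1 = z.sd.1 ∧ a.sd.2.1 = z.sd.2.1 ∧ hgt io ga a = hgt io' ga' z) := by
  rintro ⟨h1, h2, h3⟩
  have hf := hP.dc_act f e (hP.dc_symm e f hd)
  have hO : ¬ a.Od := fun hO => H.ends hP hd hO h1 h2
  have hO' : ¬ z.Od := by
    unfold X.Od at hO ⊢
    rwa [← h2]
  by_cases hdir : a.sd.2.2 = z.sd.2.2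
  · obtain ⟨g1, g2⟩ := sideOf_inj a.2.2.1 z.2.2.1 (Prod.ext h1 (Prod.ext h2 hdir))
    exact (H.hgt_lt hP hd hio hga hio' hga' r1 r2 g1 g2).2 h3
  · have hs : a.sd = (ga' z).sd := by
      rw [(hga' z).side hO']
      refine Prod.ext h1 (Prod.ext h2 ?_)
      revert hdir
      cases a.sd.2.2 <;> cases z.sd.2.2 <;> simp
    obtain ⟨g1, g2⟩ := sideOf_inj a.2.2.1 (ga' z).2.2.1 hs
    refine (H.hgt_lt hP hd hio hga hio' hga' r1 r2 g1 g2).2 ?_
    rw [h3, hgt_ga hga' (fun d => H.ga_ga hP hf (hga' d) (hga' _)) hO']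

end

end Pool.Agent.Lib.MP_02e8f2_lc.W2
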